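import Pool.Agent.W_7d29a1_PL.DefsPL
import Pool.Agent.W_7d29a1_KZ.DefsZ70

/-!
The Newman-Piza inequality is strict: definitions and frozen statements of the leaves (helper28).
Paper proof: `/team-store/h28_SNP.md`.
-/

namespace Pool.Agent.W_7d29a1_SNP

open MeasureTheory ProbabilityTheory Filter Topology Pool.Agent.W_MP_7d29a1_pr
  Pool.Agent.W_7d29a1_h46 Pool.Agent.W_7d29a1_h46u Pool.Agent.W_7d29a1_D2.B35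
  Pool.Agent.W_7d29a1_Q29 Pool.Agent.W_7d29a1_R34 Pool.Agent.W_7d29a1_SP
  Pool.Agent.W_7d29a1_PL Pool.Agent.W_7d29a1_SD Pool.Agent.W_7d29a1_KZ

/-- The times of the levels: `m l` is the first time at which a fluctuation reaches `2 ^ l`. -/
structure Lv {d : ℕ} (ρ : Measure ℝ) (β : ℝ) (h : Vec d) (m : ℕ → ℕ) : Prop where
  lo : ∀ l k : ℕ, k < m l → fM ρ β h k < 2 ^ l
  hi : ∀ l : ℕ, 2 ^ l ≤ fM ρ β h (m l)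

/-- The level `p` is not cheap. -/
def Nc (Λ : ℝ) (m : ℕ → ℕ) (p : ℕ) : Prop := ∀ j : ℕ, Λ ^ (j + 1) * (m p : ℝ) < m (p + j + 1)

/-- The length of the level `p`, no horizon. -/
noncomputable def Dq (m : ℕ → ℕ) (p : ℕ) : ℝ := Real.log ((m (p + 1) : ℝ) / m p)

/-- The deviation of the free energy of the length `H`, cut below at `-b` and above at `E_H + a`. -/
noncomputable def clp {d : ℕ} (ρ : Measure ℝ) (β : ℝ) (h : Vec d) (H : ℕ) (a b : ℝ) (η : Env d) :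
    ℝ := max (min (X β h η H - A ρ β h H) (En ρ β h H + a)) (-b)

/-- Great luck at some horizon `N H + s`, `1 ≤ N`, `s ≤ S`: slope `y` per block, slack `z`. -/
def Gk {d : ℕ} (ρ : Measure ℝ) (β : ℝ) (h : Vec d) (H S : ℕ) (y z : ℝ) : Set (Env d) :=
  {η | ∃ N s : ℕ, 1 ≤ N ∧ s ≤ S ∧
    ((N * H + s : ℕ) : ℝ) * lam ρ β h + N * y - z ≤ X β h η (N * H + s)}

/-- The group `2 ^ i ≤ N < 2 ^ (i + 1)` of the great luck. -/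
def Gg {d : ℕ} (ρ : Measure ℝ) (β : ℝ) (h : Vec d) (H S : ℕ) (y z : ℝ) (i : ℕ) : Set (Env d) :=
  {η | ∃ N s : ℕ, 2 ^ i ≤ N ∧ N < 2 ^ (i + 1) ∧ s ≤ S ∧
    ((N * H + s : ℕ) : ℝ) * lam ρ β h + N * y - z ≤ X β h η (N * H + s)}

/-- The mean of a function of the future at the position at the time `t` of the polymer of
length `n`. -/
noncomputable def uf {d : ℕ} (ρ : Measure ℝ) (β : ℝ) (h : Vec d) (n t : ℕ) (g : Env d → ℝ) : ℝ :=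
  ∫ η, ∑ y ∈ boxF d t, Qt β h n t y η * g (sh t y η) ∂(law d ρ)

/-- The budget of the polymer of length `n` for bounded functions of the future. -/
def BdF {d : ℕ} (ρ : Measure ℝ) (β : ℝ) (h : Vec d) (n : ℕ) (V κ : ℝ) : Prop :=
  ∀ (g : Env d → ℝ) (D Γ : ℝ), Measurable g → DependsOn g {q | 1 ≤ q.1} → (∀ η, |g η| ≤ D) →
    0 ≤ Γ → ∫ η, Real.exp (g η) ∂(law d ρ) ≤ Real.exp Γ →
    (∑ t ∈ Finset.range n, uf ρ β h n t g) / n ≤ Γ + V + κ * D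

/-- A system of long levels: as `Sy` of `DefsPL`, without horizon. -/
structure Sc {d : ℕ} (ρ : Measure ℝ) (β : ℝ) (h : Vec d) (a B : ℕ) (Λ ε : ℝ) (m : ℕ → ℕ)
    (I : Finset ℕ) : Prop where
  lo : ∀ l k : ℕ, k < m l → fM ρ β h k < 2 ^ l
  hi : ∀ l : ℕ, 2 ^ l ≤ fM ρ β h (m l)
  big : ∀ p ∈ I, a ≤ p ∧ 2 ≤ m (p - a)
  nc : ∀ p ∈ I, Nc Λ m p
  sp : ∀ p ∈ I, ∀ q ∈ I, p < q → p + 3 * a ≤ q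
  fs : ∀ p ∈ I, ∀ k : ℕ, k ≤ B * m p → Fn ρ β h k ≤ ε * 2 ^ p

section Leaves

variable (d : ℕ) (ρ : Measure ℝ) (β : ℝ)

/-- SEL (sequences): the levels which are not cheap fill a positive part of the logarithmic
scale. -/
def SelN : Prop := ∀ Λ x₁ g : ℝ, 1 < Λ → 0 < x₁ → x₁ * Real.log Λ < Real.log 2 → 0 < g →
  ∃ c g₀ : ℝ, 0 < c ∧ 0 < g₀ ∧ ∀ C : ℝ, ∃ W₀ : ℝ, ∀ (m : ℕ → ℕ) (W : ℝ) (l₀ l₁ : ℕ), W₀ ≤ W →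
    Monotone m → 1 ≤ m l₀ → (∀ l : ℕ, (2 : ℝ) ^ l ≤ C * (m l : ℝ) ^ x₁) →
    Real.log (m l₀) ≤ g₀ * W → g * W ≤ Real.log (m l₁) →
    (∀ l : ℕ, l < l₁ → Real.log (m l) < g * W) →
    ∃ I : Finset ℕ, (∀ p ∈ I, Nc Λ m p ∧ l₀ ≤ p ∧ p < l₁) ∧ c * W ≤ ∑ p ∈ I, Dq m p

/-- VAR: the variance at a level which is not cheap. -/
def VarN : Prop := ∀ (c₀ Λ : ℝ) (B : ℕ), 0 < c₀ → 4 < Λ → ∃ C : ℝ, 1 ≤ C ∧ ∀ h : Vec d,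
  Loc1 ρ β h c₀ → ∀ (m : ℕ → ℕ) (p : ℕ), Lv ρ β h m → Nc Λ m p → 1 ≤ m p → C ≤ 2 ^ p →
    ∀ k : ℕ, k ≤ B * m p → Va ρ β h k ≤ C * 4 ^ p ∧ fM ρ β h k ≤ C * 2 ^ p

/-- EXC: the nonrandom fluctuation is of the order of the level. -/
def ExcN : Prop := ∀ c₀ Λ : ℝ, 0 < c₀ → 4 < Λ → ∃ (B : ℕ) (e₁ C : ℝ), 1 ≤ B ∧ 0 < e₁ ∧ e₁ ≤ 1 ∧
  1 ≤ C ∧ ∀ h : Vec d, Loc1 ρ β h c₀ → ∀ (m : ℕ → ℕ) (p : ℕ), Lv ρ β h m → Nc Λ m p →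
    1 ≤ m p → C * (1 + Real.log (m p)) ≤ 2 ^ p →
      ∃ M : ℕ, 1 ≤ M ∧ M ≤ B * m p ∧ e₁ * 2 ^ p ≤ En ρ β h M

/-- FS: at a long level the random fluctuation is small. -/
def FsN : Prop := ∀ (c₀ Λ ε : ℝ) (B : ℕ), 0 < c₀ → 4 < Λ → 0 < ε → ∃ D₀ C : ℝ, 1 ≤ C ∧
  ∀ h : Vec d, Loc1 ρ β h c₀ → ∀ (m : ℕ → ℕ) (p : ℕ), Lv ρ β h m → Nc Λ m p → 1 ≤ m p →
    C ≤ 2 ^ p → D₀ ≤ Dq m p → ∀ k : ℕ, k ≤ B * m p → Fn ρ β h k ≤ ε * 2 ^ p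

/-- RSN: the rising sun lemma behind UST. -/
def RsnP : Prop := ∀ (N : ℕ) (f φ : ℕ → ℝ) (a b e : ℝ) (G : Finset ℕ), 0 ≤ a → 0 ≤ b →
  (∀ k : ℕ, k < N → -b ≤ φ k) →
  (∀ k : ℕ, k < N → k ∉ G → f k ≤ φ k ∧
    ∀ M : ℕ, 1 ≤ M → k + M ≤ N → ∑ i ∈ Finset.range M, f (k + i) ≤ M * a) →
  (∀ M : ℕ, M ≤ N → ∑ i ∈ Finset.range M, (f i - a) ≤ e) → 0 ≤ e →
    ∑ k ∈ Finset.range N, f k ≤
      ∑ k ∈ Finset.range N, φ k + 2 * (a + b) * ((G ∩ Finset.range N).card : ℝ) + e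

/-- UST: the polymer sees a larger mean of the cut deviation, up to great luck. -/
def UstP : Prop := ∃ C₁ : ℝ, 0 ≤ C₁ ∧ ∀ h : Vec d, ∃ C : ℝ, 0 ≤ C ∧ ∀ (n H : ℕ) (a b K : ℝ),
  1 ≤ H → H ≤ n → 0 ≤ a → 0 ≤ b → (∀ k : ℕ, k ≤ n → Va ρ β h k ≤ K) →
    En ρ β h H * (n - H) ≤ (∑ t ∈ Finset.range n, uf ρ β h n t (clp ρ β h H a b)) +
      2 * (a + b + En ρ β h H) * (∑ t ∈ Finset.range n, us ρ β h n t (Gk ρ β h H 0 a 0)) +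
      H * (b + En ρ β h n + C * (H + 1) + C * Real.sqrt ((n + 1) * K)) +
      C₁ * n * Real.log (2 * H + 1)

/-- GPL: the price of a group of great luck. -/
def GplN : Prop := ∀ (c₀ Λ ε : ℝ) (B : ℕ), 0 < c₀ → 4 < Λ → 0 < ε → ∃ Θ₀ : ℝ, 1 ≤ Θ₀ ∧
  ∀ Θ : ℝ, Θ₀ ≤ Θ → ∀ h : Vec d, Loc1 ρ β h c₀ → ∀ (m : ℕ → ℕ) (p : ℕ), Lv ρ β h m →
    Nc Λ m p → 1 ≤ m p → ∀ (H S : ℕ) (z : ℝ), 1 ≤ H → H ≤ B * m p → S ≤ m p → z ≤ 2 ^ p →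
      ∀ i : ℕ, (law d ρ).real (Gg ρ β h H S (Θ * 2 ^ p) z i) ≤ ε / Θ * (1 / 2) ^ i

/-- ADT: great luck at many separated levels. -/
def AdtN : Prop := ∀ (c₀ Λ ε : ℝ) (B : ℕ), 0 < c₀ → 4 < Λ → 0 < ε → ∃ Θ₀ : ℝ, 1 ≤ Θ₀ ∧
  ∀ Θ : ℝ, Θ₀ ≤ Θ → ∃ b : ℕ, 1 ≤ b ∧ ∀ h : Vec d, Loc1 ρ β h c₀ →
    ∀ (m : ℕ → ℕ) (H : ℕ → ℕ) (I : Finset ℕ), Lv ρ β h m →
      (∀ p ∈ I, b ≤ p ∧ 2 ≤ m (p - b) ∧ Nc Λ m p ∧ 1 ≤ H p ∧ H p ≤ B * m p) →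
      (∀ p ∈ I, ∀ q ∈ I, p < q → p + b ≤ q) →
        (law d ρ).real (⋂ p ∈ I, Gk ρ β h (H p) 0 (Θ * 2 ^ p) 0) ≤ (ε / Θ) ^ I.card

/-- EXM: the exponential moment of the sum of the cut deviations over separated levels. -/
def ExmN : Prop := ∀ (c₀ Λ e₁ ε : ℝ) (B : ℕ), 0 < c₀ → 4 < Λ → 0 < e₁ → 0 < ε →
  ∃ b : ℝ, 0 < b ∧ ∀ Θ : ℝ, 0 ≤ Θ → ∃ s₁ : ℝ, 0 < s₁ ∧ ∀ s : ℝ, 0 < s → s ≤ s₁ →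
    ∃ (b₂ : ℕ) (C : ℝ), 1 ≤ b₂ ∧ 1 ≤ C ∧ ∀ h : Vec d, Loc1 ρ β h c₀ →
      ∀ (m : ℕ → ℕ) (H : ℕ → ℕ) (I : Finset ℕ), Lv ρ β h m →
        (∀ p ∈ I, Nc Λ m p ∧ 1 ≤ m p ∧ H p ≤ B * m p ∧ e₁ * 2 ^ p ≤ En ρ β h (H p) ∧
          (∀ k : ℕ, k < H p → En ρ β h k < e₁ * 2 ^ p) ∧ C * (1 + Real.log (m p)) ≤ 2 ^ p) →
        (∀ p ∈ I, ∀ q ∈ I, p < q → p + b₂ ≤ q) →
          ∫ η, Real.exp (s * ∑ p ∈ I, clp ρ β h (H p) (Θ * 2 ^ p) (b * 2 ^ p) η / 2 ^ p)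
            ∂(law d ρ) ≤ Real.exp (I.card * (s * ε))

/-- COSTN: the price of a single luck at a long level (as `CostP`, no horizon). -/
def CostN : Prop := ∀ c₀ κ Λ : ℝ, 0 < c₀ → 0 < κ → κ ≤ 1 / 2 → 4 < Λ →
  ∃ (a₀ B : ℕ) (ε c C : ℝ), 0 < ε ∧ 0 < c ∧ 1 ≤ C ∧ ∀ a : ℕ, a₀ ≤ a → ∀ h : Vec d,
  Loc1 ρ β h c₀ → ∀ (n : ℕ) (m : ℕ → ℕ) (I : Finset ℕ), Sc ρ β h a B Λ ε m I →
    (∀ p ∈ I, ∀ i : ℕ, C * (1 + Real.log (m (p + i + 1))) ≤ 2 ^ i * 2 ^ p) → ∀ p ∈ I, ∀ i : ℕ,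
    (law d ρ).real (Lg ρ β h n (m p - 2 * m (p - a)) (2 * m (p - a)) (2 ^ p) κ (κ / 8 * 2 ^ p) i) ≤
      C * Real.exp (-(c * i)) * ((m p : ℝ) / m (p + i + 1)) ^ c

/-- ADDN: the prices of the long levels add up (as `AddP`, no horizon). -/
def AddN : Prop := ∀ c₀ κ Λ : ℝ, 0 < c₀ → 0 < κ → κ ≤ 1 / 2 → 4 < Λ →
  ∃ (a B : ℕ) (ε c C : ℝ), 1 ≤ a ∧ 0 < ε ∧ 0 < c ∧ 1 ≤ C ∧ ∀ h : Vec d, Loc1 ρ β h c₀ →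
  ∀ (n : ℕ) (m : ℕ → ℕ) (I : Finset ℕ), Sc ρ β h a B Λ ε m I →
    (∀ p ∈ I, ∀ i : ℕ, C * (1 + Real.log (m (p + i + 1))) ≤ 2 ^ i * 2 ^ p) →
    (law d ρ).real (⋂ p ∈ I, Lk ρ β h n (m p - 2 * m (p - a)) 0 (2 ^ p) κ 0) ≤
      Real.exp (C * I.card - c * ∑ p ∈ I, Dq m p)

/-- VAU: an upper bound of the variance of exponent `2 x₁`. -/
def VauN : Prop := ∀ (h : Vec d) (c₀ C x₁ : ℝ), 0 < c₀ → Loc1 ρ β h c₀ → 0 < x₁ → x₁ < 1 / 2 →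
  (∀ k : ℕ, fM ρ β h k ≤ C * (k : ℝ) ^ x₁) → ∃ C' : ℝ, ∀ k : ℕ, Va ρ β h k ≤ C' * (k : ℝ) ^ (2 * x₁)

/-- LOW: a power lower bound of the fluctuations from a power lower bound of the variance. -/
def LowN : Prop := ∀ (h : Vec d) (c₀ C x₁ y : ℝ), 0 < c₀ → Loc1 ρ β h c₀ → 0 < x₁ → x₁ < 1 / 2 →
  (∀ k : ℕ, fM ρ β h k ≤ C * (k : ℝ) ^ x₁) → 0 < y →
  (∀ᶠ k : ℕ in atTop, (k : ℝ) ^ y ≤ Va ρ β h k) →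
    ∃ c : ℝ, 0 < c ∧ ∀ᶠ k : ℕ in atTop, ∃ j : ℕ, j ≤ k ∧ (k : ℝ) ^ c ≤ fM ρ β h j

/-- CORN: the core: if the fluctuations are powers of exponent `< 1 / 2`, then the budget is at
least a positive multiple of `log n`. -/
def CorN : Prop := ∀ c₀ x₁ : ℝ, 0 < c₀ → 0 < x₁ → x₁ < 1 / 2 → ∃ c κ : ℝ, 0 < c ∧ 0 < κ ∧
  ∀ (h : Vec d) (C y : ℝ), Loc1 ρ β h c₀ → 0 < y →
    (∀ k : ℕ, fM ρ β h k ≤ C * (k : ℝ) ^ x₁ ∧ Va ρ β h k ≤ C * (k : ℝ) ^ (2 * x₁)) →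
    (∀ᶠ k : ℕ in atTop, ∃ j : ℕ, j ≤ k ∧ (k : ℝ) ^ y ≤ fM ρ β h j) →
      ∀ᶠ n : ℕ in atTop, ∀ V : ℝ, BdF ρ β h n V κ → c * Real.log n ≤ V

/-- BUF: the budget from windows. -/
def BufN : Prop := ∀ κ : ℝ, 0 < κ → ∃ C : ℝ, 1 ≤ C ∧ ∀ (h : Vec d) (n : ℕ) (N : ℝ)
  (R : ℕ → Finset (Site d)), 1 ≤ n → 0 ≤ N → (∀ t : ℕ, t < n → R t ⊆ boxF d t ∧
    ((R t).card : ℝ) ≤ N ∧ ∫ η, (1 - ∑ y ∈ R t, Qt β h n t y η) ∂(law d ρ) ≤ 1 / C) →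
      BdF ρ β h n (Real.log (C * (1 + N * Va ρ β h n / n))) κ

/-- The theorem: the Newman-Piza inequality is strict by a power. -/
def MainN : Prop := ∀ h v : Vec d, VSD ρ β h → ∀ δ₀ : ℝ, -(1 / 2) < δ₀ → d * (1 / 2 + δ₀) < 1 →
  HalfD ρ β h v δ₀ → ∃ c : ℝ, 0 < c ∧ ∀ δ : ℝ, HalfD ρ β h v δ → ∀ᶠ n : ℕ in atTop,
    (n : ℝ) ^ (1 + c) ≤ (n : ℝ) ^ (d * (1 / 2 + δ)) * Va ρ β h n

end Leaves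

end Pool.Agent.W_7d29a1_SNP
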