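import Pool.Agent.W_7d29a1_KZ.PriK74
import Pool.Agent.W_7d29a1_SQ.Lkt93
import Pool.Agent.W_7d29a1_Q29.Loc42
import Pool.Agent.W_7d29a1_SNP.DefsN28

/-!
Theorem SNP from its leaves: the variance of `log Z_n` is larger by a power of `n` than the
Newman-Piza bound, at every tilt and every direction (helper53).
-/

namespace Pool.Agent.W_7d29a1_SNP

open MeasureTheory ProbabilityTheory Filter Topology Pool.Agent.W_MP_7d29a1_pr
  Pool.Agent.W_7d29a1_h46 Pool.Agent.W_7d29a1_h46u Pool.Agent.W_7d29a1_D2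
  Pool.Agent.W_7d29a1_D2.B35 Pool.Agent.W_7d29a1_Q29 Pool.Agent.W_7d29a1_R34
  Pool.Agent.W_7d29a1_SP Pool.Agent.W_7d29a1_SD Pool.Agent.W_7d29a1_SQ
  Pool.Agent.W_7d29a1_V Pool.Agent.W_7d29a1_VT Pool.Agent.W_7d29a1_PL Pool.Agent.W_7d29a1_KZ

variable {d : ℕ} {ρ : Measure ℝ} [IsProbabilityMeasure ρ]

/-- Very strong disorder gives localisation. -/
lemma loc53 (hd : 0 < d) (hρ : EM ρ) {β : ℝ} {h : Vec d} (hV : VSD ρ β h) :
    ∃ c₀ : ℝ, 0 < c₀ ∧ Loc1 ρ β h c₀ := by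
  have hg : 0 < Real.log (Phi h) + Real.log (∫ t, Real.exp (β * t) ∂ρ) - lam ρ β h := by
    have : lam ρ β h < Real.log (Phi h) + Real.log (∫ t, Real.exp (β * t) ∂ρ) := hV
    linarith
  obtain ⟨c₀, hc₀, hc⟩ := Csy42.loc42 hd hρ β _ hg
  refine ⟨c₀, hc₀, fun n => ?_⟩
  exact hc h (by linarith) n

lemma va_nonneg53 (β : ℝ) (h : Vec d) (n : ℕ) : 0 ≤ Va ρ β h n :=
  integral_nonneg fun _ => sq_nonneg _

lemma va_zero53 (β : ℝ) (h : Vec d) : Va ρ β h 0 = 0 := by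
  unfold Va
  have h1 : ∀ η : Env d, X β h η 0 = 0 := by
    intro η
    unfold X
    rw [Z_zero, Real.log_one]
  simp [h1, A_zero15]

/-- The a priori bounds from a typical tube of any exponent less than `1`. -/
lemma pri53 (hd : 0 < d) (hρ : EM ρ) (β : ℝ) {h v : Vec d} {δ b : ℝ} (hδ0 : -(1 / 2) < δ)
    (hδ1 : δ < 1 / 2) (H : HalfD ρ β h v δ) (hb : (1 / 2 + δ) / 2 < b) :
    ∃ C : ℝ, 0 ≤ C ∧ ∀ n : ℕ, fM ρ β h n ≤ C * (n : ℝ) ^ b ∧
      Va ρ β h n ≤ C * (n : ℝ) ^ (2 * b) := by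
  have ha0 : 0 < 1 / 2 + δ := by linarith
  have ha1 : 1 / 2 + δ < 1 := by linarith
  have hb0 : 0 < b := by linarith
  have hT : TbP ρ β h v (1 / 2 + δ) := P74.tbP_of_HalfD H
  have hS := spaceV46 (ρ := ρ) hd hρ β ‖h‖
  obtain ⟨n₁, h₁⟩ := gap74 hd hρ ha1 (medT hd hρ hS ha0 ha1 hT) (addT36 hd hρ hS ha0 ha1 hT)
    (varAll10 hd hρ β h v ha0 ha1 hT) ha0 hb
  obtain ⟨n₂, h₂⟩ := varAll10 hd hρ β h v ha0 ha1 hT b hb
  have hV : ∀ n : ℕ, n₂ ≤ n → Va ρ β h n ≤ (n : ℝ) ^ (2 * b) := by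
    intro n hn
    refine le_trans (le_of_eq ?_) (h₂ n hn)
    unfold Va
    simp only [sq_abs]
  obtain ⟨N, hN⟩ : ∃ N : ℕ, N = max n₁ n₂ := ⟨_, rfl⟩
  have hpos : ∀ k : ℕ, 0 ≤ En ρ β h k + Fn ρ β h k + Va ρ β h k := fun k =>
    add_nonneg (add_nonneg (En_nonneg15 hd hρ β h k) (Fn_nonneg15 β h k)) (va_nonneg53 β h k)
  have hS0 : 0 ≤ ∑ k ∈ Finset.range N, (En ρ β h k + Fn ρ β h k + Va ρ β h k) :=
    Finset.sum_nonneg fun k _ => hpos k
  refine ⟨1 + ∑ k ∈ Finset.range N, (En ρ β h k + Fn ρ β h k + Va ρ β h k), by linarith,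
    fun n => ?_⟩
  rcases Nat.eq_zero_or_pos n with hn | hn
  · subst hn
    unfold fM
    rw [En_zero15, Fn_zero15, va_zero53, max_self]
    have e3 : (0 : ℝ) ≤ ((0 : ℕ) : ℝ) ^ b := Real.rpow_nonneg (Nat.cast_nonneg _) _
    have e4 : (0 : ℝ) ≤ ((0 : ℕ) : ℝ) ^ (2 * b) := Real.rpow_nonneg (Nat.cast_nonneg _) _
    constructor <;> positivity
  have hn1 : (1 : ℝ) ≤ n := by exact_mod_cast hn
  have hp1 : 1 ≤ (n : ℝ) ^ b := Real.one_le_rpow hn1 hb0.le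
  have hp2 : 1 ≤ (n : ℝ) ^ (2 * b) := Real.one_le_rpow hn1 (by linarith)
  have h6 := En_nonneg15 (ρ := ρ) hd hρ β h n
  have h7 := Fn_nonneg15 (ρ := ρ) β h n
  have h8 := va_nonneg53 (ρ := ρ) β h n
  have hS1 : ∀ {x y : ℝ}, x ≤ 1 + ∑ k ∈ Finset.range N, (En ρ β h k + Fn ρ β h k + Va ρ β h k) →
      1 ≤ y → x ≤ (1 + ∑ k ∈ Finset.range N, (En ρ β h k + Fn ρ β h k + Va ρ β h k)) * y := by
    intro x y hx hy
    refine hx.trans (le_mul_of_one_le_right (by linarith) hy)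
  have hS2 : ∀ {x y : ℝ}, x ≤ y → 0 ≤ y →
      x ≤ (1 + ∑ k ∈ Finset.range N, (En ρ β h k + Fn ρ β h k + Va ρ β h k)) * y := by
    intro x y hx hy
    refine hx.trans (le_mul_of_one_le_left hy (by linarith))
  rcases lt_or_ge n N with hlt | hge
  · have h5 : En ρ β h n + Fn ρ β h n + Va ρ β h n ≤
        ∑ k ∈ Finset.range N, (En ρ β h k + Fn ρ β h k + Va ρ β h k) :=
      Finset.single_le_sum (f := fun k => En ρ β h k + Fn ρ β h k + Va ρ β h k)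
        (fun k _ => hpos k) (Finset.mem_range.2 hlt)
    refine ⟨hS1 ?_ hp1, hS1 ?_ hp2⟩
    · unfold fM
      exact max_le (by linarith) (by linarith)
    · linarith
  · have hn₁ : n₁ ≤ n := (le_max_left _ _).trans (hN ▸ hge)
    have hn₂ : n₂ ≤ n := (le_max_right _ _).trans (hN ▸ hge)
    have h5 : En ρ β h n ≤ (n : ℝ) ^ b := h₁ n hn₁
    have hVn := hV n hn₂
    have h9 : Fn ρ β h n ^ 2 ≤ ((n : ℝ) ^ b) ^ 2 := by
      refine (Fn_sq15 hd hρ β h n).trans (hVn.trans (le_of_eq ?_))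
      rw [← Real.rpow_natCast, ← Real.rpow_mul (Nat.cast_nonneg _)]
      congr 1
      push_cast
      ring
    have h10 : Fn ρ β h n ≤ (n : ℝ) ^ b := by
      refine abs_le_of_sq_le_sq' h9 (by linarith) |>.2
    refine ⟨hS2 ?_ (by linarith), hS2 hVn (by linarith)⟩
    unfold fM
    exact max_le h5 h10

/-- The mass of the window of a tube. -/
lemma win53 (hd : 0 < d) (β : ℝ) (h v : Vec d) {n t : ℕ} (ht : t ≤ n) (w : ℝ) :
    ∫ η, (1 - ∑ y ∈ K93.Rt v w t, Qt β h n t y η) ∂(law d ρ) ≤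
      ∫ η, (1 - PolT β h η (tube d n v w)) ∂(law d ρ) := by
  have hQi : Integrable (fun η => ∑ y ∈ K93.Rt v w t, Qt β h n t y η) (law d ρ) :=
    integrable_finsetSum _ fun y _ =>
      Integrable.mono' (integrable_const (1 : ℝ))
        (S98.measurable_Qt β h n t y).aestronglyMeasurable
        (Eventually.of_forall fun η => by
          rw [Real.norm_eq_abs]
          exact S98.Qt_abs hd β h ht y η)
  have hPi : Integrable (fun η => 1 - PolT β h η (tube d n v w)) (law d ρ) := by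
    refine (integrable_const 1).sub (Integrable.of_bound
      (measurable_PolT β h _).aestronglyMeasurable 1 (Filter.Eventually.of_forall fun η => ?_))
    rw [Real.norm_eq_abs, abs_of_nonneg (PolT_nonneg β h η _)]
    exact PolT_le_one β h η _
  refine integral_mono ((integrable_const 1).sub hQi) hPi fun η => ?_
  have h1 := K93.tub93 v w β h ht η
  simp only
  linarith

/-- The Newman-Piza bound from a typical tube at the length `n`. -/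
lemma np53 (hd : 0 < d) {β C w : ℝ} {h v : Vec d} {n : ℕ} (hn : 1 ≤ n) (hw : 0 ≤ w)
    (hC : 0 ≤ C) (hNP : ∑ t ∈ Finset.Icc 1 n, ∫ η, ∑ y ∈ boxF d n,
      (cE ρ (Pa d t)ᶜ (Qt β h n t y) η) ^ 2 ∂(law d ρ) ≤ C * Va ρ β h n)
    (hT : ∫ η, (1 - PolT β h η (tube d n v w)) ∂(law d ρ) ≤ 1 / 4) :
    (n : ℝ) ≤ 2 * C * (2 * w + 1) ^ d * Va ρ β h n := by
  obtain ⟨N, hN⟩ : ∃ N : ℝ, N = (2 * w + 1) ^ d := ⟨_, rfl⟩
  have hN1 : 1 ≤ N := by
    rw [hN]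
    exact one_le_pow₀ (by linarith)
  have hn0 : (0 : ℝ) < n := by exact_mod_cast hn
  have h1 : ∀ t ∈ Finset.Icc 1 n, (1 : ℝ) ≤ 2 * N * ∫ η, ∑ y ∈ boxF d n,
      (cE ρ (Pa d t)ᶜ (Qt β h n t y) η) ^ 2 ∂(law d ρ) := by
    intro t ht
    have htn := (Finset.mem_Icc.1 ht).2
    have h2 := win53 (ρ := ρ) hd β h v htn w
    have h3 := K93.massG93 (ρ := ρ) (G := Qt β h n t) (fun y => S98.measurable_Qt β h n t y)
      (fun y η => S98.Qt_nonneg hd β h n t y η) (fun y η => S98.Qt_le_one hd β h htn y η)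
      (β := β) (h := h) (m := 0) (n := n) (t := t) (R := K93.Rt v w t)
      ((K93.Rt_sub v w t).trans (S98.boxF_mono htn)) (N := N)
      (by rw [hN]; exact K93.Rt_card v hw t)
      (T := Set.univ) MeasurableSet.univ (s := 2 * N) (by linarith)
    have hQi : Integrable (fun η => ∑ y ∈ K93.Rt v w t, Qt β h n t y η) (law d ρ) :=
      integrable_finsetSum _ fun y _ =>
        Integrable.mono' (integrable_const (1 : ℝ))
          (S98.measurable_Qt β h n t y).aestronglyMeasurable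
          (Eventually.of_forall fun η => by
            rw [Real.norm_eq_abs]
            exact S98.Qt_abs hd β h htn y η)
    have h4 : ∫ η, (1 - ∑ y ∈ K93.Rt v w t, Qt β h n t y η) ∂(law d ρ) =
        1 - ∫ η, ∑ y ∈ K93.Rt v w t, Qt β h n t y η ∂(law d ρ) := by
      rw [integral_sub (integrable_const 1) hQi]
      simp
    simp only [Set.indicator_univ, Pi.one_apply, mul_one, Set.mem_univ, Set.setOf_true,
      probReal_univ, one_mul] at h3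
    have h5 : N / (2 * N) = 1 / 2 := by
      field_simp
    rw [h5] at h3
    rw [h4] at h2
    linarith
  have h2 : (n : ℝ) ≤ 2 * N * ∑ t ∈ Finset.Icc 1 n, ∫ η, ∑ y ∈ boxF d n,
      (cE ρ (Pa d t)ᶜ (Qt β h n t y) η) ^ 2 ∂(law d ρ) := by
    rw [Finset.mul_sum]
    refine le_trans (le_of_eq ?_) (Finset.sum_le_sum h1)
    simp
  refine h2.trans ?_
  rw [← hN]
  have h3 := mul_le_mul_of_nonneg_left hNP (show (0 : ℝ) ≤ 2 * N by linarith)
  linarith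

/-- **THEOREM SNP from its leaves.** -/
theorem mainN53 (hd : 0 < d) (hρ : EM ρ) {β : ℝ} (hNP : NPB d ρ β) (hL : LowN d ρ β)
    (hC : CorN d ρ β) (hB : BufN d ρ β) : MainN d ρ β := by
  intro h v hV δ₀ hδ₀ hd1 H₀
  have hd1' : (1 : ℝ) ≤ d := by exact_mod_cast hd
  have ha0 : 0 < 1 / 2 + δ₀ := by linarith
  have ha1 : 1 / 2 + δ₀ < 1 := by nlinarith
  obtain ⟨c₀, hc₀, hloc⟩ := loc53 hd hρ hV
  obtain ⟨x₁, hx₁, hx₁'⟩ : ∃ x₁ : ℝ, (1 / 2 + δ₀) / 2 < x₁ ∧ x₁ < 1 / 2 :=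
    exists_between (by linarith)
  have hx0 : 0 < x₁ := by linarith
  obtain ⟨C₁, hC₁, hpri⟩ := pri53 hd hρ β hδ₀ (by linarith) H₀ hx₁
  obtain ⟨C₂, hC₂, hnp⟩ := hNP
  obtain ⟨c, κ, hc, hκ, hcor⟩ := hC c₀ x₁ hc₀ hx0 hx₁'
  obtain ⟨C₃, hC₃, hbuf⟩ := hB κ hκ
  -- the Newman-Piza bound
  have hnpD : ∀ δ : ℝ, HalfD ρ β h v δ → ∀ᶠ n : ℕ in atTop,
      (n : ℝ) ≤ 2 * C₂ * (2 * (n : ℝ) ^ (1 / 2 + δ) + 1) ^ d * Va ρ β h n := by
    intro δ hδ
    filter_upwards [hδ (1 / 4) (by norm_num), eventually_ge_atTop 1] with n hn hn1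
    have hn0 : (0 : ℝ) < n := by exact_mod_cast hn1
    have e1 : (n : ℝ) ^ δ * Real.sqrt n = (n : ℝ) ^ (1 / 2 + δ) := by
      rw [Real.sqrt_eq_rpow, ← Real.rpow_add hn0, add_comm]
    unfold Tb at hn
    rw [e1] at hn
    exact np53 hd hn1 (Real.rpow_nonneg hn0.le _) hC₂ (hnp h n) hn
  have hrad : ∀ δ : ℝ, -(1 / 2) < δ → ∀ n : ℕ, 1 ≤ n →
      (2 * (n : ℝ) ^ (1 / 2 + δ) + 1) ^ d ≤ 3 ^ d * (n : ℝ) ^ (d * (1 / 2 + δ)) := by
    intro δ hδ n hn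
    have hn1 : (1 : ℝ) ≤ n := by exact_mod_cast hn
    have h1 : 1 ≤ (n : ℝ) ^ (1 / 2 + δ) := Real.one_le_rpow hn1 (by linarith)
    calc (2 * (n : ℝ) ^ (1 / 2 + δ) + 1) ^ d ≤ (3 * (n : ℝ) ^ (1 / 2 + δ)) ^ d :=
          pow_le_pow_left₀ (by linarith) (by linarith) d
      _ = 3 ^ d * (n : ℝ) ^ (d * (1 / 2 + δ)) := by
          rw [mul_pow, ← Real.rpow_natCast ((n : ℝ) ^ (1 / 2 + δ)) d,
            ← Real.rpow_mul (by linarith), mul_comm (1 / 2 + δ) (d : ℝ)]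
  -- the lower bound of the variance
  obtain ⟨y, hy⟩ : ∃ y : ℝ, y = (1 - d * (1 / 2 + δ₀)) / 2 := ⟨_, rfl⟩
  have hy0 : 0 < y := by
    rw [hy]
    linarith
  have hvar : ∀ᶠ k : ℕ in atTop, (k : ℝ) ^ y ≤ Va ρ β h k := by
    have ht : Tendsto (fun n : ℕ => (n : ℝ) ^ y) atTop atTop :=
      (tendsto_rpow_atTop hy0).comp tendsto_natCast_atTop_atTop
    filter_upwards [hnpD δ₀ H₀, eventually_ge_atTop 1,
      ht.eventually_ge_atTop (2 * C₂ * 3 ^ d)] with n hn hn1 hn2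
    have hn0 : (0 : ℝ) < n := by exact_mod_cast hn1
    have h1 := hrad δ₀ hδ₀ n hn1
    have h2 := va_nonneg53 (ρ := ρ) β h n
    have h3 : (n : ℝ) ≤ (n : ℝ) ^ y * ((n : ℝ) ^ (d * (1 / 2 + δ₀)) * Va ρ β h n) := by
      calc (n : ℝ) ≤ 2 * C₂ * (2 * (n : ℝ) ^ (1 / 2 + δ₀) + 1) ^ d * Va ρ β h n := hn
        _ ≤ 2 * C₂ * (3 ^ d * (n : ℝ) ^ (d * (1 / 2 + δ₀))) * Va ρ β h n := by
            gcongr
        _ = 2 * C₂ * 3 ^ d * ((n : ℝ) ^ (d * (1 / 2 + δ₀)) * Va ρ β h n) := by ring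
        _ ≤ (n : ℝ) ^ y * ((n : ℝ) ^ (d * (1 / 2 + δ₀)) * Va ρ β h n) :=
            mul_le_mul_of_nonneg_right hn2 (mul_nonneg (Real.rpow_nonneg hn0.le _) h2)
    have e1 : (n : ℝ) = (n : ℝ) ^ y * ((n : ℝ) ^ (d * (1 / 2 + δ₀)) * (n : ℝ) ^ y) := by
      rw [← Real.rpow_add hn0, ← Real.rpow_add hn0]
      conv_lhs => rw [← Real.rpow_one (n : ℝ)]
      congr 1
      rw [hy]
      ring
    have h4 : (n : ℝ) ^ y * ((n : ℝ) ^ (d * (1 / 2 + δ₀)) * (n : ℝ) ^ y) ≤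
        (n : ℝ) ^ y * ((n : ℝ) ^ (d * (1 / 2 + δ₀)) * Va ρ β h n) := e1 ▸ h3
    exact le_of_mul_le_mul_left (le_of_mul_le_mul_left h4 (Real.rpow_pos_of_pos hn0 _))
      (Real.rpow_pos_of_pos hn0 _)
  obtain ⟨c₁, hc₁, hlow⟩ := hL h c₀ C₁ x₁ y hc₀ hloc hx0 hx₁' (fun k => (hpri k).1) hy0 hvar
  have hcore := hcor h C₁ c₁ hloc hc₁ hpri hlow
  refine ⟨c / 2, by linarith, fun δ hδ => ?_⟩
  rcases le_or_gt δ (-(1 / 2)) with hle | hgt
  · -- no tube of a bounded radius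
    exfalso
    have ht : Tendsto (fun n : ℕ => (n : ℝ) ^ (1 - 2 * x₁)) atTop atTop :=
      (tendsto_rpow_atTop (by linarith)).comp tendsto_natCast_atTop_atTop
    obtain ⟨n, hn, hn1, hn2⟩ := ((hnpD δ hδ).and ((eventually_ge_atTop 1).and
      (ht.eventually_gt_atTop (2 * C₂ * 3 ^ d * C₁)))).exists
    have hn0 : (0 : ℝ) < n := by exact_mod_cast hn1
    have hn1' : (1 : ℝ) ≤ n := by exact_mod_cast hn1
    have h1 : (n : ℝ) ^ (1 / 2 + δ) ≤ 1 := Real.rpow_le_one_of_one_le_of_nonpos hn1' (by linarith)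
    have h1' : 0 ≤ (n : ℝ) ^ (1 / 2 + δ) := Real.rpow_nonneg hn0.le _
    have h2 := (hpri n).2
    have h3 := va_nonneg53 (ρ := ρ) β h n
    have h4 : (n : ℝ) ≤ 2 * C₂ * 3 ^ d * C₁ * (n : ℝ) ^ (2 * x₁) := by
      calc (n : ℝ) ≤ 2 * C₂ * (2 * (n : ℝ) ^ (1 / 2 + δ) + 1) ^ d * Va ρ β h n := hn
        _ ≤ 2 * C₂ * 3 ^ d * (C₁ * (n : ℝ) ^ (2 * x₁)) := by
            have h5 : (2 * (n : ℝ) ^ (1 / 2 + δ) + 1) ^ d ≤ 3 ^ d :=
              pow_le_pow_left₀ (by linarith) (by linarith) d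
            gcongr
        _ = 2 * C₂ * 3 ^ d * C₁ * (n : ℝ) ^ (2 * x₁) := by ring
    have e1 : (n : ℝ) = (n : ℝ) ^ (1 - 2 * x₁) * (n : ℝ) ^ (2 * x₁) := by
      rw [← Real.rpow_add hn0]
      simp
    have h6 := mul_lt_mul_of_pos_right hn2 (Real.rpow_pos_of_pos hn0 (2 * x₁))
    linarith
  · have ht : Tendsto (fun n : ℕ => (n : ℝ) ^ (c / 2)) atTop atTop :=
      (tendsto_rpow_atTop (by linarith)).comp tendsto_natCast_atTop_atTop
    filter_upwards [hcore, hδ (1 / C₃) (by positivity), eventually_ge_atTop 1,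
      ht.eventually_ge_atTop (2 * C₃ * 3 ^ d)] with n hn hn' hn1 hn2
    have hn0 : (0 : ℝ) < n := by exact_mod_cast hn1
    have hn1' : (1 : ℝ) ≤ n := by exact_mod_cast hn1
    have e1 : (n : ℝ) ^ δ * Real.sqrt n = (n : ℝ) ^ (1 / 2 + δ) := by
      rw [Real.sqrt_eq_rpow, ← Real.rpow_add hn0, add_comm]
    unfold Tb at hn'
    rw [e1] at hn'
    have hw : 0 ≤ (n : ℝ) ^ (1 / 2 + δ) := Real.rpow_nonneg hn0.le _
    have hN0 : 0 ≤ (2 * (n : ℝ) ^ (1 / 2 + δ) + 1) ^ d := by positivity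
    have h1 := hbuf h n ((2 * (n : ℝ) ^ (1 / 2 + δ) + 1) ^ d)
      (fun t => K93.Rt v ((n : ℝ) ^ (1 / 2 + δ)) t) hn1 hN0 (fun t htn =>
        ⟨K93.Rt_sub _ _ _, K93.Rt_card v hw t, (win53 hd β h v htn.le _).trans hn'⟩)
    have h2 := hn _ h1
    have h3 := va_nonneg53 (ρ := ρ) β h n
    have h4 := hrad δ hgt n hn1
    obtain ⟨P, hP⟩ : ∃ P : ℝ, P = (n : ℝ) ^ (d * (1 / 2 + δ)) * Va ρ β h n := ⟨_, rfl⟩
    have hP0 : 0 ≤ P := by
      rw [hP]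
      exact mul_nonneg (Real.rpow_nonneg hn0.le _) h3
    have h5 : (2 * (n : ℝ) ^ (1 / 2 + δ) + 1) ^ d * Va ρ β h n / n ≤ 3 ^ d * P / n := by
      refine div_le_div_of_nonneg_right ?_ hn0.le
      rw [hP, ← mul_assoc]
      exact mul_le_mul_of_nonneg_right h4 h3
    have h6 : 0 ≤ (2 * (n : ℝ) ^ (1 / 2 + δ) + 1) ^ d * Va ρ β h n / n := by positivity
    have h7 : (n : ℝ) ^ c ≤ C₃ * (1 + 3 ^ d * P / n) := by
      have h8 : Real.exp (c * Real.log n) ≤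
          C₃ * (1 + (2 * (n : ℝ) ^ (1 / 2 + δ) + 1) ^ d * Va ρ β h n / n) := by
        rw [← Real.exp_log (show 0 < C₃ * (1 + (2 * (n : ℝ) ^ (1 / 2 + δ) + 1) ^ d *
          Va ρ β h n / n) by positivity)]
        exact Real.exp_le_exp.2 h2
      have h9 : (n : ℝ) ^ c = Real.exp (c * Real.log n) := by
        rw [Real.rpow_def_of_pos hn0, mul_comm]
      rw [h9]
      refine h8.trans ?_
      have := mul_le_mul_of_nonneg_left (add_le_add_right h5 1) (show (0 : ℝ) ≤ C₃ by linarith)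
      exact this
    -- conclusion
    have e2 : (n : ℝ) ^ c = (n : ℝ) ^ (c / 2) * (n : ℝ) ^ (c / 2) := by
      rw [← Real.rpow_add hn0]
      congr 1
      ring
    have e3 : (n : ℝ) ^ (1 + c / 2) = n * (n : ℝ) ^ (c / 2) := by
      rw [Real.rpow_add hn0, Real.rpow_one]
    have h3d : (1 : ℝ) ≤ 3 ^ d := one_le_pow₀ (by norm_num)
    have hq1 : 1 ≤ (n : ℝ) ^ (c / 2) := Real.one_le_rpow hn1' (by linarith)
    obtain ⟨q, hq⟩ : ∃ q : ℝ, q = (n : ℝ) ^ (c / 2) := ⟨_, rfl⟩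
    rw [← hP, e3, ← hq]
    rw [e2, ← hq] at h7
    rw [← hq] at hn2 hq1
    have h10 : q * q ≤ C₃ + C₃ * 3 ^ d * P / n := by
      refine h7.trans (le_of_eq ?_)
      ring
    have h11 : 2 * C₃ ≤ q := by
      refine le_trans ?_ hn2
      nlinarith
    have h12 : C₃ ≤ q * q / 2 := by nlinarith
    have h13 : q * q / 2 ≤ C₃ * 3 ^ d * P / n := by linarith
    rw [le_div_iff₀ hn0] at h13
    have h14 : 2 * C₃ * 3 ^ d * P ≤ q * P := mul_le_mul_of_nonneg_right hn2 hP0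
    have hq0 : 0 < q := by linarith
    have h15 : q * (n * q) ≤ q * P := by nlinarith
    exact le_of_mul_le_mul_left h15 hq0

end Pool.Agent.W_7d29a1_SNP
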