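import Pool.Agent.W_7d29a1_KZ.TrZ19
import Pool.Agent.W_7d29a1_KZ.OwnN20
import Pool.Agent.W_7d29a1_VT.Fin53
import Pool.Agent.W_7d29a1_SNP.DefsN28

/-!
Theorem SNP in the letters of the problem: `1 < d ν + 2 χ` at every tilt and every direction
(helper53).
-/

namespace Pool.Agent.W_7d29a1_SNP

open MeasureTheory ProbabilityTheory Filter Topology Pool.Agent.W_MP_7d29a1_pr
  Pool.Agent.W_7d29a1_h46 Pool.Agent.W_7d29a1_h46u Pool.Agent.W_7d29a1_D2
  Pool.Agent.W_7d29a1_D2.B35 Pool.Agent.W_7d29a1_Q29 Pool.Agent.W_7d29a1_R34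
  Pool.Agent.W_7d29a1_SP Pool.Agent.W_7d29a1_SD Pool.Agent.W_7d29a1_V Pool.Agent.W_7d29a1_VT
  Pool.Agent.W_7d29a1_KZ

variable {d : ℕ} {Ω : Type*} [MeasurableSpace Ω] {μ : Measure Ω} [IsProbabilityMeasure μ]
  {ρ : Measure ℝ} [IsProbabilityMeasure ρ] {ω : ℕ × Site d → Ω → ℝ} {β : ℝ}

/-- The set of the exponent `χ(h)` is bounded above. -/
lemma chiT_bdd53 (hd : 0 < d) (hω : IID μ ρ ω) (hρ : EM ρ) (h : Vec d) :
    BddAbove {x : ℝ | 0 < x ∧ ∀ᶠ n : ℕ in atTop,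
      (n : ℝ) ^ (2 * x) ≤ Var[fun y => Real.log (Zn β h (fun p => ω p y) n); μ]} := by
  obtain ⟨-, hF⟩ := (mem_chiSetF (μ := μ) (β := β) hd hω hρ h (1 / 2)).1
    (half_mem_chiSetF hd hω hρ h)
  obtain ⟨C, hC⟩ := hF 2
  refine ⟨1, fun x hx => ?_⟩
  by_contra hcon
  have hx1 : 1 < x := not_le.1 hcon
  have ht : Tendsto (fun n : ℕ => (n : ℝ) ^ (2 * x - 1)) atTop atTop :=
    (tendsto_rpow_atTop (by linarith)).comp tendsto_natCast_atTop_atTop
  obtain ⟨n, hn, hn1, hn2⟩ := (hx.2.and ((eventually_ge_atTop 1).and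
    (ht.eventually_gt_atTop C))).exists
  have hn0 : (0 : ℝ) < n := by exact_mod_cast hn1
  have h2 := hC n hn1
  rw [var_eq53 hd hω hρ] at hn
  have e1 : (n : ℝ) ^ ((1 / 2 : ℝ) * ((2 : ℕ) : ℝ)) = n := by
    rw [show ((1 / 2 : ℝ) * ((2 : ℕ) : ℝ)) = 1 by norm_num, Real.rpow_one]
  rw [e1] at h2
  have e2 : (n : ℝ) ^ (2 * x) = (n : ℝ) ^ (2 * x - 1) * n := by
    rw [← Real.rpow_add_one hn0.ne']
    congr 1
    ring
  rw [e2] at hn
  exact absurd (le_of_mul_le_mul_right (hn.trans h2) hn0) (not_le.2 hn2)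

/-- `χ(h) ≥ 0`. -/
lemma chiT_nn53 (h : Vec d) : 0 ≤ chiT μ β ω h := Real.sSup_nonneg fun x hx => hx.1.le

/-- From the core: `1 < d ν + 2 χ` at a tilt of very strong disorder with `d ν < 1`. -/
theorem core53 (hd : 0 < d) (hω : IID μ ρ ω) (hρ : EM ρ) (hM : MainN d ρ β) {h v : Vec d}
    (hV : VSD ρ β h) (hn : d * nuT μ β ω h v < 1) :
    1 < d * nuT μ β ω h v + 2 * chiT μ β ω h := by
  have h0 : 0 ≤ nuT μ β ω h v := Real.sInf_nonneg fun b hb => hb.1.le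
  have hd0 : (0 : ℝ) < d := by exact_mod_cast hd
  have hχ := chiT_nn53 (μ := μ) (β := β) (ω := ω) h
  obtain ⟨a₀, ha₀, ha₁⟩ := exists_between
    (show nuT μ β ω h v < 1 / d by rw [lt_div_iff₀ hd0]; linarith)
  have ha₂ : d * a₀ < 1 := by
    rw [lt_div_iff₀ hd0] at ha₁
    linarith
  obtain ⟨c, hc, hev⟩ := hM h v hV (a₀ - 1 / 2) (by linarith)
    (by rw [show (1 / 2 + (a₀ - 1 / 2) : ℝ) = a₀ by ring]; exact ha₂) (halfD19 hd hω ha₀)
  have key : ∀ a : ℝ, nuT μ β ω h v < a → 1 + c ≤ d * a + 2 * chiT μ β ω h := by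
    intro a ha
    by_contra hcon
    push Not at hcon
    obtain ⟨y, hy⟩ : ∃ y : ℝ, y = (1 + c - d * a) / 2 := ⟨_, rfl⟩
    have hy0 : 0 < y := by rw [hy]; linarith
    have hyχ : chiT μ β ω h < y := by rw [hy]; linarith
    have hmem : y ∈ {x : ℝ | 0 < x ∧ ∀ᶠ n : ℕ in atTop,
        (n : ℝ) ^ (2 * x) ≤ Var[fun y => Real.log (Zn β h (fun p => ω p y) n); μ]} := by
      refine ⟨hy0, ?_⟩
      filter_upwards [hev (a - 1 / 2) (halfD19 hd hω ha), eventually_ge_atTop 1] with n h1 hn3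
      have hn0 : (0 : ℝ) < n := by exact_mod_cast hn3
      rw [varV19 hd hω hρ]
      have e2 : (n : ℝ) ^ (1 + c) =
          (n : ℝ) ^ (d * (1 / 2 + (a - 1 / 2))) * (n : ℝ) ^ (2 * y) := by
        rw [← Real.rpow_add hn0]
        congr 1
        rw [hy]
        ring
      rw [e2] at h1
      exact le_of_mul_le_mul_left h1 (Real.rpow_pos_of_pos hn0 _)
    exact absurd (le_csSup (chiT_bdd53 hd hω hρ h) hmem) (not_le.2 hyχ)
  have h1 : 1 + c ≤ d * nuT μ β ω h v + 2 * chiT μ β ω h := by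
    by_contra hcon
    push Not at hcon
    obtain ⟨δ, hδ⟩ : ∃ δ : ℝ, δ = (1 + c - (d * nuT μ β ω h v + 2 * chiT μ β ω h)) / (2 * d) :=
      ⟨_, rfl⟩
    have hδ0 : 0 < δ := by
      rw [hδ]
      exact div_pos (by linarith) (by linarith)
    have h2 := key (nuT μ β ω h v + δ) (by linarith)
    have h3 : d * δ = (1 + c - (d * nuT μ β ω h v + 2 * chiT μ β ω h)) / 2 := by
      rw [hδ]
      field_simp
    nlinarith
  linarith

/-- **The strict inequality of Newman and Piza in the letters of the problem**: every dimension,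
every tilt and every direction, `h = v = 0` included. `hO` is Theorem OWN. -/
theorem trN53 (hd : 0 < d) (hω : IID μ ρ ω) (hρ : EM ρ) (hM : MainN d ρ β) (h v : Vec d)
    (hO : 0 < chiT μ β ω h ∨ 1 < d * nuT μ β ω h v)
    (hN : ¬ VSD ρ β h → 1 < d * nuT μ β ω h v) :
    1 < d * nuT μ β ω h v + 2 * chiT μ β ω h := by
  have hχ := chiT_nn53 (μ := μ) (β := β) (ω := ω) h
  rcases lt_or_ge (d * nuT μ β ω h v) 1 with h1 | h1
  · by_cases hV : VSD ρ β h
    · exact core53 hd hω hρ hM hV h1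
    · have := hN hV
      linarith
  · rcases hO with h2 | h2
    · linarith
    · linarith

/-- The same with the tilts outside very strong disorder closed by `ownN20`. -/
theorem trNN53 (hd : 0 < d) (hω : IID μ ρ ω) (hρ : EM ρ) (hnc : ∀ c : ℝ, ρ {c} ≠ 1)
    (hβ : 0 < β) (hM : MainN d ρ β) (h v : Vec d)
    (hO : 0 < chiT μ β ω h ∨ 1 < d * nuT μ β ω h v) :
    1 < d * nuT μ β ω h v + 2 * chiT μ β ω h :=
  trN53 hd hω hρ hM h v hO fun hV => by
    have := ownN20 (μ := μ) hd hω hρ hnc hβ h hV v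
    linarith

end Pool.Agent.W_7d29a1_SNP
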