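import Pool.Agent.W_7d29a1_SNP.CorAll63
import Pool.Agent.W_7d29a1_SNP.Main53
import Pool.Agent.W_7d29a1_SNP.TrN53
import Pool.Agent.W_7d29a1_QM.OwnF74
import Pool.Agent.W_7d29a1_Q29.Npf98

/-!
Theorem SNP, every law, in the letters of the problem (helper63): the final plug.
-/

set_option autoImplicit false

namespace Pool.Agent.W_7d29a1_SNP

open MeasureTheory ProbabilityTheory Filter Topology Pool.Agent.W_MP_7d29a1_pr
  Pool.Agent.W_7d29a1_h46 Pool.Agent.W_7d29a1_h46u Pool.Agent.W_7d29a1_D2.B35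
  Pool.Agent.W_7d29a1_Q29 Pool.Agent.W_7d29a1_R34 Pool.Agent.W_7d29a1_SP
  Pool.Agent.W_7d29a1_PL Pool.Agent.W_7d29a1_SD Pool.Agent.W_7d29a1_KZ

/-- **MAINN**, every law. -/
theorem mainNAll63 {d : ℕ} {ρ : Measure ℝ} [IsProbabilityMeasure ρ] {β : ℝ} (hd : 0 < d)
    (hρ : EM ρ) (hnc : ∀ c : ℝ, ρ {c} ≠ 1) (hβ : 0 < β) : MainN d ρ β :=
  mainN53 hd hρ (npb98 hd hρ hnc hβ)
    (lowN95 (varFN41 hd hρ hnc hβ (cnt79 hd hρ β)))
    (corNAll63 hd hρ hnc hβ) (bufN85 hd (npb98 hd hρ hnc hβ))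

variable {Ω : Type*} [MeasurableSpace Ω] {μ : Measure Ω} [IsProbabilityMeasure μ] {d : ℕ}
  {ρ : Measure ℝ} [IsProbabilityMeasure ρ] {ω : ℕ × Site d → Ω → ℝ} {β : ℝ}

/-- **The Newman-Piza inequality is strict**: every dimension, every law, every tilt and every
direction. -/
theorem snpAll63 (hd : 0 < d) (hω : IID μ ρ ω) (hρ : EM ρ) (hnc : ∀ c : ℝ, ρ {c} ≠ 1)
    (hβ : 0 < β) (h v : Vec d) : 1 < d * nuT μ β ω h v + 2 * chiT μ β ω h :=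
  trNN53 hd hω hρ hnc hβ (mainNAll63 hd hρ hnc hβ) h v
    ((Pool.Agent.W_7d29a1_OW.ownF74 hd hω hρ hnc hβ h).imp id fun H => H v)

end Pool.Agent.W_7d29a1_SNP
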