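import Pool.Agent.W_7d29a1_PL.Add89

/-!
ADDB: the prices of the long levels add up (no cut at `n`, ratio of the levels larger than 4), from
CAT and COSTB: the induction, with plain hypotheses.
-/

set_option autoImplicit false

namespace Pool.Agent.W_7d29a1_SNP.AB90

open MeasureTheory ProbabilityTheory Filter Topology Pool.Agent.W_MP_7d29a1_pr
  Pool.Agent.W_7d29a1_h46 Pool.Agent.W_7d29a1_h46u Pool.Agent.W_7d29a1_D2.B35
  Pool.Agent.W_7d29a1_Q29 Pool.Agent.W_7d29a1_R34 Pool.Agent.W_7d29a1_SP Pool.Agent.W_7d29a1_PL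
  Pool.Agent.W_7d29a1_PL.A89

variable {d : ℕ} {ρ : Measure ℝ} {β : ℝ} {h : Vec d}

/-- The length of the level `p`, no cut. -/
noncomputable def DB (m : ℕ → ℕ) (p : ℕ) : ℝ := Real.log ((m (p + 1) : ℝ) / m p)

/-- The levels, plain hypotheses. -/
structure LvB (ρ : Measure ℝ) (β : ℝ) (h : Vec d) (a : ℕ) (Λ : ℝ) (m : ℕ → ℕ) (I : Finset ℕ) :
    Prop where
  lo : ∀ l k : ℕ, k < m l → fM ρ β h k < 2 ^ l
  mono : Monotone m
  big : ∀ p ∈ I, a ≤ p ∧ 2 ≤ m (p - a)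
  size : ∀ p ∈ I, 2 * m (p - a) < m p
  nc : ∀ p ∈ I, ∀ j : ℕ, Λ ^ (j + 1) * m p < m (p + j + 1)
  sp : ∀ p ∈ I, ∀ q ∈ I, p < q → p + 3 * a ≤ q

section Levels

variable {a : ℕ} {Λ : ℝ} {m : ℕ → ℕ} {I : Finset ℕ}

lemma one_leB (hS : LvB ρ β h a Λ m I) {p : ℕ} (hp : p ∈ I) : 1 ≤ m p := by
  have h1 := (hS.big p hp).2
  have h2 := hS.mono (Nat.sub_le p a)
  omega

lemma farB (hS : LvB ρ β h a Λ m I) (ha : 1 ≤ a) (hΛ : 4 ≤ Λ) {q p i : ℕ}
    (hq : q ∈ I) (hp : p ∈ I) (hqp : q < p) (hi : m (p - a) ^ 4 < 32 ^ i * m q ^ 4) :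
    p ≤ q + i := by
  have h1 := hS.sp q hq p hp hqp
  obtain ⟨j, hj⟩ : ∃ j, p - a = q + j + 1 := ⟨p - a - q - 1, by omega⟩
  have h2 := hS.nc q hq j
  rw [← hj] at h2
  have hmq : (0 : ℝ) < m q := by exact_mod_cast one_leB hS hq
  have h3 : (4 : ℝ) ^ (j + 1) * m q < m (p - a) :=
    lt_of_le_of_lt (mul_le_mul_of_nonneg_right (pow_le_pow_left₀ (by norm_num) hΛ _) hmq.le) h2
  have h4 : ((4 : ℝ) ^ (j + 1) * m q) ^ 4 < (m (p - a) : ℝ) ^ 4 :=
    pow_lt_pow_left₀ h3 (by positivity) (by norm_num)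
  have h5 : (m (p - a) : ℝ) ^ 4 < 32 ^ i * (m q : ℝ) ^ 4 := by exact_mod_cast hi
  have h6 : ((4 : ℝ) ^ (j + 1)) ^ 4 * (m q : ℝ) ^ 4 < 32 ^ i * (m q : ℝ) ^ 4 := by
    rw [mul_pow] at h4
    exact h4.trans h5
  have h7 : ((4 : ℝ) ^ (j + 1)) ^ 4 < 32 ^ i := lt_of_mul_lt_mul_right h6 (by positivity)
  have h8 : (2 : ℝ) ^ (8 * (j + 1)) < 2 ^ (5 * i) := by
    have e1 : ((4 : ℝ) ^ (j + 1)) ^ 4 = 2 ^ (8 * (j + 1)) := by
      rw [← pow_mul, show (4 : ℝ) = 2 ^ 2 by norm_num, ← pow_mul]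
      congr 1
      ring
    have e2 : (32 : ℝ) ^ i = 2 ^ (5 * i) := by
      rw [pow_mul]
      norm_num
    rw [← e1, ← e2]
    exact h7
  have h9 : 8 * (j + 1) < 5 * i := (pow_lt_pow_iff_right₀ (by norm_num : (1 : ℝ) < 2)).1 h8
  omega

lemma nextB (hS : LvB ρ β h a Λ m I) (ha : 1 ≤ a) (hΛ : 4 ≤ Λ) {q p : ℕ}
    (hq : q ∈ I) (hp : p ∈ I) (hqp : q < p) : 4 * m q < m (p - a) := by
  have h1 := hS.sp q hq p hp hqp
  have h3 : m (q + 0 + 1) ≤ m (p - a) := hS.mono (by omega)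
  have h2 := hS.nc q hq 0
  rw [zero_add, pow_one] at h2
  have hmq : (0 : ℝ) ≤ m q := Nat.cast_nonneg _
  have h4 : (4 : ℝ) * m q < m (q + 0 + 1) :=
    lt_of_le_of_lt (mul_le_mul_of_nonneg_right hΛ hmq) h2
  have h5 : 4 * m q < m (q + 0 + 1) := by exact_mod_cast h4
  omega

end Levels

lemma sumDB {m : ℕ → ℕ} (hm : Monotone m) {q r : ℕ} (hqr : q ≤ r) (h0 : 1 ≤ m q)
    (R : Finset ℕ) (hR : ∀ p ∈ R, q ≤ p ∧ p < r) :
    ∑ p ∈ R, DB m p ≤ Real.log ((m r : ℝ) / (m q : ℝ)) := by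
  set g : ℕ → ℝ := fun p => Real.log (m p) with hg
  have hpos : ∀ p, q ≤ p → 1 ≤ m p := fun p hp => h0.trans (hm hp)
  have hmono : ∀ p, q ≤ p → 0 ≤ g (p + 1) - g p := by
    intro p hp
    have h1 : (0 : ℝ) < m p := by exact_mod_cast hpos p hp
    have h2 : ((m p : ℕ) : ℝ) ≤ m (p + 1) := by exact_mod_cast hm (Nat.le_succ p)
    have := Real.log_le_log h1 h2
    linarith
  have hD : ∀ p ∈ R, DB m p = g (p + 1) - g p := by
    intro p hp
    obtain ⟨h1, h2⟩ := hR p hp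
    unfold DB
    have h4 : (0 : ℝ) < m (p + 1) := by exact_mod_cast hpos (p + 1) (by omega)
    have h5 : (0 : ℝ) < m p := by exact_mod_cast hpos p h1
    rw [Real.log_div h4.ne' h5.ne']
  rw [Finset.sum_congr rfl hD]
  have tel : ∀ k, ∑ p ∈ Finset.Ico q (q + k), (g (p + 1) - g p) = g (q + k) - g q := by
    intro k
    induction k with
    | zero => simp
    | succ k ih =>
      rw [← add_assoc, Finset.sum_Ico_succ_top (by omega), ih]
      ring
  have h1 : ∑ p ∈ R, (g (p + 1) - g p) ≤ ∑ p ∈ Finset.Ico q (q + (r - q)), (g (p + 1) - g p) := by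
    refine Finset.sum_le_sum_of_subset_of_nonneg (fun p hp => ?_) fun p hp _ => ?_
    · have := hR p hp
      rw [Finset.mem_Ico]
      omega
    · exact hmono p (Finset.mem_Ico.1 hp).1
  refine h1.trans (le_of_eq ?_)
  rw [tel, show q + (r - q) = r by omega]
  have h4 : (0 : ℝ) < m r := by exact_mod_cast hpos r hqr
  have h5 : (0 : ℝ) < m q := by exact_mod_cast h0
  rw [Real.log_div h4.ne' h5.ne']

/-- The numbers of a group: the second part. -/
lemma numB {u S c : ℝ} {i : ℕ} (hu0 : 0 ≤ u) (hu1 : u ^ 4 ≤ (1 / 32) ^ i)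
    (hu2 : u * Real.exp S ≤ 1) (hS : 0 ≤ S) (hc : c ≤ 1 / 10) :
    2 ^ i * (u * Real.exp (c * S)) ≤ (23 / 25) ^ i := by
  have h1 : Real.exp (c * S) ≤ Real.exp (S / 10) :=
    Real.exp_le_exp.2 (by nlinarith)
  refine (mul_le_mul_of_nonneg_left (mul_le_mul_of_nonneg_left h1 hu0) (by positivity)).trans ?_
  refine (pow_le_pow_iff_left₀ (by positivity) (by positivity)
    (show (40 : ℕ) ≠ 0 by norm_num)).1 ?_
  have e1 : (u * Real.exp (S / 10)) ^ 10 = u ^ 9 * (u * Real.exp S) := by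
    have : Real.exp S = Real.exp (S / 10) ^ 10 := by
      rw [← Real.exp_nat_mul]
      congr 1
      push_cast
      ring
    rw [this]
    ring
  have h2 : (u * Real.exp (S / 10)) ^ 10 ≤ u ^ 9 := by
    rw [e1]
    exact mul_le_of_le_one_right (by positivity) hu2
  have h3 : (u * Real.exp (S / 10)) ^ 40 ≤ ((1 / 32) ^ i) ^ 9 := by
    calc (u * Real.exp (S / 10)) ^ 40 = ((u * Real.exp (S / 10)) ^ 10) ^ 4 := by rw [← pow_mul]
      _ ≤ (u ^ 9) ^ 4 := pow_le_pow_left₀ (by positivity) h2 4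
      _ = (u ^ 4) ^ 9 := by ring
      _ ≤ ((1 / 32) ^ i) ^ 9 := pow_le_pow_left₀ (by positivity) hu1 9
  rw [mul_pow]
  calc ((2 : ℝ) ^ i) ^ 40 * (u * Real.exp (S / 10)) ^ 40
      ≤ ((2 : ℝ) ^ i) ^ 40 * ((1 / 32) ^ i) ^ 9 := mul_le_mul_of_nonneg_left h3 (by positivity)
    _ = (2 ^ 40 * (1 / 32) ^ 9) ^ i := by
      rw [mul_pow, ← pow_mul, ← pow_mul, ← pow_mul, ← pow_mul, mul_comm i 40, mul_comm i 9]
    _ ≤ ((23 / 25) ^ 40) ^ i := pow_le_pow_left₀ (by positivity) (by norm_num) i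
    _ = ((23 / 25) ^ i) ^ 40 := by rw [← pow_mul, ← pow_mul, mul_comm]

/-- The geometric sum of the groups. -/
lemma geoB {r C₁ : ℝ} (hr0 : 0 ≤ r) (hr1 : r < 1) (hC : 0 ≤ C₁) (k : ℕ) :
    ∑ i ∈ Finset.range k, (C₁ * r ^ i + 4 * (23 / 25) ^ i) ≤ C₁ / (1 - r) + 50 := by
  have h1 : ∀ x : ℝ, 0 ≤ x → x < 1 → ∑ i ∈ Finset.range k, x ^ i ≤ 1 / (1 - x) := by
    intro x hx0 hx1
    rw [le_div_iff₀ (by linarith), mul_comm, mul_neg_geom_sum]
    have := pow_nonneg hx0 k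
    linarith
  rw [Finset.sum_add_distrib, ← Finset.mul_sum, ← Finset.mul_sum]
  have h2 := mul_le_mul_of_nonneg_left (h1 r hr0 hr1) hC
  have h3 := h1 (23 / 25) (by norm_num) (by norm_num)
  have e : C₁ * (1 / (1 - r)) = C₁ / (1 - r) := by ring
  norm_num at h3 ⊢
  linarith

section Ind

variable [IsProbabilityMeasure ρ]

/-- The induction over the levels. -/
theorem indB90 (hd : 0 < d) (hρ : EM ρ) {c₀ κ Cc Cz c₁ C₁ : ℝ} (hc₀ : 0 < c₀) (hCc : 1 ≤ Cc)
    (hCz : 2 * Cc + |Real.log c₀| ≤ Cz) (hc₁ : 0 < c₁) (hC₁ : 1 ≤ C₁)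
    (hcat : ∀ (m T : ℕ) (Φ : ℝ) (L G G' : Set (Env d)), 1 ≤ m → 1 ≤ T → MeasurableSet L →
      MeasurableSet G → MeasurableSet G' → DependsOn (fun η => η ∈ L) {p | 1 ≤ p.1 ∧ p.1 ≤ m} →
      DependsOn (fun η => η ∈ G) {p | 1 ≤ p.1} →
      (∀ k : ℕ, k ≤ T → En ρ β h k ≤ Φ ∧ Fn ρ β h k ≤ Φ) →
      (∀ (s : ℕ) (y : Site d) (η : Env d), s ≤ T → y ∈ boxF d s → c₀ * Z β h η s ≤ PP β h η s y →
        s * lam ρ β h - Cc * (Φ + 1) ≤ X β h η s → sh s y η ∈ G → η ∈ G') →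
      (law d ρ).real (L ∩ G) ≤ Cc * ((law d ρ).real L + m / T) * (law d ρ).real G')
    {n a : ℕ} {Λ : ℝ} {m : ℕ → ℕ} {I : Finset ℕ} (hS : LvB ρ β h a Λ m I)
    (ha : 1 ≤ a) (hΛ : 4 ≤ Λ) (haz : 16 * Cz ≤ κ * 2 ^ a)
    (hcost : ∀ p ∈ I, ∀ i : ℕ, (law d ρ).real
      (Lg ρ β h n (m p - 2 * m (p - a)) (2 * m (p - a)) (2 ^ p) κ (κ / 8 * 2 ^ p) i) ≤
        C₁ * Real.exp (-(c₁ * i)) * ((m p : ℝ) / m (p + i + 1)) ^ c₁)
    {c : ℝ} (hc0 : 0 < c) (hc1 : c ≤ c₁) (hc2 : c ≤ 1 / 10) {K : ℝ}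
    (hK : Cc * (C₁ / (1 - Real.exp (-c₁)) + 50) ≤ K) (hK1 : 1 ≤ K) :
    ∀ (N : ℕ) (J : Finset ℕ), J.card = N → J ⊆ I → ∀ q ∈ J, (∀ p ∈ J, q ≤ p) →
      (law d ρ).real (⋂ p ∈ J, Lk ρ β h n (m p - 2 * m (p - a)) (2 * m (q - a)) (2 ^ p) κ
        (Cz * 2 ^ (q - a + 1))) ≤ K ^ N * Real.exp (-(c * ∑ p ∈ J, DB m p)) := by
  classical
  have hm := hS.mono
  have hCz0 : 0 ≤ Cz := by
    have := abs_nonneg (Real.log c₀)
    linarith
  intro N
  induction N using Nat.strong_induction_on with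
  | _ N IH =>
  intro J hJN hJI q hq hqJ
  have hqI := hJI hq
  obtain ⟨Sq, hSq⟩ : ∃ Sq : ℕ, Sq = 2 * m (q - a) := ⟨_, rfl⟩
  obtain ⟨zq, hzq⟩ : ∃ zq : ℝ, zq = Cz * 2 ^ (q - a + 1) := ⟨_, rfl⟩
  rw [← hSq, ← hzq]
  have hsz := hS.size q hqI
  have haq := (hS.big q hqI).1
  have hm1 := one_leB hS hqI
  have hm1' : (0 : ℝ) < m q := by exact_mod_cast hm1
  obtain ⟨J', hJ'⟩ : ∃ J' : Finset ℕ, J' = J.erase q := ⟨_, rfl⟩
  have hN : J'.card + 1 = N := by
    rw [hJ', Finset.card_erase_add_one hq, hJN]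
  have hJ'J : J' ⊆ J := by rw [hJ']; exact Finset.erase_subset q J
  have hJ'q : ∀ p ∈ J', q < p := fun p hp => by
    rw [hJ'] at hp
    exact lt_of_le_of_ne (hqJ p (Finset.mem_of_mem_erase hp)) (Finset.ne_of_mem_erase hp).symm
  obtain ⟨LG, hLG⟩ : ∃ LG : ℕ → Set (Env d), LG = fun i =>
      Lg ρ β h n (m q - 2 * m (q - a)) Sq (2 ^ q) κ zq i := ⟨_, rfl⟩
  have hzle : zq ≤ κ / 8 * 2 ^ q := by
    rw [hzq]
    have e1 : (2 : ℝ) ^ q = 2 ^ a * 2 ^ (q - a) := by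
      rw [← pow_add]
      congr 1
      omega
    rw [e1, pow_succ]
    have h1 := mul_le_mul_of_nonneg_right haz (show (0 : ℝ) ≤ 2 ^ (q - a) by positivity)
    linarith
  obtain ⟨SJ, hSJ⟩ : ∃ SJ : ℝ, SJ = ∑ p ∈ J, DB m p := ⟨_, rfl⟩
  rw [← hSJ]
  have hstep : ∀ i : ℕ, (law d ρ).real (LG i ∩ ⋂ p ∈ J',
      Lk ρ β h n (m p - 2 * m (p - a)) Sq (2 ^ p) κ zq) ≤
      Cc * (C₁ * Real.exp (-c₁) ^ i + 4 * (23 / 25) ^ i) * (K ^ (N - 1) * Real.exp (-(c * SJ))) := by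
    intro i
    obtain ⟨Li, hLi⟩ : ∃ Li : ℝ, Li = Real.log ((m (q + i + 1) : ℝ) / (m q : ℝ)) :=
      ⟨_, rfl⟩
    have hmin : (0 : ℝ) < (m (q + i + 1) : ℝ) := by
      have h1 : 1 ≤ m (q + i + 1) := hm1.trans (hm (by omega))
      exact_mod_cast h1
    have hPL : (law d ρ).real (LG i) ≤ C₁ * Real.exp (-c₁) ^ i * Real.exp (-(c₁ * Li)) := by
      have h1 := (measureReal_mono (μ := law d ρ) (Lg_mono (n := n) (β := β) (h := h) (ρ := ρ)
        (H := m q - 2 * m (q - a)) (x := 2 ^ q) (κ := κ) (le_refl Sq) hzle i))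
      rw [hLG]
      refine h1.trans ?_
      rw [hSq]
      refine (hcost q hqI i).trans (le_of_eq ?_)
      have e1 : Real.exp (-(c₁ * i)) = Real.exp (-c₁) ^ i := by
        rw [← Real.exp_nat_mul]
        congr 1
        ring
      have e2 : ((m q : ℝ) / m (q + i + 1)) ^ c₁ = Real.exp (-(c₁ * Li)) := by
        rw [Real.rpow_def_of_pos (by positivity), hLi, Real.log_div hm1'.ne' hmin.ne',
          Real.log_div hmin.ne' hm1'.ne']
        congr 1
        ring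
      rw [e1, e2]
    obtain ⟨J₂, hJ₂⟩ : ∃ J₂ : Finset ℕ, J₂ = J'.filter fun p => 32 ^ i * m q ^ 4 ≤ m (p - a) ^ 4 :=
      ⟨_, rfl⟩
    have hJ₂J' : J₂ ⊆ J' := by rw [hJ₂]; exact Finset.filter_subset _ _
    obtain ⟨R, hR⟩ : ∃ R : Finset ℕ, R = J \ J₂ := ⟨_, rfl⟩
    obtain ⟨SR, hSR⟩ : ∃ SR : ℝ, SR = ∑ p ∈ R, DB m p := ⟨_, rfl⟩
    have hsplit : SJ = SR + ∑ p ∈ J₂, DB m p := by
      rw [hSJ, hSR, hR, Finset.sum_sdiff (hJ₂J'.trans hJ'J)]
    have hRmem : ∀ p ∈ R, p ∈ I ∧ q ≤ p ∧ (p = q ∨ (q < p ∧ m (p - a) ^ 4 < 32 ^ i * m q ^ 4)) := by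
      intro p hp
      rw [hR, Finset.mem_sdiff] at hp
      refine ⟨hJI hp.1, hqJ p hp.1, ?_⟩
      rcases eq_or_lt_of_le (hqJ p hp.1) with h1 | h1
      · exact Or.inl h1.symm
      · refine Or.inr ⟨h1, ?_⟩
        by_contra hge
        push Not at hge
        refine hp.2 ?_
        rw [hJ₂, Finset.mem_filter, hJ']
        exact ⟨Finset.mem_erase.2 ⟨h1.ne', hp.1⟩, hge⟩
    have hSR1 : SR ≤ Li := by
      rw [hSR, hLi]
      refine sumDB hm (by omega) hm1 R fun p hp => ?_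
      obtain ⟨h1, h2, h3⟩ := hRmem p hp
      refine ⟨h2, ?_⟩
      rcases h3 with h3 | ⟨h3, h4⟩
      · omega
      · have := farB hS (by omega) hΛ hqI h1 h3 h4
        omega
    have hSR0 : 0 ≤ SR := by
      rw [hSR]
      refine Finset.sum_nonneg fun p hp => ?_
      obtain ⟨h1, h2, -⟩ := hRmem p hp
      have h3 := one_leB hS h1
      have h3' : (0 : ℝ) < m p := by exact_mod_cast h3
      unfold DB
      refine Real.log_nonneg ?_
      rw [le_div_iff₀ h3', one_mul]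
      have h4 : m p ≤ m (p + 1) := hm (Nat.le_succ p)
      exact_mod_cast h4
    have hP1 : (law d ρ).real (LG i) * Real.exp (c * SR) ≤ C₁ * Real.exp (-c₁) ^ i := by
      have h1 : Real.exp (-(c₁ * Li)) * Real.exp (c * SR) ≤ 1 := by
        rw [← Real.exp_add, Real.exp_le_one_iff]
        have h2 : c * SR ≤ c * Li := mul_le_mul_of_nonneg_left hSR1 hc0.le
        have h3 : c * Li ≤ c₁ * Li := mul_le_mul_of_nonneg_right hc1 (hSR0.trans hSR1)
        linarith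
      calc (law d ρ).real (LG i) * Real.exp (c * SR)
          ≤ C₁ * Real.exp (-c₁) ^ i * Real.exp (-(c₁ * Li)) * Real.exp (c * SR) :=
            mul_le_mul_of_nonneg_right hPL (Real.exp_pos _).le
        _ = C₁ * Real.exp (-c₁) ^ i * (Real.exp (-(c₁ * Li)) * Real.exp (c * SR)) := by ring
        _ ≤ C₁ * Real.exp (-c₁) ^ i * 1 := mul_le_mul_of_nonneg_left h1 (by positivity)
        _ = C₁ * Real.exp (-c₁) ^ i := mul_one _
    have hKp : 1 ≤ K ^ (N - 1) := one_le_pow₀ hK1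
    have hK0 : 0 < K ^ (N - 1) := by linarith
    have hexp : Real.exp (-(c * SJ)) * Real.exp (c * SR) =
        Real.exp (-(c * ∑ p ∈ J₂, DB m p)) := by
      rw [← Real.exp_add, hsplit]
      congr 1
      ring
    rcases J₂.eq_empty_or_nonempty with hE | hE
    · -- the group alone
      have h1 : (law d ρ).real (LG i ∩ ⋂ p ∈ J',
          Lk ρ β h n (m p - 2 * m (p - a)) Sq (2 ^ p) κ zq) ≤ (law d ρ).real (LG i) :=
        measureReal_mono Set.inter_subset_left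
      have h2 : SJ = SR := by rw [hsplit, hE, Finset.sum_empty, add_zero]
      have h3 : (law d ρ).real (LG i) ≤ C₁ * Real.exp (-c₁) ^ i * Real.exp (-(c * SJ)) := by
        have h4 := mul_le_mul_of_nonneg_right hP1 (Real.exp_pos (-(c * SJ))).le
        rw [mul_assoc, ← Real.exp_add, h2] at h4
        rw [h2]
        simpa using h4
      refine h1.trans (h3.trans ?_)
      have h5 : 0 ≤ C₁ * Real.exp (-c₁) ^ i := by positivity
      have h6 : (0 : ℝ) ≤ 4 * (23 / 25) ^ i := by positivity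
      have h7 : C₁ * Real.exp (-c₁) ^ i ≤
          Cc * (C₁ * Real.exp (-c₁) ^ i + 4 * (23 / 25) ^ i) * K ^ (N - 1) := by
        have h8 : C₁ * Real.exp (-c₁) ^ i ≤ Cc * (C₁ * Real.exp (-c₁) ^ i + 4 * (23 / 25) ^ i) := by
          nlinarith
        have h9 : 0 ≤ Cc * (C₁ * Real.exp (-c₁) ^ i + 4 * (23 / 25) ^ i) := by positivity
        nlinarith
      calc C₁ * Real.exp (-c₁) ^ i * Real.exp (-(c * SJ))
          ≤ Cc * (C₁ * Real.exp (-c₁) ^ i + 4 * (23 / 25) ^ i) * K ^ (N - 1) *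
            Real.exp (-(c * SJ)) := mul_le_mul_of_nonneg_right h7 (Real.exp_pos _).le
        _ = _ := by ring
    · -- the next level
      obtain ⟨q', hq'⟩ : ∃ q' : ℕ, q' = J₂.min' hE := ⟨_, rfl⟩
      have hq'J : q' ∈ J₂ := by rw [hq']; exact J₂.min'_mem hE
      have hq'min : ∀ p ∈ J₂, q' ≤ p := fun p hp => by rw [hq']; exact J₂.min'_le p hp
      have hJ₂I : J₂ ⊆ I := (hJ₂J'.trans hJ'J).trans hJI
      have hq'I := hJ₂I hq'J
      have hqq' := hJ'q q' (hJ₂J' hq'J)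
      have hsp := hS.sp q hqI q' hq'I hqq'
      have hnx := nextB hS (by omega) hΛ hqI hq'I hqq'
      have h16 : 32 ^ i * m q ^ 4 ≤ m (q' - a) ^ 4 := by
        have := hq'J
        rw [hJ₂, Finset.mem_filter] at this
        exact this.2
      have hT1 : 2 ≤ m (q' - a) := (hS.big q' hq'I).2
      have hc' : J₂.card < N := by
        have := Finset.card_le_card hJ₂J'
        omega
      have hIH := IH J₂.card hc' J₂ rfl hJ₂I q' hq'J hq'min
      -- the transfer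
      have hsub : (⋂ p ∈ J', Lk ρ β h n (m p - 2 * m (p - a)) Sq (2 ^ p) κ zq) ⊆
          ⋂ p ∈ J₂, Lk ρ β h n (m p - 2 * m (p - a)) Sq (2 ^ p) κ zq := by
        intro η hη
        exact Set.mem_iInter₂.2 fun p hp => Set.mem_iInter₂.1 hη p (hJ₂J' hp)
      have hcat' := hcat (2 ^ (i + 1) * m q) (m (q' - a) - 1) (2 ^ (q' - a)) (LG i)
        (⋂ p ∈ J₂, Lk ρ β h n (m p - 2 * m (p - a)) Sq (2 ^ p) κ zq)
        (⋂ p ∈ J₂, Lk ρ β h n (m p - 2 * m (p - a)) (2 * m (q' - a)) (2 ^ p) κ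
          (Cz * 2 ^ (q' - a + 1)))
        (by
          have : 1 ≤ 2 ^ (i + 1) := Nat.one_le_two_pow
          exact Nat.one_le_iff_ne_zero.2 (by positivity)) (by omega)
        (by rw [hLG]; exact Lg_meas i) (iI_meas J₂) (iI_meas J₂)
        (by
          rw [hLG]
          refine Lg_dep ?_
          rw [hSq]
          have h1 : 1 ≤ 2 ^ (i + 1) := Nat.one_le_two_pow
          have h2 : m q = (m q - 2 * m (q - a)) + 2 * m (q - a) := by omega
          have h3 : 2 * m (q - a) ≤ 2 ^ (i + 1) * (2 * m (q - a)) :=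
            Nat.le_mul_of_pos_left _ h1
          calc 2 ^ (i + 1) * (m q - 2 * m (q - a)) + 2 * m (q - a)
              ≤ 2 ^ (i + 1) * (m q - 2 * m (q - a)) + 2 ^ (i + 1) * (2 * m (q - a)) := by omega
            _ = 2 ^ (i + 1) * ((m q - 2 * m (q - a)) + 2 * m (q - a)) := by ring
            _ = 2 ^ (i + 1) * m q := by rw [← h2])
        (iI_dep J₂)
        (fun k hk => by
          have h1 := hS.lo (q' - a) k (by omega)
          exact ⟨(le_max_left _ _).trans h1.le, (le_max_right _ _).trans h1.le⟩)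
        (fun s y η hs hy hA hX hη => by
          refine Set.mem_iInter₂.2 fun p hp => ?_
          refine Lk_trans hd hc₀ hy hA hX (S := Sq) (z := zq) ?_ ?_ (Set.mem_iInter₂.1 hη p hp)
          · rw [hSq]
            omega
          · rw [hzq]
            have h1 : (1 : ℝ) ≤ 2 ^ (q' - a) := one_le_pow₀ (by norm_num)
            have h2 : (2 : ℝ) ^ (q - a + 1) ≤ 2 ^ (q' - a) :=
              pow_le_pow_right₀ (by norm_num) (by omega)
            have h3 : Cz * (2 : ℝ) ^ (q - a + 1) ≤ Cz * 2 ^ (q' - a) :=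
              mul_le_mul_of_nonneg_left h2 hCz0
            have h4 : (2 * Cc + |Real.log c₀|) * (2 : ℝ) ^ (q' - a) ≤ Cz * 2 ^ (q' - a) :=
              mul_le_mul_of_nonneg_right hCz (by positivity)
            have h5 : -Real.log c₀ ≤ |Real.log c₀| * 2 ^ (q' - a) := by
              have h6 := neg_le_abs (Real.log c₀)
              have h7 := abs_nonneg (Real.log c₀)
              nlinarith
            have h8 : Cc * ((2 : ℝ) ^ (q' - a) + 1) ≤ 2 * Cc * 2 ^ (q' - a) := by nlinarith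
            rw [pow_succ (2 : ℝ) (q' - a)]
            linarith)
      have hPL0 : 0 ≤ (law d ρ).real (LG i) := measureReal_nonneg
      obtain ⟨u, hu⟩ : ∃ u : ℝ, u = (m q : ℝ) / m (q' - a) := ⟨_, rfl⟩
      have hmq' : (0 : ℝ) < m (q' - a) := by
        have : 0 < m (q' - a) := by omega
        exact_mod_cast this
      have hu0 : 0 ≤ u := by rw [hu]; positivity
      have hu1 : u ^ 4 ≤ (1 / 32) ^ i := by
        rw [hu, div_pow, div_le_iff₀ (by positivity), one_div, inv_pow, ← div_eq_inv_mul,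
          le_div_iff₀ (by positivity)]
        have : ((32 ^ i * m q ^ 4 : ℕ) : ℝ) ≤ ((m (q' - a) ^ 4 : ℕ) : ℝ) := by exact_mod_cast h16
        push_cast at this
        linarith
      have hu2 : u * Real.exp SR ≤ 1 := by
        have h1 : SR ≤ Real.log ((m (q' - a) : ℝ) / (m q : ℝ)) := by
          rw [hSR]
          refine sumDB hm (by omega) hm1 R fun p hp => ?_
          obtain ⟨h1, h2, h3⟩ := hRmem p hp
          refine ⟨h2, ?_⟩
          rcases h3 with h3 | ⟨h3, h4⟩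
          · omega
          · have hpq' : p < q' := by
              by_contra hge
              push Not at hge
              have h5 := hm (Nat.sub_le_sub_right hge a)
              have h6 := Nat.pow_le_pow_left h5 4
              omega
            have := hS.sp p h1 q' hq'I hpq'
            omega
        have h2 : Real.exp SR ≤ (m (q' - a) : ℝ) / m q := by
          rw [← Real.le_log_iff_exp_le (by positivity)]
          exact h1
        calc u * Real.exp SR ≤ u * ((m (q' - a) : ℝ) / m q) := mul_le_mul_of_nonneg_left h2 hu0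
          _ = 1 := by
            rw [hu]
            field_simp
      have hnum := numB hu0 hu1 hu2 hSR0 hc2
      have hMT : ((2 ^ (i + 1) * m q : ℕ) : ℝ) / ((m (q' - a) - 1 : ℕ) : ℝ) ≤
          4 * 2 ^ i * u := by
        have h1 : (m (q' - a) : ℝ) ≤ 2 * ((m (q' - a) - 1 : ℕ) : ℝ) := by
          have : m (q' - a) ≤ 2 * (m (q' - a) - 1) := by omega
          exact_mod_cast this
        have h2 : (0 : ℝ) < ((m (q' - a) - 1 : ℕ) : ℝ) := by linarith
        rw [div_le_iff₀ h2, hu]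
        push_cast
        rw [pow_succ]
        have h3 : 4 * 2 ^ i * ((m q : ℝ) / m (q' - a)) * ((m (q' - a) - 1 : ℕ) : ℝ) =
            2 ^ i * 2 * m q * (2 * ((m (q' - a) - 1 : ℕ) : ℝ) / m (q' - a)) := by
          field_simp
          ring
        rw [h3]
        have h4 : 1 ≤ 2 * ((m (q' - a) - 1 : ℕ) : ℝ) / m (q' - a) := by
          rw [le_div_iff₀ hmq', one_mul]
          exact h1
        have h5 : (0 : ℝ) ≤ 2 ^ i * 2 * m q := by positivity
        nlinarith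
      have hMT0 : 0 ≤ ((2 ^ (i + 1) * m q : ℕ) : ℝ) / ((m (q' - a) - 1 : ℕ) : ℝ) := by positivity
      have hsum : ((law d ρ).real (LG i) +
          ((2 ^ (i + 1) * m q : ℕ) : ℝ) / ((m (q' - a) - 1 : ℕ) : ℝ)) * Real.exp (c * SR) ≤
          C₁ * Real.exp (-c₁) ^ i + 4 * (23 / 25) ^ i := by
        rw [add_mul]
        refine add_le_add hP1 ?_
        refine (mul_le_mul_of_nonneg_right hMT (Real.exp_pos _).le).trans ?_
        calc 4 * 2 ^ i * u * Real.exp (c * SR) = 4 * (2 ^ i * (u * Real.exp (c * SR))) := by ring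
          _ ≤ 4 * (23 / 25) ^ i := mul_le_mul_of_nonneg_left hnum (by norm_num)
      have hpow : K ^ J₂.card ≤ K ^ (N - 1) := pow_le_pow_right₀ hK1 (by omega)
      have hIH' : (law d ρ).real (⋂ p ∈ J₂, Lk ρ β h n (m p - 2 * m (p - a)) (2 * m (q' - a))
          (2 ^ p) κ (Cz * 2 ^ (q' - a + 1))) ≤
          K ^ (N - 1) * (Real.exp (-(c * SJ)) * Real.exp (c * SR)) := by
        rw [hexp]
        exact hIH.trans (mul_le_mul_of_nonneg_right hpow (Real.exp_pos _).le)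
      calc (law d ρ).real (LG i ∩ ⋂ p ∈ J', Lk ρ β h n (m p - 2 * m (p - a)) Sq (2 ^ p) κ zq)
          ≤ (law d ρ).real (LG i ∩ ⋂ p ∈ J₂,
              Lk ρ β h n (m p - 2 * m (p - a)) Sq (2 ^ p) κ zq) :=
            measureReal_mono (Set.inter_subset_inter_right _ hsub)
        _ ≤ _ := hcat'
        _ ≤ Cc * ((law d ρ).real (LG i) +
            ((2 ^ (i + 1) * m q : ℕ) : ℝ) / ((m (q' - a) - 1 : ℕ) : ℝ)) *
            (K ^ (N - 1) * (Real.exp (-(c * SJ)) * Real.exp (c * SR))) :=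
          mul_le_mul_of_nonneg_left hIH' (by positivity)
        _ = Cc * (((law d ρ).real (LG i) +
            ((2 ^ (i + 1) * m q : ℕ) : ℝ) / ((m (q' - a) - 1 : ℕ) : ℝ)) * Real.exp (c * SR)) *
            (K ^ (N - 1) * Real.exp (-(c * SJ))) := by ring
        _ ≤ Cc * (C₁ * Real.exp (-c₁) ^ i + 4 * (23 / 25) ^ i) *
            (K ^ (N - 1) * Real.exp (-(c * SJ))) :=
          mul_le_mul_of_nonneg_right (mul_le_mul_of_nonneg_left hsum (by positivity))
            (by positivity)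
  -- the union of the groups
  have hcov : (⋂ p ∈ J, Lk ρ β h n (m p - 2 * m (p - a)) Sq (2 ^ p) κ zq) ⊆
      ⋃ i ∈ Finset.range (n + 1), (LG i ∩ ⋂ p ∈ J',
        Lk ρ β h n (m p - 2 * m (p - a)) Sq (2 ^ p) κ zq) := by
    intro η hη
    have h1 := Set.mem_iInter₂.1 hη
    obtain ⟨i, hi, h2⟩ := Lk_sub (by omega) (h1 q hq)
    refine Set.mem_iUnion₂.2 ⟨i, hi, ?_, Set.mem_iInter₂.2 fun p hp => h1 p (hJ'J hp)⟩
    rw [hLG]
    exact h2
  refine (measureReal_mono hcov (measure_ne_top _ _)).trans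
    ((measureReal_biUnion_finset_le _ _).trans ?_)
  refine (Finset.sum_le_sum fun i _ => hstep i).trans ?_
  rw [← Finset.sum_mul, ← Finset.mul_sum]
  have hr0 : 0 ≤ Real.exp (-c₁) := (Real.exp_pos _).le
  have hr1 : Real.exp (-c₁) < 1 := by
    rw [Real.exp_lt_one_iff]
    linarith
  have h1 := geoB hr0 hr1 (by linarith : (0 : ℝ) ≤ C₁) (n + 1)
  have h2 : Cc * ∑ i ∈ Finset.range (n + 1), (C₁ * Real.exp (-c₁) ^ i + 4 * (23 / 25) ^ i) ≤ K :=
    (mul_le_mul_of_nonneg_left h1 (by linarith)).trans hK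
  calc _ ≤ K * (K ^ (N - 1) * Real.exp (-(c * SJ))) :=
        mul_le_mul_of_nonneg_right h2 (by positivity)
    _ = K ^ N * Real.exp (-(c * SJ)) := by
      rw [← mul_assoc, ← pow_succ']
      congr 2
      omega

end Ind


end Pool.Agent.W_7d29a1_SNP.AB90
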