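import Pool.Agent.W_7d29a1_SNP.AddB90
import Pool.Agent.W_7d29a1_SNP.DefsN28

/-!
Leaf ADDN: the prices of the long levels add up, from CAT and COSTN.
-/

set_option autoImplicit false

namespace Pool.Agent.W_7d29a1_SNP

open MeasureTheory ProbabilityTheory Filter Topology Pool.Agent.W_MP_7d29a1_pr
  Pool.Agent.W_7d29a1_h46 Pool.Agent.W_7d29a1_h46u Pool.Agent.W_7d29a1_D2.B35
  Pool.Agent.W_7d29a1_Q29 Pool.Agent.W_7d29a1_R34 Pool.Agent.W_7d29a1_SP
  Pool.Agent.W_7d29a1_PL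

section

variable {d : ℕ} {ρ : Measure ℝ} {β : ℝ} {h : Vec d} {a B : ℕ} {Λ ε : ℝ} {m : ℕ → ℕ}
  {I : Finset ℕ}

lemma Sc.mono90 (hS : Sc ρ β h a B Λ ε m I) : Monotone m := by
  refine monotone_nat_of_le_succ fun l => ?_
  by_contra hcon
  push Not at hcon
  have h1 := hS.lo l _ hcon
  have h2 := hS.hi (l + 1)
  have h3 : (2 : ℝ) ^ l ≤ 2 ^ (l + 1) := pow_le_pow_right₀ (by norm_num) (Nat.le_succ l)
  linarith

/-- One level is a system of levels with a horizon. -/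
lemma Sc.sy90 (hS : Sc ρ β h a B Λ ε m I) {p : ℕ} (hp : p ∈ I) :
    Sy ρ β h (m p ^ 4) a B 0 ε m {p} where
  lo := hS.lo
  hi := hS.hi
  big q hq := by
    rw [Finset.mem_singleton.1 hq]
    exact hS.big p hp
  sm q hq := by
    rw [Finset.mem_singleton.1 hq]
  nc q hq j _ := by
    rw [Finset.mem_singleton.1 hq, zero_pow (Nat.succ_ne_zero j), zero_mul]
    have h1 := (hS.big p hp).2
    have h2 : m (p - a) ≤ m (p + j + 1) := hS.mono90 (by omega)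
    omega
  sp q hq r hr hqr := by
    rw [Finset.mem_singleton.1 hq, Finset.mem_singleton.1 hr] at hqr
    omega
  fs q hq := by
    rw [Finset.mem_singleton.1 hq]
    exact hS.fs p hp

lemma Sc.lvB90 [IsProbabilityMeasure ρ] (hd : 0 < d) (hρ : EM ρ)
    (hS : Sc ρ β h a B Λ ε m I) (ha : 3 ≤ a) (hB : 1 ≤ B) (hε : ε < 1) :
    AB90.LvB ρ β h a Λ m I where
  lo := hS.lo
  mono := hS.mono90
  big := hS.big
  size p hp := A89.size89 hd hρ (hS.sy90 hp) ha hB hε (Finset.mem_singleton_self p)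
  nc p hp j := hS.nc p hp j
  sp := hS.sp

end

/-- **Leaf ADDN.** -/
theorem addN90 {d : ℕ} {ρ : Measure ℝ} {β : ℝ} [IsProbabilityMeasure ρ] (hd : 0 < d) (hρ : EM ρ)
    (hcat : CatP d ρ β) (hcost : CostN d ρ β) : AddN d ρ β := by
  classical
  intro c₀ κ Λ hc₀ hκ hκ2 hΛ
  obtain ⟨Cc, hCc, hcat⟩ := hcat c₀ hc₀
  obtain ⟨a₀, B₀, ε₀, c₁, C₁, hε₀, hc₁, hC₁, hcost⟩ := hcost c₀ κ Λ hc₀ hκ hκ2 hΛ
  obtain ⟨Cz, hCz⟩ : ∃ Cz : ℝ, Cz = 2 * Cc + |Real.log c₀| := ⟨_, rfl⟩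
  have hCz0 : 0 ≤ Cz := by
    have := abs_nonneg (Real.log c₀)
    linarith
  obtain ⟨a₁, ha₁⟩ : ∃ a₁ : ℕ, 16 * Cz / κ < 2 ^ a₁ := pow_unbounded_of_one_lt _ (by norm_num)
  obtain ⟨a, ha⟩ : ∃ a : ℕ, a = max (max a₀ a₁) 3 := ⟨_, rfl⟩
  have haa₀ : a₀ ≤ a := by omega
  have haa₁ : a₁ ≤ a := by omega
  have ha3 : 3 ≤ a := by omega
  have haz : 16 * Cz ≤ κ * 2 ^ a := by
    have h1 : (2 : ℝ) ^ a₁ ≤ 2 ^ a := pow_le_pow_right₀ (by norm_num) haa₁
    have h2 : 16 * Cz / κ ≤ 2 ^ a := ha₁.le.trans h1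
    rw [div_le_iff₀ hκ] at h2
    linarith
  obtain ⟨c, hc⟩ : ∃ c : ℝ, c = min c₁ (1 / 10) := ⟨_, rfl⟩
  have hc0 : 0 < c := by rw [hc]; exact lt_min hc₁ (by norm_num)
  have hc1 : c ≤ c₁ := by rw [hc]; exact min_le_left _ _
  have hc2 : c ≤ 1 / 10 := by rw [hc]; exact min_le_right _ _
  have hr1 : Real.exp (-c₁) < 1 := by
    rw [Real.exp_lt_one_iff]
    linarith
  obtain ⟨K, hK⟩ : ∃ K : ℝ, K = Cc * (C₁ / (1 - Real.exp (-c₁)) + 50) := ⟨_, rfl⟩
  have hK8 : 50 ≤ K := by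
    have h1 : 0 ≤ C₁ / (1 - Real.exp (-c₁)) := div_nonneg (by linarith) (by linarith)
    rw [hK]
    nlinarith
  refine ⟨a, max B₀ 1, min ε₀ (1 / 2), c, max C₁ (Real.log K), by omega,
    lt_min hε₀ (by norm_num), hc0, hC₁.trans (le_max_left _ _), fun h hloc n m I hS hlog => ?_⟩
  -- the system for the cost
  have hS₀ : Sc ρ β h a B₀ Λ ε₀ m I := by
    refine ⟨hS.lo, hS.hi, hS.big, hS.nc, hS.sp, fun p hp k hk => ?_⟩
    refine (hS.fs p hp k (hk.trans (Nat.mul_le_mul_right _ (le_max_left _ _)))).trans ?_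
    exact mul_le_mul_of_nonneg_right (min_le_left _ _) (by positivity)
  have hlog₀ : ∀ p ∈ I, ∀ i : ℕ, C₁ * (1 + Real.log (m (p + i + 1))) ≤ 2 ^ i * 2 ^ p := by
    intro p hp i
    refine le_trans (mul_le_mul_of_nonneg_right (le_max_left _ _) ?_) (hlog p hp i)
    have h1 := (hS.big p hp).2
    have h2 : m (p - a) ≤ m (p + i + 1) := hS.mono90 (by omega)
    have h3 : (1 : ℝ) ≤ m (p + i + 1) := by exact_mod_cast (by omega : 1 ≤ m (p + i + 1))
    have := Real.log_nonneg h3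
    linarith
  have hco := hcost a haa₀ h hloc n m I hS₀ hlog₀
  have hL : AB90.LvB ρ β h a Λ m I := hS.lvB90 hd hρ ha3 (le_max_right _ _)
    (lt_of_le_of_lt (min_le_right _ _) (by norm_num))
  rcases I.eq_empty_or_nonempty with hE | hE
  · rw [hE]
    simp
  · obtain ⟨q, hq⟩ : ∃ q : ℕ, q = I.min' hE := ⟨_, rfl⟩
    have hqI : q ∈ I := by rw [hq]; exact I.min'_mem hE
    have hqmin : ∀ p ∈ I, q ≤ p := fun p hp => by rw [hq]; exact I.min'_le p hp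
    have h1 := AB90.indB90 hd hρ hc₀ hCc hCz.ge hc₁ hC₁ (hcat h hloc) hL (by omega) hΛ.le haz hco
      hc0 hc1 hc2 hK.ge (by linarith) I.card I rfl (Finset.Subset.refl I) q hqI hqmin
    refine le_trans (measureReal_mono ?_) (h1.trans ?_)
    · intro η hη
      exact Set.mem_iInter₂.2 fun p hp => A89.Lk_mono (Nat.zero_le _) (by positivity)
        (Set.mem_iInter₂.1 hη p hp)
    · have hK0 : 0 < K := by linarith
      have e1 : K ^ I.card = Real.exp (Real.log K * I.card) := by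
        rw [mul_comm, Real.exp_nat_mul, Real.exp_log hK0]
      have e2 : ∑ p ∈ I, AB90.DB m p = ∑ p ∈ I, Dq m p := rfl
      rw [e1, ← Real.exp_add, e2]
      refine Real.exp_le_exp.2 ?_
      have h2 : Real.log K * I.card ≤ max C₁ (Real.log K) * I.card :=
        mul_le_mul_of_nonneg_right (le_max_right _ _) (Nat.cast_nonneg _)
      linarith

end Pool.Agent.W_7d29a1_SNP
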