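import Pool.Agent.W_7d29a1_PL.AddP34
import Pool.Agent.W_7d29a1_SNP.DefsN28

/-!
THEOREM SNP, leaf ADT: the lucks of well separated levels are rare together, with a constant price
per level (helper34; from `CatP` and the price of one group).
-/

namespace Pool.Agent.W_7d29a1_SNP

open MeasureTheory ProbabilityTheory Filter Topology Pool.Agent.W_MP_7d29a1_pr
  Pool.Agent.W_7d29a1_h46 Pool.Agent.W_7d29a1_h46u Pool.Agent.W_7d29a1_D2.B35
  Pool.Agent.W_7d29a1_Q29 Pool.Agent.W_7d29a1_R34 Pool.Agent.W_7d29a1_SP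
  Pool.Agent.W_7d29a1_PL Pool.Agent.W_7d29a1_PL.A34

namespace T34

variable {d : ℕ} {ρ : Measure ℝ} {β : ℝ} {h : Vec d}

lemma wd_iff (η : Env d) (N H S : ℕ) (y z : ℝ) :
    (∃ s : ℕ, s ≤ S ∧ ((N * H + s : ℕ) : ℝ) * lam ρ β h + N * y - z ≤ X β h η (N * H + s)) ↔
      η ∈ Wd ρ β h (N * H) S (z - N * y) := by
  unfold Wd
  constructor
  · rintro ⟨s, hs, hX⟩
    exact ⟨s, hs, by linarith⟩
  · rintro ⟨s, hs, hX⟩
    exact ⟨s, hs, by linarith⟩

lemma mem_Gg {H S : ℕ} {y z : ℝ} {i : ℕ} {η : Env d} : η ∈ Gg ρ β h H S y z i ↔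
    ∃ N : ℕ, 2 ^ i ≤ N ∧ N < 2 ^ (i + 1) ∧ η ∈ Wd ρ β h (N * H) S (z - N * y) := by
  simp only [← wd_iff]
  constructor
  · rintro ⟨N, s, h1, h2, h3, h4⟩
    exact ⟨N, h1, h2, s, h3, h4⟩
  · rintro ⟨N, h1, h2, s, h3, h4⟩
    exact ⟨N, s, h1, h2, h3, h4⟩

lemma mem_Gk {H S : ℕ} {y z : ℝ} {η : Env d} : η ∈ Gk ρ β h H S y z ↔
    ∃ N : ℕ, 1 ≤ N ∧ η ∈ Wd ρ β h (N * H) S (z - N * y) := by
  simp only [← wd_iff]
  constructor
  · rintro ⟨N, s, h1, h3, h4⟩
    exact ⟨N, h1, s, h3, h4⟩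
  · rintro ⟨N, h1, s, h3, h4⟩
    exact ⟨N, s, h1, h3, h4⟩

lemma Gq_meas (H S : ℕ) (y z : ℝ) (i : ℕ) : MeasurableSet (Gg ρ β h H S y z i) := by
  have e : Gg ρ β h H S y z i =
      ⋃ N ∈ {N : ℕ | 2 ^ i ≤ N ∧ N < 2 ^ (i + 1)}, Wd ρ β h (N * H) S (z - N * y) := by
    ext η
    simp only [mem_Gg, Set.mem_ofPred_eq, Set.mem_iUnion, exists_prop, and_assoc]
  rw [e]
  exact MeasurableSet.biUnion (Set.to_countable _) fun N _ => Wd_meas _ _ _

lemma Gk_meas (H S : ℕ) (y z : ℝ) : MeasurableSet (Gk ρ β h H S y z) := by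
  have e : Gk ρ β h H S y z = ⋃ N ∈ {N : ℕ | 1 ≤ N}, Wd ρ β h (N * H) S (z - N * y) := by
    ext η
    simp only [mem_Gk, Set.mem_ofPred_eq, Set.mem_iUnion, exists_prop]
  rw [e]
  exact MeasurableSet.biUnion (Set.to_countable _) fun N _ => Wd_meas _ _ _

lemma Gq_dep (H S : ℕ) (y z : ℝ) (i : ℕ) :
    DependsOn (fun η => η ∈ Gg ρ β h H S y z i)
      {p | 1 ≤ p.1 ∧ p.1 ≤ 2 ^ (i + 1) * (H + S)} := by
  intro η η' hη
  have h1 : ∀ N : ℕ, N < 2 ^ (i + 1) → 1 ≤ N → ∀ a,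
      (η ∈ Wd ρ β h (N * H) S a) = (η' ∈ Wd ρ β h (N * H) S a) := fun N hN hN1 a =>
    Wd_dep _ _ _ fun p hp => hη p ⟨hp.1, hp.2.trans (by
      calc N * H + S ≤ N * H + N * S := by nlinarith
        _ = N * (H + S) := by ring
        _ ≤ 2 ^ (i + 1) * (H + S) := Nat.mul_le_mul_right _ hN.le)⟩
  have h2 : ∀ N : ℕ, 2 ^ i ≤ N → 1 ≤ N := fun N hN => (Nat.one_le_two_pow).trans hN
  show (η ∈ Gg ρ β h H S y z i) = (η' ∈ Gg ρ β h H S y z i)
  rw [mem_Gg, mem_Gg]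
  refine propext ⟨?_, ?_⟩
  · rintro ⟨N, h3, h4, h6⟩
    refine ⟨N, h3, h4, ?_⟩
    rw [← h1 N h4 (h2 N h3)]
    exact h6
  · rintro ⟨N, h3, h4, h6⟩
    refine ⟨N, h3, h4, ?_⟩
    rw [h1 N h4 (h2 N h3)]
    exact h6

lemma Gk_dep (H S : ℕ) (y z : ℝ) :
    DependsOn (fun η => η ∈ Gk ρ β h H S y z) {p | 1 ≤ p.1} := by
  intro η η' hη
  have h1 : ∀ T₁ S a, (η ∈ Wd ρ β h T₁ S a) = (η' ∈ Wd ρ β h T₁ S a) := fun T₁ S a =>
    Wd_dep T₁ S a fun p hp => hη p hp.1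
  show (η ∈ Gk ρ β h H S y z) = (η' ∈ Gk ρ β h H S y z)
  rw [mem_Gk, mem_Gk]
  simp only [h1]

lemma Gk_mono {H S S' : ℕ} {y z z' : ℝ} (hS : S ≤ S') (hz : z ≤ z') :
    Gk ρ β h H S y z ⊆ Gk ρ β h H S' y z' := by
  rintro η ⟨N, s, h1, h2, h3⟩
  exact ⟨N, s, h1, h2.trans hS, by linarith⟩

lemma Gk_shift (hd : 0 < d) {c₀ G : ℝ} (hc : 0 < c₀) {s T : ℕ} (hs : s ≤ T) {w : Site d}
    {η : Env d} (hA : c₀ * Z β h η s ≤ PP β h η s w) (hG : s * lam ρ β h - G ≤ X β h η s)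
    {H S : ℕ} {y z : ℝ} (hL : sh s w η ∈ Gk ρ β h H S y z) :
    η ∈ Gk ρ β h H (S + T) y (z + G + |Real.log c₀|) := by
  rw [mem_Gk] at hL ⊢
  obtain ⟨N, h1, h2⟩ := hL
  exact ⟨N, h1, Wd_mono le_rfl (by linarith) (Wd_shift hd hc hs hA hG h2)⟩

/-- The luck is the union of its groups. -/
lemma Gk_sub (H S : ℕ) (y z : ℝ) :
    Gk ρ β h H S y z ⊆ ⋃ i : ℕ, Gg ρ β h H S y z i := by
  rintro η ⟨N, s, h1, h2, h3⟩
  have hN0 : N ≠ 0 := by omega
  refine Set.mem_iUnion.mpr ⟨Nat.log 2 N, N, s, Nat.pow_log_le_self 2 hN0,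
    Nat.lt_pow_succ_log_self (by norm_num) N, h2, h3⟩

/-- A union with geometric masses. -/
lemma iU_le {Ω : Type*} [MeasurableSpace Ω] {P : Measure Ω} [IsFiniteMeasure P]
    {A : ℕ → Set Ω} {c r : ℝ} (hc : 0 ≤ c) (hr : 0 ≤ r) (hr1 : r < 1)
    (hA : ∀ i, P.real (A i) ≤ c * r ^ i) : P.real (⋃ i, A i) ≤ c * (1 - r)⁻¹ := by
  have hs : Summable fun i : ℕ => c * r ^ i := (summable_geometric_of_lt_one hr hr1).mul_left c
  have h0 : ∀ i : ℕ, 0 ≤ c * r ^ i := fun i => by positivity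
  have h1 : P (⋃ i, A i) ≤ ENNReal.ofReal (c * (1 - r)⁻¹) := by
    calc P (⋃ i, A i) ≤ ∑' i, P (A i) := measure_iUnion_le _
      _ ≤ ∑' i : ℕ, ENNReal.ofReal (c * r ^ i) := by
          refine ENNReal.tsum_le_tsum fun i => ?_
          rw [← ENNReal.ofReal_toReal (measure_ne_top P (A i))]
          exact ENNReal.ofReal_le_ofReal (hA i)
      _ = ENNReal.ofReal (∑' i : ℕ, c * r ^ i) := (ENNReal.ofReal_tsum_of_nonneg h0 hs).symm
      _ = ENNReal.ofReal (c * (1 - r)⁻¹) := by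
          rw [tsum_mul_left, tsum_geometric_of_lt_one hr hr1]
  have h2 : 0 ≤ c * (1 - r)⁻¹ := mul_nonneg hc (inv_nonneg.mpr (by linarith))
  exact ENNReal.toReal_le_of_le_ofReal h2 h1

/-- A set spaced by `b` which starts `b` above `p` and stays below `p + W` is small. -/
lemma card_sp {R : Finset ℕ} {p b W : ℕ} (hb : 1 ≤ b) (hlo : ∀ r ∈ R, p + b ≤ r)
    (hhi : ∀ r ∈ R, r < p + W) (hsp : ∀ r ∈ R, ∀ s ∈ R, r < s → r + b ≤ s) :
    R.card * b ≤ W := by
  rcases R.eq_empty_or_nonempty with hR | hR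
  · subst hR
    simp
  have hinj : Set.InjOn (fun r => (r - p) / b) (R : Set ℕ) := by
    intro r hr s hs hrs
    have hr' := hlo r hr
    have hs' := hlo s hs
    simp only at hrs
    by_contra hne
    rcases lt_or_gt_of_ne hne with h1 | h1
    · have h2 := hsp r hr s hs h1
      have h3 : (r - p) / b + 1 ≤ (s - p) / b := by
        rw [Nat.le_div_iff_mul_le (by omega)]
        have h4 : (r - p) / b * b ≤ r - p := Nat.div_mul_le_self _ _
        calc ((r - p) / b + 1) * b = (r - p) / b * b + b := by ring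
          _ ≤ s - p := by omega
      omega
    · have h2 := hsp s hs r hr h1
      have h3 : (s - p) / b + 1 ≤ (r - p) / b := by
        rw [Nat.le_div_iff_mul_le (by omega)]
        have h4 : (s - p) / b * b ≤ s - p := Nat.div_mul_le_self _ _
        calc ((s - p) / b + 1) * b = (s - p) / b * b + b := by ring
          _ ≤ r - p := by omega
      omega
  have hmap : ∀ r ∈ R, (fun r => (r - p) / b) r ∈ Finset.Icc 1 (W / b) := by
    intro r hr
    have h1 := hlo r hr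
    have h2 := hhi r hr
    simp only [Finset.mem_Icc]
    refine ⟨?_, Nat.div_le_div_right (by omega)⟩
    rw [Nat.le_div_iff_mul_le (by omega)]
    omega
  have h1 := Finset.card_le_card_of_injOn _ hmap hinj
  rw [Nat.card_Icc, Nat.add_sub_cancel] at h1
  calc R.card * b ≤ (W / b) * b := Nat.mul_le_mul_right _ h1
    _ ≤ W := Nat.div_mul_le_self _ _

/-- The events of the levels of `J`. -/
def EvT (ρ : Measure ℝ) (β : ℝ) (h : Vec d) (H : ℕ → ℕ) (J : Finset ℕ) (Θ : ℝ)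
    (S : ℕ) (z : ℝ) : Set (Env d) :=
  ⋂ r ∈ J, Gk ρ β h (H r) S (Θ * 2 ^ r) z

lemma EvT_meas (H : ℕ → ℕ) (J : Finset ℕ) (Θ : ℝ) (S : ℕ) (z : ℝ) :
    MeasurableSet (EvT ρ β h H J Θ S z) :=
  Finset.measurableSet_biInter _ fun _ _ => Gk_meas _ _ _ _

lemma EvT_dep (H : ℕ → ℕ) (J : Finset ℕ) (Θ : ℝ) (S : ℕ) (z : ℝ) :
    DependsOn (fun η => η ∈ EvT ρ β h H J Θ S z) {p | 1 ≤ p.1} := by
  intro η η' hη
  have h1 : ∀ r, (η ∈ Gk ρ β h (H r) S (Θ * 2 ^ r) z) = (η' ∈ Gk ρ β h (H r) S (Θ * 2 ^ r) z) :=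
    fun r => Gk_dep _ _ _ _ hη
  have h2 : ∀ ξ : Env d, (ξ ∈ EvT ρ β h H J Θ S z) =
      ∀ r ∈ J, ξ ∈ Gk ρ β h (H r) S (Θ * 2 ^ r) z := by
    intro ξ
    simp only [EvT, Set.mem_iInter]
  show (η ∈ EvT ρ β h H J Θ S z) = (η' ∈ EvT ρ β h H J Θ S z)
  rw [h2, h2]
  simp only [h1]

lemma mem_EvT {H : ℕ → ℕ} {J : Finset ℕ} {Θ : ℝ} {S : ℕ} {z : ℝ} {η : Env d} :
    η ∈ EvT ρ β h H J Θ S z ↔ ∀ r ∈ J, η ∈ Gk ρ β h (H r) S (Θ * 2 ^ r) z := by
  simp only [EvT, Set.mem_iInter]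

end T34

open T34 in
/-- ADT: the lucks of well separated levels are rare together. `m l` is a time before which the
fluctuations are at most `2 ^ l`, `H p ≤ B m p` the horizon of the level `p`, `θ 2 ^ (-i)` a bound
of the probability of the group `i`; the levels of `J` are spaced by `b₂`. -/
theorem adt34 {d : ℕ} {ρ : Measure ℝ} [IsProbabilityMeasure ρ] (hd : 0 < d)
    {β : ℝ} (hCat : CatP d ρ β) {c₀ : ℝ} (hc₀ : 0 < c₀) : ∃ Cz : ℝ, 1 ≤ Cz ∧
    ∀ h : Vec d, Loc1 ρ β h c₀ → ∀ (m H : ℕ → ℕ) (J : Finset ℕ) (b b₂ B K : ℕ) (θ Θ : ℝ),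
      Monotone m → (∀ l k : ℕ, k < m l → fM ρ β h k ≤ 2 ^ l) →
      (∀ p ∈ J, b ≤ p ∧ 2 ≤ m (p - b)) →
      (∀ p ∈ J, ∀ j : ℕ, (4 : ℝ) ^ (j + 1) * m p ≤ m (p + j + 1)) →
      (∀ p ∈ J, ∀ q ∈ J, p < q → p + b₂ ≤ q) → (∀ p ∈ J, H p ≤ B * m p) →
      0 < θ → θ ≤ 1 → 1 ≤ K → 6 * ((B : ℝ) + 1) ≤ θ * 4 ^ K → 2 * (K + b) ≤ b₂ →
      1 ≤ θ ^ 2 * (4 / 3) ^ b₂ →
      (∀ p ∈ J, ∀ i : ℕ, (law d ρ).real
        (Gg ρ β h (H p) (m (p - b)) (Θ * 2 ^ p) (Cz * 2 ^ (p - b)) i) ≤ θ * (1 / 2) ^ i) →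
      (law d ρ).real (⋂ p ∈ J, Gk ρ β h (H p) 0 (Θ * 2 ^ p) 0) ≤ (6 * Cz * θ) ^ J.card := by
  obtain ⟨Cc, hCc, hcat⟩ := hCat c₀ hc₀
  obtain ⟨Cz, hCz⟩ : ∃ Cz : ℝ, Cz = 4 * Cc + 2 * |Real.log c₀| := ⟨_, rfl⟩
  have hlog0 := abs_nonneg (Real.log c₀)
  have hCz1 : 1 ≤ Cz := by linarith
  have hCcz : Cc ≤ Cz := by linarith
  have hCz0 : 0 < Cz := by linarith
  refine ⟨Cz, hCz1, fun h hL m H J b b₂ B K θ Θ hm hlo hbig hnc hsp hH hθ hθ1 hK hKθ hb₂
    hb₂θ hgr => ?_⟩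
  obtain ⟨C4, hC4⟩ : ∃ C4, C4 = 6 * Cz := ⟨_, rfl⟩
  rw [← hC4]
  have hC41 : 1 ≤ C4 := by
    rw [hC4]
    nlinarith
  have hθ4 : θ ≤ C4 * θ := by nlinarith
  have hC40 : 0 ≤ C4 * θ := by positivity
  rcases le_or_gt 1 (C4 * θ) with hbig1 | hsm
  · exact measureReal_le_one.trans (one_le_pow₀ hbig1)
  -- the price of the lost levels
  have hlost : ∀ (c i : ℕ), c * b₂ ≤ 2 * i → 1 ≤ θ ^ c * (4 / 3) ^ i := by
    intro c i hci
    have h1 : (1 : ℝ) ≤ (θ ^ 2 * (4 / 3) ^ b₂) ^ c := one_le_pow₀ hb₂θ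
    have h2 : (θ ^ 2 * (4 / 3 : ℝ) ^ b₂) ^ c ≤ (θ ^ c * (4 / 3) ^ i) ^ 2 := by
      have e1 : (θ ^ 2 * (4 / 3 : ℝ) ^ b₂) ^ c = (θ ^ c) ^ 2 * (4 / 3) ^ (c * b₂) := by
        rw [mul_pow, ← pow_mul, ← pow_mul, ← pow_mul, mul_comm 2 c, mul_comm b₂ c]
      have e2 : (θ ^ c * (4 / 3 : ℝ) ^ i) ^ 2 = (θ ^ c) ^ 2 * (4 / 3) ^ (2 * i) := by
        rw [mul_pow, ← pow_mul (4 / 3 : ℝ), mul_comm i 2]
      rw [e1, e2]
      exact mul_le_mul_of_nonneg_left (pow_le_pow_right₀ (by norm_num) hci) (by positivity)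
    have h3 : 0 ≤ θ ^ c * (4 / 3 : ℝ) ^ i := by positivity
    nlinarith
  -- the claim
  have key : ∀ k : ℕ, ∀ p ∈ J, (J.filter (p ≤ ·)).card = k →
      (law d ρ).real (EvT ρ β h H (J.filter (p ≤ ·)) Θ (m (p - b)) (Cz * 2 ^ (p - b))) ≤
        (C4 * θ) ^ k := by
    intro k
    induction k using Nat.strong_induction_on with
    | _ k ih =>
    intro p hp hk
    obtain ⟨Jp, hJp⟩ : ∃ Jp, Jp = J.filter (p ≤ ·) := ⟨_, rfl⟩
    rw [← hJp] at hk ⊢
    have hJI : Jp ⊆ J := by rw [hJp]; exact Finset.filter_subset _ _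
    have hge : ∀ r ∈ Jp, p ≤ r := fun r hr => by
      rw [hJp] at hr
      exact (Finset.mem_filter.mp hr).2
    have hpJ : p ∈ Jp := by
      rw [hJp]
      exact Finset.mem_filter.mpr ⟨hp, le_rfl⟩
    have hk1 : 1 ≤ k := by
      rw [← hk]
      exact Finset.card_pos.mpr ⟨p, hpJ⟩
    obtain ⟨hbp, hM2⟩ := hbig p hp
    have hmpb : m (p - b) ≤ m p := hm (Nat.sub_le _ _)
    obtain ⟨S, hSdef⟩ : ∃ S, S = m (p - b) := ⟨_, rfl⟩
    obtain ⟨z, hz⟩ : ∃ z : ℝ, z = Cz * 2 ^ (p - b) := ⟨_, rfl⟩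
    rw [← hSdef, ← hz]
    obtain ⟨L, hLdef⟩ : ∃ L : ℕ → Set (Env d),
        L = fun i => Gg ρ β h (H p) S (Θ * 2 ^ p) z i := ⟨_, rfl⟩
    have hLmeas : ∀ i, MeasurableSet (L i) := fun i => by
      rw [hLdef]
      exact Gq_meas _ _ _ _ _
    have hPL : ∀ i : ℕ, (law d ρ).real (L i) ≤ θ * (1 / 2) ^ i := by
      intro i
      rw [hLdef, hSdef, hz]
      exact hgr p hp i
    obtain ⟨G₁, hG₁⟩ : ∃ G₁, G₁ = EvT ρ β h H (Jp.erase p) Θ S z := ⟨_, rfl⟩
    have hsub : EvT ρ β h H Jp Θ S z ⊆ ⋃ i : ℕ, (L i ∩ G₁) := by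
      intro η hη
      rw [mem_EvT] at hη
      have h2 := Gk_sub _ _ _ _ (hη p hpJ)
      obtain ⟨i, h3⟩ := Set.mem_iUnion.mp h2
      refine Set.mem_iUnion.mpr ⟨i, by rw [hLdef]; exact h3, ?_⟩
      rw [hG₁, mem_EvT]
      exact fun r hr => hη r (Finset.mem_of_mem_erase hr)
    have hpk : 0 ≤ (C4 * θ) ^ (k - 1) := by positivity
    have hterm : ∀ i : ℕ, (law d ρ).real (L i ∩ G₁) ≤
        2 * Cz * θ * (C4 * θ) ^ (k - 1) * (2 / 3) ^ i := by
      intro i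
      -- the lost levels
      obtain ⟨W, hW⟩ : ∃ W, W = i + K + b := ⟨_, rfl⟩
      have hcount : ∀ R : Finset ℕ, R ⊆ Jp → (∀ r ∈ R, p < r ∧ r < p + W) →
          R.card * b₂ ≤ 2 * i := by
        intro R hRJ hR
        have h1 : R.card * b₂ ≤ W := by
          refine card_sp (by omega) (fun r hr => hsp p hp r (hJI (hRJ hr)) (hR r hr).1)
            (fun r hr => (hR r hr).2) fun r hr s hs => hsp r (hJI (hRJ hr)) s (hJI (hRJ hs))
        rcases Nat.eq_zero_or_pos R.card with h2 | h2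
        · rw [h2]
          simp
        · have h3 : b₂ ≤ R.card * b₂ := Nat.le_mul_of_pos_left _ h2
          omega
      have e23 : (1 / 2 : ℝ) ^ i * (4 / 3) ^ i = (2 / 3) ^ i := by
        rw [← mul_pow]
        norm_num
      rcases (Jp.filter (p + W ≤ ·)).eq_empty_or_nonempty with hK0 | hK0
      · -- no level beyond the group
        have h1 : (Jp.erase p).card * b₂ ≤ 2 * i := by
          refine hcount _ (Finset.erase_subset _ _) fun r hr => ?_
          obtain ⟨h2, h3⟩ := Finset.mem_erase.mp hr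
          refine ⟨lt_of_le_of_ne (hge r h3) (Ne.symm h2), ?_⟩
          by_contra h4
          have h5 : r ∈ Jp.filter (p + W ≤ ·) := Finset.mem_filter.mpr ⟨h3, not_lt.mp h4⟩
          rw [hK0] at h5
          exact absurd h5 (Finset.notMem_empty r)
        rw [Finset.card_erase_of_mem hpJ, hk] at h1
        have h2 := hlost (k - 1) i h1
        have h3 : θ ^ (k - 1) ≤ (C4 * θ) ^ (k - 1) := pow_le_pow_left₀ hθ.le hθ4 _
        have h4 : (1 : ℝ) ≤ (C4 * θ) ^ (k - 1) * (4 / 3) ^ i :=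
          h2.trans (mul_le_mul_of_nonneg_right h3 (by positivity))
        have h5 : θ ≤ 2 * Cz * θ := by nlinarith
        calc (law d ρ).real (L i ∩ G₁) ≤ (law d ρ).real (L i) :=
              measureReal_mono Set.inter_subset_left (measure_ne_top _ _)
          _ ≤ θ * (1 / 2) ^ i := hPL i
          _ ≤ 2 * Cz * θ * (1 / 2) ^ i :=
              mul_le_mul_of_nonneg_right h5 (by positivity)
          _ ≤ 2 * Cz * θ * (1 / 2) ^ i * ((C4 * θ) ^ (k - 1) * (4 / 3) ^ i) :=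
              le_mul_of_one_le_right (by positivity) h4
          _ = 2 * Cz * θ * (C4 * θ) ^ (k - 1) * ((1 / 2) ^ i * (4 / 3) ^ i) := by ring
          _ = 2 * Cz * θ * (C4 * θ) ^ (k - 1) * (2 / 3) ^ i := by rw [e23]
      · -- the first level beyond the group
        obtain ⟨q, hq⟩ : ∃ q, q = (Jp.filter (p + W ≤ ·)).min' hK0 := ⟨_, rfl⟩
        have hqK : q ∈ Jp.filter (p + W ≤ ·) := by
          rw [hq]
          exact Finset.min'_mem _ _
        obtain ⟨hqJ, hqi⟩ := Finset.mem_filter.mp hqK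
        have hqmin : ∀ r ∈ Jp, p + W ≤ r → q ≤ r := fun r hr hri => by
          rw [hq]
          exact Finset.min'_le _ _ (Finset.mem_filter.mpr ⟨hr, hri⟩)
        have hqI : q ∈ J := hJI hqJ
        have hpq : p < q := by omega
        obtain ⟨hbq, hMq⟩ := hbig q hqI
        obtain ⟨Jq, hJq⟩ : ∃ Jq, Jq = J.filter (q ≤ ·) := ⟨_, rfl⟩
        have hJqJ : Jq ⊆ Jp := by
          intro r hr
          rw [hJq, Finset.mem_filter] at hr
          rw [hJp, Finset.mem_filter]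
          exact ⟨hr.1, by omega⟩
        have hJqe : Jq ⊆ Jp.erase p := by
          intro r hr
          refine Finset.mem_erase.mpr ⟨?_, hJqJ hr⟩
          rw [hJq, Finset.mem_filter] at hr
          omega
        obtain ⟨R, hR⟩ : ∃ R, R = Jp.erase p \ Jq := ⟨_, rfl⟩
        have hRc : R.card * b₂ ≤ 2 * i := by
          refine hcount R (by rw [hR]; exact Finset.sdiff_subset.trans (Finset.erase_subset _ _))
            fun r hr => ?_
          rw [hR, Finset.mem_sdiff, Finset.mem_erase] at hr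
          obtain ⟨⟨h2, h3⟩, h4⟩ := hr
          refine ⟨lt_of_le_of_ne (hge r h3) (Ne.symm h2), ?_⟩
          by_contra h5
          apply h4
          rw [hJq, Finset.mem_filter]
          exact ⟨hJI h3, hqmin r h3 (not_lt.mp h5)⟩
        have hcard : Jq.card + R.card = k - 1 := by
          rw [hR, Finset.card_sdiff_of_subset hJqe, Finset.card_erase_of_mem hpJ, hk]
          have h1 := Finset.card_le_card hJqe
          rw [Finset.card_erase_of_mem hpJ, hk] at h1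
          omega
        have hIH := ih Jq.card (by omega) q hqI (by rw [← hJq])
        rw [← hJq] at hIH
        -- the time of the later level
        obtain ⟨t, ht⟩ : ∃ t, q - b = p + t + 1 := ⟨q - b - p - 1, by omega⟩
        have hti : i + K ≤ t + 1 := by omega
        have hncq : (4 : ℝ) ^ (t + 1) * m p ≤ m (q - b) := by
          rw [ht]
          exact hnc p hp t
        have hmp2 : (2 : ℝ) ≤ m p := by
          have : 2 ≤ m p := hM2.trans hmpb
          exact_mod_cast this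
        have h4q : (4 : ℝ) * m p ≤ m (q - b) := by
          refine le_trans ?_ hncq
          apply mul_le_mul_of_nonneg_right _ (by linarith)
          calc (4 : ℝ) = 4 ^ 1 := by norm_num
            _ ≤ 4 ^ (t + 1) := pow_le_pow_right₀ (by norm_num) (by omega)
        have h4q' : 4 * m p ≤ m (q - b) := by exact_mod_cast h4q
        -- catch
        obtain ⟨T, hT⟩ : ∃ T, T = m (q - b) / 2 := ⟨_, rfl⟩
        obtain ⟨G, hG⟩ : ∃ G, G = EvT ρ β h H Jq Θ S z := ⟨_, rfl⟩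
        have hzq : z + Cc * (2 ^ (q - b) + 1) + |Real.log c₀| ≤ Cz * 2 ^ (q - b) := by
          have h1 : (2 : ℝ) * 2 ^ (p - b) ≤ 2 ^ (q - b) := by
            rw [← pow_succ']
            exact pow_le_pow_right₀ (by norm_num) (by omega)
          have h2 : (1 : ℝ) ≤ 2 ^ (q - b) := one_le_pow₀ (by norm_num)
          have h3 : Cz * (2 * 2 ^ (p - b)) ≤ Cz * 2 ^ (q - b) :=
            mul_le_mul_of_nonneg_left h1 hCz0.le
          have h4 : (Cc * 2 ^ (q - b) + Cc + |Real.log c₀| : ℝ) ≤ Cz / 2 * 2 ^ (q - b) := by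
            rw [hCz]
            nlinarith
          rw [hz]
          linarith
        have hcatch := hcat h hL (2 ^ (i + 1) * ((B + 1) * m p)) T (2 ^ (q - b)) (L i) G
          (EvT ρ β h H Jq Θ (m (q - b)) (Cz * 2 ^ (q - b)))
          (Nat.one_le_iff_ne_zero.mpr (by
            have : 2 ≤ m p := hM2.trans hmpb
            positivity)) (by omega) (hLmeas i)
          (by rw [hG]; exact EvT_meas _ _ _ _ _) (EvT_meas _ _ _ _ _)
          (by
            have h1 := Gq_dep (ρ := ρ) (β := β) (h := h) (H p) S (Θ * 2 ^ p) z i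
            rw [hLdef]
            refine fun η η' hη => h1 fun x hx => hη x ⟨hx.1, hx.2.trans ?_⟩
            apply Nat.mul_le_mul_left
            have h2 := hH p hp
            calc H p + S ≤ B * m p + m p := by omega
              _ = (B + 1) * m p := by ring)
          (by rw [hG]; exact EvT_dep _ _ _ _ _)
          (fun k' hk' => by
            have h1 := hlo (q - b) k' (by omega)
            unfold fM at h1
            exact ⟨(le_max_left _ _).trans h1, (le_max_right _ _).trans h1⟩)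
          (fun s y η hs hy hA hX hη => by
            rw [hG, mem_EvT] at hη
            rw [mem_EvT]
            intro r hr
            have h1 := Gk_shift hd hc₀ hs hA hX (hη r hr)
            exact Gk_mono (by omega) hzq h1)
        -- the numbers
        have hGG : (law d ρ).real (L i ∩ G₁) ≤ (law d ρ).real (L i ∩ G) := by
          refine measureReal_mono ?_ (measure_ne_top _ _)
          rintro η ⟨h1, h2⟩
          refine ⟨h1, ?_⟩
          rw [hG₁, mem_EvT] at h2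
          rw [hG, mem_EvT]
          exact fun r hr => h2 r (hJqe hr)
        have hmT : ((2 ^ (i + 1) * ((B + 1) * m p) : ℕ) : ℝ) / T ≤ θ * (1 / 2) ^ i := by
          have h1 : (m (q - b) : ℝ) / 3 ≤ T := by
            have h2 : m (q - b) ≤ 3 * T := by omega
            have h3 : (m (q - b) : ℝ) ≤ 3 * T := by exact_mod_cast h2
            linarith
          have hT0 : (0 : ℝ) < T := lt_of_lt_of_le (by linarith) h1
          rw [div_le_iff₀ hT0]
          have h2 : (4 : ℝ) ^ (i + K) * m p ≤ m (q - b) := by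
            refine le_trans ?_ hncq
            apply mul_le_mul_of_nonneg_right _ (by linarith)
            exact pow_le_pow_right₀ (by norm_num) hti
          have h3 : θ * (1 / 2) ^ i * ((4 : ℝ) ^ (i + K) * m p / 3) ≤ θ * (1 / 2) ^ i * T := by
            apply mul_le_mul_of_nonneg_left _ (by positivity)
            linarith
          refine le_trans ?_ h3
          have e4 : (4 : ℝ) ^ i = 2 ^ i * 2 ^ i := by
            rw [← mul_pow]
            norm_num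
          have e5 : (1 / 2 : ℝ) ^ i * 2 ^ i = 1 := by
            rw [← mul_pow]
            norm_num
          have e6 : θ * (1 / 2) ^ i * ((4 : ℝ) ^ (i + K) * m p / 3) =
              2 ^ i * (θ * 4 ^ K) * m p / 3 := by
            rw [pow_add, e4]
            calc θ * (1 / 2) ^ i * (2 ^ i * 2 ^ i * 4 ^ K * (m p : ℝ) / 3)
                = ((1 / 2) ^ i * 2 ^ i) * (2 ^ i * (θ * 4 ^ K) * m p / 3) := by ring
              _ = 2 ^ i * (θ * 4 ^ K) * m p / 3 := by rw [e5, one_mul]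
          rw [e6]
          push_cast
          have h5 : 2 ^ i * (6 * ((B : ℝ) + 1)) * m p / 3 ≤ 2 ^ i * (θ * 4 ^ K) * m p / 3 := by
            gcongr
          refine le_trans (le_of_eq ?_) h5
          rw [pow_succ]
          ring
        have hCcθ : Cc * ((law d ρ).real (L i) +
            ((2 ^ (i + 1) * ((B + 1) * m p) : ℕ) : ℝ) / T) ≤
            2 * Cz * θ * (1 / 2) ^ i := by
          calc Cc * ((law d ρ).real (L i) + ((2 ^ (i + 1) * ((B + 1) * m p) : ℕ) : ℝ) / T)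
              ≤ Cz * (θ * (1 / 2) ^ i + θ * (1 / 2) ^ i) := by
                apply mul_le_mul hCcz (add_le_add (hPL i) hmT) _ hCz0.le
                positivity
            _ = 2 * Cz * θ * (1 / 2) ^ i := by ring
        have h7 : (C4 * θ) ^ Jq.card ≤ (C4 * θ) ^ (k - 1) * (4 / 3) ^ i := by
          have h8 := hlost R.card i hRc
          have h9 : θ ^ R.card ≤ (C4 * θ) ^ R.card := pow_le_pow_left₀ hθ.le hθ4 _
          have h10 : (1 : ℝ) ≤ (C4 * θ) ^ R.card * (4 / 3) ^ i :=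
            h8.trans (mul_le_mul_of_nonneg_right h9 (by positivity))
          calc (C4 * θ) ^ Jq.card ≤ (C4 * θ) ^ Jq.card * ((C4 * θ) ^ R.card * (4 / 3) ^ i) :=
                le_mul_of_one_le_right (by positivity) h10
            _ = (C4 * θ) ^ (Jq.card + R.card) * (4 / 3) ^ i := by rw [pow_add]; ring
            _ = (C4 * θ) ^ (k - 1) * (4 / 3) ^ i := by rw [hcard]
        calc (law d ρ).real (L i ∩ G₁) ≤ (law d ρ).real (L i ∩ G) := hGG
          _ ≤ Cc * ((law d ρ).real (L i) + ((2 ^ (i + 1) * ((B + 1) * m p) : ℕ) : ℝ) / T) *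
              (law d ρ).real (EvT ρ β h H Jq Θ (m (q - b)) (Cz * 2 ^ (q - b))) := hcatch
          _ ≤ 2 * Cz * θ * (1 / 2) ^ i * ((C4 * θ) ^ (k - 1) * (4 / 3) ^ i) := by
              apply mul_le_mul hCcθ (hIH.trans h7) measureReal_nonneg (by positivity)
          _ = 2 * Cz * θ * (C4 * θ) ^ (k - 1) * ((1 / 2) ^ i * (4 / 3) ^ i) := by ring
          _ = 2 * Cz * θ * (C4 * θ) ^ (k - 1) * (2 / 3) ^ i := by rw [e23]
    calc (law d ρ).real (EvT ρ β h H Jp Θ S z)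
        ≤ (law d ρ).real (⋃ i : ℕ, (L i ∩ G₁)) :=
          measureReal_mono hsub (measure_ne_top _ _)
      _ ≤ 2 * Cz * θ * (C4 * θ) ^ (k - 1) * (1 - 2 / 3)⁻¹ :=
          iU_le (by positivity) (by norm_num) (by norm_num) hterm
      _ = (C4 * θ) * (C4 * θ) ^ (k - 1) := by
          rw [hC4]
          norm_num
          ring
      _ = (C4 * θ) ^ k := by
          rw [← pow_succ']
          congr 1
          omega
  -- the end
  rcases J.eq_empty_or_nonempty with hJ | hJ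
  · subst hJ
    simp
  · obtain ⟨p, hp⟩ : ∃ p, p = J.min' hJ := ⟨_, rfl⟩
    have hpI : p ∈ J := by
      rw [hp]
      exact Finset.min'_mem _ _
    have hIp : J.filter (p ≤ ·) = J := by
      apply Finset.filter_true_of_mem
      intro r hr
      rw [hp]
      exact Finset.min'_le _ _ hr
    have h1 := key J.card p hpI (by rw [hIp])
    rw [hIp] at h1
    refine le_trans (measureReal_mono ?_ (measure_ne_top _ _)) h1
    intro η hη
    simp only [Set.mem_iInter] at hη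
    rw [mem_EvT]
    exact fun r hr => Gk_mono (Nat.zero_le _) (by positivity) (hη r hr)

/-- AdtN, from CAT and GPL. -/
theorem adtN34 {d : ℕ} {ρ : Measure ℝ} [IsProbabilityMeasure ρ] (hd : 0 < d) {β : ℝ}
    (hCat : CatP d ρ β) (hG : GplN d ρ β) : AdtN d ρ β := by
  intro c₀ Λ ε B hc₀ hΛ hε
  obtain ⟨Cz, hCz1, hadt⟩ := adt34 (ρ := ρ) hd hCat hc₀
  have hCz0 : 0 < Cz := by linarith
  obtain ⟨ε', hε'⟩ : ∃ ε' : ℝ, ε' = ε / (6 * Cz) := ⟨_, rfl⟩
  have hε'0 : 0 < ε' := by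
    rw [hε']
    positivity
  obtain ⟨Θ₀, hΘ₀, hgpl⟩ := hG c₀ Λ ε' B hc₀ hΛ hε'0
  refine ⟨max Θ₀ ε', hΘ₀.trans (le_max_left _ _), fun Θ hΘ => ?_⟩
  have hΘ1 : Θ₀ ≤ Θ := (le_max_left _ _).trans hΘ
  have hΘ2 : ε' ≤ Θ := (le_max_right _ _).trans hΘ
  have hΘ0 : 0 < Θ := by linarith
  obtain ⟨θ, hθ⟩ : ∃ θ : ℝ, θ = ε' / Θ := ⟨_, rfl⟩
  have hθ0 : 0 < θ := by
    rw [hθ]
    positivity
  have hθ1 : θ ≤ 1 := by
    rw [hθ]
    exact (div_le_one hΘ0).mpr hΘ2
  obtain ⟨bs, hbs⟩ : ∃ bs : ℕ, Cz < 2 ^ bs := pow_unbounded_of_one_lt _ one_lt_two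
  obtain ⟨K₀, hK₀⟩ : ∃ K₀ : ℕ, 6 * ((B : ℝ) + 1) / θ < 4 ^ K₀ :=
    pow_unbounded_of_one_lt _ (by norm_num)
  obtain ⟨b₁, hb₁⟩ : ∃ b₁ : ℕ, 1 / θ ^ 2 < (4 / 3 : ℝ) ^ b₁ :=
    pow_unbounded_of_one_lt _ (by norm_num)
  refine ⟨max (2 * (K₀ + 1 + bs)) b₁, (by omega : 1 ≤ 2 * (K₀ + 1 + bs)).trans (le_max_left _ _),
    fun h hL m H I hLv hI hsp => ?_⟩
  obtain ⟨b, hb⟩ : ∃ b, b = max (2 * (K₀ + 1 + bs)) b₁ := ⟨_, rfl⟩
  rw [← hb] at hI hsp
  have hb2 : 2 * (K₀ + 1 + bs) ≤ b := by rw [hb]; exact le_max_left _ _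
  have hb1 : b₁ ≤ b := by rw [hb]; exact le_max_right _ _
  have hbsb : bs ≤ b := by omega
  have hm : Monotone m := A34.m_mono hLv.lo hLv.hi
  have h6 : 6 * Cz * θ = ε / Θ := by
    rw [hθ, hε']
    field_simp
  rw [← h6]
  refine hadt h hL m H I bs b B (K₀ + 1) θ Θ hm (fun l k hk => (hLv.lo l k hk).le)
    (fun p hp => ?_) (fun p hp j => ?_) hsp (fun p hp => (hI p hp).2.2.2.2) hθ0 hθ1 (by omega)
    ?_ (by omega) ?_ fun p hp i => ?_
  · obtain ⟨h1, h2, -, -, -⟩ := hI p hp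
    exact ⟨by omega, h2.trans (hm (by omega))⟩
  · obtain ⟨-, -, h1, -, -⟩ := hI p hp
    refine le_trans ?_ (h1 j).le
    apply mul_le_mul_of_nonneg_right _ (Nat.cast_nonneg _)
    exact pow_le_pow_left₀ (by norm_num) hΛ.le _
  · rw [div_lt_iff₀ hθ0] at hK₀
    have h1 : (4 : ℝ) ^ K₀ ≤ 4 ^ (K₀ + 1) := pow_le_pow_right₀ (by norm_num) (by omega)
    nlinarith
  · rw [div_lt_iff₀ (by positivity)] at hb₁
    have h1 : (4 / 3 : ℝ) ^ b₁ ≤ (4 / 3) ^ b := pow_le_pow_right₀ (by norm_num) hb1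
    have h2 : 0 < θ ^ 2 := by positivity
    nlinarith
  · obtain ⟨h1, h2, h3, h4, h5⟩ := hI p hp
    have hmp : 2 ≤ m p := h2.trans (hm (Nat.sub_le _ _))
    have h7 : (2 : ℝ) ^ p = 2 ^ bs * 2 ^ (p - bs) := by
      rw [← pow_add]
      congr 1
      omega
    have h8 := hgpl Θ hΘ1 h hL m p hLv h3 (by omega) (H p) (m (p - bs)) (Cz * 2 ^ (p - bs)) h4 h5
      (hm (Nat.sub_le _ _)) (by
        rw [h7]
        exact mul_le_mul_of_nonneg_right hbs.le (by positivity)) i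
    rw [hθ]
    exact h8

end Pool.Agent.W_7d29a1_SNP
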