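import Pool.Agent.W_7d29a1_SNP.DefsN28
import Pool.Agent.W_7d29a1_PL.Bud62
import Pool.Agent.W_7d29a1_SQ.Lkt93

/-!
Theorem SNP, leaf BUF (helper85): the budget of the polymer for a bounded function of the future of
its position.
-/

namespace Pool.Agent.W_7d29a1_SNP

open MeasureTheory ProbabilityTheory Filter Topology Pool.Agent.W_MP_7d29a1_pr
  Pool.Agent.W_7d29a1_h46 Pool.Agent.W_7d29a1_h46u Pool.Agent.W_7d29a1_D2.B35
  Pool.Agent.W_7d29a1_Q29 Pool.Agent.W_7d29a1_R34 Pool.Agent.W_7d29a1_SP Pool.Agent.W_7d29a1_SD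
  Pool.Agent.W_7d29a1_PL

namespace F85

variable {d : ℕ} {ρ : Measure ℝ} [IsProbabilityMeasure ρ]

lemma int_Qg (hd : 0 < d) {β : ℝ} {h : Vec d} {n t : ℕ} (ht : t ≤ n) {g : Env d → ℝ}
    (hg : Measurable g) {K : ℝ} (hK : ∀ η, |g η| ≤ K) (y : Site d) :
    Integrable (fun η => Qt β h n t y η * g (sh t y η)) (law d ρ) := by
  have hK0 : 0 ≤ K := (abs_nonneg _).trans (hK fun _ => 0)
  refine Integrable.mono' (integrable_const (1 * K)) ((S98.measurable_Qt β h n t y).mul
    (hg.comp (measurable_sh t y))).aestronglyMeasurable (Eventually.of_forall fun η => ?_)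
  rw [norm_mul, Real.norm_eq_abs, Real.norm_eq_abs]
  exact mul_le_mul (S98.Qt_abs hd β h ht y η) (hK _) (abs_nonneg _) zero_le_one

lemma int_Q (hd : 0 < d) {β : ℝ} {h : Vec d} {n t : ℕ} (ht : t ≤ n) (y : Site d) :
    Integrable (fun η => Qt β h n t y η) (law d ρ) :=
  Integrable.mono' (integrable_const (1 : ℝ)) (S98.measurable_Qt β h n t y).aestronglyMeasurable
    (Eventually.of_forall fun η => by
      rw [Real.norm_eq_abs]
      exact S98.Qt_abs hd β h ht y η)

omit [IsProbabilityMeasure ρ] in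
lemma lin85 {μ : Measure (Env d)} [IsProbabilityMeasure μ] {u q : Env d → ℝ}
    (hu : Integrable u μ) (hq : Integrable q μ) {c₀ c₁ c₂ : ℝ} :
    ∫ η, (c₀ + (c₁ * u η + c₂ * q η)) ∂μ = c₀ + (c₁ * ∫ η, u η ∂μ + c₂ * ∫ η, q η ∂μ) := by
  have h1 : ∫ η, (c₀ + (c₁ * u η + c₂ * q η)) ∂μ =
      ∫ _, c₀ ∂μ + ∫ η, (c₁ * u η + c₂ * q η) ∂μ :=
    integral_add (integrable_const c₀) ((hu.const_mul c₁).add (hq.const_mul c₂))
  have h2 : ∫ η, (c₁ * u η + c₂ * q η) ∂μ = ∫ η, c₁ * u η ∂μ + ∫ η, c₂ * q η ∂μ :=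
    integral_add (hu.const_mul c₁) (hq.const_mul c₂)
  rw [h1, h2, integral_const_mul, integral_const_mul]
  simp

/-- The budget at one time. -/
theorem one85 (hd : 0 < d) {β : ℝ} {h : Vec d} {n t : ℕ} (ht : t ≤ n)
    {R : Finset (Site d)} (hR : R ⊆ boxF d t) {N l : ℝ} (hN : (R.card : ℝ) ≤ N)
    (hl : ∫ η, (1 - ∑ y ∈ R, Qt β h n t y η) ∂(law d ρ) ≤ l)
    {g : Env d → ℝ} (hg : Measurable g) (hgd : DependsOn g {q | 1 ≤ q.1}) {K E : ℝ}
    (hK : ∀ η, |g η| ≤ K) (hE : 1 ≤ E) (hgE : ∫ η, Real.exp (g η) ∂(law d ρ) ≤ E) :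
    uf ρ β h n t g ≤
      Real.log E + Real.log (2 + 2 * (N * St ρ β h n t)) + 2 * K * l := by
  classical
  have hK0 : 0 ≤ K := (abs_nonneg _).trans (hK fun _ => 0)
  have hK1 : ∀ η, g η ≤ K := fun η => (abs_le.1 (hK η)).2
  have hK2 : ∀ η, -K ≤ g η := fun η => (abs_le.1 (hK η)).1
  have hN0 : 0 ≤ N := (Nat.cast_nonneg _).trans hN
  have hS0 : 0 ≤ St ρ β h n t := integral_nonneg fun η => Finset.sum_nonneg fun y _ => sq_nonneg _
  -- the weights
  obtain ⟨W, hW⟩ : ∃ W : Env d → ℝ, W = fun η => Real.exp ((g η + K) / 2) := ⟨_, rfl⟩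
  have hWm : Measurable W := by
    rw [hW]
    exact Real.measurable_exp.comp ((hg.add_const K).div_const 2)
  have hW1 : ∀ η, 1 ≤ W η := fun η => by
    rw [hW]
    exact Real.one_le_exp (by linarith [hK2 η])
  have hW0 : ∀ η, 0 ≤ W η := fun η => zero_le_one.trans (hW1 η)
  have hWK : ∀ η, W η ≤ Real.exp K := fun η => by
    rw [hW]
    exact Real.exp_le_exp.2 (by linarith [hK1 η])
  have hWlog : ∀ η, Real.log (W η) = (g η + K) / 2 := fun η => by
    rw [hW]
    exact Real.log_exp _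
  have hWdep : ∀ y, DependsOn (fun η : Env d => W (sh t y η)) (Pa d t)ᶜ := by
    intro y η η' hη
    show W (sh t y η) = W (sh t y η')
    have h1 : g (sh t y η) = g (sh t y η') := by
      refine hgd fun q hq => ?_
      have hq1 : 1 ≤ q.1 := hq
      refine hη _ ?_
      intro h2
      simp only [Pa, Set.mem_setOf_eq] at h2
      omega
    rw [hW]
    simp only [h1]
  have hmass := B62.massW62 (ρ := ρ) hd (β := β) (h := h) ht R hN hWm hW0 hWK hWdep
  have hW2 : ∫ η, W η ^ 2 ∂(law d ρ) ≤ Real.exp K * E := by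
    have e1 : ∀ η, W η ^ 2 = Real.exp K * Real.exp (g η) := by
      intro η
      rw [hW, ← Real.exp_add]
      simp only
      rw [← Real.exp_nat_mul]
      congr 1
      push_cast
      ring
    simp only [e1]
    rw [integral_const_mul]
    exact mul_le_mul_of_nonneg_left hgE (Real.exp_pos K).le
  obtain ⟨a, ha⟩ : ∃ a, a = Real.sqrt (Real.exp K * E * N * St ρ β h n t) := ⟨_, rfl⟩
  have ha0 : 0 ≤ a := by
    rw [ha]
    exact Real.sqrt_nonneg _
  have ha2 : a ^ 2 = Real.exp K * E * N * St ρ β h n t := by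
    rw [ha]
    refine Real.sq_sqrt ?_
    have := Real.exp_pos K
    positivity
  have hma : ∫ η, ∑ y ∈ R, Qt β h n t y η * W (sh t y η) ∂(law d ρ) ≤ a := by
    refine hmass.trans ?_
    rw [ha]
    refine Real.sqrt_le_sqrt ?_
    gcongr
  -- inside
  have hpt : ∀ η, ∑ y ∈ R, Qt β h n t y η * g (sh t y η) ≤
      2 * (Real.log (1 + a) + (1 + ∑ y ∈ R, Qt β h n t y η * W (sh t y η)) / (1 + a) - 1) -
        K * ∑ y ∈ R, Qt β h n t y η := by
    intro η
    have h1 := B62.jen62 R (fun y => Qt β h n t y η) (fun y => W (sh t y η))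
      (fun y _ => S98.Qt_nonneg hd β h n t y η) (B62.sumR62 hd β h ht R η) (fun y _ => hW1 _)
      (show (1 : ℝ) ≤ 1 + a by linarith)
    simp only [hWlog] at h1
    have h2 : ∑ y ∈ R, Qt β h n t y η * ((g (sh t y η) + K) / 2) =
        (∑ y ∈ R, Qt β h n t y η * g (sh t y η)) / 2 + K / 2 * ∑ y ∈ R, Qt β h n t y η := by
      rw [Finset.mul_sum, Finset.sum_div, ← Finset.sum_add_distrib]
      refine Finset.sum_congr rfl fun y _ => ?_
      ring
    rw [h2] at h1
    linarith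
  -- outside
  have hout : ∀ η, ∑ y ∈ boxF d t, Qt β h n t y η * g (sh t y η) ≤
      ∑ y ∈ R, Qt β h n t y η * g (sh t y η) + (1 - ∑ y ∈ R, Qt β h n t y η) * K := by
    intro η
    rw [← Finset.sum_sdiff hR, add_comm]
    refine add_le_add le_rfl ?_
    have h1 : 1 - ∑ y ∈ R, Qt β h n t y η = ∑ y ∈ boxF d t \ R, Qt β h n t y η := by
      rw [← S98.Qt_sum hd β h ht η, ← Finset.sum_sdiff hR]
      ring
    rw [h1, Finset.sum_mul]
    exact Finset.sum_le_sum fun y _ =>
      mul_le_mul_of_nonneg_left (hK1 _) (S98.Qt_nonneg hd β h n t y η)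
  have hall : ∀ η, ∑ y ∈ boxF d t, Qt β h n t y η * g (sh t y η) ≤
      2 * (Real.log (1 + a) + (1 + ∑ y ∈ R, Qt β h n t y η * W (sh t y η)) / (1 + a) - 1) - K +
        2 * K * (1 - ∑ y ∈ R, Qt β h n t y η) := by
    intro η
    have h1 := hpt η
    have h2 := hout η
    linarith
  have iW : Integrable (fun η => ∑ y ∈ R, Qt β h n t y η * W (sh t y η)) (law d ρ) :=
    integrable_finsetSum _ fun y _ => int_Qg hd ht hWm (K := Real.exp K)
      (fun η => by rw [abs_of_nonneg (hW0 η)]; exact hWK η) y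
  have iQ : Integrable (fun η => ∑ y ∈ R, Qt β h n t y η) (law d ρ) :=
    integrable_finsetSum _ fun y _ => int_Q hd ht y
  have i1Q : Integrable (fun η => 1 - ∑ y ∈ R, Qt β h n t y η) (law d ρ) :=
    (integrable_const (1 : ℝ)).sub iQ
  have h1 : uf ρ β h n t g ≤ 2 * Real.log (1 + a) - K + 2 * K * l := by
    unfold uf
    have e0 : ∀ η, ∑ y ∈ boxF d t, Qt β h n t y η * g (sh t y η) ≤
        (2 * (Real.log (1 + a) + 1 / (1 + a) - 1) - K) +
          (2 / (1 + a) * ∑ y ∈ R, Qt β h n t y η * W (sh t y η) +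
            2 * K * (1 - ∑ y ∈ R, Qt β h n t y η)) := by
      intro η
      refine (hall η).trans (le_of_eq ?_)
      rw [add_div]
      ring
    refine (integral_mono (integrable_finsetSum _ fun y _ => int_Qg hd ht hg hK y)
      ((integrable_const (2 * (Real.log (1 + a) + 1 / (1 + a) - 1) - K)).add
        ((iW.const_mul (2 / (1 + a))).add (i1Q.const_mul (2 * K)))) e0).trans ?_
    refine (le_of_eq (lin85 iW i1Q)).trans ?_
    have h6 : 2 / (1 + a) * ∫ η, ∑ y ∈ R, Qt β h n t y η * W (sh t y η) ∂(law d ρ) ≤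
        2 / (1 + a) * a := mul_le_mul_of_nonneg_left hma (by positivity)
    have h7 := mul_le_mul_of_nonneg_left hl (show 0 ≤ 2 * K by linarith)
    have h8 : 2 / (1 + a) * a + 2 * (1 / (1 + a)) = 2 := by
      have h9 : (1 + a) ≠ 0 := by linarith
      field_simp
      ring
    linarith
  -- the logarithm
  have h2 : 2 * Real.log (1 + a) ≤ K + Real.log E + Real.log (2 + 2 * (N * St ρ β h n t)) := by
    have e1 : 2 * Real.log (1 + a) = Real.log ((1 + a) ^ 2) := by
      rw [Real.log_pow]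
      norm_num
    have hE0 : 0 < E := by linarith
    have hY0 : 0 ≤ N * St ρ β h n t := mul_nonneg hN0 hS0
    have hX1 : 1 ≤ Real.exp K := Real.one_le_exp hK0
    have e2 : (1 + a) ^ 2 ≤ Real.exp K * E * (2 + 2 * (N * St ρ β h n t)) := by
      have h3 : (1 + a) ^ 2 ≤ 2 + 2 * a ^ 2 := by nlinarith [sq_nonneg (1 - a)]
      rw [ha2] at h3
      have h4 : 1 ≤ Real.exp K * E := by nlinarith
      nlinarith
    rw [e1]
    refine (Real.log_le_log (by positivity) e2).trans (le_of_eq ?_)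
    rw [Real.log_mul (by positivity) (by positivity), Real.log_mul (by positivity) hE0.ne',
      Real.log_exp]
  linarith

/-- The mean of logarithms. -/
lemma mlog85 {n : ℕ} (hn : 1 ≤ n) (x : ℕ → ℝ) (hx : ∀ t, 0 < x t) {S : ℝ}
    (hS : ∑ t ∈ Finset.range n, x t ≤ n * S) :
    ∑ t ∈ Finset.range n, Real.log (x t) ≤ n * Real.log S := by
  have hn0 : (0 : ℝ) < n := by exact_mod_cast hn
  have hne : (Finset.range n).Nonempty := ⟨0, Finset.mem_range.2 (by omega)⟩
  have hS1 : 0 < S := by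
    have h1 : 0 < ∑ t ∈ Finset.range n, x t := Finset.sum_pos (fun t _ => hx t) hne
    have h2 : 0 < (n : ℝ) * S := h1.trans_le hS
    exact (pos_iff_pos_of_mul_pos h2).1 hn0
  have h1 : ∀ t ∈ Finset.range n, Real.log (x t) ≤ Real.log S + (x t / S - 1) := by
    intro t _
    have h2 := Real.log_le_sub_one_of_pos (show 0 < x t / S from div_pos (hx t) hS1)
    rw [Real.log_div (hx t).ne' hS1.ne'] at h2
    linarith
  refine (Finset.sum_le_sum h1).trans ?_
  rw [Finset.sum_add_distrib, Finset.sum_const, Finset.sum_sub_distrib, Finset.sum_const,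
    Finset.card_range, ← Finset.sum_div]
  simp only [nsmul_eq_mul, mul_one]
  have h3 : (∑ t ∈ Finset.range n, x t) / S ≤ n := by
    rw [div_le_iff₀ hS1]
    exact hS
  linarith

/-- The time zero. -/
lemma st0_85 (hd : 0 < d) {β : ℝ} (h : Vec d) (n : ℕ) : St ρ β h n 0 ≤ 1 := by
  classical
  have h2 : ∀ η : Env d, ∑ y ∈ boxF d n, cE ρ (Pa d 0)ᶜ (Qt β h n 0 y) η ^ 2 ≤ 1 := by
    intro η
    have h3 : ∀ y ∈ boxF d n, cE ρ (Pa d 0)ᶜ (Qt β h n 0 y) η ^ 2 ≤
        cE ρ (Pa d 0)ᶜ (Qt β h n 0 y) η := by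
      intro y _
      have h4 := S98.cE_nonneg (ρ := ρ)
        (fun η => S98.Qt_nonneg hd β h n 0 y η) (Pa d 0)ᶜ η
      have h5 := S98.cE_le_one (ρ := ρ) (S98.measurable_Qt β h n 0 y)
        (fun η => S98.Qt_nonneg hd β h n 0 y η)
        (fun η => S98.Qt_le_one hd β h (Nat.zero_le n) y η) (Pa d 0)ᶜ η
      nlinarith
    refine (Finset.sum_le_sum h3).trans ?_
    have h6 : ∀ y ∈ boxF d n, y ∉ boxF d 0 → cE ρ (Pa d 0)ᶜ (Qt β h n 0 y) η = 0 := by
      intro y _ hy
      unfold cE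
      simp only [S98.Qt_off hy]
      simp
    have h7 : ∑ y ∈ boxF d n, cE ρ (Pa d 0)ᶜ (Qt β h n 0 y) η =
        ∑ y ∈ boxF d 0, cE ρ (Pa d 0)ᶜ (Qt β h n 0 y) η := by
      symm
      exact Finset.sum_subset (S98.boxF_mono (Nat.zero_le n)) h6
    rw [h7]
    unfold cE
    rw [← integral_finsetSum]
    · have h8 : ∀ ξ : Env d, ∑ y ∈ boxF d 0, Qt β h n 0 y (spl (Pa d 0)ᶜ η ξ) = 1 :=
        fun ξ => S98.Qt_sum hd β h (Nat.zero_le n) _
      simp only [h8]
      simp
    · intro y _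
      refine Integrable.mono' (integrable_const (1 : ℝ))
        ((S98.measurable_Qt β h n 0 y).comp
          (measurable_spl_right (Pa d 0)ᶜ η)).aestronglyMeasurable
        (Eventually.of_forall fun ξ => ?_)
      rw [Real.norm_eq_abs]
      exact S98.Qt_abs hd β h (Nat.zero_le n) y _
  unfold St
  refine (integral_mono_of_nonneg (Eventually.of_forall fun η =>
    Finset.sum_nonneg fun y _ => sq_nonneg _) (integrable_const (1 : ℝ))
    (Eventually.of_forall h2)).trans (le_of_eq (by simp))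

end F85

open F85 in
/-- **BUF.** -/
theorem bufN85 {d : ℕ} {ρ : Measure ℝ} [IsProbabilityMeasure ρ] (hd : 0 < d) {β : ℝ}
    (hNP : NPB d ρ β) : BufN d ρ β := by
  classical
  obtain ⟨C₀, hC₀, hNP⟩ := hNP
  intro κ hκ
  refine ⟨4 + 2 * C₀ + 2 / κ, by
    have : 0 < 2 / κ := by positivity
    linarith, ?_⟩
  intro h n N R hn hN0 hR g D Γ hg hgd hK hΓ hgE
  obtain ⟨C, hC⟩ : ∃ C, C = 4 + 2 * C₀ + 2 / κ := ⟨_, rfl⟩
  have hκ2 : 0 < 2 / κ := by positivity
  rw [← hC] at hR ⊢
  have hC1 : 0 < C := by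
    rw [hC]
    linarith
  have hn0 : (0 : ℝ) < n := by exact_mod_cast hn
  have hD0 : 0 ≤ D := (abs_nonneg _).trans (hK fun _ => 0)
  have hSt0 : ∀ t : ℕ, 0 ≤ St ρ β h n t := fun t => by
    unfold St
    exact integral_nonneg fun η => Finset.sum_nonneg fun y _ => sq_nonneg _
  have hVa0 : 0 ≤ Va ρ β h n := by
    unfold Va
    exact integral_nonneg fun η => sq_nonneg _
  have hlogE : Real.log (Real.exp Γ) = Γ := Real.log_exp Γ
  have hE1 : 1 ≤ Real.exp Γ := Real.one_le_exp hΓ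
  obtain ⟨x, hx⟩ : ∃ x : ℕ → ℝ, x = fun t =>
    2 + 2 * (if t = 0 then 1 else N * St ρ β h n t) := ⟨_, rfl⟩
  have hx0 : ∀ t, 0 < x t := by
    intro t
    rw [hx]
    simp only
    split_ifs
    · norm_num
    · have := mul_nonneg hN0 (hSt0 t)
      linarith
  have hone : ∀ t ∈ Finset.range n, uf ρ β h n t g ≤ Γ + Real.log (x t) + 2 * D * (1 / C) := by
    intro t ht
    rw [Finset.mem_range] at ht
    obtain ⟨h1, h2, h3⟩ := hR t ht
    by_cases h0 : t = 0
    · subst h0
      have h4 : ((R 0).card : ℝ) ≤ 1 := by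
        have h5 := Finset.card_le_card h1
        have h6 : (boxF d 0).card = 1 := by
          unfold boxF
          simp
        rw [h6] at h5
        exact_mod_cast h5
      have h5 := one85 (ρ := ρ) hd ht.le h1 h4 h3 hg hgd hK hE1 hgE
      rw [hlogE] at h5
      have h6 : Real.log (2 + 2 * (1 * St ρ β h n 0)) ≤ Real.log (x 0) := by
        rw [hx]
        refine Real.log_le_log (by linarith [hSt0 0]) ?_
        simp only [if_true]
        have := st0_85 (ρ := ρ) hd (β := β) h n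
        linarith
      linarith
    · have h5 := one85 (ρ := ρ) hd ht.le h1 h2 h3 hg hgd hK hE1 hgE
      rw [hlogE] at h5
      rw [hx]
      simp only [if_neg h0]
      exact h5
  have hsum : ∑ t ∈ Finset.range n, x t ≤ n * (4 + 2 * C₀ * (N * Va ρ β h n / n)) := by
    have h1 : ∀ t ∈ Finset.range n, x t ≤ (2 + (if t = 0 then 2 else 0)) +
        2 * N * (if 1 ≤ t then St ρ β h n t else 0) := by
      intro t _
      rw [hx]
      simp only
      by_cases h0 : t = 0
      · subst h0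
        simp
      · rw [if_neg h0, if_neg h0, if_pos (by omega)]
        linarith
    refine (Finset.sum_le_sum h1).trans ?_
    rw [Finset.sum_add_distrib, Finset.sum_add_distrib, Finset.sum_const, Finset.card_range,
      ← Finset.mul_sum, Finset.sum_ite_eq', ← Finset.sum_filter, nsmul_eq_mul]
    have h2 : (Finset.range n).filter (fun t => 1 ≤ t) ⊆ Finset.Icc 1 n := by
      intro t ht
      rw [Finset.mem_filter, Finset.mem_range] at ht
      rw [Finset.mem_Icc]
      omega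
    have h3 := (Finset.sum_le_sum_of_subset_of_nonneg (f := fun t => St ρ β h n t) h2
      fun t _ _ => hSt0 t)
    have h4 : ∑ t ∈ Finset.Icc 1 n, St ρ β h n t ≤ C₀ * Va ρ β h n := hNP h n
    have h5 := mul_le_mul_of_nonneg_left (h3.trans h4) (show 0 ≤ 2 * N by linarith)
    have h6 : (n : ℝ) * (4 + 2 * C₀ * (N * Va ρ β h n / n)) =
        n * 4 + 2 * N * (C₀ * Va ρ β h n) := by
      field_simp
    rw [h6, if_pos (Finset.mem_range.2 (by omega))]
    have h7 : (1 : ℝ) ≤ n := by exact_mod_cast hn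
    linarith
  have hlog := mlog85 hn x hx0 hsum
  have hC2 : 2 * D * (1 / C) ≤ κ * D := by
    have h1 : 2 / κ ≤ C := by
      rw [hC]
      linarith
    have h2 : 2 ≤ C * κ := by
      rwa [div_le_iff₀ hκ] at h1
    rw [mul_one_div, div_le_iff₀ hC1]
    nlinarith
  have hC3 : Real.log (4 + 2 * C₀ * (N * Va ρ β h n / n)) ≤
      Real.log (C * (1 + N * Va ρ β h n / n)) := by
    have h1 : 0 ≤ N * Va ρ β h n / n := by positivity
    refine Real.log_le_log (by positivity) ?_
    rw [hC]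
    nlinarith
  rw [div_le_iff₀ hn0]
  refine (Finset.sum_le_sum hone).trans ?_
  rw [Finset.sum_add_distrib, Finset.sum_add_distrib, Finset.sum_const, Finset.sum_const,
    Finset.card_range]
  simp only [nsmul_eq_mul]
  nlinarith

end Pool.Agent.W_7d29a1_SNP
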