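import Pool.Agent.W_7d29a1_SNP.DefsN28
import Pool.Agent.W_7d29a1_PL.Jen62

/-!
Leaf BUF: the budget of the polymer for bounded functions of the future (helper25).
-/

namespace Pool.Agent.W_7d29a1_SNP

open MeasureTheory ProbabilityTheory Filter Topology Pool.Agent.W_MP_7d29a1_pr
  Pool.Agent.W_7d29a1_h46 Pool.Agent.W_7d29a1_h46u Pool.Agent.W_7d29a1_D2.B35
  Pool.Agent.W_7d29a1_Q29 Pool.Agent.W_7d29a1_R34 Pool.Agent.W_7d29a1_SP
  Pool.Agent.W_7d29a1_PL Pool.Agent.W_7d29a1_SD Pool.Agent.W_7d29a1_KZ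

namespace N25

variable {d : ℕ} {ρ : Measure ℝ} [IsProbabilityMeasure ρ]

/-- The tangent of the exponential. -/
lemma tan25 (x : ℝ) {M : ℝ} (hM : 0 < M) : x ≤ Real.log M - 1 + Real.exp x / M := by
  have h1 := Real.add_one_le_exp (x - Real.log M)
  rw [Real.exp_sub, Real.exp_log hM] at h1
  linarith

/-- Time `0`. -/
lemma zero25 (hd : 0 < d) {β : ℝ} {h : Vec d} {n : ℕ} {g : Env d → ℝ} {D Γ : ℝ}
    (hg : Measurable g) (hD : ∀ η, |g η| ≤ D)
    (hΓ : ∫ η, Real.exp (g η) ∂(law d ρ) ≤ Real.exp Γ) : uf ρ β h n 0 g ≤ Γ := by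
  have h2 : boxF d 0 = {0} := by
    ext y
    simp only [boxF, Fintype.mem_piFinset, Finset.mem_Icc, Finset.mem_singleton]
    constructor
    · intro h3
      funext i
      have := h3 i
      push_cast at this
      show y i = 0
      omega
    · rintro rfl i
      simp
  have hQ : ∀ η, Qt β h n 0 0 η = 1 := by
    intro η
    have := S98.Qt_sum hd β h (Nat.zero_le n) η
    rwa [h2, Finset.sum_singleton] at this
  have hsh : ∀ η : Env d, sh 0 0 η = η := by
    intro η
    funext q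
    unfold sh
    simp
  have e1 : uf ρ β h n 0 g = ∫ η, g η ∂(law d ρ) := by
    unfold uf
    refine integral_congr_ae (Eventually.of_forall fun η => ?_)
    simp only [h2, Finset.sum_singleton, hQ, hsh, one_mul]
  have hi : Integrable g (law d ρ) :=
    Integrable.mono' (integrable_const D) hg.aestronglyMeasurable
      (Eventually.of_forall fun η => by
        rw [Real.norm_eq_abs]
        exact hD η)
  have hie : Integrable (fun η => Real.exp (g η)) (law d ρ) :=
    Integrable.mono' (integrable_const (Real.exp D)) (Real.measurable_exp.comp hg).aestronglyMeasurable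
      (Eventually.of_forall fun η => by
        rw [Real.norm_eq_abs, abs_of_pos (Real.exp_pos _)]
        exact Real.exp_le_exp.2 ((le_abs_self _).trans (hD η)))
  have h3 : ∫ η, g η ∂(law d ρ) ≤
      ∫ η, (Real.log (Real.exp Γ) - 1 + Real.exp (g η) / Real.exp Γ) ∂(law d ρ) :=
    integral_mono hi ((integrable_const _).add (hie.div_const _))
      fun η => tan25 _ (Real.exp_pos Γ)
  rw [integral_add (integrable_const _) (hie.div_const _), integral_div] at h3
  simp only [integral_const, probReal_univ, smul_eq_mul, one_mul, Real.log_exp] at h3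
  have h4 : (∫ η, Real.exp (g η) ∂(law d ρ)) / Real.exp Γ ≤ 1 := by
    rw [div_le_one (Real.exp_pos Γ)]
    exact hΓ
  rw [e1]
  linarith

/-- One time. -/
lemma one25 (hd : 0 < d) {β : ℝ} {h : Vec d} {n t : ℕ} (ht : t ≤ n)
    {R : Finset (Site d)} (hR : R ⊆ boxF d t) {N l : ℝ} (hN : (R.card : ℝ) ≤ N)
    (hl : ∫ η, (1 - ∑ y ∈ R, Qt β h n t y η) ∂(law d ρ) ≤ l)
    {g : Env d → ℝ} {D Γ : ℝ} (hg : Measurable g) (hdep : DependsOn g {q | 1 ≤ q.1})
    (hD : ∀ η, |g η| ≤ D) (hΓ0 : 0 ≤ Γ)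
    (hΓ : ∫ η, Real.exp (g η) ∂(law d ρ) ≤ Real.exp Γ) :
    uf ρ β h n t g ≤ Γ + Real.log (1 + N * St ρ β h n t) + 2 * l + l * D := by
  classical
  have hD0 : 0 ≤ D := (abs_nonneg _).trans (hD fun _ => 0)
  have hN0 : 0 ≤ N := (Nat.cast_nonneg _).trans hN
  have hSt0 : 0 ≤ St ρ β h n t := by
    unfold St
    exact integral_nonneg fun η => Finset.sum_nonneg fun y _ => sq_nonneg _
  have hQ0 := fun y η => S98.Qt_nonneg hd β h n t y η
  have hQi : ∀ y, Integrable (fun η => Qt β h n t y η) (law d ρ) := fun y =>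
    Integrable.mono' (integrable_const (1 : ℝ)) (S98.measurable_Qt β h n t y).aestronglyMeasurable
      (Eventually.of_forall fun η => by
        rw [Real.norm_eq_abs]
        exact S98.Qt_abs hd β h ht y η)
  have hQw : ∀ (w : Env d → ℝ) (K : ℝ), Measurable w → (∀ η, |w η| ≤ K) → ∀ y,
      Integrable (fun η => Qt β h n t y η * w (sh t y η)) (law d ρ) := by
    intro w K hw hK y
    refine Integrable.mono' (integrable_const K) ((S98.measurable_Qt β h n t y).mul
      (hw.comp (measurable_sh t y))).aestronglyMeasurable (Eventually.of_forall fun η => ?_)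
    rw [Real.norm_eq_abs, abs_mul, abs_of_nonneg (hQ0 y η)]
    calc Qt β h n t y η * |w (sh t y η)| ≤ 1 * K :=
          mul_le_mul (S98.Qt_le_one hd β h ht y η) (hK _) (abs_nonneg _) zero_le_one
      _ = K := one_mul K
  obtain ⟨G, hG⟩ : ∃ G : Env d → ℝ, G = fun η => Real.exp (g η / 2) := ⟨_, rfl⟩
  have hGm : Measurable G := by
    rw [hG]
    exact Real.measurable_exp.comp (hg.div_const 2)
  have hG0 : ∀ η, 0 ≤ G η := fun η => by
    rw [hG]
    exact (Real.exp_pos _).le
  have hGK : ∀ η, |G η| ≤ Real.exp D := fun η => by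
    rw [abs_of_nonneg (hG0 η), hG]
    refine Real.exp_le_exp.2 ?_
    have := (le_abs_self _).trans (hD η)
    linarith
  have hGd : DependsOn G {p | 1 ≤ p.1} := by
    intro η η' hη
    rw [hG]
    show Real.exp (g η / 2) = Real.exp (g η' / 2)
    rw [hdep hη]
  have hG2 : ∀ η, G η ^ 2 = Real.exp (g η) := fun η => by
    rw [hG]
    show Real.exp (g η / 2) ^ 2 = Real.exp (g η)
    rw [← Real.exp_nat_mul]
    congr 1
    push_cast
    ring
  have hG2i : Integrable (fun η => G η ^ 2) (law d ρ) := by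
    refine Integrable.mono' (integrable_const (Real.exp D ^ 2)) (hGm.pow_const 2).aestronglyMeasurable
      (Eventually.of_forall fun η => ?_)
    rw [Real.norm_eq_abs, abs_pow]
    exact pow_le_pow_left₀ (abs_nonneg _) (hGK η) 2
  have hJ := jenP62 (ρ := ρ) hd β h n t R G ht hR hGm hGd hG0 hG2i
  -- the bound of the mass
  obtain ⟨a, ha⟩ : ∃ a, a = Real.sqrt (1 + N * St ρ β h n t) := ⟨_, rfl⟩
  have hNS : 0 ≤ N * St ρ β h n t := mul_nonneg hN0 hSt0
  have ha1 : 1 ≤ a := by
    rw [ha, Real.one_le_sqrt]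
    linarith
  have ha0 : 0 < a := by linarith
  have ha2 : a ^ 2 = 1 + N * St ρ β h n t := by
    rw [ha]
    exact Real.sq_sqrt (by linarith)
  obtain ⟨M, hM⟩ : ∃ M, M = Real.exp (Γ / 2) * a := ⟨_, rfl⟩
  have hM0 : 0 < M := by
    rw [hM]
    positivity
  have hlM : Real.log M = Γ / 2 + Real.log (1 + N * St ρ β h n t) / 2 := by
    rw [hM, Real.log_mul (Real.exp_pos _).ne' ha0.ne', Real.log_exp, ← ha2, Real.log_pow]
    push_cast
    ring
  have hlM0 : 0 ≤ Real.log M := by
    rw [hlM]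
    have := Real.log_nonneg (show 1 ≤ 1 + N * St ρ β h n t by linarith)
    linarith
  have hJM : ∫ η, ∑ y ∈ R, Qt β h n t y η * G (sh t y η) ∂(law d ρ) ≤ M := by
    refine hJ.trans ?_
    rw [Real.sqrt_le_left hM0.le]
    have h1 : M ^ 2 = Real.exp Γ * (1 + N * St ρ β h n t) := by
      rw [hM, mul_pow, ha2, ← Real.exp_nat_mul]
      congr 2
      push_cast
      ring
    rw [h1]
    have h2 : ∫ η, G η ^ 2 ∂(law d ρ) ≤ Real.exp Γ := by
      simp only [hG2]
      exact hΓ
    have h3 : 0 ≤ ∫ η, G η ^ 2 ∂(law d ρ) := integral_nonneg fun η => sq_nonneg _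
    have h4 : (R.card : ℝ) * St ρ β h n t ≤ 1 + N * St ρ β h n t := by
      have := mul_le_mul_of_nonneg_right hN hSt0
      linarith
    calc (R.card : ℝ) * St ρ β h n t * ∫ η, G η ^ 2 ∂(law d ρ)
        ≤ (1 + N * St ρ β h n t) * Real.exp Γ := mul_le_mul h4 h2 h3 (by linarith)
      _ = Real.exp Γ * (1 + N * St ρ β h n t) := mul_comm _ _
  -- inside and outside
  have hpt : ∀ η, ∑ y ∈ boxF d t, Qt β h n t y η * g (sh t y η) ≤
      2 / M * (∑ y ∈ R, Qt β h n t y η * G (sh t y η)) +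
        (2 + D) * (1 - ∑ y ∈ R, Qt β h n t y η) + 2 * (Real.log M - 1) := by
    intro η
    have h1 : 1 - ∑ y ∈ R, Qt β h n t y η = ∑ y ∈ boxF d t \ R, Qt β h n t y η := by
      rw [← S98.Qt_sum hd β h ht η, ← Finset.sum_sdiff hR]
      ring
    have h2 : 0 ≤ 1 - ∑ y ∈ R, Qt β h n t y η := by
      rw [h1]
      exact Finset.sum_nonneg fun y _ => hQ0 y η
    have hin : ∑ y ∈ R, Qt β h n t y η * g (sh t y η) ≤
        2 / M * (∑ y ∈ R, Qt β h n t y η * G (sh t y η)) +
        2 * (1 - ∑ y ∈ R, Qt β h n t y η) + 2 * (Real.log M - 1) := by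
      have h3 : ∑ y ∈ R, Qt β h n t y η * g (sh t y η) ≤
          ∑ y ∈ R, 2 * (Qt β h n t y η * (Real.log M - 1 + G (sh t y η) / M)) := by
        refine Finset.sum_le_sum fun y _ => ?_
        have h4 := tan25 (g (sh t y η) / 2) hM0
        have h5 : G (sh t y η) = Real.exp (g (sh t y η) / 2) := by rw [hG]
        rw [← h5] at h4
        have h6 := mul_le_mul_of_nonneg_left h4 (hQ0 y η)
        linarith
      have h4 : ∑ y ∈ R, 2 * (Qt β h n t y η * (Real.log M - 1 + G (sh t y η) / M)) =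
          2 * ((∑ y ∈ R, Qt β h n t y η) * (Real.log M - 1) +
            (∑ y ∈ R, Qt β h n t y η * G (sh t y η)) / M) := by
        rw [← Finset.mul_sum, Finset.sum_mul, Finset.sum_div, ← Finset.sum_add_distrib]
        congr 1
        exact Finset.sum_congr rfl fun y _ => by ring
      rw [h4] at h3
      have h5 : 0 ≤ (1 - ∑ y ∈ R, Qt β h n t y η) * Real.log M := mul_nonneg h2 hlM0
      have h6 : 2 / M * (∑ y ∈ R, Qt β h n t y η * G (sh t y η)) =
          2 * ((∑ y ∈ R, Qt β h n t y η * G (sh t y η)) / M) := by ring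
      rw [h6]
      linarith
    have hout : ∑ y ∈ boxF d t \ R, Qt β h n t y η * g (sh t y η) ≤
        D * (1 - ∑ y ∈ R, Qt β h n t y η) := by
      rw [h1, Finset.mul_sum]
      refine Finset.sum_le_sum fun y _ => ?_
      rw [mul_comm D]
      exact mul_le_mul_of_nonneg_left ((le_abs_self _).trans (hD _)) (hQ0 y η)
    rw [← Finset.sum_sdiff hR]
    linarith
  have iG : Integrable (fun η => ∑ y ∈ R, Qt β h n t y η * G (sh t y η)) (law d ρ) :=
    integrable_finsetSum _ fun y _ => hQw G _ hGm hGK y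
  have iO : Integrable (fun η => 1 - ∑ y ∈ R, Qt β h n t y η) (law d ρ) :=
    (integrable_const (1 : ℝ)).sub (integrable_finsetSum _ fun y _ => hQi y)
  have i1 : Integrable (fun η => 2 / M * (∑ y ∈ R, Qt β h n t y η * G (sh t y η))) (law d ρ) :=
    iG.const_mul _
  have i2 : Integrable (fun η => (2 + D) * (1 - ∑ y ∈ R, Qt β h n t y η)) (law d ρ) :=
    iO.const_mul _
  have i12 : Integrable (fun η => 2 / M * (∑ y ∈ R, Qt β h n t y η * G (sh t y η)) +
      (2 + D) * (1 - ∑ y ∈ R, Qt β h n t y η)) (law d ρ) := i1.add i2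
  have h2 : uf ρ β h n t g ≤ ∫ η, (2 / M * (∑ y ∈ R, Qt β h n t y η * G (sh t y η)) +
        (2 + D) * (1 - ∑ y ∈ R, Qt β h n t y η) + 2 * (Real.log M - 1)) ∂(law d ρ) :=
    integral_mono (integrable_finsetSum _ fun y _ => hQw g D hg hD y)
      (i12.add (integrable_const _)) hpt
  rw [integral_add i12 (integrable_const _), integral_add i1 i2, integral_const_mul,
    integral_const_mul] at h2
  simp only [integral_const, probReal_univ, smul_eq_mul, one_mul] at h2
  have h3 : (∫ η, ∑ y ∈ R, Qt β h n t y η * G (sh t y η) ∂(law d ρ)) / M ≤ 1 := by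
    rw [div_le_one hM0]
    exact hJM
  have h4 := mul_le_mul_of_nonneg_left hl (show 0 ≤ 2 + D by linarith)
  have h5 : 2 / M * (∫ η, ∑ y ∈ R, Qt β h n t y η * G (sh t y η) ∂(law d ρ)) =
      2 * ((∫ η, ∑ y ∈ R, Qt β h n t y η * G (sh t y η) ∂(law d ρ)) / M) := by ring
  rw [hlM, h5] at h2
  linarith

end N25

open N25 in
/-- **BUF.** -/
theorem bufN25 {d : ℕ} {ρ : Measure ℝ} [IsProbabilityMeasure ρ] (hd : 0 < d) {β : ℝ}
    (hNP : NPB d ρ β) : BufN d ρ β := by
  intro κ hκ
  obtain ⟨C₀, hC₀, hNP⟩ := hNP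
  have hκi : 0 < κ⁻¹ := inv_pos.2 hκ
  have he2 : 1 ≤ Real.exp 2 := Real.one_le_exp (by norm_num)
  have hE : 0 ≤ Real.exp 2 * C₀ := by positivity
  refine ⟨Real.exp 2 * (1 + C₀) + κ⁻¹, by nlinarith, fun h n N R hn hN hR => ?_⟩
  obtain ⟨C, hC⟩ : ∃ C, C = Real.exp 2 * (1 + C₀) + κ⁻¹ := ⟨_, rfl⟩
  rw [← hC] at hR ⊢
  have hC1 : 1 ≤ C := by
    rw [hC]
    nlinarith
  have hC0 : 0 < C := by linarith
  have hl1 : 1 / C ≤ 1 := by
    rw [div_le_one hC0]
    exact hC1
  have hlκ : 1 / C ≤ κ := by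
    rw [div_le_iff₀ hC0, hC]
    have h1 : κ * κ⁻¹ = 1 := mul_inv_cancel₀ hκ.ne'
    have h2 : 0 ≤ κ * (Real.exp 2 * (1 + C₀)) := by positivity
    rw [mul_add, h1]
    linarith
  intro g D Γ hg hdep hD hΓ0 hΓ
  have hD0 : 0 ≤ D := (abs_nonneg _).trans (hD fun _ => 0)
  have hn0 : (0 : ℝ) < n := by exact_mod_cast hn
  have hSt0 : ∀ t : ℕ, 0 ≤ St ρ β h n t := fun t => by
    unfold St
    exact integral_nonneg fun η => Finset.sum_nonneg fun y _ => sq_nonneg _
  obtain ⟨f, hf⟩ : ∃ f : ℕ → ℝ, f = fun t => if t = 0 then 0 else N * St ρ β h n t := ⟨_, rfl⟩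
  have hVa0 : 0 ≤ Va ρ β h n := integral_nonneg fun _ => sq_nonneg _
  obtain ⟨A₀, hA₀⟩ : ∃ A₀, A₀ = N * (C₀ * Va ρ β h n) / n := ⟨_, rfl⟩
  have hA0 : 0 ≤ A₀ := by
    rw [hA₀]
    positivity
  have hfs : ∑ t ∈ Finset.range n, f t ≤ n * A₀ := by
    have h1 : ∑ t ∈ Finset.range n, f t ≤ ∑ t ∈ Finset.Icc 1 n, N * St ρ β h n t := by
      have h2 : ∑ t ∈ Finset.range n, f t = ∑ t ∈ (Finset.range n).filter (fun t => t ≠ 0),
          N * St ρ β h n t := by
        rw [Finset.sum_filter]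
        refine Finset.sum_congr rfl fun t _ => ?_
        rw [hf]
        by_cases h3 : t = 0 <;> simp [h3]
      rw [h2]
      refine Finset.sum_le_sum_of_subset_of_nonneg (fun t ht => ?_)
        fun t _ _ => mul_nonneg hN (hSt0 t)
      rw [Finset.mem_filter, Finset.mem_range] at ht
      rw [Finset.mem_Icc]
      omega
    rw [← Finset.mul_sum] at h1
    have h2 : ∑ t ∈ Finset.Icc 1 n, St ρ β h n t ≤ C₀ * Va ρ β h n := hNP h n
    have h3 := mul_le_mul_of_nonneg_left h2 hN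
    rw [hA₀, mul_div_cancel₀ _ hn0.ne']
    linarith
  have hone : ∀ t ∈ Finset.range n, uf ρ β h n t g ≤ Γ + (Real.log (1 + A₀) +
      (f t - A₀) / (1 + A₀)) + 2 / C + 1 / C * D := by
    intro t ht
    have htn : t < n := Finset.mem_range.1 ht
    have hA1 : 0 < 1 + A₀ := by linarith
    have hlog : ∀ a : ℝ, 0 ≤ a → Real.log (1 + a) ≤ Real.log (1 + A₀) + (a - A₀) / (1 + A₀) := by
      intro a ha
      have h3 := Real.log_le_sub_one_of_pos (show 0 < (1 + a) / (1 + A₀) by positivity)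
      rw [Real.log_div (by linarith) hA1.ne'] at h3
      have h4 : (1 + a) / (1 + A₀) - 1 = (a - A₀) / (1 + A₀) := by
        field_simp
        ring
      rw [h4] at h3
      linarith
    have hpos : 0 ≤ 2 / C + 1 / C * D := by positivity
    by_cases h0 : t = 0
    · rw [h0]
      have h1 := zero25 (ρ := ρ) hd (β := β) (h := h) (n := n) hg hD hΓ
      have h2 := hlog 0 le_rfl
      rw [add_zero, Real.log_one] at h2
      have h3 : f 0 = 0 := by rw [hf]; simp
      rw [h3]
      linarith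
    · obtain ⟨hR1, hR2, hR3⟩ := hR t htn
      have h1 := one25 (ρ := ρ) hd (β := β) (h := h) htn.le hR1 hR2 hR3 hg hdep hD hΓ0 hΓ
      have h3 : f t = N * St ρ β h n t := by rw [hf]; simp [h0]
      have h2 := hlog (f t) (by rw [h3]; exact mul_nonneg hN (hSt0 t))
      rw [← h3] at h1
      have h4 : 2 * (1 / C) = 2 / C := by ring
      linarith
  have hsum := Finset.sum_le_sum hone
  have hA1 : 0 < 1 + A₀ := by linarith
  have e1 : ∑ t ∈ Finset.range n, (Γ + (Real.log (1 + A₀) +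
      (f t - A₀) / (1 + A₀)) + 2 / C + 1 / C * D) =
      n * (Γ + Real.log (1 + A₀) + 2 / C + 1 / C * D) +
        (∑ t ∈ Finset.range n, f t - n * A₀) / (1 + A₀) := by
    simp only [Finset.sum_add_distrib, Finset.sum_const, Finset.card_range, nsmul_eq_mul,
      ← Finset.sum_div, Finset.sum_sub_distrib]
    ring
  rw [e1] at hsum
  have h5 : (∑ t ∈ Finset.range n, f t - n * A₀) / (1 + A₀) ≤ 0 :=
    div_nonpos_of_nonpos_of_nonneg (by linarith) hA1.le
  rw [div_le_iff₀ hn0]
  have h6 : 1 + A₀ ≤ (1 + C₀) * (1 + N * Va ρ β h n / n) := by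
    have h7 : A₀ = C₀ * (N * Va ρ β h n / n) := by
      rw [hA₀]
      ring
    have h8 : 0 ≤ N * Va ρ β h n / n := by positivity
    rw [h7]
    nlinarith
  have h7 : Real.log (1 + A₀) + 2 / C ≤ Real.log (C * (1 + N * Va ρ β h n / n)) := by
    have h8 : 0 ≤ N * Va ρ β h n / n := by positivity
    have h9 : 2 / C ≤ Real.log (Real.exp 2) := by
      rw [Real.log_exp]
      have : 2 / C = 2 * (1 / C) := by ring
      rw [this]
      linarith
    have h10 : Real.log (1 + A₀) + Real.log (Real.exp 2) = Real.log ((1 + A₀) * Real.exp 2) :=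
      (Real.log_mul hA1.ne' (Real.exp_pos 2).ne').symm
    have h11 : (1 + A₀) * Real.exp 2 ≤ C * (1 + N * Va ρ β h n / n) := by
      have h12 : Real.exp 2 * (1 + C₀) ≤ C := by
        rw [hC]
        linarith
      calc (1 + A₀) * Real.exp 2 ≤ (1 + C₀) * (1 + N * Va ρ β h n / n) * Real.exp 2 :=
            mul_le_mul_of_nonneg_right h6 (Real.exp_pos 2).le
        _ = Real.exp 2 * (1 + C₀) * (1 + N * Va ρ β h n / n) := by ring
        _ ≤ C * (1 + N * Va ρ β h n / n) := mul_le_mul_of_nonneg_right h12 (by linarith)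
    have h12 := Real.log_le_log (by positivity) h11
    linarith
  have h8 : 1 / C * D ≤ κ * D := mul_le_mul_of_nonneg_right hlκ hD0
  have h9 : (n : ℝ) * (Γ + Real.log (1 + A₀) + 2 / C + 1 / C * D) ≤
      n * (Γ + Real.log (C * (1 + N * Va ρ β h n / n)) + κ * D) :=
    mul_le_mul_of_nonneg_left (by linarith) hn0.le
  rw [mul_comm ((n : ℝ)) (Γ + Real.log (C * (1 + N * Va ρ β h n / n)) + κ * D)] at h9
  linarith

end Pool.Agent.W_7d29a1_SNP
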