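import Mathlib

/-!
A sum of nearly independent terms spreads (one characteristic function; helper75).
-/

namespace Pool.Agent.W_7d29a1_SNP.Chf75

open MeasureTheory ProbabilityTheory Filter Topology

variable {Ω : Type*} [MeasurableSpace Ω] {P : Measure Ω}

/-- The characteristic function. -/
noncomputable def cf (P : Measure Ω) (τ : ℝ) (W : Ω → ℝ) : ℂ :=
  ∫ w, Complex.exp (((τ * W w : ℝ) : ℂ) * Complex.I) ∂P

lemma one_sub_cos {s : ℝ} (hs : 0 ≤ s) (u : ℝ) :
    (2 * s * |u| - s ^ 2 - s * u ^ 2) / 5 ≤ 1 - Real.cos u := by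
  by_cases hu : |u| ≤ Real.pi
  · have h1 := Real.cos_le_one_sub_mul_cos_sq hu
    have hpi : Real.pi ^ 2 ≤ 10 := by
      nlinarith [Real.pi_lt_d2, Real.pi_pos]
    have hpos : 0 < Real.pi ^ 2 := by positivity
    have h2 : (1 : ℝ) / 5 ≤ 2 / Real.pi ^ 2 := by
      rw [div_le_div_iff₀ (by norm_num) hpos]
      linarith
    have h3 : 1 / 5 * u ^ 2 ≤ 2 / Real.pi ^ 2 * u ^ 2 :=
      mul_le_mul_of_nonneg_right h2 (sq_nonneg u)
    have h4 : 2 * s * |u| - s ^ 2 ≤ u ^ 2 := by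
      nlinarith [sq_nonneg (|u| - s), sq_abs u]
    nlinarith [mul_nonneg hs (sq_nonneg u)]
  · push Not at hu
    have h2 : (2 : ℝ) ≤ |u| := by
      linarith [Real.pi_gt_three]
    have h3 : 2 * s * |u| - s * u ^ 2 ≤ 0 := by
      have : 2 * s * |u| - s * u ^ 2 = s * (|u| * (2 - |u|)) := by
        rw [← sq_abs u]
        ring
      rw [this]
      apply mul_nonpos_of_nonneg_of_nonpos hs
      exact mul_nonpos_of_nonneg_of_nonpos (abs_nonneg u) (by linarith)
    have h4 := Real.cos_le_one u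
    nlinarith [sq_nonneg s]

variable [IsProbabilityMeasure P]

lemma int_cos {W : Ω → ℝ} (hW : AEStronglyMeasurable W P) (τ : ℝ) :
    Integrable (fun w => Real.cos (τ * W w)) P := by
  refine Integrable.of_bound (C := 1)
    (Real.continuous_cos.comp_aestronglyMeasurable (hW.const_mul τ)) ?_
  exact ae_of_all _ fun w => by
    rw [Real.norm_eq_abs]
    exact Real.abs_cos_le_one _

lemma int_sin {W : Ω → ℝ} (hW : AEStronglyMeasurable W P) (τ : ℝ) :
    Integrable (fun w => Real.sin (τ * W w)) P := by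
  refine Integrable.of_bound (C := 1)
    (Real.continuous_sin.comp_aestronglyMeasurable (hW.const_mul τ)) ?_
  exact ae_of_all _ fun w => by
    rw [Real.norm_eq_abs]
    exact Real.abs_sin_le_one _

lemma int_exp {W : Ω → ℝ} (hW : AEStronglyMeasurable W P) (τ : ℝ) :
    Integrable (fun w => Complex.exp (((τ * W w : ℝ) : ℂ) * Complex.I)) P := by
  refine Integrable.of_bound (C := 1) ?_ ?_
  · have h1 : AEStronglyMeasurable (fun w => τ * W w) P := hW.const_mul τ
    have h2 : Continuous fun t : ℝ => Complex.exp ((t : ℂ) * Complex.I) := by fun_prop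
    exact h2.comp_aestronglyMeasurable h1
  · exact ae_of_all _ fun w => by
      rw [Complex.norm_exp_ofReal_mul_I]

lemma cf_eq {W : Ω → ℝ} (hW : AEStronglyMeasurable W P) (τ : ℝ) :
    cf P τ W = ((∫ w, Real.cos (τ * W w) ∂P : ℝ) : ℂ) +
      ((∫ w, Real.sin (τ * W w) ∂P : ℝ) : ℂ) * Complex.I := by
  unfold cf
  have h1 : ∀ w, Complex.exp (((τ * W w : ℝ) : ℂ) * Complex.I) =
      ((Real.cos (τ * W w) : ℝ) : ℂ) + ((Real.sin (τ * W w) : ℝ) : ℂ) * Complex.I := by
    intro w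
    rw [Complex.exp_mul_I, Complex.ofReal_cos, Complex.ofReal_sin]
  simp_rw [h1]
  have i1 : Integrable (fun w => ((Real.cos (τ * W w) : ℝ) : ℂ)) P := (int_cos hW τ).ofReal
  have i2 : Integrable (fun w => ((Real.sin (τ * W w) : ℝ) : ℂ) * Complex.I) P :=
    (int_sin hW τ).ofReal.mul_const _
  rw [integral_add i1 i2, integral_mul_const, integral_complex_ofReal, integral_complex_ofReal]

lemma cf_norm_sq {W : Ω → ℝ} (hW : AEStronglyMeasurable W P) (τ : ℝ) :
    ‖cf P τ W‖ ^ 2 = (∫ w, Real.cos (τ * W w) ∂P) ^ 2 + (∫ w, Real.sin (τ * W w) ∂P) ^ 2 := by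
  rw [cf_eq hW, ← Complex.normSq_eq_norm_sq, Complex.normSq_add_mul_I]

lemma inner {W : Ω → ℝ} (hW : MemLp W 2 P) (h0 : ∫ w, W w ∂P = 0) {s τ : ℝ} (hs : 0 ≤ s)
    (hτ : 0 ≤ τ) (a : ℝ) :
    (2 * s * τ * |a| - s ^ 2 - s * τ ^ 2 * (a ^ 2 + ∫ w, W w ^ 2 ∂P)) / 5 ≤
      1 - (Real.cos (τ * a) * ∫ w, Real.cos (τ * W w) ∂P +
        Real.sin (τ * a) * ∫ w, Real.sin (τ * W w) ∂P) := by
  have hm := hW.aestronglyMeasurable
  have hi : Integrable W P := hW.integrable (by norm_num)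
  have hi2 : Integrable (fun w => W w ^ 2) P := hW.integrable_sq
  have e1 : 1 - (Real.cos (τ * a) * ∫ w, Real.cos (τ * W w) ∂P +
        Real.sin (τ * a) * ∫ w, Real.sin (τ * W w) ∂P) =
      ∫ w, (1 - Real.cos (τ * (a - W w))) ∂P := by
    have h1 : ∀ w, 1 - Real.cos (τ * (a - W w)) =
        1 - (Real.cos (τ * a) * Real.cos (τ * W w) + Real.sin (τ * a) * Real.sin (τ * W w)) := by
      intro w
      rw [mul_sub, Real.cos_sub]
    simp_rw [h1]
    have i1 : Integrable (fun w => Real.cos (τ * a) * Real.cos (τ * W w)) P :=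
      (int_cos hm τ).const_mul _
    have i2 : Integrable (fun w => Real.sin (τ * a) * Real.sin (τ * W w)) P :=
      (int_sin hm τ).const_mul _
    have i3 : Integrable (fun w => Real.cos (τ * a) * Real.cos (τ * W w) +
      Real.sin (τ * a) * Real.sin (τ * W w)) P := i1.add i2
    rw [integral_sub (integrable_const _) i3, integral_add i1 i2, integral_const_mul,
      integral_const_mul]
    simp
  rw [e1]
  have hd : Integrable (fun w => a - W w) P := (integrable_const a).sub hi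
  have hd2 : Integrable (fun w => (a - W w) ^ 2) P := by
    have h1 : ∀ w, (a - W w) ^ 2 = a ^ 2 - 2 * a * W w + W w ^ 2 := fun w => by ring
    simp_rw [h1]
    exact ((integrable_const _).sub (hi.const_mul _)).add hi2
  have e2 : ∫ w, (a - W w) ^ 2 ∂P = a ^ 2 + ∫ w, W w ^ 2 ∂P := by
    have h1 : ∀ w, (a - W w) ^ 2 = a ^ 2 - 2 * a * W w + W w ^ 2 := fun w => by ring
    simp_rw [h1]
    have i1 : Integrable (fun w => 2 * a * W w) P := hi.const_mul _
    have i2 : Integrable (fun w => a ^ 2 - 2 * a * W w) P := (integrable_const _).sub i1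
    rw [integral_add i2 hi2, integral_sub (integrable_const _) i1, integral_const_mul, h0]
    simp
  have e3 : |a| ≤ ∫ w, |a - W w| ∂P := by
    have h1 := abs_integral_le_integral_abs (μ := P) (f := fun w => a - W w)
    rw [integral_sub (integrable_const a) hi, h0] at h1
    simpa using h1
  have hpt : ∀ w, (2 * s * τ * |a - W w| - s ^ 2 - s * τ ^ 2 * (a - W w) ^ 2) / 5 ≤
      1 - Real.cos (τ * (a - W w)) := by
    intro w
    have h1 := one_sub_cos hs (τ * (a - W w))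
    rw [abs_mul, abs_of_nonneg hτ, mul_pow] at h1
    calc _ = (2 * s * (τ * |a - W w|) - s ^ 2 - s * (τ ^ 2 * (a - W w) ^ 2)) / 5 := by ring
      _ ≤ _ := h1
  have hL : Integrable (fun w => (2 * s * τ * |a - W w| - s ^ 2 - s * τ ^ 2 * (a - W w) ^ 2) / 5)
      P := (((hd.abs.const_mul _).sub (integrable_const _)).sub (hd2.const_mul _)).div_const _
  have hR : Integrable (fun w => 1 - Real.cos (τ * (a - W w))) P := by
    have h1 := int_cos (P := P) (W := fun w => a - W w) hd.aestronglyMeasurable τ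
    exact (integrable_const _).sub h1
  have h5 := integral_mono hL hR hpt
  refine le_trans ?_ h5
  have i1 : Integrable (fun w => 2 * s * τ * |a - W w|) P := hd.abs.const_mul _
  have i2 : Integrable (fun w => 2 * s * τ * |a - W w| - s ^ 2) P := i1.sub (integrable_const _)
  have i3 : Integrable (fun w => s * τ ^ 2 * (a - W w) ^ 2) P := hd2.const_mul _
  rw [integral_div, integral_sub i2 i3, integral_sub i1 (integrable_const _),
    integral_const_mul, integral_const_mul, e2]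
  have h6 : 2 * s * τ * |a| ≤ 2 * s * τ * ∫ w, |a - W w| ∂P :=
    mul_le_mul_of_nonneg_left e3 (by positivity)
  simp only [integral_const, probReal_univ, smul_eq_mul, one_mul]
  linarith

/-- The characteristic function of a centred variable with a large first moment. -/
theorem phi75 {W : Ω → ℝ} (hW : MemLp W 2 P) (h0 : ∫ w, W w ∂P = 0) {x C τ : ℝ} (hx : 0 < x)
    (h1 : x ≤ ∫ w, |W w| ∂P) (h2 : ∫ w, W w ^ 2 ∂P ≤ C * x ^ 2) (hτ : 0 < τ)
    (hτC : 4 * C * x * τ ≤ 1) : ‖cf P τ W‖ ≤ 1 - τ ^ 2 * x ^ 2 / 20 := by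
  have hm := hW.aestronglyMeasurable
  have hi : Integrable W P := hW.integrable (by norm_num)
  have hi2 : Integrable (fun w => W w ^ 2) P := hW.integrable_sq
  set s : ℝ := τ * x / 2 with hs
  have hs0 : 0 ≤ s := by positivity
  set c : ℝ := ∫ w, Real.cos (τ * W w) ∂P with hc
  set S : ℝ := ∫ w, Real.sin (τ * W w) ∂P with hS
  set V : ℝ := ∫ w, W w ^ 2 ∂P with hV
  have key : (2 * s * τ * x - s ^ 2 - s * τ ^ 2 * (V + V)) / 5 ≤ 1 - (c ^ 2 + S ^ 2) := by
    have hpt : ∀ w, (2 * s * τ * |W w| - s ^ 2 - s * τ ^ 2 * (W w ^ 2 + V)) / 5 ≤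
        1 - (Real.cos (τ * W w) * c + Real.sin (τ * W w) * S) := fun w =>
      inner hW h0 hs0 hτ.le (W w)
    have hLi : Integrable (fun w => (2 * s * τ * |W w| - s ^ 2 - s * τ ^ 2 * (W w ^ 2 + V)) / 5)
        P := (((hi.abs.const_mul _).sub (integrable_const _)).sub
          ((hi2.add (integrable_const _)).const_mul _)).div_const _
    have hRi : Integrable (fun w => 1 - (Real.cos (τ * W w) * c + Real.sin (τ * W w) * S)) P :=
      (integrable_const _).sub (((int_cos hm τ).mul_const _).add ((int_sin hm τ).mul_const _))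
    have h5 := integral_mono hLi hRi hpt
    have e1 : ∫ w, (1 - (Real.cos (τ * W w) * c + Real.sin (τ * W w) * S)) ∂P =
        1 - (c ^ 2 + S ^ 2) := by
      have i1 : Integrable (fun w => Real.cos (τ * W w) * c) P := (int_cos hm τ).mul_const _
      have i2 : Integrable (fun w => Real.sin (τ * W w) * S) P := (int_sin hm τ).mul_const _
      have i3 : Integrable (fun w => Real.cos (τ * W w) * c + Real.sin (τ * W w) * S) P :=
        i1.add i2
      rw [integral_sub (integrable_const _) i3, integral_add i1 i2, integral_mul_const,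
        integral_mul_const]
      simp only [integral_const, probReal_univ, smul_eq_mul, one_mul, ← hc, ← hS]
      ring
    have e2 : ∫ w, (2 * s * τ * |W w| - s ^ 2 - s * τ ^ 2 * (W w ^ 2 + V)) / 5 ∂P =
        (2 * s * τ * (∫ w, |W w| ∂P) - s ^ 2 - s * τ ^ 2 * (V + V)) / 5 := by
      have i1 : Integrable (fun w => 2 * s * τ * |W w|) P := hi.abs.const_mul _
      have i2 : Integrable (fun w => 2 * s * τ * |W w| - s ^ 2) P := i1.sub (integrable_const _)
      have i4 : Integrable (fun w => W w ^ 2 + V) P := hi2.add (integrable_const _)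
      have i3 : Integrable (fun w => s * τ ^ 2 * (W w ^ 2 + V)) P := i4.const_mul _
      rw [integral_div, integral_sub i2 i3, integral_sub i1 (integrable_const _),
        integral_const_mul, integral_const_mul, integral_add hi2 (integrable_const _)]
      simp only [integral_const, probReal_univ, smul_eq_mul, one_mul, ← hV]
    rw [e1, e2] at h5
    have h6 : 2 * s * τ * x ≤ 2 * s * τ * ∫ w, |W w| ∂P :=
      mul_le_mul_of_nonneg_left h1 (by positivity)
    linarith
  have hsq := cf_norm_sq (P := P) hm τ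
  rw [← hc, ← hS] at hsq
  have h7 : τ ^ 3 * x * V ≤ τ ^ 2 * x ^ 2 / 4 := by
    have h8 : τ ^ 3 * x * V ≤ τ ^ 3 * x * (C * x ^ 2) :=
      mul_le_mul_of_nonneg_left h2 (by positivity)
    have h9 : τ ^ 2 * x ^ 2 * (4 * C * x * τ) ≤ τ ^ 2 * x ^ 2 * 1 :=
      mul_le_mul_of_nonneg_left hτC (by positivity)
    nlinarith
  have h10 : τ ^ 2 * x ^ 2 / 10 ≤ 1 - ‖cf P τ W‖ ^ 2 := by
    rw [hsq]
    refine le_trans ?_ key
    rw [hs]
    nlinarith
  have h11 : 0 ≤ ‖cf P τ W‖ := norm_nonneg _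
  have h12 : ‖cf P τ W‖ ≤ 1 := by nlinarith [sq_nonneg (τ * x)]
  nlinarith

lemma exp_sub_le (a b : ℝ) :
    ‖Complex.exp ((a : ℂ) * Complex.I) - Complex.exp ((b : ℂ) * Complex.I)‖ ≤ |a - b| := by
  have h1 : Complex.exp ((a : ℂ) * Complex.I) - Complex.exp ((b : ℂ) * Complex.I) =
      Complex.exp ((b : ℂ) * Complex.I) * (Complex.exp (Complex.I * ((a - b : ℝ) : ℂ)) - 1) := by
    rw [mul_sub, mul_one, ← Complex.exp_add]
    congr 2
    push_cast
    ring
  rw [h1, norm_mul, Complex.norm_exp_ofReal_mul_I, one_mul]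
  exact Real.norm_exp_I_mul_ofReal_sub_one_le.trans (le_of_eq (Real.norm_eq_abs _))

lemma cf_sub_le {X Y : Ω → ℝ} (hX : AEStronglyMeasurable X P) (hY : AEStronglyMeasurable Y P)
    {τ : ℝ} (hτ : 0 ≤ τ) (hi : Integrable (fun w => X w - Y w) P) :
    ‖cf P τ X - cf P τ Y‖ ≤ τ * ∫ w, |X w - Y w| ∂P := by
  unfold cf
  rw [← integral_sub (int_exp hX τ) (int_exp hY τ), ← integral_const_mul]
  refine norm_integral_le_of_norm_le (hi.abs.const_mul τ) (ae_of_all _ fun w => ?_)
  refine (exp_sub_le _ _).trans (le_of_eq ?_)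
  rw [← mul_sub, abs_mul, abs_of_nonneg hτ]

lemma cf_norm_le (τ : ℝ) (X : Ω → ℝ) : ‖cf P τ X‖ ≤ 1 := by
  unfold cf
  refine (norm_integral_le_integral_norm _).trans ?_
  simp_rw [Complex.norm_exp_ofReal_mul_I]
  simp

/-- A chain of nearly independent steps. -/
theorem chain75 {Y W : ℕ → Ω → ℝ} (hY : ∀ r, AEStronglyMeasurable (Y r) P)
    (hW : ∀ r, AEStronglyMeasurable (W r) P) {τ δ q : ℝ} (hτ : 0 ≤ τ) (hq1 : q ≤ 1)
    {B : ℕ} {φ : ℂ} (hφ : ‖φ‖ ≤ q)
    (hfac : ∀ r < B, cf P τ (fun w => Y r w + W r w) = cf P τ (Y r) * φ)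
    (hint : ∀ r < B, Integrable (fun w => Y (r + 1) w - (Y r w + W r w)) P)
    (hδ : ∀ r < B, ∫ w, |Y (r + 1) w - (Y r w + W r w)| ∂P ≤ δ) :
    ∀ r ≤ B, ‖cf P τ (Y r)‖ ≤ q ^ r + r * (τ * δ) := by
  intro r
  induction r with
  | zero =>
    intro _
    simpa using cf_norm_le (P := P) τ (Y 0)
  | succ r ih =>
    intro hr
    have hr' : r < B := by omega
    have h1 := ih hr'.le
    have h2 := cf_sub_le (P := P) (hY (r + 1)) ((hY r).add (hW r)) hτ (hint r hr')
    have h3 : τ * ∫ w, |Y (r + 1) w - (Y r w + W r w)| ∂P ≤ τ * δ :=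
      mul_le_mul_of_nonneg_left (hδ r hr') hτ
    have h4 : ‖cf P τ (Y (r + 1))‖ ≤ ‖cf P τ (fun w => Y r w + W r w)‖ + τ * δ := by
      have h5 := norm_add_le (cf P τ (Y (r + 1)) - cf P τ (fun w => Y r w + W r w))
        (cf P τ (fun w => Y r w + W r w))
      rw [sub_add_cancel] at h5
      have h6 : ‖cf P τ (Y (r + 1)) - cf P τ (fun w => Y r w + W r w)‖ ≤
          τ * ∫ w, |Y (r + 1) w - (Y r w + W r w)| ∂P := h2
      linarith
    rw [hfac r hr', norm_mul] at h4
    have h7 : ‖cf P τ (Y r)‖ * ‖φ‖ ≤ (q ^ r + r * (τ * δ)) * q :=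
      mul_le_mul h1 hφ (norm_nonneg _) ((norm_nonneg _).trans h1)
    have h8 : 0 ≤ (r : ℝ) * (τ * δ) := by
      have h9 : 0 ≤ δ := le_trans (integral_nonneg fun _ => abs_nonneg _) (hδ r hr')
      positivity
    have h10 : (q ^ r + r * (τ * δ)) * q ≤ q ^ (r + 1) + r * (τ * δ) := by
      have : (r : ℝ) * (τ * δ) * q ≤ r * (τ * δ) * 1 := mul_le_mul_of_nonneg_left hq1 h8
      rw [pow_succ]
      linarith
    push_cast
    linarith

/-- **The spread of a chain of nearly independent steps**: after `B` steps, each a fresh copy of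
`W₀` (first moment at least `x`, second at most `C x²`) up to an error of mean at most
`x / (24 √B)`, the first moment is at least `√B x / 12`. -/
theorem exc75 {Y W : ℕ → Ω → ℝ} {W₀ : Ω → ℝ} (hY : ∀ r, Integrable (Y r) P)
    (hW : ∀ r, AEStronglyMeasurable (W r) P) (hW₀ : MemLp W₀ 2 P) (h0 : ∫ w, W₀ w ∂P = 0)
    {x C δ : ℝ} (hx : 0 < x) (hC : 0 < C) (h1 : x ≤ ∫ w, |W₀ w| ∂P)
    (h2 : ∫ w, W₀ w ^ 2 ∂P ≤ C * x ^ 2) {B : ℕ} (hB : (24 * C) ^ 2 ≤ B)
    (hfac : ∀ r < B, ∀ τ : ℝ, cf P τ (fun w => Y r w + W r w) = cf P τ (Y r) * cf P τ W₀)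
    (hint : ∀ r < B, Integrable (fun w => Y (r + 1) w - (Y r w + W r w)) P)
    (hδ : ∀ r < B, ∫ w, |Y (r + 1) w - (Y r w + W r w)| ∂P ≤ δ)
    (hδx : 24 * Real.sqrt B * δ ≤ x) :
    Real.sqrt B * x / 12 ≤ ∫ w, |Y B w| ∂P := by
  have hBr : (0 : ℝ) < B := lt_of_lt_of_le (by positivity) hB
  have hsB : 0 < Real.sqrt B := Real.sqrt_pos.2 hBr
  have hsq : Real.sqrt B ^ 2 = B := Real.sq_sqrt hBr.le
  have hsC : 24 * C ≤ Real.sqrt B := Real.le_sqrt_of_sq_le hB
  set τ : ℝ := 6 / (Real.sqrt B * x) with hτd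
  have hτ : 0 < τ := by positivity
  have hτx : τ * x = 6 / Real.sqrt B := by
    rw [hτd]
    field_simp
  have h3 : 4 * C * x * τ ≤ 1 := by
    have : 4 * C * x * τ = 24 * C / Real.sqrt B := by
      calc 4 * C * x * τ = 4 * C * (τ * x) := by ring
        _ = _ := by rw [hτx]; ring
    rw [this, div_le_one hsB]
    exact hsC
  have h4 := phi75 hW₀ h0 hx h1 h2 hτ h3
  have h5 : τ ^ 2 * x ^ 2 / 20 = 9 / 5 / B := by
    have : τ ^ 2 * x ^ 2 = 36 / B := by
      rw [← mul_pow, hτx, div_pow, hsq]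
      norm_num
    rw [this]
    ring
  rw [h5] at h4
  have hq : (0 : ℝ) ≤ 1 - 9 / 5 / B := (norm_nonneg _).trans h4
  have hq1 : 1 - 9 / 5 / (B : ℝ) ≤ 1 := by
    have : (0 : ℝ) ≤ 9 / 5 / B := by positivity
    linarith
  have h6 := chain75 (P := P) (fun r => (hY r).aestronglyMeasurable) hW hτ.le hq1 h4
    (fun r hr => hfac r hr τ) hint hδ B le_rfl
  have h7 : (1 - 9 / 5 / (B : ℝ)) ^ B ≤ Real.exp (-(9 / 5)) := by
    have h8 : 1 - 9 / 5 / (B : ℝ) ≤ Real.exp (-(9 / 5 / B)) := by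
      have := Real.add_one_le_exp (-(9 / 5 / (B : ℝ)))
      linarith
    calc (1 - 9 / 5 / (B : ℝ)) ^ B ≤ Real.exp (-(9 / 5 / B)) ^ B :=
          pow_le_pow_left₀ hq h8 B
      _ = Real.exp (-(9 / 5)) := by
          rw [← Real.exp_nat_mul]
          congr 1
          field_simp
  have h9 : Real.exp (-(9 / 5)) ≤ 1 / 4 := by
    rw [Real.exp_neg]
    have h10 : (4 : ℝ) ≤ Real.exp (9 / 5) := by
      have h11 : (2.7 : ℝ) ≤ Real.exp 1 := by linarith [Real.exp_one_gt_d9]
      have h12 : (1.5 : ℝ) ≤ Real.exp (1 / 2) := by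
        have := Real.add_one_le_exp (1 / 2 : ℝ)
        linarith
      have h13 : Real.exp (1 + 1 / 2) ≤ Real.exp (9 / 5) := Real.exp_le_exp.2 (by norm_num)
      rw [Real.exp_add] at h13
      nlinarith
    rw [inv_le_comm₀ (Real.exp_pos _) (by norm_num)]
    norm_num
    exact h10
  have h14 : (B : ℝ) * (τ * δ) ≤ 1 / 4 := by
    have : (B : ℝ) * (τ * δ) = 6 * Real.sqrt B * δ / x := by
      rw [hτd]
      rw [← hsq]
      field_simp
      rw [Real.sqrt_sq hsB.le]
    rw [this, div_le_iff₀ hx]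
    linarith
  have h15 : ‖cf P τ (Y B)‖ ≤ 1 / 2 := by linarith
  have h16 : 1 - ‖cf P τ (Y B)‖ ≤ τ * ∫ w, |Y B w| ∂P := by
    have h17 := cf_sub_le (P := P) (X := Y B) (Y := fun _ => (0 : ℝ))
      (hY B).aestronglyMeasurable aestronglyMeasurable_const hτ.le (by simpa using hY B)
    have h18 : cf P τ (fun _ : Ω => (0 : ℝ)) = 1 := by
      unfold cf
      simp
    rw [h18] at h17
    have h19 : (1 : ℝ) ≤ ‖cf P τ (Y B)‖ + ‖cf P τ (Y B) - 1‖ := by
      have h20 := norm_sub_le (cf P τ (Y B)) (cf P τ (Y B) - 1)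
      simpa using h20
    simp only [sub_zero] at h17
    linarith
  have h21 : 1 / 2 ≤ τ * ∫ w, |Y B w| ∂P := by linarith
  rw [hτd] at h21
  rw [div_mul_eq_mul_div, le_div_iff₀ (by positivity)] at h21
  linarith

end Pool.Agent.W_7d29a1_SNP.Chf75
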