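import Pool.Agent.W_7d29a1_SNP.DefsT92
import Pool.Agent.W_7d29a1_PL.Exp62
import Pool.Agent.W_7d29a1_SP.Bas15
import Pool.Agent.W_7d29a1_Q29.Qf39

/-!
SNP, the core, the case of many levels: the polymer sees a larger mean of the cut deviations at
every level, and the exponential moment at a fixed site is small.
-/

set_option autoImplicit false

namespace Pool.Agent.W_7d29a1_SNP.T92

open MeasureTheory ProbabilityTheory Filter Topology Pool.Agent.W_MP_7d29a1_pr
  Pool.Agent.W_7d29a1_h46 Pool.Agent.W_7d29a1_h46u Pool.Agent.W_7d29a1_D2.B35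
  Pool.Agent.W_7d29a1_Q29 Pool.Agent.W_7d29a1_R34 Pool.Agent.W_7d29a1_SP
  Pool.Agent.W_7d29a1_PL Pool.Agent.W_7d29a1_SD Pool.Agent.W_7d29a1_KZ

section Exps

variable {Ω : Type*} [MeasurableSpace Ω] {μ : Measure Ω} [IsProbabilityMeasure μ]

/-- The exponential moment of a sum of indicators, small weight. -/
lemma expI92 {ι : Type*} [DecidableEq ι] (s : Finset ι) {L : ι → Set Ω}
    (hL : ∀ p ∈ s, MeasurableSet (L p)) {a q : ℝ} (ha : 0 ≤ a) (ha1 : a ≤ 1) (hq : 0 ≤ q)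
    (h : ∀ I, I ⊆ s → μ.real (⋂ p ∈ I, L p) ≤ q ^ I.card) :
    Integrable (wt62 s L fun _ => a) μ ∧
      ∫ ω, wt62 s L (fun _ => a) ω ∂μ ≤ Real.exp (s.card * (2 * a * q)) := by
  have hm : ∀ I ∈ s.powerset, MeasurableSet (⋂ p ∈ I, L p) := fun I hI =>
    Finset.measurableSet_biInter I fun p hp => hL p (Finset.mem_powerset.1 hI hp)
  have hi : ∀ I ∈ s.powerset, Integrable (fun ω => (∏ p ∈ I, (Real.exp a - 1)) *
      (⋂ p ∈ I, L p).indicator (fun _ => (1 : ℝ)) ω) μ := fun I hI =>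
    ((integrable_const (1 : ℝ)).indicator (hm I hI)).const_mul _
  have he : (wt62 s L fun _ => a) = fun ω => ∑ I ∈ s.powerset, (∏ p ∈ I, (Real.exp a - 1)) *
      (⋂ p ∈ I, L p).indicator (fun _ => (1 : ℝ)) ω :=
    funext fun ω => wt62_eq s L (fun _ => a) ω
  rw [he]
  refine ⟨integrable_finsetSum _ hi, ?_⟩
  rw [integral_finsetSum _ hi]
  obtain ⟨C, hC⟩ : ∃ C : ℝ, C = (Real.exp a - 1) * q := ⟨_, rfl⟩
  have hea : 0 ≤ Real.exp a - 1 := by
    have := Real.one_le_exp ha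
    linarith
  have hC0 : 0 ≤ C := by
    rw [hC]
    exact mul_nonneg hea hq
  have hone : ∀ I ∈ s.powerset, ∫ ω, (∏ p ∈ I, (Real.exp a - 1)) *
      (⋂ p ∈ I, L p).indicator (fun _ => (1 : ℝ)) ω ∂μ ≤ C ^ I.card := by
    intro I hI
    have hIs := Finset.mem_powerset.1 hI
    rw [integral_const_mul, integral_indicator (hm I hI), setIntegral_const, smul_eq_mul, mul_one,
      Finset.prod_const, hC, mul_pow]
    exact mul_le_mul_of_nonneg_left (h I hIs) (pow_nonneg hea _)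
  refine (Finset.sum_le_sum hone).trans ?_
  have h2 := Finset.prod_add (fun _ : ι => C) (fun _ : ι => (1 : ℝ)) s
  simp only [Finset.prod_const, one_pow, mul_one] at h2
  rw [← h2]
  have h3 : C ≤ 2 * a * q := by
    rw [hC]
    refine mul_le_mul_of_nonneg_right ?_ hq
    have h4 := Real.abs_exp_sub_one_sub_id_le (x := a) (by rw [abs_of_nonneg ha]; exact ha1)
    have h5 := (abs_le.1 h4).2
    nlinarith
  have h4 : C + 1 ≤ Real.exp (2 * a * q) := by
    have := Real.add_one_le_exp (2 * a * q)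
    linarith
  calc (C + 1) ^ s.card ≤ Real.exp (2 * a * q) ^ s.card :=
        pow_le_pow_left₀ (by linarith) h4 _
    _ = _ := by rw [← Real.exp_nat_mul]

/-- Cauchy-Schwarz for exponentials of bounded functions. -/
lemma cs92 {f g : Ω → ℝ} (hf : Measurable f) (hg : Measurable g) {D : ℝ} (hfD : ∀ ω, |f ω| ≤ D)
    (hgD : ∀ ω, |g ω| ≤ D) {a b : ℝ} (h1 : ∫ ω, Real.exp (2 * f ω) ∂μ ≤ Real.exp (2 * a))
    (h2 : ∫ ω, Real.exp (2 * g ω) ∂μ ≤ Real.exp (2 * b)) :
    ∫ ω, Real.exp (f ω + g ω) ∂μ ≤ Real.exp (a + b) := by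
  have hb : ∀ {u : Ω → ℝ}, Measurable u → (∀ ω, |u ω| ≤ 2 * D) →
      Integrable (fun ω => Real.exp (u ω)) μ := by
    intro u hu hD
    refine (integrable_const (Real.exp (2 * D))).mono' hu.exp.aestronglyMeasurable
      (Eventually.of_forall fun ω => ?_)
    rw [Real.norm_eq_abs, abs_of_pos (Real.exp_pos _)]
    exact Real.exp_le_exp.2 ((le_abs_self _).trans (hD ω))
  have i1 : Integrable (fun ω => Real.exp (2 * f ω)) μ := hb (hf.const_mul 2) fun ω => by
    rw [abs_mul, abs_two]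
    linarith [hfD ω]
  have i2 : Integrable (fun ω => Real.exp (2 * g ω)) μ := hb (hg.const_mul 2) fun ω => by
    rw [abs_mul, abs_two]
    linarith [hgD ω]
  have i3 : Integrable (fun ω => Real.exp (f ω + g ω)) μ := hb (hf.add hg) fun ω =>
    (abs_add_le _ _).trans (by linarith [hfD ω, hgD ω])
  -- the elementary inequality at the optimal constant
  have h3 : ∀ ω, Real.exp (f ω + g ω) ≤
      (Real.exp (b - a) * Real.exp (2 * f ω) + Real.exp (a - b) * Real.exp (2 * g ω)) / 2 := by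
    intro ω
    rw [← Real.exp_add, ← Real.exp_add]
    have e1 : Real.exp (b - a + 2 * f ω) = Real.exp ((b - a) / 2 + f ω) ^ 2 := by
      rw [← Real.exp_nat_mul]
      congr 1
      push_cast
      ring
    have e2 : Real.exp (a - b + 2 * g ω) = Real.exp ((a - b) / 2 + g ω) ^ 2 := by
      rw [← Real.exp_nat_mul]
      congr 1
      push_cast
      ring
    have e3 : Real.exp (f ω + g ω) = Real.exp ((b - a) / 2 + f ω) * Real.exp ((a - b) / 2 + g ω) := by
      rw [← Real.exp_add]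
      congr 1
      ring
    rw [e1, e2, e3]
    nlinarith [sq_nonneg (Real.exp ((b - a) / 2 + f ω) - Real.exp ((a - b) / 2 + g ω))]
  have h4 := integral_mono i3 (((i1.const_mul (Real.exp (b - a))).add
    (i2.const_mul (Real.exp (a - b)))).div_const 2) h3
  simp only [Pi.add_apply] at h4
  rw [integral_div, integral_add (i1.const_mul _) (i2.const_mul _), integral_const_mul,
    integral_const_mul] at h4
  have e4 : Real.exp (b - a) * Real.exp (2 * a) = Real.exp (a + b) := by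
    rw [← Real.exp_add]
    congr 1
    ring
  have e5 : Real.exp (a - b) * Real.exp (2 * b) = Real.exp (a + b) := by
    rw [← Real.exp_add]
    congr 1
    ring
  have h5 := mul_le_mul_of_nonneg_left h1 (Real.exp_pos (b - a)).le
  have h6 := mul_le_mul_of_nonneg_left h2 (Real.exp_pos (a - b)).le
  rw [e4] at h5
  rw [e5] at h6
  linarith

end Exps

variable {d : ℕ} {ρ : Measure ℝ} {β : ℝ} {h : Vec d}

/-! ## Linearity of the mean along the polymer -/

lemma uf_int92 [IsProbabilityMeasure ρ] {n t : ℕ} (ht : t ≤ n) {g : Env d → ℝ}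
    (hg : Measurable g) {D : ℝ} (hD : ∀ η, |g η| ≤ D) :
    Integrable (fun η => ∑ y ∈ boxF d t, Qt β h n t y η * g (sh t y η)) (law d ρ) := by
  refine integrable_finsetSum _ fun y _ => ?_
  have h1 : Integrable (fun η => g (sh t y η)) (law d ρ) :=
    (integrable_const D).mono' (hg.comp (measurable_sh t y)).aestronglyMeasurable
      (Eventually.of_forall fun η => by
        rw [Real.norm_eq_abs]
        exact hD _)
  refine h1.bdd_mul (c := 1) (measurable_Qt39 β h n t y).aestronglyMeasurable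
    (Eventually.of_forall fun η => ?_)
  rw [Real.norm_eq_abs, abs_of_nonneg (Qt_nonneg39 β h n t y η)]
  exact Qt_le_one39 β h ht y η

lemma uf_sum92 [IsProbabilityMeasure ρ] {n t : ℕ} (ht : t ≤ n) {ι : Type*} (S : Finset ι)
    (c : ι → ℝ) {g : ι → Env d → ℝ} (hg : ∀ p, Measurable (g p)) {D : ι → ℝ}
    (hD : ∀ p η, |g p η| ≤ D p) :
    uf ρ β h n t (fun η => ∑ p ∈ S, c p * g p η) = ∑ p ∈ S, c p * uf ρ β h n t (g p) := by
  unfold uf
  have e1 : ∀ η : Env d, ∑ y ∈ boxF d t, Qt β h n t y η * ∑ p ∈ S, c p * g p (sh t y η) =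
      ∑ p ∈ S, c p * ∑ y ∈ boxF d t, Qt β h n t y η * g p (sh t y η) := by
    intro η
    simp only [Finset.mul_sum]
    rw [Finset.sum_comm]
    exact Finset.sum_congr rfl fun p _ => Finset.sum_congr rfl fun y _ => by ring
  simp only [e1]
  rw [integral_finsetSum _ fun p _ => (uf_int92 ht (hg p) (hD p)).const_mul _]
  exact Finset.sum_congr rfl fun p _ => integral_const_mul _ _

lemma uf_add92 [IsProbabilityMeasure ρ] {n t : ℕ} (ht : t ≤ n) {f g : Env d → ℝ}
    (hf : Measurable f) (hg : Measurable g) {D : ℝ} (hfD : ∀ η, |f η| ≤ D)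
    (hgD : ∀ η, |g η| ≤ D) :
    uf ρ β h n t (fun η => f η + g η) = uf ρ β h n t f + uf ρ β h n t g := by
  unfold uf
  rw [← integral_add (uf_int92 ht hf hfD) (uf_int92 ht hg hgD)]
  refine integral_congr_ae (Eventually.of_forall fun η => ?_)
  show _ = _ + _
  rw [← Finset.sum_add_distrib]
  exact Finset.sum_congr rfl fun y _ => mul_add _ _ _

lemma us_nonneg92 {n t : ℕ} (B : Set (Env d)) : 0 ≤ us ρ β h n t B :=
  integral_nonneg fun η => Finset.sum_nonneg fun y _ => mul_nonneg (Qt_nonneg39 β h n t y η)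
    (Set.indicator_nonneg (fun _ _ => zero_le_one) _)

/-! ## The functions of a level -/

lemma X_dep92 (n : ℕ) : DependsOn (fun η : Env d => X β h η n) {p | 1 ≤ p.1} := by
  intro η η' hη
  have h1 : Z β h η n = Z β h η' n := dependsOn_Z β h n fun p hp => hη p hp.1
  show Real.log (Z β h η n) = Real.log (Z β h η' n)
  rw [h1]

lemma clp_meas92 (H : ℕ) (a b : ℝ) : Measurable (clp ρ β h H a b) := by
  unfold clp
  exact (((measurable_X β h H).sub_const _).min measurable_const).max measurable_const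

lemma clp_dep92 (H : ℕ) (a b : ℝ) : DependsOn (clp ρ β h H a b) {p | 1 ≤ p.1} := by
  intro η η' hη
  have h1 : X β h η H = X β h η' H := X_dep92 H hη
  unfold clp
  rw [h1]

lemma clp_abs92 [IsProbabilityMeasure ρ] (hd : 0 < d) (hρ : EM ρ) (H : ℕ) {a b : ℝ} (ha : 0 ≤ a)
    (hb : 0 ≤ b) (η : Env d) : |clp ρ β h H a b η| ≤ En ρ β h H + a + b := by
  have hE := En_nonneg15 hd hρ β h H
  unfold clp
  rw [abs_le]
  constructor
  · have := le_max_right (min (X β h η H - A ρ β h H) (En ρ β h H + a)) (-b)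
    linarith
  · refine max_le ?_ (by linarith)
    exact (min_le_right _ _).trans (by linarith)

lemma Gk_meas92 (H S : ℕ) (y z : ℝ) : MeasurableSet (Gk ρ β h H S y z) := by
  have e : Gk ρ β h H S y z = ⋃ N : ℕ, ⋃ s : ℕ, ⋃ _ : 1 ≤ N, ⋃ _ : s ≤ S,
      {η | ((N * H + s : ℕ) : ℝ) * lam ρ β h + N * y - z ≤ X β h η (N * H + s)} := by
    ext η
    simp only [Gk, Set.mem_ofPred_eq, Set.mem_iUnion, exists_prop]
  rw [e]
  exact MeasurableSet.iUnion fun N => MeasurableSet.iUnion fun s => MeasurableSet.iUnion fun _ =>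
    MeasurableSet.iUnion fun _ => measurableSet_le measurable_const (measurable_X β h _)

lemma Gk_dep92 (H S : ℕ) (y z : ℝ) :
    DependsOn (fun η => η ∈ Gk ρ β h H S y z) {p | 1 ≤ p.1} := by
  intro η η' hη
  have h1 : ∀ k, X β h η k = X β h η' k := fun k => X_dep92 k hη
  show (∃ N s : ℕ, 1 ≤ N ∧ s ≤ S ∧
    ((N * H + s : ℕ) : ℝ) * lam ρ β h + N * y - z ≤ X β h η (N * H + s)) =
    (∃ N s : ℕ, 1 ≤ N ∧ s ≤ S ∧
    ((N * H + s : ℕ) : ℝ) * lam ρ β h + N * y - z ≤ X β h η' (N * H + s))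
  simp only [h1]

/-- The times of the levels are monotone. -/
lemma m_mono92 {m : ℕ → ℕ} (hL : Lv ρ β h m) : Monotone m := by
  intro l l' hl
  by_contra hcon
  push Not at hcon
  have h1 := hL.lo l (m l') hcon
  have h2 := hL.hi l'
  have h3 : (2 : ℝ) ^ l ≤ 2 ^ l' := pow_le_pow_right₀ (by norm_num) hl
  linarith

/-! ## One level -/

/-- The arithmetic of one level. -/
lemma alg92 {e E U W K P n H R b₀ Θ Cv J : ℝ} (hP : 1 ≤ P) (hn : 0 < n) (hH : 0 ≤ H)
    (hHn : H ≤ n) (he : e * P ≤ E) (hE : E ≤ Cv * P) (hK : K = 2 * (Θ + b₀ + Cv)) (hW : 0 ≤ W)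
    (hR : 0 ≤ R) (hu : E * (n - H) ≤ U + 2 * (Θ * P + b₀ * P + E) * W + H * (b₀ * P + R) + J)
    (h1 : H * (e + b₀ + R) ≤ e / 8 * n) (h2 : J ≤ n * (e / 8 * P)) :
    3 / 4 * e ≤ 1 / P * (U / n) + K * (W / n) := by
  have hP0 : 0 < P := by linarith
  have q1 : e * P * (n - H) ≤ E * (n - H) := mul_le_mul_of_nonneg_right he (by linarith)
  have q2 : 2 * (Θ * P + b₀ * P + E) * W ≤ K * P * W := by
    refine mul_le_mul_of_nonneg_right ?_ hW
    rw [hK]
    nlinarith
  have q3 : H * (b₀ * P + R) ≤ P * (H * (b₀ + R)) := by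
    have : H * R ≤ H * (P * R) := mul_le_mul_of_nonneg_left (by nlinarith) hH
    nlinarith
  have q4 := mul_le_mul_of_nonneg_left h1 hP0.le
  have q5 : 3 / 4 * e * (P * n) ≤ U + K * P * W := by nlinarith
  have q6 : 1 / P * (U / n) + K * (W / n) = (U + K * P * W) / (P * n) := by
    field_simp
  rw [q6, le_div_iff₀ (mul_pos hP0 hn)]
  exact q5

/-- The error terms are small. -/
lemma ev92 {B C CU e b x g : ℝ} (hB : 0 ≤ B) (hC : 0 ≤ C) (hCU : 0 ≤ CU) (he : 0 < e)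
    (hb : 0 ≤ b) (hx : 0 < x) (hg : 0 < g) (hgx : g + x < 1 / 2) :
    ∀ᶠ n : ℕ in atTop, B * (n : ℝ) ^ g * (e + b + (C * (n : ℝ) ^ x + CU * (B * (n : ℝ) ^ g + 1) +
      CU * Real.sqrt (((n : ℝ) + 1) * (C * (n : ℝ) ^ (2 * x))))) ≤ e / 8 * n := by
  obtain ⟨M, hM⟩ : ∃ M : ℝ, M = e + b + (C + CU * (B + 1) + CU * Real.sqrt (2 * C)) := ⟨_, rfl⟩
  have hM0 : 0 ≤ M := by
    rw [hM]
    positivity
  have hδ : 0 < 1 / 2 - g - x := by linarith
  have ht : Tendsto (fun n : ℕ => B * M * (n : ℝ) ^ (-(1 / 2 - g - x))) atTop (𝓝 (B * M * 0)) :=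
    ((tendsto_rpow_neg_atTop hδ).comp tendsto_natCast_atTop_atTop).const_mul _
  rw [mul_zero] at ht
  have h1 := ht.eventually_le_const (show (0 : ℝ) < e / 8 by positivity)
  filter_upwards [h1, eventually_ge_atTop 1] with n hn hn1
  have hn1' : (1 : ℝ) ≤ n := by exact_mod_cast hn1
  have hn0 : (0 : ℝ) < n := by linarith
  obtain ⟨T, hT⟩ : ∃ T : ℝ, T = (n : ℝ) ^ (1 / 2 + x) := ⟨_, rfl⟩
  have hT1 : 1 ≤ T := by
    rw [hT]
    exact Real.one_le_rpow hn1' (by linarith)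
  have hTx : (n : ℝ) ^ x ≤ T := by
    rw [hT]
    exact Real.rpow_le_rpow_of_exponent_le hn1' (by linarith)
  have hTg : (n : ℝ) ^ g ≤ T := by
    rw [hT]
    exact Real.rpow_le_rpow_of_exponent_le hn1' (by linarith)
  have hTs : Real.sqrt (((n : ℝ) + 1) * (C * (n : ℝ) ^ (2 * x))) ≤ Real.sqrt (2 * C) * T := by
    have e1 : Real.sqrt (2 * C) * T = Real.sqrt (2 * C * (n * (n : ℝ) ^ (2 * x))) := by
      have e2 : (n : ℝ) * (n : ℝ) ^ (2 * x) = T ^ 2 := by
        rw [hT, ← Real.rpow_natCast, ← Real.rpow_mul hn0.le]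
        nth_rewrite 1 [← Real.rpow_one (n : ℝ)]
        rw [← Real.rpow_add hn0]
        congr 1
        push_cast
        ring
      rw [e2, Real.sqrt_mul (show (0 : ℝ) ≤ 2 * C by positivity), Real.sqrt_sq (by linarith)]
    rw [e1]
    refine Real.sqrt_le_sqrt ?_
    have h2 : 0 ≤ C * (n : ℝ) ^ (2 * x) := by positivity
    nlinarith
  have h3 : e + b + (C * (n : ℝ) ^ x + CU * (B * (n : ℝ) ^ g + 1) +
      CU * Real.sqrt (((n : ℝ) + 1) * (C * (n : ℝ) ^ (2 * x)))) ≤ M * T := by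
    have a1 : C * (n : ℝ) ^ x ≤ C * T := mul_le_mul_of_nonneg_left hTx hC
    have a2 : B * (n : ℝ) ^ g ≤ B * T := mul_le_mul_of_nonneg_left hTg hB
    have a3 : CU * (B * (n : ℝ) ^ g + 1) ≤ CU * (B * T + T) :=
      mul_le_mul_of_nonneg_left (by linarith) hCU
    have a4 := mul_le_mul_of_nonneg_left hTs hCU
    have a5 : e + b ≤ (e + b) * T := by nlinarith
    rw [hM]
    nlinarith
  have hg0 : 0 ≤ B * (n : ℝ) ^ g := by positivity
  have h4 := mul_le_mul_of_nonneg_left h3 hg0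
  have e3 : B * (n : ℝ) ^ g * (M * T) = B * M * (n : ℝ) ^ (-(1 / 2 - g - x)) * n := by
    have e4 : (n : ℝ) ^ g * T = (n : ℝ) ^ (-(1 / 2 - g - x)) * n := by
      rw [hT, ← Real.rpow_add hn0]
      nth_rewrite 3 [← Real.rpow_one (n : ℝ)]
      rw [← Real.rpow_add hn0]
      congr 1
      ring
    calc B * (n : ℝ) ^ g * (M * T) = B * M * ((n : ℝ) ^ g * T) := by ring
      _ = _ := by rw [e4]; ring
  rw [e3] at h4
  exact h4.trans (mul_le_mul_of_nonneg_right hn hn0.le)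

/-- The first time at which the nonrandom fluctuation is of the order of the level. -/
lemma first92 [IsProbabilityMeasure ρ] {B m : ℕ} {e P : ℝ} (he : 0 < e) (hP : 0 < P)
    (hx : ∃ M : ℕ, 1 ≤ M ∧ M ≤ B * m ∧ e * P ≤ En ρ β h M) :
    ∃ H : ℕ, 1 ≤ H ∧ H ≤ B * m ∧ e * P ≤ En ρ β h H ∧ ∀ k : ℕ, k < H → En ρ β h k < e * P := by
  classical
  obtain ⟨M, _, hM2, hM3⟩ := hx
  have hex : ∃ M : ℕ, e * P ≤ En ρ β h M := ⟨M, hM3⟩
  refine ⟨Nat.find hex, ?_, (Nat.find_min' hex hM3).trans hM2, Nat.find_spec hex,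
    fun k hk => not_le.1 (Nat.find_min hex hk)⟩
  rw [Nat.one_le_iff_ne_zero]
  intro h0
  have h1 := Nat.find_spec hex
  rw [h0, En_zero15] at h1
  have := mul_pos he hP
  linarith

/-- **T2: many levels.** -/
theorem corT92 [IsProbabilityMeasure ρ] (hd : 0 < d) (hρ : EM ρ) (hV : VarN d ρ β)
    (hX : ExcN d ρ β) (hU : UstP d ρ β) (hA : AdtN d ρ β) (hE : ExmN d ρ β) :
    CorT2 d ρ β := by
  classical
  intro c₀ Λ hc₀ hΛ
  obtain ⟨B, e, CX, hB1, he0, he1, hCX, hX'⟩ := hX c₀ Λ hc₀ hΛ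
  obtain ⟨CV, hCV, hV'⟩ := hV c₀ Λ B hc₀ hΛ
  obtain ⟨b₀, hb₀, hE'⟩ := hE c₀ Λ e (e / 8) B hc₀ hΛ he0 (by positivity)
  obtain ⟨ε', hε'⟩ : ∃ ε' : ℝ, ε' = e / (64 * (1 + b₀ + CV)) := ⟨_, rfl⟩
  have hε'0 : 0 < ε' := by
    rw [hε']
    positivity
  obtain ⟨Θ, hΘ1, hA'⟩ := hA c₀ Λ ε' B hc₀ hΛ hε'0
  obtain ⟨bA, hbA, hA''⟩ := hA' Θ le_rfl
  obtain ⟨s₁, hs₁, hE''⟩ := hE' Θ (by linarith)
  obtain ⟨K, hK⟩ : ∃ K : ℝ, K = 2 * (Θ + b₀ + CV) := ⟨_, rfl⟩
  have hK0 : 0 < K := by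
    rw [hK]
    positivity
  obtain ⟨s, hs⟩ : ∃ s : ℝ, s = min (s₁ / 2) (1 / (2 * K)) := ⟨_, rfl⟩
  have hs0 : 0 < s := by
    rw [hs]
    exact lt_min (by positivity) (by positivity)
  have hs2 : 2 * s ≤ s₁ := by
    have : s ≤ s₁ / 2 := by rw [hs]; exact min_le_left _ _
    linarith
  have hsK : 2 * (s * K) ≤ 1 := by
    have h1 : s ≤ 1 / (2 * K) := by rw [hs]; exact min_le_right _ _
    have h2 := mul_le_mul_of_nonneg_right h1 hK0.le
    have h3 : 1 / (2 * K) * K = 1 / 2 := by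
      field_simp
    linarith
  obtain ⟨b₂, CE, hb₂, hCE, hE₃⟩ := hE'' (2 * s) (by positivity) hs2
  obtain ⟨C₁, hC₁, hU'⟩ := hU
  obtain ⟨D₀, hD₀⟩ : ∃ D₀ : ℝ, D₀ = CV + Θ + b₀ + K := ⟨_, rfl⟩
  have hD₀0 : 0 < D₀ := by
    rw [hD₀]
    positivity
  have hlB : 0 ≤ Real.log (3 * B) := Real.log_nonneg (by
    have : (1 : ℝ) ≤ B := by exact_mod_cast hB1
    linarith)
  obtain ⟨C', hC'⟩ : ∃ C' : ℝ, C' = CX + CV + CE + 8 * C₁ * (1 + Real.log (3 * B)) / e := ⟨_, rfl⟩
  have hC'0 : 0 ≤ 8 * C₁ * (1 + Real.log (3 * B)) / e := by positivity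
  refine ⟨max bA b₂, s * e / 2, e / (16 * D₀), C', le_max_of_le_left hbA, by positivity,
    by positivity, by rw [hC']; linarith, ?_⟩
  intro h C x₁ g hloc hx₁ hg hgx hf m hL
  obtain ⟨CU, hCU, hU''⟩ := hU' h
  have hC0 : 0 ≤ C := by
    have h1 := (hf 1).2
    have h2 : 0 ≤ Va ρ β h 1 := integral_nonneg fun _ => sq_nonneg _
    simp only [Nat.cast_one, Real.one_rpow, mul_one] at h1
    linarith
  have hmm := m_mono92 hL
  filter_upwards [ev92 (B := B) (C := C) (CU := CU) (e := e) (b := b₀) (x := x₁) (g := g)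
    (Nat.cast_nonneg B) hC0 hCU he0 hb₀.le hx₁ hg hgx, eventually_ge_atTop 1] with n hn hn1
  intro I V hI hsp hBd
  have hn0 : (0 : ℝ) < n := by exact_mod_cast hn1
  -- the data of a level
  have hdat : ∀ p ∈ I, 1 ≤ m p ∧ (bA ≤ p ∧ 2 ≤ m (p - bA)) ∧ CX * (1 + Real.log (m p)) ≤ 2 ^ p ∧
      CE * (1 + Real.log (m p)) ≤ 2 ^ p ∧ CV ≤ 2 ^ p ∧
      8 * C₁ * (1 + Real.log (3 * B)) / e * (1 + Real.log (m p)) ≤ 2 ^ p := by
    intro p hp
    obtain ⟨h1, h2, _, h4, _⟩ := hI p hp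
    have hm1 : 2 ≤ m p := h2.trans (hmm (Nat.sub_le _ _))
    have hlm : 0 ≤ Real.log (m p) := Real.log_nonneg (by
      have : (2 : ℝ) ≤ m p := by exact_mod_cast hm1
      linarith)
    have h5 : 0 ≤ 1 + Real.log (m p) := by linarith
    have a1 : 0 ≤ CX * (1 + Real.log (m p)) := by positivity
    have a2 : 0 ≤ CV * (1 + Real.log (m p)) := by positivity
    have a3 : 0 ≤ CE * (1 + Real.log (m p)) := by positivity
    have a4 : 0 ≤ 8 * C₁ * (1 + Real.log (3 * B)) / e * (1 + Real.log (m p)) :=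
      mul_nonneg hC'0 h5
    have h6 : C' * (1 + Real.log (m p)) = CX * (1 + Real.log (m p)) + CV * (1 + Real.log (m p)) +
        CE * (1 + Real.log (m p)) +
        8 * C₁ * (1 + Real.log (3 * B)) / e * (1 + Real.log (m p)) := by
      rw [hC']
      ring
    have h7 : CV ≤ CV * (1 + Real.log (m p)) := by nlinarith
    refine ⟨by omega, ⟨(le_max_left _ _).trans h1, h2.trans (hmm ?_)⟩, by linarith, by linarith,
      by linarith, by linarith⟩
    have := le_max_left bA b₂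
    omega
  have hH : ∀ p : ℕ, ∃ H : ℕ, p ∈ I → 1 ≤ H ∧ H ≤ B * m p ∧ e * 2 ^ p ≤ En ρ β h H ∧
      ∀ k : ℕ, k < H → En ρ β h k < e * 2 ^ p := by
    intro p
    by_cases hp : p ∈ I
    · obtain ⟨H, h1⟩ := first92 (ρ := ρ) (β := β) (h := h) he0 (show (0 : ℝ) < 2 ^ p by positivity)
        (hX' h hloc m p hL (hI p hp).2.2.1 (hdat p hp).1 (hdat p hp).2.2.1)
      exact ⟨H, fun _ => h1⟩
    · exact ⟨0, fun h1 => absurd h1 hp⟩
  choose H hH using hH
  have hEup : ∀ p ∈ I, En ρ β h (H p) ≤ CV * 2 ^ p := fun p hp =>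
    (le_max_left _ _).trans (hV' h hloc m p hL (hI p hp).2.2.1 (hdat p hp).1
      (hdat p hp).2.2.2.2.1 (H p) (hH p hp).2.1).2
  -- one level
  have hone : ∀ p ∈ I, 3 / 4 * e ≤
      1 / 2 ^ p * ((∑ t ∈ Finset.range n, uf ρ β h n t
        (clp ρ β h (H p) (Θ * 2 ^ p) (b₀ * 2 ^ p))) / n) +
      K * ((∑ t ∈ Finset.range n, us ρ β h n t (Gk ρ β h (H p) 0 (Θ * 2 ^ p) 0)) / n) := by
    intro p hp
    obtain ⟨h1, h2, h3, h4⟩ := hH p hp
    obtain ⟨g1, g2, g3, g4, g5, g6⟩ := hdat p hp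
    have hP1 : (1 : ℝ) ≤ 2 ^ p := one_le_pow₀ (by norm_num)
    have hHB : (H p : ℝ) ≤ B * (n : ℝ) ^ g := by
      calc (H p : ℝ) ≤ B * (m p : ℝ) := by exact_mod_cast h2
        _ ≤ B * (n : ℝ) ^ g := mul_le_mul_of_nonneg_left (hI p hp).2.2.2.2 (Nat.cast_nonneg B)
    have hH0 : (0 : ℝ) ≤ H p := Nat.cast_nonneg _
    have hEn := (le_max_left (En ρ β h n) (Fn ρ β h n)).trans (hf n).1
    have hEn0 := En_nonneg15 hd hρ β h n
    obtain ⟨R, hR⟩ : ∃ R : ℝ, R = En ρ β h n + CU * ((H p : ℝ) + 1) +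
      CU * Real.sqrt (((n : ℝ) + 1) * (C * (n : ℝ) ^ (2 * x₁))) := ⟨_, rfl⟩
    have hR0 : 0 ≤ R := by
      rw [hR]
      positivity
    have hRle : R ≤ C * (n : ℝ) ^ x₁ + CU * (B * (n : ℝ) ^ g + 1) +
        CU * Real.sqrt (((n : ℝ) + 1) * (C * (n : ℝ) ^ (2 * x₁))) := by
      have := mul_le_mul_of_nonneg_left (add_le_add_left hHB 1) hCU
      rw [hR]
      linarith
    have q1 : (H p : ℝ) * (e + b₀ + R) ≤ e / 8 * n := by
      refine le_trans ?_ hn
      exact mul_le_mul hHB (by linarith) (by positivity) (by positivity)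
    have hHn : (H p : ℝ) ≤ n := by
      have : (H p : ℝ) * e ≤ H p * (e + b₀ + R) := mul_le_mul_of_nonneg_left (by linarith) hH0
      have h5 : (H p : ℝ) * e ≤ n * e := by nlinarith
      exact le_of_mul_le_mul_right h5 he0
    have hHn' : H p ≤ n := by exact_mod_cast hHn
    have hVa : ∀ k : ℕ, k ≤ n → Va ρ β h k ≤ C * (n : ℝ) ^ (2 * x₁) := by
      intro k hk
      refine (hf k).2.trans (mul_le_mul_of_nonneg_left ?_ hC0)
      exact Real.rpow_le_rpow (Nat.cast_nonneg k) (by exact_mod_cast hk) (by positivity)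
    have hu := hU'' n (H p) (Θ * 2 ^ p) (b₀ * 2 ^ p) (C * (n : ℝ) ^ (2 * x₁)) h1 hHn'
      (by positivity) (by positivity) hVa
    refine alg92 (P := 2 ^ p) (E := En ρ β h (H p)) (R := R) (b₀ := b₀) (Θ := Θ) (Cv := CV)
      (J := C₁ * n * Real.log (2 * (H p : ℝ) + 1)) hP1 hn0 hH0 hHn h3 (hEup p hp) hK
      (Finset.sum_nonneg fun t _ => us_nonneg92 _) hR0 ?_ q1 ?_
    · rw [hR]
      refine hu.trans (le_of_eq ?_)
      ring
    · have hm1 : (1 : ℝ) ≤ m p := by exact_mod_cast g1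
      have hH1 : (1 : ℝ) ≤ H p := by exact_mod_cast h1
      have hB1' : (1 : ℝ) ≤ B := by exact_mod_cast hB1
      have hHm : (H p : ℝ) ≤ B * m p := by exact_mod_cast h2
      have hlog : Real.log (2 * (H p : ℝ) + 1) ≤ (1 + Real.log (3 * B)) * (1 + Real.log (m p)) := by
        have hlm := Real.log_nonneg hm1
        calc Real.log (2 * (H p : ℝ) + 1) ≤ Real.log (3 * B * m p) :=
              Real.log_le_log (by positivity) (by nlinarith)
          _ = Real.log (3 * B) + Real.log (m p) := Real.log_mul (by positivity) (by positivity)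
          _ ≤ _ := by nlinarith
      have q2 : 8 * C₁ * ((1 + Real.log (3 * B)) * (1 + Real.log (m p))) ≤ e * 2 ^ p := by
        have q3 := mul_le_mul_of_nonneg_left g6 he0.le
        have e1 : e * (8 * C₁ * (1 + Real.log (3 * B)) / e * (1 + Real.log (m p))) =
            8 * C₁ * ((1 + Real.log (3 * B)) * (1 + Real.log (m p))) := by
          field_simp
        rwa [e1] at q3
      have q4 : C₁ * Real.log (2 * (H p : ℝ) + 1) ≤ e / 8 * 2 ^ p := by
        have := mul_le_mul_of_nonneg_left hlog hC₁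
        linarith
      calc C₁ * n * Real.log (2 * (H p : ℝ) + 1) = n * (C₁ * Real.log (2 * (H p : ℝ) + 1)) := by ring
        _ ≤ _ := mul_le_mul_of_nonneg_left q4 hn0.le
  -- the function of the future
  obtain ⟨f₁, hf₁⟩ : ∃ f₁ : Env d → ℝ, f₁ = fun η => ∑ p ∈ I, s / 2 ^ p *
    clp ρ β h (H p) (Θ * 2 ^ p) (b₀ * 2 ^ p) η := ⟨_, rfl⟩
  obtain ⟨f₂, hf₂⟩ : ∃ f₂ : Env d → ℝ, f₂ = fun η => ∑ p ∈ I, s * K *
    (Gk ρ β h (H p) 0 (Θ * 2 ^ p) 0).indicator (fun _ => (1 : ℝ)) η := ⟨_, rfl⟩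
  have cl1 : ∀ p ∈ I, ∀ η, |clp ρ β h (H p) (Θ * 2 ^ p) (b₀ * 2 ^ p) η| ≤
      (CV + Θ + b₀) * 2 ^ p := by
    intro p hp η
    have := clp_abs92 (h := h) (β := β) hd hρ (H p) (show 0 ≤ Θ * 2 ^ p by positivity)
      (show 0 ≤ b₀ * 2 ^ p by positivity) η
    have h2 := hEup p hp
    linarith
  have ind1 : ∀ p η, |(Gk ρ β h (H p) 0 (Θ * 2 ^ p) 0).indicator (fun _ => (1 : ℝ)) η| ≤ 1 := by
    intro p η
    by_cases h1 : η ∈ Gk ρ β h (H p) 0 (Θ * 2 ^ p) 0
    · rw [Set.indicator_of_mem h1, abs_one]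
    · rw [Set.indicator_of_notMem h1, abs_zero]
      exact zero_le_one
  have m1 : Measurable f₁ := by
    rw [hf₁]
    exact Finset.measurable_fun_sum _ fun p _ => (clp_meas92 _ _ _).const_mul _
  have m2 : Measurable f₂ := by
    rw [hf₂]
    exact Finset.measurable_fun_sum _ fun p _ =>
      (measurable_const.indicator (Gk_meas92 _ _ _ _)).const_mul _
  have d1 : ∀ η, |f₁ η| ≤ I.card * (s * (CV + Θ + b₀)) := by
    intro η
    rw [hf₁]
    refine (Finset.abs_sum_le_sum_abs _ _).trans ?_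
    rw [← nsmul_eq_mul]
    refine Finset.sum_le_card_nsmul _ _ _ fun p hp => ?_
    rw [abs_mul, abs_of_pos (show (0 : ℝ) < s / 2 ^ p by positivity)]
    calc s / 2 ^ p * |clp ρ β h (H p) (Θ * 2 ^ p) (b₀ * 2 ^ p) η| ≤
        s / 2 ^ p * ((CV + Θ + b₀) * 2 ^ p) :=
          mul_le_mul_of_nonneg_left (cl1 p hp η) (by positivity)
      _ = _ := by field_simp
  have d2 : ∀ η, |f₂ η| ≤ I.card * (s * K) := by
    intro η
    rw [hf₂]
    refine (Finset.abs_sum_le_sum_abs _ _).trans ?_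
    rw [← nsmul_eq_mul]
    refine Finset.sum_le_card_nsmul _ _ _ fun p hp => ?_
    rw [abs_mul, abs_of_pos (show (0 : ℝ) < s * K by positivity)]
    exact (mul_le_mul_of_nonneg_left (ind1 p η) (by positivity)).trans (by rw [mul_one])
  -- the exponential moments
  have E1 : ∫ η, Real.exp (2 * f₁ η) ∂(law d ρ) ≤ Real.exp (2 * (I.card * (s * (e / 8)))) := by
    have h1 := hE₃ h hloc m H I hL (fun p hp => ⟨(hI p hp).2.2.1, (hdat p hp).1, (hH p hp).2.1,
      (hH p hp).2.2.1, (hH p hp).2.2.2, (hdat p hp).2.2.2.1⟩) fun p hp q hq hpq => by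
        have := hsp p hp q hq hpq
        have := le_max_right bA b₂
        omega
    have e1 : ∀ η, 2 * f₁ η = 2 * s * ∑ p ∈ I,
        clp ρ β h (H p) (Θ * 2 ^ p) (b₀ * 2 ^ p) η / 2 ^ p := by
      intro η
      rw [hf₁]
      simp only [Finset.mul_sum]
      exact Finset.sum_congr rfl fun p _ => by ring
    simp only [e1]
    refine h1.trans (le_of_eq ?_)
    congr 1
    ring
  have E2 : ∫ η, Real.exp (2 * f₂ η) ∂(law d ρ) ≤ Real.exp (2 * (I.card * (s * (e / 16)))) := by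
    have h1 := (expI92 (μ := law d ρ) I (L := fun p => Gk ρ β h (H p) 0 (Θ * 2 ^ p) 0)
      (fun p _ => Gk_meas92 _ _ _ _) (a := 2 * (s * K)) (q := ε' / Θ) (by positivity) hsK
      (by positivity) fun J hJ => hA'' h hloc m H J hL (fun p hp => ⟨(hdat p (hJ hp)).2.1.1,
        (hdat p (hJ hp)).2.1.2, (hI p (hJ hp)).2.2.1, (hH p (hJ hp)).1, (hH p (hJ hp)).2.1⟩)
        fun p hp q hq hpq => by
          have := hsp p (hJ hp) q (hJ hq) hpq
          have := le_max_left bA b₂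
          omega).2
    have e1 : ∀ η, Real.exp (2 * f₂ η) = wt62 I (fun p => Gk ρ β h (H p) 0 (Θ * 2 ^ p) 0)
        (fun _ => 2 * (s * K)) η := by
      intro η
      unfold wt62
      rw [hf₂]
      simp only [Finset.mul_sum]
      congr 1
      exact Finset.sum_congr rfl fun p _ => by ring
    simp only [e1]
    refine h1.trans (Real.exp_le_exp.2 ?_)
    have q1 : K * (ε' / Θ) ≤ e / 32 := by
      have q2 : K ≤ 2 * (1 + b₀ + CV) * Θ := by
        rw [hK]
        nlinarith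
      calc K * (ε' / Θ) ≤ 2 * (1 + b₀ + CV) * Θ * (ε' / Θ) :=
            mul_le_mul_of_nonneg_right q2 (by positivity)
        _ = e / 32 := by
            rw [hε']
            field_simp
            norm_num
    have q3 : 2 * (2 * (s * K)) * (ε' / Θ) ≤ 2 * (s * (e / 16)) := by
      have := mul_le_mul_of_nonneg_left q1 hs0.le
      nlinarith
    have q4 := mul_le_mul_of_nonneg_left q3 (Nat.cast_nonneg (α := ℝ) I.card)
    linarith
  have E3 := cs92 (μ := law d ρ) m1 m2 (D := I.card * (s * (CV + Θ + b₀)) + I.card * (s * K))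
    (fun η => (d1 η).trans (by
      have : 0 ≤ (I.card : ℝ) * (s * K) := by positivity
      linarith)) (fun η => (d2 η).trans (by
      have : 0 ≤ (I.card : ℝ) * (s * (CV + Θ + b₀)) := by positivity
      linarith)) E1 E2
  -- the budget
  have hbd := hBd (fun η => f₁ η + f₂ η) (I.card * (s * D₀))
    (I.card * (s * (e / 8)) + I.card * (s * (e / 16))) (m1.add m2) (by
      intro η η' hη
      have c1 : ∀ p, clp ρ β h (H p) (Θ * 2 ^ p) (b₀ * 2 ^ p) η =
          clp ρ β h (H p) (Θ * 2 ^ p) (b₀ * 2 ^ p) η' := fun p => clp_dep92 _ _ _ hη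
      have c2 : ∀ p, (Gk ρ β h (H p) 0 (Θ * 2 ^ p) 0).indicator (fun _ => (1 : ℝ)) η =
          (Gk ρ β h (H p) 0 (Θ * 2 ^ p) 0).indicator (fun _ => (1 : ℝ)) η' := by
        intro p
        have c3 : (η ∈ Gk ρ β h (H p) 0 (Θ * 2 ^ p) 0) = (η' ∈ Gk ρ β h (H p) 0 (Θ * 2 ^ p) 0) :=
          Gk_dep92 (ρ := ρ) (β := β) (h := h) (H p) 0 (Θ * 2 ^ p) 0 hη
        by_cases h1 : η ∈ Gk ρ β h (H p) 0 (Θ * 2 ^ p) 0
        · rw [Set.indicator_of_mem h1, Set.indicator_of_mem (c3 ▸ h1)]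
        · rw [Set.indicator_of_notMem h1, Set.indicator_of_notMem (c3 ▸ h1)]
      show f₁ η + f₂ η = f₁ η' + f₂ η'
      rw [hf₁, hf₂]
      simp only [c1, c2])
    (fun η => (abs_add_le _ _).trans (by
      have e1 : (I.card : ℝ) * (s * D₀) = I.card * (s * (CV + Θ + b₀)) + I.card * (s * K) := by
        rw [hD₀]
        ring
      rw [e1]
      exact add_le_add (d1 η) (d2 η))) (by positivity) E3
  -- the mean along the polymer
  have hD1 : ∀ p : ℕ, ∀ η, |(if p ∈ I then clp ρ β h (H p) (Θ * 2 ^ p) (b₀ * 2 ^ p) η else 0)| ≤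
      (CV + Θ + b₀) * 2 ^ p := by
    intro p η
    by_cases hp : p ∈ I
    · rw [if_pos hp]
      exact cl1 p hp η
    · rw [if_neg hp, abs_zero]
      positivity
  have hmean : (∑ t ∈ Finset.range n, uf ρ β h n t fun η => f₁ η + f₂ η) / n =
      ∑ p ∈ I, s * (1 / 2 ^ p * ((∑ t ∈ Finset.range n, uf ρ β h n t
        (clp ρ β h (H p) (Θ * 2 ^ p) (b₀ * 2 ^ p))) / n) +
      K * ((∑ t ∈ Finset.range n, us ρ β h n t (Gk ρ β h (H p) 0 (Θ * 2 ^ p) 0)) / n)) := by
    have e1 : ∀ t ∈ Finset.range n, uf ρ β h n t (fun η => f₁ η + f₂ η) =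
        ∑ p ∈ I, (s / 2 ^ p * uf ρ β h n t (clp ρ β h (H p) (Θ * 2 ^ p) (b₀ * 2 ^ p)) +
          s * K * us ρ β h n t (Gk ρ β h (H p) 0 (Θ * 2 ^ p) 0)) := by
      intro t ht
      have ht' : t ≤ n := (Finset.mem_range.1 ht).le
      rw [uf_add92 ht' m1 m2 (D := I.card * (s * (CV + Θ + b₀)) + I.card * (s * K))
        (fun η => (d1 η).trans (by
          have : 0 ≤ (I.card : ℝ) * (s * K) := by positivity
          linarith)) (fun η => (d2 η).trans (by
          have : 0 ≤ (I.card : ℝ) * (s * (CV + Θ + b₀)) := by positivity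
          linarith)), Finset.sum_add_distrib]
      congr 1
      · have e2 : f₁ = fun η => ∑ p ∈ I, s / 2 ^ p *
            (if p ∈ I then clp ρ β h (H p) (Θ * 2 ^ p) (b₀ * 2 ^ p) η else 0) := by
          rw [hf₁]
          funext η
          exact Finset.sum_congr rfl fun p hp => by rw [if_pos hp]
        rw [e2, uf_sum92 ht' I (fun p => s / 2 ^ p) (g := fun p η =>
          if p ∈ I then clp ρ β h (H p) (Θ * 2 ^ p) (b₀ * 2 ^ p) η else 0) (fun p => by
            by_cases hp : p ∈ I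
            · simp only [if_pos hp]
              exact clp_meas92 _ _ _
            · simp only [if_neg hp]
              exact measurable_const) hD1]
        refine Finset.sum_congr rfl fun p hp => ?_
        simp only [if_pos hp]
      · rw [hf₂, uf_sum92 ht' I (fun _ => s * K) (fun p =>
          measurable_const.indicator (Gk_meas92 _ _ _ _)) (D := fun _ => 1) ind1]
        rfl
    rw [Finset.sum_congr rfl e1, Finset.sum_comm, Finset.sum_div]
    refine Finset.sum_congr rfl fun p _ => ?_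
    rw [Finset.sum_add_distrib, ← Finset.mul_sum, ← Finset.mul_sum]
    field_simp
  have hlow : (I.card : ℝ) * (s * (3 / 4 * e)) ≤
      (∑ t ∈ Finset.range n, uf ρ β h n t fun η => f₁ η + f₂ η) / n := by
    rw [hmean, ← nsmul_eq_mul]
    exact Finset.card_nsmul_le_sum _ _ _ fun p hp => mul_le_mul_of_nonneg_left (hone p hp) hs0.le
  have e9 : e / (16 * D₀) * (I.card * (s * D₀)) = I.card * (s * (e / 16)) := by
    field_simp
  rw [e9] at hbd
  have e10 : s * e / 2 * (I.card : ℝ) = I.card * (s * (3 / 4 * e)) -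
      (I.card * (s * (e / 8)) + I.card * (s * (e / 16))) - I.card * (s * (e / 16)) := by ring
  rw [e10]
  linarith

end Pool.Agent.W_7d29a1_SNP.T92
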