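import Pool.Agent.W_7d29a1_PL.CostX90
import Pool.Agent.W_7d29a1_SNP.AddN90

/-!
Leaf COSTN: the price of a single luck at a long level, every law, over GROWN.
-/

set_option autoImplicit false

namespace Pool.Agent.W_7d29a1_SNP

open MeasureTheory ProbabilityTheory Filter Topology Pool.Agent.W_MP_7d29a1_pr
  Pool.Agent.W_7d29a1_h46 Pool.Agent.W_7d29a1_h46u Pool.Agent.W_7d29a1_D2.B35
  Pool.Agent.W_7d29a1_Q29 Pool.Agent.W_7d29a1_R34 Pool.Agent.W_7d29a1_SP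
  Pool.Agent.W_7d29a1_PL

variable {d : ℕ} {ρ : Measure ℝ} {β : ℝ} {h : Vec d}

/-- SING at one tilt, with the logarithmic condition. -/
def SgL90 (ρ : Measure ℝ) (β : ℝ) (h : Vec d) (D C : ℝ) : Prop :=
  ∀ (T₀ T₁ T : ℕ) (θ s₀ φ Φ : ℝ), C * (1 + Real.log T) ≤ Φ + 1 → 1 ≤ T₁ → T₁ ≤ T → 0 ≤ φ →
    (∀ k : ℕ, k ≤ T₁ - T₀ → En ρ β h k ≤ φ ∧ Fn ρ β h k ≤ φ) →
    (∀ k : ℕ, k ≤ T → En ρ β h k ≤ Φ ∧ Fn ρ β h k ≤ Φ) →
    A ρ β h T₁ + 4 * Fn ρ β h T₁ ≤ s₀ →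
    Φ + 1 < D * (lam ρ β h * T₁ + θ - (3 * φ + 1) - s₀) →
    (law d ρ).real {η | ∃ s : ℕ, T₀ ≤ s ∧ s ≤ T₁ ∧ lam ρ β h * s + θ ≤ X β h η s} ≤
      C * ((T₁ : ℝ) / T) ^ (1 / C)

/-- SING at the length of a level. -/
lemma coreN90 {a B : ℕ} {Λ ε : ℝ} {m : ℕ → ℕ} {I : Finset ℕ} {C D : ℝ} (hC : 1 ≤ C)
    (hsing : SgL90 ρ β h D C) (hS : Sc ρ β h a B Λ ε m I) (hΛ : 2 ≤ Λ) {p : ℕ} (hp : p ∈ I)
    (hm : 1 ≤ m p) {j T₀ T₁ : ℕ} (hT1 : 1 ≤ T₁) (hT2 : T₁ ≤ 2 ^ (j + 1) * m p)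
    (hlog : C * (1 + Real.log (m (p + j + 1))) ≤ 2 ^ j * 2 ^ p) {θ φ : ℝ} (hφ0 : 0 ≤ φ)
    (hφ : ∀ k : ℕ, k ≤ T₁ - T₀ → En ρ β h k ≤ φ ∧ Fn ρ β h k ≤ φ)
    (hkey : 2 ^ (p + j + 1) + 1 < D * (En ρ β h T₁ + θ - (3 * φ + 1) - 4 * Fn ρ β h T₁)) :
    (law d ρ).real {η | ∃ s : ℕ, T₀ ≤ s ∧ s ≤ T₁ ∧ lam ρ β h * s + θ ≤ X β h η s} ≤
      C * (2 ^ (j + 2) * ((m p : ℝ) / m (p + j + 1))) ^ (1 / C) := by
  have hm' : (1 : ℝ) ≤ m p := by exact_mod_cast hm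
  have hC0 : 0 < C := by linarith
  have h0 : (2 : ℝ) ^ (j + 1) * m p < m (p + j + 1) := by
    refine lt_of_le_of_lt ?_ (hS.nc p hp j)
    exact mul_le_mul_of_nonneg_right (pow_le_pow_left₀ (by norm_num) hΛ _) (by linarith)
  have h0' : 2 ^ (j + 1) * m p < m (p + j + 1) := by exact_mod_cast h0
  have h1' : 1 * 1 ≤ 2 ^ (j + 1) * m p := Nat.mul_le_mul Nat.one_le_two_pow hm
  -- the horizon
  obtain ⟨T, hTdef⟩ : ∃ T : ℕ, T = m (p + j + 1) - 1 := ⟨_, rfl⟩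
  have hT : T₁ ≤ T := by omega
  have hT0 : 0 < T := by omega
  have hTm : m (p + j + 1) ≤ 2 * T := by omega
  have hK : ∀ k : ℕ, k ≤ T → En ρ β h k ≤ 2 ^ (p + j + 1) ∧ Fn ρ β h k ≤ 2 ^ (p + j + 1) := by
    intro k hk
    have h1 := hS.lo (p + j + 1) k (by omega)
    exact ⟨(le_max_left _ _).trans h1.le, (le_max_right _ _).trans h1.le⟩
  have hlT : C * (1 + Real.log T) ≤ 2 ^ (p + j + 1) + 1 := by
    have h2 : Real.log T ≤ Real.log (m (p + j + 1)) :=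
      Real.log_le_log (by exact_mod_cast hT0) (by exact_mod_cast (by omega : T ≤ m (p + j + 1)))
    have h3 : C * (1 + Real.log T) ≤ C * (1 + Real.log (m (p + j + 1))) :=
      mul_le_mul_of_nonneg_left (by linarith) hC0.le
    have h4 : (2 : ℝ) ^ (p + j + 1) = 2 * (2 ^ j * 2 ^ p) := by ring
    have h5 : (0 : ℝ) < 2 ^ j * 2 ^ p := by positivity
    rw [h4]
    linarith
  have h1 := hsing T₀ T₁ T θ (A ρ β h T₁ + 4 * Fn ρ β h T₁) φ (2 ^ (p + j + 1)) hlT hT1 hT hφ0 hφ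
    hK le_rfl (by
      refine lt_of_lt_of_eq hkey ?_
      unfold En
      ring)
  refine h1.trans (mul_le_mul_of_nonneg_left (Real.rpow_le_rpow (by positivity) ?_
    (by positivity)) hC0.le)
  have hT' : (0 : ℝ) < T := by exact_mod_cast hT0
  have hν' : (0 : ℝ) < m (p + j + 1) := by exact_mod_cast (by omega : 0 < m (p + j + 1))
  have hTc' : (m (p + j + 1) : ℝ) ≤ 2 * T := by exact_mod_cast hTm
  have hT2' : (T₁ : ℝ) ≤ 2 ^ (j + 1) * m p := by exact_mod_cast hT2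
  rw [← mul_div_assoc, div_le_div_iff₀ hT' hν']
  calc (T₁ : ℝ) * m (p + j + 1) ≤ (2 ^ (j + 1) * m p) * (2 * T) :=
        mul_le_mul hT2' hTc' hν'.le (by positivity)
    _ = 2 ^ (j + 2) * (m p : ℝ) * T := by ring

/-- The fluctuation on a middle group. -/
lemma midN_f90 {a B : ℕ} {Λ ε : ℝ} {m : ℕ → ℕ} {I : Finset ℕ}
    (hS : Sc ρ β h a B Λ ε m I) (hΛ : 4 ≤ Λ) {p : ℕ} (hp : p ∈ I) {j k : ℕ}
    (hk : k ≤ 2 ^ (j + 1) * m p) :
    En ρ β h k ≤ 2 ^ (p + ((j + 1) / 2 + 1)) ∧ Fn ρ β h k ≤ 2 ^ (p + ((j + 1) / 2 + 1)) := by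
  have h1 : k < m (p + ((j + 1) / 2 + 1)) := by
    have h2 := hS.nc p hp ((j + 1) / 2)
    have h3 : (2 : ℝ) ^ (j + 1) ≤ Λ ^ ((j + 1) / 2 + 1) := by
      calc (2 : ℝ) ^ (j + 1) ≤ 2 ^ (2 * ((j + 1) / 2 + 1)) :=
            pow_le_pow_right₀ (by norm_num) (by omega)
        _ = 4 ^ ((j + 1) / 2 + 1) := by rw [pow_mul]; norm_num
        _ ≤ Λ ^ ((j + 1) / 2 + 1) := pow_le_pow_left₀ (by norm_num) hΛ _
    have h4 : (2 : ℝ) ^ (j + 1) * m p ≤ Λ ^ ((j + 1) / 2 + 1) * m p :=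
      mul_le_mul_of_nonneg_right h3 (Nat.cast_nonneg _)
    have h5 : p + ((j + 1) / 2 + 1) = p + (j + 1) / 2 + 1 := by ring
    rw [h5]
    have h6 : (k : ℝ) ≤ 2 ^ (j + 1) * m p := by exact_mod_cast hk
    have h7 : (k : ℝ) < m (p + (j + 1) / 2 + 1) := by linarith
    exact_mod_cast h7
  have h2 := hS.lo _ k h1
  exact ⟨(le_max_left _ _).trans h2.le, (le_max_right _ _).trans h2.le⟩

/-- Group `0`. -/
lemma zeroN90 [IsProbabilityMeasure ρ] (hd : 0 < d) (hρ : EM ρ) {n a B : ℕ} {Λ ε κ C D : ℝ}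
    {m : ℕ → ℕ} {I : Finset ℕ} (hC : 1 ≤ C) (hsing : SgL90 ρ β h D C)
    (hS : Sc ρ β h a B Λ ε m I) (hB : 1 ≤ B) (hΛ : 2 ≤ Λ) (hε : 0 < ε) (hκ : 0 < κ)
    (hκ1 : κ ≤ 1 / 2) (hεκ : ε ≤ κ / 64) {p : ℕ} (hp : p ∈ I) (ha : 3 ≤ a)
    (haκ : 256 / κ ≤ 2 ^ a) (hD : 8 ≤ D * κ) 
    (hlog : C * (1 + Real.log (m (p + 0 + 1))) ≤ 2 ^ 0 * 2 ^ p) :
    (law d ρ).real (Lg ρ β h n (m p - 2 * m (p - a)) (2 * m (p - a)) (2 ^ p) κ
      (κ / 8 * 2 ^ p) 0) ≤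
      C * (2 ^ 2 * ((m p : ℝ) / m (p + 1))) ^ (1 / C) := by
  have hε1 : ε < 1 := by linarith
  obtain ⟨φ, hφ0, hφκ, hφ⟩ := sl90 hd hρ (hS.sy90 hp) hB hε hκ1 hεκ (Finset.mem_singleton_self p) (by omega) haκ hκ
  obtain ⟨h1, h2⟩ := (hS.sy90 hp).one90 hd hρ hB hε1 (Finset.mem_singleton_self p) ha
  obtain ⟨hap, h3⟩ := hS.big p hp
  have hx : (1 : ℝ) ≤ 2 ^ p := one_le_pow₀ (by norm_num)
  have hm1 : 1 ≤ m p := by omega
  have hE := (hS.sy90 hp).en90 hB hε1 (Finset.mem_singleton_self p)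
  have hF := hS.fs p hp (m p) (Nat.le_mul_of_pos_left _ hB)
  have hF' : ε * 2 ^ p ≤ κ / 64 * 2 ^ p := mul_le_mul_of_nonneg_right hεκ (by linarith)
  have h4 := coreN90 (T₀ := m p - 2 * m (p - a)) (T₁ := m p) (j := 0)
    (θ := -((1 - κ) * 2 ^ p) - κ / 8 * 2 ^ p) hC hsing hS hΛ hp hm1
    hm1 (by omega) hlog hφ0 (fun k hk => hφ k (by omega)) (by
      have h5 : κ / 2 * 2 ^ p ≤ En ρ β h (m p) + (-((1 - κ) * 2 ^ p) - κ / 8 * 2 ^ p) -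
          (3 * φ + 1) - 4 * Fn ρ β h (m p) := by nlinarith
      have h6 : 0 < D := by
        by_contra hcon
        push Not at hcon
        nlinarith
      have h7 := mul_le_mul_of_nonneg_left h5 h6.le
      have h8 : D * (κ / 2 * 2 ^ p) = D * κ * (2 ^ p / 2) := by ring
      have h9 : 8 * ((2 : ℝ) ^ p / 2) ≤ D * κ * (2 ^ p / 2) :=
        mul_le_mul_of_nonneg_right hD (by positivity)
      have h10 : (2 : ℝ) ^ (p + 0 + 1) = 2 * 2 ^ p := by ring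
      rw [h10]
      linarith)
  refine le_trans (measureReal_mono ?_ (measure_ne_top _ _)) h4
  rintro η ⟨s, hs, h5⟩
  refine ⟨m p - 2 * m (p - a) + s, by omega, by omega, ?_⟩
  have h6 : ((m p - 2 * m (p - a) + s : ℕ) : ℝ) * lam ρ β h =
    lam ρ β h * ((m p - 2 * m (p - a) + s : ℕ) : ℝ) := mul_comm _ _
  rw [h6] at h5
  linarith

/-- The small groups. -/
lemma smallN90 [IsProbabilityMeasure ρ] (hd : 0 < d) (hρ : EM ρ) {n a B : ℕ} {Λ ε κ C D : ℝ}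
    {m : ℕ → ℕ} {I : Finset ℕ} (hC : 1 ≤ C) (hsing : SgL90 ρ β h D C)
    (hS : Sc ρ β h a B Λ ε m I) (hΛ : 2 ≤ Λ) (hε : 0 < ε) (hκ : 0 < κ)
    (hκ1 : κ ≤ 1 / 2) (hεκ : ε ≤ κ / 64) {p : ℕ} (hp : p ∈ I) (ha : 3 ≤ a)
    (haκ : 256 / κ ≤ 2 ^ a) {i₀ i : ℕ} (hD : 2 ^ (i₀ + 3) ≤ D * κ) (hi : i + 1 ≤ i₀)
    (hB : 2 ^ (i₀ + 1) ≤ B) 
    (hlog : C * (1 + Real.log (m (p + (i + 1) + 1))) ≤ 2 ^ (i + 1) * 2 ^ p) :
    (law d ρ).real (Lg ρ β h n (m p - 2 * m (p - a)) (2 * m (p - a)) (2 ^ p) κ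
      (κ / 8 * 2 ^ p) (i + 1)) ≤ 2 ^ (i + 1) *
      (C * (2 ^ (i + 1 + 2) * ((m p : ℝ) / m (p + (i + 1) + 1))) ^ (1 / C)) := by
  classical
  have hε1 : ε < 1 := by linarith
  have hB1 : 1 ≤ B := le_trans Nat.one_le_two_pow hB
  obtain ⟨φ, hφ0, hφκ, hφ⟩ := sl90 hd hρ (hS.sy90 hp) hB1 hε hκ1 hεκ (Finset.mem_singleton_self p) (by omega) haκ hκ
  obtain ⟨h1, h2⟩ := (hS.sy90 hp).one90 hd hρ hB1 hε1 (Finset.mem_singleton_self p) ha
  obtain ⟨hap, h3⟩ := hS.big p hp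
  have hx : (1 : ℝ) ≤ 2 ^ p := one_le_pow₀ (by norm_num)
  have hm1 : 1 ≤ m p := by omega
  obtain ⟨H, hH⟩ : ∃ H : ℕ, H = m p - 2 * m (p - a) := ⟨_, rfl⟩
  rw [← hH]
  rw [← hH] at h1 h2
  have hHS : H + 2 * m (p - a) = m p := by omega
  have hC0 : 0 < C := by linarith
  set R : ℝ := C * (2 ^ (i + 1 + 2) * ((m p : ℝ) / m (p + (i + 1) + 1))) ^ (1 / C)
    with hR
  have hR0 : 0 ≤ R := by positivity
  set F : Finset ℕ := Finset.Ico (2 ^ (i + 1)) (2 ^ (i + 2)) with hF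
  have h4 : Lg ρ β h n H (2 * m (p - a)) (2 ^ p) κ (κ / 8 * 2 ^ p) (i + 1) ⊆
      ⋃ N ∈ F, LgN ρ β h H (2 * m (p - a)) (2 ^ p) κ (κ / 8 * 2 ^ p) N := by
    rintro η ⟨N, hN1, hN2, hN3, hN4⟩
    refine Set.mem_iUnion₂.2 ⟨N, ?_, hN4⟩
    rw [hF, Finset.mem_Ico]
    exact ⟨hN1, hN2⟩
  have h5 : ∀ N ∈ F, (law d ρ).real (LgN ρ β h H (2 * m (p - a)) (2 ^ p) κ
      (κ / 8 * 2 ^ p) N) ≤ R := by
    intro N hN
    rw [hF, Finset.mem_Ico] at hN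
    obtain ⟨hN1, hN2⟩ := hN
    have hN3 : 2 ≤ N := by
      have : 2 ^ 1 ≤ 2 ^ (i + 1) := Nat.pow_le_pow_right (by norm_num) (by omega)
      omega
    have hN4 : N * H + 2 * m (p - a) ≤ N * m p := by
      rw [← hHS, mul_add]
      have : 1 * (2 * m (p - a)) ≤ N * (2 * m (p - a)) := Nat.mul_le_mul_right _ (by omega)
      omega
    have hN5 : N * m p ≤ 2 ^ (i + 2) * m p := Nat.mul_le_mul_right _ hN2.le
    have hN6 : 2 ^ (i + 2) * m p ≤ B * m p := Nat.mul_le_mul_right _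
      (le_trans (Nat.pow_le_pow_right (by norm_num) (by omega)) hB)
    have hN' : (2 : ℝ) ≤ N := by exact_mod_cast hN3
    have hFn := hS.fs p hp (N * H + 2 * m (p - a)) (by omega)
    have hEn := En_nonneg15 hd hρ β h (N * H + 2 * m (p - a))
    have hF' : ε * 2 ^ p ≤ κ / 64 * 2 ^ p := mul_le_mul_of_nonneg_right hεκ (by linarith)
    have h6 := coreN90 (T₀ := N * H) (T₁ := N * H + 2 * m (p - a)) (j := i + 1)
      (θ := κ * N * 2 ^ p - κ / 8 * 2 ^ p) hC hsing hS hΛ hp hm1 (by omega)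
      (by
        have : i + 1 + 1 = i + 2 := rfl
        rw [this]
        omega) hlog hφ0 (fun k hk => hφ k (by omega)) (by
        have h7 : κ * 2 ^ p * 2 ≤ κ * 2 ^ p * N := mul_le_mul_of_nonneg_left hN' (by positivity)
        have h8 : 0 < κ * 2 ^ p := by positivity
        have h9 : κ / 2 * 2 ^ p ≤ En ρ β h (N * H + 2 * m (p - a)) +
            (κ * N * 2 ^ p - κ / 8 * 2 ^ p) - (3 * φ + 1) -
            4 * Fn ρ β h (N * H + 2 * m (p - a)) := by nlinarith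
        have h10 : 0 < D := by
          by_contra hcon
          push Not at hcon
          have : (0 : ℝ) < 2 ^ (i₀ + 3) := by positivity
          nlinarith
        have h11 := mul_le_mul_of_nonneg_left h9 h10.le
        have h12 : D * (κ / 2 * 2 ^ p) = D * κ * (2 ^ p / 2) := by ring
        have h13 : (2 : ℝ) ^ (i₀ + 3) * (2 ^ p / 2) ≤ D * κ * (2 ^ p / 2) :=
          mul_le_mul_of_nonneg_right hD (by positivity)
        have h14 : (2 : ℝ) ^ (p + (i + 1) + 1) ≤ 2 ^ (p + i₀ + 1) :=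
          pow_le_pow_right₀ (by norm_num) (by omega)
        have h15 : (2 : ℝ) ^ (i₀ + 3) * (2 ^ p / 2) = 2 * 2 ^ (p + i₀ + 1) := by ring
        have h16 : (1 : ℝ) < 2 ^ (p + i₀ + 1) := one_lt_pow₀ (by norm_num) (by omega)
        linarith)
    refine le_trans (measureReal_mono ?_ (measure_ne_top _ _)) h6
    rintro η ⟨s, hs, h7⟩
    refine ⟨N * H + s, by omega, by omega, ?_⟩
    have h8 : ((N * H + s : ℕ) : ℝ) * lam ρ β h = lam ρ β h * ((N * H + s : ℕ) : ℝ) :=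
      mul_comm _ _
    rw [h8] at h7
    linarith
  refine ((measureReal_mono h4 (measure_ne_top _ _)).trans
    ((measureReal_biUnion_finset_le _ _).trans (Finset.sum_le_card_nsmul F _ _ h5))).trans ?_
  rw [nsmul_eq_mul]
  refine mul_le_mul_of_nonneg_right ?_ hR0
  have h6 : F.card = 2 ^ (i + 1) := by
    rw [hF, Nat.card_Ico]
    have : 2 ^ (i + 2) = 2 * 2 ^ (i + 1) := by ring
    omega
  rw [h6]
  push_cast
  exact le_rfl

/-- The middle groups. -/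
lemma midN90 [IsProbabilityMeasure ρ] (hd : 0 < d) (hρ : EM ρ) {n a B : ℕ} {Λ ε κ C D : ℝ}
    {m : ℕ → ℕ} {I : Finset ℕ} (hC : 1 ≤ C) (hsing : SgL90 ρ β h D C)
    (hS : Sc ρ β h a B Λ ε m I) (hB : 1 ≤ B) (hΛ : 4 ≤ Λ) (hε1 : ε < 1) (hκ : 0 < κ)
    {p : ℕ} (hp : p ∈ I) (ha : 3 ≤ a) {i₁ i : ℕ} (hi₁ : 128 / κ ≤ 2 ^ i₁)
    (hD : 8 ≤ D * κ) (hi : 2 * i₁ ≤ i + 1) 
    (hlog : C * (1 + Real.log (m (p + (i + 1) + 1))) ≤ 2 ^ (i + 1) * 2 ^ p) :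
    (law d ρ).real (Lg ρ β h n (m p - 2 * m (p - a)) (2 * m (p - a)) (2 ^ p) κ
      (κ / 8 * 2 ^ p) (i + 1)) ≤
      C * (2 ^ (i + 1 + 2) * ((m p : ℝ) / m (p + (i + 1) + 1))) ^ (1 / C) := by
  obtain ⟨h1, h2⟩ := (hS.sy90 hp).one90 hd hρ hB hε1 (Finset.mem_singleton_self p) ha
  obtain ⟨hap, h3⟩ := hS.big p hp
  have hx : (1 : ℝ) ≤ 2 ^ p := one_le_pow₀ (by norm_num)
  have hm1 : 1 ≤ m p := by omega
  obtain ⟨H, hH⟩ : ∃ H : ℕ, H = m p - 2 * m (p - a) := ⟨_, rfl⟩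
  rw [← hH]
  rw [← hH] at h1 h2
  have hHS : H + 2 * m (p - a) = m p := by omega
  have hC0 : 0 < C := by linarith
  obtain ⟨j, hj⟩ : ∃ j : ℕ, j = i + 1 := ⟨_, rfl⟩
  rw [← hj] at hlog ⊢
  obtain ⟨l, hl⟩ : ∃ l : ℕ, l = (j + 1) / 2 + 1 := ⟨_, rfl⟩
  have hf : ∀ k : ℕ, k ≤ 2 ^ (j + 1) * m p → En ρ β h k ≤ 2 ^ (p + l) ∧
      Fn ρ β h k ≤ 2 ^ (p + l) := by
    intro k hk
    rw [hl]
    exact midN_f90 hS hΛ hp hk
  have hT1 : 2 ^ (j + 1) * H + 2 * m (p - a) ≤ 2 ^ (j + 1) * m p := by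
    rw [← hHS, mul_add]
    have : 1 * (2 * m (p - a)) ≤ 2 ^ (j + 1) * (2 * m (p - a)) :=
      Nat.mul_le_mul_right _ Nat.one_le_two_pow
    omega
  have hpow : 2 ^ (j + 1) = 2 * 2 ^ j := by ring
  have hT1' : 1 * H ≤ 2 ^ (j + 1) * H := Nat.mul_le_mul_right _ Nat.one_le_two_pow
  -- the numbers
  have hnum : 7 * (2 : ℝ) ^ (p + l) + 1 ≤ κ / 4 * (2 ^ j * 2 ^ p) := by
    have h4 : (2 : ℝ) ^ (l + 3) ≤ 2 ^ (j / 2 + 5) :=
      pow_le_pow_right₀ (by norm_num) (by omega)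
    have h5 : (2 : ℝ) ^ (j / 2) * 2 ^ (j / 2) ≤ 2 ^ j := by
      rw [← pow_add]
      exact pow_le_pow_right₀ (by norm_num) (by omega)
    have h6 : (128 : ℝ) / κ ≤ 2 ^ (j / 2) :=
      hi₁.trans (pow_le_pow_right₀ (by norm_num) (by omega))
    have h7 : (128 : ℝ) ≤ κ * 2 ^ (j / 2) := by
      rw [div_le_iff₀ hκ] at h6
      linarith
    have h8 : (2 : ℝ) ^ (j / 2 + 5) ≤ κ / 4 * 2 ^ j := by
      have h9 : (0 : ℝ) < 2 ^ (j / 2) := by positivity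
      have h10 : (2 : ℝ) ^ (j / 2 + 5) = 32 * 2 ^ (j / 2) := by ring
      have h11 : 128 * (2 : ℝ) ^ (j / 2) ≤ κ * 2 ^ (j / 2) * 2 ^ (j / 2) :=
        mul_le_mul_of_nonneg_right h7 h9.le
      have h12 : κ * (2 ^ (j / 2) * 2 ^ (j / 2)) ≤ κ * 2 ^ j :=
        mul_le_mul_of_nonneg_left h5 hκ.le
      rw [h10]
      linarith
    have h9 : 7 * (2 : ℝ) ^ (p + l) + 1 ≤ 2 ^ (l + 3) * 2 ^ p := by
      have h10 : (2 : ℝ) ^ (l + 3) * 2 ^ p = 8 * 2 ^ (p + l) := by ring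
      have h11 : (1 : ℝ) ≤ 2 ^ (p + l) := one_le_pow₀ (by norm_num)
      rw [h10]
      linarith
    calc 7 * (2 : ℝ) ^ (p + l) + 1 ≤ 2 ^ (l + 3) * 2 ^ p := h9
      _ ≤ (κ / 4 * 2 ^ j) * 2 ^ p := mul_le_mul_of_nonneg_right (h4.trans h8) (by linarith)
      _ = κ / 4 * (2 ^ j * 2 ^ p) := by ring
  have h6 := coreN90 (T₀ := 2 ^ j * H) (T₁ := 2 ^ (j + 1) * H + 2 * m (p - a)) (j := j)
    (θ := κ * 2 ^ j * 2 ^ p - κ / 8 * 2 ^ p) (φ := 2 ^ (p + l)) hC hsing hS (by linarith) hp hm1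
    (by omega) hT1 hlog (by positivity) (fun k hk => hf k (by omega)) (by
      have hFn := (hf _ hT1).2
      have hEn := En_nonneg15 hd hρ β h (2 ^ (j + 1) * H + 2 * m (p - a))
      have h7 : κ / 8 * (2 : ℝ) ^ p ≤ κ / 8 * (2 ^ j * 2 ^ p) :=
        mul_le_mul_of_nonneg_left (le_mul_of_one_le_left (by positivity)
          (one_le_pow₀ (by norm_num))) (by positivity)
      have h8 : 0 < κ * (2 ^ j * 2 ^ p) := by positivity
      have h9 : κ / 2 * (2 ^ j * 2 ^ p) ≤ En ρ β h (2 ^ (j + 1) * H + 2 * m (p - a)) +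
          (κ * 2 ^ j * 2 ^ p - κ / 8 * 2 ^ p) - (3 * 2 ^ (p + l) + 1) -
          4 * Fn ρ β h (2 ^ (j + 1) * H + 2 * m (p - a)) := by nlinarith
      have h10 : 0 < D := by
        by_contra hcon
        push Not at hcon
        nlinarith
      have h11 := mul_le_mul_of_nonneg_left h9 h10.le
      have h12 : D * (κ / 2 * (2 ^ j * 2 ^ p)) = D * κ * (2 ^ j * 2 ^ p / 2) := by ring
      have h13 : 8 * ((2 : ℝ) ^ j * 2 ^ p / 2) ≤ D * κ * (2 ^ j * 2 ^ p / 2) :=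
        mul_le_mul_of_nonneg_right hD (by positivity)
      have h15 : (2 : ℝ) ^ (p + j + 1) = 2 * (2 ^ j * 2 ^ p) := by ring
      have h16 : (1 : ℝ) ≤ 2 ^ j * 2 ^ p := by
        rw [← pow_add]
        exact one_le_pow₀ (by norm_num)
      rw [h15]
      linarith)
  refine le_trans (measureReal_mono ?_ (measure_ne_top _ _)) h6
  rw [hj]
  rintro η ⟨N, hN1, hN2, hN3, s, hs, h7⟩
  have hN4 : 2 ^ (i + 1) * H ≤ N * H := Nat.mul_le_mul_right _ hN1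
  have hN5 : N * H ≤ 2 ^ (i + 1 + 1) * H := Nat.mul_le_mul_right _ hN2.le
  refine ⟨N * H + s, by omega, by omega, ?_⟩
  have h8 : ((N * H + s : ℕ) : ℝ) * lam ρ β h = lam ρ β h * ((N * H + s : ℕ) : ℝ) :=
    mul_comm _ _
  rw [h8] at h7
  have h9 : (2 : ℝ) ^ (i + 1) ≤ N := by exact_mod_cast hN1
  have h10 : κ * 2 ^ (i + 1) * 2 ^ p ≤ κ * N * 2 ^ p :=
    mul_le_mul_of_nonneg_right (mul_le_mul_of_nonneg_left h9 hκ.le) (by linarith)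
  linarith

lemma numN90 {C c R : ℝ} {j : ℕ} (hC : 1 ≤ C) (hcC : c ≤ 1 / (4 * C)) (hR : 0 < R)
    (hRj : R ≤ (1 / 4) ^ (j + 1)) :
    (2 ^ (j + 2) * R) ^ (1 / C) ≤ 2 * (Real.exp (-(c * j)) * R ^ c) := by
  have hC0 : 0 < C := by linarith
  have hR1 : R ≤ 1 := hRj.trans (pow_le_one₀ (by norm_num) (by norm_num))
  set w : ℝ := R ^ (1 / 4 : ℝ) with hw
  have hw0 : 0 < w := Real.rpow_pos_of_pos hR _
  have hw4 : w ^ 4 = R := by
    rw [hw, ← Real.rpow_natCast, ← Real.rpow_mul hR.le]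
    norm_num
  -- `2 ^ (j+2) R ≤ 2 * (2 ^ (-1/2)) ^ j w`
  set z : ℝ := Real.exp (-(Real.log 2 / 2)) with hz
  have hz0 : 0 < z := Real.exp_pos _
  have hz2 : z ^ 2 = 1 / 2 := by
    rw [hz, ← Real.exp_nat_mul]
    push_cast
    rw [show (2 : ℝ) * -(Real.log 2 / 2) = -Real.log 2 by ring, Real.exp_neg,
      Real.exp_log (by norm_num)]
    norm_num
  have h3 : (2 : ℝ) ^ (j + 2) * R ≤ 2 * (z ^ j * w) := by
    -- w ^ 3 ≤ z ^ (3 (j+1))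
    have h4 : w ≤ z ^ (j + 1) := by
      refine (pow_le_pow_iff_left₀ hw0.le (by positivity) (show (4 : ℕ) ≠ 0 by norm_num)).1 ?_
      rw [hw4]
      refine hRj.trans (le_of_eq ?_)
      rw [← pow_mul, mul_comm (j + 1) 4, pow_mul, show (4 : ℕ) = 2 * 2 by norm_num, pow_mul, hz2]
      norm_num
    have h5 : w ^ 3 ≤ (z ^ (j + 1)) ^ 3 := pow_le_pow_left₀ hw0.le h4 3
    have h6 : (2 : ℝ) ^ (j + 2) * (z ^ (j + 1)) ^ 3 ≤ 2 * z ^ j := by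
      have e1 : (2 : ℝ) ^ (j + 2) * (z ^ (j + 1)) ^ 3 =
          2 * ((2 * z ^ 2) ^ (j + 1) * z ^ (j + 1)) := by
        rw [mul_pow]
        ring
      rw [e1, hz2]
      norm_num
      have : z ≤ 1 := by
        rw [hz, Real.exp_le_one_iff]
        have := Real.log_nonneg (by norm_num : (1 : ℝ) ≤ 2)
        linarith
      exact pow_le_pow_of_le_one hz0.le this (Nat.le_succ j)
    calc (2 : ℝ) ^ (j + 2) * R = 2 ^ (j + 2) * w ^ 3 * w := by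
          rw [← hw4]
          ring
      _ ≤ 2 ^ (j + 2) * (z ^ (j + 1)) ^ 3 * w :=
          mul_le_mul_of_nonneg_right (mul_le_mul_of_nonneg_left h5 (by positivity)) hw0.le
      _ ≤ 2 * z ^ j * w := mul_le_mul_of_nonneg_right h6 hw0.le
      _ = 2 * (z ^ j * w) := by ring
  refine (Real.rpow_le_rpow (by positivity) h3 (by positivity)).trans ?_
  rw [Real.mul_rpow (by norm_num) (by positivity), Real.mul_rpow (by positivity) hw0.le]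
  refine mul_le_mul ?_ (mul_le_mul ?_ ?_ (by positivity) (Real.exp_pos _).le) (by positivity)
    (by norm_num)
  · calc (2 : ℝ) ^ (1 / C) ≤ (2 : ℝ) ^ (1 : ℝ) :=
          Real.rpow_le_rpow_of_exponent_le (by norm_num) (by
            rw [div_le_one hC0]
            exact hC)
      _ = 2 := Real.rpow_one _
  · have h5 : z ^ j = Real.exp (-(Real.log 2 / 2 * j)) := by
      rw [hz, ← Real.exp_nat_mul]
      congr 1
      ring
    rw [h5, ← Real.exp_mul]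
    refine Real.exp_le_exp.2 ?_
    have h6 := Real.log_two_gt_d9
    have h7 : (0 : ℝ) ≤ j := Nat.cast_nonneg _
    have h8 : c ≤ Real.log 2 / 2 * (1 / C) := by
      refine hcC.trans ?_
      have h9 : 1 / (4 * C) = 1 / 4 * (1 / C) := by
        field_simp
      rw [h9]
      exact mul_le_mul_of_nonneg_right (by linarith) (by positivity)
    have h9 : c * j ≤ Real.log 2 / 2 * (1 / C) * j := mul_le_mul_of_nonneg_right h8 h7
    have h10 : -(Real.log 2 / 2 * j) * (1 / C) = -(Real.log 2 / 2 * (1 / C) * j) := by ring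
    rw [h10]
    linarith
  · rw [hw, ← Real.rpow_mul hR.le]
    refine Real.rpow_le_rpow_of_exponent_ge hR hR1 (hcC.trans (le_of_eq ?_))
    field_simp

/-- **Leaf COSTN.** -/
theorem costN90 {d : ℕ} {ρ : Measure ℝ} [IsProbabilityMeasure ρ] {β : ℝ} (hd : 0 < d)
    (hρ : EM ρ) (hG : GrowN d ρ β) : CostN d ρ β := by
  have hSing := singX90 hd hρ hG
  intro c₀ κ Λ hc₀ hκ hκ1 hΛ
  obtain ⟨i₁, hi₁⟩ : ∃ i₁ : ℕ, 128 / κ < 2 ^ i₁ := pow_unbounded_of_one_lt _ (by norm_num)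
  obtain ⟨a₁, ha₁⟩ : ∃ a₁ : ℕ, 256 / κ < 2 ^ a₁ := pow_unbounded_of_one_lt _ (by norm_num)
  set i₀ : ℕ := 2 * i₁ with hi₀
  set D : ℝ := 2 ^ (i₀ + 3) / κ with hD
  have hDκ : D * κ = 2 ^ (i₀ + 3) := by
    rw [hD]
    field_simp
  have h8 : (8 : ℝ) ≤ 2 ^ (i₀ + 3) := by
    have : (2 : ℝ) ^ 3 ≤ 2 ^ (i₀ + 3) := pow_le_pow_right₀ (by norm_num) (by omega)
    linarith
  have hD1 : 1 ≤ D := by
    rw [hD, le_div_iff₀ hκ]
    linarith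
  obtain ⟨C₁, hC₁, hsg⟩ := hSing c₀ D hc₀ hD1
  have hC₁0 : 0 < C₁ := by linarith
  set c : ℝ := 1 / (4 * C₁) with hc
  have hc0 : 0 < c := by positivity
  have hc1 : c ≤ 1 / 4 := by
    rw [hc, div_le_div_iff₀ (by positivity) (by norm_num)]
    linarith
  have hc3 : c ≤ 1 / C₁ := by
    rw [hc]
    exact one_div_le_one_div_of_le hC₁0 (by linarith)
  set E : ℝ := C₁ * 2 ^ (2 * i₀ + 2) * Real.exp i₀ with hE
  have hE1 : 1 ≤ Real.exp (i₀ : ℝ) := Real.one_le_exp (Nat.cast_nonneg _)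
  have h2p : (4 : ℝ) ≤ 2 ^ (2 * i₀ + 2) := by
    have : (2 : ℝ) ^ 2 ≤ 2 ^ (2 * i₀ + 2) := pow_le_pow_right₀ (by norm_num) (by omega)
    linarith
  have hEb : 4 * C₁ ≤ E := by
    calc 4 * C₁ = C₁ * 4 * 1 := by ring
      _ ≤ C₁ * 2 ^ (2 * i₀ + 2) * Real.exp i₀ :=
        mul_le_mul (mul_le_mul_of_nonneg_left h2p hC₁0.le) hE1 (by norm_num) (by positivity)
  have hEC : C₁ ≤ E := by linarith
  refine ⟨max (max 3 a₁) (i₀ + 1), 2 ^ (i₀ + 1), κ / 64, c, E, by positivity, hc0,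
    by linarith, ?_⟩
  intro a ha h hL n m I hS hlog hp' hpI i
  have ha3 : 3 ≤ a := le_trans (le_trans (le_max_left _ _) (le_max_left _ _)) ha
  have haa : a₁ ≤ a := le_trans (le_trans (le_max_right _ _) (le_max_left _ _)) ha
  have haκ : 256 / κ ≤ 2 ^ a := ha₁.le.trans (pow_le_pow_right₀ (by norm_num) haa)
  obtain ⟨p, hpp⟩ : ∃ p : ℕ, p = hp' := ⟨_, rfl⟩
  rw [← hpp] at hpI ⊢
  have hp := hpI
  have hsing : SgL90 ρ β h D C₁ := hsg h hL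
  have hε0 : 0 < κ / 64 := by positivity
  have hε1 : κ / 64 < 1 := by linarith
  have hB1 : 1 ≤ 2 ^ (i₀ + 1) := Nat.one_le_two_pow
  obtain ⟨hap, hm2⟩ := hS.big p hp
  have hm1 : 1 ≤ m p := by
    have : m (p - a) ≤ m p := hS.mono90 (Nat.sub_le p a)
    omega
  have hmm : m p ≤ m (p + i + 1) := hS.mono90 (by omega)
  have hm0' : (0 : ℝ) < m p := by exact_mod_cast (by omega : 0 < m p)
  have hν0' : (0 : ℝ) < m (p + i + 1) := by exact_mod_cast (by omega : 0 < m (p + i + 1))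
  have hlogi : C₁ * (1 + Real.log (m (p + i + 1))) ≤ 2 ^ i * 2 ^ p := by
    refine le_trans (mul_le_mul_of_nonneg_right hEC ?_) (hlog p hp i)
    have h3 : (1 : ℝ) ≤ m (p + i + 1) := by exact_mod_cast (by omega : 1 ≤ m (p + i + 1))
    have := Real.log_nonneg h3
    linarith
  have hR0 : 0 < (m p : ℝ) / m (p + i + 1) := by positivity
  have hR1 : (m p : ℝ) / m (p + i + 1) ≤ 1 := by
    rw [div_le_one hν0']
    exact_mod_cast hmm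
  have hRc0 : 0 ≤ ((m p : ℝ) / m (p + i + 1)) ^ c := Real.rpow_nonneg hR0.le _
  have hex1 : ∀ j : ℕ, j ≤ i₀ → 1 ≤ Real.exp i₀ * Real.exp (-(c * j)) := by
    intro j hj
    rw [← Real.exp_add]
    refine Real.one_le_exp ?_
    have h9 : (j : ℝ) ≤ i₀ := by exact_mod_cast hj
    have h10 : (0 : ℝ) ≤ j := Nat.cast_nonneg _
    nlinarith
  -- a small group
  have hsmall : ∀ j : ℕ, j ≤ i₀ → ∀ P : ℝ, P ≤ 2 ^ j * (C₁ * (2 ^ (j + 2) *
      ((m p : ℝ) / m (p + i + 1))) ^ (1 / C₁)) →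
      P ≤ E * Real.exp (-(c * j)) * ((m p : ℝ) / m (p + i + 1)) ^ c := by
    intro j hj P hP
    refine hP.trans ?_
    have h9 := numS90 (j := j) hC₁ hc3 hR0 hR1
    have h10 : (2 : ℝ) ^ j * 2 ^ (j + 2) ≤ 2 ^ (2 * i₀ + 2) := by
      rw [← pow_add]
      exact pow_le_pow_right₀ (by norm_num) (by omega)
    calc (2 : ℝ) ^ j * (C₁ * (2 ^ (j + 2) * ((m p : ℝ) / m (p + i + 1))) ^ (1 / C₁))
        ≤ 2 ^ j * (C₁ * (2 ^ (j + 2) * ((m p : ℝ) / m (p + i + 1)) ^ c)) :=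
          mul_le_mul_of_nonneg_left (mul_le_mul_of_nonneg_left h9 hC₁0.le) (by positivity)
      _ = C₁ * (2 ^ j * 2 ^ (j + 2)) * ((m p : ℝ) / m (p + i + 1)) ^ c := by ring
      _ ≤ C₁ * 2 ^ (2 * i₀ + 2) * ((m p : ℝ) / m (p + i + 1)) ^ c :=
          mul_le_mul_of_nonneg_right (mul_le_mul_of_nonneg_left h10 hC₁0.le) hRc0
      _ = C₁ * 2 ^ (2 * i₀ + 2) * 1 * ((m p : ℝ) / m (p + i + 1)) ^ c := by ring
      _ ≤ C₁ * 2 ^ (2 * i₀ + 2) * (Real.exp i₀ * Real.exp (-(c * j))) *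
          ((m p : ℝ) / m (p + i + 1)) ^ c :=
          mul_le_mul_of_nonneg_right (mul_le_mul_of_nonneg_left (hex1 j hj) (by positivity)) hRc0
      _ = E * Real.exp (-(c * j)) * ((m p : ℝ) / m (p + i + 1)) ^ c := by
          rw [hE]
          ring
  rcases i with _ | i
  · -- group 0
    have h9 := zeroN90 (n := n) hd hρ hC₁ hsing hS hB1 (by linarith) hε0 hκ hκ1 le_rfl hp ha3 haκ
      (by rw [hDκ]; exact h8) hlogi
    refine hsmall 0 (Nat.zero_le _) _ ?_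
    rw [pow_zero, one_mul]
    exact h9
  rcases Nat.lt_or_ge i₀ (i + 1) with hbig | hle
  swap
  · have h9 := smallN90 (n := n) (i₀ := i₀) (i := i) hd hρ hC₁ hsing hS (by linarith) hε0 hκ hκ1
      le_rfl hp ha3 haκ (by rw [hDκ]) hle le_rfl hlogi
    exact hsmall (i + 1) hle _ h9
  -- the large groups
  have h9 := midN90 (n := n) (i₁ := i₁) (i := i) hd hρ hC₁ hsing hS hB1 hΛ.le hε1 hκ hp ha3 hi₁.le
    (by rw [hDκ]; exact h8) (by omega) hlogi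
  have h12 : (m p : ℝ) / m (p + (i + 1) + 1) ≤ (1 / 4) ^ (i + 1 + 1) := by
    rw [div_le_iff₀ hν0', one_div, inv_pow, inv_mul_eq_div, le_div_iff₀ (by positivity)]
    have h13 := hS.nc p hp (i + 1)
    have h14 : (4 : ℝ) ^ (i + 1 + 1) * m p ≤ Λ ^ (i + 1 + 1) * m p :=
      mul_le_mul_of_nonneg_right (pow_le_pow_left₀ (by norm_num) hΛ.le _) hm0'.le
    linarith
  have h13 := numN90 (j := i + 1) hC₁ (le_refl c) hR0 h12
  refine h9.trans ((mul_le_mul_of_nonneg_left h13 hC₁0.le).trans ?_)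
  rw [← mul_assoc, ← mul_assoc]
  refine mul_le_mul_of_nonneg_right (mul_le_mul_of_nonneg_right ?_ (Real.exp_pos _).le) hRc0
  linarith

end Pool.Agent.W_7d29a1_SNP
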