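import Pool.Agent.W_7d29a1_SNP.Exc7
import Pool.Agent.W_7d29a1_SNP.DefsN28

/-!
Leaf EXC: at a level which is not cheap the nonrandom fluctuation is of the order of the level
(helper7).
-/

set_option autoImplicit false

namespace Pool.Agent.W_7d29a1_SNP

open MeasureTheory ProbabilityTheory Filter Topology Pool.Agent.W_MP_7d29a1_pr
  Pool.Agent.W_7d29a1_h46 Pool.Agent.W_7d29a1_h46u Pool.Agent.W_7d29a1_D2.B35
  Pool.Agent.W_7d29a1_Q29 Pool.Agent.W_7d29a1_R34 Pool.Agent.W_7d29a1_SP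
  Pool.Agent.W_7d29a1_PL

variable {d : ℕ} {ρ : Measure ℝ}

/-- The choice of the number of blocks. -/
lemma choose7 {Λ C : ℝ} (hΛ : 4 < Λ) : ∃ (j b : ℕ), (b : ℝ) ^ 2 ≤ Λ ^ (j + 1) ∧ C ≤ b ∧
    16 * (2 : ℝ) ^ (j + 1) ≤ b := by
  set q : ℝ := √Λ / 2 with hq
  have hΛ0 : 0 ≤ Λ := by linarith
  have h2 : √Λ = 2 * q := by rw [hq]; ring
  have hsq : √Λ ^ 2 = Λ := Real.sq_sqrt hΛ0
  have hs2 : 2 < √Λ := by
    rw [show (2 : ℝ) = √4 by
      rw [show (4 : ℝ) = 2 ^ 2 by norm_num]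
      exact (Real.sqrt_sq (by norm_num)).symm]
    exact Real.sqrt_lt_sqrt (by norm_num) hΛ
  have hq1 : 1 < q := by linarith
  obtain ⟨k, hk⟩ := pow_unbounded_of_one_lt (17 + |C|) hq1
  have hk' : 17 + |C| < q ^ (k + 1) := hk.trans (pow_lt_pow_right₀ hq1 (Nat.lt_succ_self k))
  have h1 : √Λ ^ (k + 1) = 2 ^ (k + 1) * q ^ (k + 1) := by rw [h2, mul_pow]
  have h3 : (1 : ℝ) ≤ 2 ^ (k + 1) := one_le_pow₀ (by norm_num)
  have h4 : √Λ ^ (k + 1) < ⌊√Λ ^ (k + 1)⌋₊ + 1 := Nat.lt_floor_add_one _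
  refine ⟨k, ⌊√Λ ^ (k + 1)⌋₊, ?_, ?_, ?_⟩
  · have h5 : (⌊√Λ ^ (k + 1)⌋₊ : ℝ) ≤ √Λ ^ (k + 1) := Nat.floor_le (by positivity)
    have h6 := pow_le_pow_left₀ (Nat.cast_nonneg _) h5 2
    rw [← pow_mul, mul_comm (k + 1) 2, pow_mul, hsq] at h6
    exact h6
  · have h5 : C ≤ |C| := le_abs_self C
    have h6 : q ^ (k + 1) ≤ 2 ^ (k + 1) * q ^ (k + 1) :=
      le_mul_of_one_le_left (by positivity) h3
    rw [← h1] at h6
    have h7 := abs_nonneg C
    linarith
  · have h6 : (2 : ℝ) ^ (k + 1) * 17 ≤ 2 ^ (k + 1) * q ^ (k + 1) :=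
      mul_le_mul_of_nonneg_left (by linarith [abs_nonneg C]) (by positivity)
    rw [← h1] at h6
    linarith

lemma cardeq7 (d t : ℕ) : (boxF d t).card = (2 * t + 1) ^ d := by
  unfold boxF
  rw [Fintype.card_piFinset, Finset.prod_const, Finset.card_univ, Fintype.card_fin,
    Int.card_Icc]
  congr 1
  omega

/-- The logarithm of the number of end points. -/
lemma logbox7 {m b : ℕ} (hm : 1 ≤ m) (hb : 1 ≤ b) :
    Real.log (boxF d (b ^ 2 * m)).card ≤ d * (2 + 2 * Real.log b) * (1 + Real.log m) := by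
  have hm0 : (1 : ℝ) ≤ m := by exact_mod_cast hm
  have hb0 : (1 : ℝ) ≤ b := by exact_mod_cast hb
  have h1 : ((boxF d (b ^ 2 * m)).card : ℝ) ≤ (3 * (b ^ 2 * m : ℝ)) ^ d := by
    rw [cardeq7]
    push_cast
    refine pow_le_pow_left₀ (by positivity) ?_ d
    have : (1 : ℝ) ≤ b ^ 2 * m := by
      have := one_le_pow₀ hb0 (n := 2)
      nlinarith
    linarith
  have h2 := Real.log_le_log (card7 (d := d) (b ^ 2 * m)) h1
  rw [Real.log_pow, Real.log_mul (by norm_num) (by positivity),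
    Real.log_mul (by positivity) (by positivity), Real.log_pow] at h2
  have h3 : Real.log 3 ≤ 2 := by
    have := Real.log_le_sub_one_of_pos (show (0 : ℝ) < 3 by norm_num)
    linarith
  have h4 : 0 ≤ Real.log m := Real.log_nonneg hm0
  have h5 : 0 ≤ Real.log b := Real.log_nonneg hb0
  refine h2.trans ?_
  rw [mul_assoc]
  refine mul_le_mul_of_nonneg_left ?_ (Nat.cast_nonneg _)
  push_cast
  nlinarith [mul_nonneg h4 h5]

/-- **EXC** (`ExcN`) from VAR. -/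
theorem excN7 [IsProbabilityMeasure ρ] {β : ℝ} (hd : 0 < d) (hρ : EM ρ) (hV : VarN d ρ β) :
    ExcN d ρ β := by
  intro c₀ Λ hc hΛ
  obtain ⟨C₁, hC₁, H⟩ := hV c₀ Λ 1 hc hΛ
  obtain ⟨j, b, hb1, hb2, hb3⟩ := choose7 (Λ := Λ) (C := 64 * C₁) hΛ
  have hb0 : (64 : ℝ) ≤ b := by linarith
  have hbp : (0 : ℝ) < b := by linarith
  have hbn : 1 ≤ b := by exact_mod_cast (show (1 : ℝ) ≤ b by linarith)
  have hlb : 0 ≤ Real.log b := Real.log_nonneg (by linarith)
  set C₂ : ℝ := 256 * b * (d * (2 + 2 * Real.log b)) with hC₂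
  have hC₂0 : 0 ≤ C₂ := by positivity
  refine ⟨1, 1 / (128 * b), C₁ + C₂, le_rfl, by positivity, ?_, by linarith, ?_⟩
  · rw [div_le_one (by positivity)]
    linarith
  intro h hL m p hm hn hm1 hlog
  refine ⟨m p, hm1, by rw [one_mul], ?_⟩
  by_contra hcon
  rw [not_le] at hcon
  have hlm : 0 ≤ Real.log (m p) := Real.log_nonneg (by exact_mod_cast hm1)
  set x : ℝ := 2 ^ p with hx
  have hx0 : 0 < x := by positivity
  have hl1 : C₁ ≤ x := by
    have h1 : C₁ ≤ (C₁ + C₂) * (1 + Real.log (m p)) := by nlinarith [mul_nonneg hC₂0 hlm]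
    linarith
  have hl2 : C₂ * (1 + Real.log (m p)) ≤ x := by
    have h1 : 0 ≤ C₁ * (1 + Real.log (m p)) := by positivity
    rw [add_mul] at hlog
    linarith
  have hx4 : x ^ 2 = 4 ^ p := by
    rw [hx, ← pow_mul, mul_comm, pow_mul]
    norm_num
  have hV1 := (H h hL m p hm hn hm1 hl1 (m p) (by rw [one_mul])).1
  rw [← hx4] at hV1
  have he1 : 1 / (128 * (b : ℝ)) * x ≤ x := by
    refine mul_le_of_le_one_left hx0.le ?_
    rw [div_le_one (by positivity)]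
    linarith
  have hF1 : x ≤ Fn ρ β h (m p) := by
    have h1 := hm.hi p
    unfold fM at h1
    rcases le_max_iff.1 h1 with h2 | h2
    · exact absurd h2 (not_le.2 (by linarith))
    · exact h2
  have hE1 : 64 * b * (En ρ β h (m p) + 2 * Real.log (boxF d (b ^ 2 * m p)).card) ≤ x := by
    have h1 : 64 * b * En ρ β h (m p) ≤ x / 2 := by
      have h2 := mul_le_mul_of_nonneg_left hcon.le (show (0 : ℝ) ≤ 64 * b by positivity)
      refine h2.trans (le_of_eq ?_)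
      field_simp
      norm_num
    have h3 := mul_le_mul_of_nonneg_left (logbox7 (d := d) hm1 hbn)
      (show (0 : ℝ) ≤ 128 * b by positivity)
    have h4 : 128 * b * (d * (2 + 2 * Real.log b) * (1 + Real.log (m p))) ≤ x / 2 := by
      have h5 : 128 * b * (d * (2 + 2 * Real.log b) * (1 + Real.log (m p))) =
          C₂ * (1 + Real.log (m p)) / 2 := by
        rw [hC₂]
        ring
      rw [h5]
      linarith
    linarith
  have h1 := exc7 (ρ := ρ) hd hρ β h (m p) b hx0 hC₁ hb2 hF1 hV1 hE1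
  have h2 : b ^ 2 * m p < m (p + j + 1) := by
    have h3 := hn j
    have h4 : (b : ℝ) ^ 2 * m p ≤ Λ ^ (j + 1) * m p :=
      mul_le_mul_of_nonneg_right hb1 (Nat.cast_nonneg _)
    exact_mod_cast h4.trans_lt h3
  have h3 := hm.lo (p + j + 1) _ h2
  have h4 : Fn ρ β h (b ^ 2 * m p) ≤ fM ρ β h (b ^ 2 * m p) := le_max_right _ _
  have h5 : (2 : ℝ) ^ (p + j + 1) = 2 ^ (j + 1) * x := by
    rw [hx, ← pow_add]
    congr 1
    omega
  rw [h5] at h3
  have h6 : 16 * (2 : ℝ) ^ (j + 1) * x ≤ b * x := mul_le_mul_of_nonneg_right hb3 hx0.le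
  linarith

end Pool.Agent.W_7d29a1_SNP
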