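import Mathlib

/-!
Theorem SNP, (EXM), the abstract part: exponential moments of a sum of bounded functionals whose
conditional means are controlled by a potential (helper45).
-/

namespace Pool.Agent.W_7d29a1_SNP

open MeasureTheory ProbabilityTheory Filter Topology

variable {Ω : Type*}

/-- The exponential weight. -/
noncomputable def wE (lam : ℝ) (ψ : ℕ → Ω → ℝ) (i : ℕ) (ω : Ω) : ℝ :=
  Real.exp (lam * ∑ j ∈ Finset.Icc 1 i, ψ j ω)

lemma wE_zero45 (lam : ℝ) (ψ : ℕ → Ω → ℝ) (ω : Ω) : wE lam ψ 0 ω = 1 := by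
  simp [wE]

lemma wE_succ45 (lam : ℝ) (ψ : ℕ → Ω → ℝ) (i : ℕ) (ω : Ω) :
    wE lam ψ (i + 1) ω = wE lam ψ i ω * Real.exp (lam * ψ (i + 1) ω) := by
  unfold wE
  rw [← Real.exp_add, Finset.sum_Icc_succ_top (by omega)]
  congr 1
  ring

lemma wE_pos45 (lam : ℝ) (ψ : ℕ → Ω → ℝ) (i : ℕ) (ω : Ω) : 0 < wE lam ψ i ω := Real.exp_pos _

lemma wE_meas45 [MeasurableSpace Ω] {lam : ℝ} {ψ : ℕ → Ω → ℝ} (hm : ∀ j, Measurable (ψ j)) (i : ℕ) :
    Measurable (wE lam ψ i) := by
  unfold wE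
  exact Real.measurable_exp.comp ((Finset.measurable_sum _ fun j _ => hm j).const_mul lam)

lemma wE_le45 {lam b : ℝ} {ψ : ℕ → Ω → ℝ} (hlam : 0 ≤ lam) (hb : ∀ j ω, |ψ j ω| ≤ b) (i : ℕ)
    (ω : Ω) : wE lam ψ i ω ≤ Real.exp (lam * (i * b)) := by
  unfold wE
  refine Real.exp_le_exp.2 (mul_le_mul_of_nonneg_left ?_ hlam)
  calc ∑ j ∈ Finset.Icc 1 i, ψ j ω ≤ ∑ _j ∈ Finset.Icc 1 i, b :=
        Finset.sum_le_sum fun j _ => (le_abs_self _).trans (hb j ω)
    _ = i * b := by simp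

lemma wE_int45 [MeasurableSpace Ω] {P : Measure Ω} [IsProbabilityMeasure P] {lam b : ℝ} {ψ : ℕ → Ω → ℝ}
    (hlam : 0 ≤ lam) (hm : ∀ j, Measurable (ψ j)) (hb : ∀ j ω, |ψ j ω| ≤ b) (i : ℕ) {f : Ω → ℝ}
    (hf : Integrable f P) : Integrable (fun ω => wE lam ψ i ω * f ω) P := by
  refine hf.bdd_mul (c := Real.exp (lam * (i * b))) (wE_meas45 hm i).aestronglyMeasurable
    (Eventually.of_forall fun ω => ?_)
  rw [Real.norm_of_nonneg (wE_pos45 lam ψ i ω).le]
  exact wE_le45 hlam hb i ω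

/-- **The recursion.** -/
theorem expRec45 [MeasurableSpace Ω] {P : Measure Ω} [IsProbabilityMeasure P] {lam μ κ κ₁ κ₂ b : ℝ} {k : ℕ}
    {ψ Pt : ℕ → Ω → ℝ} (hm : ∀ j, Measurable (ψ j)) (hb : ∀ j ω, |ψ j ω| ≤ b)
    (hP0 : ∀ j ω, 0 ≤ Pt j ω) (hPi : ∀ j, Integrable (Pt j) P) (hz : ∀ ω, Pt 0 ω = 0)
    (hlam : 0 ≤ lam) (hμ : 0 ≤ μ) (hκ₁ : 0 ≤ κ₁) (hlb : lam * b ≤ 1)
    (hs : lam * κ₂ + 3 * κ ≤ 1)
    (h1 : ∀ i < k, ∫ ω, wE lam ψ i ω * ψ (i + 1) ω ∂P ≤
      ∫ ω, wE lam ψ i ω * (μ + κ₂ * Pt i ω) ∂P)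
    (h2 : ∀ i < k, ∫ ω, wE lam ψ i ω * Pt (i + 1) ω ∂P ≤
      ∫ ω, wE lam ψ i ω * (κ * Pt i ω + κ₁) ∂P) :
    ∫ ω, wE lam ψ k ω ∂P ≤ (1 + lam * μ + lam ^ 2 * b ^ 2 + 3 * κ₁) ^ k := by
  obtain ⟨R, hR⟩ : ∃ R : ℝ, R = 1 + lam * μ + lam ^ 2 * b ^ 2 + 3 * κ₁ := ⟨_, rfl⟩
  have hlm : 0 ≤ lam * μ := mul_nonneg hlam hμ
  have hR1 : 1 ≤ R := by rw [hR]; nlinarith [sq_nonneg (lam * b)]
  rw [← hR]
  have hψi : ∀ j, Integrable (ψ j) P := fun j =>
    Integrable.of_bound (C := b) (hm j).aestronglyMeasurable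
      (Eventually.of_forall fun ω => by rw [Real.norm_eq_abs]; exact hb j ω)
  have key : ∀ i ≤ k, ∫ ω, wE lam ψ i ω * (1 + Pt i ω) ∂P ≤ R ^ i := by
    intro i
    induction i with
    | zero =>
      intro _
      simp [wE_zero45, hz]
    | succ i ih =>
      intro hi
      have hik : i < k := by omega
      have ih' := ih hik.le
      have I1 : Integrable (fun ω => wE lam ψ i ω * (1 + Pt i ω)) P :=
        wE_int45 hlam hm hb i ((integrable_const 1).add (hPi i))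
      have Iw : Integrable (fun ω => wE lam ψ i ω * (1 : ℝ)) P :=
        wE_int45 hlam hm hb i (integrable_const 1)
      have Iψ : Integrable (fun ω => wE lam ψ i ω * ψ (i + 1) ω) P :=
        wE_int45 hlam hm hb i (hψi (i + 1))
      have IP : Integrable (fun ω => wE lam ψ i ω * Pt (i + 1) ω) P :=
        wE_int45 hlam hm hb i (hPi (i + 1))
      have Ip : Integrable (fun ω => wE lam ψ i ω * Pt i ω) P :=
        wE_int45 hlam hm hb i (hPi i)
      have step : ∀ ω, wE lam ψ (i + 1) ω * (1 + Pt (i + 1) ω) ≤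
          (1 + lam ^ 2 * b ^ 2) * (wE lam ψ i ω * 1) + lam * (wE lam ψ i ω * ψ (i + 1) ω) +
            3 * (wE lam ψ i ω * Pt (i + 1) ω) := by
        intro ω
        rw [wE_succ45]
        have hw := wE_pos45 lam ψ i ω
        have hbω := hb (i + 1) ω
        obtain ⟨z, hz'⟩ : ∃ z : ℝ, z = lam * ψ (i + 1) ω := ⟨_, rfl⟩
        have hzabs : |z| ≤ 1 := by
          rw [hz', abs_mul, abs_of_nonneg hlam]
          exact (mul_le_mul_of_nonneg_left hbω hlam).trans hlb
        have hz2 : z ^ 2 ≤ lam ^ 2 * b ^ 2 := by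
          rw [hz', mul_pow]
          refine mul_le_mul_of_nonneg_left ?_ (sq_nonneg _)
          rw [← sq_abs]
          exact pow_le_pow_left₀ (abs_nonneg _) hbω 2
        have he1 : Real.exp z ≤ 1 + z + z ^ 2 := by
          have h := Real.abs_exp_sub_one_sub_id_le hzabs
          have h' := le_abs_self (Real.exp z - 1 - z)
          linarith
        have he3 : Real.exp z ≤ 3 := by
          have h1 : z ≤ 1 := (le_abs_self z).trans hzabs
          have h2 : Real.exp z ≤ Real.exp 1 := Real.exp_le_exp.2 h1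
          have h3 := Real.exp_one_lt_d9
          linarith
        rw [← hz']
        have hp := hP0 (i + 1) ω
        have e1 : wE lam ψ i ω * Real.exp z ≤
            wE lam ψ i ω * (1 + lam ^ 2 * b ^ 2) + lam * (wE lam ψ i ω * ψ (i + 1) ω) := by
          have h4 : wE lam ψ i ω * Real.exp z ≤ wE lam ψ i ω * (1 + z + lam ^ 2 * b ^ 2) :=
            mul_le_mul_of_nonneg_left (by linarith) hw.le
          rw [hz'] at h4 ⊢
          linarith
        have e2 : wE lam ψ i ω * Real.exp z * Pt (i + 1) ω ≤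
            3 * (wE lam ψ i ω * Pt (i + 1) ω) := by
          have h5 : 0 ≤ wE lam ψ i ω * Pt (i + 1) ω := mul_nonneg hw.le hp
          have h6 : Real.exp z * (wE lam ψ i ω * Pt (i + 1) ω) ≤
              3 * (wE lam ψ i ω * Pt (i + 1) ω) := mul_le_mul_of_nonneg_right he3 h5
          linarith
        linarith
      have hint : ∫ ω, wE lam ψ (i + 1) ω * (1 + Pt (i + 1) ω) ∂P ≤
          (1 + lam ^ 2 * b ^ 2) * (∫ ω, wE lam ψ i ω * (1 : ℝ) ∂P) +
            lam * (∫ ω, wE lam ψ i ω * ψ (i + 1) ω ∂P) +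
            3 * (∫ ω, wE lam ψ i ω * Pt (i + 1) ω ∂P) := by
        have h3 := integral_mono (μ := P)
          (wE_int45 hlam hm hb (i + 1) ((integrable_const 1).add (hPi (i + 1))))
          (((Iw.const_mul (1 + lam ^ 2 * b ^ 2)).add (Iψ.const_mul lam)).add
            (IP.const_mul 3)) step
        have e0 := integral_add' (μ := P)
          ((Iw.const_mul (1 + lam ^ 2 * b ^ 2)).add (Iψ.const_mul lam)) (IP.const_mul 3)
        rw [integral_add' (Iw.const_mul (1 + lam ^ 2 * b ^ 2)) (Iψ.const_mul lam),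
          integral_const_mul, integral_const_mul, integral_const_mul] at e0
        exact h3.trans (le_of_eq e0)
      have e1 : ∫ ω, wE lam ψ i ω * (μ + κ₂ * Pt i ω) ∂P =
          μ * (∫ ω, wE lam ψ i ω * (1 : ℝ) ∂P) + κ₂ * (∫ ω, wE lam ψ i ω * Pt i ω ∂P) := by
        rw [← integral_const_mul, ← integral_const_mul,
          ← integral_add (Iw.const_mul μ) (Ip.const_mul κ₂)]
        refine integral_congr_ae (Eventually.of_forall fun ω => ?_)
        show _ = _
        ring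
      have e2 : ∫ ω, wE lam ψ i ω * (κ * Pt i ω + κ₁) ∂P =
          κ * (∫ ω, wE lam ψ i ω * Pt i ω ∂P) + κ₁ * (∫ ω, wE lam ψ i ω * (1 : ℝ) ∂P) := by
        rw [← integral_const_mul, ← integral_const_mul,
          ← integral_add (Ip.const_mul κ) (Iw.const_mul κ₁)]
        refine integral_congr_ae (Eventually.of_forall fun ω => ?_)
        show _ = _
        ring
      have e3 : ∫ ω, wE lam ψ i ω * (1 + Pt i ω) ∂P =
          (∫ ω, wE lam ψ i ω * (1 : ℝ) ∂P) + (∫ ω, wE lam ψ i ω * Pt i ω ∂P) := by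
        rw [← integral_add Iw Ip]
        refine integral_congr_ae (Eventually.of_forall fun ω => ?_)
        show _ = _
        ring
      have g1 := h1 i hik
      have g2 := h2 i hik
      rw [e1] at g1
      rw [e2] at g2
      rw [e3] at ih'
      obtain ⟨a, ha⟩ : ∃ a : ℝ, a = ∫ ω, wE lam ψ i ω * (1 : ℝ) ∂P := ⟨_, rfl⟩
      obtain ⟨c, hc⟩ : ∃ c : ℝ, c = ∫ ω, wE lam ψ i ω * Pt i ω ∂P := ⟨_, rfl⟩
      have ha0 : 0 ≤ a := by
        rw [ha]
        exact integral_nonneg fun ω => mul_nonneg (wE_pos45 lam ψ i ω).le zero_le_one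
      have hc0 : 0 ≤ c := by
        rw [hc]
        exact integral_nonneg fun ω => mul_nonneg (wE_pos45 lam ψ i ω).le (hP0 i ω)
      rw [← ha, ← hc] at g1 g2 ih'
      rw [← ha] at hint
      have g3 := mul_le_mul_of_nonneg_left g1 hlam
      have g4 : (lam * κ₂ + 3 * κ) * c ≤ R * c := mul_le_mul_of_nonneg_right (by linarith) hc0
      have g5 : R * (a + c) ≤ R * R ^ i := mul_le_mul_of_nonneg_left ih' (by linarith)
      have g6 : R * a = (1 + lam * μ + lam ^ 2 * b ^ 2 + 3 * κ₁) * a := by rw [hR]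
      calc ∫ ω, wE lam ψ (i + 1) ω * (1 + Pt (i + 1) ω) ∂P ≤ _ := hint
        _ ≤ (1 + lam ^ 2 * b ^ 2) * a + lam * (μ * a + κ₂ * c) + 3 * (κ * c + κ₁ * a) := by
            linarith
        _ = R * a + (lam * κ₂ + 3 * κ) * c := by rw [g6]; ring
        _ ≤ R * (a + c) := by linarith
        _ ≤ R * R ^ i := g5
        _ = R ^ (i + 1) := by ring
  have hk := key k le_rfl
  refine le_trans ?_ hk
  refine integral_mono ?_ (wE_int45 hlam hm hb k ((integrable_const 1).add (hPi k))) fun ω => ?_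
  · have := wE_int45 (P := P) hlam hm hb k (integrable_const (1 : ℝ))
    simpa using this
  · show wE lam ψ k ω ≤ wE lam ψ k ω * (1 + Pt k ω)
    have := mul_nonneg (wE_pos45 lam ψ k ω).le (hP0 k ω)
    linarith

/-- A geometric sum. -/
lemma geo45 {r : ℝ} (hr0 : 0 < r) (hr : r ≤ 1 / 2) {y : ℕ → ℝ} {k : ℕ}
    (hy0 : ∀ i, 1 ≤ i → i ≤ k → 0 < y i) (hy : ∀ i, 1 ≤ i → i < k → y i ≤ r * y (i + 1)) {m : ℕ}
    (hm : 1 ≤ m) (hmk : m ≤ k) :
    ∑ j ∈ Finset.Icc m k, 1 / (y m * y j) ≤ 2 / y m ^ 2 := by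
  have h0 := hy0 m hm hmk
  have h1 : ∀ j, m ≤ j → j ≤ k → y m ≤ r ^ (j - m) * y j := by
    intro j hj
    induction j, hj using Nat.le_induction with
    | base => intro _; simp
    | succ j hj ih =>
      intro hjk
      have h2 := ih (by omega)
      have h3 := hy j (by omega) (by omega)
      have h4 : j + 1 - m = (j - m) + 1 := by omega
      rw [h4, pow_succ]
      calc y m ≤ r ^ (j - m) * y j := h2
        _ ≤ r ^ (j - m) * (r * y (j + 1)) := mul_le_mul_of_nonneg_left h3 (by positivity)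
        _ = _ := by ring
  have h2 : ∀ j ∈ Finset.Icc m k, 1 / (y m * y j) ≤ (1 / y m ^ 2) * r ^ (j - m) := by
    intro j hj
    rw [Finset.mem_Icc] at hj
    have hj0 := hy0 j (by omega) hj.2
    have h3 := h1 j hj.1 hj.2
    rw [div_mul_eq_mul_div, one_mul, div_le_div_iff₀ (by positivity) (by positivity)]
    have h4 := mul_le_mul_of_nonneg_left h3 h0.le
    calc 1 * y m ^ 2 = y m * y m := by ring
      _ ≤ y m * (r ^ (j - m) * y j) := h4
      _ = _ := by ring
  refine (Finset.sum_le_sum h2).trans ?_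
  rw [← Finset.mul_sum]
  have h5 : ∑ j ∈ Finset.Icc m k, r ^ (j - m) ≤ 2 := by
    have h6 : ∑ j ∈ Finset.Icc m k, r ^ (j - m) = ∑ i ∈ Finset.range (k + 1 - m), r ^ i := by
      rw [← Finset.Ico_succ_right_eq_Icc, Nat.succ_eq_succ, Finset.sum_Ico_eq_sum_range]
      refine Finset.sum_congr (by simp) fun i _ => ?_
      congr 1
      omega
    rw [h6]
    have h7 : ∑ i ∈ Finset.range (k + 1 - m), r ^ i ≤
        ∑ i ∈ Finset.range (k + 1 - m), ((1 : ℝ) / 2) ^ i :=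
      Finset.sum_le_sum fun i _ => pow_le_pow_left₀ hr0.le hr i
    refine h7.trans ?_
    rw [geom_sum_eq (by norm_num)]
    have h8 : 0 < ((1 : ℝ) / 2) ^ (k + 1 - m) := by positivity
    rw [div_le_iff_of_neg (by norm_num)]
    linarith
  calc 1 / y m ^ 2 * ∑ j ∈ Finset.Icc m k, r ^ (j - m) ≤ 1 / y m ^ 2 * 2 :=
        mul_le_mul_of_nonneg_left h5 (by positivity)
    _ = 2 / y m ^ 2 := by ring

/-- The potential. -/
noncomputable def Pot45 (k : ℕ) (r : ℝ) (y : ℕ → ℝ) (N : ℕ → ℕ → Ω → ℝ) (v : ℕ → Ω → ℝ) (i : ℕ)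
    (ω : Ω) : ℝ :=
  (∑ j ∈ Finset.Ioc i k, max (N i j ω) 0 / (y (i + 1) * y j)) + r * v i ω / y i ^ 2

/-- The potential contracts. -/
lemma potn45 {r C D : ℝ} (hr0 : 0 < r) (hr : r ≤ 1 / 2) (hC : 0 ≤ C) (hD : 0 ≤ D) {y : ℕ → ℝ}
    {k : ℕ} (hy0 : ∀ i, 1 ≤ i → i ≤ k → 0 < y i)
    (hy : ∀ i, 1 ≤ i → i < k → y i ≤ r * y (i + 1)) {i : ℕ} (hi : i < k) {n : ℕ → ℝ} {v : ℝ}
    (hn : ∀ j, 0 ≤ n j) (hv : 0 ≤ v) (hv0 : i = 0 → v = 0) :
    (∑ j ∈ Finset.Ioc (i + 1) k, (D * n j + D * v + C * y (i + 1) ^ 2) / (y (i + 2) * y j)) +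
        r * (D * n (i + 1) + D * v + C * y (i + 1) ^ 2) / y (i + 1) ^ 2 ≤
      4 * D * r * ((∑ j ∈ Finset.Ioc i k, n j / (y (i + 1) * y j)) + r * v / y i ^ 2) +
        2 * C * r := by
  have h1 := hy0 (i + 1) (by omega) (by omega)
  obtain ⟨Y, hY⟩ : ∃ Y : ℝ, Y = y (i + 1) ^ 2 := ⟨_, rfl⟩
  have hY0 : 0 < Y := by rw [hY]; positivity
  obtain ⟨S, hS⟩ : ∃ S : ℝ, S = ∑ j ∈ Finset.Ioc (i + 1) k, 1 / (y (i + 2) * y j) := ⟨_, rfl⟩
  obtain ⟨T, hT⟩ : ∃ T : ℝ, T = ∑ j ∈ Finset.Ioc (i + 1) k, n j / (y (i + 2) * y j) :=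
    ⟨_, rfl⟩
  obtain ⟨A, hA⟩ : ∃ A : ℝ, A = ∑ j ∈ Finset.Ioc (i + 1) k, n j / (y (i + 1) * y j) :=
    ⟨_, rfl⟩
  have hj0 : ∀ j ∈ Finset.Ioc (i + 1) k, 0 < y j := fun j hj => by
    rw [Finset.mem_Ioc] at hj
    exact hy0 j (by omega) hj.2
  have hA0 : 0 ≤ A := by
    rw [hA]
    exact Finset.sum_nonneg fun j hj => div_nonneg (hn j) (mul_pos h1 (hj0 j hj)).le
  have hS2 : S ≤ 2 * r ^ 2 / Y ∧ T ≤ r * A := by
    rcases Nat.lt_or_ge k (i + 2) with hk | hk
    · have he : Finset.Ioc (i + 1) k = ∅ := Finset.Ioc_eq_empty (by omega)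
      rw [hS, hT, hA, he]
      simp only [Finset.sum_empty, mul_zero, le_refl, and_true]
      positivity
    · have h2 := hy0 (i + 2) (by omega) hk
      have h12 := hy (i + 1) (by omega) (by omega)
      constructor
      · have h3 := geo45 hr0 hr hy0 hy (m := i + 2) (by omega) hk
        have h4 : Finset.Icc (i + 2) k = Finset.Ioc (i + 1) k := by
          ext j
          simp only [Finset.mem_Icc, Finset.mem_Ioc]
          omega
        rw [h4, ← hS] at h3
        refine h3.trans ?_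
        rw [div_le_div_iff₀ (by positivity) hY0, hY]
        have h5 : y (i + 1) ^ 2 ≤ (r * y (i + 2)) ^ 2 := pow_le_pow_left₀ h1.le h12 2
        nlinarith
      · rw [hT, hA, Finset.mul_sum]
        refine Finset.sum_le_sum fun j hj => ?_
        have h6 := hj0 j hj
        rw [div_le_iff₀ (mul_pos h2 h6)]
        have h7 : r * (n j / (y (i + 1) * y j)) * (y (i + 2) * y j) =
            n j * ((r * y (i + 2)) / y (i + 1)) := by
          field_simp
        rw [h7]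
        refine le_mul_of_one_le_right (hn j) ?_
        rw [le_div_iff₀ h1]
        linarith
  have hS0 : 0 ≤ S := by
    rw [hS]
    rcases Nat.lt_or_ge k (i + 2) with hk | hk
    · have he : Finset.Ioc (i + 1) k = ∅ := Finset.Ioc_eq_empty (by omega)
      rw [he]
      simp
    · exact Finset.sum_nonneg fun j hj =>
        div_nonneg zero_le_one (mul_pos (hy0 (i + 2) (by omega) hk) (hj0 j hj)).le
  have e1 : ∑ j ∈ Finset.Ioc (i + 1) k,
      (D * n j + D * v + C * y (i + 1) ^ 2) / (y (i + 2) * y j) = D * T + (D * v + C * Y) * S := by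
    rw [hT, hS, Finset.mul_sum, Finset.mul_sum, ← Finset.sum_add_distrib]
    refine Finset.sum_congr rfl fun j _ => ?_
    rw [hY]
    ring
  have e2 : ∑ j ∈ Finset.Ioc i k, n j / (y (i + 1) * y j) = n (i + 1) / Y + A := by
    have h8 : Finset.Ioc i k = Finset.Icc (i + 1) k := by
      ext j
      simp only [Finset.mem_Icc, Finset.mem_Ioc]
      omega
    rw [h8, ← Finset.add_sum_Ioc_eq_sum_Icc (by omega), ← hA, hY]
    ring_nf
  rw [e1, e2, ← hY]
  have hvY : v / Y ≤ 2 * r * (v / y i ^ 2) := by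
    rcases Nat.eq_zero_or_pos i with h0 | h0
    · rw [hv0 h0]
      simp
    · have h9 := hy0 i h0 hi.le
      have h10 := hy i h0 hi
      have h11 : y i ^ 2 ≤ (r * y (i + 1)) ^ 2 := pow_le_pow_left₀ h9.le h10 2
      have h12 : 2 * r * (v / y i ^ 2) = v * (2 * r / y i ^ 2) := by ring
      have h13 : v / Y = v * (1 / Y) := by ring
      rw [h12, h13]
      refine mul_le_mul_of_nonneg_left ?_ hv
      rw [div_le_div_iff₀ hY0 (by positivity), hY]
      have h14 : r ^ 2 ≤ 2 * r := by nlinarith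
      have h15 : 0 < y (i + 1) ^ 2 := by positivity
      nlinarith
  have g1 : D * T ≤ D * (r * A) := mul_le_mul_of_nonneg_left hS2.2 hD
  have g2 : (D * v + C * Y) * S ≤ (D * v + C * Y) * (2 * r ^ 2 / Y) :=
    mul_le_mul_of_nonneg_left hS2.1 (by positivity)
  have g3 : (D * v + C * Y) * (2 * r ^ 2 / Y) = 2 * r ^ 2 * D * (v / Y) + 2 * r ^ 2 * C := by
    field_simp
  have g4 : r * (D * n (i + 1) + D * v + C * Y) / Y =
      r * D * (n (i + 1) / Y) + r * D * (v / Y) + r * C := by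
    field_simp
  have hr2 : 2 * r ^ 2 ≤ r := by nlinarith
  have hvY0 : 0 ≤ v / Y := div_nonneg hv hY0.le
  have hnY0 : 0 ≤ n (i + 1) / Y := div_nonneg (hn _) hY0.le
  have g5 : 2 * r ^ 2 * D * (v / Y) ≤ r * D * (v / Y) := by
    have := mul_nonneg hD hvY0
    nlinarith
  have g6 : 2 * r ^ 2 * C ≤ r * C := mul_le_mul_of_nonneg_right hr2 hC
  have g7 : 2 * (r * D) * (v / Y) ≤ 2 * (r * D) * (2 * r * (v / y i ^ 2)) :=
    mul_le_mul_of_nonneg_left hvY (by positivity)
  have g8 : 0 ≤ 3 * (D * r) * (n (i + 1) / Y + A) := by positivity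
  rw [g4]
  have g9 : 4 * D * r * (n (i + 1) / Y + A + r * v / y i ^ 2) =
      D * (r * A) + r * D * (n (i + 1) / Y) + 3 * (D * r) * (n (i + 1) / Y + A) +
        2 * (r * D) * (2 * r * (v / y i ^ 2)) := by ring
  rw [g9]
  linarith

/-- **(EXM), the abstract theorem.** -/
theorem exm45 [MeasurableSpace Ω] (P : Measure Ω) [IsProbabilityMeasure P] {C D b ε : ℝ}
    (hC : 0 ≤ C) (hD : 0 ≤ D) (hb : 0 ≤ b) (hε : 0 < ε) :
    ∃ lam₁ : ℝ, 0 < lam₁ ∧ ∀ lam : ℝ, 0 < lam → lam ≤ lam₁ → ∃ ρ₀ : ℝ, 0 < ρ₀ ∧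
      ∀ (k : ℕ) (x : ℕ → ℝ) (μ : ℝ) (ψ v : ℕ → Ω → ℝ) (N : ℕ → ℕ → Ω → ℝ), 0 ≤ μ →
      (∀ i, 1 ≤ i → i ≤ k → 0 < x i) → (∀ i, 1 ≤ i → i < k → x i ≤ ρ₀ * x (i + 1)) →
      (∀ i, Measurable (ψ i)) → (∀ i ω, |ψ i ω| ≤ b) →
      (∀ i, Integrable (v i) P) → (∀ i ω, 0 ≤ v i ω) → (∀ i j, Integrable (N i j) P) →
      (∀ ω, v 0 ω = 0) → (∀ j ω, N 0 j ω = 0) →
      (∀ i < k, ∀ j, i + 1 < j → j ≤ k →
        ∫ ω, wE lam ψ i ω * max (N (i + 1) j ω) 0 ∂P ≤
          ∫ ω, wE lam ψ i ω * (D * max (N i j ω) 0 + D * v i ω + C * x (i + 1)) ∂P) →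
      (∀ i < k, ∫ ω, wE lam ψ i ω * v (i + 1) ω ∂P ≤
        ∫ ω, wE lam ψ i ω * (D * max (N i (i + 1) ω) 0 + D * v i ω + C * x (i + 1)) ∂P) →
      (∀ i < k, ∫ ω, wE lam ψ i ω * ψ (i + 1) ω ∂P ≤
        ∫ ω, wE lam ψ i ω *
          (μ + (D * max (N i (i + 1) ω) 0 + D * v i ω) / x (i + 1)) ∂P) →
      ∫ ω, wE lam ψ k ω ∂P ≤ Real.exp (k * (lam * (μ + ε))) := by
  obtain ⟨l1, hl1⟩ : ∃ l1 : ℝ, l1 = min (1 / (2 * D + 1)) (min (1 / (b + 1))
    (ε / (2 * (b ^ 2 + 1)))) := ⟨_, rfl⟩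
  refine ⟨l1, by rw [hl1]; positivity, fun lam hlam hll => ?_⟩
  have hD1 : 0 < 2 * D + 1 := by linarith
  have hb1 : 0 < b + 1 := by linarith
  have c1 : lam * D ≤ 1 / 2 := by
    have h1 : lam ≤ 1 / (2 * D + 1) := hll.trans (by rw [hl1]; exact min_le_left _ _)
    rw [le_div_iff₀ hD1] at h1
    linarith
  have c2 : lam * b ≤ 1 := by
    have h1 : lam ≤ 1 / (b + 1) :=
      hll.trans (by rw [hl1]; exact (min_le_right _ _).trans (min_le_left _ _))
    rw [le_div_iff₀ hb1] at h1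
    linarith
  have c3 : lam ^ 2 * b ^ 2 ≤ lam * (ε / 2) := by
    have h1 : lam ≤ ε / (2 * (b ^ 2 + 1)) :=
      hll.trans (by rw [hl1]; exact (min_le_right _ _).trans (min_le_right _ _))
    rw [le_div_iff₀ (by positivity)] at h1
    have h2 : lam * b ^ 2 ≤ ε / 2 := by linarith
    calc lam ^ 2 * b ^ 2 = lam * (lam * b ^ 2) := by ring
      _ ≤ lam * (ε / 2) := mul_le_mul_of_nonneg_left h2 hlam.le
  obtain ⟨r, hr⟩ : ∃ r : ℝ, r = min (1 / (24 * D + 2)) (lam * ε / (12 * (C + 1))) := ⟨_, rfl⟩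
  have hr0 : 0 < r := by rw [hr]; positivity
  have hr1 : r ≤ 1 / (24 * D + 2) := by rw [hr]; exact min_le_left _ _
  have hr2 : r ≤ lam * ε / (12 * (C + 1)) := by rw [hr]; exact min_le_right _ _
  have d1 : 12 * D * r ≤ 1 / 2 ∧ r ≤ 1 / 2 := by
    rw [le_div_iff₀ (by positivity)] at hr1
    have := mul_nonneg hD hr0.le
    constructor <;> linarith
  have d2 : 3 * (2 * C * r) ≤ lam * (ε / 2) := by
    rw [le_div_iff₀ (by positivity)] at hr2
    have := mul_nonneg hC hr0.le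
    linarith
  refine ⟨r ^ 2, by positivity, fun k x μ ψ v N hμ hx0 hx hψm hψb hvi hv0 hNi hvz hNz ha hbb
    hc => ?_⟩
  -- the square roots
  have hs0 : ∀ i, 1 ≤ i → i ≤ k → 0 < Real.sqrt (x i) := fun i h1 h2 =>
    Real.sqrt_pos.2 (hx0 i h1 h2)
  have hs : ∀ i, 1 ≤ i → i < k → Real.sqrt (x i) ≤ r * Real.sqrt (x (i + 1)) := by
    intro i h1 h2
    calc Real.sqrt (x i) ≤ Real.sqrt (r ^ 2 * x (i + 1)) := Real.sqrt_le_sqrt (hx i h1 h2)
      _ = r * Real.sqrt (x (i + 1)) := by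
          rw [Real.sqrt_mul (by positivity), Real.sqrt_sq hr0.le]
  have hsq : ∀ i, 1 ≤ i → i ≤ k → Real.sqrt (x i) ^ 2 = x i := fun i h1 h2 =>
    Real.sq_sqrt (hx0 i h1 h2).le
  obtain ⟨y, hy⟩ : ∃ y : ℕ → ℝ, y = fun i => Real.sqrt (x i) := ⟨_, rfl⟩
  have hyi : ∀ i, y i = Real.sqrt (x i) := fun i => by rw [hy]
  simp only [← hyi] at hs0 hs hsq
  have hNm : ∀ i j, Integrable (fun ω => max (N i j ω) 0) P := fun i j =>
    (hNi i j).sup (integrable_zero _ _ _)
  have hmax : ∀ i j ω, 0 ≤ max (N i j ω) 0 := fun i j ω => le_max_right _ _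
  have hvz' : ∀ i ω, i = 0 → v i ω = 0 := fun i ω h => by rw [h]; exact hvz ω
  -- the potentials
  have hP0 : ∀ i ω, 0 ≤ Pot45 k r y N v i ω := by
    intro i ω
    unfold Pot45
    refine add_nonneg (Finset.sum_nonneg fun j hj => ?_)
      (div_nonneg (mul_nonneg hr0.le (hv0 i ω)) (sq_nonneg _))
    rw [Finset.mem_Ioc] at hj
    exact div_nonneg (hmax _ _ _)
      (mul_pos (hs0 (i + 1) (by omega) (by omega)) (hs0 j (by omega) hj.2)).le
  have hPi : ∀ i, Integrable (Pot45 k r y N v i) P := by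
    intro i
    unfold Pot45
    exact (integrable_finsetSum _ fun j _ => (hNm i j).div_const _).add
      (((hvi i).const_mul r).div_const _)
  have hPz : ∀ ω, Pot45 k r y N v 0 ω = 0 := by
    intro ω
    unfold Pot45
    simp [hNz, hvz]
  have hW : ∀ {f : Ω → ℝ} (i : ℕ), Integrable f P →
      Integrable (fun ω => wE lam ψ i ω * f ω) P := fun i hf =>
    wE_int45 hlam.le hψm hψb i hf
  have hmain := expRec45 (P := P) (lam := lam) (μ := μ) (κ := 4 * D * r) (κ₁ := 2 * C * r)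
    (κ₂ := D) (b := b) (k := k) (ψ := ψ) (Pt := Pot45 k r y N v) hψm hψb hP0 hPi hPz hlam.le hμ
    (by positivity) c2 (by linarith) ?_ ?_
  · refine hmain.trans ?_
    have h1 : 1 + lam * μ + lam ^ 2 * b ^ 2 + 3 * (2 * C * r) ≤ Real.exp (lam * (μ + ε)) := by
      have h2 := Real.add_one_le_exp (lam * (μ + ε))
      have h3 : lam * (μ + ε) = lam * μ + lam * (ε / 2) + lam * (ε / 2) := by ring
      linarith
    calc (1 + lam * μ + lam ^ 2 * b ^ 2 + 3 * (2 * C * r)) ^ k ≤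
          Real.exp (lam * (μ + ε)) ^ k := by
            refine pow_le_pow_left₀ ?_ h1 k
            have := mul_nonneg hlam.le hμ
            positivity
      _ = Real.exp (k * (lam * (μ + ε))) := by rw [← Real.exp_nat_mul]
  · -- the functional
    intro i hi
    refine (hc i hi).trans ?_
    refine integral_mono (hW i ((integrable_const μ).add ((((hNm i (i + 1)).const_mul D).add
      ((hvi i).const_mul D)).div_const _))) (hW i ((integrable_const μ).add
        ((hPi i).const_mul D))) fun ω => ?_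
    refine mul_le_mul_of_nonneg_left ?_ (wE_pos45 lam ψ i ω).le
    show μ + (D * max (N i (i + 1) ω) 0 + D * v i ω) / x (i + 1) ≤ μ + D * Pot45 k r y N v i ω
    have hx1 := hx0 (i + 1) (by omega) (by omega)
    have h1 : max (N i (i + 1) ω) 0 / x (i + 1) + v i ω / x (i + 1) ≤ Pot45 k r y N v i ω := by
      unfold Pot45
      refine add_le_add ?_ ?_
      · have h2 := Finset.single_le_sum (f := fun j => max (N i j ω) 0 / (y (i + 1) * y j))
          (s := Finset.Ioc i k) (fun j hj => by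
            rw [Finset.mem_Ioc] at hj
            exact div_nonneg (hmax _ _ _)
              (mul_pos (hs0 (i + 1) (by omega) (by omega)) (hs0 j (by omega) hj.2)).le)
          (Finset.mem_Ioc.2 ⟨Nat.lt_succ_self i, hi⟩ : i + 1 ∈ Finset.Ioc i k)
        refine le_trans (le_of_eq ?_) h2
        show max (N i (i + 1) ω) 0 / x (i + 1) = max (N i (i + 1) ω) 0 / (y (i + 1) * y (i + 1))
        rw [← hsq (i + 1) (by omega) (by omega)]
        ring
      · rcases Nat.eq_zero_or_pos i with h0 | h0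
        · rw [hvz' i ω h0]
          simp
        · have h3 := hx i h0 hi
          have h4 := hx0 i h0 hi.le
          rw [hsq i h0 hi.le, div_le_div_iff₀ hx1 h4]
          have h5 := hv0 i ω
          have h6 : r ^ 2 ≤ r := by nlinarith [d1.2]
          calc v i ω * x i ≤ v i ω * (r ^ 2 * x (i + 1)) := mul_le_mul_of_nonneg_left h3 h5
            _ ≤ v i ω * (r * x (i + 1)) := by
                refine mul_le_mul_of_nonneg_left ?_ h5
                exact mul_le_mul_of_nonneg_right h6 hx1.le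
            _ = r * v i ω * x (i + 1) := by ring
    have h2 := mul_le_mul_of_nonneg_left h1 hD
    have h3 : (D * max (N i (i + 1) ω) 0 + D * v i ω) / x (i + 1) =
        D * (max (N i (i + 1) ω) 0 / x (i + 1) + v i ω / x (i + 1)) := by ring
    rw [h3]
    linarith
  · -- the potential
    intro i hi
    have hint : ∫ ω, wE lam ψ i ω * Pot45 k r y N v (i + 1) ω ∂P =
        (∑ j ∈ Finset.Ioc (i + 1) k, (1 / (y (i + 2) * y j)) *
          ∫ ω, wE lam ψ i ω * max (N (i + 1) j ω) 0 ∂P) +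
          (r / y (i + 1) ^ 2) * ∫ ω, wE lam ψ i ω * v (i + 1) ω ∂P := by
      have e1 : ∀ ω, wE lam ψ i ω * Pot45 k r y N v (i + 1) ω =
          (∑ j ∈ Finset.Ioc (i + 1) k, (1 / (y (i + 2) * y j)) *
            (wE lam ψ i ω * max (N (i + 1) j ω) 0)) +
            (r / y (i + 1) ^ 2) * (wE lam ψ i ω * v (i + 1) ω) := by
        intro ω
        unfold Pot45
        rw [mul_add, Finset.mul_sum]
        congr 1
        · refine Finset.sum_congr rfl fun j _ => ?_
          ring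
        · ring
      simp_rw [e1]
      rw [integral_add (integrable_finsetSum _ fun j _ => (hW i (hNm (i + 1) j)).const_mul _)
        ((hW i (hvi (i + 1))).const_mul _), integral_finsetSum _ fun j _ =>
          (hW i (hNm (i + 1) j)).const_mul _, integral_const_mul]
      congr 1
      refine Finset.sum_congr rfl fun j _ => ?_
      rw [integral_const_mul]
    rw [hint]
    obtain ⟨g, hg⟩ : ∃ g : ℕ → Ω → ℝ, g = fun j ω => D * max (N i j ω) 0 + D * v i ω +
      C * x (i + 1) := ⟨_, rfl⟩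
    have hgi : ∀ j, Integrable (g j) P := fun j => by
      rw [hg]
      exact (((hNm i j).const_mul D).add ((hvi i).const_mul D)).add (integrable_const _)
    have h1 : (∑ j ∈ Finset.Ioc (i + 1) k, (1 / (y (i + 2) * y j)) *
          ∫ ω, wE lam ψ i ω * max (N (i + 1) j ω) 0 ∂P) ≤
        ∑ j ∈ Finset.Ioc (i + 1) k, (1 / (y (i + 2) * y j)) * ∫ ω, wE lam ψ i ω * g j ω ∂P := by
      refine Finset.sum_le_sum fun j hj => ?_
      rw [Finset.mem_Ioc] at hj
      refine mul_le_mul_of_nonneg_left ?_ (div_nonneg zero_le_one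
        (mul_pos (hs0 (i + 2) (by omega) (by omega)) (hs0 j (by omega) hj.2)).le)
      rw [hg]
      exact ha i hi j hj.1 hj.2
    have h2 : (r / y (i + 1) ^ 2) * ∫ ω, wE lam ψ i ω * v (i + 1) ω ∂P ≤
        (r / y (i + 1) ^ 2) * ∫ ω, wE lam ψ i ω * g (i + 1) ω ∂P := by
      refine mul_le_mul_of_nonneg_left ?_ (by positivity)
      rw [hg]
      exact hbb i hi
    refine (add_le_add h1 h2).trans ?_
    have hint2 : (∑ j ∈ Finset.Ioc (i + 1) k, (1 / (y (i + 2) * y j)) *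
          ∫ ω, wE lam ψ i ω * g j ω ∂P) +
          (r / y (i + 1) ^ 2) * ∫ ω, wE lam ψ i ω * g (i + 1) ω ∂P =
        ∫ ω, wE lam ψ i ω * ((∑ j ∈ Finset.Ioc (i + 1) k, g j ω / (y (i + 2) * y j)) +
          r * g (i + 1) ω / y (i + 1) ^ 2) ∂P := by
      have e1 : ∀ ω, wE lam ψ i ω * ((∑ j ∈ Finset.Ioc (i + 1) k, g j ω / (y (i + 2) * y j)) +
          r * g (i + 1) ω / y (i + 1) ^ 2) =
          (∑ j ∈ Finset.Ioc (i + 1) k, (1 / (y (i + 2) * y j)) * (wE lam ψ i ω * g j ω)) +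
            (r / y (i + 1) ^ 2) * (wE lam ψ i ω * g (i + 1) ω) := by
        intro ω
        rw [mul_add, Finset.mul_sum]
        congr 1
        · refine Finset.sum_congr rfl fun j _ => ?_
          ring
        · ring
      simp_rw [e1]
      rw [integral_add (integrable_finsetSum _ fun j _ => (hW i (hgi j)).const_mul _)
        ((hW i (hgi (i + 1))).const_mul _), integral_finsetSum _ fun j _ =>
          (hW i (hgi j)).const_mul _, integral_const_mul]
      congr 1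
      refine Finset.sum_congr rfl fun j _ => ?_
      rw [integral_const_mul]
    rw [hint2]
    refine integral_mono (hW i ((integrable_finsetSum _ fun j _ => (hgi j).div_const _).add
      (((hgi (i + 1)).const_mul r).div_const _))) (hW i (((hPi i).const_mul _).add
        (integrable_const _))) fun ω => ?_
    refine mul_le_mul_of_nonneg_left ?_ (wE_pos45 lam ψ i ω).le
    have h3 := potn45 hr0 d1.2 hC hD hs0 hs hi (n := fun j => max (N i j ω) 0) (v := v i ω)
      (fun j => hmax i j ω) (hv0 i ω) (hvz' i ω)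
    rw [hsq (i + 1) (by omega) (by omega)] at h3 ⊢
    rw [hg]
    unfold Pot45
    exact h3

end Pool.Agent.W_7d29a1_SNP
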