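import Pool.Agent.W_7d29a1_PL.Sing79
import Pool.Agent.W_7d29a1_SP.Bas15
import Pool.Agent.W_7d29a1_Q29.NTa66

/-!
EXM: exponential moments of bounded functions of well separated levels, the one step inequalities.
-/

set_option autoImplicit false

namespace Pool.Agent.W_7d29a1_SNP.EX76

open MeasureTheory ProbabilityTheory Filter Topology Pool.Agent.W_MP_7d29a1_pr
  Pool.Agent.W_7d29a1_h46 Pool.Agent.W_7d29a1_h46u Pool.Agent.W_7d29a1_D2.B35
  Pool.Agent.W_7d29a1_Q29 Pool.Agent.W_7d29a1_R34 Pool.Agent.W_7d29a1_SP Pool.Agent.W_7d29a1_PL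

variable {d : ℕ} {ρ : Measure ℝ}

/-- A bounded nonnegative weight of the rows `≤ t`. -/
structure Wt (d t : ℕ) (w : Env d → ℝ) : Prop where
  m : Measurable w
  dep : DependsOn w (Pa d t)
  nn : ∀ η, 0 ≤ w η
  bd : ∃ B : ℝ, ∀ η, w η ≤ B

lemma Wt.norm {t : ℕ} {w : Env d → ℝ} (hw : Wt d t w) : ∃ B : ℝ, ∀ η, ‖w η‖ ≤ B := by
  obtain ⟨B, hB⟩ := hw.bd
  refine ⟨B, fun η => ?_⟩
  rw [Real.norm_eq_abs, abs_of_nonneg (hw.nn η)]
  exact hB η

lemma Wt.int [IsProbabilityMeasure ρ] {t : ℕ} {w : Env d → ℝ} (hw : Wt d t w) :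
    Integrable w (law d ρ) := by
  obtain ⟨B, hB⟩ := hw.norm
  exact (integrable_const B).mono' hw.m.aestronglyMeasurable (Eventually.of_forall hB)

lemma Wt.mulI [IsProbabilityMeasure ρ] {t : ℕ} {w : Env d → ℝ} (hw : Wt d t w) {F : Env d → ℝ}
    (hF : Integrable F (law d ρ)) : Integrable (fun η => w η * F η) (law d ρ) := by
  obtain ⟨B, hB⟩ := hw.norm
  exact hF.bdd_mul (c := B) hw.m.aestronglyMeasurable (Eventually.of_forall hB)

lemma Wt.mono {t t' : ℕ} (h : t ≤ t') {w : Env d → ℝ} (hw : Wt d t w) : Wt d t' w where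
  m := hw.m
  dep := fun η η' hη => hw.dep fun p hp => hη p (by
    have h1 : p.1 ≤ t := hp
    show p.1 ≤ t'
    omega)
  nn := hw.nn
  bd := hw.bd

/-- The future at the position at the time `t`. -/
lemma fut76 [IsProbabilityMeasure ρ] (hd : 0 < d) (β : ℝ) (h : Vec d) (t k : ℕ)
    {w : Env d → ℝ} (hw : Wt d t w) {g : ℝ → ℝ} (hg : Measurable g)
    (hi : Integrable (fun η : Env d => g (X β h η k)) (law d ρ)) :
    Integrable (fun η => w η * ∑ s : Fin t → Step d, FreeU_p β h t s η *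
        g (X β h (sh t (pos s t) η) k)) (law d ρ) ∧
      ∫ η, w η * ∑ s : Fin t → Step d, FreeU_p β h t s η * g (X β h (sh t (pos s t) η) k)
        ∂(law d ρ) = (∫ η, w η ∂(law d ρ)) * ∫ η, g (X β h η k) ∂(law d ρ) := by
  obtain ⟨B, hB⟩ := hw.norm
  have hXm : Measurable (fun η : Env d => g (X β h η k)) := hg.comp (measurable_X β h k)
  have hXs : ∀ y : Site d, Integrable (fun η => g (X β h (sh t y η) k)) (law d ρ) :=
    fun y => (mp_sh t y).integrable_comp_of_integrable hi
  set u : (Fin t → Step d) → Env d → ℝ := fun s η => w η * FreeU_p β h t s η with hu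
  have hum : ∀ s, Measurable (u s) := fun s => hw.m.mul (FreeU_meas β h t s)
  have hB0 : 0 ≤ B := (norm_nonneg _).trans (hB (fun _ => 0))
  have hun : ∀ s η, ‖u s η‖ ≤ B := fun s η => by
    have h2 : ‖FreeU_p β h t s η‖ ≤ 1 := by
      rw [Real.norm_eq_abs, abs_of_nonneg (FreeU_nonneg hd β h t s η)]
      exact FreeU_le_one hd β h t s η
    show ‖w η * FreeU_p β h t s η‖ ≤ B
    rw [norm_mul]
    calc ‖w η‖ * ‖FreeU_p β h t s η‖ ≤ B * 1 :=
          mul_le_mul (hB η) h2 (norm_nonneg _) hB0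
      _ = B := mul_one B
  have i1 : ∀ s, Integrable (u s) (law d ρ) := fun s =>
    (integrable_const B).mono' (hum s).aestronglyMeasurable (Eventually.of_forall fun η => hun s η)
  have i2 : ∀ s, Integrable (fun η => u s η * g (X β h (sh t (pos s t) η) k)) (law d ρ) :=
    fun s => (hXs (pos s t)).bdd_mul (c := B) (hum s).aestronglyMeasurable
      (Eventually.of_forall fun η => hun s η)
  have e1 : ∀ s, ∫ η, u s η * g (X β h (sh t (pos s t) η) k) ∂(law d ρ) =
      (∫ η, u s η ∂(law d ρ)) * ∫ η, g (X β h η k) ∂(law d ρ) := by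
    intro s
    have h1 := integral_indep (ρ := ρ) (Pa d t) (F := u s)
      (G := fun η => g (X β h (sh t (pos s t) η) k)) (hum s)
      (hXm.comp (measurable_sh t (pos s t))) (fun η η' hη => by
        have h2 := hw.dep hη
        have h3 := FreeU_dep β h t s hη
        show w η * FreeU_p β h t s η = w η' * FreeU_p β h t s η'
        rw [h2, h3]) (fun η η' hη => by
        have h2 := FreeU_dep2 β h t k (pos s t) hη
        have h3 : X β h (sh t (pos s t) η) k = X β h (sh t (pos s t) η') k := h2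
        show g (X β h (sh t (pos s t) η) k) = g (X β h (sh t (pos s t) η') k)
        rw [h3])
    rw [h1, integral_sh t (pos s t) hXm]
  have hpt : ∀ η, w η * ∑ s : Fin t → Step d, FreeU_p β h t s η *
      g (X β h (sh t (pos s t) η) k) = ∑ s : Fin t → Step d,
      u s η * g (X β h (sh t (pos s t) η) k) := by
    intro η
    rw [Finset.mul_sum]
    refine Finset.sum_congr rfl fun s _ => ?_
    show _ = w η * FreeU_p β h t s η * _
    ring
  have i4 : Integrable (fun η => ∑ s : Fin t → Step d,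
      u s η * g (X β h (sh t (pos s t) η) k)) (law d ρ) := integrable_finsetSum _ fun s _ => i2 s
  have e2 : ∫ η, ∑ s : Fin t → Step d, u s η ∂(law d ρ) = ∫ η, w η ∂(law d ρ) := by
    refine integral_congr_ae (Eventually.of_forall fun η => ?_)
    show ∑ s : Fin t → Step d, w η * FreeU_p β h t s η = w η
    rw [← Finset.mul_sum, FreeU_sum hd, mul_one]
  simp only [hpt]
  refine ⟨i4, ?_⟩
  rw [integral_finsetSum _ fun s _ => i2 s, Finset.sum_congr rfl fun s _ => e1 s,
    ← Finset.sum_mul, ← integral_finsetSum _ fun s _ => i1 s, e2]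

/-- The free energy below its mean. -/
noncomputable def vv (ρ : Measure ℝ) (β : ℝ) (h : Vec d) (t : ℕ) (η : Env d) : ℝ :=
  max (A ρ β h t - X β h η t) 0

lemma vv_nn (β : ℝ) (h : Vec d) (t : ℕ) (η : Env d) : 0 ≤ vv ρ β h t η := le_max_right _ _

lemma vv_int [IsProbabilityMeasure ρ] (hd : 0 < d) (hρ : EM ρ) (β : ℝ) (h : Vec d) (t : ℕ) :
    Integrable (vv ρ β h t) (law d ρ) := by
  have h1 := (intX15 (ρ := ρ) hd hρ β h t).neg
  have h2 : vv ρ β h t = fun η => max (-(X β h η t - A ρ β h t)) 0 := by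
    funext η
    unfold vv
    congr 1
    ring
  rw [h2]
  exact h1.pos_part

/-- The gap. -/
lemma gap76 [IsProbabilityMeasure ρ] {β : ℝ} {h : Vec d} {t k : ℕ}
    (hE : En ρ β h k ≤ En ρ β h (t + k)) :
    A ρ β h (t + k) - A ρ β h t - A ρ β h k ≤ En ρ β h t := by
  unfold En at hE ⊢
  push_cast at hE ⊢
  linarith

/-- (V) the part below the mean at a later time. -/
lemma v76 [IsProbabilityMeasure ρ] (hd : 0 < d) (hρ : EM ρ) (β : ℝ) (h : Vec d) (t k : ℕ)
    (hE : En ρ β h k ≤ En ρ β h (t + k)) {w : Env d → ℝ} (hw : Wt d t w) :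
    ∫ η, w η * vv ρ β h (t + k) η ∂(law d ρ) ≤ ∫ η, w η * vv ρ β h t η ∂(law d ρ) +
      (En ρ β h t + Fn ρ β h k) * ∫ η, w η ∂(law d ρ) := by
  obtain ⟨j1, j2⟩ := fut76 (ρ := ρ) hd β h t k hw (g := fun z => |z - A ρ β h k|)
    (by fun_prop) (intX15 hd hρ β h k).abs
  have i1 := hw.mulI (ρ := ρ) (vv_int (ρ := ρ) hd hρ β h (t + k))
  have i2 := hw.mulI (ρ := ρ) (vv_int (ρ := ρ) hd hρ β h t)
  have i3 := hw.int (ρ := ρ)
  have hpt : ∀ η, w η * vv ρ β h (t + k) η ≤ w η * vv ρ β h t η + (En ρ β h t * w η +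
      w η * ∑ s : Fin t → Step d, FreeU_p β h t s η *
        |X β h (sh t (pos s t) η) k - A ρ β h k|) := by
    intro η
    have h1 := S79.Wd_pt (ρ := ρ) hd β h t k η
    have h2 := S79.Wd_nn (ρ := ρ) hd β h t k η
    have h3 := gap76 hE
    have h4 := En_nonneg15 (ρ := ρ) hd hρ β h t
    have h5 : vv ρ β h (t + k) η ≤ vv ρ β h t η + (En ρ β h t + S79.Wd ρ β h t k η) := by
      have h6 := le_max_left (A ρ β h t - X β h η t) 0
      have h7 := le_max_right (A ρ β h t - X β h η t) 0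
      unfold vv
      refine max_le ?_ ?_
      · linarith
      · linarith
    have h6 := mul_le_mul_of_nonneg_left h5 (hw.nn η)
    have h7 : S79.Wd ρ β h t k η = ∑ s : Fin t → Step d, FreeU_p β h t s η *
        |X β h (sh t (pos s t) η) k - A ρ β h k| := rfl
    rw [h7] at h6
    linarith
  have h1 := integral_mono i1 (i2.add ((i3.const_mul (En ρ β h t)).add j1)) hpt
  have e1 : ∫ η, (w η * vv ρ β h t η + (En ρ β h t * w η +
      w η * ∑ s : Fin t → Step d, FreeU_p β h t s η *
        |X β h (sh t (pos s t) η) k - A ρ β h k|)) ∂(law d ρ) =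
      ∫ η, w η * vv ρ β h t η ∂(law d ρ) + (En ρ β h t * (∫ η, w η ∂(law d ρ)) +
        (∫ η, w η ∂(law d ρ)) * Fn ρ β h k) := by
    have e2 := integral_add i2 ((i3.const_mul (En ρ β h t)).add j1)
    have e3 := integral_add (i3.const_mul (En ρ β h t)) j1
    simp only [Pi.add_apply] at e2
    rw [e2, e3, j2, integral_const_mul]
    rfl
  have h2 : ∫ η, w η * vv ρ β h (t + k) η ∂(law d ρ) ≤ ∫ η, (w η * vv ρ β h t η + (En ρ β h t * w η +
      w η * ∑ s : Fin t → Step d, FreeU_p β h t s η *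
        |X β h (sh t (pos s t) η) k - A ρ β h k|)) ∂(law d ρ) := h1
  rw [e1] at h2
  linarith

/-- (N) a later free energy against a weight of the rows `≤ t`. -/
lemma n76 [IsProbabilityMeasure ρ] (hd : 0 < d) (hρ : EM ρ) (β : ℝ) (h : Vec d) (t k : ℕ)
    (hE : En ρ β h k ≤ En ρ β h (t + k)) {w : Env d → ℝ} (hw : Wt d t w) :
    -(∫ η, w η * vv ρ β h t η ∂(law d ρ) + En ρ β h t * ∫ η, w η ∂(law d ρ)) ≤
      ∫ η, w η * (X β h η (t + k) - A ρ β h (t + k)) ∂(law d ρ) := by
  obtain ⟨j1, j2⟩ := fut76 (ρ := ρ) hd β h t k hw (g := fun z => z - A ρ β h k)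
    (by fun_prop) (intX15 hd hρ β h k)
  rw [mean15 hd hρ β h k, mul_zero] at j2
  have i1 := hw.mulI (ρ := ρ) (intX15 (ρ := ρ) hd hρ β h (t + k))
  have i2 := hw.mulI (ρ := ρ) (vv_int (ρ := ρ) hd hρ β h t)
  have i3 := hw.int (ρ := ρ)
  have hpt : ∀ η, (w η * ∑ s : Fin t → Step d, FreeU_p β h t s η *
        (X β h (sh t (pos s t) η) k - A ρ β h k)) - (w η * vv ρ β h t η + En ρ β h t * w η) ≤
      w η * (X β h η (t + k) - A ρ β h (t + k)) := by
    intro η
    have h1 := FreeU_pt hd β h t k η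
    have h3 := gap76 hE
    have h6 := le_max_left (A ρ β h t - X β h η t) 0
    have h8 : ∑ s : Fin t → Step d, FreeU_p β h t s η *
        (X β h (sh t (pos s t) η) k - A ρ β h k) =
        ∑ s : Fin t → Step d, FreeU_p β h t s η * X β h (sh t (pos s t) η) k - A ρ β h k := by
      simp only [mul_sub]
      rw [Finset.sum_sub_distrib, ← Finset.sum_mul, FreeU_sum hd, one_mul]
    have h5 : ∑ s : Fin t → Step d, FreeU_p β h t s η *
        (X β h (sh t (pos s t) η) k - A ρ β h k) - (vv ρ β h t η + En ρ β h t) ≤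
        X β h η (t + k) - A ρ β h (t + k) := by
      rw [h8]
      unfold vv
      linarith
    have h7 := mul_le_mul_of_nonneg_left h5 (hw.nn η)
    linarith
  have h1 := integral_mono (j1.sub (i2.add (i3.const_mul (En ρ β h t)))) i1 hpt
  have e2 := integral_sub j1 (i2.add (i3.const_mul (En ρ β h t)))
  have e3 := integral_add i2 (i3.const_mul (En ρ β h t))
  simp only [Pi.sub_apply, Pi.add_apply] at e2 h1
  rw [e2, j2, e3, integral_const_mul] at h1
  linarith

/-- (C) the truncated free energy of a later time. -/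
lemma c76 [IsProbabilityMeasure ρ] (hd : 0 < d) (hρ : EM ρ) (β : ℝ) (h : Vec d) (t k : ℕ)
    (hE : En ρ β h k ≤ En ρ β h (t + k)) {w : Env d → ℝ} (hw : Wt d t w) {y : ℝ} (hy : 0 < y) :
    ∫ η, w η * max (X β h η (t + k) - A ρ β h (t + k)) (-y) ∂(law d ρ) ≤
      Va ρ β h k / y * (∫ η, w η ∂(law d ρ)) +
      ∫ η, w η * (X β h η (t + k) - A ρ β h (t + k)) ∂(law d ρ) +
      (∫ η, w η * vv ρ β h t η ∂(law d ρ) + En ρ β h t * ∫ η, w η ∂(law d ρ)) := by
  have ik := intX15 (ρ := ρ) hd hρ β h k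
  have im : Integrable (fun η : Env d => max (X β h η k - A ρ β h k) (-y)) (law d ρ) :=
    ik.sup (integrable_const _)
  obtain ⟨j1, j2⟩ := fut76 (ρ := ρ) hd β h t k hw (g := fun z => z - A ρ β h k)
    (by fun_prop) ik
  obtain ⟨l1, l2⟩ := fut76 (ρ := ρ) hd β h t k hw (g := fun z => max (z - A ρ β h k) (-y))
    (by fun_prop) im
  rw [mean15 hd hρ β h k, mul_zero] at j2
  have i0 := intX15 (ρ := ρ) hd hρ β h (t + k)
  have i1 := hw.mulI (ρ := ρ) i0
  have i1m : Integrable (fun η => w η * max (X β h η (t + k) - A ρ β h (t + k)) (-y))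
      (law d ρ) := hw.mulI (ρ := ρ) (i0.sup (integrable_const _))
  have i2 := hw.mulI (ρ := ρ) (vv_int (ρ := ρ) hd hρ β h t)
  have i3 := hw.int (ρ := ρ)
  have hpt : ∀ η, w η * max (X β h η (t + k) - A ρ β h (t + k)) (-y) ≤
      (w η * ∑ s : Fin t → Step d, FreeU_p β h t s η *
        max (X β h (sh t (pos s t) η) k - A ρ β h k) (-y)) +
      (w η * (X β h η (t + k) - A ρ β h (t + k)) -
      (w η * ∑ s : Fin t → Step d, FreeU_p β h t s η *
        (X β h (sh t (pos s t) η) k - A ρ β h k)) + (w η * vv ρ β h t η + En ρ β h t * w η)) := by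
    intro η
    have h1 := FreeU_pt hd β h t k η
    have h3 := gap76 hE
    have h6 := le_max_left (A ρ β h t - X β h η t) 0
    have h8 : ∑ s : Fin t → Step d, FreeU_p β h t s η *
        (X β h (sh t (pos s t) η) k - A ρ β h k) =
        ∑ s : Fin t → Step d, FreeU_p β h t s η * X β h (sh t (pos s t) η) k - A ρ β h k := by
      simp only [mul_sub]
      rw [Finset.sum_sub_distrib, ← Finset.sum_mul, FreeU_sum hd, one_mul]
    have h9 : ∑ s : Fin t → Step d, FreeU_p β h t s η *
        (X β h (sh t (pos s t) η) k - A ρ β h k) ≤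
        ∑ s : Fin t → Step d, FreeU_p β h t s η *
          max (X β h (sh t (pos s t) η) k - A ρ β h k) (-y) :=
      Finset.sum_le_sum fun s _ =>
        mul_le_mul_of_nonneg_left (le_max_left _ _) (FreeU_nonneg hd β h t s η)
    have h10 : -y ≤ ∑ s : Fin t → Step d, FreeU_p β h t s η *
          max (X β h (sh t (pos s t) η) k - A ρ β h k) (-y) := by
      have h11 : ∑ s : Fin t → Step d, FreeU_p β h t s η * (-y) ≤
          ∑ s : Fin t → Step d, FreeU_p β h t s η *
          max (X β h (sh t (pos s t) η) k - A ρ β h k) (-y) :=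
        Finset.sum_le_sum fun s _ =>
          mul_le_mul_of_nonneg_left (le_max_right _ _) (FreeU_nonneg hd β h t s η)
      rw [← Finset.sum_mul, FreeU_sum hd, one_mul] at h11
      exact h11
    have h5 : max (X β h η (t + k) - A ρ β h (t + k)) (-y) ≤
        (∑ s : Fin t → Step d, FreeU_p β h t s η *
          max (X β h (sh t (pos s t) η) k - A ρ β h k) (-y)) +
        (X β h η (t + k) - A ρ β h (t + k) - (∑ s : Fin t → Step d, FreeU_p β h t s η *
          (X β h (sh t (pos s t) η) k - A ρ β h k)) + (vv ρ β h t η + En ρ β h t)) := by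
      have h12 : 0 ≤ X β h η (t + k) - A ρ β h (t + k) - (∑ s : Fin t → Step d,
          FreeU_p β h t s η * (X β h (sh t (pos s t) η) k - A ρ β h k)) +
          (vv ρ β h t η + En ρ β h t) := by
        rw [h8]
        unfold vv
        linarith
      have h13 := vv_nn (ρ := ρ) β h t η
      have h14 := En_nonneg15 (ρ := ρ) hd hρ β h t
      refine max_le ?_ ?_
      · linarith
      · linarith
    have h7 := mul_le_mul_of_nonneg_left h5 (hw.nn η)
    linarith
  have h1 := integral_mono i1m (l1.add ((i1.sub j1).add (i2.add (i3.const_mul (En ρ β h t))))) hpt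
  have e2 := integral_add l1 ((i1.sub j1).add (i2.add (i3.const_mul (En ρ β h t))))
  have e3 := integral_add (i1.sub j1) (i2.add (i3.const_mul (En ρ β h t)))
  have e4 := integral_sub i1 j1
  have e5 := integral_add i2 (i3.const_mul (En ρ β h t))
  simp only [Pi.sub_apply, Pi.add_apply] at e2 e3 e4 e5 h1
  rw [e2, e3, e4, e5, l2, j2, integral_const_mul] at h1
  have h2 : ∫ η, max (X β h η k - A ρ β h k) (-y) ∂(law d ρ) ≤ Va ρ β h k / y := by
    have hv := N85.Va_int (ρ := ρ) hd hρ β h k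
    have h3 : ∀ η : Env d, max (X β h η k - A ρ β h k) (-y) ≤
        (X β h η k - A ρ β h k) + (X β h η k - A ρ β h k) ^ 2 / y := by
      intro η
      have h4 : 0 ≤ (X β h η k - A ρ β h k) ^ 2 / y := by positivity
      refine max_le (by linarith) ?_
      have h5 : -y * y ≤ (X β h η k - A ρ β h k) * y + (X β h η k - A ρ β h k) ^ 2 := by
        nlinarith [sq_nonneg (2 * (X β h η k - A ρ β h k) + y), sq_nonneg y]
      have h6 : (X β h η k - A ρ β h k) + (X β h η k - A ρ β h k) ^ 2 / y =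
          ((X β h η k - A ρ β h k) * y + (X β h η k - A ρ β h k) ^ 2) / y := by
        field_simp
      rw [h6, le_div_iff₀ hy]
      exact h5
    have h7 := integral_mono im (ik.add (hv.div_const y)) h3
    have h8 := integral_add ik (hv.div_const y)
    simp only [Pi.add_apply] at h7 h8
    rw [h8, mean15 hd hρ β h k, zero_add, integral_div] at h7
    exact h7
  have hw0 : 0 ≤ ∫ η, w η ∂(law d ρ) := integral_nonneg hw.nn
  have h3 := mul_le_mul_of_nonneg_left h2 hw0
  linarith

end Pool.Agent.W_7d29a1_SNP.EX76
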