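import Pool.Agent.W_7d29a1_SNP.DefsN28
import Pool.Agent.W_7d29a1_SNP.ExmA76
import Pool.Agent.W_7d29a1_SNP.Exm45
import Pool.Agent.W_7d29a1_P89.Orth79

/-!
Leaf EXM: the exponential moment of the sum of the cut deviations over separated levels.
-/

set_option autoImplicit false

namespace Pool.Agent.W_7d29a1_SNP.EX76

open MeasureTheory ProbabilityTheory Filter Topology Pool.Agent.W_MP_7d29a1_pr
  Pool.Agent.W_7d29a1_h46 Pool.Agent.W_7d29a1_h46u Pool.Agent.W_7d29a1_D2.B35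
  Pool.Agent.W_7d29a1_Q29 Pool.Agent.W_7d29a1_R34 Pool.Agent.W_7d29a1_SP Pool.Agent.W_7d29a1_PL

variable {d : ℕ} {ρ : Measure ℝ}

/-- The conditional mean against a weight of the past. -/
lemma tow76 [IsProbabilityMeasure ρ] {t : ℕ} {w : Env d → ℝ} (hw : Wt d t w) {F : Env d → ℝ}
    (hF : Integrable F (law d ρ)) :
    ∫ η, w η * cE ρ (Pa d t) F η ∂(law d ρ) = ∫ η, w η * F η ∂(law d ρ) := by
  have h1 := hw.mulI hF
  have h2 : Integrable (fun η => F η * w η) (law d ρ) := by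
    simpa only [mul_comm] using h1
  have h3 := int_mul_cE (ρ := ρ) (Pa d t) h2 hw.dep
  simp only [mul_comm (w _)]
  exact h3.symm

lemma cEi76 [IsProbabilityMeasure ρ] (t : ℕ) {F : Env d → ℝ} (hF : Integrable F (law d ρ)) :
    Integrable (cE ρ (Pa d t) F) (law d ρ) := Pool.Agent.W_7d29a1_P89.O79.int_cE' hF _

lemma cEp76 [IsProbabilityMeasure ρ] (t : ℕ) {F : Env d → ℝ} (hF : Integrable F (law d ρ)) :
    Integrable (fun η => max (cE ρ (Pa d t) F η) 0) (law d ρ) :=
  (cEi76 t hF).sup (integrable_zero _ _ _)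

/-- The upper part of the conditional mean. -/
lemma le76 [IsProbabilityMeasure ρ] {t : ℕ} {w : Env d → ℝ} (hw : Wt d t w) {F : Env d → ℝ}
    (hF : Integrable F (law d ρ)) :
    ∫ η, w η * F η ∂(law d ρ) ≤ ∫ η, w η * max (cE ρ (Pa d t) F η) 0 ∂(law d ρ) := by
  rw [← tow76 hw hF]
  exact integral_mono (hw.mulI (cEi76 t hF)) (hw.mulI (cEp76 t hF)) fun η =>
    mul_le_mul_of_nonneg_left (le_max_left _ _) (hw.nn η)

/-- (H) the positive part of the conditional mean at a later time. -/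
lemma h76 [IsProbabilityMeasure ρ] (hd : 0 < d) (hρ : EM ρ) (β : ℝ) (h : Vec d) {t t' k : ℕ}
    (htt : t ≤ t') (hE : En ρ β h k ≤ En ρ β h (t' + k)) {w : Env d → ℝ} (hw : Wt d t w) :
    ∫ η, w η * max (cE ρ (Pa d t')
        (fun η => X β h η (t' + k) - A ρ β h (t' + k)) η) 0 ∂(law d ρ) ≤
      ∫ η, w η * max (cE ρ (Pa d t)
        (fun η => X β h η (t' + k) - A ρ β h (t' + k)) η) 0 ∂(law d ρ) +
      (∫ η, w η * vv ρ β h t' η ∂(law d ρ) + En ρ β h t' * ∫ η, w η ∂(law d ρ)) := by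
  set F : Env d → ℝ := fun η => X β h η (t' + k) - A ρ β h (t' + k) with hFd
  have hF : Integrable F (law d ρ) := intX15 (ρ := ρ) hd hρ β h (t' + k)
  have hFm : Measurable F := (measurable_X β h _).sub_const _
  set N : Env d → ℝ := cE ρ (Pa d t') F with hN
  have hNm : Measurable N := measurable_cE hFm _
  have hNi : Integrable N (law d ρ) := cEi76 t' hF
  have hBm : MeasurableSet {η : Env d | N η < 0} := measurableSet_lt hNm measurable_const
  have hw' := hw.mono htt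
  set B : Set (Env d) := {η : Env d | N η < 0} with hB
  have hu : Wt d t' (fun η => w η * C79.one B η) := by
    obtain ⟨b, hb⟩ := hw.bd
    refine ⟨hw.m.mul (C79.one_meas hBm), ?_, fun η => mul_nonneg (hw.nn η) (C79.one_nn _ _),
      b, fun η => ?_⟩
    · intro η η' hη
      have h1 := hw'.dep hη
      have h2 : N η = N η' := cE_dep (ρ := ρ) (Pa d t') F hη
      have h3 : C79.one B η = C79.one B η' := by
        by_cases h4 : N η < 0
        · have h5 : N η' < 0 := by rw [← h2]; exact h4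
          rw [C79.one_of (B := B) (show η ∈ B from h4),
            C79.one_of (B := B) (show η' ∈ B from h5)]
        · have h5 : ¬ N η' < 0 := by rw [← h2]; exact h4
          rw [C79.one_not (B := B) (show η ∉ B from h4),
            C79.one_not (B := B) (show η' ∉ B from h5)]
      show w η * C79.one B η = w η' * C79.one B η'
      rw [h1, h3]
    · have h1 := C79.one_le B η
      have h2 := hw.nn η
      have h3 := hb η
      have h4 : w η * C79.one B η ≤ w η * 1 := mul_le_mul_of_nonneg_left h1 h2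
      linarith
  have e1 : ∀ η, w η * max (N η) 0 = w η * N η - (w η * C79.one B η) * N η := by
    intro η
    by_cases h4 : N η < 0
    · rw [C79.one_of (B := B) (show η ∈ B from h4), max_eq_right h4.le]
      ring
    · rw [C79.one_not (B := B) (show η ∉ B from h4), max_eq_left (not_lt.1 h4)]
      ring
  have e2 : ∫ η, w η * max (N η) 0 ∂(law d ρ) = ∫ η, w η * N η ∂(law d ρ) -
      ∫ η, (w η * C79.one B η) * N η ∂(law d ρ) := by
    rw [← integral_sub (hw.mulI hNi) (hu.mulI hNi)]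
    exact integral_congr_ae (Eventually.of_forall e1)
  have e3 : ∫ η, w η * N η ∂(law d ρ) = ∫ η, w η * F η ∂(law d ρ) := tow76 hw' hF
  have e4 : ∫ η, (w η * C79.one B η) * N η ∂(law d ρ) =
      ∫ η, (w η * C79.one B η) * F η ∂(law d ρ) := tow76 hu hF
  have h1 := n76 (ρ := ρ) hd hρ β h t' k hE hu
  have h2 : ∫ η, w η * F η ∂(law d ρ) ≤ ∫ η, w η * max (cE ρ (Pa d t) F η) 0 ∂(law d ρ) :=
    le76 hw hF
  have hvi := vv_int (ρ := ρ) hd hρ β h t'
  have h3 : ∫ η, (w η * C79.one B η) * vv ρ β h t' η ∂(law d ρ) ≤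
      ∫ η, w η * vv ρ β h t' η ∂(law d ρ) := by
    refine integral_mono (hu.mulI hvi) (hw.mulI hvi) fun η => ?_
    have h4 : w η * C79.one B η ≤ w η * 1 :=
      mul_le_mul_of_nonneg_left (C79.one_le B η) (hw.nn η)
    rw [mul_one] at h4
    exact mul_le_mul_of_nonneg_right h4 (vv_nn β h t' η)
  have h4 : ∫ η, w η * C79.one B η ∂(law d ρ) ≤ ∫ η, w η ∂(law d ρ) := by
    refine integral_mono (hu.int) (hw.int) fun η => ?_
    have h4 : w η * C79.one B η ≤ w η * 1 :=
      mul_le_mul_of_nonneg_left (C79.one_le B η) (hw.nn η)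
    rw [mul_one] at h4
    exact h4
  have h5 := mul_le_mul_of_nonneg_left h4 (En_nonneg15 (ρ := ρ) hd hρ β h t')
  have h6 : ∫ η, w η * max (N η) 0 ∂(law d ρ) = ∫ η, w η * F η ∂(law d ρ) -
      ∫ η, (w η * C79.one B η) * F η ∂(law d ρ) := by rw [e2, e3, e4]
  have h7 : -(∫ η, (w η * C79.one B η) * vv ρ β h t' η ∂(law d ρ) +
      En ρ β h t' * ∫ η, w η * C79.one B η ∂(law d ρ)) ≤
      ∫ η, (w η * C79.one B η) * F η ∂(law d ρ) := h1
  rw [h6]
  linarith

/-- A set of levels in increasing order. -/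
lemma srt76 (I : Finset ℕ) : ∃ lv : ℕ → ℕ, (∀ j, 1 ≤ j → j ≤ I.card → lv j ∈ I) ∧
    (∀ i j, 1 ≤ i → i < j → j ≤ I.card → lv i < lv j) ∧
    ∀ f : ℕ → ℝ, ∑ j ∈ Finset.Icc 1 I.card, f (lv j) = ∑ p ∈ I, f p := by
  classical
  induction I using Finset.induction_on_max with
  | empty => exact ⟨fun _ => 0, fun j h1 h2 => by simp at h2; omega,
      fun i j h1 h2 h3 => by simp at h3; omega, fun f => by simp⟩
  | insert a s ha ih =>
    obtain ⟨lv, h1, h2, h3⟩ := ih
    have hna : a ∉ s := fun h => lt_irrefl _ (ha a h)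
    have hc : (insert a s).card = s.card + 1 := Finset.card_insert_of_notMem hna
    refine ⟨fun j => if j ≤ s.card then lv j else a, ?_, ?_, ?_⟩
    · intro j hj1 hj2
      rw [hc] at hj2
      by_cases h : j ≤ s.card
      · simp only [h, if_true]
        exact Finset.mem_insert_of_mem (h1 j hj1 h)
      · simp only [h, if_false]
        exact Finset.mem_insert_self a s
    · intro i j hi hij hj
      rw [hc] at hj
      have hi' : i ≤ s.card := by omega
      by_cases h : j ≤ s.card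
      · simp only [h, hi', if_true]
        exact h2 i j hi hij h
      · simp only [h, hi', if_true, if_false]
        exact ha _ (h1 i hi hi')
    · intro f
      rw [hc, Finset.sum_Icc_succ_top (by omega), Finset.sum_insert hna, ← h3 f, add_comm]
      congr 1
      · have h : ¬ (s.card + 1 ≤ s.card) := by omega
        simp only [h, if_false]
      · refine Finset.sum_congr rfl fun j hj => ?_
        have h : j ≤ s.card := (Finset.mem_Icc.1 hj).2
        simp only [h, if_true]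

lemma X_dep76 (β : ℝ) (h : Vec d) (n t : ℕ) (hn : n ≤ t) :
    DependsOn (fun η : Env d => X β h η n) (Pa d t) := by
  intro η η' hη
  have h1 : Z β h η n = Z β h η' n := dependsOn_Z β h n fun p hp => hη p (by
    have h2 : 1 ≤ p.1 ∧ p.1 ≤ n := hp
    show p.1 ≤ t
    omega)
  show X β h η n = X β h η' n
  unfold X
  rw [h1]

lemma X_zero76 (β : ℝ) (h : Vec d) (η : Env d) : X β h η 0 = 0 := by
  unfold X
  rw [Z_zero, Real.log_one]

lemma cE_zero76 [IsProbabilityMeasure ρ] (hd : 0 < d) (hρ : EM ρ) (β : ℝ) (h : Vec d) (n : ℕ)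
    (η : Env d) : cE ρ (Pa d 0) (fun η => X β h η n - A ρ β h n) η = 0 := by
  rw [cE_of_indep, mean15 hd hρ β h n]
  intro η η' hη
  have h1 : Z β h η n = Z β h η' n := dependsOn_Z β h n fun p hp => hη p (by
    have h2 : 1 ≤ p.1 ∧ p.1 ≤ n := hp
    show ¬ (p.1 ≤ 0)
    omega)
  show X β h η n - A ρ β h n = X β h η' n - A ρ β h n
  unfold X
  rw [h1]

/-- EXM along a sequence of times. -/
theorem seq76 [IsProbabilityMeasure ρ] (hd : 0 < d) (hρ : EM ρ) {C b ε Θ : ℝ} (hC : 1 ≤ C)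
    (hε : 0 < ε) (hΘ : 0 ≤ Θ) (hb : 0 < b) (hbC : C / b ≤ ε / 4) :
    ∃ s₁ : ℝ, 0 < s₁ ∧ ∀ s : ℝ, 0 < s → s ≤ s₁ → ∃ r : ℝ, 0 < r ∧
      ∀ (β : ℝ) (h : Vec d) (k : ℕ) (M : ℕ → ℕ) (x : ℕ → ℝ), M 0 = 0 →
        (∀ i j, i < j → j ≤ k → M i ≤ M j) →
        (∀ i j, i < j → j ≤ k → En ρ β h (M j - M i) ≤ En ρ β h (M j)) →
        (∀ i, 1 ≤ i → i ≤ k → 0 < x i) → (∀ i, 1 ≤ i → i < k → x i ≤ r * x (i + 1)) →
        (∀ i, 1 ≤ i → i ≤ k → En ρ β h (M i) ≤ C * x i) →
        (∀ i, i < k → Fn ρ β h (M (i + 1) - M i) ≤ C * x (i + 1)) →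
        (∀ i, i < k → Va ρ β h (M (i + 1) - M i) ≤ C * x (i + 1) ^ 2) →
        ∫ η, Real.exp (s * ∑ j ∈ Finset.Icc 1 k,
          clp ρ β h (M j) (Θ * x j) (b * x j) η / x j) ∂(law d ρ) ≤ Real.exp (k * (s * ε)) := by
  classical
  obtain ⟨s₁, hs₁, H⟩ := exm45 (law d ρ) (C := 3 * C) (D := 1) (b := C + Θ + b) (ε := ε / 2)
    (by linarith) zero_le_one (by linarith) (by linarith)
  refine ⟨s₁, hs₁, fun s hs hss => ?_⟩
  obtain ⟨r₀, hr₀, G⟩ := H s hs hss
  have hC0 : 0 < C := by linarith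
  obtain ⟨r, hrd⟩ : ∃ r : ℝ, r = min r₀ (min 1 (ε / (4 * C))) := ⟨_, rfl⟩
  have hr : 0 < r := by rw [hrd]; positivity
  have hr1 : r ≤ r₀ := by rw [hrd]; exact min_le_left _ _
  have hr2 : r ≤ 1 := by rw [hrd]; exact (min_le_right _ _).trans (min_le_left _ _)
  have hr3 : C * r ≤ ε / 4 := by
    have h1 : r ≤ ε / (4 * C) := by
      rw [hrd]; exact (min_le_right _ _).trans (min_le_right _ _)
    rw [le_div_iff₀ (by positivity)] at h1
    linarith
  refine ⟨r, hr, fun β h k M x hM0 hM hgap hx0 hx hE hF hV => ?_⟩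
  -- the functionals
  obtain ⟨ψ, hψ⟩ : ∃ ψ : ℕ → Env d → ℝ, ψ = fun j η => if 1 ≤ j ∧ j ≤ k then
    clp ρ β h (M j) (Θ * x j) (b * x j) η / x j else 0 := ⟨_, rfl⟩
  have hψ1 : ∀ j, 1 ≤ j → j ≤ k → ∀ η, ψ j η = clp ρ β h (M j) (Θ * x j) (b * x j) η / x j := by
    intro j h1 h2 η
    rw [hψ]
    simp only [h1, h2, and_self, if_true]
  have hψ0 : ∀ j, ¬ (1 ≤ j ∧ j ≤ k) → ∀ η, ψ j η = 0 := by
    intro j h1 η
    rw [hψ]
    simp only [h1, if_false]
  have hcm : ∀ j a c, Measurable (clp ρ β h j a c) := fun j a c =>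
    ((((measurable_X β h j).sub_const _).min measurable_const).max measurable_const)
  have hψm : ∀ j, Measurable (ψ j) := by
    intro j
    by_cases h1 : 1 ≤ j ∧ j ≤ k
    · have h2 : ψ j = fun η => clp ρ β h (M j) (Θ * x j) (b * x j) η / x j := by
        funext η
        exact hψ1 j h1.1 h1.2 η
      rw [h2]
      exact (hcm _ _ _).div_const _
    · have h2 : ψ j = fun _ => 0 := by
        funext η
        exact hψ0 j h1 η
      rw [h2]
      exact measurable_const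
  have hψb : ∀ j η, |ψ j η| ≤ C + Θ + b := by
    intro j η
    by_cases h1 : 1 ≤ j ∧ j ≤ k
    · rw [hψ1 j h1.1 h1.2 η, abs_div, abs_of_pos (hx0 j h1.1 h1.2), div_le_iff₀ (hx0 j h1.1 h1.2)]
      have h2 := hx0 j h1.1 h1.2
      have h3 := hE j h1.1 h1.2
      have h4 := En_nonneg15 (ρ := ρ) hd hρ β h (M j)
      have h5 : 0 ≤ Θ * x j := by positivity
      have h6 : 0 ≤ b * x j := by positivity
      have h7 : 0 ≤ C * x j := by positivity
      unfold clp
      rw [abs_le]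
      constructor
      · have := le_max_right (min (X β h η (M j) - A ρ β h (M j)) (En ρ β h (M j) + Θ * x j))
          (-(b * x j))
        linarith
      · refine max_le ((min_le_right _ _).trans ?_) ?_
        · linarith
        · linarith
    · rw [hψ0 j h1 η, abs_zero]
      linarith
  have hψd : ∀ j, DependsOn (ψ j) (Pa d (M j)) := by
    intro j η η' hη
    by_cases h1 : 1 ≤ j ∧ j ≤ k
    · rw [hψ1 j h1.1 h1.2 η, hψ1 j h1.1 h1.2 η']
      have h2 : X β h η (M j) = X β h η' (M j) := X_dep76 β h (M j) (M j) le_rfl hη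
      unfold clp
      rw [h2]
    · rw [hψ0 j h1 η, hψ0 j h1 η']
  -- the weights
  have hMm : ∀ i j, i ≤ j → j ≤ k → M i ≤ M j := by
    intro i j hij hj
    rcases hij.lt_or_eq with h1 | h1
    · exact hM i j h1 hj
    · rw [h1]
  have hW : ∀ i, i ≤ k → Wt d (M i) (wE s ψ i) := by
    intro i hi
    refine ⟨wE_meas45 hψm i, ?_, fun η => (wE_pos45 s ψ i η).le,
      ⟨_, fun η => wE_le45 hs.le hψb i η⟩⟩
    intro η η' hη
    unfold wE
    have h1 : ∑ j ∈ Finset.Icc 1 i, ψ j η = ∑ j ∈ Finset.Icc 1 i, ψ j η' := by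
      refine Finset.sum_congr rfl fun j hj => ?_
      have hj' := Finset.mem_Icc.1 hj
      refine hψd j fun p hp => hη p ?_
      have h2 := hMm j i hj'.2 hi
      have h3 : p.1 ≤ M j := hp
      show p.1 ≤ M i
      omega
    rw [h1]
  have hEi : ∀ i, i < k → En ρ β h (M i) ≤ C * (r * x (i + 1)) := by
    intro i hi
    rcases Nat.eq_zero_or_pos i with h0 | h0
    · rw [h0, hM0, En_zero15]
      have := hx0 1 le_rfl (by omega)
      positivity
    · refine (hE i h0 hi.le).trans (mul_le_mul_of_nonneg_left (hx i h0 hi) hC0.le)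
  have hFi : ∀ j, Integrable (fun η : Env d => X β h η (M j) - A ρ β h (M j)) (law d ρ) :=
    fun j => intX15 (ρ := ρ) hd hρ β h (M j)
  have hvi : ∀ i, Integrable (vv ρ β h (M i)) (law d ρ) := fun i => vv_int hd hρ β h (M i)
  have hG := G k x (ε / 2) ψ (fun i => vv ρ β h (M i))
    (fun i j => cE ρ (Pa d (M i)) (fun η => X β h η (M j) - A ρ β h (M j)))
    (by linarith) hx0
    (fun i h1 h2 => (hx i h1 h2).trans (mul_le_mul_of_nonneg_right hr1
      (hx0 (i + 1) (by omega) (by omega)).le))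
    hψm hψb hvi (fun i η => vv_nn β h (M i) η) (fun i j => cEi76 (M i) (hFi j))
    (fun η => by
      show max (A ρ β h (M 0) - X β h η (M 0)) 0 = 0
      rw [hM0, A_zero15, X_zero76]
      simp)
    (fun j η => by
      show cE ρ (Pa d (M 0)) (fun η => X β h η (M j) - A ρ β h (M j)) η = 0
      rw [hM0]
      exact cE_zero76 hd hρ β h (M j) η)
  -- (b) of the recursion
  have key : ∀ i, i < k → ∫ η, wE s ψ i η * vv ρ β h (M (i + 1)) η ∂(law d ρ) ≤
      ∫ η, wE s ψ i η * vv ρ β h (M i) η ∂(law d ρ) +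
        2 * C * x (i + 1) * ∫ η, wE s ψ i η ∂(law d ρ) := by
    intro i hi
    have hMi := hM i (i + 1) (Nat.lt_succ_self i) (by omega)
    have he : M i + (M (i + 1) - M i) = M (i + 1) := by omega
    have hg := hgap i (i + 1) (Nat.lt_succ_self i) (by omega)
    have h1 := v76 (ρ := ρ) hd hρ β h (M i) (M (i + 1) - M i) (by rw [he]; exact hg)
      (hW i hi.le)
    rw [he] at h1
    have hw0 : 0 ≤ ∫ η, wE s ψ i η ∂(law d ρ) := integral_nonneg (hW i hi.le).nn
    have hx1 := hx0 (i + 1) (by omega) (by omega)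
    have h2 := hEi i hi
    have h3 : C * (r * x (i + 1)) ≤ C * (1 * x (i + 1)) :=
      mul_le_mul_of_nonneg_left (mul_le_mul_of_nonneg_right hr2 hx1.le) hC0.le
    have h4 := hF i hi
    have h5 : (En ρ β h (M i) + Fn ρ β h (M (i + 1) - M i)) * ∫ η, wE s ψ i η ∂(law d ρ) ≤
        (2 * C * x (i + 1)) * ∫ η, wE s ψ i η ∂(law d ρ) :=
      mul_le_mul_of_nonneg_right (by linarith) hw0
    linarith
  have hlin : ∀ i j (c : ℝ), i ≤ k →
      ∫ η, wE s ψ i η * (1 * max (cE ρ (Pa d (M i))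
        (fun η => X β h η (M j) - A ρ β h (M j)) η) 0 + 1 * vv ρ β h (M i) η + c) ∂(law d ρ) =
      ∫ η, wE s ψ i η * max (cE ρ (Pa d (M i))
        (fun η => X β h η (M j) - A ρ β h (M j)) η) 0 ∂(law d ρ) +
      (∫ η, wE s ψ i η * vv ρ β h (M i) η ∂(law d ρ) + c * ∫ η, wE s ψ i η ∂(law d ρ)) := by
    intro i j c hi
    have i1 := (hW i hi).mulI (cEp76 (M i) (hFi j))
    have i2 := (hW i hi).mulI (hvi i)
    have i3 := ((hW i hi).int (ρ := ρ)).const_mul c
    have e1 := integral_add i1 (i2.add i3)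
    have e2 := integral_add i2 i3
    simp only [Pi.add_apply] at e1
    rw [← integral_const_mul, ← e2, ← e1]
    refine integral_congr_ae (Eventually.of_forall fun η => ?_)
    show _ = _
    ring
  have hG2 := hG ?_ ?_ ?_
  · have e1 : (k : ℝ) * (s * (ε / 2 + ε / 2)) = k * (s * ε) := by ring
    rw [e1] at hG2
    refine le_trans (le_of_eq ?_) hG2
    refine integral_congr_ae (Eventually.of_forall fun η => ?_)
    show Real.exp (s * ∑ j ∈ Finset.Icc 1 k,
          clp ρ β h (M j) (Θ * x j) (b * x j) η / x j) =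
      Real.exp (s * ∑ j ∈ Finset.Icc 1 k, ψ j η)
    have e2 : ∑ j ∈ Finset.Icc 1 k, clp ρ β h (M j) (Θ * x j) (b * x j) η / x j =
        ∑ j ∈ Finset.Icc 1 k, ψ j η := Finset.sum_congr rfl fun j hj => by
      have hj' := Finset.mem_Icc.1 hj
      exact (hψ1 j hj'.1 hj'.2 η).symm
    rw [e2]
  · -- (a)
    intro i hi j hj1 hj2
    show ∫ η, wE s ψ i η * max (cE ρ (Pa d (M (i + 1)))
        (fun η => X β h η (M j) - A ρ β h (M j)) η) 0 ∂(law d ρ) ≤
      ∫ η, wE s ψ i η * (1 * max (cE ρ (Pa d (M i))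
        (fun η => X β h η (M j) - A ρ β h (M j)) η) 0 + 1 * vv ρ β h (M i) η +
          3 * C * x (i + 1)) ∂(law d ρ)
    rw [hlin i j _ hi.le]
    have hMi := hM i (i + 1) (Nat.lt_succ_self i) (by omega)
    have hMj := hM (i + 1) j hj1 hj2
    have he : M (i + 1) + (M j - M (i + 1)) = M j := by omega
    have hg := hgap (i + 1) j hj1 hj2
    have h1 := h76 (ρ := ρ) hd hρ β h (t := M i) (t' := M (i + 1)) (k := M j - M (i + 1)) hMi
      (by rw [he]; exact hg) (hW i hi.le)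
    rw [he] at h1
    have h2 := key i hi
    have hw0 : 0 ≤ ∫ η, wE s ψ i η ∂(law d ρ) := integral_nonneg (hW i hi.le).nn
    have h3 := mul_le_mul_of_nonneg_right (hE (i + 1) (by omega) (by omega)) hw0
    linarith
  · -- (b)
    intro i hi
    show ∫ η, wE s ψ i η * vv ρ β h (M (i + 1)) η ∂(law d ρ) ≤
      ∫ η, wE s ψ i η * (1 * max (cE ρ (Pa d (M i))
        (fun η => X β h η (M (i + 1)) - A ρ β h (M (i + 1))) η) 0 + 1 * vv ρ β h (M i) η +
          3 * C * x (i + 1)) ∂(law d ρ)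
    rw [hlin i (i + 1) _ hi.le]
    have h2 := key i hi
    have hw0 : 0 ≤ ∫ η, wE s ψ i η ∂(law d ρ) := integral_nonneg (hW i hi.le).nn
    have hx1 := hx0 (i + 1) (by omega) (by omega)
    have h3 : 0 ≤ ∫ η, wE s ψ i η * max (cE ρ (Pa d (M i))
        (fun η => X β h η (M (i + 1)) - A ρ β h (M (i + 1))) η) 0 ∂(law d ρ) :=
      integral_nonneg fun η => mul_nonneg ((hW i hi.le).nn η) (le_max_right _ _)
    have h4 : 0 ≤ C * x (i + 1) * ∫ η, wE s ψ i η ∂(law d ρ) := by positivity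
    linarith
  · -- (c)
    intro i hi
    show ∫ η, wE s ψ i η * ψ (i + 1) η ∂(law d ρ) ≤
      ∫ η, wE s ψ i η * (ε / 2 + (1 * max (cE ρ (Pa d (M i))
        (fun η => X β h η (M (i + 1)) - A ρ β h (M (i + 1))) η) 0 + 1 * vv ρ β h (M i) η) /
          x (i + 1)) ∂(law d ρ)
    have hx1 := hx0 (i + 1) (by omega) (by omega)
    have hw := hW i hi.le
    have hw0 : 0 ≤ ∫ η, wE s ψ i η ∂(law d ρ) := integral_nonneg hw.nn
    have hMi := hM i (i + 1) (Nat.lt_succ_self i) (by omega)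
    have he : M i + (M (i + 1) - M i) = M (i + 1) := by omega
    have hg := hgap i (i + 1) (Nat.lt_succ_self i) (by omega)
    have hbx : 0 < b * x (i + 1) := by positivity
    have h1 := c76 (ρ := ρ) hd hρ β h (M i) (M (i + 1) - M i) (by rw [he]; exact hg) hw hbx
    rw [he] at h1
    have h2 := le76 hw (hFi (i + 1))
    have h3 := hEi i hi
    have h4 : C * (r * x (i + 1)) ≤ ε / 4 * x (i + 1) := by
      have := mul_le_mul_of_nonneg_right hr3 hx1.le
      linarith
    have h5 : Va ρ β h (M (i + 1) - M i) / (b * x (i + 1)) ≤ ε / 4 * x (i + 1) := by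
      rw [div_le_iff₀ hbx]
      have h6 := hV i hi
      have h7 : C ≤ ε / 4 * b := by
        rw [div_le_iff₀ hb] at hbC
        exact hbC
      have h8 : C * x (i + 1) ^ 2 ≤ ε / 4 * b * x (i + 1) ^ 2 :=
        mul_le_mul_of_nonneg_right h7 (by positivity)
      calc Va ρ β h (M (i + 1) - M i) ≤ ε / 4 * b * x (i + 1) ^ 2 := h6.trans h8
        _ = _ := by ring
    have h6 := mul_le_mul_of_nonneg_right h5 hw0
    have h7 := mul_le_mul_of_nonneg_right (h3.trans h4) hw0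
    have hmi : Integrable (fun η : Env d => max (X β h η (M (i + 1)) - A ρ β h (M (i + 1)))
        (-(b * x (i + 1)))) (law d ρ) := (hFi (i + 1)).sup (integrable_const _)
    have hψi : Integrable (fun η => wE s ψ i η * ψ (i + 1) η) (law d ρ) := by
      refine hw.mulI (Integrable.of_bound (C := C + Θ + b) (hψm (i + 1)).aestronglyMeasurable
        (Eventually.of_forall fun η => ?_))
      rw [Real.norm_eq_abs]
      exact hψb (i + 1) η
    have h8 : ∫ η, wE s ψ i η * ψ (i + 1) η ∂(law d ρ) ≤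
        (∫ η, wE s ψ i η * max (X β h η (M (i + 1)) - A ρ β h (M (i + 1)))
          (-(b * x (i + 1))) ∂(law d ρ)) / x (i + 1) := by
      rw [← integral_div]
      refine integral_mono hψi ((hw.mulI hmi).div_const _) fun η => ?_
      have h9 : ψ (i + 1) η ≤ max (X β h η (M (i + 1)) - A ρ β h (M (i + 1)))
          (-(b * x (i + 1))) / x (i + 1) := by
        rw [hψ1 (i + 1) (by omega) (by omega) η]
        refine div_le_div_of_nonneg_right ?_ hx1.le
        unfold clp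
        exact max_le_max (min_le_left _ _) le_rfl
      have h10 := mul_le_mul_of_nonneg_left h9 (hw.nn η)
      calc wE s ψ i η * ψ (i + 1) η ≤ _ := h10
        _ = _ := by ring
    have i1 := hw.mulI (cEp76 (M i) (hFi (i + 1)))
    have i2 := hw.mulI (hvi i)
    have i3 := (hw.int (ρ := ρ)).const_mul (ε / 2 * x (i + 1))
    have e1 := integral_add i3 (i1.add i2)
    have e2 := integral_add i1 i2
    simp only [Pi.add_apply] at e1
    have e3 : ∫ η, wE s ψ i η * (ε / 2 + (1 * max (cE ρ (Pa d (M i))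
        (fun η => X β h η (M (i + 1)) - A ρ β h (M (i + 1))) η) 0 + 1 * vv ρ β h (M i) η) /
          x (i + 1)) ∂(law d ρ) =
        (ε / 2 * x (i + 1) * (∫ η, wE s ψ i η ∂(law d ρ)) +
          (∫ η, wE s ψ i η * max (cE ρ (Pa d (M i))
            (fun η => X β h η (M (i + 1)) - A ρ β h (M (i + 1))) η) 0 ∂(law d ρ) +
            ∫ η, wE s ψ i η * vv ρ β h (M i) η ∂(law d ρ))) / x (i + 1) := by
      rw [← integral_const_mul, ← e2, ← e1, ← integral_div]
      refine integral_congr_ae (Eventually.of_forall fun η => ?_)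
      show _ = _
      field_simp
    rw [e3]
    refine h8.trans (div_le_div_of_nonneg_right ?_ hx1.le)
    linarith

/-- **The leaf EXM.** -/
theorem exmN76 [IsProbabilityMeasure ρ] (hd : 0 < d) (hρ : EM ρ) {β : ℝ} (hVar : VarN d ρ β) :
    ExmN d ρ β := by
  intro c₀ Λ e₁ ε B hc hΛ he₁ hε
  obtain ⟨C, hC, hv⟩ := hVar c₀ Λ B hc hΛ
  have hC0 : 0 < C := by linarith
  refine ⟨4 * C / ε, by positivity, fun Θ hΘ => ?_⟩
  obtain ⟨s₁, hs₁, H⟩ := seq76 (d := d) (ρ := ρ) hd hρ (C := C) (b := 4 * C / ε) (ε := ε) (Θ := Θ)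
    hC hε hΘ (by positivity) (le_of_eq (by field_simp))
  refine ⟨s₁, hs₁, fun s hs hss => ?_⟩
  obtain ⟨r, hr, G⟩ := H s hs hss
  obtain ⟨b₂, hb₂⟩ := pow_unbounded_of_one_lt (1 / r + C / e₁ + 1) (one_lt_two : (1 : ℝ) < 2)
  have hr' : 0 < 1 / r := by positivity
  have hCe : 0 < C / e₁ := by positivity
  have hb1 : 1 / r ≤ 2 ^ b₂ := by linarith
  have hb2 : C / e₁ < 2 ^ b₂ := by linarith
  have hb3 : 1 ≤ b₂ := by
    by_contra h0
    have h1 : b₂ = 0 := by omega
    rw [h1, pow_zero] at hb₂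
    linarith
  refine ⟨b₂, C, hb3, hC, fun h hL m Hh I hLv hI hsp => ?_⟩
  obtain ⟨lv, l1, l2, l3⟩ := srt76 I
  -- the facts of a level
  have fct : ∀ p ∈ I, ∀ k : ℕ, k ≤ B * m p → Va ρ β h k ≤ C * 4 ^ p ∧ fM ρ β h k ≤ C * 2 ^ p := by
    intro p hp k hk
    obtain ⟨a1, a2, a3, a4, a5, a6⟩ := hI p hp
    refine hv h hL m p hLv a1 a2 ?_ k hk
    have h1 : 0 ≤ Real.log (m p) := Real.log_nonneg (by exact_mod_cast a2)
    have h2 : C * 1 ≤ C * (1 + Real.log (m p)) := mul_le_mul_of_nonneg_left (by linarith) hC0.le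
    linarith
  have sep : ∀ p ∈ I, ∀ q ∈ I, p < q → (2 : ℝ) ^ b₂ * 2 ^ p ≤ 2 ^ q := by
    intro p hp q hq hpq
    rw [← pow_add]
    exact pow_le_pow_right₀ one_le_two (by have := hsp p hp q hq hpq; omega)
  have inc : ∀ p ∈ I, ∀ q ∈ I, p < q → Hh p < Hh q := by
    intro p hp q hq hpq
    by_contra hcon
    obtain ⟨a1, a2, a3, a4, a5, a6⟩ := hI p hp
    obtain ⟨b1, b2, b3, b4, b5, b6⟩ := hI q hq
    have h1 := (fct p hp (Hh q) (by omega)).2
    have h2 : En ρ β h (Hh q) ≤ fM ρ β h (Hh q) := le_max_left _ _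
    have h3 := sep p hp q hq hpq
    have h4 : e₁ * (2 ^ b₂ * 2 ^ p) ≤ e₁ * 2 ^ q := mul_le_mul_of_nonneg_left h3 he₁.le
    rw [div_lt_iff₀ he₁] at hb2
    have h5 : C * 2 ^ p < 2 ^ b₂ * e₁ * 2 ^ p :=
      mul_lt_mul_of_pos_right hb2 (by positivity)
    linarith
  have pos : ∀ p ∈ I, 0 < Hh p := by
    intro p hp
    obtain ⟨a1, a2, a3, a4, a5, a6⟩ := hI p hp
    by_contra h0
    have h1 : Hh p = 0 := by omega
    rw [h1, En_zero15] at a4
    have : 0 < e₁ * 2 ^ p := by positivity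
    linarith
  -- the sequence
  obtain ⟨M, hMd⟩ : ∃ M : ℕ → ℕ, M = fun j => if j = 0 then 0 else Hh (lv j) := ⟨_, rfl⟩
  have hM0 : M 0 = 0 := by rw [hMd]; simp
  have hM1 : ∀ j, 1 ≤ j → M j = Hh (lv j) := by
    intro j hj
    rw [hMd]
    simp only [show j ≠ 0 by omega, if_false]
  have hMl : ∀ i j, i < j → j ≤ I.card → M i ≤ M j := by
    intro i j hij hj
    rw [hM1 j (by omega)]
    rcases Nat.eq_zero_or_pos i with h0 | h0
    · rw [h0, hM0]
      omega
    · rw [hM1 i h0]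
      exact (inc _ (l1 i h0 (by omega)) _ (l1 j (by omega) hj) (l2 i j h0 hij hj)).le
  have hgap : ∀ i j, i < j → j ≤ I.card → En ρ β h (M j - M i) ≤ En ρ β h (M j) := by
    intro i j hij hj
    rcases Nat.eq_zero_or_pos i with h0 | h0
    · rw [h0, hM0, Nat.sub_zero]
    · have hq := l1 j (by omega) hj
      obtain ⟨b1, b2, b3, b4, b5, b6⟩ := hI _ hq
      have hp := pos _ (l1 i h0 (by omega))
      have hlt := inc _ (l1 i h0 (by omega)) _ (l1 j (by omega) hj) (l2 i j h0 hij hj)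
      rw [hM1 j (by omega), hM1 i h0]
      exact (b5 _ (by omega)).le.trans b4
  have hMB : ∀ i, i < I.card → M (i + 1) - M i ≤ B * m (lv (i + 1)) := by
    intro i hi
    obtain ⟨b1, b2, b3, b4, b5, b6⟩ := hI _ (l1 (i + 1) (by omega) (by omega))
    rw [hM1 (i + 1) (by omega)]
    omega
  have hfin := G β h I.card M (fun j => 2 ^ (lv j)) hM0 hMl hgap
    (fun i _ _ => by positivity) ?_ ?_ ?_ ?_
  · refine le_trans (le_of_eq ?_) hfin
    refine integral_congr_ae (Eventually.of_forall fun η => ?_)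
    show Real.exp (s * ∑ p ∈ I, clp ρ β h (Hh p) (Θ * 2 ^ p) (4 * C / ε * 2 ^ p) η / 2 ^ p) =
      Real.exp (s * ∑ j ∈ Finset.Icc 1 I.card,
        clp ρ β h (M j) (Θ * 2 ^ (lv j)) (4 * C / ε * 2 ^ (lv j)) η / 2 ^ (lv j))
    rw [← l3 (fun p => clp ρ β h (Hh p) (Θ * 2 ^ p) (4 * C / ε * 2 ^ p) η / 2 ^ p)]
    have e1 : ∑ j ∈ Finset.Icc 1 I.card,
        clp ρ β h (Hh (lv j)) (Θ * 2 ^ (lv j)) (4 * C / ε * 2 ^ (lv j)) η / 2 ^ (lv j) =
        ∑ j ∈ Finset.Icc 1 I.card,
        clp ρ β h (M j) (Θ * 2 ^ (lv j)) (4 * C / ε * 2 ^ (lv j)) η / 2 ^ (lv j) := by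
      refine Finset.sum_congr rfl fun j hj => ?_
      rw [hM1 j (Finset.mem_Icc.1 hj).1]
    rw [e1]
  · intro i h1 h2
    show (2 : ℝ) ^ (lv i) ≤ r * 2 ^ (lv (i + 1))
    have h3 := sep _ (l1 i h1 (by omega)) _ (l1 (i + 1) (by omega) (by omega))
      (l2 i (i + 1) h1 (Nat.lt_succ_self i) (by omega))
    have h4 : 1 / r * 2 ^ (lv i) ≤ 2 ^ b₂ * 2 ^ (lv i) :=
      mul_le_mul_of_nonneg_right hb1 (by positivity)
    have h5 : r * (1 / r * 2 ^ (lv i)) ≤ r * 2 ^ (lv (i + 1)) :=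
      mul_le_mul_of_nonneg_left (h4.trans h3) hr.le
    calc (2 : ℝ) ^ (lv i) = r * (1 / r * 2 ^ (lv i)) := by field_simp
      _ ≤ _ := h5
  · intro i h1 h2
    show En ρ β h (M i) ≤ C * 2 ^ (lv i)
    obtain ⟨b1, b2, b3, b4, b5, b6⟩ := hI _ (l1 i h1 h2)
    rw [hM1 i h1]
    exact (le_max_left _ _).trans (fct _ (l1 i h1 h2) _ b3).2
  · intro i hi
    show Fn ρ β h (M (i + 1) - M i) ≤ C * 2 ^ (lv (i + 1))
    exact (le_max_right _ _).trans (fct _ (l1 (i + 1) (by omega) (by omega)) _ (hMB i hi)).2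
  · intro i hi
    show Va ρ β h (M (i + 1) - M i) ≤ C * (2 ^ (lv (i + 1))) ^ 2
    have h1 := (fct _ (l1 (i + 1) (by omega) (by omega)) _ (hMB i hi)).1
    have h2 : (4 : ℝ) ^ (lv (i + 1)) = (2 ^ (lv (i + 1))) ^ 2 := by
      rw [show (4 : ℝ) = 2 ^ 2 by norm_num, ← pow_mul, ← pow_mul, mul_comm]
    rw [h2] at h1
    exact h1

end Pool.Agent.W_7d29a1_SNP.EX76
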