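import Pool.Agent.W_7d29a1_SNP.DefsN28
import Pool.Agent.W_7d29a1_PL.DefsPX
import Pool.Agent.W_7d29a1_SP.Bas15

/-!
The Newman-Piza inequality is strict, leaf FS (helper94): at a long level which is not cheap the
random fluctuation is small. From the growth (`GrowN`) and the variance at such a level (`VarN`).
-/

namespace Pool.Agent.W_7d29a1_SNP

open MeasureTheory ProbabilityTheory Filter Topology Pool.Agent.W_MP_7d29a1_pr
  Pool.Agent.W_7d29a1_h46 Pool.Agent.W_7d29a1_h46u Pool.Agent.W_7d29a1_D2.B35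
  Pool.Agent.W_7d29a1_Q29 Pool.Agent.W_7d29a1_R34 Pool.Agent.W_7d29a1_SP
  Pool.Agent.W_7d29a1_PL Pool.Agent.W_7d29a1_SD Pool.Agent.W_7d29a1_KZ

namespace F94

variable {Ω : Type*} [MeasurableSpace Ω] {μ : Measure Ω} [IsProbabilityMeasure μ]

/-- The upper tail of a centred variable from its first and second moments. -/
lemma tail {Y : Ω → ℝ} (hm : Measurable Y) (hi : Integrable Y μ)
    (h2 : Integrable (fun ω => Y ω ^ 2) μ) (h0 : ∫ ω, Y ω ∂μ = 0) {F V : ℝ} (hF : 0 < F)
    (hV : 0 < V) (hF1 : F = ∫ ω, |Y ω| ∂μ) (hV1 : ∫ ω, Y ω ^ 2 ∂μ ≤ V) :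
    F ^ 2 / (16 * V) ≤ μ.real {ω | F / 4 < Y ω} := by
  set S := {ω | F / 4 < Y ω} with hS
  have mS : MeasurableSet S := measurableSet_lt measurable_const hm
  have key : ∀ c : ℝ, 0 < c → F / 4 ≤ c / 2 * μ.real S + V / (2 * c) := by
    intro c hc
    have hp : ∀ ω, (1 / 2) * |Y ω| + (1 / 2) * Y ω ≤
        F / 4 + (S.indicator (fun _ => c / 2) ω + Y ω ^ 2 / (2 * c)) := by
      intro ω
      have hq : 0 ≤ Y ω ^ 2 / (2 * c) := by positivity
      by_cases hω : ω ∈ S
      · rw [Set.indicator_of_mem hω]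
        have h3 : F / 4 < Y ω := hω
        have h4 : |Y ω| = Y ω := abs_of_nonneg (by linarith)
        have h5 : Y ω ≤ c / 2 + Y ω ^ 2 / (2 * c) := by
          have h6 : c / 2 + Y ω ^ 2 / (2 * c) - Y ω = (Y ω - c) ^ 2 / (2 * c) := by
            field_simp
            ring
          have h7 : 0 ≤ (Y ω - c) ^ 2 / (2 * c) := by positivity
          linarith
        rw [h4]
        linarith
      · rw [Set.indicator_of_notMem hω]
        have h3 : Y ω ≤ F / 4 := not_lt.1 hω
        rcases le_total 0 (Y ω) with h4 | h4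
        · rw [abs_of_nonneg h4]
          linarith
        · rw [abs_of_nonpos h4]
          linarith
    have hI : ∫ ω, ((1 / 2) * |Y ω| + (1 / 2) * Y ω) ∂μ ≤
        ∫ ω, (F / 4 + (S.indicator (fun _ => c / 2) ω + Y ω ^ 2 / (2 * c))) ∂μ := by
      refine integral_mono ((hi.abs.const_mul _).add (hi.const_mul _)) ?_ hp
      exact (integrable_const _).add
        (((integrable_const _).indicator mS).add (h2.div_const _))
    have e1 : ∫ ω, ((1 / 2) * |Y ω| + (1 / 2) * Y ω) ∂μ = F / 2 := by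
      rw [integral_add (hi.abs.const_mul _) (hi.const_mul _), integral_const_mul,
        integral_const_mul, h0, ← hF1]
      ring
    have e2 : ∫ ω, (F / 4 + (S.indicator (fun _ => c / 2) ω + Y ω ^ 2 / (2 * c))) ∂μ =
        F / 4 + (c / 2 * μ.real S + (∫ ω, Y ω ^ 2 ∂μ) / (2 * c)) := by
      have j1 : Integrable (fun ω => S.indicator (fun _ => c / 2) ω) μ :=
        (integrable_const _).indicator mS
      have j2 : Integrable (fun ω => Y ω ^ 2 / (2 * c)) μ := h2.div_const _
      have j3 : Integrable (fun ω => S.indicator (fun _ => c / 2) ω + Y ω ^ 2 / (2 * c)) μ :=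
        j1.add j2
      have j4 : ∫ ω, Y ω ^ 2 / (2 * c) ∂μ = (∫ ω, Y ω ^ 2 ∂μ) / (2 * c) := integral_div _ _
      rw [integral_add (integrable_const _) j3, integral_add j1 j2, j4,
        integral_indicator_const _ mS, integral_const, probReal_univ, one_smul, smul_eq_mul,
        mul_comm (μ.real S)]
    rw [e1, e2] at hI
    have h8 : (∫ ω, Y ω ^ 2 ∂μ) / (2 * c) ≤ V / (2 * c) :=
      div_le_div_of_nonneg_right hV1 (by positivity)
    linarith
  -- c := 4 V / F
  have h9 := key (4 * V / F) (by positivity)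
  have e3 : V / (2 * (4 * V / F)) = F / 8 := by
    field_simp
    ring
  rw [e3] at h9
  have h10 : F / 8 ≤ 4 * V / F / 2 * μ.real S := by linarith
  rw [div_le_iff₀ (by positivity)]
  have h11 : F / 8 * (8 * F) ≤ 4 * V / F / 2 * μ.real S * (8 * F) :=
    mul_le_mul_of_nonneg_right h10 (by positivity)
  have e4 : 4 * V / F / 2 * μ.real S * (8 * F) = μ.real S * (16 * V) := by
    field_simp
    ring
  rw [e4] at h11
  nlinarith

end F94

/-- **Leaf FS.** -/
theorem fsN94 {d : ℕ} (hd : 0 < d) {ρ : Measure ℝ} [IsProbabilityMeasure ρ] (hρ : EM ρ) {β : ℝ}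
    (hG : GrowN d ρ β) (hV : VarN d ρ β) : FsN d ρ β := by
  intro c₀ Λ ε B hc₀ hΛ hε
  obtain ⟨CV, hCV1, hvar⟩ := hV c₀ Λ B hc₀ hΛ
  obtain ⟨Cg, hCg1, hgrow⟩ := hG c₀ (8 / ε + 1) hc₀ (by
    have : 0 < 8 / ε := by positivity
    linarith)
  have hCV0 : 0 < CV := by linarith
  have hCg0 : 0 < Cg := by linarith
  -- the probability of both tails
  obtain ⟨q, hqd⟩ : ∃ q, q = min (ε ^ 2 / (16 * CV)) 1 := ⟨_, rfl⟩
  have hq0 : 0 < q := by
    rw [hqd]
    exact lt_min (by positivity) one_pos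
  have hq1 : q ≤ 1 := by
    rw [hqd]
    exact min_le_right _ _
  have hqe : q ≤ ε ^ 2 / (16 * CV) := by
    rw [hqd]
    exact min_le_left _ _
  have hlq : 0 ≤ Real.log (1 / q) := Real.log_nonneg (by rw [le_div_iff₀ hq0]; linarith)
  obtain ⟨R, hRd⟩ : ∃ R, R = Cg * B * (1 / q) ^ Cg + 1 := ⟨_, rfl⟩
  have hpq : 0 < (1 / q) ^ Cg := Real.rpow_pos_of_pos (by positivity) _
  have hR1 : 1 ≤ R := by
    rw [hRd]
    have : 0 ≤ Cg * B * (1 / q) ^ Cg := by positivity
    linarith
  refine ⟨Real.log (R + 1) + 1, CV + 2 * (Cg * (1 + Real.log (1 / q))) / ε, ?_, ?_⟩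
  · have : 0 ≤ 2 * (Cg * (1 + Real.log (1 / q))) / ε := by positivity
    linarith
  intro h hL m p hLv hNc hmp hCp hD k hk
  by_contra hcon
  push Not at hcon
  obtain ⟨x, hx⟩ : ∃ x : ℝ, x = 2 ^ p := ⟨_, rfl⟩
  have hx1 : 1 ≤ x := by
    rw [hx]
    exact one_le_pow₀ (by norm_num)
  have hx0 : 0 < x := by linarith
  have hmp' : (1 : ℝ) ≤ m p := by exact_mod_cast hmp
  have hCVp : CV ≤ 2 ^ p := by
    have : 0 ≤ 2 * (Cg * (1 + Real.log (1 / q))) / ε := by positivity
    linarith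
  have hVk := (hvar h hL m p hLv hNc hmp hCVp k hk).1
  have h4 : (4 : ℝ) ^ p = x ^ 2 := by
    rw [hx, ← pow_mul, mul_comm, pow_mul]
    norm_num
  rw [h4] at hVk
  rw [← hx] at hcon hCp
  obtain ⟨F, hFd⟩ : ∃ F, F = Fn ρ β h k := ⟨_, rfl⟩
  rw [← hFd] at hcon
  have hF0 : 0 < F := lt_trans (by positivity) hcon
  -- k is positive
  have hk1 : 1 ≤ k := by
    rcases Nat.eq_zero_or_pos k with h5 | h5
    · exfalso
      rw [h5, Fn_zero15] at hFd
      linarith
    · exact h5
  have hm' : Measurable fun η => X β h η k - A ρ β h k := (measurable_X β h k).sub_const _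
  have i1 := intX15 (ρ := ρ) hd hρ β h k
  have i2 := N85.Va_int (ρ := ρ) hd hρ β h k
  have i0 := mean15 (ρ := ρ) hd hρ β h k
  have hVx : 0 < CV * x ^ 2 := by positivity
  -- the two tails
  have hqF : q ≤ F ^ 2 / (16 * (CV * x ^ 2)) := by
    refine hqe.trans ?_
    rw [div_le_div_iff₀ (by positivity) (by positivity)]
    have h5 : (ε * x) ^ 2 ≤ F ^ 2 := pow_le_pow_left₀ (by positivity) hcon.le 2
    nlinarith [mul_le_mul_of_nonneg_left h5 hCV0.le]
  have hup : q ≤ (law d ρ).real {η | A ρ β h k + F / 4 < X β h η k} := by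
    refine hqF.trans ((F94.tail hm' i1 i2 i0 hF0 hVx ?_ hVk).trans (measureReal_mono ?_))
    · rw [hFd]
      rfl
    · intro η (hη : F / 4 < X β h η k - A ρ β h k)
      show A ρ β h k + F / 4 < X β h η k
      linarith
  have hdn : q ≤ (law d ρ).real {η | X β h η k ≤ A ρ β h k - F / 4} := by
    refine hqF.trans ((F94.tail hm'.neg i1.neg ?_ ?_ hF0 hVx ?_ ?_).trans (measureReal_mono ?_))
    · have e5 : (fun ω => (-fun η => X β h η k - A ρ β h k) ω ^ 2) =
          fun η => (X β h η k - A ρ β h k) ^ 2 := by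
        funext η
        simp only [Pi.neg_apply, neg_sq]
      rw [e5]
      exact i2
    · rw [show (∫ η, (-fun η => X β h η k - A ρ β h k) η ∂(law d ρ)) =
        -∫ η, (X β h η k - A ρ β h k) ∂(law d ρ) from integral_neg _, i0, neg_zero]
    · rw [hFd]
      unfold Fn
      simp only [Pi.neg_apply, abs_neg]
    · have e5 : (fun ω => (-fun η => X β h η k - A ρ β h k) ω ^ 2) =
          fun η => (X β h η k - A ρ β h k) ^ 2 := by
        funext η
        simp only [Pi.neg_apply, neg_sq]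
      rw [e5]
      exact hVk
    · intro η (hη : F / 4 < -(X β h η k - A ρ β h k))
      show X β h η k ≤ A ρ β h k - F / 4
      linarith
  -- the horizon
  obtain ⟨T, hTd⟩ : ∃ T : ℕ, T = ⌈Cg * k * (1 / q) ^ Cg⌉₊ := ⟨_, rfl⟩
  have hT1 : Cg * k * (1 / q) ^ Cg ≤ T := by
    rw [hTd]
    exact Nat.le_ceil _
  have hkB : (k : ℝ) ≤ B * m p := by exact_mod_cast hk
  have hT2 : (T : ℝ) < m (p + 1) := by
    have h5 : (T : ℝ) < Cg * k * (1 / q) ^ Cg + 1 := by
      rw [hTd]
      exact Nat.ceil_lt_add_one (by positivity)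
    have h6 : Cg * k * (1 / q) ^ Cg + 1 ≤ R * m p := by
      rw [hRd]
      have h7 : Cg * k * (1 / q) ^ Cg ≤ Cg * (B * m p) * (1 / q) ^ Cg :=
        mul_le_mul_of_nonneg_right (mul_le_mul_of_nonneg_left hkB hCg0.le) hpq.le
      nlinarith
    have h8 : R * m p ≤ m (p + 1) := by
      have hpos : (0 : ℝ) < (m (p + 1) : ℝ) / m p := by
        have h9 := hNc 0
        simp only [zero_add, pow_one, add_zero] at h9
        have h10 : 0 < Λ * (m p : ℝ) := by positivity
        exact div_pos (h10.trans h9) (by linarith)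
      have h9 : Real.log (R + 1) ≤ Real.log ((m (p + 1) : ℝ) / m p) := by
        unfold Dq at hD
        linarith
      have h10 := (Real.log_le_log_iff (by linarith) hpos).1 h9
      rw [le_div_iff₀ (by linarith)] at h10
      nlinarith
    linarith
  have hΦ : ∀ j : ℕ, j ≤ T → En ρ β h j ≤ 2 * x ∧ Fn ρ β h j ≤ 2 * x := by
    intro j hj
    have h5 : j < m (p + 1) := by
      have h6 : (j : ℝ) < m (p + 1) := lt_of_le_of_lt (by exact_mod_cast hj) hT2
      exact_mod_cast h6
    have h6 := hLv.lo (p + 1) j h5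
    rw [pow_succ, ← hx] at h6
    have h7 : En ρ β h j ≤ fM ρ β h j := le_max_left _ _
    have h8 : Fn ρ β h j ≤ fM ρ β h j := le_max_right _ _
    exact ⟨by linarith, by linarith⟩
  have hlog : Cg * (1 + Real.log (1 / q)) ≤ A ρ β h k + F / 4 - (A ρ β h k - F / 4) := by
    have h5 : 2 * (Cg * (1 + Real.log (1 / q))) / ε ≤ x := by linarith
    rw [div_le_iff₀ hε] at h5
    nlinarith
  have h5 := hgrow h hL k T (A ρ β h k - F / 4) (A ρ β h k + F / 4) q (2 * x) hk1 hq0 hq1 hlog
    (by linarith) hdn hup hT1 hΦ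
  have h6 : A ρ β h k + F / 4 - (A ρ β h k - F / 4) = F / 2 := by ring
  rw [h6] at h5
  have h7 : (8 / ε + 1) * (F / 2) = 4 / ε * F + F / 2 := by ring
  rw [h7] at h5
  have h8 : 4 * x ≤ 4 / ε * F := by
    have h9 : 4 / ε * (ε * x) ≤ 4 / ε * F := mul_le_mul_of_nonneg_left hcon.le (by positivity)
    have h10 : 4 / ε * (ε * x) = 4 * x := by
      field_simp
    linarith
  linarith

end Pool.Agent.W_7d29a1_SNP
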