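import Pool.Agent.W_7d29a1_SNP.DefsN28
import Pool.Agent.W_7d29a1_PL.Cost78

/-!
Theorem SNP, leaf GPL: the price of a group of great luck (helper78).
-/

namespace Pool.Agent.W_7d29a1_SNP

open MeasureTheory ProbabilityTheory Filter Topology Pool.Agent.W_MP_7d29a1_pr
  Pool.Agent.W_7d29a1_h46 Pool.Agent.W_7d29a1_h46u Pool.Agent.W_7d29a1_D2.B35
  Pool.Agent.W_7d29a1_Q29 Pool.Agent.W_7d29a1_R34 Pool.Agent.W_7d29a1_SP
  Pool.Agent.W_7d29a1_PL Pool.Agent.W_7d29a1_SD Pool.Agent.W_7d29a1_KZ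

open Pool.Agent.W_7d29a1_SP.C79 Pool.Agent.W_7d29a1_PL.P78 in
/-- Leaf GPL. -/
theorem gplN78 {d : ℕ} {ρ : Measure ℝ} [IsProbabilityMeasure ρ] (hd : 0 < d) (hρ : EM ρ)
    (β : ℝ) : GplN d ρ β := by
  intro c₀ Λ ε B hc hΛ hε
  obtain ⟨C, hC, hcnt⟩ := cnt79 (ρ := ρ) hd hρ β c₀ hc
  have hC0 : 0 < C := by linarith
  obtain ⟨b, hb⟩ := pow_unbounded_of_one_lt (B : ℝ) (one_lt_two : (1 : ℝ) < 2)
  have hB0 : (0 : ℝ) ≤ B := Nat.cast_nonneg B
  have hΛ0 : 0 < Λ := by linarith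
  obtain ⟨K, hK⟩ : ∃ K : ℝ, K = 4096 * C ^ 3 * B / ε := ⟨_, rfl⟩
  have hK0 : 0 ≤ K := by
    rw [hK]
    positivity
  have hb0 : (0 : ℝ) < 2 ^ (b + 5) := by positivity
  refine ⟨2 ^ (b + 5) + 16 * C + K + 4, by linarith, fun Θ hΘ h hL m p hLv hNc hm H S z hH hHB hS
    hz i => ?_⟩
  have hΘ1 : 2 ^ (b + 5) ≤ Θ := by linarith
  have hΘ2 : 16 * C ≤ Θ := by linarith
  have hΘ3 : K ≤ Θ := by linarith
  have hΘ4 : 4 ≤ Θ := by linarith
  have hΘ0 : 0 < Θ := by linarith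
  have hx : (1 : ℝ) ≤ 2 ^ p := one_le_pow₀ (by norm_num)
  have hi1 : (1 : ℝ) ≤ 2 ^ i := one_le_pow₀ (by norm_num)
  have hm0 : (0 : ℝ) < m p := by exact_mod_cast hm
  have hB1 : 1 ≤ B := by
    by_contra hcon
    have : B = 0 := by omega
    rw [this, Nat.zero_mul] at hHB
    omega
  obtain ⟨m', hm'⟩ : ∃ m' : ℕ, m' = 2 ^ i * H + (2 ^ i * H + S) := ⟨_, rfl⟩
  have hm1 : m' ≤ 2 ^ (i + 2) * (B * m p) := by
    have h1 : 2 ^ i * H ≤ 2 ^ i * (B * m p) := Nat.mul_le_mul_left _ hHB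
    have h2 : S ≤ 2 ^ i * (B * m p) := by
      calc S ≤ m p := hS
        _ ≤ B * m p := Nat.le_mul_of_pos_left _ (by omega)
        _ ≤ 2 ^ i * (B * m p) := Nat.le_mul_of_pos_left _ (by positivity)
    have h3 : 2 ^ (i + 2) * (B * m p) = 4 * (2 ^ i * (B * m p)) := by
      rw [pow_add]
      ring
    omega
  have hm2 : 1 ≤ m' := by
    have : 1 ≤ 2 ^ i * H := Nat.mul_pos (by positivity) (by omega)
    omega
  have hm'0 : (0 : ℝ) < m' := by exact_mod_cast hm2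
  have hm1r : (m' : ℝ) ≤ 2 ^ (i + 2) * (B * m p) := by exact_mod_cast hm1
  obtain ⟨Ψ, hΨ⟩ : ∃ Ψ : ℝ, Ψ = Θ * 2 ^ p * 2 ^ i / 8 := ⟨_, rfl⟩
  have hΨ0 : 0 < Ψ := by
    rw [hΨ]
    positivity
  -- the regularity
  have hreg : ∀ r : ℕ, r ≤ m' → En ρ β h r ≤ Ψ ∧ Fn ρ β h r ≤ Ψ := by
    intro r hr
    have h1 := hNc (i + b + 1)
    have h2 : (r : ℝ) < m (p + (i + b + 1) + 1) := by
      have h3 : (r : ℝ) ≤ m' := by exact_mod_cast hr
      have h4 : (2 : ℝ) ^ (i + 2) * (B * m p) ≤ Λ ^ (i + b + 1 + 1) * m p := by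
        rw [← mul_assoc]
        refine mul_le_mul_of_nonneg_right ?_ hm0.le
        calc (2 : ℝ) ^ (i + 2) * B ≤ 2 ^ (i + 2) * 2 ^ b :=
              mul_le_mul_of_nonneg_left hb.le (by positivity)
          _ = 2 ^ (i + 2 + b) := (pow_add _ _ _).symm
          _ = 2 ^ (i + b + 1 + 1) := by
              congr 1
              omega
          _ ≤ Λ ^ (i + b + 1 + 1) := pow_le_pow_left₀ (by norm_num) (by linarith) _
      linarith
    obtain ⟨h3, h4⟩ := fM_lt (hLv.lo (p + (i + b + 1) + 1) r (by exact_mod_cast h2))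
    have h5 : (2 : ℝ) ^ (p + (i + b + 1) + 1) ≤ Ψ := by
      have h6 : (2 : ℝ) ^ (p + (i + b + 1) + 1) = 2 ^ (b + 5) * (2 ^ p * 2 ^ i / 8) := by
        rw [show p + (i + b + 1) + 1 = p + i + b + 2 by omega, pow_add, pow_add, pow_add,
          pow_add 2 b 5]
        ring
      have h7 : Ψ = Θ * (2 ^ p * 2 ^ i / 8) := by
        rw [hΨ]
        ring
      rw [h6, h7]
      exact mul_le_mul_of_nonneg_right hΘ1 (by positivity)
    exact ⟨by linarith, by linarith⟩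
  -- the passage to one horizon
  obtain ⟨u, hu⟩ : ∃ u : ℝ, u = Θ * 2 ^ p * 2 ^ i / 2 := ⟨_, rfl⟩
  obtain ⟨q, hq⟩ : ∃ q : ℝ, q = (law d ρ).real {η | A ρ β h m' + u ≤ X β h η m'} := ⟨_, rfl⟩
  have hpass : (law d ρ).real (Gg ρ β h H S (Θ * 2 ^ p) z i) ≤ 2 * q := by
    have h1 := ott (ρ := ρ) hd hρ β h (2 ^ i * H) (2 ^ i * H + S)
      (Θ * 2 ^ p * 2 ^ i - 2 ^ p) hΨ0 (fun r hr' => hreg r (by omega))
    rw [← hm'] at h1
    have h2 : (law d ρ).real (Gg ρ β h H S (Θ * 2 ^ p) z i) ≤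
        (law d ρ).real {η | ∃ s : ℕ, s ≤ 2 ^ i * H + S ∧
          ((2 ^ i * H + s : ℕ) : ℝ) * lam ρ β h + (Θ * 2 ^ p * 2 ^ i - 2 ^ p) ≤
            X β h η (2 ^ i * H + s)} := by
      refine measureReal_mono ?_ (measure_ne_top _ _)
      rintro η ⟨N, s, hN1, hN2, hs1, hs2⟩
      have hN2' : N < 2 ^ i * 2 := by
        rw [← pow_succ]
        exact hN2
      obtain ⟨N', rfl⟩ : ∃ N', N = 2 ^ i + N' := ⟨N - 2 ^ i, by omega⟩
      have h3 : N' * H ≤ 2 ^ i * H := Nat.mul_le_mul_right _ (by omega)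
      refine ⟨N' * H + s, by omega, ?_⟩
      have h4 : (2 ^ i + N') * H + s = 2 ^ i * H + (N' * H + s) := by ring
      rw [h4] at hs2
      have h5 : (2 : ℝ) ^ i ≤ ((2 ^ i + N' : ℕ) : ℝ) := by exact_mod_cast hN1
      have h6 : Θ * 2 ^ p * 2 ^ i ≤ Θ * 2 ^ p * ((2 ^ i + N' : ℕ) : ℝ) :=
        mul_le_mul_of_nonneg_left h5 (by positivity)
      have h7 : ((2 ^ i + N' : ℕ) : ℝ) * (Θ * 2 ^ p) = Θ * 2 ^ p * ((2 ^ i + N' : ℕ) : ℝ) := by
        ring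
      rw [h7] at hs2
      linarith
    have h5 : (law d ρ).real {η | ((m' : ℕ) : ℝ) * lam ρ β h +
        (Θ * 2 ^ p * 2 ^ i - 2 ^ p) - 2 * Ψ ≤ X β h η m'} ≤ q := by
      rw [hq]
      refine measureReal_mono ?_ (measure_ne_top _ _)
      intro η hη
      have h6 : ((m' : ℕ) : ℝ) * lam ρ β h +
        (Θ * 2 ^ p * 2 ^ i - 2 ^ p) - 2 * Ψ ≤ X β h η m' := hη
      show A ρ β h m' + u ≤ X β h η m'
      have h7 := En_nonneg15 (ρ := ρ) hd hρ β h m'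
      unfold En at h7
      have h8 : 4 * (2 : ℝ) ^ p ≤ Θ * 2 ^ p * 2 ^ i := by
        have h9 : 4 * (2 : ℝ) ^ p ≤ Θ * 2 ^ p := mul_le_mul_of_nonneg_right hΘ4 (by positivity)
        have h10 : Θ * 2 ^ p * 1 ≤ Θ * 2 ^ p * 2 ^ i :=
          mul_le_mul_of_nonneg_left hi1 (by positivity)
        linarith
      rw [hΨ] at h6
      rw [hu]
      linarith
    linarith
  -- counting
  obtain ⟨k, hk1, hk2⟩ := exists_nat_pow_near (x := Θ / (8 * C)) (y := (2 : ℝ)) (by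
    rw [le_div_iff₀ (by positivity)]
    linarith) one_lt_two
  have hk0 : 1 ≤ k := by
    by_contra hcon
    have h1 : k = 0 := by omega
    rw [h1, zero_add, pow_one, div_lt_iff₀ (by positivity)] at hk2
    linarith
  obtain ⟨J, hJ⟩ : ∃ J : ℕ, J + 1 = i + k := ⟨i + k - 1, by omega⟩
  have hN := hNc J
  obtain ⟨T, hT⟩ : ∃ T : ℕ, T = m (p + J + 1) - 1 := ⟨_, rfl⟩
  have hΛJ : 1 ≤ Λ ^ (J + 1) := one_le_pow₀ (by linarith)
  have hMr : (1 : ℝ) < m (p + J + 1) := by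
    have h1 : 1 * (m p : ℝ) ≤ Λ ^ (J + 1) * m p := mul_le_mul_of_nonneg_right hΛJ hm0.le
    have h2 : (1 : ℝ) ≤ m p := by exact_mod_cast hm
    linarith
  have hMn : 1 < m (p + J + 1) := by exact_mod_cast hMr
  have hT1 : 1 ≤ T := by omega
  have hT0 : (0 : ℝ) < T := by exact_mod_cast hT1
  have hT2 : (m (p + J + 1) : ℝ) ≤ 2 * T := by
    have : m (p + J + 1) ≤ 2 * T := by omega
    exact_mod_cast this
  have hqlt : q ≤ C * m' / T := by
    by_contra hcon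
    rw [not_le] at hcon
    have hq0 : 0 < q := lt_of_le_of_lt (by positivity) hcon
    have h1 := hcnt h hL m' T u q (2 ^ (p + J + 1)) hm2 hq0 hq.le (by
      rw [div_le_iff₀ hq0]
      rw [div_lt_iff₀ hT0] at hcon
      linarith) (fun j hj => by
        obtain ⟨h2, h3⟩ := fM_lt (hLv.lo (p + J + 1) j (by omega))
        exact ⟨h2.le, h3.le⟩)
    have h2 : (2 : ℝ) ^ (p + J + 1) = 2 ^ k * (2 ^ p * 2 ^ i) := by
      rw [show p + J + 1 = p + (J + 1) by omega, hJ, pow_add, pow_add]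
      ring
    have h3 : 1 ≤ (2 : ℝ) ^ (p + J + 1) := one_le_pow₀ (by norm_num)
    have h4 : 2 ^ k * (2 ^ p * 2 ^ i) ≤ Θ / (8 * C) * (2 ^ p * 2 ^ i) :=
      mul_le_mul_of_nonneg_right hk1 (by positivity)
    have h5 : C * (Θ / (8 * C) * (2 ^ p * 2 ^ i)) = u / 4 := by
      rw [hu]
      field_simp
      norm_num
    have h6 : C * ((2 : ℝ) ^ (p + J + 1) + 1) ≤ C * (2 * 2 ^ (p + J + 1)) :=
      mul_le_mul_of_nonneg_left (by linarith) hC0.le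
    have h7 : C * (2 * (2 : ℝ) ^ (p + J + 1)) ≤ 2 * (u / 4) := by
      rw [h2, ← h5]
      have := mul_le_mul_of_nonneg_left h4 (show 0 ≤ 2 * C by positivity)
      linarith
    have hu0 : 0 < u := by
      rw [hu]
      positivity
    linarith
  have hfin : C * m' / T ≤ 8 * C * B * (1 / 4) ^ k * (1 / 2) ^ i := by
    rw [div_le_iff₀ hT0]
    have h1 : Λ ^ (i + k) * m p < 2 * T := by
      rw [← hJ]
      linarith
    have h2 : (4 : ℝ) ^ (i + k) ≤ Λ ^ (i + k) := pow_le_pow_left₀ (by norm_num) hΛ.le _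
    have h3 : (4 : ℝ) ^ (i + k) * m p ≤ 2 * T :=
      (mul_le_mul_of_nonneg_right h2 hm0.le).trans h1.le
    have h4 : C * m' ≤ C * (2 ^ (i + 2) * (B * m p)) := mul_le_mul_of_nonneg_left hm1r hC0.le
    have h5 : C * (2 ^ (i + 2) * (B * m p)) =
        4 * C * B * (1 / 4) ^ k * (1 / 2) ^ i * ((4 : ℝ) ^ (i + k) * m p) := by
      rw [pow_add 4 i k, pow_add 2 i 2]
      have e1 : (4 : ℝ) ^ k * (1 / 4) ^ k = 1 := by
        rw [← mul_pow]
        norm_num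
      have e2 : (4 : ℝ) ^ i * (1 / 2) ^ i = 2 ^ i := by
        rw [← mul_pow]
        norm_num
      calc C * (2 ^ i * 2 ^ 2 * (B * m p)) = 4 * C * B * m p * 2 ^ i * 1 := by ring
        _ = 4 * C * B * m p * ((4 : ℝ) ^ i * (1 / 2) ^ i) * ((4 : ℝ) ^ k * (1 / 4) ^ k) := by
            rw [e1, e2]
        _ = _ := by ring
    have h6 := mul_le_mul_of_nonneg_left h3
      (show 0 ≤ 4 * C * B * (1 / 4) ^ k * (1 / 2) ^ i by positivity)
    linarith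
  have h4k : (1 / 4 : ℝ) ^ k ≤ 256 * C ^ 2 / Θ ^ 2 := by
    have h1 : (1 / 2 : ℝ) ^ k ≤ 16 * C / Θ := by
      rw [pow_succ, div_lt_iff₀ (by positivity)] at hk2
      rw [le_div_iff₀ hΘ0, one_div, inv_pow, inv_mul_le_iff₀ (by positivity)]
      linarith
    have h2 : (1 / 4 : ℝ) ^ k = ((1 / 2) ^ k) ^ 2 := by
      rw [← pow_mul, mul_comm, pow_mul]
      norm_num
    have h3 : 256 * C ^ 2 / Θ ^ 2 = (16 * C / Θ) ^ 2 := by
      rw [div_pow]
      ring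
    rw [h2, h3]
    exact pow_le_pow_left₀ (by positivity) h1 2
  have h1 : 2 * (8 * C * B * (1 / 4) ^ k) ≤ ε / Θ := by
    have h2 : 2 * (8 * C * B * (1 / 4) ^ k) ≤ 2 * (8 * C * B * (256 * C ^ 2 / Θ ^ 2)) := by
      refine mul_le_mul_of_nonneg_left (mul_le_mul_of_nonneg_left h4k (by positivity)) (by norm_num)
    have h3 : 2 * (8 * C * B * (256 * C ^ 2 / Θ ^ 2)) = ε * K / Θ ^ 2 := by
      rw [hK]
      field_simp
      ring
    have h4 : ε * K / Θ ^ 2 ≤ ε / Θ := by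
      rw [div_le_div_iff₀ (by positivity) hΘ0]
      have := mul_le_mul_of_nonneg_left hΘ3 (show 0 ≤ ε * Θ by positivity)
      nlinarith
    linarith
  have h2 : 2 * q ≤ 2 * (8 * C * B * (1 / 4) ^ k) * (1 / 2) ^ i := by linarith
  have h3 := mul_le_mul_of_nonneg_right h1 (show (0 : ℝ) ≤ (1 / 2) ^ i by positivity)
  linarith

end Pool.Agent.W_7d29a1_SNP
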