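import Mathlib

/-!
SNP, the selection of the levels: the walk with cheap jumps, with its last level.
-/

set_option autoImplicit false

namespace Pool.Agent.W_7d29a1_SNP.Wk66

/-- The walk: cheap jumps and used levels, up to the first visited level `≥ l₁`. -/
lemma walkF66 {x : ℕ → ℝ} {l₀ l₁ : ℕ} {P : ℕ → Prop} [DecidablePred P] {C : ℝ} (hC : 0 ≤ C)
    (hx : ∀ k l : ℕ, l₀ ≤ k → k ≤ l → x k ≤ x l)
    (h : ∀ l : ℕ, l₀ ≤ l → l < l₁ → ¬ P l → ∃ j : ℕ, x (l + j + 1) ≤ (j + 1) * C + x l) :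
    ∀ n l : ℕ, l + n = l₁ → l₀ ≤ l → ∃ lf : ℕ, l₁ ≤ lf ∧
      x lf - x l ≤ ∑ p ∈ (Finset.Ico l l₁).filter P, (x (p + 1) - x p) +
        ((lf : ℝ) - l) * C := by
  intro n
  induction n using Nat.strong_induction_on with
  | _ n ih =>
    intro l hl h0
    have hD : ∀ p ∈ (Finset.Ico l l₁).filter P, 0 ≤ x (p + 1) - x p := by
      intro p hp
      have hp' := Finset.mem_Ico.1 (Finset.mem_filter.1 hp).1
      exact sub_nonneg.2 (hx p (p + 1) (h0.trans hp'.1) (Nat.le_succ p))
    rcases Nat.eq_zero_or_pos n with hn | hn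
    · have hll : l = l₁ := by omega
      subst hll
      refine ⟨l, le_rfl, ?_⟩
      have h2 := Finset.sum_nonneg hD
      rw [sub_self, sub_self, zero_mul, add_zero]
      exact h2
    · have hlt : l < l₁ := by omega
      by_cases hN : P l
      · obtain ⟨lf, hlf, h1⟩ := ih (n - 1) (by omega) (l + 1) (by omega) (by omega)
        refine ⟨lf, hlf, ?_⟩
        have h2 : (Finset.Ico l l₁).filter P =
            insert l ((Finset.Ico (l + 1) l₁).filter P) := by
          ext p
          simp only [Finset.mem_filter, Finset.mem_Ico, Finset.mem_insert]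
          constructor
          · rintro ⟨h3, h4⟩
            by_cases h5 : p = l
            · exact Or.inl h5
            · exact Or.inr ⟨⟨by omega, h3.2⟩, h4⟩
          · rintro (h3 | h3)
            · subst h3
              exact ⟨⟨le_rfl, hlt⟩, hN⟩
            · exact ⟨⟨by omega, h3.1.2⟩, h3.2⟩
        rw [h2, Finset.sum_insert (by simp)]
        push_cast at h1
        nlinarith
      · obtain ⟨j, hj⟩ := h l h0 hlt hN
        rcases le_or_gt l₁ (l + j + 1) with h1 | h1
        · refine ⟨l + j + 1, h1, ?_⟩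
          have h3 := Finset.sum_nonneg hD
          push_cast
          linarith
        · obtain ⟨lf, hlf, h2⟩ := ih (n - (j + 1)) (by omega) (l + j + 1) (by omega) (by omega)
          refine ⟨lf, hlf, ?_⟩
          have h3 : ∑ p ∈ (Finset.Ico (l + j + 1) l₁).filter P, (x (p + 1) - x p) ≤
              ∑ p ∈ (Finset.Ico l l₁).filter P, (x (p + 1) - x p) := by
            refine Finset.sum_le_sum_of_subset_of_nonneg ?_ fun p hp _ => hD p hp
            refine Finset.filter_subset_filter _ ?_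
            exact Finset.Ico_subset_Ico (by omega) le_rfl
          push_cast at h2
          nlinarith

/-- The used levels fill a fraction of the logarithmic scale, if the levels grow faster than the
cheap jumps. -/
lemma fill66 {x : ℕ → ℝ} {l₀ l₁ : ℕ} {P : ℕ → Prop} [DecidablePred P] {C σ K G G₀ : ℝ}
    (hC : 0 < C) (hσ : 0 < σ) (hx : ∀ k l : ℕ, l₀ ≤ k → k ≤ l → x k ≤ x l)
    (h : ∀ l : ℕ, l₀ ≤ l → l < l₁ → ¬ P l → ∃ j : ℕ, x (l + j + 1) ≤ (j + 1) * C + x l)
    (h01 : l₀ ≤ l₁) (hgrow : ∀ l : ℕ, l₀ ≤ l → (C + σ) * l - K ≤ x l) (hG : G ≤ x l₁)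
    (hG₀ : x l₀ ≤ G₀) (hG0 : 0 ≤ G) :
    min (G / 2) (σ * G / (2 * C) - |K|) - G₀ ≤
      ∑ p ∈ (Finset.Ico l₀ l₁).filter P, (x (p + 1) - x p) := by
  obtain ⟨lf, hlf, h1⟩ := walkF66 hC.le hx h (l₁ - l₀) l₀ (by omega) le_rfl
  have h2 : x l₁ ≤ x lf := hx l₁ lf h01 hlf
  have h3 := hgrow lf (h01.trans hlf)
  have hl0 : (0 : ℝ) ≤ l₀ := Nat.cast_nonneg _
  have h4 : 0 ≤ (l₀ : ℝ) * C := mul_nonneg hl0 hC.le
  rcases le_or_gt ((lf : ℝ) * C) (G / 2) with h5 | h5
  · have h6 := min_le_left (G / 2) (σ * G / (2 * C) - |K|)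
    linarith
  · have h6 := min_le_right (G / 2) (σ * G / (2 * C) - |K|)
    have h7 : σ * G / (2 * C) ≤ σ * lf := by
      rw [div_le_iff₀ (by positivity)]
      nlinarith
    have h8 := le_abs_self K
    nlinarith

end Pool.Agent.W_7d29a1_SNP.Wk66
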