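import Pool.Agent.W_7d29a1_SNP.DefsN28
import Pool.Agent.W_7d29a1_SNP.Walk66

/-!
Theorem SNP, leaf SEL: the levels which are not cheap fill a positive part of the logarithmic scale
(helper66).
-/

set_option autoImplicit false

namespace Pool.Agent.W_7d29a1_SNP

open Wk66

theorem selN66 : SelN := by
  classical
  intro Λ x₁ g hΛ hx₁ hx hg
  have hL : 0 < Real.log Λ := Real.log_pos hΛ
  have h2 : 0 < Real.log 2 := Real.log_pos one_lt_two
  set θ : ℝ := x₁ * Real.log Λ / Real.log 2 with hθ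
  have hθ1 : θ < 1 := (div_lt_one h2).2 hx
  have hθ2 : θ * Real.log 2 = x₁ * Real.log Λ := by
    rw [hθ]
    field_simp
  set g₀ : ℝ := g * (1 - θ) / 4 with hg₀
  have hg₀0 : 0 < g₀ := by
    have : 0 < g * (1 - θ) := mul_pos hg (by linarith)
    rw [hg₀]
    linarith
  refine ⟨2 * g₀, g₀, by linarith, hg₀0, fun C => ?_⟩
  set C' : ℝ := Real.log Λ * |Real.log C| / Real.log 2 with hC'
  have hC'2 : C' * Real.log 2 = Real.log Λ * |Real.log C| := by
    rw [hC']
    field_simp
  refine ⟨max 1 (C' / g₀), fun m W l₀ l₁ hW hm hm0 hpow hl₀ hl₁ _ => ?_⟩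
  have hW1 : 1 ≤ W := (le_max_left _ _).trans hW
  have hW2 : C' ≤ g₀ * W := by
    have := (le_max_right _ _).trans hW
    rw [div_le_iff₀ hg₀0] at this
    linarith
  have hθ0 : 0 < θ := by
    rw [hθ]
    positivity
  have hg4 : g₀ < g := by
    rw [hg₀]
    nlinarith
  have hpos : ∀ l : ℕ, l₀ ≤ l → (1 : ℝ) ≤ m l := fun l hl => by
    exact_mod_cast hm0.trans (hm hl)
  have h01 : l₀ ≤ l₁ := by
    by_contra hn
    have h3 : m l₁ ≤ m l₀ := hm (by omega)
    have h4 : 0 < Real.log (m l₁) := lt_of_lt_of_le (by positivity) hl₁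
    have h5 : (0 : ℝ) < m l₁ := by
      rcases Nat.eq_zero_or_pos (m l₁) with h | h
      · rw [h] at h4
        simp at h4
      · exact_mod_cast h
    have h6 : Real.log (m l₁) ≤ Real.log (m l₀) := Real.log_le_log h5 (by exact_mod_cast h3)
    nlinarith
  have hmono : ∀ k l : ℕ, l₀ ≤ k → k ≤ l → Real.log (m k) ≤ Real.log (m l) := fun k l hk hkl =>
    Real.log_le_log (lt_of_lt_of_le one_pos (hpos k hk)) (by exact_mod_cast hm hkl)
  obtain ⟨lf, hlf, h1⟩ := walkF66 (x := fun l => Real.log (m l)) (l₀ := l₀) (l₁ := l₁)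
    (P := fun l => Nc Λ m l) (C := Real.log Λ) hL.le hmono (fun l hl _ hP => by
      unfold Nc at hP
      push Not at hP
      obtain ⟨j, hj⟩ := hP
      refine ⟨j, ?_⟩
      have h3 := Real.log_le_log (lt_of_lt_of_le one_pos (hpos (l + j + 1) (by omega))) hj
      have h4 : (0 : ℝ) < m l := lt_of_lt_of_le one_pos (hpos l hl)
      rw [Real.log_mul (by positivity) h4.ne', Real.log_pow] at h3
      push_cast at h3
      exact h3) (l₁ - l₀) l₀ (by omega) le_rfl
  refine ⟨(Finset.Ico l₀ l₁).filter fun l => Nc Λ m l, fun p hp => ?_, ?_⟩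
  · have h3 := Finset.mem_filter.1 hp
    have h4 := Finset.mem_Ico.1 h3.1
    exact ⟨h3.2, h4.1, h4.2⟩
  · have e1 : ∑ p ∈ (Finset.Ico l₀ l₁).filter (fun l => Nc Λ m l), Dq m p =
        ∑ p ∈ (Finset.Ico l₀ l₁).filter (fun l => Nc Λ m l),
          (Real.log (m (p + 1)) - Real.log (m p)) := by
      refine Finset.sum_congr rfl fun p hp => ?_
      have h4 := Finset.mem_Ico.1 (Finset.mem_filter.1 hp).1
      unfold Dq
      exact Real.log_div (lt_of_lt_of_le one_pos (hpos (p + 1) (by omega))).ne'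
        (lt_of_lt_of_le one_pos (hpos p h4.1)).ne'
    rw [e1]
    -- the last level is not too large
    have h3 := hpow lf
    have h4 : (0 : ℝ) < m lf := lt_of_lt_of_le one_pos (hpos lf (by omega))
    have h5 : (0 : ℝ) < (m lf : ℝ) ^ x₁ := Real.rpow_pos_of_pos h4 _
    have hC : 0 < C := by
      by_contra hn
      have h6 : C * (m lf : ℝ) ^ x₁ ≤ 0 := mul_nonpos_of_nonpos_of_nonneg (not_lt.1 hn) h5.le
      have h7 : (0 : ℝ) < 2 ^ lf := by positivity
      linarith
    have h6 := Real.log_le_log (by positivity) h3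
    rw [Real.log_pow, Real.log_mul hC.ne' h5.ne', Real.log_rpow h4] at h6
    have h7 := le_abs_self (Real.log C)
    have h8 : (lf : ℝ) * Real.log Λ ≤ θ * Real.log (m lf) + C' := by
      have h9 : (lf : ℝ) * Real.log Λ * Real.log 2 ≤
          (θ * Real.log (m lf) + C') * Real.log 2 := by
        have e2 : (θ * Real.log (m lf) + C') * Real.log 2 =
            Real.log Λ * (x₁ * Real.log (m lf) + |Real.log C|) := by
          calc (θ * Real.log (m lf) + C') * Real.log 2
              = (θ * Real.log 2) * Real.log (m lf) + C' * Real.log 2 := by ring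
            _ = _ := by rw [hθ2, hC'2]; ring
        rw [e2]
        have h10 := mul_le_mul_of_nonneg_left (h6.trans (add_le_add h7 le_rfl)) hL.le
        nlinarith
      exact le_of_mul_le_mul_right h9 h2
    have h9 : Real.log (m l₁) ≤ Real.log (m lf) := hmono l₁ lf h01 hlf
    have h10 : (1 - θ) * (g * W) ≤ (1 - θ) * Real.log (m lf) :=
      mul_le_mul_of_nonneg_left (hl₁.trans h9) (by linarith)
    have h11 : (1 - θ) * (g * W) = 4 * (g₀ * W) := by
      rw [hg₀]
      ring
    have h12 : 0 ≤ (l₀ : ℝ) * Real.log Λ := mul_nonneg (Nat.cast_nonneg _) hL.le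
    have h13 : ((lf : ℝ) - l₀) * Real.log Λ = lf * Real.log Λ - l₀ * Real.log Λ := by ring
    rw [h13] at h1
    linarith

end Pool.Agent.W_7d29a1_SNP
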