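import Pool.Agent.W_7d29a1_SNP.DefsN28
import Pool.Agent.W_7d29a1_KZ.VarN41

/-!
Leaf VARN: the variance at a level which is not cheap, from the leaf VAR with a free bound.
-/

set_option autoImplicit false

namespace Pool.Agent.W_7d29a1_SNP

open MeasureTheory ProbabilityTheory Filter Topology Pool.Agent.W_MP_7d29a1_pr
  Pool.Agent.W_7d29a1_h46 Pool.Agent.W_7d29a1_h46u Pool.Agent.W_7d29a1_D2.B35
  Pool.Agent.W_7d29a1_Q29 Pool.Agent.W_7d29a1_R34 Pool.Agent.W_7d29a1_SP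
  Pool.Agent.W_7d29a1_PL Pool.Agent.W_7d29a1_SD Pool.Agent.W_7d29a1_KZ
  Pool.Agent.W_7d29a1_SQ

namespace V35

variable {d : ℕ} {ρ : Measure ℝ} {β : ℝ}

/-- A bound of both fluctuations bounds `Ps`. -/
lemma ps_le {h : Vec d} {T : ℕ} {x : ℝ} (hx : ∀ k : ℕ, k ≤ T → fM ρ β h k ≤ x) :
    Ps ρ β h T ≤ 1 + x + x := by
  unfold Ps
  have h1 : (Finset.range (T + 1)).sup' ⟨0, by simp⟩ (En ρ β h) ≤ x := by
    refine Finset.sup'_le _ _ fun k hk => ?_
    rw [Finset.mem_range] at hk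
    exact (le_max_left _ _).trans (hx k (by omega))
  have h2 : (Finset.range (T + 1)).sup' ⟨0, by simp⟩ (Fn ρ β h) ≤ x := by
    refine Finset.sup'_le _ _ fun k hk => ?_
    rw [Finset.mem_range] at hk
    exact (le_max_right _ _).trans (hx k (by omega))
  linarith

/-- The regularity above a level which is not cheap. -/
lemma reg {h : Vec d} {m : ℕ → ℕ} {p : ℕ} {Λ : ℝ} (hΛ : 4 < Λ) (hL : Lv ρ β h m)
    (hN : Nc Λ m p) (hp : 1 ≤ m p) (T : ℕ) (hT : m p ≤ T) (k : ℕ) (hk : k ≤ T) :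
    fM ρ β h k ≤ 2 * 2 ^ p * 2 * ((T : ℝ) / m p) ^ (Real.log 2 / Real.log Λ) := by
  have hm0 : (1 : ℝ) ≤ m p := by exact_mod_cast hp
  have hT0 : (m p : ℝ) ≤ T := by exact_mod_cast hT
  have hΛ0 : 0 < Real.log Λ := Real.log_pos (by linarith)
  obtain ⟨u, hu⟩ : ∃ u : ℝ, u = (T : ℝ) / m p := ⟨_, rfl⟩
  have hu1 : 1 ≤ u := by
    rw [hu, le_div_iff₀ (by linarith)]
    linarith
  obtain ⟨j, hj⟩ : ∃ j : ℕ, j = ⌊Real.log u / Real.log Λ⌋₊ := ⟨_, rfl⟩
  have hlu : 0 ≤ Real.log u / Real.log Λ := div_nonneg (Real.log_nonneg hu1) hΛ0.le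
  have hj1 : (j : ℝ) ≤ Real.log u / Real.log Λ := by
    rw [hj]
    exact Nat.floor_le hlu
  have hj2 : Real.log u / Real.log Λ < j + 1 := by
    rw [hj]
    exact Nat.lt_floor_add_one _
  have hup : u < Λ ^ (j + 1) := by
    rw [div_lt_iff₀ hΛ0] at hj2
    have h1 : Real.log u < Real.log (Λ ^ (j + 1)) := by
      rw [Real.log_pow]
      push_cast
      linarith
    exact (Real.log_lt_log_iff (by linarith) (by positivity)).1 h1
  have hTm : (T : ℝ) < m (p + j + 1) := by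
    have h1 := hN j
    have h2 : (T : ℝ) = u * m p := by
      rw [hu]
      field_simp
    rw [h2]
    refine lt_trans ?_ h1
    exact mul_lt_mul_of_pos_right hup (by linarith)
  have hTm' : T < m (p + j + 1) := by exact_mod_cast hTm
  have h3 := hL.lo (p + j + 1) k (by omega)
  have h4 : (2 : ℝ) ^ (p + j + 1) = 2 * 2 ^ p * 2 ^ j := by
    rw [pow_add, pow_add]
    ring
  have h5 : (2 : ℝ) ^ j ≤ u ^ (Real.log 2 / Real.log Λ) := by
    have h6 : (2 : ℝ) ^ j = Real.exp (j * Real.log 2) := by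
      rw [mul_comm, Real.exp_mul, Real.exp_log (by norm_num), Real.rpow_natCast]
    rw [h6, Real.rpow_def_of_pos (by linarith)]
    refine Real.exp_le_exp.2 ?_
    have h7 : 0 < Real.log 2 := Real.log_pos (by norm_num)
    calc (j : ℝ) * Real.log 2 ≤ Real.log u / Real.log Λ * Real.log 2 :=
          mul_le_mul_of_nonneg_right hj1 h7.le
      _ = Real.log u * (Real.log 2 / Real.log Λ) := by ring
  rw [← hu]
  have h8 : 0 ≤ u ^ (Real.log 2 / Real.log Λ) := Real.rpow_nonneg (by linarith) _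
  have h9 : (0 : ℝ) < 2 ^ p := by positivity
  nlinarith

end V35

open V35 in
/-- **Leaf VARN**, from VAR with a free bound. -/
theorem varN35 {d : ℕ} {ρ : Measure ℝ} {β : ℝ} (hV : VarF d ρ β) : VarN d ρ β := by
  intro c₀ Λ B hc₀ hΛ
  obtain ⟨a, ha⟩ : ∃ a : ℝ, a = Real.log 2 / Real.log Λ := ⟨_, rfl⟩
  have hl2 : 0 < Real.log 2 := Real.log_pos (by norm_num)
  have hlΛ : 2 * Real.log 2 < Real.log Λ := by
    have h1 : Real.log 4 < Real.log Λ := Real.log_lt_log (by norm_num) hΛ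
    have h2 : Real.log 4 = 2 * Real.log 2 := by
      rw [show (4 : ℝ) = 2 ^ 2 by norm_num, Real.log_pow]
      norm_num
    linarith
  have ha0 : 0 < a := by
    rw [ha]
    exact div_pos hl2 (by linarith)
  have ha1 : a < 1 / 2 := by
    rw [ha, div_lt_iff₀ (by linarith)]
    linarith
  obtain ⟨C, hC1, hC⟩ := hV c₀ a hc₀ ha0 ha1
  obtain ⟨B', hB'⟩ : ∃ B' : ℕ, B' = B + 1 := ⟨_, rfl⟩
  have hB1 : (1 : ℝ) ≤ B' := by
    rw [hB']
    push_cast
    linarith [Nat.cast_nonneg (α := ℝ) B]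
  obtain ⟨P₀, hP₀⟩ : ∃ P₀ : ℝ, P₀ = 1 + 8 * (B' : ℝ) ^ a := ⟨_, rfl⟩
  have hBa : 1 ≤ (B' : ℝ) ^ a := Real.one_le_rpow hB1 ha0.le
  have hP1 : 1 ≤ P₀ := by
    rw [hP₀]
    linarith
  refine ⟨C * P₀ ^ 2, one_le_mul_of_one_le_of_one_le hC1 (one_le_pow₀ hP1),
    fun h hloc m p hL hN hp _ k hk => ?_⟩
  have hm0 : (1 : ℝ) ≤ m p := by exact_mod_cast hp
  have h2p : (1 : ℝ) ≤ 2 ^ p := one_le_pow₀ (by norm_num)
  obtain ⟨n, hn⟩ : ∃ n : ℕ, n = B' * m p := ⟨_, rfl⟩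
  have hmn : m p ≤ n := by
    rw [hn, hB']
    nlinarith
  have hkn : k ≤ n := by
    rw [hn, hB']
    nlinarith
  have hn1 : 1 ≤ n := hp.trans hmn
  have hnn : (0 : ℝ) < n := by exact_mod_cast hn1
  have hreg : ∀ T : ℕ, n ≤ T → ∀ k : ℕ, k ≤ T →
      fM ρ β h k ≤ 4 * (B' : ℝ) ^ a * 2 ^ p * ((T : ℝ) / n) ^ a := by
    intro T hT k hk
    have h1 := reg hΛ hL hN hp T (hmn.trans hT) k hk
    rw [← ha] at h1
    have h2 : (T : ℝ) / m p = B' * ((T : ℝ) / n) := by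
      rw [hn]
      push_cast
      field_simp
    rw [h2, Real.mul_rpow (by linarith) (by positivity)] at h1
    refine h1.trans (le_of_eq ?_)
    ring
  have hrec : ∀ T : ℕ, n ≤ T → Ps ρ β h T ≤ P₀ * 2 ^ p * ((T : ℝ) / n) ^ a := by
    intro T hT
    have h1 := ps_le fun k hk => hreg T hT k hk
    have hT0 : (n : ℝ) ≤ T := by exact_mod_cast hT
    have h2 : 1 ≤ ((T : ℝ) / n) ^ a := by
      refine Real.one_le_rpow ?_ ha0.le
      rw [le_div_iff₀ hnn]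
      linarith
    refine h1.trans ?_
    rw [hP₀]
    have h3 : 1 ≤ 2 ^ p * ((T : ℝ) / n) ^ a := one_le_mul_of_one_le_of_one_le h2p h2
    linarith
  have hva := hC h hloc n (P₀ * 2 ^ p) hn1 (one_le_mul_of_one_le_of_one_le hP1 h2p) hrec k hkn
  refine ⟨hva.trans (le_of_eq ?_), ?_⟩
  · have h4 : (4 : ℝ) ^ p = (2 ^ p) ^ 2 := by
      rw [← pow_mul, mul_comm, pow_mul]
      norm_num
    rw [h4]
    ring
  · have h1 := hreg n le_rfl k hkn
    rw [div_self hnn.ne', Real.one_rpow, mul_one] at h1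
    refine h1.trans (mul_le_mul_of_nonneg_right ?_ (by positivity))
    have h5 : P₀ ≤ P₀ ^ 2 := by nlinarith
    have h6 : P₀ ^ 2 ≤ C * P₀ ^ 2 := le_mul_of_one_le_left (sq_nonneg _) hC1
    linarith

/-- **Leaf VARN, every law of the problem.** -/
theorem varNAll35 {d : ℕ} {ρ : Measure ℝ} [IsProbabilityMeasure ρ] (hd : 0 < d) (hρ : EM ρ)
    (hnc : ∀ c : ℝ, ρ {c} ≠ 1) {β : ℝ} (hβ : 0 < β) (hC : CntP d ρ β) : VarN d ρ β :=
  varN35 (varFN41 hd hρ hnc hβ hC)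

end Pool.Agent.W_7d29a1_SNP
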