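import Pool.Agent.W_7d29a1_SNP.Spl63
import Pool.Agent.W_7d29a1_SNP.CorT92
import Pool.Agent.W_7d29a1_SNP.Sel66
import Pool.Agent.W_7d29a1_SNP.FsN94
import Pool.Agent.W_7d29a1_SNP.GplN78
import Pool.Agent.W_7d29a1_SNP.Adt34
import Pool.Agent.W_7d29a1_SNP.AddN90
import Pool.Agent.W_7d29a1_SNP.CostN90
import Pool.Agent.W_7d29a1_SNP.Var35
import Pool.Agent.W_7d29a1_SNP.ExcN7
import Pool.Agent.W_7d29a1_SNP.ExmN76
import Pool.Agent.W_7d29a1_SNP.LowVau95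
import Pool.Agent.W_7d29a1_SNP.Buf85
import Pool.Agent.W_7d29a1_PL.Use63
import Pool.Agent.W_7d29a1_PL.Cat76
import Pool.Agent.W_7d29a1_SP.Cnt79
import Pool.Agent.W_7d29a1_WP.FinX98

/-!
All the leaves of the core, every law (helper63).
-/

set_option autoImplicit false

namespace Pool.Agent.W_7d29a1_SNP

open MeasureTheory ProbabilityTheory Filter Topology Pool.Agent.W_MP_7d29a1_pr
  Pool.Agent.W_7d29a1_h46 Pool.Agent.W_7d29a1_h46u Pool.Agent.W_7d29a1_D2.B35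
  Pool.Agent.W_7d29a1_Q29 Pool.Agent.W_7d29a1_R34 Pool.Agent.W_7d29a1_SP
  Pool.Agent.W_7d29a1_PL Pool.Agent.W_7d29a1_SD Pool.Agent.W_7d29a1_KZ

variable {d : ℕ} {ρ : Measure ℝ} [IsProbabilityMeasure ρ] {β : ℝ}

/-- **VARN**, every law. -/
theorem varNAll63 (hd : 0 < d) (hρ : EM ρ) (hnc : ∀ c : ℝ, ρ {c} ≠ 1) (hβ : 0 < β) :
    VarN d ρ β :=
  varNAll35 hd hρ hnc hβ (cnt79 hd hρ β)

/-- **ADDN**, every law. -/
theorem addNAll63 (hd : 0 < d) (hρ : EM ρ) (hnc : ∀ c : ℝ, ρ {c} ≠ 1) (hβ : 0 < β) :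
    AddN d ρ β :=
  addN90 hd hρ (cat76 hd hρ β) (costN90 hd hρ (W_7d29a1_WP.growN98 hd hρ hnc hβ))

/-- **T1**, every law. -/
theorem corT1All63 (hd : 0 < d) (hρ : EM ρ) (hnc : ∀ c : ℝ, ρ {c} ≠ 1) (hβ : 0 < β) :
    CorT1 d ρ β :=
  corT1_24 hd (use63P hd hρ β) (addNAll63 hd hρ hnc hβ)
    (fsN94 hd hρ (W_7d29a1_WP.growN98 hd hρ hnc hβ) (varNAll63 hd hρ hnc hβ))

/-- **T2**, every law. -/
theorem corT2All63 (hd : 0 < d) (hρ : EM ρ) (hnc : ∀ c : ℝ, ρ {c} ≠ 1) (hβ : 0 < β) :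
    CorT2 d ρ β :=
  T92.corT92 hd hρ (varNAll63 hd hρ hnc hβ) (excN7 hd hρ (varNAll63 hd hρ hnc hβ))
    (ust63 hd hρ β) (adtN34 hd (cat76 hd hρ β) (gplN78 hd hρ β))
    (Pool.Agent.W_7d29a1_SNP.EX76.exmN76 hd hρ (varNAll63 hd hρ hnc hβ))

/-- **CORN**, every law: no hypothesis left. -/
theorem corNAll63 (hd : 0 < d) (hρ : EM ρ) (hnc : ∀ c : ℝ, ρ {c} ≠ 1) (hβ : 0 < β) :
    CorN d ρ β :=
  corN63 selN66 (corT1All63 hd hρ hnc hβ) (corT2All63 hd hρ hnc hβ)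

end Pool.Agent.W_7d29a1_SNP
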