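import Pool.Agent.W_7d29a1_SNP.Ust63

/-!
Leaf UST with the truncated free energy of a block (helper63).
-/

set_option autoImplicit false

namespace Pool.Agent.W_7d29a1_PL

open MeasureTheory ProbabilityTheory Filter Topology Pool.Agent.W_MP_7d29a1_pr
  Pool.Agent.W_7d29a1_h46 Pool.Agent.W_7d29a1_h46u Pool.Agent.W_7d29a1_D2.B35
  Pool.Agent.W_7d29a1_Q29 Pool.Agent.W_7d29a1_SP

/-- The truncated fluctuation of the free energy of the length `H`: from above at `E_H + g`, from
below at `- e`. -/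
noncomputable def cl63 {d : ℕ} (ρ : Measure ℝ) (β : ℝ) (h : Vec d) (H : ℕ) (g e : ℝ)
    (η : Env d) : ℝ :=
  max (min (X β h η H - A ρ β h H) (En ρ β h H + g)) (-e)

/-- Luck `g` per block at some horizon `N H`, `1 ≤ N`, `N H ≤ n`. -/
def Gl63 {d : ℕ} (ρ : Measure ℝ) (β : ℝ) (h : Vec d) (n H : ℕ) (g : ℝ) : Set (Env d) :=
  {η | ∃ N : ℕ, 1 ≤ N ∧ N * H ≤ n ∧ ((N * H : ℕ) : ℝ) * lam ρ β h + g * N ≤ X β h η (N * H)}

variable {d : ℕ} {ρ : Measure ℝ}

lemma cl_meas63 (β : ℝ) (h : Vec d) (H : ℕ) (g e : ℝ) : Measurable (cl63 ρ β h H g e) := by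
  unfold cl63
  exact (((measurable_X β h H).sub_const _).min measurable_const).max measurable_const

lemma Gl_meas63 (β : ℝ) (h : Vec d) (n H : ℕ) (g : ℝ) : MeasurableSet (Gl63 ρ β h n H g) := by
  have h1 : Gl63 ρ β h n H g = ⋃ N : ℕ, {η : Env d | 1 ≤ N ∧ N * H ≤ n ∧
      ((N * H : ℕ) : ℝ) * lam ρ β h + g * N ≤ X β h η (N * H)} := by
    ext η
    simp [Gl63]
  rw [h1]
  refine MeasurableSet.iUnion fun N => ?_
  by_cases h2 : 1 ≤ N ∧ N * H ≤ n
  · simp only [h2.1, h2.2, true_and]
    exact measurableSet_le measurable_const (measurable_X β h (N * H))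
  · have h3 : {η : Env d | 1 ≤ N ∧ N * H ≤ n ∧
        ((N * H : ℕ) : ℝ) * lam ρ β h + g * N ≤ X β h η (N * H)} = ∅ := by
      ext η
      simp only [Set.mem_setOf_eq, Set.mem_empty_iff_false, iff_false]
      rintro ⟨h4, h5, -⟩
      exact h2 ⟨h4, h5⟩
    rw [h3]
    exact MeasurableSet.empty

lemma cl_abs63 (β : ℝ) (h : Vec d) (H : ℕ) {g e : ℝ} (hg : 0 ≤ g) (he : 0 ≤ e)
    (hE : 0 ≤ En ρ β h H) (η : Env d) :
    -e ≤ cl63 ρ β h H g e η ∧ cl63 ρ β h H g e η ≤ En ρ β h H + g := by
  unfold cl63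
  exact ⟨le_max_right _ _, max_le (min_le_right _ _) (by linarith)⟩

variable [IsProbabilityMeasure ρ]

/-- **UST**: the mean of the truncated fluctuation at the position of the polymer, plus the price of
the luck, is at least the nonrandom fluctuation of a block. -/
theorem ustC63 (hd : 0 < d) (hρ : EM ρ) (β : ℝ) (h : Vec d) : ∃ C : ℝ, 1 ≤ C ∧
    ∀ (n H : ℕ) (K g e : ℝ), 1 ≤ H → H ≤ n → 0 ≤ g → 0 ≤ e →
      (∀ k : ℕ, k ≤ n → Va ρ β h k ≤ K) →
      ((n : ℝ) - H) * En ρ β h H ≤
        (∑ t ∈ Finset.range n, ∫ η, ∑ y ∈ boxF d t, Qt β h n t y η *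
          cl63 ρ β h H g e (sh t y η) ∂(law d ρ)) +
        2 * (g + e + En ρ β h H) * (∑ t ∈ Finset.range n, us ρ β h n t (Gl63 ρ β h n H g)) +
        H * (En ρ β h n + e + C * (H + 1) + C * Real.sqrt ((n + 1) * K)) +
        3 * d * n * Real.log (2 * H + 1) := by
  obtain ⟨C, hC, hmain⟩ := ustA63 (ρ := ρ) hd hρ β h
  refine ⟨C, hC, fun n H K g e hH hHn hg he hK => ?_⟩
  have hE0 : ∀ m : ℕ, 0 ≤ En ρ β h m := fun m => by
    unfold En
    linarith [A_le_lam (ρ := ρ) hd hρ β h m]
  set E := En ρ β h H with hE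
  set ψ : Env d → ℝ := fun η => cl63 ρ β h H g e η - E with hψ
  have hcl := fun η => cl_abs63 (ρ := ρ) β h H hg he (hE0 H) η
  have hψm : Measurable ψ := (cl_meas63 β h H g e).sub_const _
  have hψP : ∀ η, |ψ η| ≤ g + e + E := fun η => by
    obtain ⟨h1, h2⟩ := hcl η
    have h3 := hE0 H
    simp only [hψ]
    rw [abs_le]
    constructor <;> linarith
  have hA : ∀ m : ℕ, A ρ β h m = m * lam ρ β h - En ρ β h m := fun m => by
    unfold En
    ring
  have h1 := hmain n H K g (e + E) (g + e + E) ψ (Gl63 ρ β h n H g) hH hHn hg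
    (by have := hE0 H; linarith) hψm hψP (Gl_meas63 β h n H g)
    (fun η hη => by
      have h2 : X β h η H ≤ H * lam ρ β h + g := by
        by_contra h3
        push Not at h3
        refine hη ⟨1, le_rfl, by omega, ?_⟩
        rw [one_mul]
        push_cast
        linarith
      have h4 : X β h η H - A ρ β h H ≤ cl63 ρ β h H g e η := by
        unfold cl63
        refine le_max_of_le_left (le_min le_rfl ?_)
        rw [hA H]
        linarith
      simp only [hψ]
      rw [hA H] at h4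
      linarith)
    (fun η => by
      have := (hcl η).1
      simp only [hψ]
      linarith)
    (fun η hη m hm => by
      rcases Nat.eq_zero_or_pos m with rfl | hm0
      · rw [zero_mul]
        have h5 : X β h η 0 = 0 := by
          unfold X
          rw [Z_zero, Real.log_one]
        rw [h5]
        simp
      · by_contra h3
        push Not at h3
        exact hη ⟨m, hm0, hm, by linarith⟩)
    hK
  have hint : ∀ t ∈ Finset.range (n + 1 - H), ∫ η, uf63 β h n t ψ η ∂(law d ρ) =
      (∫ η, ∑ y ∈ boxF d t, Qt β h n t y η * cl63 ρ β h H g e (sh t y η) ∂(law d ρ)) - E := by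
    intro t ht
    have ht' : t ≤ n := by
      have := Finset.mem_range.1 ht
      omega
    have h2 : (fun η : Env d => uf63 β h n t ψ η) = fun η =>
        uf63 β h n t (cl63 ρ β h H g e) η - E := by
      funext η
      unfold uf63
      simp only [hψ, mul_sub]
      rw [Finset.sum_sub_distrib, ← Finset.sum_mul, Qt_sum_box39 hd β h ht' le_rfl η, one_mul]
    rw [h2, integral_sub (uf_int63 hd β h ht' (cl_meas63 β h H g e)
      (P := g + e + E) fun η => by
        obtain ⟨h1, h2⟩ := hcl η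
        have h3 := hE0 H
        rw [abs_le]
        constructor <;> linarith) (integrable_const _)]
    simp [uf63]
  rw [Finset.sum_congr rfl hint, Finset.sum_sub_distrib, Finset.sum_const, Finset.card_range,
    nsmul_eq_mul, Nat.cast_sub (by omega)] at h1
  -- the last times
  have hsub : Finset.range (n + 1 - H) ⊆ Finset.range n := fun t ht => by
    rw [Finset.mem_range] at ht ⊢
    omega
  have h2 : (∑ t ∈ Finset.range (n + 1 - H), ∫ η, ∑ y ∈ boxF d t, Qt β h n t y η *
      cl63 ρ β h H g e (sh t y η) ∂(law d ρ)) ≤ (∑ t ∈ Finset.range n, ∫ η, ∑ y ∈ boxF d t,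
        Qt β h n t y η * cl63 ρ β h H g e (sh t y η) ∂(law d ρ)) + H * e := by
    rw [← Finset.sum_sdiff hsub]
    have h3 : -(H * e) ≤ ∑ t ∈ Finset.range n \ Finset.range (n + 1 - H), ∫ η,
        ∑ y ∈ boxF d t, Qt β h n t y η * cl63 ρ β h H g e (sh t y η) ∂(law d ρ) := by
      have h4 : ∀ t ∈ Finset.range n \ Finset.range (n + 1 - H), -e ≤ ∫ η,
          ∑ y ∈ boxF d t, Qt β h n t y η * cl63 ρ β h H g e (sh t y η) ∂(law d ρ) := by
        intro t ht
        have ht' : t ≤ n := (Finset.mem_range.1 (Finset.mem_sdiff.1 ht).1).le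
        have h5 : ∫ _η : Env d, -e ∂(law d ρ) ≤ ∫ η, uf63 β h n t (cl63 ρ β h H g e) η
            ∂(law d ρ) := by
          refine integral_mono (integrable_const _) (uf_int63 hd β h ht' (cl_meas63 β h H g e)
            (P := g + e + E) fun η => ?_) fun η => le_uf63 hd β h ht' (fun η => (hcl η).1) η
          obtain ⟨h1, h2⟩ := hcl η
          have h3 := hE0 H
          rw [abs_le]
          constructor <;> linarith
        simpa [uf63] using h5
      have h5 := Finset.card_nsmul_le_sum _ _ _ h4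
      rw [nsmul_eq_mul, Finset.card_sdiff_of_subset hsub, Finset.card_range,
        Finset.card_range] at h5
      have h6 : ((n - (n + 1 - H) : ℕ) : ℝ) ≤ H := by
        exact_mod_cast (by omega : n - (n + 1 - H) ≤ H)
      have h7 := mul_le_mul_of_nonneg_right h6 he
      linarith
    linarith
  have h3 : (∑ t ∈ Finset.range (n + 1 - H), us ρ β h n t (Gl63 ρ β h n H g)) ≤
      ∑ t ∈ Finset.range n, us ρ β h n t (Gl63 ρ β h n H g) := by
    refine Finset.sum_le_sum_of_subset_of_nonneg hsub fun t ht _ => ?_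
    rw [us_eq63]
    exact integral_nonneg fun η => (uq_mem63 (ρ := ρ) hd β h
      (Finset.mem_range.1 ht).le _ η).1
  have h4 : 2 * (g + (e + E)) * (∑ t ∈ Finset.range (n + 1 - H),
      us ρ β h n t (Gl63 ρ β h n H g)) ≤ 2 * (g + e + E) * (∑ t ∈ Finset.range n,
        us ρ β h n t (Gl63 ρ β h n H g)) := by
    rw [← add_assoc]
    refine mul_le_mul_of_nonneg_left h3 ?_
    have := hE0 H
    positivity
  have h5 : ((n : ℝ) - H) * E ≤ ((n + 1 : ℕ) - H) * E := by
    refine mul_le_mul_of_nonneg_right ?_ (hE0 H)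
    push_cast
    linarith
  have h6 : (H : ℝ) * (En ρ β h n + e + C * (H + 1) + C * Real.sqrt ((n + 1) * K)) =
      H * (En ρ β h n + C * (H + 1) + C * Real.sqrt ((n + 1) * K)) + H * e := by ring
  rw [h6]
  linarith

end Pool.Agent.W_7d29a1_PL
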