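import Pool.Agent.W_7d29a1_SNP.DefsN28
import Pool.Agent.W_7d29a1_SNP.UstC63

/-!
Leaves RSN and UST (helper63): the literals of `DefsN28`.
-/

set_option autoImplicit false

namespace Pool.Agent.W_7d29a1_SNP

open MeasureTheory ProbabilityTheory Filter Topology Pool.Agent.W_MP_7d29a1_pr
  Pool.Agent.W_7d29a1_h46 Pool.Agent.W_7d29a1_h46u Pool.Agent.W_7d29a1_D2.B35
  Pool.Agent.W_7d29a1_Q29 Pool.Agent.W_7d29a1_R34 Pool.Agent.W_7d29a1_SP
  Pool.Agent.W_7d29a1_PL Pool.Agent.W_7d29a1_SD Pool.Agent.W_7d29a1_KZ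

/-- **RSN**. -/
theorem rsn63 : RsnP := by
  classical
  intro N f φ a b e G ha hb hφ hf he he0
  have h1 := sunC63 (G := a) (D := b) (by linarith) N f φ (fun k => k ∈ G)
    (fun k hk hG => (hf k hk hG).1) hφ (fun k hk hG m hm => by
      rcases Nat.eq_zero_or_pos m with rfl | hm0
      · simp
      · have := (hf k hk hG).2 m hm0 hm
        linarith)
  have h2 : RR63 a N f ≤ e := by
    rcases RR_win63 a N f with h3 | ⟨m, -, hm, h3⟩
    · rw [h3]
      exact he0
    · rw [h3]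
      exact he m hm
  have h3 : (∑ k ∈ Finset.range N, if k ∈ G then (1 : ℝ) else 0) =
      ((G ∩ Finset.range N).card : ℝ) := by
    rw [Finset.sum_ite_mem, Finset.sum_const, nsmul_eq_mul, mul_one, Finset.inter_comm]
  have h4 : (0 : ℝ) ≤ if 0 < RR63 a N f then a + b else 0 := by
    split_ifs
    · linarith
    · exact le_rfl
  have h5 : ∑ k ∈ Finset.range N, (f k - φ k) =
      ∑ k ∈ Finset.range N, f k - ∑ k ∈ Finset.range N, φ k := Finset.sum_sub_distrib _ _
  have h6 : 2 * (a + b) * (∑ k ∈ Finset.range N, if k ∈ G then (1 : ℝ) else 0) =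
      2 * (a + b) * ((G ∩ Finset.range N).card : ℝ) := by rw [h3]
  have h7 : ∑ k ∈ Finset.range N, (f k - φ k) ≤ RR63 a N f +
      2 * (a + b) * (∑ k ∈ Finset.range N, if k ∈ G then (1 : ℝ) else 0) -
      (if 0 < RR63 a N f then a + b else 0) := by
    convert h1
  rw [h6] at h7
  linarith

variable {d : ℕ} {ρ : Measure ℝ}

lemma Gk_meas63 (β : ℝ) (h : Vec d) (H S : ℕ) (y z : ℝ) :
    MeasurableSet (Gk ρ β h H S y z) := by
  have h1 : Gk ρ β h H S y z = ⋃ N : ℕ, ⋃ s : ℕ, {η : Env d | (1 ≤ N ∧ s ≤ S) ∧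
      ((N * H + s : ℕ) : ℝ) * lam ρ β h + N * y - z ≤ X β h η (N * H + s)} := by
    ext η
    simp only [Gk, Set.mem_ofPred_eq, Set.mem_iUnion]
    constructor
    · rintro ⟨N, s, h1, h2, h3⟩
      exact ⟨N, s, ⟨h1, h2⟩, h3⟩
    · rintro ⟨N, s, ⟨h1, h2⟩, h3⟩
      exact ⟨N, s, h1, h2, h3⟩
  rw [h1]
  refine MeasurableSet.iUnion fun N => MeasurableSet.iUnion fun s => ?_
  by_cases h2 : 1 ≤ N ∧ s ≤ S
  · simp only [h2, true_and]
    exact measurableSet_le measurable_const (measurable_X β h (N * H + s))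
  · simp only [h2, false_and]
    exact MeasurableSet.const False

/-- The good set of `UstC63` is a part of the one of the frame. -/
lemma Gl_sub63 (β : ℝ) (h : Vec d) (n H : ℕ) (g : ℝ) :
    Gl63 ρ β h n H g ⊆ Gk ρ β h H 0 g 0 := by
  rintro η ⟨N, h1, -, h3⟩
  refine ⟨N, 0, h1, le_rfl, ?_⟩
  rw [add_zero]
  linarith

variable [IsProbabilityMeasure ρ]

/-- `us` is monotone. -/
lemma us_mono63 (hd : 0 < d) (β : ℝ) (h : Vec d) {n t : ℕ} (ht : t ≤ n) {B B' : Set (Env d)}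
    (hB : MeasurableSet B) (hB' : MeasurableSet B') (hsub : B ⊆ B') :
    us ρ β h n t B ≤ us ρ β h n t B' := by
  have hi : ∀ s : Set (Env d), MeasurableSet s → Integrable (fun η : Env d =>
      ∑ y ∈ boxF d t, Qt β h n t y η * s.indicator (fun _ => (1 : ℝ)) (sh t y η))
      (law d ρ) := fun s hs => uf_int63 hd β h ht (measurable_const.indicator hs)
        (P := 1) fun η => by
          by_cases h1 : η ∈ s
          · simp [h1]
          · simp [h1]
  unfold us
  refine integral_mono (hi B hB) (hi B' hB') fun η => ?_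
  refine Finset.sum_le_sum fun y _ => ?_
  refine mul_le_mul_of_nonneg_left ?_ (Qt_nonneg39 _ _ _ _ _ _)
  exact Set.indicator_le_indicator_of_subset hsub (fun _ => zero_le_one) _

/-- **UST**. -/
theorem ust63 (hd : 0 < d) (hρ : EM ρ) (β : ℝ) : UstP d ρ β := by
  refine ⟨3 * d, by positivity, fun h => ?_⟩
  obtain ⟨C, hC, hmain⟩ := ustC63 (ρ := ρ) hd hρ β h
  refine ⟨C, by linarith, fun n H a b K hH hHn ha hb hK => ?_⟩
  have h1 := hmain n H K a b hH hHn ha hb hK
  have hE0 : 0 ≤ En ρ β h H := by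
    unfold En
    linarith [A_le_lam (ρ := ρ) hd hρ β h H]
  have h2 : ∑ t ∈ Finset.range n, us ρ β h n t (Gl63 ρ β h n H a) ≤
      ∑ t ∈ Finset.range n, us ρ β h n t (Gk ρ β h H 0 a 0) :=
    Finset.sum_le_sum fun t ht => us_mono63 hd β h (Finset.mem_range.1 ht).le
      (Gl_meas63 β h n H a) (Gk_meas63 β h H 0 a 0) (Gl_sub63 β h n H a)
  have h3 : 2 * (a + b + En ρ β h H) * (∑ t ∈ Finset.range n, us ρ β h n t (Gl63 ρ β h n H a)) ≤
      2 * (a + b + En ρ β h H) * (∑ t ∈ Finset.range n, us ρ β h n t (Gk ρ β h H 0 a 0)) :=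
    mul_le_mul_of_nonneg_left h2 (by positivity)
  have h4 : ∑ t ∈ Finset.range n, uf ρ β h n t (clp ρ β h H a b) =
      ∑ t ∈ Finset.range n, ∫ η, ∑ y ∈ boxF d t, Qt β h n t y η *
          cl63 ρ β h H a b (sh t y η) ∂(law d ρ) := rfl
  rw [h4]
  linarith

end Pool.Agent.W_7d29a1_SNP
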