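import Pool.Agent.W_7d29a1_SNP.DefsN28
import Pool.Agent.W_7d29a1_SNP.PlugU63
import Pool.Agent.W_7d29a1_PL.Cor24

/-!
The Newman-Piza inequality is strict, core, first half: the long levels (helper24).
-/

set_option autoImplicit false

namespace Pool.Agent.W_7d29a1_SNP

open MeasureTheory ProbabilityTheory Filter Topology Pool.Agent.W_MP_7d29a1_pr
  Pool.Agent.W_7d29a1_h46 Pool.Agent.W_7d29a1_h46u Pool.Agent.W_7d29a1_D2.B35
  Pool.Agent.W_7d29a1_Q29 Pool.Agent.W_7d29a1_R34 Pool.Agent.W_7d29a1_SP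
  Pool.Agent.W_7d29a1_PL Pool.Agent.W_7d29a1_SD Pool.Agent.W_7d29a1_KZ

/-- CORT1: the budget from the long levels. -/
def CorT1 (d : ℕ) (ρ : Measure ℝ) (β : ℝ) : Prop := ∀ c₀ Λ x₁ : ℝ, 0 < c₀ → 4 < Λ → 0 < x₁ →
  x₁ < 1 / 2 → ∃ D₀ c C' : ℝ, 1 ≤ D₀ ∧ 0 < c ∧ 1 ≤ C' ∧ ∀ (h : Vec d) (C : ℝ), Loc1 ρ β h c₀ →
    (∀ k : ℕ, fM ρ β h k ≤ C * (k : ℝ) ^ x₁ ∧ Va ρ β h k ≤ C * (k : ℝ) ^ (2 * x₁)) →
    ∀ m : ℕ → ℕ, Lv ρ β h m → ∃ p₀ : ℕ, ∀ᶠ n : ℕ in atTop, ∀ I : Finset ℕ,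
      (∀ p ∈ I, p₀ ≤ p ∧ Nc Λ m p ∧ D₀ ≤ Dq m p ∧ (m p : ℝ) ≤ (n : ℝ) ^ ((1 / 2 - x₁) / 4) ∧
        ∀ i : ℕ, C' * (1 + Real.log (m (p + i + 1))) ≤ 2 ^ i * 2 ^ p) →
      ∀ V : ℝ, BdF ρ β h n V (1 / 100) → c * ∑ p ∈ I, Dq m p ≤ V

section Lev

variable {d : ℕ} {ρ : Measure ℝ} {β : ℝ} {h : Vec d} {m : ℕ → ℕ}

lemma Lv_one24 [IsProbabilityMeasure ρ] (hL : Lv ρ β h m) (l : ℕ) : 1 ≤ m l := by
  by_contra hc0
  have h0 : m l = 0 := by omega
  have h1 := hL.hi l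
  have hf0 : fM ρ β h 0 = 0 := by
    unfold fM
    rw [En_zero15, Fn_zero15, max_self]
  rw [h0, hf0] at h1
  have : (0 : ℝ) < 2 ^ l := by positivity
  linarith

lemma Lv_mono24 (hL : Lv ρ β h m) : Monotone m := by
  intro l l' hl
  by_contra hc'
  push Not at hc'
  have h1 := hL.lo l (m l') hc'
  have h2 := hL.hi l'
  have h3 : (2 : ℝ) ^ l ≤ 2 ^ l' := pow_le_pow_right₀ (by norm_num) hl
  linarith

lemma Lv_inf24 (hL : Lv ρ β h m) (K : ℕ) : ∃ p₀ : ℕ, ∀ l : ℕ, p₀ ≤ l → K ≤ m l := by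
  obtain ⟨p₀, hp₀⟩ := pow_unbounded_of_one_lt (∑ k ∈ Finset.range K, |fM ρ β h k|)
    (one_lt_two : (1 : ℝ) < 2)
  refine ⟨p₀, fun l hl => ?_⟩
  by_contra hc
  push Not at hc
  have h1 := hL.hi l
  have h2 : fM ρ β h (m l) ≤ ∑ k ∈ Finset.range K, |fM ρ β h k| :=
    (le_abs_self _).trans (Finset.single_le_sum (f := fun k => |fM ρ β h k|)
      (fun k _ => abs_nonneg _) (Finset.mem_range.2 hc))
  have h3 : (2 : ℝ) ^ p₀ ≤ 2 ^ l := pow_le_pow_right₀ (by norm_num) hl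
  linarith

lemma Dq_nn24 [IsProbabilityMeasure ρ] (hL : Lv ρ β h m) (p : ℕ) : 0 ≤ Dq m p := by
  unfold Dq
  have h1 : (1 : ℝ) ≤ m p := by exact_mod_cast Lv_one24 hL p
  have h2 : (m p : ℝ) ≤ m (p + 1) := by exact_mod_cast Lv_mono24 hL (Nat.le_succ p)
  refine Real.log_nonneg ?_
  rw [one_le_div (by linarith)]
  exact h2

end Lev

/-- A residue class with a large weight. -/
lemma res24 (I : Finset ℕ) {b : ℕ} (hb : 1 ≤ b) (w : ℕ → ℝ) : ∃ J : Finset ℕ, J ⊆ I ∧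
    (∀ p ∈ J, ∀ q ∈ J, p < q → p + b ≤ q) ∧ ∑ p ∈ I, w p ≤ b * ∑ p ∈ J, w p := by
  classical
  obtain ⟨r, hr, hmax⟩ := Finset.exists_max_image (Finset.range b)
    (fun r => ∑ p ∈ I.filter (fun p => p % b = r), w p) ⟨0, Finset.mem_range.2 (by omega)⟩
  refine ⟨I.filter (fun p => p % b = r), Finset.filter_subset _ _, fun p hp q hq hpq => ?_, ?_⟩
  · have h1 := (Finset.mem_filter.1 hp).2
    have h2 := (Finset.mem_filter.1 hq).2
    have h3 : p ≡ q [MOD b] := h1.trans h2.symm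
    have h4 : b ∣ q - p := (Nat.modEq_iff_dvd' hpq.le).1 h3
    have h5 : b ≤ q - p := Nat.le_of_dvd (by omega) h4
    omega
  · have h1 : ∑ s ∈ Finset.range b, ∑ p ∈ I.filter (fun p => p % b = s), w p = ∑ p ∈ I, w p :=
      Finset.sum_fiberwise_of_maps_to (fun p _ => Finset.mem_range.2 (Nat.mod_lt p (by omega))) w
    rw [← h1]
    have h2 := Finset.sum_le_card_nsmul (Finset.range b)
      (fun s => ∑ p ∈ I.filter (fun p => p % b = s), w p)
      (∑ p ∈ I.filter (fun p => p % b = r), w p) hmax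
    rw [Finset.card_range, nsmul_eq_mul] at h2
    exact h2

/-- The exponential moment of a weighted sum of rare events. -/
lemma exp24 {Ω : Type*} [MeasurableSpace Ω] {μ : Measure Ω} [IsProbabilityMeasure μ]
    (I : Finset ℕ) (B : ℕ → Set Ω) (hB : ∀ p ∈ I, MeasurableSet (B p)) (θ : ℕ → ℝ)
    (hθ : ∀ p ∈ I, 0 ≤ θ p) (C : ℝ)
    (hJ : ∀ J : Finset ℕ, J ⊆ I → μ.real (⋂ p ∈ J, B p) ≤
      Real.exp (C * J.card - 2 * ∑ p ∈ J, θ p)) :
    ∫ x, Real.exp (∑ p ∈ I, θ p * (B p).indicator (fun _ => (1 : ℝ)) x) ∂μ ≤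
      Real.exp (I.card * Real.exp C) := by
  classical
  have hpt : ∀ x, Real.exp (∑ p ∈ I, θ p * (B p).indicator (fun _ => (1 : ℝ)) x) ≤
      ∑ J ∈ I.powerset, Real.exp (∑ p ∈ J, θ p) *
        (⋂ p ∈ J, B p).indicator (fun _ => (1 : ℝ)) x := by
    intro x
    rw [Real.exp_sum]
    have h1 : ∏ p ∈ I, Real.exp (θ p * (B p).indicator (fun _ => (1 : ℝ)) x) ≤
        ∏ p ∈ I, (1 + Real.exp (θ p) * (B p).indicator (fun _ => (1 : ℝ)) x) := by
      refine Finset.prod_le_prod (fun p _ => (Real.exp_pos _).le) fun p _ => ?_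
      by_cases hx : x ∈ B p
      · rw [Set.indicator_of_mem hx, mul_one, mul_one]
        linarith
      · rw [Set.indicator_of_notMem hx, mul_zero, mul_zero, Real.exp_zero]
        linarith
    refine h1.trans (le_of_eq ?_)
    rw [Finset.prod_one_add]
    refine Finset.sum_congr rfl fun J _ => ?_
    rw [Finset.prod_mul_distrib, ← Real.exp_sum]
    congr 1
    by_cases hx : x ∈ ⋂ p ∈ J, B p
    · rw [Set.indicator_of_mem hx]
      refine Finset.prod_eq_one fun p hp => ?_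
      rw [Set.indicator_of_mem (Set.mem_iInter₂.1 hx p hp)]
    · rw [Set.indicator_of_notMem hx]
      rw [Set.mem_iInter₂] at hx
      push Not at hx
      obtain ⟨p, hp, hxp⟩ := hx
      exact Finset.prod_eq_zero hp (Set.indicator_of_notMem hxp _)
  have hm : ∀ J : Finset ℕ, J ⊆ I → MeasurableSet (⋂ p ∈ J, B p) := fun J hJ' =>
    Finset.measurableSet_biInter J fun p hp => hB p (hJ' hp)
  have hi : ∀ J ∈ I.powerset, Integrable (fun x => Real.exp (∑ p ∈ J, θ p) *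
      (⋂ p ∈ J, B p).indicator (fun _ => (1 : ℝ)) x) μ := fun J hJ' =>
    ((integrable_const (1 : ℝ)).indicator (hm J (Finset.mem_powerset.1 hJ'))).const_mul _
  calc ∫ x, Real.exp (∑ p ∈ I, θ p * (B p).indicator (fun _ => (1 : ℝ)) x) ∂μ
      ≤ ∫ x, ∑ J ∈ I.powerset, Real.exp (∑ p ∈ J, θ p) *
        (⋂ p ∈ J, B p).indicator (fun _ => (1 : ℝ)) x ∂μ :=
        integral_mono_of_nonneg (Eventually.of_forall fun _ => (Real.exp_pos _).le)
          (integrable_finsetSum _ hi) (Eventually.of_forall hpt)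
    _ = ∑ J ∈ I.powerset, Real.exp (∑ p ∈ J, θ p) * μ.real (⋂ p ∈ J, B p) := by
        rw [integral_finsetSum _ hi]
        refine Finset.sum_congr rfl fun J hJ' => ?_
        rw [integral_const_mul, integral_indicator_const _ (hm J (Finset.mem_powerset.1 hJ'))]
        simp
    _ ≤ ∑ J ∈ I.powerset, ∏ p ∈ J, Real.exp C := by
        refine Finset.sum_le_sum fun J hJ' => ?_
        have hJI := Finset.mem_powerset.1 hJ'
        have h1 := hJ J hJI
        have h2 : 0 ≤ ∑ p ∈ J, θ p := Finset.sum_nonneg fun p hp => hθ p (hJI hp)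
        rw [Finset.prod_const, ← Real.exp_nat_mul]
        calc Real.exp (∑ p ∈ J, θ p) * μ.real (⋂ p ∈ J, B p)
            ≤ Real.exp (∑ p ∈ J, θ p) * Real.exp (C * J.card - 2 * ∑ p ∈ J, θ p) :=
              mul_le_mul_of_nonneg_left h1 (Real.exp_pos _).le
          _ = Real.exp (J.card * C - ∑ p ∈ J, θ p) := by
              rw [← Real.exp_add]
              congr 1
              ring
          _ ≤ Real.exp (J.card * C) := Real.exp_le_exp.2 (by linarith)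
    _ = ∏ p ∈ I, (1 + Real.exp C) := (Finset.prod_one_add _).symm
    _ ≤ Real.exp (I.card * Real.exp C) := by
        rw [Finset.prod_const, Real.exp_nat_mul]
        refine pow_le_pow_left₀ (by have := Real.exp_pos C; linarith) ?_ _
        have := Real.add_one_le_exp (Real.exp C)
        linarith

/-- The polymer mean of a weighted sum of events. -/
lemma uf_sum24 {d : ℕ} {ρ : Measure ℝ} [IsProbabilityMeasure ρ] (hd : 0 < d) (β : ℝ) (h : Vec d)
    {n t : ℕ} (ht : t ≤ n) (I : Finset ℕ) (B : ℕ → Set (Env d))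
    (hB : ∀ p ∈ I, MeasurableSet (B p)) (θ : ℕ → ℝ) :
    uf ρ β h n t (fun η => ∑ p ∈ I, θ p * (B p).indicator (fun _ => (1 : ℝ)) η) =
      ∑ p ∈ I, θ p * us ρ β h n t (B p) := by
  have hi : ∀ p ∈ I, Integrable (fun η : Env d => ∑ y ∈ boxF d t, Qt β h n t y η *
      (B p).indicator (fun _ => (1 : ℝ)) (sh t y η)) (law d ρ) := fun p hp =>
    uf_int63 hd β h ht (measurable_const.indicator (hB p hp)) (P := 1) fun η => by
      by_cases h1 : η ∈ B p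
      · simp [h1]
      · simp [h1]
  unfold uf us
  have e : ∀ η : Env d, ∑ y ∈ boxF d t, Qt β h n t y η *
      (∑ p ∈ I, θ p * (B p).indicator (fun _ => (1 : ℝ)) (sh t y η)) =
      ∑ p ∈ I, θ p * ∑ y ∈ boxF d t, Qt β h n t y η *
        (B p).indicator (fun _ => (1 : ℝ)) (sh t y η) := by
    intro η
    simp only [Finset.mul_sum]
    rw [Finset.sum_comm]
    refine Finset.sum_congr rfl fun p _ => Finset.sum_congr rfl fun y _ => ?_
    ring
  simp only [e]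
  rw [integral_finsetSum _ fun p hp => (hi p hp).const_mul (θ p)]
  refine Finset.sum_congr rfl fun p _ => ?_
  rw [integral_const_mul]

/-- The numbers of the usage. -/
lemma num24 {x₁ C Cu C₁ : ℝ} (hx₁ : 0 < x₁) (hx₂ : x₁ < 1 / 2) (hCu : 0 ≤ Cu) :
    ∀ᶠ n : ℕ in atTop, ∀ (H : ℕ) (x s E : ℝ), 1 ≤ H → (H : ℝ) ≤ (n : ℝ) ^ ((1 / 2 - x₁) / 4) →
      1 ≤ x → C₁ * Real.log (2 * H + 1) ≤ x / 20 → E ≤ |C| * (n : ℝ) ^ x₁ →
      (1 - 1 / 20) * x * (n - H) ≤ 2 * x * s + H * (E + Cu * (H + 1) +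
        Cu * Real.sqrt ((n + 1) * (|C| * (n : ℝ) ^ (2 * x₁)))) +
        C₁ * n * Real.log (2 * H + 1) → 2 / 5 * (n : ℝ) ≤ s := by
  set g : ℝ := (1 / 2 - x₁) / 4 with hg
  have hg0 : 0 < g := by rw [hg]; linarith
  have hg1 : g < 1 / 8 := by rw [hg]; linarith
  have hxg : 1 / 2 + x₁ = 1 - 4 * g := by rw [hg]; ring
  obtain ⟨K, hK⟩ : ∃ K : ℝ, K = |C| + 2 * Cu + Cu * (2 * |C| + 1) := ⟨_, rfl⟩
  have hC0 : 0 ≤ |C| := abs_nonneg C
  have hK0 : 0 ≤ K := by rw [hK]; positivity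
  have hT : Tendsto (fun n : ℕ => (n : ℝ) ^ (3 * g)) atTop atTop :=
    (tendsto_rpow_atTop (by linarith : 0 < 3 * g)).comp tendsto_natCast_atTop_atTop
  filter_upwards [hT.eventually_ge_atTop (100 * (K + 1)), eventually_ge_atTop 1] with n h1 h2
  intro H x s E hH1 hHn hx hlog hE hmain
  have hn1 : (1 : ℝ) ≤ n := by exact_mod_cast h2
  have hn0 : (0 : ℝ) < n := by linarith
  have hHn1 : (1 : ℝ) ≤ H := by exact_mod_cast hH1
  have h3g : (n : ℝ) ^ (3 * g) * (n : ℝ) ^ (1 - 3 * g) = n := by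
    rw [← Real.rpow_add hn0]
    norm_num
  have hr0 : 0 < (n : ℝ) ^ (1 - 3 * g) := Real.rpow_pos_of_pos hn0 _
  -- the main bound: `(K + 1) n ^ (1 - 3 g) ≤ n / 100`
  have hb : (K + 1) * (n : ℝ) ^ (1 - 3 * g) ≤ n / 100 := by
    have h3 : 100 * (K + 1) * (n : ℝ) ^ (1 - 3 * g) ≤ (n : ℝ) ^ (3 * g) * (n : ℝ) ^ (1 - 3 * g) :=
      mul_le_mul_of_nonneg_right h1 hr0.le
    rw [h3g] at h3
    linarith
  have hHs : (H : ℝ) ≤ n / 100 := by
    have h3 : (n : ℝ) ^ g ≤ (n : ℝ) ^ (1 - 3 * g) :=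
      Real.rpow_le_rpow_of_exponent_le hn1 (by linarith)
    have h4 : 0 ≤ K * (n : ℝ) ^ (1 - 3 * g) := by positivity
    linarith
  have hw0 : 0 < (n : ℝ) ^ (1 - 4 * g) := Real.rpow_pos_of_pos hn0 _
  have hE' : E ≤ |C| * (n : ℝ) ^ (1 - 4 * g) := by
    refine hE.trans (mul_le_mul_of_nonneg_left ?_ hC0)
    exact Real.rpow_le_rpow_of_exponent_le hn1 (by linarith)
  have hH2 : Cu * ((H : ℝ) + 1) ≤ 2 * Cu * (n : ℝ) ^ (1 - 4 * g) := by
    have h3 : (H : ℝ) + 1 ≤ 2 * (n : ℝ) ^ (1 - 4 * g) := by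
      have h4 : (n : ℝ) ^ g ≤ (n : ℝ) ^ (1 - 4 * g) :=
        Real.rpow_le_rpow_of_exponent_le hn1 (by linarith)
      linarith
    have := mul_le_mul_of_nonneg_left h3 hCu
    linarith
  have hS : Cu * Real.sqrt ((n + 1) * (|C| * (n : ℝ) ^ (2 * x₁))) ≤
      Cu * (2 * |C| + 1) * (n : ℝ) ^ (1 - 4 * g) := by
    rw [mul_assoc]
    refine mul_le_mul_of_nonneg_left ?_ hCu
    rw [Real.sqrt_le_left (by positivity)]
    have e1 : ((n : ℝ) ^ (1 - 4 * g)) ^ 2 = n * (n : ℝ) ^ (2 * x₁) := by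
      rw [← Real.rpow_natCast ((n : ℝ) ^ (1 - 4 * g)) 2, ← Real.rpow_mul hn0.le]
      nth_rw 2 [← Real.rpow_one (n : ℝ)]
      rw [← Real.rpow_add hn0]
      congr 1
      push_cast
      linarith
    have e2 : ((2 * |C| + 1) * (n : ℝ) ^ (1 - 4 * g)) ^ 2 =
        (2 * |C| + 1) ^ 2 * (n * (n : ℝ) ^ (2 * x₁)) := by
      rw [mul_pow, e1]
    rw [e2]
    have hp : 0 < (n : ℝ) ^ (2 * x₁) := Real.rpow_pos_of_pos hn0 _
    have e3 : ((n : ℝ) + 1) * (|C| * (n : ℝ) ^ (2 * x₁)) ≤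
        (2 * n) * (|C| * (n : ℝ) ^ (2 * x₁)) :=
      mul_le_mul_of_nonneg_right (by linarith) (by positivity)
    have e4 : (2 * (n : ℝ)) * (|C| * (n : ℝ) ^ (2 * x₁)) =
        2 * |C| * (n * (n : ℝ) ^ (2 * x₁)) := by ring
    have e5 : 2 * |C| ≤ (2 * |C| + 1) ^ 2 := by nlinarith
    have e6 : 2 * |C| * (n * (n : ℝ) ^ (2 * x₁)) ≤ (2 * |C| + 1) ^ 2 * (n * (n : ℝ) ^ (2 * x₁)) :=
      mul_le_mul_of_nonneg_right e5 (by positivity)
    linarith
  have hsum : E + Cu * ((H : ℝ) + 1) + Cu * Real.sqrt ((n + 1) * (|C| * (n : ℝ) ^ (2 * x₁))) ≤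
      K * (n : ℝ) ^ (1 - 4 * g) := by
    have e1 : K * (n : ℝ) ^ (1 - 4 * g) = |C| * (n : ℝ) ^ (1 - 4 * g) +
        2 * Cu * (n : ℝ) ^ (1 - 4 * g) + Cu * (2 * |C| + 1) * (n : ℝ) ^ (1 - 4 * g) := by
      rw [hK]
      ring
    rw [e1]
    linarith
  have hHsum : (H : ℝ) * (E + Cu * ((H : ℝ) + 1) +
      Cu * Real.sqrt ((n + 1) * (|C| * (n : ℝ) ^ (2 * x₁)))) ≤ n / 100 := by
    have e1 : (H : ℝ) * (E + Cu * ((H : ℝ) + 1) +
        Cu * Real.sqrt ((n + 1) * (|C| * (n : ℝ) ^ (2 * x₁)))) ≤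
        H * (K * (n : ℝ) ^ (1 - 4 * g)) := mul_le_mul_of_nonneg_left hsum (by linarith)
    have e2 : (H : ℝ) * (K * (n : ℝ) ^ (1 - 4 * g)) ≤
        (n : ℝ) ^ g * (K * (n : ℝ) ^ (1 - 4 * g)) :=
      mul_le_mul_of_nonneg_right hHn (by positivity)
    have e3 : (n : ℝ) ^ g * (K * (n : ℝ) ^ (1 - 4 * g)) = K * (n : ℝ) ^ (1 - 3 * g) := by
      have : (n : ℝ) ^ g * (n : ℝ) ^ (1 - 4 * g) = (n : ℝ) ^ (1 - 3 * g) := by
        rw [← Real.rpow_add hn0]
        congr 1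
        ring
      rw [← this]
      ring
    linarith
  have hlog' : C₁ * n * Real.log (2 * H + 1) ≤ x * n / 20 := by
    have := mul_le_mul_of_nonneg_right hlog hn0.le
    calc C₁ * n * Real.log (2 * H + 1) = C₁ * Real.log (2 * H + 1) * n := by ring
      _ ≤ x / 20 * n := this
      _ = x * n / 20 := by ring
  have hx0 : 0 < x := by linarith
  have h5 : (1 - 1 / 20) * x * (n - n / 100) ≤ (1 - 1 / 20) * x * ((n : ℝ) - H) :=
    mul_le_mul_of_nonneg_left (by linarith) (by positivity)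
  have h6 : (n : ℝ) / 100 ≤ x * n / 100 := by
    have : (n : ℝ) ≤ x * n := le_mul_of_one_le_left hn0.le hx
    linarith
  have h7 : x * (2 / 5 * n) ≤ x * s := by nlinarith
  exact le_of_mul_le_mul_left h7 hx0

/-- **CORT1.** -/
theorem corT1_24 {d : ℕ} {ρ : Measure ℝ} [IsProbabilityMeasure ρ] (hd : 0 < d) {β : ℝ}
    (hU : UseP d ρ β) (hA : AddN d ρ β) (hF : FsN d ρ β) : CorT1 d ρ β := by
  classical
  intro c₀ Λ x₁ hc₀ hΛ hx₁ hx₂
  obtain ⟨a, B, ε, cA, CA, ha, hε, hcA, hCA, hadd⟩ :=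
    hA c₀ (1 / 20) Λ hc₀ (by norm_num) (by norm_num) hΛ
  obtain ⟨D₁, CF, hCF, hfs⟩ := hF c₀ Λ ε B hc₀ hΛ hε
  obtain ⟨C₁, hC₁, huse⟩ := hU
  obtain ⟨D₀, hD1, hD2, hD3, hD4⟩ : ∃ D₀ : ℝ, 1 ≤ D₀ ∧ D₁ ≤ D₀ ∧ 2 * CA ≤ cA * D₀ ∧
      20 * Real.exp CA ≤ cA * D₀ := by
    refine ⟨max (max 1 D₁) (max (2 * CA / cA) (20 * Real.exp CA / cA)),
      (le_max_left _ _).trans (le_max_left _ _), (le_max_right _ _).trans (le_max_left _ _),
      ?_, ?_⟩
    · have := (le_max_left (2 * CA / cA) (20 * Real.exp CA / cA)).trans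
        (le_max_right (max 1 D₁) _)
      rw [div_le_iff₀ hcA] at this
      linarith
    · have := (le_max_right (2 * CA / cA) (20 * Real.exp CA / cA)).trans
        (le_max_right (max 1 D₁) _)
      rw [div_le_iff₀ hcA] at this
      linarith
  obtain ⟨C', hC1, hC2, hC3, hC4⟩ : ∃ C' : ℝ, 1 ≤ C' ∧ CA ≤ C' ∧ CF ≤ C' ∧ 60 * C₁ ≤ C' :=
    ⟨max (max CA CF) (60 * C₁), hCA.trans ((le_max_left _ _).trans (le_max_left _ _)),
      (le_max_left _ _).trans (le_max_left _ _), (le_max_right _ _).trans (le_max_left _ _),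
      le_max_right _ _⟩
  have ha0 : (0 : ℝ) < a := by exact_mod_cast ha
  refine ⟨D₀, cA / (30 * a), C', hD1, by positivity, hC1, fun h C hloc hf m hL => ?_⟩
  obtain ⟨Cu, hCu, huse'⟩ := huse h
  obtain ⟨p₁, hp₁⟩ := Lv_inf24 hL 2
  refine ⟨p₁ + a, ?_⟩
  have hg1 : (1 / 2 - x₁) / 4 ≤ 1 := by linarith
  filter_upwards [num24 (C := C) (C₁ := C₁) hx₁ hx₂ hCu, eventually_ge_atTop 1] with n hnum hn
  intro I hI V hB
  have hn1 : (1 : ℝ) ≤ n := by exact_mod_cast hn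
  have hn0 : (0 : ℝ) < n := by linarith
  obtain ⟨J, hJI, hJs, hJw⟩ := res24 I (b := 3 * a) (by omega) (Dq m)
  have hm1 := Lv_one24 hL
  have hDq : ∀ p, 0 ≤ Dq m p := Dq_nn24 hL
  have hlogm : ∀ p, 0 ≤ Real.log (m p : ℝ) := fun p =>
    Real.log_nonneg (by exact_mod_cast hm1 p)
  have hlog0 : ∀ p ∈ J, C' * (1 + Real.log (m (p + 1))) ≤ 2 ^ p := by
    intro p hp
    have h1 := (hI p (hJI hp)).2.2.2.2 0
    simpa using h1
  have h2p : ∀ p ∈ J, C' ≤ 2 ^ p := by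
    intro p hp
    refine le_trans ?_ (hlog0 p hp)
    have := hlogm (p + 1)
    nlinarith
  -- the system
  have hSc : ∀ J' : Finset ℕ, J' ⊆ J → Sc ρ β h a B Λ ε m J' := by
    intro J' hJ'
    refine ⟨hL.lo, hL.hi, fun p hp => ?_, fun p hp => (hI p (hJI (hJ' hp))).2.1,
      fun p hp q hq => hJs p (hJ' hp) q (hJ' hq), fun p hp => ?_⟩
    · have h1 := (hI p (hJI (hJ' hp))).1
      exact ⟨by omega, hp₁ _ (by omega)⟩
    · have h1 := hI p (hJI (hJ' hp))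
      exact hfs h hloc m p hL h1.2.1 (hm1 p) (hC3.trans (h2p p (hJ' hp))) (hD2.trans h1.2.2.1)
  set Bs : ℕ → Set (Env d) := fun p =>
    Lk ρ β h n (m p - 2 * m (p - a)) 0 (2 ^ p) (1 / 20) 0 with hBs
  have haddJ : ∀ J' : Finset ℕ, J' ⊆ J → (law d ρ).real (⋂ p ∈ J', Bs p) ≤
      Real.exp (CA * J'.card - cA * ∑ p ∈ J', Dq m p) := by
    intro J' hJ'
    refine hadd h hloc n m J' (hSc J' hJ') fun p hp i => ?_
    refine le_trans ?_ ((hI p (hJI (hJ' hp))).2.2.2.2 i)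
    refine mul_le_mul_of_nonneg_right hC2 ?_
    have := hlogm (p + i + 1)
    linarith
  have hH1 : ∀ p ∈ J, 1 ≤ m p - 2 * m (p - a) := by
    intro p hp
    by_contra hc0
    have h0 : m p - 2 * m (p - a) = 0 := by omega
    have h2 := haddJ {p} (Finset.singleton_subset_iff.2 hp)
    simp only [Finset.mem_singleton, Set.iInter_iInter_eq_left, Finset.card_singleton,
      Nat.cast_one, mul_one, Finset.sum_singleton] at h2
    have h3 : Bs p = Set.univ := by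
      show Lk ρ β h n (m p - 2 * m (p - a)) 0 (2 ^ p) (1 / 20) 0 = Set.univ
      rw [h0]
      exact C24.Lk_univ24 n 0 (by positivity) (by norm_num)
    rw [h3, probReal_univ, ← Real.exp_zero, Real.exp_le_exp] at h2
    have h4 := mul_le_mul_of_nonneg_left (hI p (hJI hp)).2.2.1 hcA.le
    linarith
  -- the usage
  have hus : ∀ p ∈ J, 2 / 5 * (n : ℝ) ≤ ∑ t ∈ Finset.range n, us ρ β h n t (Bs p) := by
    intro p hp
    have hpI := hI p (hJI hp)
    have hHm : m p - 2 * m (p - a) ≤ m p := Nat.sub_le _ _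
    have hHg : ((m p - 2 * m (p - a) : ℕ) : ℝ) ≤ (n : ℝ) ^ ((1 / 2 - x₁) / 4) :=
      le_trans (by exact_mod_cast hHm) hpI.2.2.2.1
    have hHn : m p - 2 * m (p - a) ≤ n := by
      have h1 : (n : ℝ) ^ ((1 / 2 - x₁) / 4) ≤ (n : ℝ) ^ (1 : ℝ) :=
        Real.rpow_le_rpow_of_exponent_le hn1 hg1
      rw [Real.rpow_one] at h1
      exact_mod_cast hHg.trans h1
    have hVa : ∀ k : ℕ, k ≤ n → Va ρ β h k ≤ |C| * (n : ℝ) ^ (2 * x₁) := by
      intro k hk
      refine (hf k).2.trans ?_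
      have h1 : (k : ℝ) ^ (2 * x₁) ≤ (n : ℝ) ^ (2 * x₁) :=
        Real.rpow_le_rpow (Nat.cast_nonneg k) (by exact_mod_cast hk) (by linarith)
      have h2 : C * (k : ℝ) ^ (2 * x₁) ≤ |C| * (k : ℝ) ^ (2 * x₁) :=
        mul_le_mul_of_nonneg_right (le_abs_self C) (by positivity)
      exact h2.trans (mul_le_mul_of_nonneg_left h1 (abs_nonneg C))
    have h1 := huse' n (m p - 2 * m (p - a)) (2 ^ p) (1 / 20) (|C| * (n : ℝ) ^ (2 * x₁)) (hH1 p hp)
      hHn (by positivity) (by norm_num) (by norm_num) hVa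
    refine hnum (m p - 2 * m (p - a)) (2 ^ p) _ (En ρ β h n) (hH1 p hp) hHg
      (one_le_pow₀ (by norm_num)) ?_ ?_ h1
    · -- the logarithm
      have hH0 : (0 : ℝ) ≤ ((m p - 2 * m (p - a) : ℕ) : ℝ) := Nat.cast_nonneg _
      have hHm' : ((m p - 2 * m (p - a) : ℕ) : ℝ) ≤ m p := by exact_mod_cast hHm
      have hmp1 : (1 : ℝ) ≤ m p := by exact_mod_cast hm1 p
      have hmpm : (m p : ℝ) ≤ m (p + 1) := by exact_mod_cast Lv_mono24 hL (Nat.le_succ p)
      have h3 : Real.log (2 * ((m p - 2 * m (p - a) : ℕ) : ℝ) + 1) ≤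
          3 * (1 + Real.log (m (p + 1))) := by
        have h4 : Real.log (2 * ((m p - 2 * m (p - a) : ℕ) : ℝ) + 1) ≤
            Real.log (3 * (m (p + 1) : ℝ)) := Real.log_le_log (by positivity) (by linarith)
        rw [Real.log_mul (by norm_num) (by linarith)] at h4
        have h5 : Real.log 3 ≤ 2 := by
          have := Real.log_le_sub_one_of_pos (show (0 : ℝ) < 3 by norm_num)
          linarith
        have := hlogm (p + 1)
        linarith
      have h4 : C₁ * Real.log (2 * ((m p - 2 * m (p - a) : ℕ) : ℝ) + 1) ≤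
          C₁ * (3 * (1 + Real.log (m (p + 1)))) := mul_le_mul_of_nonneg_left h3 hC₁
      have h5 : 60 * C₁ * (1 + Real.log (m (p + 1))) ≤ C' * (1 + Real.log (m (p + 1))) :=
        mul_le_mul_of_nonneg_right hC4 (by linarith [hlogm (p + 1)])
      have h6 := hlog0 p hp
      linarith
    · refine (le_max_left _ _).trans ((hf n).1.trans ?_)
      exact mul_le_mul_of_nonneg_right (le_abs_self C) (by positivity)
  -- the budget
  obtain ⟨g, hg⟩ : ∃ g : Env d → ℝ, g = fun η => ∑ p ∈ J, cA / 2 * Dq m p *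
      (Bs p).indicator (fun _ => (1 : ℝ)) η := ⟨_, rfl⟩
  have hθ0 : ∀ p, 0 ≤ cA / 2 * Dq m p := fun p => mul_nonneg (by positivity) (hDq p)
  have hgm : Measurable g := by
    rw [hg]
    exact Finset.measurable_sum _ fun p _ => (measurable_const.indicator
      (C24.Lk_meas24 _ _ _ _ _ _)).const_mul _
  have hgd : DependsOn g {q | 1 ≤ q.1} := by
    intro η η' hη
    rw [hg]
    refine Finset.sum_congr rfl fun p _ => ?_
    have h1 : (η ∈ Bs p) = (η' ∈ Bs p) := C24.Lk_dep24 n (m p - 2 * m (p - a)) 0 (2 ^ p)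
      (1 / 20) 0 hη
    congr 1
    by_cases h2 : η ∈ Bs p
    · have h3 : η' ∈ Bs p := h1 ▸ h2
      rw [Set.indicator_of_mem h2, Set.indicator_of_mem h3]
    · have h3 : η' ∉ Bs p := fun h4 => h2 (h1.symm ▸ h4)
      rw [Set.indicator_of_notMem h2, Set.indicator_of_notMem h3]
  have hgb : ∀ η, |g η| ≤ ∑ p ∈ J, cA / 2 * Dq m p := by
    intro η
    rw [hg]
    have h1 : ∀ p, 0 ≤ cA / 2 * Dq m p * (Bs p).indicator (fun _ => (1 : ℝ)) η := fun p =>
      mul_nonneg (hθ0 p) (Set.indicator_nonneg (fun _ _ => zero_le_one) _)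
    rw [abs_of_nonneg (Finset.sum_nonneg fun p _ => h1 p)]
    refine Finset.sum_le_sum fun p _ => ?_
    refine mul_le_of_le_one_right (hθ0 p) ?_
    exact Set.indicator_apply_le' (fun _ => le_rfl) (fun _ => zero_le_one)
  have hexp : ∫ η, Real.exp (g η) ∂(law d ρ) ≤ Real.exp (J.card * Real.exp CA) := by
    rw [hg]
    refine exp24 J Bs (fun p _ => C24.Lk_meas24 _ _ _ _ _ _) (fun p => cA / 2 * Dq m p)
      (fun p _ => hθ0 p) CA fun J' hJ' => ?_
    refine (haddJ J' hJ').trans (le_of_eq ?_)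
    congr 1
    rw [Finset.mul_sum, Finset.mul_sum]
    congr 1
    refine Finset.sum_congr rfl fun p _ => ?_
    ring
  have hbud := hB g (∑ p ∈ J, cA / 2 * Dq m p) (J.card * Real.exp CA) hgm hgd hgb
    (by positivity) hexp
  have hlow : 2 / 5 * ∑ p ∈ J, cA / 2 * Dq m p ≤
      (∑ t ∈ Finset.range n, uf ρ β h n t g) / n := by
    rw [le_div_iff₀ hn0]
    have h1 : ∑ t ∈ Finset.range n, uf ρ β h n t g =
        ∑ p ∈ J, cA / 2 * Dq m p * ∑ t ∈ Finset.range n, us ρ β h n t (Bs p) := by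
      have h2 : ∀ t ∈ Finset.range n, uf ρ β h n t g =
          ∑ p ∈ J, cA / 2 * Dq m p * us ρ β h n t (Bs p) := by
        intro t ht
        rw [hg]
        exact uf_sum24 hd β h (Finset.mem_range.1 ht).le J Bs
          (fun p _ => C24.Lk_meas24 _ _ _ _ _ _) _
      rw [Finset.sum_congr rfl h2, Finset.sum_comm]
      refine Finset.sum_congr rfl fun p _ => ?_
      rw [Finset.mul_sum]
    rw [h1, Finset.mul_sum, Finset.sum_mul]
    refine Finset.sum_le_sum fun p hp => ?_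
    have h2 := mul_le_mul_of_nonneg_left (hus p hp) (hθ0 p)
    linarith
  have hcard : (J.card : ℝ) * D₀ ≤ ∑ p ∈ J, Dq m p := by
    have h1 := Finset.card_nsmul_le_sum J (Dq m) D₀ fun p hp => (hI p (hJI hp)).2.2.1
    rwa [nsmul_eq_mul] at h1
  have hcard2 : (J.card : ℝ) * Real.exp CA ≤ cA / 20 * ∑ p ∈ J, Dq m p := by
    have h1 : (J.card : ℝ) * Real.exp CA ≤ J.card * (cA / 20 * D₀) :=
      mul_le_mul_of_nonneg_left (by linarith) (Nat.cast_nonneg _)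
    have h2 := mul_le_mul_of_nonneg_left hcard (show 0 ≤ cA / 20 by positivity)
    linarith
  rw [← Finset.mul_sum] at hlow hbud
  have hS0 : 0 ≤ ∑ p ∈ J, Dq m p := Finset.sum_nonneg fun p _ => hDq p
  have hcS : 0 ≤ cA * ∑ p ∈ J, Dq m p := mul_nonneg hcA.le hS0
  have h8 : cA / 10 * ∑ p ∈ J, Dq m p ≤ V := by linarith
  refine le_trans ?_ h8
  rw [div_mul_eq_mul_div, div_le_iff₀ (by positivity)]
  push_cast at hJw
  have h9 := mul_le_mul_of_nonneg_left hJw hcA.le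
  linarith

end Pool.Agent.W_7d29a1_SNP
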