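import Mathlib

/-!
Assembly of CORN: the numbers (helper28).
-/

namespace Pool.Agent.W_7d29a1_SNP

open Filter Topology

namespace Cn28

/-- The errors of the usage. -/
lemma numE28 (x₁ δ γ C₁ Cu C B : ℝ) (hx : 0 < x₁) (hx' : x₁ < 1 / 2) (hδ : 0 < δ) (hγ : 0 < γ)
    (hC₁ : 0 ≤ C₁) (hCu : 0 ≤ Cu) (hC : 0 ≤ C) (hB : 1 ≤ B) :
    ∀ᶠ n : ℕ in atTop, ∀ (H : ℕ) (x E K : ℝ), 1 ≤ H →
      (H : ℝ) ≤ B * (n : ℝ) ^ ((1 / 2 - x₁) / 4) → (n : ℝ) ^ γ ≤ x → E ≤ C * (n : ℝ) ^ x₁ →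
      K ≤ C * (n : ℝ) ^ (2 * x₁) →
      (H : ℝ) * (E + Cu * (H + 1) + Cu * Real.sqrt ((n + 1) * K)) +
        C₁ * n * Real.log (2 * H + 1) ≤ δ * (x * n) ∧ (H : ℝ) ≤ δ * n := by
  set g : ℝ := (1 / 2 - x₁) / 4 with hg
  have hg0 : 0 < g := by rw [hg]; linarith
  have hg1 : g < 1 / 8 := by rw [hg]; linarith
  set M : ℝ := C + 2 * Cu * B + Cu * Real.sqrt (2 * C) with hM
  have hM0 : 0 ≤ M := by positivity
  have e1 : ∀ᶠ n : ℕ in atTop, 2 * (B * M) / δ ≤ (n : ℝ) ^ (3 * g) :=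
    ((tendsto_rpow_atTop (by positivity)).comp tendsto_natCast_atTop_atTop).eventually_ge_atTop _
  have e2 : ∀ᶠ n : ℕ in atTop, 3 * B + B / δ ≤ (n : ℝ) ^ (1 - g) :=
    ((tendsto_rpow_atTop (by linarith)).comp tendsto_natCast_atTop_atTop).eventually_ge_atTop _
  have e3 : ∀ᶠ n : ℕ in atTop, C₁ * Real.log n ≤ δ / 2 * (n : ℝ) ^ γ := by
    have h1 := (isLittleO_log_rpow_atTop hγ).comp_tendsto
      (tendsto_natCast_atTop_atTop (R := ℝ))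
    have h2 := h1.bound (show (0 : ℝ) < δ / (2 * (C₁ + 1)) by positivity)
    filter_upwards [h2, eventually_ge_atTop 1] with n h3 hn
    have hn1 : (1 : ℝ) ≤ n := by exact_mod_cast hn
    simp only [Function.comp] at h3
    rw [Real.norm_of_nonneg (Real.log_nonneg hn1), Real.norm_of_nonneg (by positivity)] at h3
    have h4 : (0 : ℝ) ≤ (n : ℝ) ^ γ := by positivity
    calc C₁ * Real.log n ≤ C₁ * (δ / (2 * (C₁ + 1)) * (n : ℝ) ^ γ) :=
          mul_le_mul_of_nonneg_left h3 hC₁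
      _ ≤ (C₁ + 1) * (δ / (2 * (C₁ + 1)) * (n : ℝ) ^ γ) := by
          refine mul_le_mul_of_nonneg_right (by linarith) (by positivity)
      _ = δ / 2 * (n : ℝ) ^ γ := by
          field_simp
  filter_upwards [e1, e2, e3, eventually_ge_atTop 1] with n h1 h2 h3 hn H x E K hH hHn hx3 hE hK
  have hn1 : (1 : ℝ) ≤ n := by exact_mod_cast hn
  have hn0 : (0 : ℝ) < n := by linarith
  have hH1 : (1 : ℝ) ≤ H := by exact_mod_cast hH
  have hxx1 : (1 : ℝ) ≤ x := (Real.one_le_rpow hn1 hγ.le).trans hx3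
  have hng : (1 : ℝ) ≤ (n : ℝ) ^ g := Real.one_le_rpow hn1 hg0.le
  have hsplit : (n : ℝ) ^ g * (n : ℝ) ^ (1 - g) = n := by
    rw [← Real.rpow_add hn0]
    norm_num
  have hHδ : (H : ℝ) ≤ δ * n := by
    have h4 : B ≤ δ * (n : ℝ) ^ (1 - g) := by
      have h5 : B / δ ≤ (n : ℝ) ^ (1 - g) := by linarith
      rw [div_le_iff₀ hδ] at h5
      linarith
    calc (H : ℝ) ≤ B * (n : ℝ) ^ g := hHn
      _ ≤ (δ * (n : ℝ) ^ (1 - g)) * (n : ℝ) ^ g := by gcongr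
      _ = δ * ((n : ℝ) ^ g * (n : ℝ) ^ (1 - g)) := by ring
      _ = δ * n := by rw [hsplit]
  refine ⟨?_, hHδ⟩
  have hP : (n : ℝ) ^ x₁ ≤ (n : ℝ) ^ (1 / 2 + x₁) := Real.rpow_le_rpow_of_exponent_le hn1 (by linarith)
  have hP' : (n : ℝ) ^ g ≤ (n : ℝ) ^ (1 / 2 + x₁) :=
    Real.rpow_le_rpow_of_exponent_le hn1 (by linarith)
  have hsq : Real.sqrt ((n + 1) * K) ≤ Real.sqrt (2 * C) * (n : ℝ) ^ (1 / 2 + x₁) := by
    refine Real.sqrt_le_iff.2 ⟨by positivity, ?_⟩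
    rw [mul_pow, Real.sq_sqrt (by positivity), ← Real.rpow_natCast, ← Real.rpow_mul hn0.le]
    have h4 : (n : ℝ) ^ ((1 / 2 + x₁) * ((2 : ℕ) : ℝ)) = n * (n : ℝ) ^ (2 * x₁) := by
      rw [show (1 / 2 + x₁) * ((2 : ℕ) : ℝ) = 1 + 2 * x₁ by push_cast; ring, Real.rpow_add hn0,
        Real.rpow_one]
    rw [h4]
    calc (n + 1) * K ≤ (n + 1) * (C * (n : ℝ) ^ (2 * x₁)) :=
          mul_le_mul_of_nonneg_left hK (by positivity)
      _ ≤ (2 * n) * (C * (n : ℝ) ^ (2 * x₁)) :=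
          mul_le_mul_of_nonneg_right (by linarith) (by positivity)
      _ = 2 * C * (n * (n : ℝ) ^ (2 * x₁)) := by ring
  have hin : E + Cu * (H + 1) + Cu * Real.sqrt ((n + 1) * K) ≤ M * (n : ℝ) ^ (1 / 2 + x₁) := by
    have h4 : E ≤ C * (n : ℝ) ^ (1 / 2 + x₁) := hE.trans (mul_le_mul_of_nonneg_left hP hC)
    have h5 : Cu * (H + 1) ≤ 2 * Cu * B * (n : ℝ) ^ (1 / 2 + x₁) := by
      have h6 : (H : ℝ) + 1 ≤ 2 * (B * (n : ℝ) ^ (1 / 2 + x₁)) := by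
        have h7 : B * (n : ℝ) ^ g ≤ B * (n : ℝ) ^ (1 / 2 + x₁) :=
          mul_le_mul_of_nonneg_left hP' (by linarith)
        linarith
      calc Cu * (H + 1) ≤ Cu * (2 * (B * (n : ℝ) ^ (1 / 2 + x₁))) :=
            mul_le_mul_of_nonneg_left h6 hCu
        _ = 2 * Cu * B * (n : ℝ) ^ (1 / 2 + x₁) := by ring
    have h6 : Cu * Real.sqrt ((n + 1) * K) ≤ Cu * (Real.sqrt (2 * C) * (n : ℝ) ^ (1 / 2 + x₁)) :=
      mul_le_mul_of_nonneg_left hsq hCu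
    rw [hM]
    linarith
  have hmid : (H : ℝ) * (E + Cu * (H + 1) + Cu * Real.sqrt ((n + 1) * K)) ≤ δ / 2 * n := by
    have h4 : (n : ℝ) ^ g * (n : ℝ) ^ (1 / 2 + x₁) * (n : ℝ) ^ (3 * g) = n := by
      rw [← Real.rpow_add hn0, ← Real.rpow_add hn0]
      have : g + (1 / 2 + x₁) + 3 * g = 1 := by rw [hg]; ring
      rw [this, Real.rpow_one]
    have h5 : B * M ≤ δ / 2 * (n : ℝ) ^ (3 * g) := by
      rw [div_le_iff₀ hδ] at h1
      linarith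
    calc (H : ℝ) * (E + Cu * (H + 1) + Cu * Real.sqrt ((n + 1) * K))
        ≤ H * (M * (n : ℝ) ^ (1 / 2 + x₁)) := mul_le_mul_of_nonneg_left hin (by linarith)
      _ ≤ (B * (n : ℝ) ^ g) * (M * (n : ℝ) ^ (1 / 2 + x₁)) :=
          mul_le_mul_of_nonneg_right hHn (by positivity)
      _ = (B * M) * ((n : ℝ) ^ g * (n : ℝ) ^ (1 / 2 + x₁)) := by ring
      _ ≤ (δ / 2 * (n : ℝ) ^ (3 * g)) * ((n : ℝ) ^ g * (n : ℝ) ^ (1 / 2 + x₁)) :=
          mul_le_mul_of_nonneg_right h5 (by positivity)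
      _ = δ / 2 * ((n : ℝ) ^ g * (n : ℝ) ^ (1 / 2 + x₁) * (n : ℝ) ^ (3 * g)) := by ring
      _ = δ / 2 * n := by rw [h4]
  have hlog : C₁ * n * Real.log (2 * H + 1) ≤ δ / 2 * (x * n) := by
    have h4 : (2 * H + 1 : ℝ) ≤ n := by
      calc (2 * H + 1 : ℝ) ≤ 3 * H := by linarith
        _ ≤ 3 * (B * (n : ℝ) ^ g) := by linarith
        _ = 3 * B * (n : ℝ) ^ g := by ring
        _ ≤ (n : ℝ) ^ (1 - g) * (n : ℝ) ^ g := by
            refine mul_le_mul_of_nonneg_right ?_ (by positivity)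
            have : 0 ≤ B / δ := by positivity
            linarith
        _ = n := by rw [mul_comm, hsplit]
    have h5 : Real.log (2 * H + 1) ≤ Real.log n := Real.log_le_log (by positivity) h4
    have h6 : C₁ * Real.log (2 * H + 1) ≤ δ / 2 * x := by
      calc C₁ * Real.log (2 * H + 1) ≤ C₁ * Real.log n := mul_le_mul_of_nonneg_left h5 hC₁
        _ ≤ δ / 2 * (n : ℝ) ^ γ := h3
        _ ≤ δ / 2 * x := mul_le_mul_of_nonneg_left hx3 (by positivity)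
    calc C₁ * n * Real.log (2 * H + 1) = C₁ * Real.log (2 * H + 1) * n := by ring
      _ ≤ δ / 2 * x * n := mul_le_mul_of_nonneg_right h6 hn0.le
      _ = δ / 2 * (x * n) := by ring
  have hxn : δ / 2 * (n : ℝ) ≤ δ / 2 * (x * n) := by
    refine mul_le_mul_of_nonneg_left ?_ (by positivity)
    nlinarith
  linarith

/-- The first level. -/
lemma lowL28 {f : ℕ → ℝ} {y g₀ : ℝ} (hy : 0 < y) (hg : 0 < g₀)
    (hlow : ∀ᶠ k : ℕ in atTop, ∃ j : ℕ, j ≤ k ∧ (k : ℝ) ^ y ≤ f j) :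
    ∀ᶠ n : ℕ in atTop, ∃ l₀ j : ℕ, (2 : ℝ) ^ l₀ ≤ f j ∧ (j : ℝ) ≤ (n : ℝ) ^ g₀ ∧
      (n : ℝ) ^ (g₀ * y / 2) ≤ 2 ^ l₀ := by
  have hT : Tendsto (fun n : ℕ => ⌊(n : ℝ) ^ g₀⌋₊) atTop atTop :=
    tendsto_nat_floor_atTop.comp ((tendsto_rpow_atTop hg).comp tendsto_natCast_atTop_atTop)
  have e1 : ∀ᶠ n : ℕ in atTop, (2 : ℝ) ^ y * 2 ≤ (n : ℝ) ^ (g₀ * y / 2) :=
    ((tendsto_rpow_atTop (by positivity)).comp tendsto_natCast_atTop_atTop).eventually_ge_atTop _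
  have e2 : ∀ᶠ n : ℕ in atTop, (2 : ℝ) ≤ (n : ℝ) ^ g₀ :=
    ((tendsto_rpow_atTop hg).comp tendsto_natCast_atTop_atTop).eventually_ge_atTop _
  filter_upwards [hT.eventually hlow, e1, e2, eventually_ge_atTop 1] with n h1 h2 h3 hn
  obtain ⟨j, hj, hjf⟩ := h1
  have hn1 : (1 : ℝ) ≤ n := by exact_mod_cast hn
  set k := ⌊(n : ℝ) ^ g₀⌋₊ with hk
  have hk1 : (n : ℝ) ^ g₀ < k + 1 := Nat.lt_floor_add_one _
  have hk2 : (k : ℝ) ≤ (n : ℝ) ^ g₀ := Nat.floor_le (by positivity)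
  have hk3 : (1 : ℝ) ≤ k := by
    have : (1 : ℝ) < k + 1 := by linarith
    have h4 : 0 < k := by
      by_contra h5
      have h6 : k = 0 := by omega
      rw [h6] at this
      simp at this
    exact_mod_cast h4
  have hk4 : (n : ℝ) ^ g₀ / 2 ≤ k := by linarith
  obtain ⟨l, hl1, hl2⟩ := exists_nat_pow_near (Real.one_le_rpow hk3 hy.le)
    (by norm_num : (1 : ℝ) < 2)
  refine ⟨l, j, hl1.trans hjf, ?_, ?_⟩
  · have : (j : ℝ) ≤ k := by exact_mod_cast hj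
    linarith
  · have h4 : ((n : ℝ) ^ g₀ / 2) ^ y ≤ (k : ℝ) ^ y := Real.rpow_le_rpow (by positivity) hk4 hy.le
    rw [Real.div_rpow (by positivity) (by norm_num), ← Real.rpow_mul (by positivity),
      div_le_iff₀ (by positivity)] at h4
    have h5 : (n : ℝ) ^ (g₀ * y) = (n : ℝ) ^ (g₀ * y / 2) * (n : ℝ) ^ (g₀ * y / 2) := by
      rw [← Real.rpow_add (by linarith)]
      congr 1
      ring
    have h6 : (0 : ℝ) < (n : ℝ) ^ (g₀ * y / 2) := by positivity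
    have h7 : (0 : ℝ) < (2 : ℝ) ^ y := by positivity
    rw [pow_succ] at hl2
    by_contra h8
    push Not at h8
    have h9 : (k : ℝ) ^ y < 2 * (n : ℝ) ^ (g₀ * y / 2) := by linarith
    have h10 : (k : ℝ) ^ y * 2 ^ y < (n : ℝ) ^ (g₀ * y) := by
      calc (k : ℝ) ^ y * 2 ^ y < 2 * (n : ℝ) ^ (g₀ * y / 2) * 2 ^ y :=
            mul_lt_mul_of_pos_right h9 h7
        _ = ((2 : ℝ) ^ y * 2) * (n : ℝ) ^ (g₀ * y / 2) := by ring
        _ ≤ (n : ℝ) ^ (g₀ * y / 2) * (n : ℝ) ^ (g₀ * y / 2) := by gcongr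
        _ = (n : ℝ) ^ (g₀ * y) := h5.symm
    linarith

/-- The times of the levels are at most exponential. -/
lemma upL28 {f : ℕ → ℝ} {y : ℝ} (hy : 0 < y)
    (hlow : ∀ᶠ k : ℕ in atTop, ∃ j : ℕ, j ≤ k ∧ (k : ℝ) ^ y ≤ f j) {m : ℕ → ℕ}
    (hm1 : ∀ l, 1 ≤ m l) (hm : ∀ l k : ℕ, 2 ^ l ≤ f k → m l ≤ k) (C : ℝ) (hC : 0 ≤ C) :
    ∃ L : ℕ, ∀ l : ℕ, L ≤ l → C * (1 + Real.log (m (l + 1))) ≤ 2 ^ l := by
  obtain ⟨k₀, hk₀⟩ := eventually_atTop.1 hlow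
  have h1 : ∀ l : ℕ, Real.log (m l) ≤ Real.log (k₀ + 2) + l * (Real.log 2 / y) := by
    intro l
    set T : ℝ := (2 : ℝ) ^ ((l : ℝ) / y) with hT
    have hT1 : 1 ≤ T := Real.one_le_rpow (by norm_num) (by positivity)
    obtain ⟨j, hj, hjf⟩ := hk₀ (max k₀ ⌈T⌉₊) (le_max_left _ _)
    have h2 : (2 : ℝ) ^ l ≤ f j := by
      refine le_trans ?_ hjf
      have h3 : T ≤ ((max k₀ ⌈T⌉₊ : ℕ) : ℝ) :=
        (Nat.le_ceil T).trans (by exact_mod_cast le_max_right _ _)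
      calc (2 : ℝ) ^ l = T ^ y := by
            rw [hT, ← Real.rpow_mul (by norm_num), div_mul_cancel₀ _ hy.ne', Real.rpow_natCast]
        _ ≤ _ := Real.rpow_le_rpow (by positivity) h3 hy.le
    have h3 : m l ≤ max k₀ ⌈T⌉₊ := (hm l j h2).trans hj
    have h4 : (m l : ℝ) ≤ (k₀ + 2) * T := by
      have h5 : (m l : ℝ) ≤ ((max k₀ ⌈T⌉₊ : ℕ) : ℝ) := by exact_mod_cast h3
      refine h5.trans ?_
      rw [Nat.cast_max]
      refine max_le ?_ ?_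
      · have : (0 : ℝ) ≤ k₀ := Nat.cast_nonneg _
        nlinarith
      · have h6 : (⌈T⌉₊ : ℝ) < T + 1 := Nat.ceil_lt_add_one (by linarith)
        have : (0 : ℝ) ≤ k₀ := Nat.cast_nonneg _
        nlinarith
    have h5 : (0 : ℝ) < m l := by exact_mod_cast hm1 l
    calc Real.log (m l) ≤ Real.log ((k₀ + 2) * T) := Real.log_le_log h5 h4
      _ = Real.log (k₀ + 2) + Real.log T := Real.log_mul (by positivity) (by positivity)
      _ = Real.log (k₀ + 2) + l * (Real.log 2 / y) := by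
          rw [hT, Real.log_rpow (by norm_num)]
          ring
  set α : ℝ := C * (1 + Real.log (k₀ + 2) + Real.log 2 / y) with hα
  set γ : ℝ := C * (Real.log 2 / y) with hγ
  have h2 : Tendsto (fun l : ℕ => (α + γ * l) / (2 : ℝ) ^ l) atTop (𝓝 0) := by
    have e1 : Tendsto (fun l : ℕ => α / (2 : ℝ) ^ l) atTop (𝓝 0) :=
      tendsto_const_nhds.div_atTop (tendsto_pow_atTop_atTop_of_one_lt (by norm_num))
    have e2 : Tendsto (fun l : ℕ => γ * ((l : ℝ) ^ 1 / (2 : ℝ) ^ l)) atTop (𝓝 (γ * 0)) :=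
      (tendsto_pow_const_div_const_pow_of_one_lt 1 (by norm_num)).const_mul γ
    have e3 := e1.add e2
    simp only [mul_zero, add_zero, pow_one] at e3
    refine e3.congr fun l => ?_
    ring
  obtain ⟨L, hL⟩ := eventually_atTop.1 (h2.eventually (gt_mem_nhds (show (0 : ℝ) < 1 by norm_num)))
  refine ⟨L, fun l hl => ?_⟩
  have h3 := hL l hl
  rw [div_lt_one (by positivity)] at h3
  have h4 := h1 (l + 1)
  have h5 : C * (1 + Real.log (m (l + 1))) ≤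
      C * (1 + (Real.log (k₀ + 2) + ((l + 1 : ℕ) : ℝ) * (Real.log 2 / y))) :=
    mul_le_mul_of_nonneg_left (by linarith) hC
  refine h5.trans (le_trans (le_of_eq ?_) h3.le)
  rw [hα, hγ]
  push_cast
  ring

/-- The last level. -/
lemma topL28 {x₁ C g : ℝ} (hx : 0 < x₁) (hC : 0 < C) {m : ℕ → ℕ} (hm1 : ∀ l, 1 ≤ m l)
    (hm : ∀ l : ℕ, (2 : ℝ) ^ l ≤ C * (m l : ℝ) ^ x₁) (W : ℝ) :
    ∃ l₁ : ℕ, g * W ≤ Real.log (m l₁) ∧ ∀ l : ℕ, l < l₁ → Real.log (m l) < g * W := by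
  classical
  have hex : ∃ l : ℕ, g * W ≤ Real.log (m l) := by
    obtain ⟨l, hl⟩ := pow_unbounded_of_one_lt (C * Real.exp (g * W * x₁))
      (by norm_num : (1 : ℝ) < 2)
    refine ⟨l, ?_⟩
    by_contra h1
    push Not at h1
    have h2 : (0 : ℝ) < m l := by exact_mod_cast hm1 l
    have h3 : (m l : ℝ) ^ x₁ ≤ Real.exp (g * W * x₁) := by
      rw [Real.rpow_def_of_pos h2]
      exact Real.exp_le_exp.2 (mul_le_mul_of_nonneg_right h1.le hx.le)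
    have h4 := hm l
    have h5 := mul_le_mul_of_nonneg_left h3 hC.le
    linarith
  exact ⟨Nat.find hex, Nat.find_spec hex, fun l hl => not_le.1 (Nat.find_min hex hl)⟩

end Cn28

end Pool.Agent.W_7d29a1_SNP
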