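import Pool.Agent.W_7d29a1_SNP.CorV28
import Pool.Agent.W_7d29a1_SNP.CorW28

/-!
CORN: the core, if the fluctuations are powers of exponent less than one half (helper28).
-/

namespace Pool.Agent.W_7d29a1_SNP

open MeasureTheory ProbabilityTheory Filter Topology Pool.Agent.W_MP_7d29a1_pr
  Pool.Agent.W_7d29a1_h46 Pool.Agent.W_7d29a1_h46u Pool.Agent.W_7d29a1_D2.B35
  Pool.Agent.W_7d29a1_Q29 Pool.Agent.W_7d29a1_R34 Pool.Agent.W_7d29a1_SP
  Pool.Agent.W_7d29a1_NV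
  Pool.Agent.W_7d29a1_PL Pool.Agent.W_7d29a1_SD Pool.Agent.W_7d29a1_KZ

namespace Cn28

variable {d : ℕ} {ρ : Measure ℝ} {β : ℝ} {h : Vec d}

lemma big28 {m : ℕ → ℕ} (hm1 : ∀ l, 1 ≤ m l) (hhi : ∀ l : ℕ, 2 ^ l ≤ fM ρ β h (m l))
    (hf0 : 0 ≤ fM ρ β h 1) {a p : ℕ} (hp : 2 ^ a * (fM ρ β h 1 + 1) < 2 ^ p) :
    a ≤ p ∧ 2 ≤ m (p - a) := by
  have hap : a < p := by
    have h1 : (2 : ℝ) ^ a < 2 ^ p := by
      refine lt_of_le_of_lt ?_ hp
      have : (0 : ℝ) < 2 ^ a := by positivity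
      nlinarith
    exact (pow_lt_pow_iff_right₀ (by norm_num : (1 : ℝ) < 2)).1 h1
  refine ⟨hap.le, ?_⟩
  by_contra h1
  have h2 := hm1 (p - a)
  have h3 : m (p - a) = 1 := by omega
  have h4 := hhi (p - a)
  rw [h3] at h4
  have h5 : (2 : ℝ) ^ p = 2 ^ (p - a) * 2 ^ a := by
    rw [← pow_add]
    congr 1
    omega
  have h7 : (0 : ℝ) < 2 ^ a := by positivity
  nlinarith

/-- The usage of a luck from the errors. -/
lemma useN28 {n H : ℕ} {x U R δ : ℝ} (hn : 1 ≤ n) (hx : 0 < x) (hδ : δ ≤ 1 / 16)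
    (hR : R ≤ δ * (x * n)) (hH : (H : ℝ) ≤ δ * n)
    (h1 : (1 - 1 / 20) * x * (n - H) ≤ 2 * x * U + R) : 2 / 5 ≤ U / n := by
  have hn0 : (0 : ℝ) < n := by exact_mod_cast hn
  rw [le_div_iff₀ hn0]
  have h2 : (1 - 1 / 20) * x * (n - δ * n) ≤ (1 - 1 / 20) * x * (n - H) := by
    refine mul_le_mul_of_nonneg_left (by linarith) (by positivity)
  have h3 : x * n * δ ≤ x * n * (1 / 16) := mul_le_mul_of_nonneg_left hδ (by positivity)
  have h4 : x * (2 / 5 * n) ≤ x * U := by nlinarith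
  exact le_of_mul_le_mul_left h4 hx

/-- The usage of the cut deviation from the errors. -/
lemma useT28 {n H : ℕ} {x U R δ e₁ En S K T : ℝ} (hn : 1 ≤ n) (hx : 0 < x) (he : 0 < e₁)
    (he1 : e₁ ≤ 1) (hδ : δ = e₁ / 16) (hE : e₁ * x ≤ En)
    (hR : R ≤ δ * (x * n)) (hH : (H : ℝ) ≤ δ * n) (hT : T ≤ x * K) (hU : 0 ≤ U)
    (h1 : En * (n - H) ≤ S + T * U + R) : 7 / 8 * e₁ ≤ (S / x + K * U) / n := by
  have hn0 : (0 : ℝ) < n := by exact_mod_cast hn
  rw [le_div_iff₀ hn0]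
  have hδ1 : δ ≤ 1 / 16 := by rw [hδ]; linarith
  have hHn : (H : ℝ) ≤ n := by nlinarith
  have h2 : e₁ * x * (n - δ * n) ≤ En * (n - H) := by
    calc e₁ * x * (n - δ * n) ≤ e₁ * x * (n - H) :=
          mul_le_mul_of_nonneg_left (by linarith) (by positivity)
      _ ≤ En * (n - H) := mul_le_mul_of_nonneg_right hE (by linarith)
  have h3 : T * U ≤ x * K * U := mul_le_mul_of_nonneg_right hT hU
  have h4 : e₁ * x * (n - δ * n) ≤ S + x * K * U + δ * (x * n) := by linarith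
  have h5 : 7 / 8 * e₁ * n * x ≤ (S / x + K * U) * x := by
    have h6 : (S / x + K * U) * x = S + x * K * U := by
      field_simp
    rw [h6]
    have h7 : e₁ * (e₁ / 16) * (x * n) ≤ e₁ / 16 * (x * n) := by
      refine mul_le_mul_of_nonneg_right ?_ (by positivity)
      nlinarith
    rw [hδ] at h4
    nlinarith
  exact le_of_mul_le_mul_right h5 hx

end Cn28

open Cn28 in
/-- CORN from its leaves. -/
theorem corN28 {d : ℕ} {ρ : Measure ℝ} [IsProbabilityMeasure ρ] {β : ℝ} (hd : 0 < d) (hρ : EM ρ)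
    (hU : UseP d ρ β) (hUst : UstP d ρ β) (hSel : SelN) (hVar : VarN d ρ β) (hExc : ExcN d ρ β)
    (hFs : FsN d ρ β) (hAdt : AdtN d ρ β) (hExm : ExmN d ρ β) (hAdd : AddN d ρ β) :
    CorN d ρ β := by
  classical
  intro c₀ x₁ hc₀ hx hx'
  have hlog2 : (0 : ℝ) < Real.log 2 := Real.log_pos (by norm_num)
  have hdiv : 2 * Real.log 2 < Real.log 2 / x₁ := by
    rw [lt_div_iff₀ hx]
    nlinarith
  set lΛ : ℝ := (2 * Real.log 2 + Real.log 2 / x₁) / 2 with hlΛ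
  set Λ : ℝ := Real.exp lΛ with hΛ
  have hΛ4 : 4 < Λ := by
    have h1 : Real.exp (2 * Real.log 2) = 4 := by
      rw [show 2 * Real.log 2 = Real.log 2 + Real.log 2 by ring, Real.exp_add,
        Real.exp_log (by norm_num)]
      norm_num
    rw [← h1]
    exact Real.exp_lt_exp.2 (by rw [hlΛ]; linarith)
  have hΛ1 : 1 < Λ := by linarith
  have hΛx : x₁ * Real.log Λ < Real.log 2 := by
    rw [hΛ, Real.log_exp, hlΛ]
    have h1 : x₁ * (Real.log 2 / x₁) = Real.log 2 := by field_simp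
    nlinarith
  obtain ⟨cs, g₀, hcs, hg₀, hSel⟩ := hSel Λ x₁ ((1 / 2 - x₁) / 4) hΛ1 hx hΛx (by linarith)
  obtain ⟨B, e₁, CE, hB1, he₁, he₁1, hCE, hExc⟩ := hExc c₀ Λ hc₀ hΛ4
  obtain ⟨CV, hCV, hVar⟩ := hVar c₀ Λ B hc₀ hΛ4
  obtain ⟨b, hb, hExm⟩ := hExm c₀ Λ e₁ (e₁ / 16) B hc₀ hΛ4 he₁ (by positivity)
  obtain ⟨Θ₀, hΘ₀, hAdt⟩ := hAdt c₀ Λ (e₁ / 128) B hc₀ hΛ4 (by positivity)
  set Θ : ℝ := max Θ₀ (b + CV) with hΘ
  have hΘ1 : 1 ≤ Θ := hΘ₀.trans (le_max_left _ _)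
  obtain ⟨bA, hbA, hAdt⟩ := hAdt Θ (le_max_left _ _)
  set KΘ : ℝ := 2 * (Θ + b + CV) with hKΘ
  have hKΘ0 : 0 < KΘ := by positivity
  obtain ⟨s₁, hs₁, hExm⟩ := hExm Θ (by positivity)
  set s : ℝ := min (s₁ / 2) (1 / (4 * KΘ)) with hs
  have hs0 : 0 < s := by positivity
  have hss₁ : 2 * s ≤ s₁ := by
    have : s ≤ s₁ / 2 := min_le_left _ _
    linarith
  have hsK : 4 * s * KΘ ≤ 1 := by
    have h1 : s ≤ 1 / (4 * KΘ) := min_le_right _ _
    rw [le_div_iff₀ (by positivity)] at h1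
    linarith
  obtain ⟨b₂, C₂, hb₂, hC₂, hExm⟩ := hExm (2 * s) (by positivity) hss₁
  obtain ⟨a, BA, εA, cA, CA, ha, hεA, hcA, hCA, hAdd⟩ := hAdd c₀ (1 / 20) Λ hc₀ (by norm_num)
    (by norm_num) hΛ4
  obtain ⟨D₁, CF, hCF, hFs⟩ := hFs c₀ Λ εA BA hc₀ hΛ4 hεA
  set D₀ : ℝ := max (max D₁ 1) (10 * (CA + 1) / cA) with hD₀
  have hD₀1 : 1 ≤ D₀ := (le_max_right _ _).trans (le_max_left _ _)
  have hD₀D₁ : D₁ ≤ D₀ := (le_max_left _ _).trans (le_max_left _ _)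
  have hD₀C : 10 * (CA + 1) ≤ cA * D₀ := by
    have h1 : 10 * (CA + 1) / cA ≤ D₀ := le_max_right _ _
    rw [div_le_iff₀ hcA] at h1
    linarith
  obtain ⟨C₁u, hC₁u, hU⟩ := hU
  obtain ⟨C₁s, hC₁s, hUst⟩ := hUst
  set bb : ℕ := max bA b₂ with hbb
  have hbb1 : 1 ≤ bb := hbA.trans (le_max_left _ _)
  set κ : ℝ := min (1 / 10) (e₁ / (8 * (Θ + b + CV + KΘ))) with hκ
  have hκ0 : 0 < κ := by positivity
  have hκ1 : κ ≤ 1 / 10 := min_le_left _ _
  have hκ2 : κ * (Θ + b + CV + KΘ) ≤ e₁ / 8 := by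
    have h1 : κ ≤ e₁ / (8 * (Θ + b + CV + KΘ)) := min_le_right _ _
    rw [le_div_iff₀ (by positivity)] at h1
    linarith
  have ha0 : (0 : ℝ) < a := by exact_mod_cast ha
  have hbb0 : (0 : ℝ) < bb := by exact_mod_cast hbb1
  have hD₀0 : 0 < D₀ := by linarith
  refine ⟨min (cA / 10 * (cs / 2 / (3 * a))) (s * e₁ / 2 * (cs / (2 * D₀) / bb)), κ,
    by positivity, hκ0, ?_⟩
  intro h C' y hL hy hfC hlow
  obtain ⟨Cu, hCu, hU⟩ := hU h
  obtain ⟨Cs, hCs, hUst⟩ := hUst h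
  have hF0 : Fn ρ β h 0 = 0 := Fn_zero15 β h
  have hE0 : En ρ β h 0 = 0 := En_zero15 β h
  have hEn0 : ∀ k, 0 ≤ En ρ β h k := fun k => En_nonneg15 hd hρ β h k
  have hfM1 : 0 ≤ fM ρ β h 1 := (hEn0 1).trans (le_max_left _ _)
  have hfM0 : fM ρ β h 0 = 0 := by
    unfold fM
    rw [hE0, hF0]
    simp
  set C : ℝ := max C' 1 with hC
  have hC1 : 1 ≤ C := le_max_right _ _
  have hf : ∀ k : ℕ, fM ρ β h k ≤ C * (k : ℝ) ^ x₁ ∧ Va ρ β h k ≤ C * (k : ℝ) ^ (2 * x₁) := by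
    intro k
    obtain ⟨h1, h2⟩ := hfC k
    exact ⟨h1.trans (mul_le_mul_of_nonneg_right (le_max_left _ _) (by positivity)),
      h2.trans (mul_le_mul_of_nonneg_right (le_max_left _ _) (by positivity))⟩
  have hfM : ∀ l : ℕ, ∃ k : ℕ, (2 : ℝ) ^ l ≤ fM ρ β h k := by
    intro l
    have h1 : ∀ᶠ k : ℕ in atTop, (2 : ℝ) ^ l ≤ (k : ℝ) ^ y :=
      ((tendsto_rpow_atTop hy).comp tendsto_natCast_atTop_atTop).eventually_ge_atTop _
    obtain ⟨k, hk1, j, _, hj⟩ := (h1.and hlow).exists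
    exact ⟨j, hk1.trans hj⟩
  obtain ⟨m, hmono, hlo, hhi, hmin⟩ := Co28.lev28 (fM ρ β h) hfM
  have hLv : Lv ρ β h m := ⟨hlo, hhi⟩
  have hm1 : ∀ l, 1 ≤ m l := by
    intro l
    by_contra h1
    have h2 : m l = 0 := by omega
    have h3 := hhi l
    rw [h2, hfM0] at h3
    have : (0 : ℝ) < 2 ^ l := by positivity
    linarith
  have hmC : ∀ l : ℕ, (2 : ℝ) ^ l ≤ C * (m l : ℝ) ^ x₁ := fun l => (hhi l).trans (hf (m l)).1
  obtain ⟨W₀, hSel⟩ := hSel C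
  set Ca : ℝ := CE + C₂ + CA + CV + CF with hCa
  obtain ⟨L, hLog⟩ := upL28 hy hlow hm1 hmin Ca (by positivity)
  have hlog0 : ∀ l, 0 ≤ Real.log (m l) := fun l => Real.log_nonneg (by exact_mod_cast hm1 l)
  have hLogp : ∀ c : ℝ, 0 ≤ c → c ≤ Ca → ∀ p : ℕ, L ≤ p →
      c * (1 + Real.log (m p)) ≤ 2 ^ p := by
    intro c hc hcC p hp
    have h1 : Real.log (m p) ≤ Real.log (m (p + 1)) :=
      Real.log_le_log (by exact_mod_cast hm1 p) (by exact_mod_cast hmono (Nat.le_succ p))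
    calc c * (1 + Real.log (m p)) ≤ Ca * (1 + Real.log (m (p + 1))) := by
          refine mul_le_mul hcC (by linarith) (by have := hlog0 p; linarith) (by linarith)
      _ ≤ 2 ^ p := hLog p hp
  have hLogi : ∀ p : ℕ, L ≤ p → ∀ i : ℕ,
      CA * (1 + Real.log (m (p + i + 1))) ≤ 2 ^ i * 2 ^ p := by
    intro p hp i
    have h1 := hlog0 (p + i + 1)
    calc CA * (1 + Real.log (m (p + i + 1))) ≤ Ca * (1 + Real.log (m (p + i + 1))) := by
          refine mul_le_mul_of_nonneg_right ?_ (by linarith)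
          rw [hCa]
          linarith
      _ ≤ 2 ^ (p + i) := hLog (p + i) (by omega)
      _ = 2 ^ i * 2 ^ p := by rw [pow_add, mul_comm]
  have hγ0 : 0 < g₀ * y / 2 := by positivity
  have hrT : Tendsto (fun n : ℕ => (n : ℝ) ^ (g₀ * y / 2)) atTop atTop :=
    (tendsto_rpow_atTop hγ0).comp tendsto_natCast_atTop_atTop
  have hlogT : Tendsto (fun n : ℕ => Real.log (n : ℝ)) atTop atTop :=
    Real.tendsto_log_atTop.comp tendsto_natCast_atTop_atTop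
  filter_upwards [lowL28 hy hg₀ hlow,
    numE28 x₁ (e₁ / 16) (g₀ * y / 2) C₁u Cu C 1 hx hx' (by positivity) hγ0 hC₁u hCu (by linarith)
      le_rfl,
    numE28 x₁ (e₁ / 16) (g₀ * y / 2) C₁s Cs (C * (b + 1)) B hx hx' (by positivity) hγ0 hC₁s hCs
      (by positivity) (by exact_mod_cast hB1),
    hlogT.eventually_ge_atTop W₀, hrT.eventually_ge_atTop (2 ^ L),
    hrT.eventually_gt_atTop (2 ^ a * (fM ρ β h 1 + 1)),
    hrT.eventually_gt_atTop (2 ^ bA * (fM ρ β h 1 + 1)), eventually_ge_atTop 1]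
    with n hl₀n hNu hNs hW hnL hna hnb hn V hBd
  obtain ⟨l₀, j, hl₀j, hjn, hl₀γ⟩ := hl₀n
  have hn1 : (1 : ℝ) ≤ n := by exact_mod_cast hn
  have hn0 : (0 : ℝ) < n := by linarith
  set W : ℝ := Real.log n with hWdef
  have hW0 : 0 ≤ W := Real.log_nonneg hn1
  obtain ⟨l₁, hl₁, hl₁lt⟩ := topL28 (g := (1 / 2 - x₁) / 4) hx (by linarith : 0 < C) hm1 hmC W
  have hml₀ : Real.log (m l₀) ≤ g₀ * W := by
    have h1 : (m l₀ : ℝ) ≤ (n : ℝ) ^ g₀ := by
      have : (m l₀ : ℝ) ≤ j := by exact_mod_cast hmin l₀ j hl₀j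
      linarith
    have h2 := Real.log_le_log (by exact_mod_cast hm1 l₀) h1
    rwa [Real.log_rpow hn0] at h2
  obtain ⟨I, hI, hIsum⟩ := hSel m W l₀ l₁ hW hmono (hm1 _) hmC hml₀ hl₁ hl₁lt
  -- the levels of `I`
  have hpow : ∀ p ∈ I, (n : ℝ) ^ (g₀ * y / 2) ≤ 2 ^ p := fun p hp =>
    hl₀γ.trans (pow_le_pow_right₀ (by norm_num) (hI p hp).2.1)
  have hpL : ∀ p ∈ I, L ≤ p := fun p hp =>
    (pow_le_pow_iff_right₀ (by norm_num : (1 : ℝ) < 2)).1 (hnL.trans (hpow p hp))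
  have hmg : ∀ p ∈ I, (m p : ℝ) ≤ (n : ℝ) ^ ((1 / 2 - x₁) / 4) := by
    intro p hp
    have h1 := hl₁lt p (hI p hp).2.2
    have h2 : (0 : ℝ) < m p := by exact_mod_cast hm1 p
    rw [← Real.exp_log h2, Real.rpow_def_of_pos hn0]
    exact Real.exp_le_exp.2 (by rw [mul_comm]; exact h1.le)
  have hmn : ∀ p ∈ I, (m p : ℝ) ≤ n := by
    intro p hp
    refine (hmg p hp).trans ?_
    calc (n : ℝ) ^ ((1 / 2 - x₁) / 4) ≤ (n : ℝ) ^ (1 : ℝ) :=
          Real.rpow_le_rpow_of_exponent_le hn1 (by linarith)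
      _ = n := Real.rpow_one _
  have hVK : ∀ k : ℕ, k ≤ n → Va ρ β h k ≤ C * (n : ℝ) ^ (2 * x₁) := by
    intro k hk
    refine (hf k).2.trans (mul_le_mul_of_nonneg_left ?_ (by linarith))
    exact Real.rpow_le_rpow (Nat.cast_nonneg _) (by exact_mod_cast hk) (by linarith)
  have hEnn : En ρ β h n ≤ C * (n : ℝ) ^ x₁ := (le_max_left _ _).trans (hf n).1
  have hCVp : ∀ p ∈ I, CV ≤ 2 ^ p := by
    intro p hp
    have h1 := hLogp CV (by linarith) (by rw [hCa]; linarith) p (hpL p hp)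
    have h2 := hlog0 p
    nlinarith
  have hCFp : ∀ p ∈ I, CF ≤ 2 ^ p := by
    intro p hp
    have h1 := hLogp CF (by linarith) (by rw [hCa]; linarith) p (hpL p hp)
    have h2 := hlog0 p
    nlinarith
  by_cases hT : cs / 2 * W ≤ ∑ p ∈ I.filter (fun p => D₀ ≤ Dq m p), Dq m p
  · -- the long levels
    obtain ⟨I', hI'S, hI'sp, hI'sum⟩ := Sel66.res66 (b := 3 * a) (by omega)
      (I.filter (fun p => D₀ ≤ Dq m p)) (Dq m)
    have hI'I : ∀ p ∈ I', p ∈ I := fun p hp => (Finset.mem_filter.1 (hI'S hp)).1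
    have hI'D : ∀ p ∈ I', D₀ ≤ Dq m p := fun p hp => (Finset.mem_filter.1 (hI'S hp)).2
    have hSc : ∀ J : Finset ℕ, J ⊆ I' → Sc ρ β h a BA Λ εA m J := fun J hJ =>
      ⟨hlo, hhi, fun p hp => big28 hm1 hhi hfM1 (hna.trans_le (hpow p (hI'I p (hJ hp)))),
        fun p hp => (hI p (hI'I p (hJ hp))).1, fun p hp q hq => hI'sp p (hJ hp) q (hJ hq),
        fun p hp => hFs h hL m p hLv (hI p (hI'I p (hJ hp))).1 (hm1 p)
          (hCFp p (hI'I p (hJ hp))) (hD₀D₁.trans (hI'D p (hJ hp)))⟩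
    have hprob : ∀ J : Finset ℕ, J ⊆ I' →
        (law d ρ).real (⋂ p ∈ J, Lk ρ β h n (m p - 2 * m (p - a)) 0 (2 ^ p) (1 / 20) 0) ≤
          Real.exp (CA * J.card - cA * ∑ p ∈ J, Dq m p) := fun J hJ =>
      hAdd h hL n m J (hSc J hJ) fun p hp => hLogi p (hpL p (hI'I p (hJ hp)))
    have hH1 : ∀ p ∈ I', 1 ≤ m p - 2 * m (p - a) := by
      intro p hp
      by_contra h0
      have h0' : m p - 2 * m (p - a) = 0 := by omega
      have h1 := hprob {p} (Finset.singleton_subset_iff.2 hp)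
      rw [Finset.set_biInter_singleton, h0', Co28.Lk_zero28 n (by positivity) (by norm_num)] at h1
      simp only [Finset.card_singleton, Nat.cast_one, mul_one, Finset.sum_singleton] at h1
      have h2 : cA * D₀ ≤ cA * Dq m p := mul_le_mul_of_nonneg_left (hI'D p hp) hcA.le
      have h3 : Real.exp (CA - cA * Dq m p) < 1 := Real.exp_lt_one_iff.2 (by linarith)
      rw [probReal_univ] at h1
      linarith
    have huse : ∀ p ∈ I', 2 / 5 ≤ (∑ t ∈ Finset.range n,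
        us ρ β h n t (Lk ρ β h n (m p - 2 * m (p - a)) 0 (2 ^ p) (1 / 20) 0)) / n := by
      intro p hp
      have hpI := hI'I p hp
      have hHm : ((m p - 2 * m (p - a) : ℕ) : ℝ) ≤ m p := by
        exact_mod_cast Nat.sub_le _ _
      obtain ⟨hN1, hN2⟩ := hNu (m p - 2 * m (p - a)) (2 ^ p) (En ρ β h n)
        (C * (n : ℝ) ^ (2 * x₁)) (hH1 p hp) (by rw [one_mul]; exact hHm.trans (hmg p hpI))
        (hpow p hpI) hEnn le_rfl
      have hHn : m p - 2 * m (p - a) ≤ n := by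
        have : ((m p - 2 * m (p - a) : ℕ) : ℝ) ≤ n := hHm.trans (hmn p hpI)
        exact_mod_cast this
      have h6 := hU n (m p - 2 * m (p - a)) (2 ^ p) (1 / 20) (C * (n : ℝ) ^ (2 * x₁)) (hH1 p hp)
        hHn (by positivity) (by norm_num) (by norm_num) hVK
      refine useN28 (δ := e₁ / 16) hn (by positivity : (0 : ℝ) < 2 ^ p) (by linarith) hN1 hN2 ?_
      rw [← add_assoc]
      exact h6
    have hfin := long28 (ρ := ρ) (β := β) (h := h) hd (D₀ := D₀) (κ := κ) hcA hCA I'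
      (fun p => Lk ρ β h n (m p - 2 * m (p - a)) 0 (2 ^ p) (1 / 20) 0) (Dq m)
      (fun p _ => Co28.Lk_meas28 _ _ _ _ _ _) (fun p _ => Co28.Lk_dep28 _ _ _ _ _ _) hprob
      hD₀0.le hI'D hD₀C huse hBd hκ1
    refine le_trans ?_ hfin
    have h1 : cs / 2 / (3 * a) * W ≤ ∑ p ∈ I', Dq m p := by
      have h2 : cs / 2 * W ≤ ((3 * a : ℕ) : ℝ) * ∑ p ∈ I', Dq m p := hT.trans hI'sum
      rw [div_mul_eq_mul_div, div_le_iff₀ (by positivity)]
      push_cast at h2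
      linarith
    calc min (cA / 10 * (cs / 2 / (3 * a))) (s * e₁ / 2 * (cs / (2 * D₀) / bb)) * W
        ≤ cA / 10 * (cs / 2 / (3 * a)) * W := mul_le_mul_of_nonneg_right (min_le_left _ _) hW0
      _ = cA / 10 * (cs / 2 / (3 * a) * W) := by ring
      _ ≤ cA / 10 * ∑ p ∈ I', Dq m p := mul_le_mul_of_nonneg_left h1 (by positivity)
  · -- many levels
    push Not at hT
    have hcardI : cs / (2 * D₀) * W ≤ I.card := by
      have h1 : ∑ p ∈ I.filter (fun p => ¬ D₀ ≤ Dq m p), Dq m p ≤ D₀ * I.card := by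
        have h2 := Finset.sum_le_card_nsmul (I.filter (fun p => ¬ D₀ ≤ Dq m p)) (Dq m) D₀
          fun p hp => (not_le.1 (Finset.mem_filter.1 hp).2).le
        rw [nsmul_eq_mul] at h2
        have h3 : ((I.filter (fun p => ¬ D₀ ≤ Dq m p)).card : ℝ) ≤ I.card := by
          exact_mod_cast Finset.card_filter_le _ _
        nlinarith
      have h2 := Finset.sum_filter_add_sum_filter_not I (fun p => D₀ ≤ Dq m p) (Dq m)
      have h3 : cs / 2 * W ≤ D₀ * I.card := by linarith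
      rw [div_mul_eq_mul_div, div_le_iff₀ (by positivity)]
      linarith
    obtain ⟨J, hJI, hJsp, hJsum⟩ := Sel66.res66 (b := bb) hbb1 I (fun _ => (1 : ℝ))
    rw [Finset.sum_const, Finset.sum_const, nsmul_eq_mul, nsmul_eq_mul, mul_one, mul_one] at hJsum
    have hex : ∀ p ∈ J, ∃ M : ℕ, M ≤ B * m p ∧ e₁ * 2 ^ p ≤ En ρ β h M ∧
        (∀ k : ℕ, k < M → En ρ β h k < e₁ * 2 ^ p) := by
      intro p hp
      have hpI := hJI hp
      obtain ⟨M, _, hMB, hME⟩ := hExc h hL m p hLv (hI p hpI).1 (hm1 p)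
        (hLogp CE (by linarith) (by rw [hCa]; linarith) p (hpL p hpI))
      have hex : ∃ M : ℕ, e₁ * 2 ^ p ≤ En ρ β h M := ⟨M, hME⟩
      exact ⟨Nat.find hex, (Nat.find_min' hex hME).trans hMB, Nat.find_spec hex,
        fun k hk => not_le.1 (Nat.find_min hex hk)⟩
    choose! H hHB hHE hHlt using hex
    have hH1 : ∀ p ∈ J, 1 ≤ H p := by
      intro p hp
      by_contra h1
      have h2 : H p = 0 := by omega
      have h3 := hHE p hp
      rw [h2, hE0] at h3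
      have : 0 < e₁ * 2 ^ p := by positivity
      linarith
    have hHf : ∀ p ∈ J, En ρ β h (H p) ≤ CV * 2 ^ p := fun p hp =>
      (le_max_left _ _).trans (hVar h hL m p hLv (hI p (hJI hp)).1 (hm1 p)
        (hCVp p (hJI hp)) (H p) (hHB p hp)).2
    have hexm := hExm h hL m H J hLv (fun p hp => ⟨(hI p (hJI hp)).1, hm1 p, hHB p hp, hHE p hp,
      hHlt p hp, hLogp C₂ (by linarith) (by rw [hCa]; linarith) p (hpL p (hJI hp))⟩)
      (fun p hp q hq hpq => by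
        have h1 := hJsp p hp q hq hpq
        have h2 : b₂ ≤ bb := le_max_right _ _
        omega)
    have hadt : ∀ J' : Finset ℕ, J' ⊆ J → (law d ρ).real
        (⋂ p ∈ J', Gk ρ β h (H p) 0 (Θ * 2 ^ p) 0) ≤ (e₁ / 128 / Θ) ^ J'.card := by
      intro J' hJ'
      refine hAdt h hL m H J' hLv (fun p hp => ?_) fun p hp q hq hpq => ?_
      · have hpJ := hJ' hp
        obtain ⟨h1, h2⟩ := big28 hm1 hhi hfM1 (hnb.trans_le (hpow p (hJI hpJ)))
        exact ⟨h1, h2, (hI p (hJI hpJ)).1, hH1 p hpJ, hHB p hpJ⟩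
      · have h1 := hJsp p (hJ' hp) q (hJ' hq) hpq
        have h2 : bA ≤ bb := le_max_left _ _
        omega
    have hust : ∀ p ∈ J, 7 / 8 * e₁ ≤
        ((∑ t ∈ Finset.range n, uf ρ β h n t (clp ρ β h (H p) (Θ * 2 ^ p) (b * 2 ^ p))) / 2 ^ p +
          KΘ * ∑ t ∈ Finset.range n, us ρ β h n t (Gk ρ β h (H p) 0 (Θ * 2 ^ p) 0)) / n := by
      intro p hp
      have hpI := hJI hp
      have hHg : (H p : ℝ) ≤ B * (n : ℝ) ^ ((1 / 2 - x₁) / 4) := by
        have h1 : (H p : ℝ) ≤ B * m p := by exact_mod_cast hHB p hp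
        exact h1.trans (mul_le_mul_of_nonneg_left (hmg p hpI) (Nat.cast_nonneg _))
      have hnx : (m p : ℝ) ^ x₁ ≤ (n : ℝ) ^ x₁ :=
        Real.rpow_le_rpow (Nat.cast_nonneg _) (hmn p hpI) hx.le
      have hbE : b * 2 ^ p + En ρ β h n ≤ C * (b + 1) * (n : ℝ) ^ x₁ := by
        have h1 : (2 : ℝ) ^ p ≤ C * (n : ℝ) ^ x₁ :=
          (hmC p).trans (mul_le_mul_of_nonneg_left hnx (by linarith))
        have h2 := mul_le_mul_of_nonneg_left h1 hb.le
        linarith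
      have hKle : C * (n : ℝ) ^ (2 * x₁) ≤ C * (b + 1) * (n : ℝ) ^ (2 * x₁) := by
        refine mul_le_mul_of_nonneg_right ?_ (by positivity)
        nlinarith
      obtain ⟨hN1, hN2⟩ := hNs (H p) (2 ^ p) (b * 2 ^ p + En ρ β h n)
        (C * (n : ℝ) ^ (2 * x₁)) (hH1 p hp) hHg (hpow p hpI) hbE hKle
      have hHn : H p ≤ n := by
        have h1 : (H p : ℝ) ≤ n := by nlinarith
        exact_mod_cast h1
      have h6 := hUst n (H p) (Θ * 2 ^ p) (b * 2 ^ p) (C * (n : ℝ) ^ (2 * x₁)) (hH1 p hp)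
        hHn (by positivity) (by positivity) hVK
      refine useT28 (δ := e₁ / 16) (H := H p) (En := En ρ β h (H p))
        (T := 2 * (Θ * 2 ^ p + b * 2 ^ p + En ρ β h (H p)))
        (R := (H p : ℝ) * (b * 2 ^ p + En ρ β h n + Cs * (H p + 1) +
          Cs * Real.sqrt ((n + 1) * (C * (n : ℝ) ^ (2 * x₁)))) +
          C₁s * n * Real.log (2 * H p + 1)) hn (by positivity : (0 : ℝ) < 2 ^ p) he₁ he₁1 rfl
        (hHE p hp) hN1 hN2 ?_ (Finset.sum_nonneg fun t _ => us_nonneg28 _ _ _) ?_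
      · have h7 := hHf p hp
        rw [hKΘ]
        nlinarith
      · linarith
    have hfin := many28 (ρ := ρ) (β := β) (h := h) hd (εA := e₁ / 128) (CV := CV) (KΘ := KΘ) J
      hs0 he₁ hΘ1 hb hKΘ (le_max_right _ _) (by linarith) hsK (by positivity) (by linarith)
      (fun p _ => hEn0 _) hHf hexm hadt hust hBd hκ0.le hκ2
    refine le_trans ?_ hfin
    have h1 : cs / (2 * D₀) / bb * W ≤ J.card := by
      rw [div_mul_eq_mul_div, div_le_iff₀ hbb0]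
      linarith
    calc min (cA / 10 * (cs / 2 / (3 * a))) (s * e₁ / 2 * (cs / (2 * D₀) / bb)) * W
        ≤ s * e₁ / 2 * (cs / (2 * D₀) / bb) * W :=
          mul_le_mul_of_nonneg_right (min_le_right _ _) hW0
      _ = s * e₁ / 2 * (cs / (2 * D₀) / bb * W) := by ring
      _ ≤ s * e₁ / 2 * J.card := mul_le_mul_of_nonneg_left h1 (by positivity)

end Pool.Agent.W_7d29a1_SNP
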