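import Pool.Agent.W_7d29a1_SNP.DefsN28
import Pool.Agent.W_7d29a1_PL.Cor28
import Pool.Agent.W_7d29a1_PL.Exp62
import Pool.Agent.W_7d29a1_PL.Sel66
import Pool.Agent.W_7d29a1_PL.Use63

/-!
Assembly of CORN: functions of the future at the position of the polymer, the two budgets
(helper28).
-/

namespace Pool.Agent.W_7d29a1_SNP

open MeasureTheory ProbabilityTheory Filter Topology Pool.Agent.W_MP_7d29a1_pr
  Pool.Agent.W_7d29a1_h46 Pool.Agent.W_7d29a1_h46u Pool.Agent.W_7d29a1_D2.B35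
  Pool.Agent.W_7d29a1_Q29 Pool.Agent.W_7d29a1_R34 Pool.Agent.W_7d29a1_SP
  Pool.Agent.W_7d29a1_NV
  Pool.Agent.W_7d29a1_PL Pool.Agent.W_7d29a1_SD Pool.Agent.W_7d29a1_KZ

namespace Cn28

variable {d : ℕ} {ρ : Measure ℝ} {β : ℝ} {h : Vec d}

lemma ufi_meas28 (n t : ℕ) {g : Env d → ℝ} (hg : Measurable g) :
    Measurable fun η => ∑ y ∈ boxF d t, Qt β h n t y η * g (sh t y η) :=
  Finset.measurable_sum _ fun y _ => (measurable_Qt39 β h n t y).mul
    (hg.comp (measurable_sh t y))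

lemma ufi_abs28 (hd : 0 < d) {n t : ℕ} (ht : t ≤ n) {g : Env d → ℝ} {D : ℝ}
    (hg : ∀ η, |g η| ≤ D) (η : Env d) :
    |∑ y ∈ boxF d t, Qt β h n t y η * g (sh t y η)| ≤ D := by
  refine (Finset.abs_sum_le_sum_abs _ _).trans ?_
  have h1 : ∀ y ∈ boxF d t, |Qt β h n t y η * g (sh t y η)| ≤ Qt β h n t y η * D := by
    intro y _
    have h2 : (0 : ℝ) ≤ Qt β h n t y η := Qt_nonneg39 _ _ _ _ _ _
    rw [abs_mul, abs_of_nonneg h2]
    exact mul_le_mul_of_nonneg_left (hg _) h2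
  refine (Finset.sum_le_sum h1).trans ?_
  rw [← Finset.sum_mul, Qt_sum_box39 hd β h ht le_rfl η, one_mul]

lemma ufi_int28 [IsProbabilityMeasure ρ] (hd : 0 < d) {n t : ℕ} (ht : t ≤ n) {g : Env d → ℝ}
    {D : ℝ} (hg : Measurable g) (hD : ∀ η, |g η| ≤ D) :
    Integrable (fun η => ∑ y ∈ boxF d t, Qt β h n t y η * g (sh t y η)) (law d ρ) :=
  (integrable_const D).mono' (ufi_meas28 n t hg).aestronglyMeasurable
    (Eventually.of_forall fun η => by
      rw [Real.norm_eq_abs]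
      exact ufi_abs28 hd ht hD η)

/-- Linearity. -/
lemma uf_sum28 [IsProbabilityMeasure ρ] (hd : 0 < d) {n t : ℕ} (ht : t ≤ n) (I : Finset ℕ)
    (c : ℕ → ℝ) (g : ℕ → Env d → ℝ) (D : ℕ → ℝ) (hg : ∀ p ∈ I, Measurable (g p))
    (hD : ∀ p ∈ I, ∀ η, |g p η| ≤ D p) :
    uf ρ β h n t (fun η => ∑ p ∈ I, c p * g p η) = ∑ p ∈ I, c p * uf ρ β h n t (g p) := by
  unfold uf
  have h1 : (fun η => ∑ y ∈ boxF d t, Qt β h n t y η * ∑ p ∈ I, c p * g p (sh t y η)) =
      fun η => ∑ p ∈ I, c p * ∑ y ∈ boxF d t, Qt β h n t y η * g p (sh t y η) := by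
    funext η
    simp only [Finset.mul_sum]
    rw [Finset.sum_comm]
    refine Finset.sum_congr rfl fun p _ => Finset.sum_congr rfl fun y _ => ?_
    ring
  rw [h1, integral_finsetSum _ fun p hp => (ufi_int28 hd ht (hg p hp) (hD p hp)).const_mul _]
  refine Finset.sum_congr rfl fun p _ => ?_
  rw [integral_const_mul]

lemma uf_add28 [IsProbabilityMeasure ρ] (hd : 0 < d) {n t : ℕ} (ht : t ≤ n)
    (c c' : ℝ) (g g' : Env d → ℝ) (D D' : ℝ) (hg : Measurable g) (hg' : Measurable g')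
    (hD : ∀ η, |g η| ≤ D) (hD' : ∀ η, |g' η| ≤ D') :
    uf ρ β h n t (fun η => c * g η + c' * g' η) = c * uf ρ β h n t g + c' * uf ρ β h n t g' := by
  unfold uf
  have h1 : (fun η => ∑ y ∈ boxF d t, Qt β h n t y η * (c * g (sh t y η) + c' * g' (sh t y η))) =
      fun η => c * (∑ y ∈ boxF d t, Qt β h n t y η * g (sh t y η)) +
        c' * ∑ y ∈ boxF d t, Qt β h n t y η * g' (sh t y η) := by
    funext η
    simp only [Finset.mul_sum, ← Finset.sum_add_distrib]
    refine Finset.sum_congr rfl fun y _ => ?_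
    ring
  rw [h1, integral_add ((ufi_int28 hd ht hg hD).const_mul _) ((ufi_int28 hd ht hg' hD').const_mul _),
    integral_const_mul, integral_const_mul]

lemma us_uf28 (n t : ℕ) (B : Set (Env d)) :
    us ρ β h n t B = uf ρ β h n t (B.indicator fun _ => (1 : ℝ)) := rfl

lemma us_nonneg28 (n t : ℕ) (B : Set (Env d)) : 0 ≤ us ρ β h n t B := by
  refine integral_nonneg fun η => Finset.sum_nonneg fun y _ => mul_nonneg ?_ ?_
  · exact Qt_nonneg39 _ _ _ _ _ _
  · exact Set.indicator_nonneg (fun _ _ => zero_le_one) _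

lemma ind_abs28 (B : Set (Env d)) (η : Env d) : |B.indicator (fun _ => (1 : ℝ)) η| ≤ 1 := by
  by_cases hη : η ∈ B
  · rw [Set.indicator_of_mem hη]
    simp
  · rw [Set.indicator_of_notMem hη]
    simp

lemma ind_dep28 {B : Set (Env d)} {S : Set (ℕ × Site d)} (hB : DependsOn (fun η => η ∈ B) S) :
    DependsOn (B.indicator fun _ => (1 : ℝ)) S := by
  intro η η' hη
  have h1 : (η ∈ B) = (η' ∈ B) := hB hη
  by_cases h2 : η ∈ B
  · rw [Set.indicator_of_mem h2, Set.indicator_of_mem (h1 ▸ h2)]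
  · rw [Set.indicator_of_notMem h2, Set.indicator_of_notMem (h1 ▸ h2)]

lemma clp_meas28 (H : ℕ) (a b : ℝ) : Measurable (clp ρ β h H a b) :=
  (((measurable_X β h H).sub_const _).min measurable_const).max measurable_const

lemma clp_dep28 (H : ℕ) (a b : ℝ) : DependsOn (clp ρ β h H a b) {q : ℕ × Site d | 1 ≤ q.1} := by
  intro η η' hη
  show max (min (X β h η H - A ρ β h H) _) _ = max (min (X β h η' H - A ρ β h H) _) _
  rw [Co28.X_dep28 H hη]

lemma clp_abs28 (H : ℕ) {a b : ℝ} (ha : 0 ≤ a) (hb : 0 ≤ b) (hE : 0 ≤ En ρ β h H) (η : Env d) :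
    |clp ρ β h H a b η| ≤ En ρ β h H + a + b := by
  have h1 : -b ≤ clp ρ β h H a b η := le_max_right _ _
  have h2 : clp ρ β h H a b η ≤ En ρ β h H + a := max_le (min_le_right _ _) (by linarith)
  rw [abs_le]
  constructor <;> linarith

lemma Gk_meas28 (H S : ℕ) (y z : ℝ) : MeasurableSet (Gk ρ β h H S y z) := by
  have e : Gk ρ β h H S y z = ⋃ N : ℕ, ⋃ s : ℕ, ⋃ _ : 1 ≤ N ∧ s ≤ S,
      {η | ((N * H + s : ℕ) : ℝ) * lam ρ β h + N * y - z ≤ X β h η (N * H + s)} := by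
    ext η
    simp only [Gk, Set.mem_ofPred_eq, Set.mem_iUnion, exists_prop, and_assoc]
  rw [e]
  exact MeasurableSet.iUnion fun N => MeasurableSet.iUnion fun s => MeasurableSet.iUnion fun _ =>
    measurableSet_le measurable_const (measurable_X β h (N * H + s))

lemma Gk_dep28 (H S : ℕ) (y z : ℝ) :
    DependsOn (fun η => η ∈ Gk ρ β h H S y z) {q : ℕ × Site d | 1 ≤ q.1} := by
  intro η η' hη
  have h1 : ∀ T, X β h η T = X β h η' T := fun T => Co28.X_dep28 T hη
  show (η ∈ Gk ρ β h H S y z) = (η' ∈ Gk ρ β h H S y z)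
  simp only [Gk, Set.mem_ofPred_eq, h1]

/-- The budget of the long levels. -/
lemma long28 [IsProbabilityMeasure ρ] (hd : 0 < d) {cA CA D₀ V κ : ℝ} {n : ℕ} (hcA : 0 < cA)
    (hCA : 1 ≤ CA) (I : Finset ℕ) (L : ℕ → Set (Env d)) (D : ℕ → ℝ)
    (hLm : ∀ p ∈ I, MeasurableSet (L p))
    (hLd : ∀ p ∈ I, DependsOn (fun η => η ∈ L p) {q : ℕ × Site d | 1 ≤ q.1})
    (hA : ∀ J : Finset ℕ, J ⊆ I → (law d ρ).real (⋂ p ∈ J, L p) ≤
      Real.exp (CA * J.card - cA * ∑ p ∈ J, D p))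
    (hD0 : 0 ≤ D₀) (hD : ∀ p ∈ I, D₀ ≤ D p) (hDC : 10 * (CA + 1) ≤ cA * D₀)
    (huse : ∀ p ∈ I, 2 / 5 ≤ (∑ t ∈ Finset.range n, us ρ β h n t (L p)) / n)
    (hB : BdF ρ β h n V κ) (hκ : κ ≤ 1 / 10) :
    cA / 10 * ∑ p ∈ I, D p ≤ V := by
  classical
  set g : Env d → ℝ := fun η => ∑ p ∈ I, (cA * D p) * (L p).indicator (fun _ => (1 : ℝ)) η with hg
  have hDp : ∀ p ∈ I, 0 ≤ cA * D p := fun p hp => mul_nonneg hcA.le (hD0.trans (hD p hp))
  have hgm : Measurable g := Finset.measurable_sum _ fun p hp =>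
    (measurable_const.indicator (hLm p hp)).const_mul _
  have hgd : DependsOn g {q : ℕ × Site d | 1 ≤ q.1} := by
    intro η η' hη
    refine Finset.sum_congr rfl fun p hp => ?_
    rw [ind_dep28 (hLd p hp) hη]
  have hga : ∀ η, |g η| ≤ cA * ∑ p ∈ I, D p := by
    intro η
    refine (Finset.abs_sum_le_sum_abs _ _).trans ?_
    rw [Finset.mul_sum]
    refine Finset.sum_le_sum fun p hp => ?_
    rw [abs_mul, abs_of_nonneg (hDp p hp)]
    calc cA * D p * |(L p).indicator (fun _ => (1 : ℝ)) η| ≤ cA * D p * 1 :=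
          mul_le_mul_of_nonneg_left (ind_abs28 _ _) (hDp p hp)
      _ = cA * D p := mul_one _
  have hexp : ∫ η, Real.exp (g η) ∂(law d ρ) ≤ Real.exp ((CA + 1) * I.card) := by
    have h1 := (exp62 (μ := law d ρ) I hLm (a := fun p => cA * D p) hDp (C := Real.exp CA)
      (Real.exp_pos _).le (fun J hJ => by
        refine (hA J hJ).trans (le_of_eq ?_)
        rw [Finset.prod_mul_distrib, Finset.prod_const, ← Real.exp_sum, ← Real.exp_nat_mul,
          ← Real.exp_add, Finset.sum_neg_distrib, Finset.mul_sum]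
        congr 1
        ring)).2
    refine (le_of_eq rfl).trans (h1.trans ?_)
    have h2 : 1 + Real.exp CA ≤ Real.exp (CA + 1) := by
      rw [Real.exp_add]
      have h3 : (2 : ℝ) ≤ Real.exp 1 := by
        have := Real.add_one_le_exp (1 : ℝ)
        linarith
      have h4 : 1 ≤ Real.exp CA := Real.one_le_exp (by linarith)
      nlinarith
    calc (1 + Real.exp CA) ^ I.card ≤ Real.exp (CA + 1) ^ I.card :=
          pow_le_pow_left₀ (by positivity) h2 _
      _ = Real.exp ((CA + 1) * I.card) := by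
          rw [← Real.exp_nat_mul, mul_comm]
  have hbud := hB g (cA * ∑ p ∈ I, D p) ((CA + 1) * I.card) hgm hgd hga (by positivity) hexp
  have hlow : 2 / 5 * (cA * ∑ p ∈ I, D p) ≤ (∑ t ∈ Finset.range n, uf ρ β h n t g) / n := by
    have h1 : (∑ t ∈ Finset.range n, uf ρ β h n t g) / n =
        ∑ p ∈ I, cA * D p * ((∑ t ∈ Finset.range n, us ρ β h n t (L p)) / n) := by
      have h2 : ∀ t ∈ Finset.range n, uf ρ β h n t g =
          ∑ p ∈ I, cA * D p * us ρ β h n t (L p) := fun t ht =>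
        uf_sum28 hd (Finset.mem_range.1 ht).le I (fun p => cA * D p)
          (fun p => (L p).indicator fun _ => (1 : ℝ)) (fun _ => 1)
          (fun p hp => measurable_const.indicator (hLm p hp)) (fun p _ η => ind_abs28 _ _)
      rw [Finset.sum_congr rfl h2, Finset.sum_comm, Finset.sum_div]
      refine Finset.sum_congr rfl fun p _ => ?_
      rw [← Finset.mul_sum, mul_div_assoc]
    rw [h1, Finset.mul_sum, Finset.mul_sum]
    refine Finset.sum_le_sum fun p hp => ?_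
    have h3 := mul_le_mul_of_nonneg_left (huse p hp) (hDp p hp)
    linarith
  have hcard : 10 * (CA + 1) * I.card ≤ cA * ∑ p ∈ I, D p := by
    have h1 : (I.card : ℝ) * D₀ ≤ ∑ p ∈ I, D p := by
      have := Finset.card_nsmul_le_sum I D D₀ hD
      rwa [nsmul_eq_mul] at this
    have h2 : cA * ((I.card : ℝ) * D₀) ≤ cA * ∑ p ∈ I, D p := mul_le_mul_of_nonneg_left h1 hcA.le
    have h3 : 10 * (CA + 1) * I.card ≤ cA * D₀ * I.card :=
      mul_le_mul_of_nonneg_right hDC (Nat.cast_nonneg _)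
    linarith
  have hS0 : 0 ≤ cA * ∑ p ∈ I, D p := by
    rw [Finset.mul_sum]
    exact Finset.sum_nonneg hDp
  have hκS : κ * (cA * ∑ p ∈ I, D p) ≤ 1 / 10 * (cA * ∑ p ∈ I, D p) :=
    mul_le_mul_of_nonneg_right hκ hS0
  linarith

end Cn28

end Pool.Agent.W_7d29a1_SNP
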