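import Pool.Agent.W_7d29a1_SNP.CorU28

/-!
Assembly of CORN: the budget of many levels (helper28).
-/

namespace Pool.Agent.W_7d29a1_SNP

open MeasureTheory ProbabilityTheory Filter Topology Pool.Agent.W_MP_7d29a1_pr
  Pool.Agent.W_7d29a1_h46 Pool.Agent.W_7d29a1_h46u Pool.Agent.W_7d29a1_D2.B35
  Pool.Agent.W_7d29a1_Q29 Pool.Agent.W_7d29a1_R34 Pool.Agent.W_7d29a1_SP
  Pool.Agent.W_7d29a1_NV
  Pool.Agent.W_7d29a1_PL Pool.Agent.W_7d29a1_SD Pool.Agent.W_7d29a1_KZ

namespace Cn28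

variable {d : ℕ} {ρ : Measure ℝ} {β : ℝ} {h : Vec d}

/-- The exponential moment of the number of rare events. -/
lemma expq28 {Ω : Type*} [MeasurableSpace Ω] {μ : Measure Ω} [IsProbabilityMeasure μ]
    (J : Finset ℕ) (L : ℕ → Set Ω) (hL : ∀ p ∈ J, MeasurableSet (L p)) {α q : ℝ} (hα : 0 ≤ α)
    (hα1 : α ≤ 1) (hq : 0 ≤ q) (h : ∀ I, I ⊆ J → μ.real (⋂ p ∈ I, L p) ≤ q ^ I.card) :
    Integrable (fun ω => Real.exp (α * ∑ p ∈ J, (L p).indicator (fun _ => (1 : ℝ)) ω)) μ ∧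
    ∫ ω, Real.exp (α * ∑ p ∈ J, (L p).indicator (fun _ => (1 : ℝ)) ω) ∂μ ≤
      Real.exp (J.card * (2 * α * q)) := by
  classical
  have he : (fun ω => Real.exp (α * ∑ p ∈ J, (L p).indicator (fun _ => (1 : ℝ)) ω)) =
      fun ω => ∑ I ∈ J.powerset, (∏ _p ∈ I, (Real.exp α - 1)) *
      (⋂ p ∈ I, L p).indicator (fun _ => (1 : ℝ)) ω := by
    funext ω
    rw [← wt62_eq J L (fun _ => α) ω]
    unfold wt62
    rw [Finset.mul_sum]
  have hm : ∀ I ∈ J.powerset, MeasurableSet (⋂ p ∈ I, L p) := fun I hI =>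
    Finset.measurableSet_biInter I fun p hp => hL p (Finset.mem_powerset.1 hI hp)
  have hi : ∀ I ∈ J.powerset, Integrable (fun ω => (∏ _p ∈ I, (Real.exp α - 1)) *
      (⋂ p ∈ I, L p).indicator (fun _ => (1 : ℝ)) ω) μ := fun I hI =>
    ((integrable_const (1 : ℝ)).indicator (hm I hI)).const_mul _
  rw [he]
  refine ⟨integrable_finsetSum _ hi, ?_⟩
  rw [integral_finsetSum _ hi]
  have h0 : 0 ≤ Real.exp α - 1 := by
    have := Real.one_le_exp hα
    linarith
  have h2 : Real.exp α - 1 ≤ 2 * α := by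
    have := Real.abs_exp_sub_one_le (x := α) (by rwa [abs_of_nonneg hα])
    rw [abs_of_nonneg h0, abs_of_nonneg hα] at this
    exact this
  have hone : ∀ I ∈ J.powerset, ∫ ω, (∏ _p ∈ I, (Real.exp α - 1)) *
      (⋂ p ∈ I, L p).indicator (fun _ => (1 : ℝ)) ω ∂μ ≤ (2 * α * q) ^ I.card := by
    intro I hI
    rw [integral_const_mul, integral_indicator (hm I hI), setIntegral_const, smul_eq_mul, mul_one,
      Finset.prod_const, mul_pow]
    have h3 := h I (Finset.mem_powerset.1 hI)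
    exact mul_le_mul (pow_le_pow_left₀ h0 h2 _) h3 measureReal_nonneg (by positivity)
  refine (Finset.sum_le_sum hone).trans ?_
  have h4 := Finset.prod_add (fun _ : ℕ => 2 * α * q) (fun _ : ℕ => (1 : ℝ)) J
  simp only [Finset.prod_const, one_pow, mul_one] at h4
  rw [← h4, Real.exp_nat_mul]
  refine pow_le_pow_left₀ (by positivity) ?_ _
  have := Real.add_one_le_exp (2 * α * q)
  linarith

/-- Cauchy-Schwarz for two exponentials. -/
lemma cs28 {Ω : Type*} [MeasurableSpace Ω] {μ : Measure Ω} [IsProbabilityMeasure μ]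
    {f g : Ω → ℝ} {u v : ℝ} (hf : Integrable (fun ω => Real.exp (2 * f ω)) μ)
    (hg : Integrable (fun ω => Real.exp (2 * g ω)) μ)
    (hf' : ∫ ω, Real.exp (2 * f ω) ∂μ ≤ Real.exp (2 * u))
    (hg' : ∫ ω, Real.exp (2 * g ω) ∂μ ≤ Real.exp (2 * v))
    (hi : Integrable (fun ω => Real.exp (f ω + g ω)) μ) :
    ∫ ω, Real.exp (f ω + g ω) ∂μ ≤ Real.exp (u + v) := by
  have h1 : ∀ ω, Real.exp (f ω + g ω) ≤
      Real.exp (v - u) / 2 * Real.exp (2 * f ω) + Real.exp (u - v) / 2 * Real.exp (2 * g ω) := by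
    intro ω
    have h2 : Real.exp (v - u) * Real.exp (2 * f ω) = Real.exp ((v - u) / 2 + f ω) ^ 2 := by
      rw [← Real.exp_add, ← Real.exp_nat_mul]
      congr 1
      push_cast
      ring
    have h3 : Real.exp (u - v) * Real.exp (2 * g ω) = Real.exp ((u - v) / 2 + g ω) ^ 2 := by
      rw [← Real.exp_add, ← Real.exp_nat_mul]
      congr 1
      push_cast
      ring
    have h4 : Real.exp (f ω + g ω) =
        Real.exp ((v - u) / 2 + f ω) * Real.exp ((u - v) / 2 + g ω) := by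
      rw [← Real.exp_add]
      congr 1
      ring
    have h5 := sq_nonneg (Real.exp ((v - u) / 2 + f ω) - Real.exp ((u - v) / 2 + g ω))
    rw [h4]
    nlinarith
  calc ∫ ω, Real.exp (f ω + g ω) ∂μ
      ≤ ∫ ω, (Real.exp (v - u) / 2 * Real.exp (2 * f ω) +
        Real.exp (u - v) / 2 * Real.exp (2 * g ω)) ∂μ :=
        integral_mono hi ((hf.const_mul _).add (hg.const_mul _)) h1
    _ = Real.exp (v - u) / 2 * (∫ ω, Real.exp (2 * f ω) ∂μ) +
        Real.exp (u - v) / 2 * ∫ ω, Real.exp (2 * g ω) ∂μ := by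
        rw [integral_add (hf.const_mul _) (hg.const_mul _), integral_const_mul,
          integral_const_mul]
    _ ≤ Real.exp (v - u) / 2 * Real.exp (2 * u) + Real.exp (u - v) / 2 * Real.exp (2 * v) := by
        gcongr
    _ = Real.exp (u + v) := by
        have h2 : Real.exp (v - u) * Real.exp (2 * u) = Real.exp (u + v) := by
          rw [← Real.exp_add]
          congr 1
          ring
        have h3 : Real.exp (u - v) * Real.exp (2 * v) = Real.exp (u + v) := by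
          rw [← Real.exp_add]
          congr 1
          ring
        linarith

lemma bdd_int28 {Ω : Type*} [MeasurableSpace Ω] {μ : Measure Ω} [IsProbabilityMeasure μ]
    {f : Ω → ℝ} {D : ℝ} (hf : Measurable f) (hD : ∀ ω, f ω ≤ D) :
    Integrable (fun ω => Real.exp (f ω)) μ :=
  (integrable_const (Real.exp D)).mono' (Real.measurable_exp.comp hf).aestronglyMeasurable
    (Eventually.of_forall fun ω => by
      rw [Real.norm_of_nonneg (Real.exp_pos _).le]
      exact Real.exp_le_exp.2 (hD ω))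

/-- The budget of many levels. -/
lemma many28 [IsProbabilityMeasure ρ] (hd : 0 < d) {s e₁ εA Θ b CV KΘ κ V : ℝ} {n : ℕ}
    {H : ℕ → ℕ} (J : Finset ℕ) (hs : 0 < s) (he₁ : 0 < e₁) (hΘ : 1 ≤ Θ) (hb : 0 < b)
    (hKΘ : KΘ = 2 * (Θ + b + CV)) (hΘb : b + CV ≤ Θ) (hCV : 0 ≤ CV) (hsK : 4 * s * KΘ ≤ 1)
    (hεA : 0 < εA) (hεA' : 128 * εA ≤ e₁) (hE0 : ∀ p ∈ J, 0 ≤ En ρ β h (H p))
    (hE : ∀ p ∈ J, En ρ β h (H p) ≤ CV * 2 ^ p)
    (hexm : ∫ η, Real.exp (2 * s * ∑ p ∈ J, clp ρ β h (H p) (Θ * 2 ^ p) (b * 2 ^ p) η / 2 ^ p)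
      ∂(law d ρ) ≤ Real.exp (J.card * (2 * s * (e₁ / 16))))
    (hadt : ∀ J' : Finset ℕ, J' ⊆ J → (law d ρ).real
      (⋂ p ∈ J', Gk ρ β h (H p) 0 (Θ * 2 ^ p) 0) ≤ (εA / Θ) ^ J'.card)
    (hust : ∀ p ∈ J, 7 / 8 * e₁ ≤
      ((∑ t ∈ Finset.range n, uf ρ β h n t (clp ρ β h (H p) (Θ * 2 ^ p) (b * 2 ^ p))) / 2 ^ p +
        KΘ * ∑ t ∈ Finset.range n, us ρ β h n t (Gk ρ β h (H p) 0 (Θ * 2 ^ p) 0)) / n)
    (hB : BdF ρ β h n V κ) (hκ0 : 0 ≤ κ) (hκ : κ * (Θ + b + CV + KΘ) ≤ e₁ / 8) :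
    s * e₁ / 2 * J.card ≤ V := by
  classical
  have hKΘ0 : 0 < KΘ := by rw [hKΘ]; linarith
  set G : ℕ → Set (Env d) := fun p => Gk ρ β h (H p) 0 (Θ * 2 ^ p) 0 with hG
  set cl : ℕ → Env d → ℝ := fun p => clp ρ β h (H p) (Θ * 2 ^ p) (b * 2 ^ p) with hcl
  have hclm : ∀ p, Measurable (cl p) := fun p => clp_meas28 _ _ _
  have hGm : ∀ p, MeasurableSet (G p) := fun p => Gk_meas28 _ _ _ _
  have hindm : ∀ p, Measurable ((G p).indicator fun _ => (1 : ℝ)) := fun p =>
    measurable_const.indicator (hGm p)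
  have hcla : ∀ p ∈ J, ∀ η, |cl p η| ≤ (CV + Θ + b) * 2 ^ p := by
    intro p hp η
    have h1 := clp_abs28 (ρ := ρ) (β := β) (h := h) (H p) (a := Θ * 2 ^ p) (b := b * 2 ^ p)
      (by positivity) (by positivity) (hE0 p hp) η
    have h2 := hE p hp
    calc |cl p η| ≤ En ρ β h (H p) + Θ * 2 ^ p + b * 2 ^ p := h1
      _ ≤ (CV + Θ + b) * 2 ^ p := by linarith
  set gp : ℕ → Env d → ℝ := fun p η =>
    1 / 2 ^ p * cl p η + KΘ * (G p).indicator (fun _ => (1 : ℝ)) η with hgp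
  have hgpm : ∀ p, Measurable (gp p) := fun p =>
    ((hclm p).const_mul _).add ((hindm p).const_mul _)
  have hgpa : ∀ p ∈ J, ∀ η, |gp p η| ≤ Θ + b + CV + KΘ := by
    intro p hp η
    have h1 := hcla p hp η
    have h2 := ind_abs28 (G p) η
    have h3 : (0 : ℝ) < 2 ^ p := by positivity
    have h4 : |1 / 2 ^ p * cl p η| ≤ CV + Θ + b := by
      rw [abs_mul, abs_of_nonneg (by positivity), one_div, ← div_eq_inv_mul, div_le_iff₀ h3]
      exact h1
    have h5 : |KΘ * (G p).indicator (fun _ => (1 : ℝ)) η| ≤ KΘ := by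
      rw [abs_mul, abs_of_pos hKΘ0]
      nlinarith
    have h6 := abs_add_le (1 / 2 ^ p * cl p η) (KΘ * (G p).indicator (fun _ => (1 : ℝ)) η)
    calc |gp p η| ≤ _ := h6
      _ ≤ Θ + b + CV + KΘ := by linarith
  set g : Env d → ℝ := fun η => ∑ p ∈ J, s * gp p η with hg
  have hgm : Measurable g := Finset.measurable_sum _ fun p _ => (hgpm p).const_mul _
  have hgd : DependsOn g {q : ℕ × Site d | 1 ≤ q.1} := by
    intro η η' hη
    refine Finset.sum_congr rfl fun p _ => ?_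
    have e1 : cl p η = cl p η' := clp_dep28 _ _ _ hη
    have e2 : (G p).indicator (fun _ => (1 : ℝ)) η = (G p).indicator (fun _ => (1 : ℝ)) η' :=
      ind_dep28 (Gk_dep28 _ _ _ _) hη
    simp only [hgp, e1, e2]
  have hga : ∀ η, |g η| ≤ s * J.card * (Θ + b + CV + KΘ) := by
    intro η
    refine (Finset.abs_sum_le_sum_abs _ _).trans ?_
    have h1 : ∀ p ∈ J, |s * gp p η| ≤ s * (Θ + b + CV + KΘ) := by
      intro p hp
      rw [abs_mul, abs_of_pos hs]
      exact mul_le_mul_of_nonneg_left (hgpa p hp η) hs.le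
    refine (Finset.sum_le_sum h1).trans (le_of_eq ?_)
    rw [Finset.sum_const, nsmul_eq_mul]
    ring
  have hexp : ∫ η, Real.exp (g η) ∂(law d ρ) ≤ Real.exp (s * e₁ / 8 * J.card) := by
    set f₁ : Env d → ℝ := fun η => s * ∑ p ∈ J, cl p η / 2 ^ p with hf₁
    set f₂ : Env d → ℝ := fun η => s * KΘ * ∑ p ∈ J, (G p).indicator (fun _ => (1 : ℝ)) η with hf₂
    have hsum : ∀ η, g η = f₁ η + f₂ η := by
      intro η
      simp only [hg, hf₁, hf₂, hgp, Finset.mul_sum, ← Finset.sum_add_distrib]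
      refine Finset.sum_congr rfl fun p _ => ?_
      ring
    have hf₁m : Measurable f₁ :=
      (Finset.measurable_sum _ fun p _ => (hclm p).div_const _).const_mul _
    have hf₁a : ∀ η, f₁ η ≤ s * J.card * (CV + Θ + b) := by
      intro η
      have h1 : ∑ p ∈ J, cl p η / 2 ^ p ≤ J.card * (CV + Θ + b) := by
        have h2 : ∀ p ∈ J, cl p η / 2 ^ p ≤ CV + Θ + b := by
          intro p hp
          rw [div_le_iff₀ (by positivity)]
          exact (le_abs_self _).trans (hcla p hp η)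
        have h3 := Finset.sum_le_card_nsmul J _ _ h2
        rwa [nsmul_eq_mul] at h3
      have h2 := mul_le_mul_of_nonneg_left h1 hs.le
      calc f₁ η ≤ s * (J.card * (CV + Θ + b)) := h2
        _ = s * J.card * (CV + Θ + b) := by ring
    have hE1 : Integrable (fun η => Real.exp (2 * f₁ η)) (law d ρ) :=
      bdd_int28 (hf₁m.const_mul _) (D := 2 * (s * J.card * (CV + Θ + b)))
        fun η => mul_le_mul_of_nonneg_left (hf₁a η) (by norm_num)
    have hE1' : ∫ η, Real.exp (2 * f₁ η) ∂(law d ρ) ≤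
        Real.exp (2 * (s * e₁ / 16 * J.card)) := by
      have h1 : (fun η => Real.exp (2 * f₁ η)) = fun η =>
          Real.exp (2 * s * ∑ p ∈ J, clp ρ β h (H p) (Θ * 2 ^ p) (b * 2 ^ p) η / 2 ^ p) := by
        funext η
        simp only [hf₁, hcl]
        congr 1
        ring
      rw [h1]
      refine hexm.trans (le_of_eq ?_)
      congr 1
      ring
    obtain ⟨hE2, hE2'⟩ := expq28 (μ := law d ρ) J G (fun p _ => hGm p) (α := 2 * s * KΘ)
      (q := εA / Θ) (by positivity) (by nlinarith) (by positivity) hadt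
    have hF2 : (fun η => Real.exp (2 * f₂ η)) = fun η =>
        Real.exp (2 * s * KΘ * ∑ p ∈ J, (G p).indicator (fun _ => (1 : ℝ)) η) := by
      funext η
      simp only [hf₂]
      congr 1
      ring
    rw [← hF2] at hE2
    have hE2'' : ∫ η, Real.exp (2 * f₂ η) ∂(law d ρ) ≤ Real.exp (2 * (s * e₁ / 16 * J.card)) := by
      rw [hF2]
      refine hE2'.trans (Real.exp_le_exp.2 ?_)
      have h1 : 2 * (2 * s * KΘ) * (εA / Θ) ≤ 2 * (s * e₁ / 16) := by
        have h2 : KΘ * (εA / Θ) ≤ 4 * εA := by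
          rw [← mul_div_assoc, div_le_iff₀ (by linarith)]
          have : KΘ ≤ 4 * Θ := by rw [hKΘ]; linarith
          nlinarith
        have h3 : s * (KΘ * (εA / Θ)) ≤ s * (4 * εA) := mul_le_mul_of_nonneg_left h2 hs.le
        nlinarith
      calc (J.card : ℝ) * (2 * (2 * s * KΘ) * (εA / Θ)) ≤ J.card * (2 * (s * e₁ / 16)) :=
            mul_le_mul_of_nonneg_left h1 (Nat.cast_nonneg _)
        _ = 2 * (s * e₁ / 16 * J.card) := by ring
    have hi : Integrable (fun η => Real.exp (f₁ η + f₂ η)) (law d ρ) := by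
      refine bdd_int28 (D := s * J.card * (Θ + b + CV + KΘ)) ?_ fun η => ?_
      · have : (fun η => f₁ η + f₂ η) = g := funext fun η => (hsum η).symm
        rw [this]
        exact hgm
      · rw [← hsum η]
        exact (le_abs_self _).trans (hga η)
    have h1 := cs28 hE1 hE2 hE1' hE2'' hi
    have h2 : (fun η => Real.exp (g η)) = fun η => Real.exp (f₁ η + f₂ η) := by
      funext η
      rw [hsum η]
    rw [h2]
    refine h1.trans (le_of_eq ?_)
    congr 1
    ring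
  have hbud := hB g _ _ hgm hgd hga (by positivity) hexp
  have hlow : s * J.card * (7 / 8 * e₁) ≤ (∑ t ∈ Finset.range n, uf ρ β h n t g) / n := by
    have h1 : (∑ t ∈ Finset.range n, uf ρ β h n t g) / n =
        ∑ p ∈ J, s * (((∑ t ∈ Finset.range n, uf ρ β h n t (cl p)) / 2 ^ p +
          KΘ * ∑ t ∈ Finset.range n, us ρ β h n t (G p)) / n) := by
      have h2 : ∀ t ∈ Finset.range n, uf ρ β h n t g =
          ∑ p ∈ J, s * (1 / 2 ^ p * uf ρ β h n t (cl p) + KΘ * us ρ β h n t (G p)) := by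
        intro t ht
        have h3 := uf_sum28 (ρ := ρ) (β := β) (h := h) hd (Finset.mem_range.1 ht).le J
          (fun _ => s) gp (fun _ => Θ + b + CV + KΘ) (fun p _ => hgpm p) hgpa
        refine h3.trans (Finset.sum_congr rfl fun p hp => ?_)
        rw [us_uf28]
        have h4 := uf_add28 (ρ := ρ) (β := β) (h := h) hd (Finset.mem_range.1 ht).le
          (1 / 2 ^ p) KΘ (cl p) ((G p).indicator fun _ => (1 : ℝ)) ((CV + Θ + b) * 2 ^ p) 1
          (hclm p) (hindm p) (hcla p hp) (ind_abs28 _)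
        rw [← h4]
      rw [Finset.sum_congr rfl h2, Finset.sum_comm, Finset.sum_div]
      refine Finset.sum_congr rfl fun p _ => ?_
      rw [← Finset.mul_sum, Finset.sum_add_distrib, ← Finset.mul_sum, ← Finset.mul_sum]
      ring
    rw [h1]
    have h5 := Finset.card_nsmul_le_sum J
      (fun p => s * (((∑ t ∈ Finset.range n, uf ρ β h n t (cl p)) / 2 ^ p +
          KΘ * ∑ t ∈ Finset.range n, us ρ β h n t (G p)) / n)) (s * (7 / 8 * e₁))
      (fun p hp => mul_le_mul_of_nonneg_left (hust p hp) hs.le)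
    rw [nsmul_eq_mul] at h5
    linarith
  have h6 : κ * (s * J.card * (Θ + b + CV + KΘ)) ≤ s * J.card * (e₁ / 8) := by
    have h7 := mul_le_mul_of_nonneg_left hκ (by positivity : (0 : ℝ) ≤ s * J.card)
    linarith
  have h8 : 0 ≤ s * J.card * e₁ := by positivity
  linarith

end Cn28

end Pool.Agent.W_7d29a1_SNP
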