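import Pool.Agent.W_7d29a1_PL.CostM79
import Pool.Agent.W_7d29a1_SNP.DefsN28

/-!
Leaf COSTB: the price of a single luck, levels which grow at least like `4 ^ j`, no cut at `n`.
-/

set_option autoImplicit false

namespace Pool.Agent.W_7d29a1_SNP.K79

open MeasureTheory ProbabilityTheory Filter Topology Pool.Agent.W_MP_7d29a1_pr
  Pool.Agent.W_7d29a1_h46 Pool.Agent.W_7d29a1_h46u Pool.Agent.W_7d29a1_D2.B35
  Pool.Agent.W_7d29a1_Q29 Pool.Agent.W_7d29a1_R34 Pool.Agent.W_7d29a1_SP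
  Pool.Agent.W_7d29a1_SP.C79 Pool.Agent.W_7d29a1_PL Pool.Agent.W_7d29a1_PL.S79
  Pool.Agent.W_7d29a1_PL.K79 Pool.Agent.W_7d29a1_SNP

variable {d : ℕ} {ρ : Measure ℝ}

lemma num2B {C r : ℝ} {j : ℕ} (hC : 1 ≤ C) (hr : 0 < r) (hr1 : r * 4 ^ j ≤ 1) :
    (2 ^ (j + 2) * r) ^ (1 / C) ≤ 4 * Real.exp (-(1 / (10 * C) * j)) * r ^ (1 / (10 * C)) := by
  have hC0 : 0 < C := by linarith
  have hl := log2_half
  have hj : (0 : ℝ) ≤ j := Nat.cast_nonneg _
  have hL : Real.log r ≤ -(2 * j * Real.log 2) := by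
    have h1 := Real.log_le_log (by positivity) hr1
    rw [Real.log_mul hr.ne' (by positivity), Real.log_pow, Real.log_one] at h1
    have h2 : Real.log 4 = 2 * Real.log 2 := by
      rw [show (4 : ℝ) = 2 ^ 2 by norm_num, Real.log_pow]
      norm_num
    rw [h2] at h1
    linarith
  have hx : 0 < 2 ^ (j + 2) * r := by positivity
  rw [Real.rpow_def_of_pos hx, Real.rpow_def_of_pos hr, Real.log_mul (by positivity) hr.ne',
    Real.log_pow]
  have h4 : (4 : ℝ) = Real.exp (2 * Real.log 2) := by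
    rw [mul_comm, Real.exp_mul, Real.exp_log (by norm_num)]
    norm_num
  rw [h4, ← Real.exp_add, ← Real.exp_add]
  refine Real.exp_le_exp.2 ?_
  push_cast
  set L := Real.log r
  set l := Real.log 2
  have h5 : ((j + 2) * l + L) ≤ 2 * C * l - j / 10 + L / 10 := by
    have h6 : l ≤ C * l := by nlinarith
    have h7 : (j : ℝ) / 2 ≤ j * l := by nlinarith
    nlinarith
  have h6 : (1 / C) * ((j + 2) * l + L) ≤ (1 / C) * (2 * C * l - j / 10 + L / 10) :=
    mul_le_mul_of_nonneg_left h5 (by positivity)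
  have h7 : (1 / C) * (2 * C * l - j / 10 + L / 10) =
      2 * l + -(1 / (10 * C) * j) + L * (1 / (10 * C)) := by
    field_simp
    ring
  have h8 : ((j + 2) * l + L) * (1 / C) = (1 / C) * ((j + 2) * l + L) := by ring
  rw [h8]
  linarith

/-- The event of the group `i`, no cut. -/
def LgI (ρ : Measure ℝ) (β : ℝ) (h : Vec d) (H S : ℕ) (x κ z : ℝ) : ℕ → Set (Env d)
  | 0 => Lg0 ρ β h H S x κ z
  | i + 1 => {η | ∃ N : ℕ, 2 ^ (i + 1) ≤ N ∧ N < 2 ^ (i + 2) ∧ η ∈ LgN ρ β h H S x κ z N}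

theorem coreB79 [IsProbabilityMeasure ρ] (hd : 0 < d) (hρ : EM ρ) {β : ℝ} {h : Vec d} {C κ : ℝ}
    (hs : SgH ρ β h (8 / κ) C) (hC : 1 ≤ C) (hκ : 0 < κ) (hκ2 : κ ≤ 1 / 2) {b : ℕ}
    (hb : 32 / κ ≤ 2 ^ b) {a : ℕ} {m : ℕ → ℕ} {p : ℕ} (ha : b + 10 ≤ a)
    (hlo : ∀ l k : ℕ, k < m l → fM ρ β h k < 2 ^ l) (hhi : (2 : ℝ) ^ p ≤ fM ρ β h (m p))
    (hap : a ≤ p) (hu : 2 ≤ m (p - a)) (hnc : ∀ j : ℕ, 4 ^ (j + 1) * m p ≤ m (p + j + 1))
    (hfs : ∀ k : ℕ, k ≤ 2 ^ (2 * b + 2) * m p → Fn ρ β h k ≤ κ / 64 * 2 ^ p) (i : ℕ) :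
    (law d ρ).real (LgI ρ β h (m p - 2 * m (p - a)) (2 * m (p - a)) (2 ^ p) κ (κ / 8 * 2 ^ p) i) ≤
      KK κ C b * Real.exp (-(1 / (10 * C) * i)) *
        ((m p : ℝ) / (m (p + i + 1) : ℕ)) ^ (1 / (10 * C)) := by
  have hC0 : 0 < C := by linarith
  set u := m (p - a) with hudef
  set w : ℝ := 2 ^ (p - a) with hwdef
  have hw1 : 1 ≤ w := one_le_pow₀ (by norm_num)
  have hw : ∀ j : ℕ, j < u → fM ρ β h j < w := fun j hj => hlo (p - a) j hj
  have h512 := fM_small hd hρ β h hu hw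
  set x : ℝ := 2 ^ p with hxdef
  have hx1 : 1 ≤ x := one_le_pow₀ (by norm_num)
  have hpa : x = 2 ^ a * w := by
    rw [hxdef, hwdef, ← pow_add]
    congr 1
    omega
  have h2a : 32768 ≤ κ * 2 ^ a := by
    have h1 : (2 : ℝ) ^ (b + 10) ≤ 2 ^ a := pow_le_pow_right₀ (by norm_num) ha
    have h2 : 32 ≤ κ * 2 ^ b := by
      rw [div_le_iff₀ hκ] at hb
      linarith
    have h3 : κ * 2 ^ (b + 10) ≤ κ * 2 ^ a := mul_le_mul_of_nonneg_left h1 hκ.le
    rw [pow_add] at h3
    nlinarith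
  have hκx : 32768 * w ≤ κ * x := by
    rw [hpa]
    nlinarith
  have hφ0 : (0 : ℝ) ≤ 512 * w := by linarith
  have hφ1 : 3 * (512 * w) + 1 ≤ κ / 16 * x := by linarith
  have h4u : 4 * u < m p := by
    by_contra hcon
    have h1 := h512 (m p) (by omega)
    have h2 := hhi
    have h3 : κ * x ≤ 1 / 2 * x := mul_le_mul_of_nonneg_right hκ2 (by linarith)
    linarith
  have hB1 : 1 ≤ 2 ^ (2 * b + 2) := Nat.one_le_two_pow
  have hE : x ≤ En ρ β h (m p) := by
    have h1 := hhi
    have h2 := hfs (m p) (Nat.le_mul_of_pos_left _ (by omega))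
    unfold fM at h1
    rcases le_max_iff.1 h1 with h3 | h3
    · exact h3
    · have h4 : κ / 64 * x ≤ 1 / 2 * x := mul_le_mul_of_nonneg_right (by linarith) (by linarith)
      linarith
  have hm8 : 9 ≤ m p := by omega
  set H := m p - 2 * u with hH
  set S := 2 * u with hS
  have hHS : H + S = m p := by omega
  have hkS : ∀ k : ℕ, k ≤ S → En ρ β h k ≤ 512 * w ∧ Fn ρ β h k ≤ 512 * w := fun k hk =>
    ⟨(fM_E β h k).trans (h512 k (by omega)), (fM_F β h k).trans (h512 k (by omega))⟩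
  set R := m (p + i + 1) with hR
  have hR4 := hnc i
  have hR2 : 2 * m p ≤ R := by
    have h3 : 4 * m p ≤ 4 ^ (i + 1) * m p :=
      Nat.mul_le_mul_right _ (Nat.le_self_pow (by omega) 4)
    omega
  have hm0 : (0 : ℝ) < m p := by
    have : 0 < m p := by omega
    exact_mod_cast this
  have hR0 : (0 : ℝ) < R := by
    have : 0 < R := by omega
    exact_mod_cast this
  set r : ℝ := (m p : ℝ) / R with hr
  have hr0 : 0 < r := by positivity
  have hr1 : r ≤ 1 := by
    rw [hr, div_le_one hR0]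
    exact_mod_cast (by omega : m p ≤ R)
  have hT2 : (R : ℝ) / 2 ≤ ((R - 1 : ℕ) : ℝ) := by
    have h1 : R ≤ 2 * (R - 1) := by omega
    have h2 : (R : ℝ) ≤ 2 * ((R - 1 : ℕ) : ℝ) := by exact_mod_cast h1
    linarith
  have hKT : ∀ k : ℕ, k ≤ R - 1 → fM ρ β h k ≤ 2 * 2 ^ i * x := by
    intro k hk
    have h1 := (hlo (p + i + 1) k (by omega)).le
    have h2 : (2 : ℝ) ^ (p + i + 1) = 2 * 2 ^ i * x := by
      rw [hxdef]
      ring
    rw [h2] at h1
    exact h1
  have hratio : ∀ {T₁ y : ℕ}, T₁ ≤ y * m p →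
      ((T₁ : ℝ) / ((R - 1 : ℕ) : ℝ)) ^ (1 / C) ≤ ((2 * y : ℕ) * r) ^ (1 / C) := by
    intro T₁ y hy
    refine Real.rpow_le_rpow (by positivity) ?_ (by positivity)
    have h1 : (T₁ : ℝ) ≤ y * m p := by exact_mod_cast hy
    rw [hr, div_le_iff₀ (by linarith)]
    push_cast
    have h2 : 2 * (y : ℝ) * ((m p : ℝ) / R) * (R / 2) ≤
        2 * (y : ℝ) * ((m p : ℝ) / R) * ((R - 1 : ℕ) : ℝ) :=
      mul_le_mul_of_nonneg_left hT2 (by positivity)
    have h3 : 2 * (y : ℝ) * ((m p : ℝ) / R) * (R / 2) = y * m p := by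
      field_simp
    linarith
  have hD8 : 8 / κ ≤ 8 / κ := le_rfl
  have hexp1 : 1 ≤ Real.exp (2 * b + 1) := Real.one_le_exp (by positivity)
  have hrc : 0 ≤ r ^ (1 / (10 * C)) := Real.rpow_nonneg hr0.le _
  have hKK : 8 * C ≤ KK κ C b := by
    unfold KK
    have h1 : 0 ≤ Real.exp (2 * b + 1) * (C * 4 ^ (2 * b + 3) + 2 ^ (2 * b + 2)) := by positivity
    have h2 : 0 ≤ 8 / κ ^ 2 := by positivity
    linarith
  rcases Nat.eq_zero_or_pos i with hi0 | hi0
  · -- group 0
    subst hi0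
    have h1 := grp0 hs (H := H) (S := S) (T := R - 1) hκ hD8 hx1 (by omega) (by omega) hφ0 hφ1 hkS
      (fun k hk => by
        have := hKT k hk
        have h1 := fM_E (ρ := ρ) β h k
        have h2 := fM_F (ρ := ρ) β h k
        constructor <;> linarith)
      (by rw [hHS]; exact hE) (by
        rw [hHS]
        exact hfs (m p) (Nat.le_mul_of_pos_left _ (by omega)))
    have h2 := hratio (T₁ := H + S) (y := 1) (by omega)
    have h3 := num1 (y := 2) hC (by norm_num) hr0 hr1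
    have h4 : (((2 * 1 : ℕ) : ℝ) * r) ^ (1 / C) = (2 * r) ^ (1 / C) := by norm_num
    rw [h4] at h2
    show (law d ρ).real (Lg0 ρ β h H S x κ (κ / 8 * x)) ≤ _
    refine h1.trans ?_
    have h5 : C * (((H + S : ℕ) : ℝ) / ((R - 1 : ℕ) : ℝ)) ^ (1 / C) ≤
        C * (2 * r ^ (1 / (10 * C))) := mul_le_mul_of_nonneg_left (h2.trans h3) hC0.le
    refine h5.trans ?_
    have h6 : Real.exp (-(1 / (10 * C) * ((0 : ℕ) : ℝ))) = 1 := by simp
    rw [h6, mul_one, ← mul_assoc]
    exact mul_le_mul_of_nonneg_right (by linarith) hrc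
  · obtain ⟨j, rfl⟩ : ∃ j, i = j + 1 := ⟨i - 1, by omega⟩
    set M : ℕ := 2 ^ (j + 1) with hM
    have hM1 : 1 ≤ M := Nat.one_le_two_pow
    have hM2 : 2 ^ (j + 2) = 2 * M := by
      rw [hM]
      ring
    have hMr : ((M : ℕ) : ℝ) = 2 ^ (j + 1) := by
      rw [hM]
      push_cast
      rfl
    set G : Set (Env d) := {η : Env d | ∃ N : ℕ, M ≤ N ∧ N < 2 * M ∧ N * H ≤ 2 * M * H ∧
      η ∈ LgN ρ β h H S x κ (κ / 8 * x) N} with hG
    have hLG : LgI ρ β h H S x κ (κ / 8 * x) (j + 1) = G := by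
      show {η : Env d | ∃ N : ℕ, 2 ^ (j + 1) ≤ N ∧ N < 2 ^ (j + 2) ∧
        η ∈ LgN ρ β h H S x κ (κ / 8 * x) N} = G
      rw [hM2]
      ext η
      constructor
      · rintro ⟨N, h1, h2, h3⟩
        exact ⟨N, h1, h2, Nat.mul_le_mul_right _ h2.le, h3⟩
      · rintro ⟨N, h1, h2, -, h3⟩
        exact ⟨N, h1, h2, h3⟩
    rw [hLG]
    have hG1 : (law d ρ).real G ≤ 1 := measureReal_le_one
    have hexpn : 0 < Real.exp (-(1 / (10 * C) * ((j + 1 : ℕ) : ℝ))) := Real.exp_pos _
    rcases lt_or_ge (j + 1) (2 * b + 2) with hj | hj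
    · -- near groups
      have hexp2 : 1 ≤ Real.exp (2 * b + 1) * Real.exp (-(1 / (10 * C) * ((j + 1 : ℕ) : ℝ))) := by
        rw [← Real.exp_add]
        refine Real.one_le_exp ?_
        have h1 : 1 / (10 * C) ≤ 1 := by
          rw [div_le_one (by positivity)]
          linarith
        have h2 : ((j + 1 : ℕ) : ℝ) ≤ 2 * b + 1 := by
          have h0 : j + 1 ≤ 2 * b + 1 := by omega
          exact_mod_cast h0
        have h3 : 1 / (10 * C) * ((j + 1 : ℕ) : ℝ) ≤ 1 * ((j + 1 : ℕ) : ℝ) :=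
          mul_le_mul_of_nonneg_right h1 (Nat.cast_nonneg _)
        linarith
      have key : (law d ρ).real G ≤
          (C * 4 ^ (2 * b + 3) + 2 ^ (2 * b + 2)) * r ^ (1 / (10 * C)) := by
        rcases le_or_gt (2 * M * m p) (R - 1) with hcase | hcase
        · have hsub : G ⊆ ⋃ N ∈ Finset.Ico M (2 * M), LgN ρ β h H S x κ (κ / 8 * x) N := by
            rintro η ⟨N, h1, h2, h3, h4⟩
            simp only [Set.mem_iUnion]
            exact ⟨N, Finset.mem_Ico.2 ⟨h1, h2⟩, h4⟩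
          have hone : ∀ N ∈ Finset.Ico M (2 * M),
              (law d ρ).real (LgN ρ β h H S x κ (κ / 8 * x) N) ≤
                C * ((2 * (2 * M) : ℕ) * r ^ (1 / (10 * C))) := by
            intro N hN
            obtain ⟨hN1, hN2⟩ := Finset.mem_Ico.1 hN
            have hNm : N * H + S ≤ 2 * M * m p := by
              have e1 : N * H + S ≤ N * (H + S) := by
                have : S ≤ N * S := Nat.le_mul_of_pos_left _ (by omega)
                rw [Nat.mul_add]
                omega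
              rw [hHS] at e1
              exact e1.trans (Nat.mul_le_mul_right _ hN2.le)
            have hMN : (M : ℝ) ≤ N := by exact_mod_cast hN1
            have h1 := grpN hd hρ hs (H := H) (S := S) (T := R - 1) (N := N) hκ hD8 hx1
              (by omega) (by omega) (hNm.trans hcase) hφ0 hφ1 hkS
              (fun k hk => by
                have h0 := hKT k hk
                rw [← hMr] at h0
                have h1 := fM_E (ρ := ρ) β h k
                have h2 := fM_F (ρ := ρ) β h k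
                have h3 : (M : ℝ) * x ≤ N * x := mul_le_mul_of_nonneg_right hMN (by linarith)
                constructor <;> linarith)
              (hfs (N * H + S) (by
                refine hNm.trans (Nat.mul_le_mul_right _ ?_)
                rw [hM]
                have : 2 * 2 ^ (j + 1) = 2 ^ (j + 2) := by ring
                rw [this]
                exact Nat.pow_le_pow_right (by norm_num) (by omega)))
            refine h1.trans (mul_le_mul_of_nonneg_left ?_ hC0.le)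
            refine (hratio hNm).trans ?_
            exact num1 hC (by
              have : 1 ≤ 2 * (2 * M) := by omega
              exact_mod_cast this) hr0 hr1
          have h1 : (law d ρ).real G ≤ ∑ N ∈ Finset.Ico M (2 * M),
              (law d ρ).real (LgN ρ β h H S x κ (κ / 8 * x) N) :=
            (measureReal_mono hsub (measure_ne_top _ _)).trans
              (measureReal_biUnion_finset_le _ _)
          have h2 := h1.trans (Finset.sum_le_sum hone)
          rw [Finset.sum_const, Nat.card_Ico, nsmul_eq_mul] at h2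
          refine h2.trans ?_
          have h3 : ((2 * M - M : ℕ) : ℝ) = M := by
            congr 1
            omega
          rw [h3]
          have h4 : (M : ℝ) * (C * ((2 * (2 * M) : ℕ) * r ^ (1 / (10 * C)))) =
              (C * (4 * M ^ 2)) * r ^ (1 / (10 * C)) := by
            push_cast
            ring
          rw [h4]
          refine mul_le_mul_of_nonneg_right ?_ hrc
          have h5 : 4 * (M : ℝ) ^ 2 ≤ 4 ^ (2 * b + 3) := by
            rw [hMr, ← pow_mul]
            have h6 : (2 : ℝ) ^ ((j + 1) * 2) ≤ 2 ^ ((2 * b + 1) * 2) :=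
              pow_le_pow_right₀ (by norm_num) (by omega)
            have h7 : (4 : ℝ) ^ (2 * b + 3) = 16 * 2 ^ ((2 * b + 1) * 2) := by
              rw [show (4 : ℝ) = 2 ^ 2 by norm_num, ← pow_mul]
              rw [show 2 * (2 * b + 3) = (2 * b + 1) * 2 + 4 by ring, pow_add]
              ring
            rw [h7]
            have h8 : (0 : ℝ) ≤ 2 ^ ((2 * b + 1) * 2) := by positivity
            linarith
          have h6 : C * (4 * (M : ℝ) ^ 2) ≤ C * 4 ^ (2 * b + 3) :=
            mul_le_mul_of_nonneg_left h5 hC0.le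
          have h7 : (0 : ℝ) ≤ 2 ^ (2 * b + 2) := by positivity
          linarith
        · have h1 : R ≤ 2 * M * m p := by omega
          have h2 : (R : ℝ) ≤ 2 * M * m p := by exact_mod_cast h1
          have hM0 : (1 : ℝ) ≤ M := by exact_mod_cast hM1
          have h3 : 1 / (2 * M) ≤ r := by
            rw [hr, div_le_div_iff₀ (by positivity) hR0]
            linarith
          have h4 : 1 / (2 * (M : ℝ)) ≤ r ^ (1 / (10 * C)) := by
            have h5 : r ≤ r ^ (1 / (10 * C)) := by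
              have h6 : r ^ (1 : ℝ) ≤ r ^ (1 / (10 * C)) := by
                refine Real.rpow_le_rpow_of_exponent_ge hr0 hr1 ?_
                rw [div_le_one (by positivity)]
                linarith
              rwa [Real.rpow_one] at h6
            exact h3.trans h5
          have h5 : 2 * (M : ℝ) ≤ 2 ^ (2 * b + 2) := by
            rw [hMr]
            have h6 : (2 : ℝ) ^ (j + 2) ≤ 2 ^ (2 * b + 2) :=
              pow_le_pow_right₀ (by norm_num) (by omega)
            have h7 : (2 : ℝ) * 2 ^ (j + 1) = 2 ^ (j + 2) := by ring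
            rw [h7]
            exact h6
          have h6 : 1 ≤ 2 ^ (2 * b + 2) * r ^ (1 / (10 * C)) := by
            have h7 : 2 * (M : ℝ) * (1 / (2 * M)) = 1 := by
              field_simp
            calc (1 : ℝ) = 2 * (M : ℝ) * (1 / (2 * M)) := h7.symm
              _ ≤ 2 ^ (2 * b + 2) * r ^ (1 / (10 * C)) :=
                mul_le_mul h5 h4 (by positivity) (by positivity)
          have h7 : 0 ≤ C * 4 ^ (2 * b + 3) * r ^ (1 / (10 * C)) := by positivity
          rw [add_mul]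
          linarith
      refine key.trans ?_
      have h1 : (C * 4 ^ (2 * b + 3) + 2 ^ (2 * b + 2)) * 1 ≤
          (C * 4 ^ (2 * b + 3) + 2 ^ (2 * b + 2)) *
            (Real.exp (2 * b + 1) * Real.exp (-(1 / (10 * C) * ((j + 1 : ℕ) : ℝ)))) :=
        mul_le_mul_of_nonneg_left hexp2 (by positivity)
      have h2 : (C * 4 ^ (2 * b + 3) + 2 ^ (2 * b + 2)) ≤
          KK κ C b * Real.exp (-(1 / (10 * C) * ((j + 1 : ℕ) : ℝ))) := by
        have h3 : 0 ≤ (8 * C + 8 / κ ^ 2 + 1) *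
            Real.exp (-(1 / (10 * C) * ((j + 1 : ℕ) : ℝ))) := by positivity
        have h4 : KK κ C b * Real.exp (-(1 / (10 * C) * ((j + 1 : ℕ) : ℝ))) =
            (C * 4 ^ (2 * b + 3) + 2 ^ (2 * b + 2)) *
            (Real.exp (2 * b + 1) * Real.exp (-(1 / (10 * C) * ((j + 1 : ℕ) : ℝ)))) +
            (8 * C + 8 / κ ^ 2 + 1) * Real.exp (-(1 / (10 * C) * ((j + 1 : ℕ) : ℝ))) := by
          unfold KK
          ring
        rw [h4]
        linarith
      exact mul_le_mul_of_nonneg_right h2 hrc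
    · have hb' : 32 ≤ κ * 2 ^ b := by
        rw [div_le_iff₀ hκ] at hb
        linarith
      have h8M : 2 * M * m p < 4 ^ (j + 1 + 1) * m p := by
        refine Nat.mul_lt_mul_of_pos_right ?_ (by omega)
        rw [hM]
        have e1 : 2 * 2 ^ (j + 1) = 2 ^ (j + 2) := by ring
        have e2 : 4 ^ (j + 1 + 1) = 2 ^ (2 * (j + 2)) := by
          rw [pow_mul]
          norm_num
        rw [e1, e2]
        exact Nat.pow_lt_pow_right (by norm_num) (by omega)
      have hT1 : 2 * M * m p ≤ R - 1 := by omega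
      have hT1' : 2 * M * H + S ≤ 2 * M * m p := by
        have e1 : S ≤ 2 * M * S := Nat.le_mul_of_pos_left _ (by omega)
        have e2 : 2 * M * m p = 2 * M * H + 2 * M * S := by
          rw [← hHS]
          ring
        omega
      -- the bound of the fluctuations up to the horizon
      set φ : ℝ := 2 ^ (p + (j + 1 - b)) with hφd
      have hφ1' : 1 ≤ φ := one_le_pow₀ (by norm_num)
      have hφk : ∀ k : ℕ, k ≤ 2 * M * m p → fM ρ β h k ≤ φ := by
        intro k hk
        obtain ⟨q, hq⟩ : ∃ q, j + 1 - b = q + 1 := ⟨j - b, by omega⟩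
        rw [hφd, hq]
        have hnc2 := hnc q
        have e1 : k < m (p + q + 1) := by
          have h3 : 2 * M < 4 ^ (q + 1) := by
            have e4 : 4 ^ (q + 1) = 2 ^ (2 * (q + 1)) := by
              rw [pow_mul]
              norm_num
            have e5 : 2 * M = 2 ^ (j + 2) := hM2.symm
            rw [e4, e5]
            exact Nat.pow_lt_pow_right (by norm_num) (by omega)
          have h4 : 2 * M * m p < 4 ^ (q + 1) * m p :=
            Nat.mul_lt_mul_of_pos_right h3 (by omega)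
          omega
        exact (hlo (p + q + 1) k e1).le
      have hφ2 : 3 * φ + 1 ≤ κ / 8 * M * x := by
        have e1 : φ * 2 ^ b = M * x := by
          rw [hφd, hMr, hxdef, ← pow_add, ← pow_add]
          congr 1
          omega
        have e2 : 32 * φ ≤ κ * (M * x) := by
          rw [← e1]
          have e3 : φ * 32 ≤ φ * (κ * 2 ^ b) := mul_le_mul_of_nonneg_left hb' (by linarith)
          linarith
        linarith
      have h1 := grpF hd hρ hs (n := 2 * M * H) (H := H) (S := S) (T := R - 1) (M := M) hκ hD8 hx1 hM1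
        (by omega) (hT1'.trans hT1) (by linarith) hφ2
        (fun k hk => by
          have h0 := hφk k (hk.trans hT1')
          exact ⟨(fM_E β h k).trans h0, (fM_F β h k).trans h0⟩)
        (fun k hk => by
          have h0 := hKT k hk
          rw [← hMr] at h0
          exact ⟨(fM_E β h k).trans h0, (fM_F β h k).trans h0⟩)
      refine h1.trans ?_
      have h2 := hratio hT1'
      have h3 : (((2 * (2 * M) : ℕ) : ℝ) * r) ^ (1 / C) = (2 ^ (j + 1 + 2) * r) ^ (1 / C) := by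
        congr 2
        push_cast
        rw [hMr]
        ring
      rw [h3] at h2
      have h4 : r * 4 ^ (j + 1) ≤ 1 := by
        rw [hr, div_mul_eq_mul_div, div_le_one hR0]
        have h0 : 4 ^ (j + 1) * m p ≤ 4 ^ (j + 1 + 1) * m p :=
          Nat.mul_le_mul_right _ (Nat.pow_le_pow_right (by norm_num) (by omega))
        have : m p * 4 ^ (j + 1) ≤ R := by
          rw [mul_comm]
          exact h0.trans hR4
        exact_mod_cast this
      have h5 := num2B (j := j + 1) hC hr0 h4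
      have h6 := mul_le_mul_of_nonneg_left (h2.trans h5) hC0.le
      refine h6.trans ?_
      have h7 : 0 ≤ Real.exp (-(1 / (10 * C) * ((j + 1 : ℕ) : ℝ))) * r ^ (1 / (10 * C)) := by
        positivity
      have h8 : (4 * C) * (Real.exp (-(1 / (10 * C) * ((j + 1 : ℕ) : ℝ))) *
          r ^ (1 / (10 * C))) ≤ KK κ C b * (Real.exp (-(1 / (10 * C) * ((j + 1 : ℕ) : ℝ))) *
          r ^ (1 / (10 * C))) := mul_le_mul_of_nonneg_right (by linarith) h7
      linarith

/-- COSTB in explicit letters: the constants do not depend on the growth rate (`4 ^ j` is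
enough). -/
theorem costB79 {d : ℕ} {ρ : Measure ℝ} [IsProbabilityMeasure ρ] (hd : 0 < d) (hρ : EM ρ)
    {β : ℝ} (hC : CntP d ρ β) (hA : AmpP d ρ β) (c₀ κ : ℝ) (hc₀ : 0 < c₀) (hκ : 0 < κ)
    (hκ2 : κ ≤ 1 / 2) : ∃ (a₀ B : ℕ) (ε c C : ℝ), 0 < ε ∧ 0 < c ∧ 1 ≤ C ∧ ∀ a : ℕ, a₀ ≤ a →
      ∀ h : Vec d, Loc1 ρ β h c₀ → ∀ (m : ℕ → ℕ) (p : ℕ),
      (∀ l k : ℕ, k < m l → fM ρ β h k < 2 ^ l) → (2 : ℝ) ^ p ≤ fM ρ β h (m p) →
      a ≤ p → 2 ≤ m (p - a) → (∀ j : ℕ, 4 ^ (j + 1) * m p ≤ m (p + j + 1)) →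
      (∀ k : ℕ, k ≤ B * m p → Fn ρ β h k ≤ ε * 2 ^ p) → ∀ i : ℕ,
      (law d ρ).real (LgI ρ β h (m p - 2 * m (p - a)) (2 * m (p - a)) (2 ^ p) κ
        (κ / 8 * 2 ^ p) i) ≤
        C * Real.exp (-(c * i)) * ((m p : ℝ) / (m (p + i + 1) : ℕ)) ^ c := by
  have h8 : 1 ≤ 8 / κ := by
    rw [le_div_iff₀ hκ]
    linarith
  obtain ⟨C, hC1, hS⟩ := sing79 hd hρ hC hA c₀ (8 / κ) hc₀ h8
  obtain ⟨b, hb⟩ := pow_unbounded_of_one_lt (32 / κ) (by norm_num : (1 : ℝ) < 2)
  have hC0 : 0 < C := by linarith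
  refine ⟨b + 10, 2 ^ (2 * b + 2), κ / 64, 1 / (10 * C), KK κ C b, by positivity,
    by positivity, ?_, ?_⟩
  · unfold KK
    have h1 : 0 ≤ Real.exp (2 * b + 1) * (C * 4 ^ (2 * b + 3) + 2 ^ (2 * b + 2)) := by positivity
    have h2 : 0 ≤ 8 / κ ^ 2 := by positivity
    linarith
  · intro a ha h hL m p hlo hhi hap hu hnc hfs i
    exact coreB79 hd hρ (hS h hL) hC1 hκ hκ2 hb.le ha hlo hhi hap hu hnc hfs i

lemma Lg_sub (β : ℝ) (h : Vec d) (n H S : ℕ) (x κ z : ℝ) (i : ℕ) :
    Lg ρ β h n H S x κ z i ⊆ LgI ρ β h H S x κ z i := by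
  rcases i with _ | i
  · exact subset_rfl
  · rintro η ⟨N, h1, h2, -, h3⟩
    exact ⟨N, h1, h2, h3⟩

lemma Nc_four {Λ : ℝ} {m : ℕ → ℕ} {p : ℕ} (hΛ : 4 < Λ) (hn : Nc Λ m p) (j : ℕ) :
    4 ^ (j + 1) * m p ≤ m (p + j + 1) := by
  have h1 : (4 : ℝ) ^ (j + 1) * (m p : ℝ) ≤ m (p + j + 1) := by
    refine le_trans ?_ (hn j).le
    exact mul_le_mul_of_nonneg_right (pow_le_pow_left₀ (by norm_num) hΛ.le _)
      (Nat.cast_nonneg _)
  exact_mod_cast h1

/-- The leaf COSTN. -/
theorem costN79 {d : ℕ} {ρ : Measure ℝ} [IsProbabilityMeasure ρ] (hd : 0 < d) (hρ : EM ρ)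
    {β : ℝ} (hC : CntP d ρ β) (hA : AmpP d ρ β) : CostN d ρ β := by
  intro c₀ κ Λ hc₀ hκ hκ2 hΛ
  obtain ⟨a₀, B, ε, c, C, hε, hc, hC1, hmain⟩ := costB79 hd hρ hC hA c₀ κ hc₀ hκ hκ2
  refine ⟨a₀, B, ε, c, C, hε, hc, hC1, fun a ha h hL n m I hSc _ p hp i => ?_⟩
  obtain ⟨hap, hu⟩ := hSc.big p hp
  exact (measureReal_mono (Lg_sub β h n _ _ _ _ _ i) (measure_ne_top _ _)).trans
    (hmain a ha h hL m p hSc.lo (hSc.hi p) hap hu (Nc_four hΛ (hSc.nc p hp)) (hSc.fs p hp) i)

end Pool.Agent.W_7d29a1_SNP.K79
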