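import Pool.Agent.W_7d29a1_SNP.DefsN28

/-!
SNP, the core, the case of many levels: the frozen statement.
-/

namespace Pool.Agent.W_7d29a1_SNP

open MeasureTheory ProbabilityTheory Filter Topology Pool.Agent.W_MP_7d29a1_pr
  Pool.Agent.W_7d29a1_h46 Pool.Agent.W_7d29a1_h46u Pool.Agent.W_7d29a1_D2.B35
  Pool.Agent.W_7d29a1_Q29 Pool.Agent.W_7d29a1_R34 Pool.Agent.W_7d29a1_SP
  Pool.Agent.W_7d29a1_PL Pool.Agent.W_7d29a1_SD Pool.Agent.W_7d29a1_KZ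

/-- T2: many spaced levels which are not cheap cost a multiple of their number. -/
def CorT2 (d : ℕ) (ρ : Measure ℝ) (β : ℝ) : Prop := ∀ c₀ Λ : ℝ, 0 < c₀ → 4 < Λ →
  ∃ (b : ℕ) (c κ C' : ℝ), 1 ≤ b ∧ 0 < c ∧ 0 < κ ∧ 1 ≤ C' ∧
    ∀ (h : Vec d) (C x₁ g : ℝ), Loc1 ρ β h c₀ → 0 < x₁ → 0 < g → g + x₁ < 1 / 2 →
      (∀ k : ℕ, fM ρ β h k ≤ C * (k : ℝ) ^ x₁ ∧ Va ρ β h k ≤ C * (k : ℝ) ^ (2 * x₁)) →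
      ∀ m : ℕ → ℕ, Lv ρ β h m → ∀ᶠ n : ℕ in atTop, ∀ (I : Finset ℕ) (V : ℝ),
        (∀ p ∈ I, b ≤ p ∧ 2 ≤ m (p - b) ∧ Nc Λ m p ∧ C' * (1 + Real.log (m p)) ≤ 2 ^ p ∧
          (m p : ℝ) ≤ (n : ℝ) ^ g) →
        (∀ p ∈ I, ∀ q ∈ I, p < q → p + b ≤ q) → BdF ρ β h n V κ → c * I.card ≤ V

end Pool.Agent.W_7d29a1_SNP
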