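import Pool.Agent.W_7d29a1_SP.Cnt79
import Pool.Agent.W_7d29a1_SP.Bas15

/-!
The characteristic function of the free energy is almost multiplicative; if the nonrandom
fluctuation is small against the random one then the random one grows like a square root
(helper7).
-/

set_option autoImplicit false

namespace Pool.Agent.W_7d29a1_SNP

open MeasureTheory ProbabilityTheory Filter Topology Pool.Agent.W_MP_7d29a1_pr
  Pool.Agent.W_7d29a1_h46 Pool.Agent.W_7d29a1_h46u Pool.Agent.W_7d29a1_D2.B35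
  Pool.Agent.W_7d29a1_Q29 Pool.Agent.W_7d29a1_R34 Pool.Agent.W_7d29a1_SP
  Pool.Agent.W_7d29a1_SP.C79

variable {d : ℕ} {ρ : Measure ℝ}

/-- The law of the position at the time `t` of the polymer of length `t`. -/
noncomputable def w7 (β : ℝ) (h : Vec d) (t : ℕ) (y : Site d) (η : Env d) : ℝ :=
  PP β h η t y / Z β h η t

lemma w7_nn (hd : 0 < d) (β : ℝ) (h : Vec d) (t : ℕ) (y : Site d) (η : Env d) :
    0 ≤ w7 β h t y η := div_nonneg (PP_nonneg _ _ _ _ _) (Z_pos hd β h η t).le

lemma w7_le (hd : 0 < d) (β : ℝ) (h : Vec d) (t : ℕ) (y : Site d) (η : Env d) :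
    w7 β h t y η ≤ 1 := (div_le_one (Z_pos hd β h η t)).2 (PP_le_Z _ _ _ _ _)

lemma w7_sum (hd : 0 < d) (β : ℝ) (h : Vec d) (t : ℕ) (η : Env d) :
    ∑ y ∈ boxF d t, w7 β h t y η = 1 := by
  unfold w7
  rw [← Finset.sum_div, ← Z_eq_sum, div_self (Z_pos hd β h η t).ne']

lemma w7_meas (β : ℝ) (h : Vec d) (t : ℕ) (y : Site d) : Measurable (w7 β h t y) :=
  (S98.measurable_PP β h t y).div (measurable_Z β h t)

lemma w7_dep (β : ℝ) (h : Vec d) (t : ℕ) (y : Site d) : DependsOn (w7 β h t y) (Pa d t) := by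
  intro η η' hη
  have h1 : Z β h η t = Z β h η' t := S98.Z_dep β h t hη
  have h2 : PP β h η t y = PP β h η' t y := S98.PP_dep β h t y hη
  unfold w7
  rw [h1, h2]

/-- The number of end points. -/
lemma card7 (n : ℕ) : (0 : ℝ) < (boxF d n).card := by
  have h1 : (0 : Site d) ∈ boxF d n := by
    rw [mem_boxF]
    intro i
    simp
  exact_mod_cast Finset.card_pos.2 ⟨0, h1⟩

/-- The entropy of a probability vector. -/
lemma ent7 {κ : Type*} (S : Finset κ) (w : κ → ℝ) (h0 : ∀ y ∈ S, 0 ≤ w y)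
    (h1 : ∑ y ∈ S, w y = 1) : ∑ y ∈ S, Real.negMulLog (w y) ≤ Real.log S.card := by
  have hS : (0 : ℝ) < S.card := by
    rcases S.eq_empty_or_nonempty with h | h
    · rw [h, Finset.sum_empty] at h1
      exact absurd h1 (by norm_num)
    · exact_mod_cast Finset.card_pos.2 h
  have h2 : ∀ y ∈ S, Real.negMulLog (w y) ≤ w y * Real.log S.card + (1 / (S.card : ℝ) - w y) := by
    intro y hy
    rcases (h0 y hy).eq_or_lt with h | h
    · rw [← h, Real.negMulLog_zero]
      simp only [zero_mul, sub_zero, zero_add]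
      positivity
    · have h3 := Real.log_le_sub_one_of_pos (show 0 < 1 / ((S.card : ℝ) * w y) by positivity)
      rw [one_div, Real.log_inv, Real.log_mul hS.ne' h.ne'] at h3
      have h4 := mul_le_mul_of_nonneg_left h3 h.le
      have h5 : w y * (((S.card : ℝ) * w y)⁻¹ - 1) = 1 / (S.card : ℝ) - w y := by
        field_simp
      rw [h5] at h4
      unfold Real.negMulLog
      linarith
  refine (Finset.sum_le_sum h2).trans (le_of_eq ?_)
  rw [Finset.sum_add_distrib, ← Finset.sum_mul, Finset.sum_sub_distrib, h1, Finset.sum_const,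
    nsmul_eq_mul]
  field_simp
  ring

/-- The increment of the free energy against the free energy of the future of a site. -/
noncomputable def de7 (β : ℝ) (h : Vec d) (t k : ℕ) (y : Site d) (η : Env d) : ℝ :=
  X β h η (t + k) - X β h η t - X β h (sh t y η) k

lemma pe7 (hd : 0 < d) (β : ℝ) (h : Vec d) (t k : ℕ) (y : Site d) (η : Env d) :
    w7 β h t y η * |de7 β h t k y η| ≤
      w7 β h t y η * de7 β h t k y η + 2 * Real.negMulLog (w7 β h t y η) := by
  rcases (w7_nn hd β h t y η).eq_or_lt with h0 | h0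
  · rw [← h0]
    simp
  · have hZ := Z_pos hd β h η t
    have hZ' := Z_pos hd β h (sh t y η) k
    have h1 := PP_chainZ β h η t k y
    have h2 : w7 β h t y η * Z β h η t = PP β h η t y := by
      unfold w7
      rw [div_mul_cancel₀ _ hZ.ne']
    rw [← h2] at h1
    have h3 := Real.log_le_log (by positivity) h1
    rw [Real.log_mul (by positivity) hZ'.ne', Real.log_mul h0.ne' hZ.ne'] at h3
    have h4 : Real.log (w7 β h t y η) ≤ de7 β h t k y η := by
      unfold de7 X
      linarith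
    have h5 : Real.log (w7 β h t y η) ≤ 0 := Real.log_nonpos h0.le (w7_le hd β h t y η)
    have h6 : |de7 β h t k y η| ≤ de7 β h t k y η - 2 * Real.log (w7 β h t y η) := by
      rcases abs_cases (de7 β h t k y η) with h7 | h7 <;> linarith
    have h8 := mul_le_mul_of_nonneg_left h6 h0.le
    unfold Real.negMulLog
    linarith

lemma de7_int [IsProbabilityMeasure ρ] (hd : 0 < d) (hρ : EM ρ) (β : ℝ) (h : Vec d) (t k : ℕ)
    (y : Site d) : Integrable (de7 β h t k y) (law d ρ) :=
  ((concU hd hρ β h (t + k)).1.sub (concU hd hρ β h t).1).sub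
    ((mp_sh t y).integrable_comp_of_integrable (concU hd hρ β h k).1)

lemma de7_meas (β : ℝ) (h : Vec d) (t k : ℕ) (y : Site d) : Measurable (de7 β h t k y) :=
  ((measurable_X β h (t + k)).sub (measurable_X β h t)).sub
    ((measurable_X β h k).comp (measurable_sh t y))

lemma bi7 [IsProbabilityMeasure ρ] (hd : 0 < d) (β : ℝ) (h : Vec d) (t : ℕ)
    (y : Site d) {f : Env d → ℝ} (hf : Integrable f (law d ρ)) :
    Integrable (fun η => w7 β h t y η * f η) (law d ρ) :=
  hf.bdd_mul (c := 1) (w7_meas β h t y).aestronglyMeasurable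
    (Eventually.of_forall fun η => by
      rw [Real.norm_eq_abs, abs_of_nonneg (w7_nn hd β h t y η)]
      exact w7_le hd β h t y η)

/-- The mean of the weighted deviation. -/
noncomputable def Dv7 (ρ : Measure ℝ) (β : ℝ) (h : Vec d) (t k : ℕ) : ℝ :=
  ∫ η, ∑ y ∈ boxF d t, w7 β h t y η * |de7 β h t k y η| ∂(law d ρ)

lemma prod7 [IsProbabilityMeasure ρ] (hd : 0 < d) (β : ℝ) (h : Vec d) (t : ℕ)
    {f g : Env d → ℝ} (hf : Measurable f) (hfb : Integrable f (law d ρ))
    (hfd : DependsOn f (Pa d t)) (hg : Measurable g)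
    (hgd : ∀ y : Site d, DependsOn (fun η => g (sh t y η)) (Pa d t)ᶜ)
    (hbi : ∀ y : Site d, Integrable (fun η => w7 β h t y η * f η * g (sh t y η)) (law d ρ)) :
    ∫ η, ∑ y ∈ boxF d t, w7 β h t y η * f η * g (sh t y η) ∂(law d ρ) =
      (∫ η, f η ∂(law d ρ)) * ∫ η, g η ∂(law d ρ) := by
  have e1 : ∀ y ∈ boxF d t, ∫ η, w7 β h t y η * f η * g (sh t y η) ∂(law d ρ) =
      (∫ η, w7 β h t y η * f η ∂(law d ρ)) * ∫ η, g η ∂(law d ρ) := by
    intro y _
    have h1 := integral_indep (ρ := ρ) (Pa d t) (F := fun η => w7 β h t y η * f η)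
      (G := fun η => g (sh t y η)) ((w7_meas β h t y).mul hf)
      (hg.comp (measurable_sh t y)) (fun η η' hη => by
        have h2 := w7_dep β h t y hη
        have h3 := hfd hη
        show w7 β h t y η * f η = w7 β h t y η' * f η'
        rw [h2, h3]) (hgd y)
    rw [h1, integral_sh t y hg]
  rw [integral_finsetSum _ fun y _ => hbi y, Finset.sum_congr rfl e1, ← Finset.sum_mul,
    ← integral_finsetSum _ fun y _ => bi7 hd β h t y hfb]
  congr 1
  refine integral_congr_ae (Eventually.of_forall fun η => ?_)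
  show ∑ y ∈ boxF d t, w7 β h t y η * f η = f η
  rw [← Finset.sum_mul, w7_sum hd, one_mul]

lemma Dv7_le [IsProbabilityMeasure ρ] (hd : 0 < d) (hρ : EM ρ) (β : ℝ) (h : Vec d) (t k : ℕ) :
    Dv7 ρ β h t k ≤ A ρ β h (t + k) - A ρ β h t - A ρ β h k +
      2 * Real.log (boxF d t).card := by
  have hX : ∀ k, Integrable (fun η => X β h η k) (law d ρ) := fun k => (concU hd hρ β h k).1
  have hXs : ∀ y : Site d, Integrable (fun η => X β h (sh t y η) k) (law d ρ) := fun y =>
    (mp_sh t y).integrable_comp_of_integrable (hX k)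
  have i1 : Integrable (fun η => ∑ y ∈ boxF d t, w7 β h t y η * |de7 β h t k y η|)
      (law d ρ) := integrable_finsetSum _ fun y _ => bi7 hd β h t y (de7_int hd hρ β h t k y).abs
  have i2 : Integrable (fun η => ∑ y ∈ boxF d t, w7 β h t y η * X β h (sh t y η) k)
      (law d ρ) := integrable_finsetSum _ fun y _ => bi7 hd β h t y (hXs y)
  have h1 : ∀ η, ∑ y ∈ boxF d t, w7 β h t y η * |de7 β h t k y η| ≤
      (X β h η (t + k) - X β h η t - ∑ y ∈ boxF d t, w7 β h t y η * X β h (sh t y η) k) +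
        2 * Real.log (boxF d t).card := by
    intro η
    have h2 := Finset.sum_le_sum fun y (_ : y ∈ boxF d t) => pe7 hd β h t k y η
    rw [Finset.sum_add_distrib, ← Finset.mul_sum] at h2
    have h3 := ent7 (boxF d t) (fun y => w7 β h t y η) (fun y _ => w7_nn hd β h t y η)
      (w7_sum hd β h t η)
    have h4 : ∑ y ∈ boxF d t, w7 β h t y η * de7 β h t k y η =
        X β h η (t + k) - X β h η t - ∑ y ∈ boxF d t, w7 β h t y η * X β h (sh t y η) k := by
      unfold de7
      simp only [mul_sub, Finset.sum_sub_distrib]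
      rw [← Finset.sum_mul, ← Finset.sum_mul, w7_sum hd, one_mul, one_mul]
    linarith
  have i3 : Integrable (fun η => (X β h η (t + k) - X β h η t -
      ∑ y ∈ boxF d t, w7 β h t y η * X β h (sh t y η) k) + 2 * Real.log (boxF d t).card)
      (law d ρ) := (((hX (t + k)).sub (hX t)).sub i2).add (integrable_const _)
  have h5 := integral_mono i1 i3 h1
  have e1 := prod7 (ρ := ρ) hd β h t (f := fun _ => 1) (g := fun η => X β h η k)
    measurable_const (integrable_const _) (fun _ _ _ => rfl) (measurable_X β h k)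
    (fun y => FreeU_dep2 β h t k y) (fun y => by simpa using bi7 hd β h t y (hXs y))
  simp only [mul_one, integral_const, probReal_univ, smul_eq_mul, one_mul] at e1
  have e2 : ∫ η, ((X β h η (t + k) - X β h η t -
      ∑ y ∈ boxF d t, w7 β h t y η * X β h (sh t y η) k) + 2 * Real.log (boxF d t).card)
      ∂(law d ρ) = A ρ β h (t + k) - A ρ β h t - A ρ β h k + 2 * Real.log (boxF d t).card := by
    have j1 : Integrable (fun η => X β h η (t + k) - X β h η t) (law d ρ) :=
      (hX (t + k)).sub (hX t)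
    have j2 : Integrable (fun η => X β h η (t + k) - X β h η t -
        ∑ y ∈ boxF d t, w7 β h t y η * X β h (sh t y η) k) (law d ρ) := j1.sub i2
    rw [integral_add j2 (integrable_const _), integral_sub j1 i2,
      integral_sub (hX (t + k)) (hX t), e1, integral_const, probReal_univ, one_smul]
    rfl
  rw [e2] at h5
  exact h5

/-- The characteristic function. -/
noncomputable def ph7 (ρ : Measure ℝ) (β : ℝ) (h : Vec d) (τ : ℝ) (n : ℕ) : ℂ :=
  ⟨∫ η, Real.cos (τ * X β h η n) ∂(law d ρ), ∫ η, Real.sin (τ * X β h η n) ∂(law d ρ)⟩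

lemma cos_int [IsProbabilityMeasure ρ] {f : Env d → ℝ} (hf : Measurable f) :
    Integrable (fun η => Real.cos (f η)) (law d ρ) :=
  (integrable_const (1 : ℝ)).mono' (Real.measurable_cos.comp hf).aestronglyMeasurable
    (Eventually.of_forall fun η => by
      rw [Real.norm_eq_abs]
      exact Real.abs_cos_le_one _)

lemma sin_int [IsProbabilityMeasure ρ] {f : Env d → ℝ} (hf : Measurable f) :
    Integrable (fun η => Real.sin (f η)) (law d ρ) :=
  (integrable_const (1 : ℝ)).mono' (Real.measurable_sin.comp hf).aestronglyMeasurable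
    (Eventually.of_forall fun η => by
      rw [Real.norm_eq_abs]
      exact Real.abs_sin_le_one _)

/-- A Lipschitz function of the free energy against the same function of the sum of two
independent free energies. -/
lemma lip7 [IsProbabilityMeasure ρ] (hd : 0 < d) (hρ : EM ρ) (β : ℝ) (h : Vec d) (τ : ℝ)
    (t k : ℕ) {G : ℝ → ℝ} (hG : Measurable G) (hb : ∀ u, |G u| ≤ 1)
    (hL : ∀ u v, |G u - G v| ≤ |u - v|) :
    |∫ η, G (τ * X β h η (t + k)) ∂(law d ρ) -
      ∫ η, ∑ y ∈ boxF d t, w7 β h t y η * G (τ * X β h η t + τ * X β h (sh t y η) k)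
        ∂(law d ρ)| ≤ |τ| * Dv7 ρ β h t k := by
  have hGi : ∀ {f : Env d → ℝ}, Measurable f → Integrable (fun η => G (f η)) (law d ρ) :=
    fun {f} hf => (integrable_const (1 : ℝ)).mono' (hG.comp hf).aestronglyMeasurable
      (Eventually.of_forall fun η => by
        rw [Real.norm_eq_abs]
        exact hb _)
  have m1 : ∀ y : Site d, Measurable fun η : Env d => τ * X β h η t + τ * X β h (sh t y η) k :=
    fun y => ((measurable_X β h t).const_mul τ).add
      (((measurable_X β h k).comp (measurable_sh t y)).const_mul τ)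
  have i1 : Integrable (fun η => G (τ * X β h η (t + k))) (law d ρ) :=
    hGi ((measurable_X β h (t + k)).const_mul τ)
  have i2 : Integrable (fun η => ∑ y ∈ boxF d t, w7 β h t y η *
      G (τ * X β h η t + τ * X β h (sh t y η) k)) (law d ρ) :=
    integrable_finsetSum _ fun y _ => bi7 hd β h t y (hGi (m1 y))
  have i3 : Integrable (fun η => |τ| * ∑ y ∈ boxF d t, w7 β h t y η * |de7 β h t k y η|)
      (law d ρ) := (integrable_finsetSum _ fun y _ =>
        bi7 hd β h t y (de7_int hd hρ β h t k y).abs).const_mul _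
  rw [← integral_sub i1 i2]
  unfold Dv7
  rw [← integral_const_mul]
  refine (abs_integral_le_integral_abs).trans (integral_mono (i1.sub i2).abs i3 fun η => ?_)
  have h1 : G (τ * X β h η (t + k)) = ∑ y ∈ boxF d t, w7 β h t y η * G (τ * X β h η (t + k)) := by
    rw [← Finset.sum_mul, w7_sum hd, one_mul]
  show |G (τ * X β h η (t + k)) - ∑ y ∈ boxF d t, w7 β h t y η *
    G (τ * X β h η t + τ * X β h (sh t y η) k)| ≤
    |τ| * ∑ y ∈ boxF d t, w7 β h t y η * |de7 β h t k y η|
  rw [h1, ← Finset.sum_sub_distrib, Finset.mul_sum]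
  refine (Finset.abs_sum_le_sum_abs _ _).trans (Finset.sum_le_sum fun y _ => ?_)
  rw [← mul_sub, abs_mul, abs_of_nonneg (w7_nn hd β h t y η)]
  have h2 := hL (τ * X β h η (t + k)) (τ * X β h η t + τ * X β h (sh t y η) k)
  have h3 : τ * X β h η (t + k) - (τ * X β h η t + τ * X β h (sh t y η) k) =
      τ * de7 β h t k y η := by
    unfold de7
    ring
  rw [h3, abs_mul] at h2
  have h4 := mul_le_mul_of_nonneg_left h2 (w7_nn hd β h t y η)
  linarith

/-- The characteristic function is almost multiplicative. -/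
theorem phi7 [IsProbabilityMeasure ρ] (hd : 0 < d) (hρ : EM ρ) (β : ℝ) (h : Vec d) (τ : ℝ)
    (t k : ℕ) : ‖ph7 ρ β h τ (t + k)‖ ≤ ‖ph7 ρ β h τ t‖ * ‖ph7 ρ β h τ k‖ +
      2 * |τ| * (A ρ β h (t + k) - A ρ β h t - A ρ β h k + 2 * Real.log (boxF d t).card) := by
  have mt : Measurable fun η : Env d => τ * X β h η t := (measurable_X β h t).const_mul τ
  have mk : Measurable fun η : Env d => τ * X β h η k := (measurable_X β h k).const_mul τ
  have mks : ∀ y : Site d, Measurable fun η : Env d => τ * X β h (sh t y η) k := fun y =>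
    ((measurable_X β h k).comp (measurable_sh t y)).const_mul τ
  have hdt : ∀ (G : ℝ → ℝ), DependsOn (fun η : Env d => G (τ * X β h η t)) (Pa d t) := by
    intro G η η' hη
    have h1 : Z β h η t = Z β h η' t := S98.Z_dep β h t hη
    show G (τ * X β h η t) = G (τ * X β h η' t)
    unfold X
    rw [h1]
  have hdk : ∀ (G : ℝ → ℝ) (y : Site d),
      DependsOn (fun η : Env d => G (τ * X β h (sh t y η) k)) (Pa d t)ᶜ := by
    intro G y η η' hη
    have h1 : X β h (sh t y η) k = X β h (sh t y η') k := FreeU_dep2 β h t k y hη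
    show G (τ * X β h (sh t y η) k) = G (τ * X β h (sh t y η') k)
    rw [h1]
  have hbd : ∀ {F G : ℝ → ℝ}, Measurable F → Measurable G → (∀ u, |F u| ≤ 1) →
      (∀ u, |G u| ≤ 1) → ∀ y : Site d, Integrable (fun η => w7 β h t y η *
        F (τ * X β h η t) * G (τ * X β h (sh t y η) k)) (law d ρ) := by
    intro F G hF hG hF1 hG1 y
    refine (integrable_const (1 : ℝ)).mono'
      (((w7_meas β h t y).mul (hF.comp mt)).mul (hG.comp (mks y))).aestronglyMeasurable
      (Eventually.of_forall fun η => ?_)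
    rw [Real.norm_eq_abs, abs_mul, abs_mul, abs_of_nonneg (w7_nn hd β h t y η)]
    exact mul_le_one₀ (mul_le_one₀ (w7_le hd β h t y η) (abs_nonneg _) (hF1 _)) (abs_nonneg _)
      (hG1 _)
  have hpr : ∀ {F G : ℝ → ℝ}, Measurable F → Measurable G → (∀ u, |F u| ≤ 1) →
      (∀ u, |G u| ≤ 1) → ∫ η, ∑ y ∈ boxF d t, w7 β h t y η * F (τ * X β h η t) *
        G (τ * X β h (sh t y η) k) ∂(law d ρ) =
        (∫ η, F (τ * X β h η t) ∂(law d ρ)) * ∫ η, G (τ * X β h η k) ∂(law d ρ) := by
    intro F G hF hG hF1 hG1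
    exact prod7 (ρ := ρ) hd β h t (f := fun η => F (τ * X β h η t))
      (g := fun η => G (τ * X β h η k)) (hF.comp mt)
      ((integrable_const (1 : ℝ)).mono' (hF.comp mt).aestronglyMeasurable
        (Eventually.of_forall fun η => by rw [Real.norm_eq_abs]; exact hF1 _))
      (hdt F) (hG.comp mk)
      (hdk G) (hbd hF hG hF1 hG1)
  have his : ∀ {F G : ℝ → ℝ}, Measurable F → Measurable G → (∀ u, |F u| ≤ 1) →
      (∀ u, |G u| ≤ 1) → Integrable (fun η => ∑ y ∈ boxF d t, w7 β h t y η *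
        F (τ * X β h η t) * G (τ * X β h (sh t y η) k)) (law d ρ) := by
    intro F G hF hG hF1 hG1
    exact integrable_finsetSum _ fun y _ => hbd hF hG hF1 hG1 y
  have mc := Real.measurable_cos
  have ms := Real.measurable_sin
  have c1 := fun u => Real.abs_cos_le_one u
  have s1 := fun u => Real.abs_sin_le_one u
  have e1 : ∫ η, ∑ y ∈ boxF d t, w7 β h t y η *
      Real.cos (τ * X β h η t + τ * X β h (sh t y η) k) ∂(law d ρ) =
      (ph7 ρ β h τ t * ph7 ρ β h τ k).re := by
    have h1 : ∀ η : Env d, ∑ y ∈ boxF d t, w7 β h t y η *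
        Real.cos (τ * X β h η t + τ * X β h (sh t y η) k) =
        ∑ y ∈ boxF d t, w7 β h t y η * Real.cos (τ * X β h η t) *
          Real.cos (τ * X β h (sh t y η) k) -
        ∑ y ∈ boxF d t, w7 β h t y η * Real.sin (τ * X β h η t) *
          Real.sin (τ * X β h (sh t y η) k) := by
      intro η
      rw [← Finset.sum_sub_distrib]
      refine Finset.sum_congr rfl fun y _ => ?_
      rw [Real.cos_add]
      ring
    rw [integral_congr_ae (Eventually.of_forall h1), integral_sub (his mc mc c1 c1)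
      (his ms ms s1 s1), hpr mc mc c1 c1, hpr ms ms s1 s1, Complex.mul_re]
    rfl
  have e2 : ∫ η, ∑ y ∈ boxF d t, w7 β h t y η *
      Real.sin (τ * X β h η t + τ * X β h (sh t y η) k) ∂(law d ρ) =
      (ph7 ρ β h τ t * ph7 ρ β h τ k).im := by
    have h1 : ∀ η : Env d, ∑ y ∈ boxF d t, w7 β h t y η *
        Real.sin (τ * X β h η t + τ * X β h (sh t y η) k) =
        ∑ y ∈ boxF d t, w7 β h t y η * Real.cos (τ * X β h η t) *
          Real.sin (τ * X β h (sh t y η) k) +
        ∑ y ∈ boxF d t, w7 β h t y η * Real.sin (τ * X β h η t) *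
          Real.cos (τ * X β h (sh t y η) k) := by
      intro η
      rw [← Finset.sum_add_distrib]
      refine Finset.sum_congr rfl fun y _ => ?_
      rw [Real.sin_add]
      ring
    rw [integral_congr_ae (Eventually.of_forall h1), integral_add (his mc ms c1 s1)
      (his ms mc s1 c1), hpr mc ms c1 s1, hpr ms mc s1 c1, Complex.mul_im]
    rfl
  have l1 := lip7 (ρ := ρ) hd hρ β h τ t k mc c1 Real.abs_cos_sub_cos_le
  have l2 := lip7 (ρ := ρ) hd hρ β h τ t k ms s1 Real.abs_sin_sub_sin_le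
  rw [e1] at l1
  rw [e2] at l2
  have l3 : ‖ph7 ρ β h τ (t + k) - ph7 ρ β h τ t * ph7 ρ β h τ k‖ ≤
      2 * |τ| * Dv7 ρ β h t k := by
    refine (Complex.norm_le_abs_re_add_abs_im _).trans ?_
    rw [Complex.sub_re, Complex.sub_im]
    have h1 : (ph7 ρ β h τ (t + k)).re = ∫ η, Real.cos (τ * X β h η (t + k)) ∂(law d ρ) := rfl
    have h2 : (ph7 ρ β h τ (t + k)).im = ∫ η, Real.sin (τ * X β h η (t + k)) ∂(law d ρ) := rfl
    rw [h1, h2]
    linarith
  have l4 : 2 * |τ| * Dv7 ρ β h t k ≤ 2 * |τ| *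
      (A ρ β h (t + k) - A ρ β h t - A ρ β h k + 2 * Real.log (boxF d t).card) :=
    mul_le_mul_of_nonneg_left (Dv7_le hd hρ β h t k) (by positivity)
  have l5 : ‖ph7 ρ β h τ (t + k)‖ ≤ ‖ph7 ρ β h τ t * ph7 ρ β h τ k‖ +
      ‖ph7 ρ β h τ (t + k) - ph7 ρ β h τ t * ph7 ρ β h τ k‖ := by
    have := norm_add_le (ph7 ρ β h τ t * ph7 ρ β h τ k)
      (ph7 ρ β h τ (t + k) - ph7 ρ β h τ t * ph7 ρ β h τ k)
    rwa [add_sub_cancel] at this
  rw [norm_mul] at l5
  linarith

/-! The characteristic function at small frequencies. -/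

lemma one_sub_cos7 (u : ℝ) {s : ℝ} (hs : 0 ≤ s) :
    (2 * s * |u| - s ^ 2) / 4 - s / 2 * u ^ 2 ≤ 1 - Real.cos u := by
  have h0 : |u| ^ 2 = u ^ 2 := sq_abs u
  rcases le_or_gt |u| 1 with h1 | h1
  · have h2 := Real.cos_bound h1
    have h3 := (abs_le.1 h2).2
    have h4 : |u| ^ 4 ≤ |u| ^ 2 := pow_le_pow_of_le_one (abs_nonneg _) h1 (by norm_num)
    nlinarith [sq_nonneg (|u| - s), mul_nonneg hs (sq_nonneg u), sq_nonneg u]
  · have h2 := Real.cos_le_one u
    have h3 : |u| ≤ u ^ 2 := by nlinarith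
    nlinarith [mul_le_mul_of_nonneg_left h3 hs, sq_nonneg s]

lemma sin_sub7 (u : ℝ) : |Real.sin u - u| ≤ 2 * u ^ 2 := by
  have key : ∀ v : ℝ, 0 ≤ v → |Real.sin v - v| ≤ 2 * v ^ 2 := by
    intro v hv
    rcases hv.eq_or_lt with h0 | h0
    · rw [← h0]
      simp
    · have h1 := Real.sin_lt h0
      rw [abs_of_neg (by linarith)]
      rcases le_or_gt v 1 with h2 | h2
      · have h3 := Real.sin_gt_sub_cube h0
        have h4 : v ^ 3 ≤ v ^ 2 := pow_le_pow_of_le_one h0.le h2 (by norm_num)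
        nlinarith [sq_nonneg v]
      · have h3 := Real.neg_one_le_sin v
        nlinarith
  rcases le_total 0 u with h | h
  · exact key u h
  · have h1 := key (-u) (by linarith)
    rw [Real.sin_neg] at h1
    rw [show Real.sin u - u = -(-Real.sin u - -u) by ring, abs_neg]
    refine h1.trans (le_of_eq ?_)
    ring

lemma center7 [IsProbabilityMeasure ρ] (β : ℝ) (h : Vec d) (τ : ℝ) (n : ℕ) :
    ‖ph7 ρ β h τ n‖ ^ 2 =
      (∫ η, Real.cos (τ * (X β h η n - A ρ β h n)) ∂(law d ρ)) ^ 2 +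
      (∫ η, Real.sin (τ * (X β h η n - A ρ β h n)) ∂(law d ρ)) ^ 2 := by
  have mY : Measurable fun η : Env d => τ * (X β h η n - A ρ β h n) :=
    ((measurable_X β h n).sub_const _).const_mul τ
  set θ := τ * A ρ β h n with hθ
  set c := ∫ η, Real.cos (τ * (X β h η n - A ρ β h n)) ∂(law d ρ) with hc
  set s := ∫ η, Real.sin (τ * (X β h η n - A ρ β h n)) ∂(law d ρ) with hs
  have ic := cos_int (ρ := ρ) mY
  have is := sin_int (ρ := ρ) mY
  have e1 : (ph7 ρ β h τ n).re = c * Real.cos θ - s * Real.sin θ := by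
    have h1 : ∀ η : Env d, Real.cos (τ * X β h η n) =
        Real.cos (τ * (X β h η n - A ρ β h n)) * Real.cos θ -
          Real.sin (τ * (X β h η n - A ρ β h n)) * Real.sin θ := by
      intro η
      rw [← Real.cos_add]
      congr 1
      rw [hθ]
      ring
    show ∫ η, Real.cos (τ * X β h η n) ∂(law d ρ) = _
    rw [integral_congr_ae (Eventually.of_forall h1), integral_sub (ic.mul_const _)
      (is.mul_const _), integral_mul_const, integral_mul_const]
  have e2 : (ph7 ρ β h τ n).im = s * Real.cos θ + c * Real.sin θ := by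
    have h1 : ∀ η : Env d, Real.sin (τ * X β h η n) =
        Real.sin (τ * (X β h η n - A ρ β h n)) * Real.cos θ +
          Real.cos (τ * (X β h η n - A ρ β h n)) * Real.sin θ := by
      intro η
      rw [← Real.sin_add]
      congr 1
      rw [hθ]
      ring
    show ∫ η, Real.sin (τ * X β h η n) ∂(law d ρ) = _
    rw [integral_congr_ae (Eventually.of_forall h1), integral_add (is.mul_const _)
      (ic.mul_const _), integral_mul_const, integral_mul_const]
  rw [Complex.sq_norm, Complex.normSq_apply, e1, e2]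
  have h2 := Real.sin_sq_add_cos_sq θ
  linear_combination (c ^ 2 + s ^ 2) * h2

/-- The characteristic function at the frequency `τ`. -/
lemma small7 [IsProbabilityMeasure ρ] (hd : 0 < d) (hρ : EM ρ) (β : ℝ) (h : Vec d) (m : ℕ)
    {τ x C : ℝ} (hτ : 0 ≤ τ) (hx : 0 ≤ x) (hC : 1 ≤ C) (hs : τ * x * C ≤ 1 / 8)
    (hF : x ≤ Fn ρ β h m) (hV : Va ρ β h m ≤ C * x ^ 2) :
    ‖ph7 ρ β h τ m‖ ≤ 1 - (τ * x) ^ 2 / 32 := by
  have hi := intX15 (ρ := ρ) hd hρ β h m
  have hi2 := N85.Va_int (ρ := ρ) hd hρ β h m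
  have mY : Measurable fun η : Env d => τ * (X β h η m - A ρ β h m) :=
    ((measurable_X β h m).sub_const _).const_mul τ
  have ic := cos_int (ρ := ρ) mY
  have is := sin_int (ρ := ρ) mY
  have hst : 0 ≤ τ * x := mul_nonneg hτ hx
  have hst1 : τ * x ≤ 1 / 8 := by nlinarith
  have hV0 : 0 ≤ Va ρ β h m := integral_nonneg fun _ => sq_nonneg _
  have hVt : τ ^ 2 * Va ρ β h m ≤ (τ * x) * (τ * x * C) := by
    nlinarith [mul_le_mul_of_nonneg_left hV (sq_nonneg τ)]
  have hVt2 : τ ^ 2 * Va ρ β h m ≤ (τ * x) / 8 := by nlinarith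
  set c := ∫ η, Real.cos (τ * (X β h η m - A ρ β h m)) ∂(law d ρ) with hc
  set s := ∫ η, Real.sin (τ * (X β h η m - A ρ β h m)) ∂(law d ρ) with hs'
  -- the cosine
  have c1 : (τ * x) ^ 2 / 8 ≤ 1 - c := by
    have h1 : ∀ η : Env d, (2 * (τ * x) * (τ * |X β h η m - A ρ β h m|) - (τ * x) ^ 2) / 4 -
        (τ * x) / 2 * (τ ^ 2 * (X β h η m - A ρ β h m) ^ 2) ≤
        1 - Real.cos (τ * (X β h η m - A ρ β h m)) := by
      intro η
      have h2 := one_sub_cos7 (τ * (X β h η m - A ρ β h m)) hst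
      rw [abs_mul, abs_of_nonneg hτ] at h2
      refine le_trans (le_of_eq ?_) h2
      ring
    have i1 : Integrable (fun η : Env d => (2 * (τ * x) * (τ * |X β h η m - A ρ β h m|) -
        (τ * x) ^ 2) / 4 - (τ * x) / 2 * (τ ^ 2 * (X β h η m - A ρ β h m) ^ 2)) (law d ρ) :=
      ((((hi.abs.const_mul τ).const_mul _).sub (integrable_const _)).div_const 4).sub
        ((hi2.const_mul _).const_mul _)
    have h3 := integral_mono i1 ((integrable_const (1 : ℝ)).sub ic) h1
    have j1 : Integrable (fun η : Env d => 2 * (τ * x) * (τ * |X β h η m - A ρ β h m|))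
        (law d ρ) := (hi.abs.const_mul τ).const_mul _
    have j2 : Integrable (fun η : Env d => (2 * (τ * x) * (τ * |X β h η m - A ρ β h m|) -
        (τ * x) ^ 2) / 4) (law d ρ) := (j1.sub (integrable_const _)).div_const 4
    have j3 : Integrable (fun η : Env d => (τ * x) / 2 * (τ ^ 2 *
        (X β h η m - A ρ β h m) ^ 2)) (law d ρ) := (hi2.const_mul _).const_mul _
    rw [integral_sub j2 j3, integral_div, integral_sub j1 (integrable_const _),
      integral_const_mul, integral_const_mul, integral_const_mul, integral_const_mul,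
      integral_const, probReal_univ, one_smul] at h3
    have h4 : ∫ η, (1 - Real.cos (τ * (X β h η m - A ρ β h m))) ∂(law d ρ) = 1 - c := by
      rw [integral_sub (integrable_const _) ic, integral_const, probReal_univ, one_smul]
    have h5 : (2 * (τ * x) * (τ * Fn ρ β h m) - (τ * x) ^ 2) / 4 -
        (τ * x) / 2 * (τ ^ 2 * Va ρ β h m) ≤ 1 - c := by
      rw [← h4]
      exact h3
    have h6 : τ * x ≤ τ * Fn ρ β h m := mul_le_mul_of_nonneg_left hF hτ
    have h7 : (τ * x) * (τ * x) ≤ (τ * x) * (τ * Fn ρ β h m) := mul_le_mul_of_nonneg_left h6 hst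
    have h8 : (τ * x) * (τ ^ 2 * Va ρ β h m) ≤ (τ * x) * ((τ * x) / 8) :=
      mul_le_mul_of_nonneg_left hVt2 hst
    nlinarith
  have c2 : 0 ≤ c := by
    have h1 : ∀ η : Env d, 1 - τ ^ 2 * (X β h η m - A ρ β h m) ^ 2 / 2 ≤
        Real.cos (τ * (X β h η m - A ρ β h m)) := by
      intro η
      have h2 := Real.one_sub_sq_div_two_le_cos (x := τ * (X β h η m - A ρ β h m))
      rwa [mul_pow] at h2
    have j1 : Integrable (fun η : Env d => τ ^ 2 * (X β h η m - A ρ β h m) ^ 2 / 2)
        (law d ρ) := (hi2.const_mul _).div_const 2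
    have h3 := integral_mono ((integrable_const (1 : ℝ)).sub j1) ic h1
    have h4 : ∫ η, (1 - τ ^ 2 * (X β h η m - A ρ β h m) ^ 2 / 2) ∂(law d ρ) =
        1 - τ ^ 2 * Va ρ β h m / 2 := by
      rw [integral_sub (integrable_const _) j1, integral_const, probReal_univ, one_smul,
        integral_div, integral_const_mul]
      rfl
    have h5 : 1 - τ ^ 2 * Va ρ β h m / 2 ≤ c := by
      rw [← h4]
      exact h3
    linarith
  have c3 : c ≤ 1 := by
    have := sq_nonneg (τ * x)
    linarith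
  -- the sine
  have s1 : |s| ≤ 2 * (τ ^ 2 * Va ρ β h m) := by
    have h0 : ∫ η, τ * (X β h η m - A ρ β h m) ∂(law d ρ) = 0 := by
      rw [integral_const_mul, mean15 hd hρ β h m, mul_zero]
    have h1 : s = ∫ η, (Real.sin (τ * (X β h η m - A ρ β h m)) -
        τ * (X β h η m - A ρ β h m)) ∂(law d ρ) := by
      rw [integral_sub is (hi.const_mul τ), h0, sub_zero]
    rw [h1]
    have i3 : Integrable (fun η : Env d => 2 * (τ ^ 2 * (X β h η m - A ρ β h m) ^ 2))
        (law d ρ) := (hi2.const_mul _).const_mul _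
    have h2 : 2 * (τ ^ 2 * Va ρ β h m) =
        ∫ η, 2 * (τ ^ 2 * (X β h η m - A ρ β h m) ^ 2) ∂(law d ρ) := by
      rw [integral_const_mul, integral_const_mul]
      rfl
    rw [h2]
    refine (abs_integral_le_integral_abs).trans (integral_mono (is.sub (hi.const_mul τ)).abs i3
      fun η => ?_)
    have h3 := sin_sub7 (τ * (X β h η m - A ρ β h m))
    rw [mul_pow] at h3
    exact h3
  have s2 : s ^ 2 ≤ (τ * x) ^ 2 / 16 := by
    have h1 : |s| ≤ (τ * x) / 4 := by linarith
    have h2 := pow_le_pow_left₀ (abs_nonneg s) h1 2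
    rw [sq_abs] at h2
    nlinarith
  have h1 := center7 (ρ := ρ) β h τ m
  have h2 : ‖ph7 ρ β h τ m‖ ^ 2 ≤ (1 - (τ * x) ^ 2 / 32) ^ 2 := by
    rw [h1]
    nlinarith [sq_nonneg ((τ * x) ^ 2)]
  have h3 : 0 ≤ 1 - (τ * x) ^ 2 / 32 := by nlinarith
  exact abs_le_of_sq_le_sq' h2 h3 |>.2

lemma logcard7 {a b : ℕ} (hab : a ≤ b) :
    Real.log (boxF d a).card ≤ Real.log (boxF d b).card :=
  Real.log_le_log (card7 a) (by exact_mod_cast Finset.card_le_card (S98.boxF_mono hab))

/-- The iteration of `phi7`. -/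
lemma iter7 [IsProbabilityMeasure ρ] (hd : 0 < d) (hρ : EM ρ) (β : ℝ) (h : Vec d) (m R : ℕ)
    {τ a : ℝ} (ha1 : a ≤ 1) (hm : ‖ph7 ρ β h τ m‖ ≤ a) :
    ∀ r : ℕ, 1 ≤ r → r ≤ R → ‖ph7 ρ β h τ (r * m)‖ ≤ a ^ r +
      2 * |τ| * (A ρ β h (r * m) - r * A ρ β h m + r * (2 * Real.log (boxF d (R * m)).card)) ∧
      0 ≤ A ρ β h (r * m) - r * A ρ β h m := by
  have ha0 : 0 ≤ a := (norm_nonneg _).trans hm
  have hL : 0 ≤ Real.log (boxF d (R * m)).card := Real.log_natCast_nonneg _
  intro r hr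
  induction r, hr using Nat.le_induction with
  | base =>
    intro _
    rw [one_mul, pow_one]
    refine ⟨?_, by simp⟩
    have h1 : 0 ≤ 2 * |τ| * (A ρ β h m - ((1 : ℕ) : ℝ) * A ρ β h m +
        ((1 : ℕ) : ℝ) * (2 * Real.log (boxF d (R * m)).card)) := by
      rw [Nat.cast_one, one_mul, sub_self, zero_add, one_mul]
      positivity
    linarith
  | succ r hr ih =>
    intro hR
    obtain ⟨h1, h2⟩ := ih (by omega)
    have h3 := phi7 (ρ := ρ) hd hρ β h τ (r * m) m
    have h4 := A_add_le (ρ := ρ) hd hρ β h (r * m) m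
    have h5 : (r + 1) * m = r * m + m := by ring
    have h6 := logcard7 (d := d) (Nat.mul_le_mul_right m (show r ≤ R by omega))
    rw [h5]
    push_cast
    refine ⟨?_, by linarith⟩
    have hτ : 0 ≤ 2 * |τ| := by positivity
    have h7 : ‖ph7 ρ β h τ (r * m)‖ * ‖ph7 ρ β h τ m‖ ≤ a ^ (r + 1) + 2 * |τ| *
        (A ρ β h (r * m) - r * A ρ β h m + r * (2 * Real.log (boxF d (R * m)).card)) := by
      have e0 : 0 ≤ 2 * |τ| * (A ρ β h (r * m) - r * A ρ β h m +
          r * (2 * Real.log (boxF d (R * m)).card)) := by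
        refine mul_nonneg hτ (add_nonneg h2 ?_)
        positivity
      calc ‖ph7 ρ β h τ (r * m)‖ * ‖ph7 ρ β h τ m‖ ≤ (a ^ r + 2 * |τ| *
          (A ρ β h (r * m) - r * A ρ β h m + r * (2 * Real.log (boxF d (R * m)).card))) * a :=
            mul_le_mul h1 hm (norm_nonneg _) (add_nonneg (pow_nonneg ha0 _) e0)
        _ ≤ _ := by
            rw [add_mul, pow_succ]
            have := mul_le_of_le_one_right e0 ha1
            linarith
    have h8 : 2 * |τ| * (A ρ β h (r * m + m) - A ρ β h (r * m) - A ρ β h m +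
        2 * Real.log (boxF d (r * m)).card) ≤ 2 * |τ| * (A ρ β h (r * m + m) -
        A ρ β h (r * m) - A ρ β h m + 2 * Real.log (boxF d (R * m)).card) :=
      mul_le_mul_of_nonneg_left (by linarith) hτ
    refine (h3.trans (add_le_add h7 h8)).trans (le_of_eq ?_)
    ring

/-- If the characteristic function is small then the random fluctuation is large. -/
lemma big7 [IsProbabilityMeasure ρ] (hd : 0 < d) (hρ : EM ρ) (β : ℝ) (h : Vec d) (n : ℕ)
    {τ : ℝ} (hτ : 0 ≤ τ) (hp : ‖ph7 ρ β h τ n‖ ≤ 1 / 2) : 1 / 2 ≤ τ * Fn ρ β h n := by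
  have hi := intX15 (ρ := ρ) hd hρ β h n
  have mY : Measurable fun η : Env d => τ * (X β h η n - A ρ β h n) :=
    ((measurable_X β h n).sub_const _).const_mul τ
  have ic := cos_int (ρ := ρ) mY
  have h1 := center7 (ρ := ρ) β h τ n
  set c := ∫ η, Real.cos (τ * (X β h η n - A ρ β h n)) ∂(law d ρ) with hc
  set s := ∫ η, Real.sin (τ * (X β h η n - A ρ β h n)) ∂(law d ρ) with hs'
  have h2 : c ≤ 1 / 2 := by
    have h3 : c ^ 2 ≤ (1 / 2 : ℝ) ^ 2 := by
      have h4 := pow_le_pow_left₀ (norm_nonneg _) hp 2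
      nlinarith [sq_nonneg s]
    exact (abs_le_of_sq_le_sq' h3 (by norm_num)).2
  have h4 : ∀ η : Env d, 1 - τ * |X β h η n - A ρ β h n| ≤
      Real.cos (τ * (X β h η n - A ρ β h n)) := by
    intro η
    have h5 := Real.abs_cos_sub_cos_le (τ * (X β h η n - A ρ β h n)) 0
    rw [Real.cos_zero, sub_zero, abs_mul, abs_of_nonneg hτ] at h5
    linarith [(abs_le.1 h5).1]
  have h6 := integral_mono ((integrable_const (1 : ℝ)).sub (hi.abs.const_mul τ)) ic h4
  have h7 : ∫ η, (1 - τ * |X β h η n - A ρ β h n|) ∂(law d ρ) = 1 - τ * Fn ρ β h n := by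
    rw [integral_sub (integrable_const _) (hi.abs.const_mul τ), integral_const, probReal_univ,
      one_smul, integral_const_mul]
    rfl
  have h8 : 1 - τ * Fn ρ β h n ≤ c := by
    rw [← h7]
    exact h6
  linarith

/-- **EXC.** If the nonrandom fluctuation at `m` is small against the random one, and the variance
is of the order of the square of the random fluctuation, then the random fluctuation grows like a
square root: at `b ^ 2 * m` it is at least `b x / 16`. -/
theorem exc7 [IsProbabilityMeasure ρ] (hd : 0 < d) (hρ : EM ρ) (β : ℝ) (h : Vec d) (m b : ℕ)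
    {x C : ℝ} (hx : 0 < x) (hC : 1 ≤ C) (hb : 64 * C ≤ b) (hF : x ≤ Fn ρ β h m)
    (hV : Va ρ β h m ≤ C * x ^ 2)
    (hE : 64 * b * (En ρ β h m + 2 * Real.log (boxF d (b ^ 2 * m)).card) ≤ x) :
    b * x / 16 ≤ Fn ρ β h (b ^ 2 * m) := by
  have hb0 : (0 : ℝ) < b := by linarith
  have hb1 : 1 ≤ b := by exact_mod_cast (show (1 : ℝ) ≤ b by linarith)
  set τ : ℝ := 8 / (b * x) with hτ
  have hτ0 : 0 < τ := by positivity
  have hτx : τ * x = 8 / b := by
    rw [hτ]
    field_simp
  have hs : τ * x * C ≤ 1 / 8 := by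
    rw [hτx, div_mul_eq_mul_div, div_le_div_iff₀ hb0 (by norm_num)]
    linarith
  have h1 := small7 (ρ := ρ) hd hρ β h m hτ0.le hx.le hC hs hF hV
  have h2 : 1 - (τ * x) ^ 2 / 32 ≤ 1 := by
    have := sq_nonneg (τ * x)
    linarith
  obtain ⟨h3, -⟩ := iter7 (ρ := ρ) hd hρ β h m (b ^ 2) h2 h1 (b ^ 2) (Nat.one_le_pow _ _ hb1)
    le_rfl
  have h4 : (1 - (τ * x) ^ 2 / 32) ^ b ^ 2 ≤ 1 / 4 := by
    have e1 : (τ * x) ^ 2 / 32 = 2 / (b : ℝ) ^ 2 := by
      rw [hτx]
      field_simp
      norm_num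
    have e2 : 0 ≤ 1 - (τ * x) ^ 2 / 32 := (norm_nonneg _).trans h1
    have e3 : 1 - (τ * x) ^ 2 / 32 ≤ Real.exp (-(2 / (b : ℝ) ^ 2)) := by
      rw [e1]
      have := Real.add_one_le_exp (-(2 / (b : ℝ) ^ 2))
      linarith
    have e4 := pow_le_pow_left₀ e2 e3 (b ^ 2)
    rw [← Real.exp_nat_mul] at e4
    have e5 : ((b ^ 2 : ℕ) : ℝ) * (-(2 / (b : ℝ) ^ 2)) = -2 := by
      push_cast
      field_simp
    rw [e5] at e4
    refine e4.trans ?_
    rw [Real.exp_neg]
    have e6 : (4 : ℝ) ≤ Real.exp 2 := by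
      have e7 := Real.add_one_le_exp (1 : ℝ)
      have e8 : Real.exp 2 = Real.exp 1 * Real.exp 1 := by
        rw [← Real.exp_add]
        norm_num
      rw [e8]
      nlinarith
    rw [inv_le_comm₀ (Real.exp_pos _) (by norm_num)]
    linarith
  have h5 : 2 * |τ| * (A ρ β h (b ^ 2 * m) - ((b ^ 2 : ℕ) : ℝ) * A ρ β h m + ((b ^ 2 : ℕ) : ℝ) *
      (2 * Real.log (boxF d (b ^ 2 * m)).card)) ≤ 1 / 4 := by
    have e1 : A ρ β h (b ^ 2 * m) - ((b ^ 2 : ℕ) : ℝ) * A ρ β h m ≤
        ((b ^ 2 : ℕ) : ℝ) * En ρ β h m := by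
      have := En_nonneg15 (ρ := ρ) hd hρ β h (b ^ 2 * m)
      unfold En at this ⊢
      push_cast at this ⊢
      linarith
    have e2 : 2 * |τ| * (A ρ β h (b ^ 2 * m) - ((b ^ 2 : ℕ) : ℝ) * A ρ β h m +
        ((b ^ 2 : ℕ) : ℝ) * (2 * Real.log (boxF d (b ^ 2 * m)).card)) ≤ 2 * |τ| *
        (((b ^ 2 : ℕ) : ℝ) * (En ρ β h m + 2 * Real.log (boxF d (b ^ 2 * m)).card)) :=
      mul_le_mul_of_nonneg_left (by linarith) (by positivity)
    refine e2.trans ?_
    rw [abs_of_pos hτ0, hτ]
    push_cast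
    have e3 : 2 * (8 / (b * x)) * ((b : ℝ) ^ 2 * (En ρ β h m +
        2 * Real.log (boxF d (b ^ 2 * m)).card)) =
        64 * b * (En ρ β h m + 2 * Real.log (boxF d (b ^ 2 * m)).card) / (4 * x) := by
      field_simp
      ring
    rw [e3, div_le_div_iff₀ (by positivity) (by norm_num)]
    linarith
  have h6 := big7 (ρ := ρ) hd hρ β h (b ^ 2 * m) hτ0.le (by linarith)
  rw [hτ, div_mul_eq_mul_div, le_div_iff₀ (by positivity)] at h6
  linarith

end Pool.Agent.W_7d29a1_SNP
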