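import Pool.Agent.W_7d29a1_SNP.Fav75
import Pool.Agent.W_7d29a1_SNP.Chf75

/-!
A large random fluctuation without a nonrandom one grows like the square root of the number of
blocks (helper75).
-/

namespace Pool.Agent.W_7d29a1_SNP

open MeasureTheory ProbabilityTheory Filter Topology Pool.Agent.W_MP_7d29a1_pr
  Pool.Agent.W_7d29a1_h46 Pool.Agent.W_7d29a1_h46u Pool.Agent.W_7d29a1_D2.B35
  Pool.Agent.W_7d29a1_Q29 Pool.Agent.W_7d29a1_R34 Pool.Agent.W_7d29a1_SP

namespace F75

variable {d : ℕ} {ρ : Measure ℝ}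

/-- The centred free energy. -/
noncomputable def Yc (ρ : Measure ℝ) (β : ℝ) (h : Vec d) (s : ℕ) (η : Env d) : ℝ :=
  X β h η s - A ρ β h s

lemma Yc_meas (β : ℝ) (h : Vec d) (s : ℕ) : Measurable (Yc ρ β h s) :=
  (measurable_X β h s).sub_const _

lemma Yc_dep (β : ℝ) (h : Vec d) (s : ℕ) : DependsOn (Yc ρ β h s) (Pa d s) := by
  intro η η' hη
  have h1 : Z β h η s = Z β h η' s := S98.Z_dep β h s hη
  show X β h η s - A ρ β h s = X β h η' s - A ρ β h s
  unfold X
  rw [h1]

lemma Yc_dep2 (β : ℝ) (h : Vec d) (s m : ℕ) (y : Site d) :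
    DependsOn (fun η => Yc ρ β h m (sh s y η)) (Pa d s)ᶜ := by
  intro η η' hη
  have h1 : X β h (sh s y η) m = X β h (sh s y η') m := FreeU_dep2 β h s m y hη
  show X β h (sh s y η) m - A ρ β h m = X β h (sh s y η') m - A ρ β h m
  rw [h1]

lemma dep_comp {F : Env d → ℝ} {S : Set (ℕ × Site d)} (hF : DependsOn F S) (g : ℝ → ℝ) :
    DependsOn (fun η => g (F η)) S := by
  intro η η' hη
  show g (F η) = g (F η')
  rw [hF hη]

variable [IsProbabilityMeasure ρ]

/-- The characteristic function of a past and a future from the favourite site. -/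
lemma cf_fac (β : ℝ) (h : Vec d) (s m : ℕ) (τ : ℝ) :
    Chf75.cf (law d ρ) τ (fun η => Yc ρ β h s η + wf β h s (Yc ρ β h m) η) =
      Chf75.cf (law d ρ) τ (Yc ρ β h s) * Chf75.cf (law d ρ) τ (Yc ρ β h m) := by
  have hYm := Yc_meas (ρ := ρ) β h s
  have hGm := Yc_meas (ρ := ρ) β h m
  have hWm := wf_meas β h s hGm
  have hS : Measurable (fun η => Yc ρ β h s η + wf β h s (Yc ρ β h m) η) := hYm.add hWm
  rw [Chf75.cf_eq hS.aestronglyMeasurable, Chf75.cf_eq hYm.aestronglyMeasurable,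
    Chf75.cf_eq hGm.aestronglyMeasurable]
  have fac : ∀ f g : ℝ → ℝ, Continuous f → Continuous g → (∀ t, |f t| ≤ 1) → (∀ t, |g t| ≤ 1) →
      ∫ η, f (τ * Yc ρ β h s η) * g (τ * wf β h s (Yc ρ β h m) η) ∂(law d ρ) =
        (∫ η, f (τ * Yc ρ β h s η) ∂(law d ρ)) * ∫ η, g (τ * Yc ρ β h m η) ∂(law d ρ) := by
    intro f g hf hg hf1 hg1
    have h1 := int_wf (ρ := ρ) β h s (F := fun η => f (τ * Yc ρ β h s η))
      (G := fun η => g (τ * Yc ρ β h m η)) (hf.measurable.comp (hYm.const_mul τ)) (c := 1)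
      (fun η => hf1 _) (dep_comp (Yc_dep β h s) fun t => f (τ * t))
      (hg.measurable.comp (hGm.const_mul τ))
      (Integrable.of_bound (hg.measurable.comp (hGm.const_mul τ)).aestronglyMeasurable 1
        (ae_of_all _ fun η => by rw [Real.norm_eq_abs]; exact hg1 _))
      (fun y => dep_comp (Yc_dep2 β h s m y) fun t => g (τ * t))
    rw [← h1]
    refine integral_congr_ae (ae_of_all _ fun η => ?_)
    simp only
    rw [wf_comp β h s (Yc ρ β h m) (fun t => g (τ * t)) η]
  have hb : ∀ f g : ℝ → ℝ, Continuous f → Continuous g → (∀ t, |f t| ≤ 1) → (∀ t, |g t| ≤ 1) →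
      Integrable (fun η => f (τ * Yc ρ β h s η) * g (τ * wf β h s (Yc ρ β h m) η)) (law d ρ) := by
    intro f g hf hg hf1 hg1
    refine Integrable.of_bound ((hf.measurable.comp (hYm.const_mul τ)).mul
      (hg.measurable.comp (hWm.const_mul τ))).aestronglyMeasurable 1 (ae_of_all _ fun η => ?_)
    rw [norm_mul]
    exact mul_le_one₀ (by rw [Real.norm_eq_abs]; exact hf1 _) (norm_nonneg _)
      (by rw [Real.norm_eq_abs]; exact hg1 _)
  have cc := Real.continuous_cos
  have cs := Real.continuous_sin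
  have ac := Real.abs_cos_le_one
  have as := Real.abs_sin_le_one
  have e1 : ∫ η, Real.cos (τ * (Yc ρ β h s η + wf β h s (Yc ρ β h m) η)) ∂(law d ρ) =
      (∫ η, Real.cos (τ * Yc ρ β h s η) ∂(law d ρ)) * (∫ η, Real.cos (τ * Yc ρ β h m η) ∂(law d ρ)) -
      (∫ η, Real.sin (τ * Yc ρ β h s η) ∂(law d ρ)) *
        ∫ η, Real.sin (τ * Yc ρ β h m η) ∂(law d ρ) := by
    rw [← fac _ _ cc cc ac ac, ← fac _ _ cs cs as as,
      ← integral_sub (hb _ _ cc cc ac ac) (hb _ _ cs cs as as)]
    refine integral_congr_ae (ae_of_all _ fun η => ?_)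
    simp only
    rw [mul_add, Real.cos_add]
  have e2 : ∫ η, Real.sin (τ * (Yc ρ β h s η + wf β h s (Yc ρ β h m) η)) ∂(law d ρ) =
      (∫ η, Real.sin (τ * Yc ρ β h s η) ∂(law d ρ)) * (∫ η, Real.cos (τ * Yc ρ β h m η) ∂(law d ρ)) +
      (∫ η, Real.cos (τ * Yc ρ β h s η) ∂(law d ρ)) *
        ∫ η, Real.sin (τ * Yc ρ β h m η) ∂(law d ρ) := by
    rw [← fac _ _ cs cc as ac, ← fac _ _ cc cs ac as,
      ← integral_add (hb _ _ cs cc as ac) (hb _ _ cc cs ac as)]
    refine integral_congr_ae (ae_of_all _ fun η => ?_)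
    simp only
    rw [mul_add, Real.sin_add]
  rw [e1, e2]
  push_cast
  ring_nf
  rw [Complex.I_sq]
  ring

/-- The error of one block: the concatenation at the favourite site. -/
lemma err75 (hd : 0 < d) (hρ : EM ρ) (β : ℝ) (h : Vec d) (s m : ℕ) :
    Integrable (fun η => Yc ρ β h (s + m) η - (Yc ρ β h s η + wf β h s (Yc ρ β h m) η)) (law d ρ) ∧
    ∫ η, |Yc ρ β h (s + m) η - (Yc ρ β h s η + wf β h s (Yc ρ β h m) η)| ∂(law d ρ) ≤
      2 * (En ρ β h s + En ρ β h m - En ρ β h (s + m) + d * Real.log (2 * s + 1)) := by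
  have iY : ∀ k, Integrable (Yc ρ β h k) (law d ρ) := fun k => intX15 hd hρ β h k
  have mY : ∀ k, ∫ η, Yc ρ β h k η ∂(law d ρ) = 0 := fun k => mean15 hd hρ β h k
  have iW := wf_int (ρ := ρ) β h s (iY m)
  have mW : ∫ η, wf β h s (Yc ρ β h m) η ∂(law d ρ) = 0 := by
    rw [int_wf_one β h s (Yc_meas β h m) (iY m) fun y => Yc_dep2 β h s m y]
    exact mY m
  set Δ : Env d → ℝ := fun η => Yc ρ β h (s + m) η - (Yc ρ β h s η + wf β h s (Yc ρ β h m) η)
    with hΔ
  have iΔ : Integrable Δ (law d ρ) := (iY (s + m)).sub ((iY s).add iW)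
  have mΔ : ∫ η, Δ η ∂(law d ρ) = 0 := by
    have i3 : Integrable (fun η => Yc ρ β h s η + wf β h s (Yc ρ β h m) η) (law d ρ) :=
      (iY s).add iW
    rw [hΔ, integral_sub (iY (s + m)) i3, integral_add (iY s) iW, mY, mY, mW]
    ring
  set K : ℝ := En ρ β h s + En ρ β h m - En ρ β h (s + m) + d * Real.log (2 * s + 1) with hK
  have hge : ∀ η, -K ≤ Δ η := by
    intro η
    have h1 := X_wf hd β h s m η
    have h2 : wf β h s (Yc ρ β h m) η = wf β h s (fun ξ => X β h ξ m) η - A ρ β h m := by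
      rw [← wf_comp β h s (fun ξ => X β h ξ m) (fun t => t - A ρ β h m) η]
      rfl
    have h3 : K = A ρ β h (s + m) - A ρ β h s - A ρ β h m + d * Real.log (2 * s + 1) := by
      rw [hK]
      unfold En
      push_cast
      ring
    simp only [hΔ]
    rw [h2, h3]
    unfold Yc
    linarith
  refine ⟨iΔ, ?_⟩
  have hpt : ∀ η, |Δ η| ≤ Δ η + 2 * K := by
    intro η
    have hK0 : 0 ≤ K := by
      have h4 := integral_mono (integrable_const (-K)) iΔ hge
      rw [mΔ] at h4
      simp at h4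
      linarith
    rcases le_total 0 (Δ η) with h0 | h0
    · rw [abs_of_nonneg h0]
      linarith
    · rw [abs_of_nonpos h0]
      have := hge η
      linarith
  have h5 := integral_mono iΔ.abs (iΔ.add (integrable_const (2 * K))) hpt
  simp only [Pi.add_apply] at h5
  rw [integral_add iΔ (integrable_const _), mΔ] at h5
  simpa using h5

/-- **EXC, the core**: if the random fluctuation of a block is at least `x`, its variance at most
`C x²` and the nonrandom fluctuations up to `B` blocks are small, then the random fluctuation of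
`B` blocks is at least `√B x / 12`. -/
theorem excm75 (hd : 0 < d) (hρ : EM ρ) (β : ℝ) (h : Vec d) {m B : ℕ} {x C e : ℝ} (hx : 0 < x)
    (hC : 0 < C) (hF : x ≤ Fn ρ β h m) (hV : Va ρ β h m ≤ C * x ^ 2) (hB : (24 * C) ^ 2 ≤ B)
    (hE : ∀ T : ℕ, T ≤ B * m → En ρ β h T ≤ e) (hL : d * Real.log (2 * (B * m) + 1) ≤ e)
    (hsmall : 144 * Real.sqrt B * e ≤ x) :
    Real.sqrt B * x / 12 ≤ Fn ρ β h (B * m) := by
  have iY : ∀ k, Integrable (Yc ρ β h k) (law d ρ) := fun k => intX15 hd hρ β h k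
  have hBpos : 0 < B := by
    have : (0 : ℝ) < B := lt_of_lt_of_le (by positivity) hB
    exact_mod_cast this
  have hm2 : MemLp (Yc ρ β h m) 2 (law d ρ) := by
    rw [memLp_two_iff_integrable_sq (Yc_meas β h m).aestronglyMeasurable]
    exact N85.Va_int (ρ := ρ) hd hρ β h m
  have hvar : ∫ η, Yc ρ β h m η ^ 2 ∂(law d ρ) ≤ C * x ^ 2 := hV
  have h1 := Chf75.exc75 (P := law d ρ) (Y := fun r => Yc ρ β h (r * m))
    (W := fun r => wf β h (r * m) (Yc ρ β h m)) (W₀ := Yc ρ β h m) (fun r => iY (r * m))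
    (fun r => (wf_meas β h (r * m) (Yc_meas β h m)).aestronglyMeasurable) hm2
    (mean15 hd hρ β h m) (x := x) (C := C) (δ := 6 * e) hx hC hF hvar hB
    (fun r _ τ => cf_fac β h (r * m) m τ)
    (fun r _ => by
      have h2 := (err75 hd hρ β h (r * m) m).1
      have h3 : (r + 1) * m = r * m + m := by ring
      rw [h3]
      exact h2)
    (fun r hr => by
      have h2 := (err75 hd hρ β h (r * m) m).2
      have h3 : (r + 1) * m = r * m + m := by ring
      rw [h3]
      refine h2.trans ?_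
      have hle : (r + 1) * m ≤ B * m := Nat.mul_le_mul_right m hr
      have h4 := hE (r * m) (by nlinarith)
      have h5 := hE m (by nlinarith)
      have h6 := En_nonneg15 hd hρ β h (r * m + m)
      have h7 : (d : ℝ) * Real.log (2 * ((r * m : ℕ) : ℝ) + 1) ≤ e := by
        refine le_trans (mul_le_mul_of_nonneg_left ?_ (Nat.cast_nonneg d)) hL
        apply Real.log_le_log (by positivity)
        have h8 : ((r * m : ℕ) : ℝ) ≤ B * m := by
          have : r * m ≤ B * m := by nlinarith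
          exact_mod_cast this
        linarith
      linarith)
    (by linarith)
  exact h1

end F75

end Pool.Agent.W_7d29a1_SNP
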