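import Mathlib.MeasureTheory.Integral.Bochner.Basic
import Mathlib.MeasureTheory.Integral.IntegrableOn
import Mathlib.Analysis.SpecialFunctions.Exponential
import Mathlib.Analysis.Complex.ExponentialBounds

/-!
# The potential argument of (EXM), abstract half

`c j` (`j >= 1`) bounded by `b`, `P j >= 0`; tested against nonnegative bounded functions of the
first `j` blocks: `E w P (j+1) <= E w (kap P j + kap')`, `E w c (j+1) <= E w (mu + kap'' P j)`.
Then `E exp (lam sum_(j < k) c (j+1)) <= (1 + lam mu + lam^2 b^2 + 3 kap')^k (1 + E P 0)`.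
-/

open MeasureTheory

namespace Pool.Agent.W_7d29a1_SNP

theorem expLe4 {x y : ℝ} (h1 : |x| ≤ 1) (h2 : |x| ≤ y) : Real.exp x ≤ 1 + x + y ^ 2 := by
  have h := Real.abs_exp_sub_one_sub_id_le h1
  have h3 := (abs_le.mp h).2
  have h4 : x ^ 2 ≤ y ^ 2 := by
    rw [← sq_abs x]
    exact pow_le_pow_left₀ (abs_nonneg x) h2 2
  linarith

theorem exm4 {Ω : Type*} [m0 : MeasurableSpace Ω] (μ : Measure Ω) [IsProbabilityMeasure μ]
    (F : ℕ → MeasurableSpace Ω) (hF : ∀ j, F j ≤ m0) (hmono : Monotone F)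
    (c P : ℕ → Ω → ℝ) (lam b mu kap kap' kap'' : ℝ)
    (hlam : 0 ≤ lam) (hb : 0 ≤ b) (hmu : 0 ≤ mu) (hk' : 0 ≤ kap')
    (hlb : lam * b ≤ 1) (hk : lam * kap'' + 3 * kap ≤ 1)
    (hcm : ∀ j, Measurable[F j] (c j)) (hcb : ∀ j ω, |c j ω| ≤ b)
    (hPi : ∀ j, Integrable (P j) μ) (hP0 : ∀ j ω, 0 ≤ P j ω)
    (hPr : ∀ j, ∀ w : Ω → ℝ, Measurable[F j] w → (∀ ω, 0 ≤ w ω) → (∃ B : ℝ, ∀ ω, w ω ≤ B) →
      ∫ ω, w ω * P (j + 1) ω ∂μ ≤ ∫ ω, w ω * (kap * P j ω + kap') ∂μ)
    (hcr : ∀ j, ∀ w : Ω → ℝ, Measurable[F j] w → (∀ ω, 0 ≤ w ω) → (∃ B : ℝ, ∀ ω, w ω ≤ B) →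
      ∫ ω, w ω * c (j + 1) ω ∂μ ≤ ∫ ω, w ω * (mu + kap'' * P j ω) ∂μ) (k : ℕ) :
    ∫ ω, Real.exp (lam * ∑ i ∈ Finset.range k, c (i + 1) ω) ∂μ
      ≤ (1 + lam * mu + lam ^ 2 * b ^ 2 + 3 * kap') ^ k * (1 + ∫ ω, P 0 ω ∂μ) := by
  classical
  set R : ℝ := 1 + lam * mu + lam ^ 2 * b ^ 2 + 3 * kap' with hR
  have hR1 : 1 ≤ R := by
    have h1 : 0 ≤ lam * mu := mul_nonneg hlam hmu
    have h2 : 0 ≤ lam ^ 2 * b ^ 2 := by positivity
    rw [hR]; linarith
  -- the weight
  have hwm : ∀ j, Measurable[F j] (fun ω => Real.exp (lam * ∑ i ∈ Finset.range j, c (i + 1) ω)) := by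
    intro j
    refine Real.measurable_exp.comp (Measurable.const_mul ?_ lam)
    refine Finset.measurable_sum _ (fun i hi => ?_)
    exact (hcm (i + 1)).mono (hmono (Finset.mem_range.mp hi)) le_rfl
  have hwm0 : ∀ j, Measurable (fun ω => Real.exp (lam * ∑ i ∈ Finset.range j, c (i + 1) ω)) :=
    fun j => (hwm j).mono (hF j) le_rfl
  have hsb : ∀ j ω, |lam * ∑ i ∈ Finset.range j, c (i + 1) ω| ≤ j := by
    intro j ω
    rw [abs_mul, abs_of_nonneg hlam]
    have h1 : |∑ i ∈ Finset.range j, c (i + 1) ω| ≤ j * b := by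
      refine (Finset.abs_sum_le_sum_abs _ _).trans ?_
      refine (Finset.sum_le_sum (fun i _ => hcb (i + 1) ω)).trans ?_
      simp
    calc lam * |∑ i ∈ Finset.range j, c (i + 1) ω| ≤ lam * (j * b) :=
          mul_le_mul_of_nonneg_left h1 hlam
      _ = j * (lam * b) := by ring
      _ ≤ j * 1 := mul_le_mul_of_nonneg_left hlb (Nat.cast_nonneg j)
      _ = j := mul_one _
  have hwB : ∀ j ω, Real.exp (lam * ∑ i ∈ Finset.range j, c (i + 1) ω) ≤ Real.exp j :=
    fun j ω => Real.exp_le_exp.mpr ((le_abs_self _).trans (hsb j ω))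
  have hw0 : ∀ j ω, 0 ≤ Real.exp (lam * ∑ i ∈ Finset.range j, c (i + 1) ω) :=
    fun j ω => (Real.exp_pos _).le
  have hwi : ∀ j, Integrable (fun ω => Real.exp (lam * ∑ i ∈ Finset.range j, c (i + 1) ω)) μ := by
    intro j
    refine Integrable.of_bound (hwm0 j).aestronglyMeasurable (Real.exp j) ?_
    refine Filter.Eventually.of_forall (fun ω => ?_)
    rw [Real.norm_eq_abs, abs_of_nonneg (hw0 j ω)]
    exact hwB j ω
  have hmul : ∀ j (f : Ω → ℝ), Integrable f μ →
      Integrable (fun ω => Real.exp (lam * ∑ i ∈ Finset.range j, c (i + 1) ω) * f ω) μ := by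
    intro j f hf
    refine hf.bdd_mul (c := Real.exp j) (hwm0 j).aestronglyMeasurable ?_
    refine Filter.Eventually.of_forall (fun ω => ?_)
    rw [Real.norm_eq_abs, abs_of_nonneg (hw0 j ω)]
    exact hwB j ω
  have hci : ∀ j, Integrable (c j) μ := by
    intro j
    refine Integrable.of_bound ((hcm j).mono (hF j) le_rfl).aestronglyMeasurable b ?_
    exact Filter.Eventually.of_forall (fun ω => by rw [Real.norm_eq_abs]; exact hcb j ω)
  have key : ∀ j, ∫ ω, Real.exp (lam * ∑ i ∈ Finset.range j, c (i + 1) ω) * (1 + P j ω) ∂μ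
      ≤ R ^ j * (1 + ∫ ω, P 0 ω ∂μ) := by
    intro j
    induction j with
    | zero =>
      simp only [Finset.range_zero, Finset.sum_empty, mul_zero, Real.exp_zero, one_mul, pow_zero]
      rw [integral_add (integrable_const _) (hPi 0)]
      simp
    | succ j ih =>
      set w : Ω → ℝ := fun ω => Real.exp (lam * ∑ i ∈ Finset.range j, c (i + 1) ω) with hw
      have hi1 : Integrable (fun ω => w ω * (1 + P j ω)) μ :=
        hmul j _ ((integrable_const (1 : ℝ)).add (hPi j))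
      have hiw : Integrable w μ := hwi j
      have hiP1 : Integrable (fun ω => w ω * P (j + 1) ω) μ := hmul j _ (hPi (j + 1))
      have hiP : Integrable (fun ω => w ω * P j ω) μ := hmul j _ (hPi j)
      have hic : Integrable (fun ω => w ω * c (j + 1) ω) μ := hmul j _ (hci (j + 1))
      have hup : ∫ ω, Real.exp (lam * ∑ i ∈ Finset.range (j + 1), c (i + 1) ω)
            * (1 + P (j + 1) ω) ∂μ
          ≤ ∫ ω, ((1 + lam ^ 2 * b ^ 2) * w ω + lam * (w ω * c (j + 1) ω)
            + 3 * (w ω * P (j + 1) ω)) ∂μ := by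
        refine integral_mono ?_ ?_ (fun ω => ?_)
        · exact hmul (j + 1) _ ((integrable_const (1 : ℝ)).add (hPi (j + 1)))
        · exact ((hiw.const_mul _).add (hic.const_mul _)).add (hiP1.const_mul _)
        · have e1 : Real.exp (lam * ∑ i ∈ Finset.range (j + 1), c (i + 1) ω)
              = w ω * Real.exp (lam * c (j + 1) ω) := by
            rw [hw, Finset.sum_range_succ, mul_add, Real.exp_add]
          have hx : |lam * c (j + 1) ω| ≤ lam * b := by
            rw [abs_mul, abs_of_nonneg hlam]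
            exact mul_le_mul_of_nonneg_left (hcb (j + 1) ω) hlam
          have e2 : Real.exp (lam * c (j + 1) ω) ≤ 1 + lam * c (j + 1) ω + (lam * b) ^ 2 :=
            expLe4 (hx.trans hlb) hx
          have e3 : Real.exp (lam * c (j + 1) ω) ≤ 3 := by
            have h1 : Real.exp (lam * c (j + 1) ω) ≤ Real.exp 1 :=
              Real.exp_le_exp.mpr ((le_abs_self _).trans (hx.trans hlb))
            have h2 : Real.exp 1 < 3 := lt_trans Real.exp_one_lt_d9 (by norm_num)
            linarith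
          have hwp : 0 ≤ w ω := hw0 j ω
          have hPp : 0 ≤ P (j + 1) ω := hP0 (j + 1) ω
          show Real.exp (lam * ∑ i ∈ Finset.range (j + 1), c (i + 1) ω) * (1 + P (j + 1) ω) ≤ _
          rw [e1]
          have f1 : w ω * Real.exp (lam * c (j + 1) ω)
              ≤ w ω * (1 + lam * c (j + 1) ω + (lam * b) ^ 2) := mul_le_mul_of_nonneg_left e2 hwp
          have f2 : w ω * Real.exp (lam * c (j + 1) ω) * P (j + 1) ω
              ≤ w ω * 3 * P (j + 1) ω :=
            mul_le_mul_of_nonneg_right (mul_le_mul_of_nonneg_left e3 hwp) hPp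
          nlinarith [f1, f2]
      have hB : ∃ B : ℝ, ∀ ω, w ω ≤ B := ⟨Real.exp j, hwB j⟩
      have h1 := hPr j w (hwm j) (hw0 j) hB
      have h2 := hcr j w (hwm j) (hw0 j) hB
      have s1 : ∫ ω, ((1 + lam ^ 2 * b ^ 2) * w ω + lam * (w ω * c (j + 1) ω)
            + 3 * (w ω * P (j + 1) ω)) ∂μ
          = (1 + lam ^ 2 * b ^ 2) * ∫ ω, w ω ∂μ + lam * ∫ ω, w ω * c (j + 1) ω ∂μ
            + 3 * ∫ ω, w ω * P (j + 1) ω ∂μ := by
        rw [integral_add, integral_add, integral_const_mul, integral_const_mul, integral_const_mul]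
        · exact hiw.const_mul _
        · exact hic.const_mul _
        · exact (hiw.const_mul _).add (hic.const_mul _)
        · exact hiP1.const_mul _
      have s2 : ∫ ω, w ω * (kap * P j ω + kap') ∂μ
          = kap * ∫ ω, w ω * P j ω ∂μ + kap' * ∫ ω, w ω ∂μ := by
        rw [← integral_const_mul, ← integral_const_mul, ← integral_add (hiP.const_mul _)
          (hiw.const_mul _)]
        exact integral_congr_ae (Filter.Eventually.of_forall (fun ω => by ring))
      have s3 : ∫ ω, w ω * (mu + kap'' * P j ω) ∂μ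
          = mu * ∫ ω, w ω ∂μ + kap'' * ∫ ω, w ω * P j ω ∂μ := by
        rw [← integral_const_mul, ← integral_const_mul, ← integral_add (hiw.const_mul _)
          (hiP.const_mul _)]
        exact integral_congr_ae (Filter.Eventually.of_forall (fun ω => by ring))
      have s4 : ∫ ω, w ω * (1 + P j ω) ∂μ = ∫ ω, w ω ∂μ + ∫ ω, w ω * P j ω ∂μ := by
        rw [← integral_add hiw hiP]
        exact integral_congr_ae (Filter.Eventually.of_forall (fun ω => by ring))
      have a0 : 0 ≤ ∫ ω, w ω ∂μ := integral_nonneg (hw0 j)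
      have p0 : 0 ≤ ∫ ω, w ω * P j ω ∂μ :=
        integral_nonneg (fun ω => mul_nonneg (hw0 j ω) (hP0 j ω))
      rw [s2] at h1
      rw [s3] at h2
      rw [s4] at ih
      have hfin : ∫ ω, Real.exp (lam * ∑ i ∈ Finset.range (j + 1), c (i + 1) ω)
            * (1 + P (j + 1) ω) ∂μ ≤ R * (∫ ω, w ω ∂μ + ∫ ω, w ω * P j ω ∂μ) := by
        refine hup.trans ?_
        rw [s1]
        have g1 := mul_le_mul_of_nonneg_left h2 hlam
        have g2 : (lam * kap'' + 3 * kap) * ∫ ω, w ω * P j ω ∂μ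
            ≤ R * ∫ ω, w ω * P j ω ∂μ :=
          mul_le_mul_of_nonneg_right (hk.trans hR1) p0
        have g3 : R * (∫ ω, w ω ∂μ + ∫ ω, w ω * P j ω ∂μ)
            = (1 + lam * mu + lam ^ 2 * b ^ 2 + 3 * kap') * ∫ ω, w ω ∂μ
              + R * ∫ ω, w ω * P j ω ∂μ := by rw [hR]; ring
        rw [g3]
        nlinarith [g1, g2, h1]
      calc _ ≤ R * (∫ ω, w ω ∂μ + ∫ ω, w ω * P j ω ∂μ) := hfin
        _ ≤ R * (R ^ j * (1 + ∫ ω, P 0 ω ∂μ)) :=
            mul_le_mul_of_nonneg_left ih (by linarith)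
        _ = R ^ (j + 1) * (1 + ∫ ω, P 0 ω ∂μ) := by ring
  refine le_trans ?_ (key k)
  refine integral_mono (hwi k) (hmul k _ ((integrable_const (1 : ℝ)).add (hPi k))) (fun ω => ?_)
  show Real.exp (lam * ∑ i ∈ Finset.range k, c (i + 1) ω)
    ≤ Real.exp (lam * ∑ i ∈ Finset.range k, c (i + 1) ω) * (1 + P k ω)
  have := mul_nonneg (hw0 k ω) (hP0 k ω)
  nlinarith [this]

end Pool.Agent.W_7d29a1_SNP
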