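import Mathlib

/-!
EXM, the abstract recursion behind THEOREM SNP (helper28): the exponential moment of a sum of
bounded, nearly independent functionals, by a potential (helper47).
-/

namespace Pool.Agent.W_7d29a1_SNP

open MeasureTheory

/-- The data of the recursion: `T i` the weights of the rows `≤ M i`, `N i j` the positive part of
the expected fluctuation at the time `M j` given the rows `≤ M i`, `v i` the negative part of the
fluctuation at the time `M i`, `ψ j` the bounded functional of the level `j`. -/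
structure Rc {Ω : Type*} [MeasurableSpace Ω] (μ : Measure Ω) (k : ℕ) (x : ℕ → ℝ)
    (r C e b l : ℝ) (T : ℕ → (Ω → ℝ) → Prop) (N : ℕ → ℕ → Ω → ℝ) (v ψ : ℕ → Ω → ℝ) : Prop where
  xp : ∀ j, 0 < x j
  xs : ∀ j, j < k → x j ≤ r * x (j + 1)
  T0 : T 0 (fun _ => 1)
  Ts : ∀ j, j < k → ∀ w, T j w → T (j + 1) (fun η => w η * Real.exp (l * ψ (j + 1) η))
  Tn : ∀ j w, T j w → (∀ η, 0 ≤ w η)
  Tb : ∀ j w, T j w → ∃ K : ℝ, ∀ η, w η ≤ K
  Tm : ∀ j w, T j w → Measurable w
  Nn : ∀ i j η, 0 ≤ N i j η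
  Ni : ∀ i j, Integrable (N i j) μ
  N0 : ∀ j η, N 0 j η = 0
  vn : ∀ i η, 0 ≤ v i η
  vi : ∀ i, Integrable (v i) μ
  v0 : ∀ η, v 0 η = 0
  pm : ∀ j, Measurable (ψ j)
  pb : ∀ j η, |ψ j η| ≤ b
  H2 : ∀ i, i < k → ∀ j, i + 1 < j → j ≤ k → ∀ w, T i w →
    ∫ η, w η * N (i + 1) j η ∂μ ≤
      (∫ η, w η * N i j η ∂μ) + (∫ η, w η * v (i + 1) η ∂μ) + C * x (i + 1) * ∫ η, w η ∂μ
  H3 : ∀ i, i < k → ∀ w, T i w →
    ∫ η, w η * v (i + 1) η ∂μ ≤ C * x (i + 1) * (∫ η, w η ∂μ) + ∫ η, w η * v i η ∂μ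
  H4 : ∀ i, i < k → ∀ w, T i w →
    ∫ η, w η * ψ (i + 1) η ∂μ ≤ e * (∫ η, w η ∂μ) + (∫ η, w η * N i (i + 1) η ∂μ) / x (i + 1) +
      2 * (∫ η, w η * v i η ∂μ) / x (i + 1)

variable {Ω : Type*} [MeasurableSpace Ω] {μ : Measure Ω} [IsProbabilityMeasure μ] {k : ℕ}
  {x : ℕ → ℝ} {r C e b l : ℝ} {T : ℕ → (Ω → ℝ) → Prop} {N : ℕ → ℕ → Ω → ℝ} {v ψ : ℕ → Ω → ℝ}

/-- The potential. -/
noncomputable def Pt (k : ℕ) (x : ℕ → ℝ) (r : ℝ) (N : ℕ → ℕ → Ω → ℝ) (v : ℕ → Ω → ℝ) (i : ℕ)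
    (η : Ω) : ℝ :=
  ∑ s ∈ Finset.range (k - i), N i (i + 1 + s) η / (x (i + 1) * 2 ^ s) + r * v i η / x i

omit [IsProbabilityMeasure μ] in
lemma wint (h : Rc μ k x r C e b l T N v ψ) {j : ℕ} {w : Ω → ℝ} (hw : T j w) {f : Ω → ℝ}
    (hf : Integrable f μ) : Integrable (fun η => w η * f η) μ := by
  obtain ⟨K, hK⟩ := h.Tb j w hw
  refine hf.bdd_mul (c := K) (h.Tm j w hw).aestronglyMeasurable ?_
  exact Filter.Eventually.of_forall fun η => by
    rw [Real.norm_of_nonneg (h.Tn j w hw η)]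
    exact hK η

lemma wint1 (h : Rc μ k x r C e b l T N v ψ) {j : ℕ} {w : Ω → ℝ} (hw : T j w) :
    Integrable w μ := by
  have := wint h hw (integrable_const (1 : ℝ))
  simpa using this

omit [IsProbabilityMeasure μ] in
lemma Pt_nn (h : Rc μ k x r C e b l T N v ψ) (hr : 0 ≤ r) (i : ℕ) (η : Ω) :
    0 ≤ Pt k x r N v i η := by
  refine add_nonneg (Finset.sum_nonneg fun s _ => ?_) ?_
  · exact div_nonneg (h.Nn _ _ _) (mul_nonneg (h.xp _).le (by positivity))
  · exact div_nonneg (mul_nonneg hr (h.vn _ _)) (h.xp _).le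

omit [IsProbabilityMeasure μ] in
lemma Pt_int (h : Rc μ k x r C e b l T N v ψ) (i : ℕ) : Integrable (Pt k x r N v i) μ := by
  refine Integrable.add (integrable_finsetSum _ fun s _ => (h.Ni _ _).div_const _) ?_
  exact ((h.vi i).const_mul r).div_const _

omit [IsProbabilityMeasure μ] in
lemma int_Pt (h : Rc μ k x r C e b l T N v ψ) {j : ℕ} {w : Ω → ℝ} (hw : T j w) (i : ℕ) :
    ∫ η, w η * Pt k x r N v i η ∂μ =
      ∑ s ∈ Finset.range (k - i), (∫ η, w η * N i (i + 1 + s) η ∂μ) / (x (i + 1) * 2 ^ s) +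
        r * (∫ η, w η * v i η ∂μ) / x i := by
  have h1 : ∀ η, w η * Pt k x r N v i η =
      ∑ s ∈ Finset.range (k - i), (w η * N i (i + 1 + s) η) / (x (i + 1) * 2 ^ s) +
        r * (w η * v i η) / x i := by
    intro η
    unfold Pt
    rw [mul_add, Finset.mul_sum]
    congr 1
    · exact Finset.sum_congr rfl fun s _ => by ring
    · ring
  simp_rw [h1]
  rw [integral_add, integral_finsetSum]
  · congr 1
    · exact Finset.sum_congr rfl fun s _ => integral_div _ _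
    · rw [integral_div, integral_const_mul]
  · exact fun s _ => (wint h hw (h.Ni _ _)).div_const _
  · exact integrable_finsetSum _ fun s _ => (wint h hw (h.Ni _ _)).div_const _
  · exact ((wint h hw (h.vi _)).const_mul r).div_const _

omit [IsProbabilityMeasure μ] in
/-- The recursion of the potential. -/
lemma pot (h : Rc μ k x r C e b l T N v ψ) (hr : 0 ≤ r) (hC : 0 ≤ C) {i : ℕ} (hi : i < k)
    {w : Ω → ℝ} (hw : T i w) :
    ∫ η, w η * Pt k x r N v (i + 1) η ∂μ ≤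
      3 * r * (∫ η, w η * Pt k x r N v i η ∂μ) + 5 * C * r * ∫ η, w η ∂μ := by
  rw [int_Pt h hw, int_Pt h hw]
  set a : ℕ → ℝ := fun s => ∫ η, w η * N i (i + 1 + s) η ∂μ with ha
  set V' := ∫ η, w η * v (i + 1) η ∂μ with hV'
  set V := ∫ η, w η * v i η ∂μ with hV
  set I := ∫ η, w η ∂μ with hI
  have hI0 : 0 ≤ I := integral_nonneg (h.Tn i w hw)
  have ha0 : ∀ s, 0 ≤ a s := fun s =>
    integral_nonneg fun η => mul_nonneg (h.Tn i w hw η) (h.Nn _ _ _)
  have hV0 : 0 ≤ V := integral_nonneg fun η => mul_nonneg (h.Tn i w hw η) (h.vn _ _)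
  have hV'0 : 0 ≤ V' := integral_nonneg fun η => mul_nonneg (h.Tn i w hw η) (h.vn _ _)
  have hx1 := h.xp (i + 1)
  have hx0 := h.xp i
  have hx2 := h.xp (i + 2)
  have e1 : V' ≤ C * x (i + 1) * I + V := h.H3 i hi w hw
  have eV : V / x (i + 1) ≤ r * V / x i := by
    rw [div_le_div_iff₀ hx1 hx0]
    calc V * x i ≤ V * (r * x (i + 1)) := mul_le_mul_of_nonneg_left (h.xs i hi) hV0
      _ = r * V * x (i + 1) := by ring
  set m := k - (i + 1) with hm
  have hk : k - i = m + 1 := by omega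
  rw [hk]
  -- the terms
  have t1 : ∀ s ∈ Finset.range m, (∫ η, w η * N (i + 1) (i + 1 + 1 + s) η ∂μ) /
      (x (i + 1 + 1) * 2 ^ s) ≤ 2 * r * (a (s + 1) / (x (i + 1) * 2 ^ (s + 1))) +
        r * (V' / x (i + 1) + C * I) * (1 / 2) ^ s := by
    intro s hs
    have hs' : s < m := Finset.mem_range.1 hs
    have h2 := h.H2 i hi (i + 1 + 1 + s) (by omega) (by omega) w hw
    have h3 : (∫ η, w η * N i (i + 1 + 1 + s) η ∂μ) = a (s + 1) := by
      simp only [ha]
      congr 2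
      funext η
      congr 2
      omega
    rw [h3] at h2
    have hxs := h.xs (i + 1) (by omega)
    have hq : 0 ≤ a (s + 1) + V' + C * x (i + 1) * I := by
      have := ha0 (s + 1)
      positivity
    have hp : (0 : ℝ) < 2 ^ s := by positivity
    calc (∫ η, w η * N (i + 1) (i + 1 + 1 + s) η ∂μ) / (x (i + 1 + 1) * 2 ^ s)
        ≤ (a (s + 1) + V' + C * x (i + 1) * I) / (x (i + 1 + 1) * 2 ^ s) :=
          div_le_div_of_nonneg_right h2 (by positivity)
      _ ≤ r * (a (s + 1) + V' + C * x (i + 1) * I) / (x (i + 1) * 2 ^ s) := by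
          rw [div_le_div_iff₀ (by positivity) (by positivity)]
          calc (a (s + 1) + V' + C * x (i + 1) * I) * (x (i + 1) * 2 ^ s)
              ≤ (a (s + 1) + V' + C * x (i + 1) * I) * (r * x (i + 1 + 1) * 2 ^ s) := by
                refine mul_le_mul_of_nonneg_left ?_ hq
                exact mul_le_mul_of_nonneg_right hxs hp.le
            _ = _ := by ring
      _ = _ := by
          rw [pow_succ, one_div, inv_pow]
          field_simp
          ring
  have t2 := Finset.sum_le_sum t1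
  rw [Finset.sum_add_distrib, ← Finset.mul_sum, ← Finset.mul_sum] at t2
  have g1 : ∑ s ∈ Finset.range m, ((1 : ℝ) / 2) ^ s ≤ 2 := by
    have := geom_sum_eq (x := (1 : ℝ) / 2) (by norm_num) m
    rw [this]
    have hp : (0 : ℝ) ≤ (1 / 2) ^ m := by positivity
    rw [div_le_iff_of_neg (by norm_num)]
    linarith
  have g2 : ∑ s ∈ Finset.range m, (a (s + 1) / (x (i + 1) * 2 ^ (s + 1))) ≤
      ∑ s ∈ Finset.range (m + 1), a s / (x (i + 1) * 2 ^ s) := by
    rw [Finset.sum_range_succ' _ m]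
    have : 0 ≤ a 0 / (x (i + 1) * 2 ^ 0) := div_nonneg (ha0 0) (by positivity)
    linarith
  have hS : 0 ≤ ∑ s ∈ Finset.range (m + 1), a s / (x (i + 1) * 2 ^ s) :=
    Finset.sum_nonneg fun s _ => div_nonneg (ha0 s) (by positivity)
  have e2 : V' / x (i + 1) ≤ C * I + V / x (i + 1) := by
    rw [div_le_iff₀ hx1]
    calc V' ≤ C * x (i + 1) * I + V := e1
      _ = _ := by field_simp
  have hq0 : 0 ≤ r * (V' / x (i + 1) + C * I) := by positivity
  have e3 : r * (V' / x (i + 1) + C * I) * ∑ s ∈ Finset.range m, ((1 : ℝ) / 2) ^ s ≤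
      r * (V' / x (i + 1) + C * I) * 2 := mul_le_mul_of_nonneg_left g1 hq0
  have e4 : 2 * r * ∑ s ∈ Finset.range m, (a (s + 1) / (x (i + 1) * 2 ^ (s + 1))) ≤
      2 * r * ∑ s ∈ Finset.range (m + 1), a s / (x (i + 1) * 2 ^ s) :=
    mul_le_mul_of_nonneg_left g2 (by positivity)
  have e5 : r * (V' / x (i + 1)) ≤ r * (C * I + r * V / x i) :=
    mul_le_mul_of_nonneg_left (e2.trans (by linarith)) hr
  have e6 : 0 ≤ r * ∑ s ∈ Finset.range (m + 1), a s / (x (i + 1) * 2 ^ s) := mul_nonneg hr hS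
  have e7 : r * V' / x (i + 1) = r * (V' / x (i + 1)) := by ring
  rw [e7]
  have e8 : 3 * r * (∑ s ∈ Finset.range (m + 1), a s / (x (i + 1) * 2 ^ s) + r * V / x i) =
      3 * (r * ∑ s ∈ Finset.range (m + 1), a s / (x (i + 1) * 2 ^ s)) + 3 * (r * (r * V / x i)) := by
    ring
  rw [e8]
  nlinarith [t2, e3, e4, e5, e6]

/-- One step. -/
lemma stepR (h : Rc μ k x r C e b l T N v ψ) (hr : 0 ≤ r) (hC : 0 ≤ C) (he : 0 ≤ e) (hl : 0 ≤ l)
    (hlb : l * b ≤ 1) (hlr : 2 * l + 9 * r ≤ 1) {i : ℕ} (hi : i < k) {w : Ω → ℝ} (hw : T i w) :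
    ∫ η, (w η * Real.exp (l * ψ (i + 1) η)) * (1 + Pt k x r N v (i + 1) η) ∂μ ≤
      (1 + l * e + l ^ 2 * b ^ 2 + 15 * C * r) * ∫ η, w η * (1 + Pt k x r N v i η) ∂μ := by
  have hw1 := h.Ts i hi w hw
  set P := Pt k x r N v with hP
  have hpi := wint1 h hw
  have hb0 : 0 ≤ b := (abs_nonneg _).trans (h.pb 0 (Classical.choice (μ.nonempty_of_neZero)))
  have hlp : ∀ η, |l * ψ (i + 1) η| ≤ 1 := fun η => by
    rw [abs_mul, abs_of_nonneg hl]
    exact (mul_le_mul_of_nonneg_left (h.pb _ _) hl).trans hlb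
  have hexp : ∀ η, Real.exp (l * ψ (i + 1) η) ≤ 1 + l * ψ (i + 1) η + l ^ 2 * b ^ 2 := fun η => by
    have h1 := Real.abs_exp_sub_one_sub_id_le (hlp η)
    have h2 : (l * ψ (i + 1) η) ^ 2 ≤ l ^ 2 * b ^ 2 := by
      rw [mul_pow]
      refine mul_le_mul_of_nonneg_left ?_ (by positivity)
      exact sq_le_sq' (by linarith [(abs_le.1 (h.pb (i + 1) η)).1])
        (abs_le.1 (h.pb (i + 1) η)).2
    linarith [(abs_le.1 h1).2]
  have hexp3 : ∀ η, Real.exp (l * ψ (i + 1) η) ≤ 3 := fun η =>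
    (Real.exp_le_exp.2 (abs_le.1 (hlp η)).2).trans
      (by linarith [Real.exp_one_lt_d9])
  have hψi : Integrable (ψ (i + 1)) μ := by
    refine Integrable.of_bound (h.pm _).aestronglyMeasurable b ?_
    exact Filter.Eventually.of_forall fun η => by
      rw [Real.norm_eq_abs]
      exact h.pb _ _
  have i1 : Integrable (fun η => w η * Real.exp (l * ψ (i + 1) η)) μ := wint1 h hw1
  have i2 : Integrable (fun η => (w η * Real.exp (l * ψ (i + 1) η)) * P (i + 1) η) μ :=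
    wint h hw1 (Pt_int h _)
  have i3 : Integrable (fun η => w η * P (i + 1) η) μ := wint h hw (Pt_int h _)
  have i4 : Integrable (fun η => w η * P i η) μ := wint h hw (Pt_int h _)
  have i5 : Integrable (fun η => w η * ψ (i + 1) η) μ := wint h hw hψi
  have s1 : ∫ η, (w η * Real.exp (l * ψ (i + 1) η)) * (1 + P (i + 1) η) ∂μ =
      (∫ η, w η * Real.exp (l * ψ (i + 1) η) ∂μ) +
        ∫ η, (w η * Real.exp (l * ψ (i + 1) η)) * P (i + 1) η ∂μ := by
    rw [← integral_add i1 i2]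
    exact integral_congr_ae (Filter.Eventually.of_forall fun η => by simp only; ring)
  have s2 : ∫ η, w η * (1 + P i η) ∂μ = (∫ η, w η ∂μ) + ∫ η, w η * P i η ∂μ := by
    rw [← integral_add hpi i4]
    exact integral_congr_ae (Filter.Eventually.of_forall fun η => by simp only; ring)
  have s3 : ∫ η, w η * Real.exp (l * ψ (i + 1) η) ∂μ ≤
      (1 + l ^ 2 * b ^ 2) * (∫ η, w η ∂μ) + l * ∫ η, w η * ψ (i + 1) η ∂μ := by
    rw [← integral_const_mul, ← integral_const_mul, ← integral_add (hpi.const_mul _)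
      (i5.const_mul _)]
    refine integral_mono i1 ((hpi.const_mul _).add (i5.const_mul _)) fun η => ?_
    simp only
    calc w η * Real.exp (l * ψ (i + 1) η) ≤ w η * (1 + l * ψ (i + 1) η + l ^ 2 * b ^ 2) :=
          mul_le_mul_of_nonneg_left (hexp η) (h.Tn i w hw η)
      _ = _ := by ring
  have s4 : ∫ η, (w η * Real.exp (l * ψ (i + 1) η)) * P (i + 1) η ∂μ ≤
      3 * ∫ η, w η * P (i + 1) η ∂μ := by
    rw [← integral_const_mul]
    refine integral_mono i2 (i3.const_mul _) fun η => ?_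
    simp only
    calc (w η * Real.exp (l * ψ (i + 1) η)) * P (i + 1) η ≤ (w η * 3) * P (i + 1) η :=
          mul_le_mul_of_nonneg_right (mul_le_mul_of_nonneg_left (hexp3 η) (h.Tn i w hw η))
            (Pt_nn h hr _ _)
      _ = _ := by ring
  have s5 := pot h hr hC hi hw
  have s6 := h.H4 i hi w hw
  have s7 := int_Pt h hw i
  have hI0 : 0 ≤ ∫ η, w η ∂μ := integral_nonneg (h.Tn i w hw)
  have hP0 : 0 ≤ ∫ η, w η * P i η ∂μ :=
    integral_nonneg fun η => mul_nonneg (h.Tn i w hw η) (Pt_nn h hr _ _)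
  have hx1 := h.xp (i + 1)
  have hx0 := h.xp i
  have hV0 : 0 ≤ ∫ η, w η * v i η ∂μ :=
    integral_nonneg fun η => mul_nonneg (h.Tn i w hw η) (h.vn _ _)
  have eV : (∫ η, w η * v i η ∂μ) / x (i + 1) ≤ r * (∫ η, w η * v i η ∂μ) / x i := by
    rw [div_le_div_iff₀ hx1 hx0]
    calc (∫ η, w η * v i η ∂μ) * x i ≤ (∫ η, w η * v i η ∂μ) * (r * x (i + 1)) :=
          mul_le_mul_of_nonneg_left (h.xs i hi) hV0
      _ = _ := by ring
  have eN : (∫ η, w η * N i (i + 1) η ∂μ) / x (i + 1) ≤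
      ∑ s ∈ Finset.range (k - i), (∫ η, w η * N i (i + 1 + s) η ∂μ) / (x (i + 1) * 2 ^ s) := by
    have hmem : 0 ∈ Finset.range (k - i) := Finset.mem_range.2 (by omega)
    have := Finset.single_le_sum (f := fun s =>
      (∫ η, w η * N i (i + 1 + s) η ∂μ) / (x (i + 1) * 2 ^ s)) (fun s _ => by
        refine div_nonneg (integral_nonneg fun η => mul_nonneg (h.Tn i w hw η) (h.Nn _ _ _)) ?_
        positivity) hmem
    simpa using this
  have s8 : ∫ η, w η * ψ (i + 1) η ∂μ ≤ e * (∫ η, w η ∂μ) + 2 * ∫ η, w η * P i η ∂μ := by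
    rw [s7]
    have hn : 0 ≤ ∑ s ∈ Finset.range (k - i),
        (∫ η, w η * N i (i + 1 + s) η ∂μ) / (x (i + 1) * 2 ^ s) :=
      Finset.sum_nonneg fun s _ => by
        refine div_nonneg (integral_nonneg fun η => mul_nonneg (h.Tn i w hw η) (h.Nn _ _ _)) ?_
        positivity
    have e9 : 2 * (∫ η, w η * v i η ∂μ) / x (i + 1) =
      2 * ((∫ η, w η * v i η ∂μ) / x (i + 1)) := by ring
    rw [e9] at s6
    linarith
  rw [s1, s2]
  have s9 := mul_le_mul_of_nonneg_left s8 hl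
  have hR : 0 ≤ l * e + l ^ 2 * b ^ 2 + 15 * C * r := by positivity
  have hR2 : 0 ≤ (l * e + l ^ 2 * b ^ 2 + 15 * C * r) * ∫ η, w η * P i η ∂μ := mul_nonneg hR hP0
  have hR3 : (2 * l + 9 * r) * (∫ η, w η * P i η ∂μ) ≤ 1 * ∫ η, w η * P i η ∂μ :=
    mul_le_mul_of_nonneg_right hlr hP0
  nlinarith [s3, s4, s5, s9, hR2, hR3]

/-- **EXM, abstract form.** -/
theorem exmA47 (h : Rc μ k x r C e b l T N v ψ) (hr : 0 ≤ r) (hC : 0 ≤ C) (he : 0 ≤ e)
    (hl : 0 ≤ l) (hlb : l * b ≤ 1) (hlr : 2 * l + 9 * r ≤ 1) :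
    ∫ η, Real.exp (l * ∑ j ∈ Finset.range k, ψ (j + 1) η) ∂μ ≤
      (1 + l * e + l ^ 2 * b ^ 2 + 15 * C * r) ^ k := by
  have hR : 0 ≤ 1 + l * e + l ^ 2 * b ^ 2 + 15 * C * r := by positivity
  have key : ∀ i : ℕ, i ≤ k →
      T i (fun η => Real.exp (l * ∑ j ∈ Finset.range i, ψ (j + 1) η)) ∧
      ∫ η, Real.exp (l * ∑ j ∈ Finset.range i, ψ (j + 1) η) * (1 + Pt k x r N v i η) ∂μ ≤
        (1 + l * e + l ^ 2 * b ^ 2 + 15 * C * r) ^ i := by
    intro i
    induction i with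
    | zero =>
      intro _
      refine ⟨by simpa using h.T0, ?_⟩
      have : ∀ η, Pt k x r N v 0 η = 0 := fun η => by
        unfold Pt
        rw [h.v0]
        simp [h.N0]
      simp [this]
    | succ i ih =>
      intro hi
      obtain ⟨h1, h2⟩ := ih (by omega)
      have h3 := h.Ts i (by omega) _ h1
      have e1 : (fun η => Real.exp (l * ∑ j ∈ Finset.range i, ψ (j + 1) η) *
          Real.exp (l * ψ (i + 1) η)) =
          fun η => Real.exp (l * ∑ j ∈ Finset.range (i + 1), ψ (j + 1) η) := by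
        funext η
        rw [Finset.sum_range_succ, mul_add, Real.exp_add]
      rw [e1] at h3
      refine ⟨h3, ?_⟩
      have h4 := stepR h hr hC he hl hlb hlr (by omega : i < k) h1
      have e2 : ∀ η, Real.exp (l * ∑ j ∈ Finset.range (i + 1), ψ (j + 1) η) =
          Real.exp (l * ∑ j ∈ Finset.range i, ψ (j + 1) η) * Real.exp (l * ψ (i + 1) η) :=
        fun η => by rw [Finset.sum_range_succ, mul_add, Real.exp_add]
      simp_rw [e2]
      refine h4.trans ?_
      rw [pow_succ, mul_comm]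
      exact mul_le_mul_of_nonneg_right h2 hR
  obtain ⟨h1, h2⟩ := key k le_rfl
  refine le_trans ?_ h2
  refine integral_mono (wint1 h h1) ?_ fun η => ?_
  · have : (fun η => Real.exp (l * ∑ j ∈ Finset.range k, ψ (j + 1) η) *
      (1 + Pt k x r N v k η)) = fun η => Real.exp (l * ∑ j ∈ Finset.range k, ψ (j + 1) η) +
        Real.exp (l * ∑ j ∈ Finset.range k, ψ (j + 1) η) * Pt k x r N v k η := by
      funext η
      ring
    rw [this]
    exact (wint1 h h1).add (wint h h1 (Pt_int h _))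
  · simp only
    have := Pt_nn h hr k η
    have h5 : 0 < Real.exp (l * ∑ j ∈ Finset.range k, ψ (j + 1) η) := Real.exp_pos _
    nlinarith

end Pool.Agent.W_7d29a1_SNP
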