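import Pool.Agent.W_7d29a1_SNP.ExmA47
import Pool.Agent.W_7d29a1_PL.Sing79
import Pool.Agent.W_7d29a1_Q29.NTa66
import Pool.Agent.W_7d29a1_SP.Bas15

/-!
EXM for the polymer (THEOREM SNP, helper28): the clipped fluctuations of well separated levels are
nearly independent (helper47).
-/

set_option autoImplicit false

namespace Pool.Agent.W_7d29a1_SNP

open MeasureTheory ProbabilityTheory Filter Topology Pool.Agent.W_MP_7d29a1_pr
  Pool.Agent.W_7d29a1_h46 Pool.Agent.W_7d29a1_h46u Pool.Agent.W_7d29a1_D2.B35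
  Pool.Agent.W_7d29a1_Q29 Pool.Agent.W_7d29a1_R34 Pool.Agent.W_7d29a1_SP
  Pool.Agent.W_7d29a1_SP.C79

variable {d : ℕ} {ρ : Measure ℝ}

/-- The mean of `F (X_k)` over the position of the polymer at the time `t`. -/
noncomputable def Uf (β : ℝ) (h : Vec d) (t k : ℕ) (F : ℝ → ℝ) (η : Env d) : ℝ :=
  ∑ s : Fin t → Step d, FreeU_p β h t s η * F (X β h (sh t (pos s t) η) k)

lemma Uf_int [IsProbabilityMeasure ρ] (hd : 0 < d) (β : ℝ) (h : Vec d) (t k : ℕ) {F : ℝ → ℝ}
    (hFm : Measurable F) (hF : Integrable (fun η => F (X β h η k)) (law d ρ)) {w : Env d → ℝ}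
    (hwm : Measurable w) {K : ℝ} (hwK : ∀ η, |w η| ≤ K) (hwd : DependsOn w (Pa d t)) :
    Integrable (fun η => w η * Uf β h t k F η) (law d ρ) ∧
      ∫ η, w η * Uf β h t k F η ∂(law d ρ) =
        (∫ η, w η ∂(law d ρ)) * ∫ η, F (X β h η k) ∂(law d ρ) := by
  have hGm : Measurable (fun η : Env d => F (X β h η k)) := hFm.comp (measurable_X β h k)
  have hXs : ∀ y : Site d, Integrable (fun η => F (X β h (sh t y η) k)) (law d ρ) :=
    fun y => (mp_sh t y).integrable_comp_of_integrable hF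
  set v : (Fin t → Step d) → Env d → ℝ := fun s η => w η * FreeU_p β h t s η with hv
  have hvm : ∀ s, Measurable (v s) := fun s => hwm.mul (FreeU_meas β h t s)
  have hvn : ∀ s η, ‖v s η‖ ≤ K := fun s η => by
    have h2 : ‖FreeU_p β h t s η‖ ≤ 1 := by
      rw [Real.norm_eq_abs, abs_of_nonneg (FreeU_nonneg hd β h t s η)]
      exact FreeU_le_one hd β h t s η
    show ‖w η * FreeU_p β h t s η‖ ≤ K
    rw [norm_mul]
    calc ‖w η‖ * ‖FreeU_p β h t s η‖ ≤ ‖w η‖ * 1 :=
          mul_le_mul_of_nonneg_left h2 (norm_nonneg _)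
      _ ≤ K := by
          rw [mul_one]
          exact hwK η
  have i1 : ∀ s, Integrable (v s) (law d ρ) := fun s =>
    (integrable_const K).mono' (hvm s).aestronglyMeasurable
      (Eventually.of_forall fun η => hvn s η)
  have i2 : ∀ s, Integrable (fun η => v s η * F (X β h (sh t (pos s t) η) k))
      (law d ρ) := fun s =>
    (hXs (pos s t)).bdd_mul (c := K) (hvm s).aestronglyMeasurable
      (Eventually.of_forall fun η => hvn s η)
  have e1 : ∀ s, ∫ η, v s η * F (X β h (sh t (pos s t) η) k) ∂(law d ρ) =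
      (∫ η, v s η ∂(law d ρ)) * ∫ η, F (X β h η k) ∂(law d ρ) := by
    intro s
    have h1 := integral_indep (ρ := ρ) (Pa d t) (F := v s)
      (G := fun η => F (X β h (sh t (pos s t) η) k)) (hvm s)
      (hGm.comp (measurable_sh t (pos s t))) (fun η η' hη => by
        have h2 := hwd hη
        have h3 := FreeU_dep β h t s hη
        show w η * FreeU_p β h t s η = w η' * FreeU_p β h t s η'
        rw [h2, h3]) (fun η η' hη => by
        have h2 := FreeU_dep2 β h t k (pos s t) hη
        show F (X β h (sh t (pos s t) η) k) = F (X β h (sh t (pos s t) η') k)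
        have h3 : X β h (sh t (pos s t) η) k = X β h (sh t (pos s t) η') k := h2
        rw [h3])
    rw [h1, integral_sh t (pos s t) hGm]
  have hpt : ∀ η, w η * Uf β h t k F η = ∑ s : Fin t → Step d,
      v s η * F (X β h (sh t (pos s t) η) k) := by
    intro η
    unfold Uf
    rw [Finset.mul_sum]
    refine Finset.sum_congr rfl fun s _ => ?_
    show _ = w η * FreeU_p β h t s η * _
    ring
  have i4 : Integrable (fun η => ∑ s : Fin t → Step d,
      v s η * F (X β h (sh t (pos s t) η) k)) (law d ρ) :=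
    integrable_finsetSum _ fun s _ => i2 s
  have e2 : ∫ η, ∑ s : Fin t → Step d, v s η ∂(law d ρ) = ∫ η, w η ∂(law d ρ) := by
    refine integral_congr_ae (Eventually.of_forall fun η => ?_)
    show ∑ s : Fin t → Step d, w η * FreeU_p β h t s η = w η
    rw [← Finset.mul_sum, FreeU_sum hd, mul_one]
  simp only [hpt]
  refine ⟨i4, ?_⟩
  rw [integral_finsetSum _ fun s _ => i2 s, Finset.sum_congr rfl fun s _ => e1 s,
    ← Finset.sum_mul, ← integral_finsetSum _ fun s _ => i1 s, e2]

lemma Uf_pt (hd : 0 < d) (β : ℝ) (h : Vec d) (t k : ℕ) (η : Env d) :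
    X β h η t + Uf β h t k (fun z => z) η ≤ X β h η (t + k) := FreeU_pt hd β h t k η

/-- The weights: bounded functions of the rows `≤ m`. -/
def Wt (d m : ℕ) (w : Env d → ℝ) : Prop :=
  Measurable w ∧ (∀ η, 0 ≤ w η) ∧ (∃ K : ℝ, ∀ η, w η ≤ K) ∧ DependsOn w (Pa d m)

lemma Wt_mono {m m' : ℕ} (hm : m ≤ m') {w : Env d → ℝ} (hw : Wt d m w) : Wt d m' w :=
  ⟨hw.1, hw.2.1, hw.2.2.1, fun η η' hη => hw.2.2.2 fun p hp => hη p (by
    change p.1 ≤ m'
    have h1 : p.1 ≤ m := hp
    omega)⟩

lemma Wt_int [IsProbabilityMeasure ρ] {m : ℕ} {w : Env d → ℝ} (hw : Wt d m w) {f : Env d → ℝ}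
    (hf : Integrable f (law d ρ)) : Integrable (fun η => w η * f η) (law d ρ) := by
  obtain ⟨h1, h2, ⟨K, hK⟩, _⟩ := hw
  refine hf.bdd_mul (c := K) h1.aestronglyMeasurable ?_
  exact Eventually.of_forall fun η => by
    rw [Real.norm_of_nonneg (h2 η)]
    exact hK η

lemma Wt_int1 [IsProbabilityMeasure ρ] {m : ℕ} {w : Env d → ℝ} (hw : Wt d m w) :
    Integrable w (law d ρ) := by
  have := Wt_int (ρ := ρ) hw (integrable_const (1 : ℝ))
  simpa using this

/-- The expected fluctuation at the time `n` given the rows `≤ m`, positive part. -/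
noncomputable def Np (ρ : Measure ℝ) (β : ℝ) (h : Vec d) (m n : ℕ) (η : Env d) : ℝ :=
  max (cE ρ (Pa d m) (fun η => X β h η n) η - A ρ β h n) 0

/-- The negative part of the fluctuation at the time `m`. -/
noncomputable def Vn (ρ : Measure ℝ) (β : ℝ) (h : Vec d) (m : ℕ) (η : Env d) : ℝ :=
  max (A ρ β h m - X β h η m) 0

variable [IsProbabilityMeasure ρ]

lemma Np_int (hd : 0 < d) (hρ : EM ρ) (β : ℝ) (h : Vec d) (m n : ℕ) :
    Integrable (Np ρ β h m n) (law d ρ) := by
  have h1 := (NT66.int_abs_cE (ρ := ρ) (concU hd hρ β h n).1 (Pa d m)).1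
  exact (h1.sub (integrable_const _)).pos_part

lemma Vn_int (hd : 0 < d) (hρ : EM ρ) (β : ℝ) (h : Vec d) (m : ℕ) :
    Integrable (Vn ρ β h m) (law d ρ) :=
  ((integrable_const _).sub (concU hd hρ β h m).1).pos_part

/-- A weight of the rows `≤ m` sees at most the expected fluctuation. -/
lemma wX (hd : 0 < d) (hρ : EM ρ) (β : ℝ) (h : Vec d) (m n : ℕ) {w : Env d → ℝ}
    (hw : Wt d m w) :
    ∫ η, w η * (X β h η n - A ρ β h n) ∂(law d ρ) ≤ ∫ η, w η * Np ρ β h m n η ∂(law d ρ) := by
  have hX := (concU (ρ := ρ) hd hρ β h n).1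
  have hc := (NT66.int_abs_cE (ρ := ρ) hX (Pa d m)).1
  have i1 : Integrable (fun η => w η * X β h η n) (law d ρ) := Wt_int hw hX
  have i2 : Integrable (fun η => w η * cE ρ (Pa d m) (fun η => X β h η n) η) (law d ρ) :=
    Wt_int hw hc
  have i3 := (Wt_int1 (ρ := ρ) hw).mul_const (A ρ β h n)
  have e1 : ∫ η, w η * X β h η n ∂(law d ρ) =
      ∫ η, w η * cE ρ (Pa d m) (fun η => X β h η n) η ∂(law d ρ) := by
    have h1 := int_mul_cE (ρ := ρ) (Pa d m) (F := fun η => X β h η n) (H := w)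
      (by simpa [mul_comm] using i1) hw.2.2.2
    simpa [mul_comm] using h1
  have e2 : ∫ η, w η * (X β h η n - A ρ β h n) ∂(law d ρ) =
      ∫ η, w η * (cE ρ (Pa d m) (fun η => X β h η n) η - A ρ β h n) ∂(law d ρ) := by
    simp only [mul_sub]
    rw [integral_sub i1 i3, integral_sub i2 i3, e1]
  rw [e2]
  refine integral_mono (Wt_int hw (hc.sub (integrable_const _)))
    (Wt_int hw (Np_int hd hρ β h m n)) fun η => ?_
  exact mul_le_mul_of_nonneg_left (le_max_left _ _) (hw.2.1 η)

omit [IsProbabilityMeasure ρ] in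
/-- The gap of two times. -/
lemma gap47 (β : ℝ) (h : Vec d) (a b : ℕ) (hE : En ρ β h b ≤ En ρ β h (a + b)) :
    A ρ β h (a + b) - A ρ β h a - A ρ β h b ≤ En ρ β h a := by
  unfold En at hE ⊢
  push_cast at hE
  linarith

/-- H2. -/
lemma H2_47 (hd : 0 < d) (hρ : EM ρ) (β : ℝ) (h : Vec d) {m a b : ℕ} (hma : m ≤ a)
    (hE : En ρ β h b ≤ En ρ β h (a + b)) {w : Env d → ℝ} (hw : Wt d m w) :
    ∫ η, w η * Np ρ β h a (a + b) η ∂(law d ρ) ≤
      (∫ η, w η * Np ρ β h m (a + b) η ∂(law d ρ)) + (∫ η, w η * Vn ρ β h a η ∂(law d ρ)) +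
        En ρ β h a * ∫ η, w η ∂(law d ρ) := by
  set n := a + b with hn
  have hX := (concU (ρ := ρ) hd hρ β h n).1
  have hc := (NT66.int_abs_cE (ρ := ρ) hX (Pa d a)).1
  have hcm : Measurable (cE ρ (Pa d a) (fun η => X β h η n)) :=
    measurable_cE (measurable_X β h n) _
  set D : Env d → ℝ := fun η => cE ρ (Pa d a) (fun η => X β h η n) η - A ρ β h n with hD
  have hDm : Measurable D := hcm.sub measurable_const
  have hDd : DependsOn D (Pa d a) := by
    intro η η' hη
    have := cE_dep (ρ := ρ) (Pa d a) (fun η => X β h η n) hη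
    show cE ρ (Pa d a) (fun η => X β h η n) η - A ρ β h n = cE ρ (Pa d a) (fun η => X β h η n) η' -
      A ρ β h n
    rw [this]
  classical
  set c : Env d → ℝ := fun η => if 0 < D η then 1 else 0 with hc'
  have hcm' : Measurable c := Measurable.ite (measurableSet_lt measurable_const hDm)
    measurable_const measurable_const
  have hcd : DependsOn c (Pa d a) := by
    intro η η' hη
    have := hDd hη
    show (if 0 < D η then (1 : ℝ) else 0) = if 0 < D η' then 1 else 0
    rw [this]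
  have hc0 : ∀ η, 0 ≤ c η := fun η => by
    show (0 : ℝ) ≤ if 0 < D η then 1 else 0
    split_ifs <;> norm_num
  have hc1 : ∀ η, c η ≤ 1 := fun η => by
    show (if 0 < D η then (1 : ℝ) else 0) ≤ 1
    split_ifs <;> norm_num
  obtain ⟨K, hK⟩ := hw.2.2.1
  have hK0 : 0 ≤ K := (hw.2.1 (fun _ => 0)).trans (hK _)
  have hwa := Wt_mono (d := d) hma hw
  -- the two weights
  have hw1 : Wt d a (fun η => w η * c η) := by
    refine ⟨hw.1.mul hcm', fun η => mul_nonneg (hw.2.1 η) (hc0 η), ⟨K, fun η => ?_⟩, ?_⟩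
    · calc w η * c η ≤ w η * 1 := mul_le_mul_of_nonneg_left (hc1 η) (hw.2.1 η)
        _ ≤ K := by
          rw [mul_one]
          exact hK η
    · intro η η' hη
      show w η * c η = w η' * c η'
      rw [hwa.2.2.2 hη, hcd hη]
  have hw2 : Wt d a (fun η => w η * (1 - c η)) := by
    refine ⟨hw.1.mul (measurable_const.sub hcm'),
      fun η => mul_nonneg (hw.2.1 η) (by linarith [hc1 η]), ⟨K, fun η => ?_⟩, ?_⟩
    · calc w η * (1 - c η) ≤ w η * 1 :=
          mul_le_mul_of_nonneg_left (by linarith [hc0 η]) (hw.2.1 η)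
        _ ≤ K := by
          rw [mul_one]
          exact hK η
    · intro η η' hη
      show w η * (1 - c η) = w η' * (1 - c η')
      rw [hwa.2.2.2 hη, hcd hη]
  -- `w Np = w c D`
  have e1 : ∀ η, w η * Np ρ β h a n η = (w η * c η) * D η := by
    intro η
    show w η * max (D η) 0 = w η * (if 0 < D η then 1 else 0) * D η
    split_ifs with h1
    · rw [max_eq_left h1.le]
      ring
    · rw [max_eq_right (not_lt.1 h1)]
      ring
  have i1 : Integrable (fun η => (w η * c η) * X β h η n) (law d ρ) := Wt_int hw1 hX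
  have e2 : ∫ η, (w η * c η) * D η ∂(law d ρ) =
      ∫ η, (w η * c η) * (X β h η n - A ρ β h n) ∂(law d ρ) := by
    have h1 := int_mul_cE (ρ := ρ) (Pa d a) (F := fun η => X β h η n)
      (H := fun η => w η * c η) (by simpa [mul_comm] using i1) hw1.2.2.2
    have i2 : Integrable (fun η => (w η * c η) * cE ρ (Pa d a) (fun η => X β h η n) η)
      (law d ρ) := Wt_int hw1 hc
    have i3 := (Wt_int1 (ρ := ρ) hw1).mul_const (A ρ β h n)
    have e3 : ∀ η, (w η * c η) * D η =
        (w η * c η) * cE ρ (Pa d a) (fun η => X β h η n) η - (w η * c η) * A ρ β h n :=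
      fun η => mul_sub _ _ _
    have e4 : ∀ η, (w η * c η) * (X β h η n - A ρ β h n) =
        (w η * c η) * X β h η n - (w η * c η) * A ρ β h n := fun η => mul_sub _ _ _
    simp only [e3, e4]
    rw [integral_sub i2 i3, integral_sub i1 i3]
    congr 1
    have h2 : ∫ η, (w η * c η) * X β h η n ∂(law d ρ) =
        ∫ η, X β h η n * (w η * c η) ∂(law d ρ) := by
      simp only [mul_comm]
    have h3 : ∫ η, (w η * c η) * cE ρ (Pa d a) (fun η => X β h η n) η ∂(law d ρ) =
        ∫ η, cE ρ (Pa d a) (fun η => X β h η n) η * (w η * c η) ∂(law d ρ) := by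
      simp only [mul_comm]
    rw [h2, h3, h1]
  simp only [e1]
  rw [e2]
  -- split
  have iY := intX15 (ρ := ρ) hd hρ β h n
  have j1 := Wt_int (ρ := ρ) hw iY
  have j2 := Wt_int (ρ := ρ) hw2 iY
  have e5 : ∫ η, (w η * c η) * (X β h η n - A ρ β h n) ∂(law d ρ) =
      (∫ η, w η * (X β h η n - A ρ β h n) ∂(law d ρ)) -
        ∫ η, (w η * (1 - c η)) * (X β h η n - A ρ β h n) ∂(law d ρ) := by
    rw [← integral_sub j1 j2]
    refine integral_congr_ae (Eventually.of_forall fun η => ?_)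
    simp only
    ring
  rw [e5]
  have s1 := wX (ρ := ρ) hd hρ β h m n hw
  -- the second part by Jensen
  obtain ⟨u1, u2⟩ := Uf_int (ρ := ρ) hd β h a b (F := fun z => z) measurable_id
    (concU (ρ := ρ) hd hρ β h b).1 hw2.1 (K := K) (fun η => by
      rw [abs_of_nonneg (hw2.2.1 η)]
      calc w η * (1 - c η) ≤ w η * 1 :=
          mul_le_mul_of_nonneg_left (by linarith [hc0 η]) (hw.2.1 η)
        _ ≤ K := by
          rw [mul_one]
          exact hK η) hw2.2.2.2
  have hAb : ∫ η, X β h η b ∂(law d ρ) = A ρ β h b := rfl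
  rw [hAb] at u2
  have k1 := Wt_int (ρ := ρ) hw2 (Vn_int (ρ := ρ) hd hρ β h a)
  have k2 := Wt_int1 (ρ := ρ) hw2
  have hgap := gap47 (ρ := ρ) β h a b hE
  have hEa : 0 ≤ En ρ β h a := En_nonneg15 hd hρ β h a
  have s2 : -(∫ η, (w η * (1 - c η)) * (X β h η n - A ρ β h n) ∂(law d ρ)) ≤
      (∫ η, (w η * (1 - c η)) * Vn ρ β h a η ∂(law d ρ)) +
        En ρ β h a * ∫ η, w η * (1 - c η) ∂(law d ρ) := by
    have t1 : -(∫ η, (w η * (1 - c η)) * (X β h η n - A ρ β h n) ∂(law d ρ)) ≤
        ∫ η, ((w η * (1 - c η)) * Vn ρ β h a η + (w η * (1 - c η)) * (En ρ β h a + A ρ β h b) -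
          (w η * (1 - c η)) * Uf β h a b (fun z => z) η) ∂(law d ρ) := by
      rw [← integral_neg]
      refine integral_mono j2.neg ((k1.add (k2.mul_const _)).sub u1) fun η => ?_
      have h1 := Uf_pt (d := d) hd β h a b η
      have h2 : A ρ β h a - X β h η a ≤ Vn ρ β h a η := le_max_left _ _
      have h3 : A ρ β h n - X β h η n ≤ Vn ρ β h a η + (En ρ β h a + A ρ β h b) -
          Uf β h a b (fun z => z) η := by
        rw [hn]
        linarith
      have h4 := mul_le_mul_of_nonneg_left h3 (hw2.2.1 η)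
      simp only at h4 ⊢
      linarith
    refine t1.trans (le_of_eq ?_)
    have k12 : Integrable (fun η => (w η * (1 - c η)) * Vn ρ β h a η +
        (w η * (1 - c η)) * (En ρ β h a + A ρ β h b)) (law d ρ) := k1.add (k2.mul_const _)
    rw [integral_sub k12 u1, integral_add k1 (k2.mul_const _), u2, integral_mul_const]
    ring
  have s3 : ∫ η, (w η * (1 - c η)) * Vn ρ β h a η ∂(law d ρ) ≤
      ∫ η, w η * Vn ρ β h a η ∂(law d ρ) := by
    refine integral_mono k1 (Wt_int hwa (Vn_int hd hρ β h a)) fun η => ?_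
    refine mul_le_mul_of_nonneg_right ?_ (le_max_right _ _)
    have := mul_le_mul_of_nonneg_left (show 1 - c η ≤ 1 by linarith [hc0 η]) (hw.2.1 η)
    simpa using this
  have s4 : ∫ η, w η * (1 - c η) ∂(law d ρ) ≤ ∫ η, w η ∂(law d ρ) := by
    refine integral_mono k2 (Wt_int1 hw) fun η => ?_
    have := mul_le_mul_of_nonneg_left (show 1 - c η ≤ 1 by linarith [hc0 η]) (hw.2.1 η)
    simpa using this
  have s5 := mul_le_mul_of_nonneg_left s4 hEa
  linarith

/-- H3. -/
lemma H3_47 (hd : 0 < d) (hρ : EM ρ) (β : ℝ) (h : Vec d) {a b : ℕ}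
    (hE : En ρ β h b ≤ En ρ β h (a + b)) {w : Env d → ℝ} (hw : Wt d a w) :
    ∫ η, w η * Vn ρ β h (a + b) η ∂(law d ρ) ≤
      (Fn ρ β h b + En ρ β h a) * (∫ η, w η ∂(law d ρ)) + ∫ η, w η * Vn ρ β h a η ∂(law d ρ) := by
  obtain ⟨K, hK⟩ := hw.2.2.1
  obtain ⟨u1, u2⟩ := Uf_int (ρ := ρ) hd β h a b (F := fun z => |z - A ρ β h b|)
    (measurable_id.sub measurable_const).abs (intX15 (ρ := ρ) hd hρ β h b).abs hw.1 (K := K)
    (fun η => by
      rw [abs_of_nonneg (hw.2.1 η)]
      exact hK η) hw.2.2.2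
  have hF : ∫ η, |X β h η b - A ρ β h b| ∂(law d ρ) = Fn ρ β h b := rfl
  rw [hF] at u2
  have k1 := Wt_int (ρ := ρ) hw (Vn_int (ρ := ρ) hd hρ β h a)
  have k2 := Wt_int1 (ρ := ρ) hw
  have k3 := Wt_int (ρ := ρ) hw (Vn_int (ρ := ρ) hd hρ β h (a + b))
  have hgap := gap47 (ρ := ρ) β h a b hE
  have hEa : 0 ≤ En ρ β h a := En_nonneg15 hd hρ β h a
  have hpt : ∀ η, Vn ρ β h (a + b) η ≤
      Vn ρ β h a η + En ρ β h a + Uf β h a b (fun z => |z - A ρ β h b|) η := by
    intro η
    have hU0 : 0 ≤ Uf β h a b (fun z => |z - A ρ β h b|) η :=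
      Finset.sum_nonneg fun s _ => mul_nonneg (FreeU_nonneg hd β h a s η) (abs_nonneg _)
    have hv0 : 0 ≤ Vn ρ β h a η := le_max_right _ _
    refine max_le ?_ (by positivity)
    have h1 := Uf_pt (d := d) hd β h a b η
    have h2 : A ρ β h a - X β h η a ≤ Vn ρ β h a η := le_max_left _ _
    have h3 : A ρ β h b - Uf β h a b (fun z => z) η ≤ Uf β h a b (fun z => |z - A ρ β h b|) η := by
      have e1 : A ρ β h b = ∑ s : Fin a → Step d, FreeU_p β h a s η * A ρ β h b := by
        rw [← Finset.sum_mul, FreeU_sum hd, one_mul]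
      unfold Uf
      nth_rewrite 1 [e1]
      rw [← Finset.sum_sub_distrib]
      refine Finset.sum_le_sum fun s _ => ?_
      rw [← mul_sub]
      refine mul_le_mul_of_nonneg_left ?_ (FreeU_nonneg hd β h a s η)
      have := neg_abs_le (X β h (sh a (pos s a) η) b - A ρ β h b)
      linarith
    linarith
  have h1 : ∫ η, w η * Vn ρ β h (a + b) η ∂(law d ρ) ≤
      ∫ η, (w η * Vn ρ β h a η + w η * En ρ β h a +
        w η * Uf β h a b (fun z => |z - A ρ β h b|) η) ∂(law d ρ) := by
    refine integral_mono k3 ((k1.add (k2.mul_const _)).add u1) fun η => ?_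
    have := mul_le_mul_of_nonneg_left (hpt η) (hw.2.1 η)
    simp only at this ⊢
    linarith
  have k12 : Integrable (fun η => w η * Vn ρ β h a η + w η * En ρ β h a) (law d ρ) :=
    k1.add (k2.mul_const _)
  rw [integral_add k12 u1, integral_add k1 (k2.mul_const _), u2, integral_mul_const] at h1
  linarith

/-- The clipped fluctuation of a level. -/
noncomputable def cl47 (ρ : Measure ℝ) (β : ℝ) (h : Vec d) (m : ℕ) (x u b : ℝ) (η : Env d) : ℝ :=
  max (min ((X β h η m - A ρ β h m) / x) u) (-b)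

/-- H4. -/
lemma H4_47 (hd : 0 < d) (hρ : EM ρ) (β : ℝ) (h : Vec d) {a b : ℕ}
    (hE : En ρ β h b ≤ En ρ β h (a + b)) {x u B : ℝ} (hx : 0 < x) (hB : 0 < B)
    {w : Env d → ℝ} (hw : Wt d a w) :
    ∫ η, w η * cl47 ρ β h (a + b) x u B η ∂(law d ρ) ≤
      (En ρ β h a / x + Va ρ β h b / (4 * B * x ^ 2)) * (∫ η, w η ∂(law d ρ)) +
        (∫ η, w η * Np ρ β h a (a + b) η ∂(law d ρ)) / x +
        (∫ η, w η * Vn ρ β h a η ∂(law d ρ)) / x := by
  obtain ⟨K, hK⟩ := hw.2.2.1
  have hKa : ∀ η, |w η| ≤ K := fun η => by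
    rw [abs_of_nonneg (hw.2.1 η)]
    exact hK η
  obtain ⟨u1, u2⟩ := Uf_int (ρ := ρ) hd β h a b (F := fun z => (z - A ρ β h b) ^ 2)
    ((measurable_id.sub measurable_const).pow_const 2) (N85.Va_int (ρ := ρ) hd hρ β h b) hw.1
    (K := K) hKa hw.2.2.2
  have hV : ∫ η, (X β h η b - A ρ β h b) ^ 2 ∂(law d ρ) = Va ρ β h b := rfl
  rw [hV] at u2
  have k1 := Wt_int (ρ := ρ) hw (Vn_int (ρ := ρ) hd hρ β h a)
  have k2 := Wt_int1 (ρ := ρ) hw
  have k3 := Wt_int (ρ := ρ) hw (intX15 (ρ := ρ) hd hρ β h (a + b))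
  have hgap := gap47 (ρ := ρ) β h a b hE
  have hEa : 0 ≤ En ρ β h a := En_nonneg15 hd hρ β h a
  -- pointwise
  have hpt : ∀ η, cl47 ρ β h (a + b) x u B η ≤ (X β h η (a + b) - A ρ β h (a + b)) / x +
      (Vn ρ β h a η + En ρ β h a) / x +
      Uf β h a b (fun z => (z - A ρ β h b) ^ 2) η / (4 * B * x ^ 2) := by
    intro η
    set t := (X β h η (a + b) - A ρ β h (a + b)) / x with ht
    have hU0 : 0 ≤ Uf β h a b (fun z => (z - A ρ β h b) ^ 2) η :=
      Finset.sum_nonneg fun s _ => mul_nonneg (FreeU_nonneg hd β h a s η) (sq_nonneg _)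
    have hv0 : 0 ≤ Vn ρ β h a η := le_max_right _ _
    have hq : 0 ≤ (Vn ρ β h a η + En ρ β h a) / x := by positivity
    have hq2 : 0 ≤ Uf β h a b (fun z => (z - A ρ β h b) ^ 2) η / (4 * B * x ^ 2) := by positivity
    refine max_le ((min_le_left _ _).trans (by linarith)) ?_
    -- `-B ≤ t + ...`
    have h1 := Uf_pt (d := d) hd β h a b η
    have h2 : A ρ β h a - X β h η a ≤ Vn ρ β h a η := le_max_left _ _
    have h3 : A ρ β h b - Uf β h a b (fun z => z) η - B * x ≤
        Uf β h a b (fun z => (z - A ρ β h b) ^ 2) η / (4 * B * x) := by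
      have e1 : A ρ β h b - B * x =
          ∑ s : Fin a → Step d, FreeU_p β h a s η * (A ρ β h b - B * x) := by
        rw [← Finset.sum_mul, FreeU_sum hd, one_mul]
      have e2 : A ρ β h b - Uf β h a b (fun z => z) η - B * x =
          ∑ s : Fin a → Step d, FreeU_p β h a s η *
            (A ρ β h b - B * x - X β h (sh a (pos s a) η) b) := by
        simp only [mul_sub (FreeU_p β h a _ η) (A ρ β h b - B * x) _, Finset.sum_sub_distrib]
        rw [← e1]
        unfold Uf
        ring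
      rw [e2]
      unfold Uf
      rw [Finset.sum_div]
      refine Finset.sum_le_sum fun s _ => ?_
      rw [mul_div_assoc]
      refine mul_le_mul_of_nonneg_left ?_ (FreeU_nonneg hd β h a s η)
      rw [le_div_iff₀ (by positivity)]
      have := sq_nonneg ((A ρ β h b - X β h (sh a (pos s a) η) b) - 2 * (B * x))
      nlinarith
    have h4 : A ρ β h (a + b) - X β h η (a + b) - B * x ≤
        Vn ρ β h a η + En ρ β h a +
          Uf β h a b (fun z => (z - A ρ β h b) ^ 2) η / (4 * B * x) := by linarith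
    have h5 : (A ρ β h (a + b) - X β h η (a + b) - B * x) / x ≤
        (Vn ρ β h a η + En ρ β h a +
          Uf β h a b (fun z => (z - A ρ β h b) ^ 2) η / (4 * B * x)) / x :=
      div_le_div_of_nonneg_right h4 hx.le
    have e3 : (A ρ β h (a + b) - X β h η (a + b) - B * x) / x = -t - B := by
      rw [ht]
      field_simp
      ring
    have e4 : (Vn ρ β h a η + En ρ β h a +
          Uf β h a b (fun z => (z - A ρ β h b) ^ 2) η / (4 * B * x)) / x =
        (Vn ρ β h a η + En ρ β h a) / x +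
          Uf β h a b (fun z => (z - A ρ β h b) ^ 2) η / (4 * B * x ^ 2) := by
      field_simp
    rw [e3, e4] at h5
    linarith
  have hclm : Measurable (cl47 ρ β h (a + b) x u B) :=
    ((((measurable_X β h (a + b)).sub measurable_const).div_const x).min
      measurable_const).max measurable_const
  have hclb : ∀ η, |cl47 ρ β h (a + b) x u B η| ≤ B + |u| := by
    intro η
    rw [abs_le]
    constructor
    · have : -B ≤ cl47 ρ β h (a + b) x u B η := le_max_right _ _
      have := abs_nonneg u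
      linarith
    · refine max_le ((min_le_right _ _).trans ?_) ?_
      · have := le_abs_self u
        linarith
      · have := abs_nonneg u
        linarith
  have hcli : Integrable (cl47 ρ β h (a + b) x u B) (law d ρ) :=
    Integrable.of_bound hclm.aestronglyMeasurable (B + |u|)
      (Eventually.of_forall fun η => by
        rw [Real.norm_eq_abs]
        exact hclb η)
  have h1 : ∫ η, w η * cl47 ρ β h (a + b) x u B η ∂(law d ρ) ≤
      ∫ η, (w η * (X β h η (a + b) - A ρ β h (a + b)) / x +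
        (w η * Vn ρ β h a η / x + w η * (En ρ β h a / x)) +
        w η * Uf β h a b (fun z => (z - A ρ β h b) ^ 2) η / (4 * B * x ^ 2)) ∂(law d ρ) := by
    refine integral_mono (Wt_int hw hcli) (((k3.div_const x).add
      ((k1.div_const x).add (k2.mul_const _))).add (u1.div_const _)) fun η => ?_
    have := mul_le_mul_of_nonneg_left (hpt η) (hw.2.1 η)
    simp only at this ⊢
    refine this.trans (le_of_eq ?_)
    ring
  have e5 : ∫ η, (w η * (X β h η (a + b) - A ρ β h (a + b)) / x +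
        (w η * Vn ρ β h a η / x + w η * (En ρ β h a / x)) +
        w η * Uf β h a b (fun z => (z - A ρ β h b) ^ 2) η / (4 * B * x ^ 2)) ∂(law d ρ) =
      (∫ η, w η * (X β h η (a + b) - A ρ β h (a + b)) ∂(law d ρ)) / x +
        ((∫ η, w η * Vn ρ β h a η ∂(law d ρ)) / x + (∫ η, w η ∂(law d ρ)) * (En ρ β h a / x)) +
        (∫ η, w η ∂(law d ρ)) * Va ρ β h b / (4 * B * x ^ 2) := by
    have q3 : Integrable (fun η => w η * (X β h η (a + b) - A ρ β h (a + b)) / x) (law d ρ) :=
      k3.div_const x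
    have q1 : Integrable (fun η => w η * Vn ρ β h a η / x) (law d ρ) := k1.div_const x
    have q2 : Integrable (fun η => w η * (En ρ β h a / x)) (law d ρ) := k2.mul_const _
    have q12 : Integrable (fun η => w η * Vn ρ β h a η / x + w η * (En ρ β h a / x))
      (law d ρ) := q1.add q2
    have q312 : Integrable (fun η => w η * (X β h η (a + b) - A ρ β h (a + b)) / x +
      (w η * Vn ρ β h a η / x + w η * (En ρ β h a / x))) (law d ρ) := q3.add q12
    rw [integral_add q312 (u1.div_const _), integral_add q3 q12, integral_add q1 q2,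
      integral_div, integral_div, integral_div, integral_mul_const, u2]
  rw [e5] at h1
  have h2 := wX (ρ := ρ) hd hρ β h a (a + b) hw
  have h3 : (∫ η, w η * (X β h η (a + b) - A ρ β h (a + b)) ∂(law d ρ)) / x ≤
      (∫ η, w η * Np ρ β h a (a + b) η ∂(law d ρ)) / x := div_le_div_of_nonneg_right h2 hx.le
  have e6 : (En ρ β h a / x + Va ρ β h b / (4 * B * x ^ 2)) * (∫ η, w η ∂(law d ρ)) =
      (∫ η, w η ∂(law d ρ)) * (En ρ β h a / x) +
        (∫ η, w η ∂(law d ρ)) * Va ρ β h b / (4 * B * x ^ 2) := by ring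
  rw [e6]
  linarith

end Pool.Agent.W_7d29a1_SNP
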