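import Pool.Agent.W_7d29a1_SNP.ExmI47
import Pool.Agent.W_7d29a1_SNP.DefsN28

/-!
Leaf EXM of SNP (helper28's frozen statement `ExmN`) from VAR (helper47).
-/

set_option autoImplicit false

namespace Pool.Agent.W_7d29a1_SNP

open MeasureTheory ProbabilityTheory Filter Topology Pool.Agent.W_MP_7d29a1_pr
  Pool.Agent.W_7d29a1_h46 Pool.Agent.W_7d29a1_h46u Pool.Agent.W_7d29a1_D2.B35
  Pool.Agent.W_7d29a1_Q29 Pool.Agent.W_7d29a1_R34 Pool.Agent.W_7d29a1_SP
  Pool.Agent.W_7d29a1_PL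

variable {d : ℕ} {ρ : Measure ℝ} [IsProbabilityMeasure ρ]

lemma X_zero47 (β : ℝ) (h : Vec d) (η : Env d) : X β h η 0 = 0 := by
  unfold X
  rw [Z_zero, Real.log_one]

omit [IsProbabilityMeasure ρ] in
lemma Np_zero47 (β : ℝ) (h : Vec d) (n : ℕ) (η : Env d) : Np ρ β h 0 n η = 0 := by
  unfold Np
  have hd : DependsOn (fun η : Env d => X β h η n) (Pa d 0)ᶜ := by
    intro η η' hη
    show Real.log (Z β h η n) = Real.log (Z β h η' n)
    have : Z β h η n = Z β h η' n := by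
      refine dependsOn_Z β h n fun p hp => hη p ?_
      have h1 := hp.1
      show ¬ (p.1 ≤ 0)
      omega
    rw [this]
  rw [cE_of_indep (ρ := ρ) (Pa d 0) hd η]
  show max (A ρ β h n - A ρ β h n) 0 = 0
  rw [sub_self, max_self]

lemma Vn_zero47 (β : ℝ) (h : Vec d) (η : Env d) : Vn ρ β h 0 η = 0 := by
  unfold Vn
  rw [X_zero47, A_zero15, sub_self, max_self]

omit [IsProbabilityMeasure ρ] in
lemma cl_abs47 (β : ℝ) (h : Vec d) (m : ℕ) (x : ℝ) {u b D : ℝ} (hb : 0 ≤ b) (hbD : b ≤ D)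
    (hu : u ≤ D) (η : Env d) : |cl47 ρ β h m x u b η| ≤ D := by
  rw [abs_le]
  constructor
  · have : -b ≤ cl47 ρ β h m x u b η := le_max_right _ _
    linarith
  · exact max_le ((min_le_right _ _).trans hu) (by linarith)

omit [IsProbabilityMeasure ρ] in
lemma cl_meas47 (β : ℝ) (h : Vec d) (m : ℕ) (x u b : ℝ) : Measurable (cl47 ρ β h m x u b) :=
  ((((measurable_X β h m).sub measurable_const).div_const x).min
    measurable_const).max measurable_const

omit [IsProbabilityMeasure ρ] in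
lemma cl_dep47 (β : ℝ) (h : Vec d) (m : ℕ) (x u b : ℝ) :
    DependsOn (cl47 ρ β h m x u b) (Pa d m) := by
  intro η η' hη
  unfold cl47
  have : X β h η m = X β h η' m := by
    show Real.log (Z β h η m) = Real.log (Z β h η' m)
    have : Z β h η m = Z β h η' m := dependsOn_Z β h m fun p hp => hη p hp.2
    rw [this]
  rw [this]

/-- EXM over a sequence of levels. -/
theorem exmS47 (hd : 0 < d) (hρ : EM ρ) (β : ℝ) (h : Vec d) {k : ℕ} {M : ℕ → ℕ} {x u : ℕ → ℝ}
    {r Cv b D s : ℝ} (hM0 : M 0 = 0) (hMm : ∀ i j, i < j → j ≤ k → M i ≤ M j)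
    (hx : ∀ j, 0 < x j) (hxs : ∀ j, j < k → x j ≤ r * x (j + 1)) (hr : 0 ≤ r) (hr1 : r ≤ 1)
    (hCv : 0 ≤ Cv) (hfirst : ∀ i j, i < j → j ≤ k → En ρ β h (M j - M i) ≤ En ρ β h (M j))
    (hE : ∀ i, i ≤ k → En ρ β h (M i) ≤ Cv * x i)
    (hF : ∀ i, i < k → Fn ρ β h (M (i + 1) - M i) ≤ Cv * x (i + 1))
    (hV : ∀ i, i < k → Va ρ β h (M (i + 1) - M i) ≤ Cv * x (i + 1) ^ 2)
    (hb : 0 < b) (hbD : b ≤ D) (hu : ∀ j, u j ≤ D) (hs : 0 ≤ s) (hsD : s * D ≤ 1)
    (hsr : 2 * s + 9 * r ≤ 1) :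
    ∫ η, Real.exp (s * ∑ j ∈ Finset.range k, cl47 ρ β h (M (j + 1)) (x (j + 1)) (u (j + 1)) b η)
      ∂(law d ρ) ≤ (1 + s * (Cv * r + Cv / (4 * b)) + s ^ 2 * D ^ 2 + 15 * (2 * Cv) * r) ^ k := by
  have hRc : Rc (law d ρ) k x r (2 * Cv) (Cv * r + Cv / (4 * b)) D s (fun i w => Wt d (M i) w)
      (fun i j => Np ρ β h (M i) (M j)) (fun i => Vn ρ β h (M i))
      (fun j => cl47 ρ β h (M j) (x j) (u j) b) := by
    refine ⟨hx, hxs, ?_, ?_, fun j w hw => hw.2.1, fun j w hw => hw.2.2.1, fun j w hw => hw.1,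
      fun i j η => le_max_right _ _, fun i j => Np_int hd hρ β h _ _, ?_,
      fun i η => le_max_right _ _, fun i => Vn_int hd hρ β h _, ?_,
      fun j => cl_meas47 β h _ _ _ _, fun j η => cl_abs47 β h _ _ hb.le hbD (hu j) η,
      ?_, ?_, ?_⟩
    · exact ⟨measurable_const, fun _ => zero_le_one, ⟨1, fun _ => le_rfl⟩, fun _ _ _ => rfl⟩
    · intro j hj w hw
      have hw' := Wt_mono (d := d) (hMm j (j + 1) (Nat.lt_succ_self j) hj) hw
      obtain ⟨K, hK⟩ := hw.2.2.1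
      refine ⟨hw.1.mul ((cl_meas47 β h _ _ _ _).const_mul s).exp,
        fun η => mul_nonneg (hw.2.1 η) (Real.exp_pos _).le, ⟨K * Real.exp 1, fun η => ?_⟩, ?_⟩
      · have hc := cl_abs47 (ρ := ρ) β h (M (j + 1)) (x (j + 1)) hb.le hbD (hu (j + 1)) η
        have h1 : s * cl47 ρ β h (M (j + 1)) (x (j + 1)) (u (j + 1)) b η ≤ 1 :=
          (mul_le_mul_of_nonneg_left (abs_le.1 hc).2 hs).trans hsD
        exact mul_le_mul (hK η) (Real.exp_le_exp.2 h1) (Real.exp_pos _).le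
          ((hw.2.1 η).trans (hK η))
      · intro η η' hη
        have h1 := hw'.2.2.2 hη
        have h2 := cl_dep47 (ρ := ρ) β h (M (j + 1)) (x (j + 1)) (u (j + 1)) b hη
        show w η * Real.exp (s * _) = w η' * Real.exp (s * _)
        rw [h1, h2]
    · intro j η
      show Np ρ β h (M 0) (M j) η = 0
      rw [hM0]
      exact Np_zero47 β h _ η
    · intro η
      show Vn ρ β h (M 0) η = 0
      rw [hM0]
      exact Vn_zero47 β h η
    · intro i hi j hij hjk w hw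
      have h1 := hMm (i + 1) j hij hjk
      have e1 : M (i + 1) + (M j - M (i + 1)) = M j := by omega
      have h2 := H2_47 (ρ := ρ) hd hρ β h (a := M (i + 1)) (b := M j - M (i + 1))
        (hMm i (i + 1) (Nat.lt_succ_self i) hi) (by rw [e1]; exact hfirst _ _ hij hjk) hw
      rw [e1] at h2
      refine h2.trans ?_
      have h3 : 0 ≤ ∫ η, w η ∂(law d ρ) := integral_nonneg hw.2.1
      have h4 : En ρ β h (M (i + 1)) ≤ 2 * Cv * x (i + 1) := by
        have := hE (i + 1) hi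
        have h5 : 0 ≤ Cv * x (i + 1) := mul_nonneg hCv (hx _).le
        linarith
      have := mul_le_mul_of_nonneg_right h4 h3
      linarith
    · intro i hi w hw
      have h1 := hMm i (i + 1) (Nat.lt_succ_self i) hi
      have e1 : M i + (M (i + 1) - M i) = M (i + 1) := by omega
      have h2 := H3_47 (ρ := ρ) hd hρ β h (a := M i) (b := M (i + 1) - M i)
        (by rw [e1]; exact hfirst _ _ (Nat.lt_succ_self i) hi) hw
      rw [e1] at h2
      refine h2.trans ?_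
      have h3 : 0 ≤ ∫ η, w η ∂(law d ρ) := integral_nonneg hw.2.1
      have h4 : Fn ρ β h (M (i + 1) - M i) + En ρ β h (M i) ≤ 2 * Cv * x (i + 1) := by
        have a1 := hF i hi
        have a2 := hE i hi.le
        have a3 := hxs i hi
        have a4 : r * x (i + 1) ≤ 1 * x (i + 1) := mul_le_mul_of_nonneg_right hr1 (hx _).le
        have a5 : Cv * x i ≤ Cv * x (i + 1) := mul_le_mul_of_nonneg_left (by linarith) hCv
        linarith
      have := mul_le_mul_of_nonneg_right h4 h3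
      linarith
    · intro i hi w hw
      have h1 := hMm i (i + 1) (Nat.lt_succ_self i) hi
      have e1 : M i + (M (i + 1) - M i) = M (i + 1) := by omega
      have h2 := H4_47 (ρ := ρ) hd hρ β h (a := M i) (b := M (i + 1) - M i) (u := u (i + 1))
        (by rw [e1]; exact hfirst _ _ (Nat.lt_succ_self i) hi) (hx (i + 1)) hb hw
      rw [e1] at h2
      refine h2.trans ?_
      have h3 : 0 ≤ ∫ η, w η ∂(law d ρ) := integral_nonneg hw.2.1
      have hx1 := hx (i + 1)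
      have a1 : En ρ β h (M i) / x (i + 1) ≤ Cv * r := by
        rw [div_le_iff₀ hx1]
        have a2 := hE i hi.le
        have a3 := mul_le_mul_of_nonneg_left (hxs i hi) hCv
        linarith
      have a4 : Va ρ β h (M (i + 1) - M i) / (4 * b * x (i + 1) ^ 2) ≤ Cv / (4 * b) := by
        rw [div_le_div_iff₀ (by positivity) (by positivity)]
        have a5 := mul_le_mul_of_nonneg_right (hV i hi) (show 0 ≤ 4 * b by positivity)
        linarith
      have a6 := mul_le_mul_of_nonneg_right (add_le_add a1 a4) h3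
      have a7 : 0 ≤ (∫ η, w η * Vn ρ β h (M i) η ∂(law d ρ)) / x (i + 1) :=
        div_nonneg (integral_nonneg fun η => mul_nonneg (hw.2.1 η) (le_max_right _ _)) hx1.le
      have a8 : 2 * (∫ η, w η * Vn ρ β h (M i) η ∂(law d ρ)) / x (i + 1) =
        2 * ((∫ η, w η * Vn ρ β h (M i) η ∂(law d ρ)) / x (i + 1)) := by ring
      rw [a8]
      linarith
  exact exmA47 hRc hr (by positivity) (by positivity) hs hsD hsr

/-- **Leaf EXM of SNP.** -/
theorem exmN47 (hd : 0 < d) (hρ : EM ρ) (β : ℝ) (hVar : VarN d ρ β) : ExmN d ρ β := by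
  intro c₀ Λ e₁ ε B hc hΛ he hε
  obtain ⟨Cv, hCv1, hVar'⟩ := hVar c₀ Λ B hc hΛ
  have hCv : 0 < Cv := by linarith
  set b : ℝ := Cv / ε with hb'
  have hb : 0 < b := by positivity
  refine ⟨b, hb, fun Θ hΘ => ?_⟩
  set D : ℝ := b + Cv + Θ with hD'
  have hD : 0 < D := by positivity
  set s₁ : ℝ := min (1 / 4) (min (1 / D) (ε / (4 * D ^ 2))) with hs₁
  have hs₁0 : 0 < s₁ := by positivity
  refine ⟨s₁, hs₁0, fun s hs hss => ?_⟩
  have hs4 : s ≤ 1 / 4 := hss.trans (min_le_left _ _)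
  have hsD : s ≤ 1 / D := hss.trans ((min_le_right _ _).trans (min_le_left _ _))
  have hsD2 : s ≤ ε / (4 * D ^ 2) := hss.trans ((min_le_right _ _).trans (min_le_right _ _))
  -- the spacing
  set δ : ℝ := min (1 / 18) (min (ε / (4 * Cv)) (s * ε / (120 * Cv))) with hδ
  have hδ0 : 0 < δ := by positivity
  obtain ⟨n₀, hn₀⟩ := exists_pow_lt_of_lt_one hδ0 (show (1 / 2 : ℝ) < 1 by norm_num)
  set b₂ : ℕ := n₀ + 1 with hb₂
  set r : ℝ := (1 / 2 : ℝ) ^ b₂ with hr'
  have hr0 : 0 ≤ r := by positivity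
  have hrδ : r ≤ δ := by
    have h1 : r ≤ (1 / 2 : ℝ) ^ n₀ :=
      pow_le_pow_of_le_one (by norm_num) (by norm_num) (Nat.le_succ _)
    exact h1.trans hn₀.le
  have hr18 : r ≤ 1 / 18 := hrδ.trans (min_le_left _ _)
  have hre : r ≤ ε / (4 * Cv) := hrδ.trans ((min_le_right _ _).trans (min_le_left _ _))
  have hrs : r ≤ s * ε / (120 * Cv) := hrδ.trans ((min_le_right _ _).trans (min_le_right _ _))
  refine ⟨b₂, Cv, by omega, hCv1, fun h hloc m H I hLv hI hsp => ?_⟩
  -- facts on a level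
  have hvar : ∀ p ∈ I, ∀ k : ℕ, k ≤ H p → Va ρ β h k ≤ Cv * 4 ^ p ∧ fM ρ β h k ≤ Cv * 2 ^ p := by
    intro p hp k hk
    obtain ⟨h1, h2, h3, _, _, h6⟩ := hI p hp
    refine hVar' h hloc m p hLv h1 h2 ?_ k (hk.trans h3)
    have h7 : 0 ≤ Real.log (m p) := Real.log_nonneg (by exact_mod_cast h2)
    have h8 : Cv * 1 ≤ Cv * (1 + Real.log (m p)) :=
      mul_le_mul_of_nonneg_left (by linarith) hCv.le
    linarith
  have hHmono : ∀ p ∈ I, ∀ q ∈ I, p < q → H p ≤ H q := by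
    intro p hp q hq hpq
    by_contra hcon
    have h1 := (hI p hp).2.2.2.2.1 (H q) (not_le.1 hcon)
    have h2 := (hI q hq).2.2.2.1
    have h3 : (2 : ℝ) ^ p ≤ 2 ^ q := pow_le_pow_right₀ (by norm_num) hpq.le
    have h4 := mul_le_mul_of_nonneg_left h3 he.le
    linarith
  set k := I.card with hk
  set o := I.orderEmbOfFin (rfl : I.card = k) with ho
  have hoI : ∀ i, o i ∈ I := fun i => I.orderEmbOfFin_mem rfl i
  set l : ℕ → ℕ := fun j => if hj : j < k then o ⟨j, hj⟩ else 0 with hl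
  have hlI : ∀ j, j < k → l j ∈ I := fun j hj => by
    simp only [hl, hj, dif_pos]
    exact hoI _
  have hllt : ∀ i j, i < j → j < k → l i < l j := fun i j hij hj => by
    simp only [hl, hj, hij.trans hj, dif_pos]
    exact o.strictMono (by exact_mod_cast hij)
  set M : ℕ → ℕ := fun j => if j = 0 then 0 else H (l (j - 1)) with hM
  set x : ℕ → ℝ := fun j => if j = 0 then r * 2 ^ (l 0) else 2 ^ (l (j - 1)) with hx'
  set u : ℕ → ℝ := fun j => min ((En ρ β h (M j) + Θ * x j) / x j) (Cv + Θ) with hu'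
  have hM0 : M 0 = 0 := by simp [hM]
  have hMs : ∀ j, M (j + 1) = H (l j) := fun j => by simp [hM]
  have hxS : ∀ j, x (j + 1) = 2 ^ (l j) := fun j => by simp [hx']
  have hx0 : x 0 = r * 2 ^ (l 0) := by simp [hx']
  have hxp : ∀ j, 0 < x j := by
    intro j
    rcases Nat.eq_zero_or_pos j with h0 | h0
    · rw [h0, hx0]
      positivity
    · obtain ⟨i, rfl⟩ := Nat.exists_eq_succ_of_ne_zero h0.ne'
      rw [Nat.succ_eq_add_one, hxS]
      positivity
  have hMm : ∀ i j, i < j → j ≤ k → M i ≤ M j := by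
    intro i j hij hj
    rcases Nat.eq_zero_or_pos i with h0 | h0
    · rw [h0, hM0]
      exact Nat.zero_le _
    · obtain ⟨i', rfl⟩ := Nat.exists_eq_succ_of_ne_zero h0.ne'
      obtain ⟨j', rfl⟩ := Nat.exists_eq_succ_of_ne_zero (by omega : j ≠ 0)
      rw [Nat.succ_eq_add_one, Nat.succ_eq_add_one, hMs, hMs]
      exact hHmono _ (hlI _ (by omega)) _ (hlI _ (by omega)) (hllt _ _ (by omega) (by omega))
  have hxs : ∀ j, j < k → x j ≤ r * x (j + 1) := by
    intro j hj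
    rcases Nat.eq_zero_or_pos j with h0 | h0
    · rw [h0, hx0, hxS]
    · obtain ⟨i, rfl⟩ := Nat.exists_eq_succ_of_ne_zero h0.ne'
      rw [Nat.succ_eq_add_one, hxS, hxS]
      have h1 := hsp _ (hlI i (by omega)) _ (hlI (i + 1) hj) (hllt _ _ (by omega) hj)
      have h2 : (2 : ℝ) ^ (l i + b₂) ≤ 2 ^ (l (i + 1)) := pow_le_pow_right₀ (by norm_num) h1
      rw [pow_add] at h2
      rw [hr', one_div, inv_pow]
      have h3 : (0 : ℝ) < 2 ^ b₂ := by positivity
      rw [inv_mul_eq_div, le_div_iff₀ h3]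
      exact h2
  have hfirst : ∀ i j, i < j → j ≤ k → En ρ β h (M j - M i) ≤ En ρ β h (M j) := by
    intro i j hij hj
    rcases Nat.eq_zero_or_pos (M i) with h0 | h0
    · rw [h0, Nat.sub_zero]
    · obtain ⟨j', rfl⟩ := Nat.exists_eq_succ_of_ne_zero (by omega : j ≠ 0)
      have h1 := hMm i _ hij hj
      rw [Nat.succ_eq_add_one, hMs] at h1 ⊢
      have h2 := hI _ (hlI j' (by omega))
      have h3 := h2.2.2.2.2.1 (H (l j') - M i) (by omega)
      have h4 := h2.2.2.2.1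
      linarith
  have hEx : ∀ i, i ≤ k → En ρ β h (M i) ≤ Cv * x i := by
    intro i hi
    rcases Nat.eq_zero_or_pos i with h0 | h0
    · rw [h0, hM0, En_zero15]
      exact mul_nonneg hCv.le (hxp 0).le
    · obtain ⟨i', rfl⟩ := Nat.exists_eq_succ_of_ne_zero h0.ne'
      rw [Nat.succ_eq_add_one, hMs, hxS]
      exact (le_max_left _ _).trans (hvar _ (hlI i' (by omega)) _ le_rfl).2
  have hFx : ∀ i, i < k → Fn ρ β h (M (i + 1) - M i) ≤ Cv * x (i + 1) := by
    intro i hi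
    rw [hMs, hxS]
    exact (le_max_right _ _).trans (hvar _ (hlI i hi) _ (Nat.sub_le _ _)).2
  have hVx : ∀ i, i < k → Va ρ β h (M (i + 1) - M i) ≤ Cv * x (i + 1) ^ 2 := by
    intro i hi
    rw [hMs, hxS]
    refine (hvar _ (hlI i hi) _ (Nat.sub_le _ _)).1.trans (le_of_eq ?_)
    rw [← pow_mul, mul_comm (l i) 2, pow_mul]
    norm_num
  have huD : ∀ j, u j ≤ D := fun j => (min_le_right _ _).trans (by rw [hD']; linarith)
  have hsD' : s * D ≤ 1 := by
    rw [le_div_iff₀ hD] at hsD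
    exact hsD
  have hmain := exmS47 (ρ := ρ) hd hρ β h (u := u) hM0 hMm hxp hxs hr0 (by linarith) hCv.le hfirst
    hEx hFx hVx hb (by rw [hD']; linarith) huD hs.le hsD' (by linarith)
  -- the two sums
  have hsum : ∀ η, ∑ p ∈ I, clp ρ β h (H p) (Θ * 2 ^ p) (b * 2 ^ p) η / 2 ^ p =
      ∑ j ∈ Finset.range k, cl47 ρ β h (M (j + 1)) (x (j + 1)) (u (j + 1)) b η := by
    intro η
    have e1 : ∀ p, p ∈ I → clp ρ β h (H p) (Θ * 2 ^ p) (b * 2 ^ p) η / 2 ^ p =
        cl47 ρ β h (H p) (2 ^ p) (min ((En ρ β h (H p) + Θ * 2 ^ p) / 2 ^ p) (Cv + Θ)) b η := by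
      intro p hp
      have hp2 : (0 : ℝ) < 2 ^ p := by positivity
      have h1 : (En ρ β h (H p) + Θ * 2 ^ p) / 2 ^ p ≤ Cv + Θ := by
        rw [div_le_iff₀ hp2]
        have := (le_max_left _ _).trans (hvar p hp (H p) le_rfl).2
        linarith
      rw [min_eq_left h1]
      unfold clp cl47
      rw [← max_div_div_right hp2.le, ← min_div_div_right hp2.le]
      congr 1
      field_simp
    rw [Finset.sum_congr rfl e1, Finset.sum_range]
    have e2 : I = Finset.univ.map o.toEmbedding := by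
      rw [ho]
      exact (Finset.map_orderEmbOfFin_univ I rfl).symm
    conv_lhs => rw [e2]
    rw [Finset.sum_map]
    refine Finset.sum_congr rfl fun i _ => ?_
    have e3 : l (i : ℕ) = o i := by
      show (if hj : (i : ℕ) < k then o ⟨i, hj⟩ else 0) = o i
      rw [dif_pos (show (i : ℕ) < k from i.2)]
    have e4 : M ((i : ℕ) + 1) = H (o i) := by rw [hMs, e3]
    have e5 : x ((i : ℕ) + 1) = 2 ^ (o i) := by rw [hxS, e3]
    show cl47 ρ β h (H (o i)) (2 ^ (o i)) (min ((En ρ β h (H (o i)) + Θ * 2 ^ (o i)) / 2 ^ (o i))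
      (Cv + Θ)) b η = cl47 ρ β h (M ((i : ℕ) + 1)) (x ((i : ℕ) + 1)) (u ((i : ℕ) + 1)) b η
    simp only [hu', e4, e5]
  simp_rw [hsum]
  refine hmain.trans ?_
  -- numbers
  have n1 : Cv / (4 * b) = ε / 4 := by
    have hbe : b * ε = Cv := div_mul_cancel₀ Cv hε.ne'
    rw [div_eq_div_iff (by positivity) (by norm_num), ← hbe]
    ring
  have n2 : Cv * r ≤ ε / 4 := by
    rw [le_div_iff₀ (by positivity)] at hre
    linarith
  have n3 : 15 * (2 * Cv) * r ≤ s * ε / 4 := by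
    rw [le_div_iff₀ (by positivity)] at hrs
    linarith
  have n4 : s ^ 2 * D ^ 2 ≤ s * ε / 4 := by
    rw [le_div_iff₀ (by positivity)] at hsD2
    have := mul_le_mul_of_nonneg_left hsD2 hs.le
    linarith
  have n5 : s * (Cv * r + Cv / (4 * b)) ≤ s * (ε / 4 + ε / 4) := by
    rw [n1]
    exact mul_le_mul_of_nonneg_left (by linarith) hs.le
  have n6 : 1 + s * (Cv * r + Cv / (4 * b)) + s ^ 2 * D ^ 2 + 15 * (2 * Cv) * r ≤
      Real.exp (s * ε) := by
    have := Real.add_one_le_exp (s * ε)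
    linarith
  have n7 : 0 ≤ 1 + s * (Cv * r + Cv / (4 * b)) + s ^ 2 * D ^ 2 + 15 * (2 * Cv) * r := by
    positivity
  refine (pow_le_pow_left₀ n7 n6 k).trans (le_of_eq ?_)
  rw [← Real.exp_nat_mul]

end Pool.Agent.W_7d29a1_SNP
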