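import Pool.Agent.W_7d29a1_SP.Cnt79
import Pool.Agent.W_7d29a1_SP.Bas15

/-!
A favourite site of the past: the future from it is a fresh copy (helper75).
-/

namespace Pool.Agent.W_7d29a1_SNP

open MeasureTheory ProbabilityTheory Filter Topology Pool.Agent.W_MP_7d29a1_pr
  Pool.Agent.W_7d29a1_h46 Pool.Agent.W_7d29a1_h46u Pool.Agent.W_7d29a1_D2.B35
  Pool.Agent.W_7d29a1_Q29 Pool.Agent.W_7d29a1_R34 Pool.Agent.W_7d29a1_SP

namespace F75

open Pool.Agent.W_7d29a1_SP.C79

variable {d : ℕ} {ρ : Measure ℝ}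

/-- An enumeration of the sites. -/
noncomputable def enc (d : ℕ) : Site d → ℕ := (exists_injective_nat (Site d)).choose

lemma enc_inj (d : ℕ) : Function.Injective (enc d) := (exists_injective_nat (Site d)).choose_spec

/-- The site carries at least the mean mass. -/
def Big (β : ℝ) (h : Vec d) (s : ℕ) (y : Site d) : Set (Env d) :=
  {η | Z β h η s ≤ ((boxF d s).card : ℝ) * PP β h η s y}

/-- The favourite site of the time `s` is `y`: the first one with at least the mean mass. -/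
def Fv (β : ℝ) (h : Vec d) (s : ℕ) (y : Site d) : Set (Env d) :=
  {η | y ∈ boxF d s ∧ η ∈ Big β h s y ∧ ∀ y' ∈ boxF d s, enc d y' < enc d y → η ∉ Big β h s y'}

lemma Big_meas (β : ℝ) (h : Vec d) (s : ℕ) (y : Site d) : MeasurableSet (Big β h s y) :=
  measurableSet_le (measurable_Z β h s) ((S98.measurable_PP β h s y).const_mul _)

lemma Fv_eq (β : ℝ) (h : Vec d) (s : ℕ) {y : Site d} (hy : y ∈ boxF d s) : Fv β h s y =
    Big β h s y ∩ ⋂ y' ∈ (boxF d s).filter (fun y' => enc d y' < enc d y), (Big β h s y')ᶜ := by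
  ext η
  simp only [Fv, Set.mem_ofPred_eq, Set.mem_inter_iff, Set.mem_iInter, Finset.mem_filter,
    Set.mem_compl_iff, and_imp]
  exact ⟨fun h1 => ⟨h1.2.1, h1.2.2⟩, fun h1 => ⟨hy, h1.1, h1.2⟩⟩

lemma Fv_meas (β : ℝ) (h : Vec d) (s : ℕ) (y : Site d) : MeasurableSet (Fv β h s y) := by
  by_cases hy : y ∈ boxF d s
  · rw [Fv_eq β h s hy]
    exact (Big_meas β h s y).inter
      (Finset.measurableSet_biInter _ fun y' _ => (Big_meas β h s y').compl)
  · have : Fv β h s y = ∅ := by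
      ext η
      simp only [Fv, Set.mem_ofPred_eq, Set.mem_empty_iff_false, iff_false]
      exact fun h1 => hy h1.1
    rw [this]
    exact MeasurableSet.empty

lemma Big_dep (β : ℝ) (h : Vec d) (s : ℕ) (y : Site d) :
    DependsOn (fun η => η ∈ Big β h s y) (Pa d s) := by
  intro η η' hη
  have h1 : Z β h η s = Z β h η' s := S98.Z_dep β h s hη
  have h2 : PP β h η s y = PP β h η' s y := S98.PP_dep β h s y hη
  show (Z β h η s ≤ ((boxF d s).card : ℝ) * PP β h η s y) =
    (Z β h η' s ≤ ((boxF d s).card : ℝ) * PP β h η' s y)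
  rw [h1, h2]

lemma Fv_dep (β : ℝ) (h : Vec d) (s : ℕ) (y : Site d) :
    DependsOn (fun η => η ∈ Fv β h s y) (Pa d s) := by
  intro η η' hη
  have h1 : ∀ y, (η ∈ Big β h s y) = (η' ∈ Big β h s y) := fun y => Big_dep β h s y hη
  show (y ∈ boxF d s ∧ η ∈ Big β h s y ∧ ∀ y' ∈ boxF d s, enc d y' < enc d y → η ∉ Big β h s y') =
    (y ∈ boxF d s ∧ η' ∈ Big β h s y ∧ ∀ y' ∈ boxF d s, enc d y' < enc d y → η' ∉ Big β h s y')
  simp only [h1]

lemma exists_big (β : ℝ) (h : Vec d) (s : ℕ) (η : Env d) :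
    ∃ y ∈ boxF d s, η ∈ Big β h s y := by
  have hne : (boxF d s).Nonempty := ⟨0, zero_mem_boxF s⟩
  obtain ⟨y, hy, hmax⟩ := Finset.exists_max_image (boxF d s) (fun y => PP β h η s y) hne
  refine ⟨y, hy, ?_⟩
  show Z β h η s ≤ ((boxF d s).card : ℝ) * PP β h η s y
  rw [Z_eq_sum]
  have h1 := Finset.sum_le_card_nsmul (boxF d s) (fun y => PP β h η s y) (PP β h η s y) hmax
  rwa [nsmul_eq_mul] at h1

lemma exists_fv (β : ℝ) (h : Vec d) (s : ℕ) (η : Env d) : ∃ y ∈ boxF d s, η ∈ Fv β h s y := by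
  classical
  obtain ⟨y₀, hy₀, hb₀⟩ := exists_big β h s η
  obtain ⟨y, hy, hmin⟩ := Finset.exists_min_image ((boxF d s).filter fun y => η ∈ Big β h s y)
    (enc d) ⟨y₀, Finset.mem_filter.2 ⟨hy₀, hb₀⟩⟩
  rw [Finset.mem_filter] at hy
  refine ⟨y, hy.1, hy.1, hy.2, fun y' hy' hlt hb => ?_⟩
  have := hmin y' (Finset.mem_filter.2 ⟨hy', hb⟩)
  omega

lemma fv_unique {β : ℝ} {h : Vec d} {s : ℕ} {η : Env d} {y y' : Site d} (h1 : η ∈ Fv β h s y)
    (h2 : η ∈ Fv β h s y') : y = y' := by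
  apply enc_inj d
  by_contra hne
  rcases lt_or_gt_of_ne hne with hlt | hlt
  · exact h2.2.2 y h1.1 hlt h1.2.1
  · exact h1.2.2 y' h2.1 hlt h2.2.1

/-- The value of `G` for the environment seen from the favourite site. -/
noncomputable def wf (β : ℝ) (h : Vec d) (s : ℕ) (G : Env d → ℝ) (η : Env d) : ℝ :=
  ∑ y ∈ boxF d s, one (Fv β h s y) η * G (sh s y η)

lemma wf_eq {β : ℝ} {h : Vec d} {s : ℕ} {η : Env d} {y : Site d} (hy : η ∈ Fv β h s y)
    (G : Env d → ℝ) : wf β h s G η = G (sh s y η) := by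
  unfold wf
  rw [Finset.sum_eq_single y]
  · rw [one_of hy, one_mul]
  · intro y' _ hne
    rw [one_not (fun h1 => hne (fv_unique h1 hy)), zero_mul]
  · intro h1
    exact absurd hy.1 h1

lemma wf_comp (β : ℝ) (h : Vec d) (s : ℕ) (G : Env d → ℝ) (g : ℝ → ℝ) (η : Env d) :
    wf β h s (fun ξ => g (G ξ)) η = g (wf β h s G η) := by
  obtain ⟨y, _, hy⟩ := exists_fv β h s η
  rw [wf_eq hy, wf_eq hy]

lemma wf_meas (β : ℝ) (h : Vec d) (s : ℕ) {G : Env d → ℝ} (hG : Measurable G) :
    Measurable (wf β h s G) :=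
  Finset.measurable_fun_sum _ fun y _ => (one_meas (Fv_meas β h s y)).mul
    (hG.comp (measurable_sh s y))

variable [IsProbabilityMeasure ρ]

lemma wf_int (β : ℝ) (h : Vec d) (s : ℕ) {G : Env d → ℝ} (hG : Integrable G (law d ρ)) :
    Integrable (wf β h s G) (law d ρ) :=
  integrable_finsetSum _ fun y _ => mul_int (Fv_meas β h s y)
    ((mp_sh s y).integrable_comp_of_integrable hG)

/-- The future from the favourite site is independent of the past and has the law of the
environment. -/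
lemma int_wf (β : ℝ) (h : Vec d) (s : ℕ) {F G : Env d → ℝ} (hF : Measurable F) {c : ℝ}
    (hFc : ∀ η, |F η| ≤ c) (hFd : DependsOn F (Pa d s)) (hG : Measurable G)
    (hGi : Integrable G (law d ρ))
    (hGd : ∀ y, DependsOn (fun η => G (sh s y η)) (Pa d s)ᶜ) :
    ∫ η, F η * wf β h s G η ∂(law d ρ) = (∫ η, F η ∂(law d ρ)) * ∫ η, G η ∂(law d ρ) := by
  have hFi : Integrable F (law d ρ) := Integrable.of_bound hF.aestronglyMeasurable c
    (ae_of_all _ fun η => by rw [Real.norm_eq_abs]; exact hFc η)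
  have hGs : ∀ y, Integrable (fun η => G (sh s y η)) (law d ρ) := fun y =>
    (mp_sh s y).integrable_comp_of_integrable hGi
  have i1 : ∀ y, Integrable (fun η => one (Fv β h s y) η * F η) (law d ρ) := fun y =>
    mul_int (Fv_meas β h s y) hFi
  have i2 : ∀ y, Integrable (fun η => (one (Fv β h s y) η * F η) * G (sh s y η)) (law d ρ) := by
    intro y
    refine (hGs y).bdd_mul (c := c) ((one_meas (Fv_meas β h s y)).mul hF).aestronglyMeasurable
      (Eventually.of_forall fun η => ?_)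
    rw [norm_mul]
    have h1 := one_abs (Fv β h s y) η
    have h2 : ‖F η‖ ≤ c := by rw [Real.norm_eq_abs]; exact hFc η
    have h3 : 0 ≤ ‖F η‖ := norm_nonneg _
    nlinarith [norm_nonneg (one (Fv β h s y) η)]
  have e1 : ∀ y, ∫ η, (one (Fv β h s y) η * F η) * G (sh s y η) ∂(law d ρ) =
      (∫ η, one (Fv β h s y) η * F η ∂(law d ρ)) * ∫ η, G η ∂(law d ρ) := by
    intro y
    have h1 := integral_indep (ρ := ρ) (Pa d s) (F := fun η => one (Fv β h s y) η * F η)
      (G := fun η => G (sh s y η)) ((one_meas (Fv_meas β h s y)).mul hF)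
      (hG.comp (measurable_sh s y)) (fun η η' hη => by
        have h2 := one_dep (Fv_dep β h s y) hη
        have h3 := hFd hη
        show one (Fv β h s y) η * F η = one (Fv β h s y) η' * F η'
        rw [h2, h3]) (hGd y)
    rw [h1, integral_sh s y hG]
  have e2 : ∀ η, F η * wf β h s G η =
      ∑ y ∈ boxF d s, (one (Fv β h s y) η * F η) * G (sh s y η) := by
    intro η
    unfold wf
    rw [Finset.mul_sum]
    refine Finset.sum_congr rfl fun y _ => ?_
    ring
  have e3 : ∀ η, ∑ y ∈ boxF d s, one (Fv β h s y) η * F η = F η := by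
    intro η
    obtain ⟨y, hyb, hy⟩ := exists_fv β h s η
    rw [Finset.sum_eq_single y]
    · rw [one_of hy, one_mul]
    · intro y' _ hne
      rw [one_not (fun h1 => hne (fv_unique h1 hy)), zero_mul]
    · intro h1
      exact absurd hyb h1
  simp_rw [e2]
  rw [integral_finsetSum _ fun y _ => i2 y, Finset.sum_congr rfl fun y _ => e1 y,
    ← Finset.sum_mul, ← integral_finsetSum _ fun y _ => i1 y]
  simp_rw [e3]

/-- The mean of the future from the favourite site. -/
lemma int_wf_one (β : ℝ) (h : Vec d) (s : ℕ) {G : Env d → ℝ} (hG : Measurable G)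
    (hGi : Integrable G (law d ρ))
    (hGd : ∀ y, DependsOn (fun η => G (sh s y η)) (Pa d s)ᶜ) :
    ∫ η, wf β h s G η ∂(law d ρ) = ∫ η, G η ∂(law d ρ) := by
  have h1 := int_wf (ρ := ρ) β h s (F := fun _ => (1 : ℝ)) measurable_const (c := 1)
    (fun η => by simp) (fun η η' _ => rfl) hG hGi hGd
  simpa using h1

omit [IsProbabilityMeasure ρ] in
/-- The polymer can pass through the favourite site. -/
lemma X_wf (hd : 0 < d) (β : ℝ) (h : Vec d) (s m : ℕ) (η : Env d) :
    X β h η s + wf β h s (fun ξ => X β h ξ m) η - d * Real.log (2 * s + 1) ≤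
      X β h η (s + m) := by
  obtain ⟨y, hyb, hy⟩ := exists_fv β h s η
  rw [wf_eq hy]
  have hZ := Z_pos hd β h η s
  have hZ' := Z_pos hd β h (sh s y η) m
  have h3 : PP β h η s y * Z β h (sh s y η) m ≤ Z β h η (s + m) := by
    rw [S98.Z_split β h η s m]
    exact Finset.single_le_sum (f := fun y => PP β h η s y * Z β h (sh s y η) m)
      (fun y _ => mul_nonneg (PP_nonneg β h η s y) (Z_pos hd β h _ _).le) hyb
  have hb : Z β h η s ≤ ((boxF d s).card : ℝ) * PP β h η s y := hy.2.1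
  have hcard : ((boxF d s).card : ℝ) = (2 * (s : ℝ) + 1) ^ d := by
    rw [card_boxF]
    push_cast
    ring
  rw [hcard] at hb
  have hc0 : (0 : ℝ) < (2 * (s : ℝ) + 1) ^ d := by positivity
  have h4 : Z β h η s * Z β h (sh s y η) m ≤ (2 * (s : ℝ) + 1) ^ d * Z β h η (s + m) := by
    calc Z β h η s * Z β h (sh s y η) m ≤
        ((2 * (s : ℝ) + 1) ^ d * PP β h η s y) * Z β h (sh s y η) m :=
          mul_le_mul_of_nonneg_right hb hZ'.le
      _ = (2 * (s : ℝ) + 1) ^ d * (PP β h η s y * Z β h (sh s y η) m) := by ring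
      _ ≤ _ := mul_le_mul_of_nonneg_left h3 hc0.le
  have h5 := Real.log_le_log (mul_pos hZ hZ') h4
  rw [Real.log_mul hZ.ne' hZ'.ne', Real.log_mul hc0.ne' (Z_pos hd β h η (s + m)).ne',
    Real.log_pow] at h5
  change Real.log (Z β h η s) + Real.log (Z β h (sh s y η) m) - _ ≤
    Real.log (Z β h η (s + m))
  linarith

end F75

end Pool.Agent.W_7d29a1_SNP
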