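import Pool.Agent.W_7d29a1_SNP.DefsN28

/-!
The levels for the assembly of the core (helper63).
-/

set_option autoImplicit false

namespace Pool.Agent.W_7d29a1_SNP

open MeasureTheory ProbabilityTheory Filter Topology Pool.Agent.W_MP_7d29a1_pr
  Pool.Agent.W_7d29a1_h46 Pool.Agent.W_7d29a1_h46u Pool.Agent.W_7d29a1_D2.B35
  Pool.Agent.W_7d29a1_Q29 Pool.Agent.W_7d29a1_R34 Pool.Agent.W_7d29a1_SP
  Pool.Agent.W_7d29a1_PL Pool.Agent.W_7d29a1_SD Pool.Agent.W_7d29a1_KZ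

/-- The levels of a function which is at least a power infinitely often. -/
lemma lev63 {f : ℕ → ℝ} {y : ℝ} (hf0 : f 0 ≤ 0) (hy : 0 < y)
    (hlow : ∀ᶠ k : ℕ in atTop, ∃ j : ℕ, j ≤ k ∧ (k : ℝ) ^ y ≤ f j) :
    ∃ m : ℕ → ℕ, (∀ l k : ℕ, k < m l → f k < 2 ^ l) ∧ (∀ l : ℕ, 2 ^ l ≤ f (m l)) ∧ Monotone m ∧
      (∀ l : ℕ, 1 ≤ m l) ∧ ∃ B : ℝ, 0 ≤ B ∧ ∀ l : ℕ, Real.log (m l) ≤ Real.log 2 / y * l + B := by
  classical
  have hex : ∀ l : ℕ, ∃ k : ℕ, (2 : ℝ) ^ l ≤ f k := fun l => by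
    have h1 : ∀ᶠ k : ℕ in atTop, (2 : ℝ) ^ l ≤ (k : ℝ) ^ y :=
      ((tendsto_rpow_atTop hy).comp tendsto_natCast_atTop_atTop).eventually_ge_atTop _
    obtain ⟨k, h2, j, -, h3⟩ := (h1.and hlow).exists
    exact ⟨j, h2.trans h3⟩
  refine ⟨fun l => Nat.find (hex l), fun l k hk => not_le.1 (Nat.find_min (hex l) hk),
    fun l => Nat.find_spec (hex l), fun l l' hll => ?_, fun l => ?_, ?_⟩
  · refine Nat.find_min' (hex l) (le_trans ?_ (Nat.find_spec (hex l')))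
    exact pow_le_pow_right₀ (by norm_num) hll
  · rcases Nat.eq_zero_or_pos (Nat.find (hex l)) with h1 | h1
    · have h2 := Nat.find_spec (hex l)
      rw [h1] at h2
      have h3 : (0 : ℝ) < 2 ^ l := by positivity
      linarith
    · exact h1
  · obtain ⟨K, hK⟩ := eventually_atTop.1 hlow
    refine ⟨Real.log (K + 2) + Real.log 2, by
      have h1 := Real.log_nonneg (show (1 : ℝ) ≤ K + 2 by
        have := Nat.cast_nonneg (α := ℝ) K
        linarith)
      have h2 := Real.log_nonneg (show (1 : ℝ) ≤ 2 by norm_num)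
      linarith, fun l => ?_⟩
    show Real.log ((Nat.find (hex l) : ℕ) : ℝ) ≤ _
    set k := Nat.find (hex l) with hk
    have hl2 := Real.log_nonneg (show (1 : ℝ) ≤ 2 by norm_num)
    have hl0 : 0 ≤ Real.log 2 / y * l := by positivity
    have hK0 : 0 ≤ Real.log ((K : ℝ) + 2) := Real.log_nonneg (by
      have := Nat.cast_nonneg (α := ℝ) K
      linarith)
    by_cases h1 : k ≤ K + 1
    · rcases Nat.eq_zero_or_pos k with h0 | h0
      · rw [h0, Nat.cast_zero, Real.log_zero]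
        linarith
      · have h2 : Real.log (k : ℝ) ≤ Real.log ((K : ℝ) + 2) := by
          refine Real.log_le_log (by exact_mod_cast h0) ?_
          have h3 : (k : ℝ) ≤ K + 1 := by exact_mod_cast h1
          linarith
        linarith
    · push Not at h1
      obtain ⟨j, hj, hj2⟩ := hK (k - 1) (by omega)
      have h2 : f j < 2 ^ l := not_le.1 (Nat.find_min (hex l) (by omega))
      have h3 : (0 : ℝ) < ((k - 1 : ℕ) : ℝ) := by
        exact_mod_cast (show 0 < k - 1 by omega)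
      have h4 : (((k - 1 : ℕ) : ℝ)) ^ y ≤ 2 ^ l := hj2.trans h2.le
      have h5 : y * Real.log ((k - 1 : ℕ) : ℝ) ≤ l * Real.log 2 := by
        have h6 := Real.log_le_log (Real.rpow_pos_of_pos h3 y) h4
        rwa [Real.log_rpow h3, Real.log_pow] at h6
      have h6 : Real.log ((k - 1 : ℕ) : ℝ) ≤ Real.log 2 / y * l := by
        rw [div_mul_eq_mul_div, le_div_iff₀ hy]
        linarith
      have h7 : Real.log (k : ℝ) ≤ Real.log ((k - 1 : ℕ) : ℝ) + Real.log 2 := by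
        rw [← Real.log_mul h3.ne' (by norm_num)]
        refine Real.log_le_log (by exact_mod_cast (show 0 < k by omega)) ?_
        have h8 : (k : ℝ) = ((k - 1 : ℕ) : ℝ) + 1 := by
          have h9 : k = k - 1 + 1 := by omega
          exact_mod_cast h9
        have h9 : (1 : ℝ) ≤ ((k - 1 : ℕ) : ℝ) := by exact_mod_cast (show 1 ≤ k - 1 by omega)
        linarith
      linarith

/-- A linear function is below `2 ^ q`. -/
lemma lin63 (A B : ℝ) : ∃ l₀ : ℕ, ∀ q : ℕ, l₀ ≤ q → A * q + B ≤ 2 ^ q := by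
  have h1 : Tendsto (fun n : ℕ => (n : ℝ) / 2 ^ n) atTop (𝓝 0) := by
    have := tendsto_pow_const_div_const_pow_of_one_lt 1 (r := 2) (by norm_num)
    simpa using this
  have h2 : Tendsto (fun n : ℕ => (1 : ℝ) / 2 ^ n) atTop (𝓝 0) := by
    have := tendsto_pow_const_div_const_pow_of_one_lt 0 (r := 2) (by norm_num)
    simpa using this
  have h3 : Tendsto (fun n : ℕ => A * ((n : ℝ) / 2 ^ n) + B * ((1 : ℝ) / 2 ^ n)) atTop
      (𝓝 (A * 0 + B * 0)) := (h1.const_mul A).add (h2.const_mul B)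
  rw [mul_zero, mul_zero, add_zero] at h3
  obtain ⟨l₀, hl⟩ := eventually_atTop.1 (h3.eventually (gt_mem_nhds (show (0 : ℝ) < 1 by norm_num)))
  refine ⟨l₀, fun q hq => ?_⟩
  have h4 := hl q hq
  have h5 : (0 : ℝ) < 2 ^ q := by positivity
  have h6 : A * ((q : ℝ) / 2 ^ q) + B * (1 / 2 ^ q) = (A * q + B) / 2 ^ q := by
    field_simp
  rw [h6, div_lt_one h5] at h4
  exact h4.le

/-- The conditions with the logarithm. -/
lemma logc63 {m : ℕ → ℕ} {A B : ℝ} (hA : 0 ≤ A)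
    (hm : ∀ l : ℕ, Real.log (m l) ≤ A * l + B) (D : ℝ) (hD : 0 ≤ D) :
    ∃ l₀ : ℕ, ∀ p : ℕ, l₀ ≤ p → D * (1 + Real.log (m p)) ≤ 2 ^ p ∧
      ∀ i : ℕ, D * (1 + Real.log (m (p + i + 1))) ≤ 2 ^ i * 2 ^ p := by
  obtain ⟨l₀, hl⟩ := lin63 (D * A) (D * (1 + A + B))
  refine ⟨l₀, fun p hp => ⟨?_, fun i => ?_⟩⟩
  · have h1 := hl p hp
    have h2 := mul_le_mul_of_nonneg_left (hm p) hD
    nlinarith [mul_nonneg hD hA]
  · have h1 := hl (p + i) (by omega)
    have h2 := mul_le_mul_of_nonneg_left (hm (p + i + 1)) hD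
    have h3 : (2 : ℝ) ^ i * 2 ^ p = 2 ^ (p + i) := by rw [← pow_add, add_comm]
    rw [h3]
    push_cast at h1 h2
    nlinarith

/-- A part of the levels which is spaced. -/
lemma res63 (I : Finset ℕ) (w : ℕ → ℝ) {b : ℕ} (hb : 1 ≤ b) :
    ∃ J : Finset ℕ, J ⊆ I ∧ (∀ p ∈ J, ∀ q ∈ J, p < q → p + b ≤ q) ∧
      ∑ p ∈ I, w p ≤ b * ∑ p ∈ J, w p := by
  classical
  have h1 : ∑ r ∈ Finset.range b, ∑ p ∈ I.filter (fun p => p % b = r), w p = ∑ p ∈ I, w p :=
    Finset.sum_fiberwise_of_maps_to (fun p _ => Finset.mem_range.2 (Nat.mod_lt p hb)) w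
  have h2 : ∃ r ∈ Finset.range b, ∑ p ∈ I, w p ≤
      b * ∑ p ∈ I.filter (fun p => p % b = r), w p := by
    by_contra h3
    push Not at h3
    have h4 : ∑ r ∈ Finset.range b, (b : ℝ) * ∑ p ∈ I.filter (fun p => p % b = r), w p <
        ∑ r ∈ Finset.range b, ∑ p ∈ I, w p :=
      Finset.sum_lt_sum_of_nonempty ⟨0, Finset.mem_range.2 hb⟩ h3
    rw [← Finset.mul_sum, h1, Finset.sum_const, Finset.card_range, nsmul_eq_mul] at h4
    exact lt_irrefl _ h4
  obtain ⟨r, -, h3⟩ := h2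
  refine ⟨I.filter fun p => p % b = r, Finset.filter_subset _ _, fun p hp q hq hpq => ?_, h3⟩
  have h4 := (Finset.mem_filter.1 hp).2
  have h5 := (Finset.mem_filter.1 hq).2
  have h6 : (q - p) % b = 0 := by
    have : p ≡ q [MOD b] := by rw [Nat.ModEq, h4, h5]
    exact (Nat.modEq_iff_dvd' hpq.le).1 this |>.elim fun c hc => by rw [hc, Nat.mul_mod_right]
  obtain ⟨c, hc⟩ := Nat.dvd_of_mod_eq_zero h6
  have h7 : 1 ≤ c := by
    rcases Nat.eq_zero_or_pos c with h8 | h8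
    · rw [h8, mul_zero] at hc
      omega
    · exact h8
  have h8 : b * 1 ≤ b * c := Nat.mul_le_mul_left b h7
  omega

/-- The base of the levels. -/
lemma lam63 {x₁ : ℝ} (hx : 0 < x₁) (hx2 : x₁ < 1 / 2) :
    ∃ Λ : ℝ, 4 < Λ ∧ x₁ * Real.log Λ < Real.log 2 := by
  have hl2 : 0 < Real.log 2 := Real.log_pos (by norm_num)
  have hl4 : Real.log 4 = 2 * Real.log 2 := by
    rw [show (4 : ℝ) = 2 ^ 2 by norm_num, Real.log_pow]
    norm_num
  refine ⟨Real.exp ((Real.log 4 + Real.log 2 / x₁) / 2), ?_, ?_⟩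
  · rw [← Real.log_lt_iff_lt_exp (by norm_num)]
    have h1 : 2 * Real.log 2 < Real.log 2 / x₁ := by
      rw [lt_div_iff₀ hx]
      nlinarith
    linarith
  · rw [Real.log_exp]
    have h1 : x₁ * (Real.log 2 / x₁) = Real.log 2 := by field_simp
    nlinarith

/-- The last level. -/
lemma last63 {m : ℕ → ℕ} {C x₁ : ℝ} (hx : 0 < x₁) (hm1 : ∀ l : ℕ, 1 ≤ m l)
    (hC : ∀ l : ℕ, (2 : ℝ) ^ l ≤ C * (m l : ℝ) ^ x₁) (T : ℝ) :
    ∃ l₁ : ℕ, T ≤ Real.log (m l₁) ∧ ∀ l : ℕ, l < l₁ → Real.log (m l) < T := by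
  classical
  have hC0 : 0 < C := by
    have h1 := hC 0
    have h2 : 0 < (m 0 : ℝ) ^ x₁ := Real.rpow_pos_of_pos (by exact_mod_cast hm1 0) _
    rw [pow_zero] at h1
    by_contra h3
    push Not at h3
    nlinarith
  have hex : ∃ l : ℕ, T ≤ Real.log (m l) := by
    obtain ⟨l, hl⟩ := exists_nat_ge ((x₁ * T + Real.log C) / Real.log 2)
    have hl2 : 0 < Real.log 2 := Real.log_pos (by norm_num)
    refine ⟨l, ?_⟩
    have hm0 : (0 : ℝ) < m l := by exact_mod_cast hm1 l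
    have h1 := Real.log_le_log (by positivity) (hC l)
    rw [Real.log_pow, Real.log_mul hC0.ne' (Real.rpow_pos_of_pos hm0 _).ne',
      Real.log_rpow hm0] at h1
    rw [div_le_iff₀ hl2] at hl
    have h2 : x₁ * T ≤ x₁ * Real.log (m l) := by linarith
    exact le_of_mul_le_mul_left h2 hx
  exact ⟨Nat.find hex, Nat.find_spec hex, fun l hl => not_le.1 (Nat.find_min hex hl)⟩

/-- The fluctuation of the length `0`. -/
lemma fM_zero63 {d : ℕ} {ρ : Measure ℝ} (β : ℝ) (h : Vec d) : fM ρ β h 0 = 0 := by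
  have h1 : ∀ η : Env d, X β h η 0 = 0 := fun η => by
    unfold X
    rw [Z_zero, Real.log_one]
  have h2 : A ρ β h 0 = 0 := by
    unfold A
    simp [h1]
  unfold fM En Fn
  simp [h1, h2]

/-- The budget is monotone in the constant of the cut. -/
lemma bdF_mono63 {d : ℕ} {ρ : Measure ℝ} {β : ℝ} {h : Vec d} {n : ℕ} {V κ κ' : ℝ}
    (hκ : κ ≤ κ') (hB : BdF ρ β h n V κ) : BdF ρ β h n V κ' := by
  intro g D Γ hg hdep hD hΓ hE
  have h1 := hB g D Γ hg hdep hD hΓ hE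
  have h2 : 0 ≤ D := (abs_nonneg _).trans (hD (fun _ => 0))
  nlinarith

end Pool.Agent.W_7d29a1_SNP
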