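import Pool.Agent.W_7d29a1_SNP.DefsN28
import Pool.Agent.W_7d29a1_KZ.DefsA70
import Pool.Agent.W_7d29a1_SP.Bas15

/-!
Leaves VAU and LOW of SNP, from the variance bound with a free right record (helper95).
-/

set_option autoImplicit false

namespace Pool.Agent.W_7d29a1_SNP

open MeasureTheory ProbabilityTheory Filter Topology Pool.Agent.W_MP_7d29a1_pr
  Pool.Agent.W_7d29a1_h46 Pool.Agent.W_7d29a1_h46u Pool.Agent.W_7d29a1_D2.B35
  Pool.Agent.W_7d29a1_Q29 Pool.Agent.W_7d29a1_R34 Pool.Agent.W_7d29a1_SP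
  Pool.Agent.W_7d29a1_PL Pool.Agent.W_7d29a1_SD Pool.Agent.W_7d29a1_KZ Pool.Agent.W_7d29a1_SQ

namespace L95

variable {d : ℕ} {ρ : Measure ℝ} {β : ℝ}

lemma ps {h : Vec d} {n : ℕ} {B : ℝ} (hB : ∀ k : ℕ, k ≤ n → fM ρ β h k ≤ B) :
    Ps ρ β h n ≤ 1 + 2 * B := by
  unfold Ps
  have h1 : (Finset.range (n + 1)).sup' ⟨0, by simp⟩ (En ρ β h) ≤ B :=
    Finset.sup'_le _ _ fun k hk => (le_max_left _ _).trans
      (hB k (by have := Finset.mem_range.1 hk; omega))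
  have h2 : (Finset.range (n + 1)).sup' ⟨0, by simp⟩ (Fn ρ β h) ≤ B :=
    Finset.sup'_le _ _ fun k hk => (le_max_right _ _).trans
      (hB k (by have := Finset.mem_range.1 hk; omega))
  linarith

/-- The running maximum under a power bound. -/
lemma psT {h : Vec d} {C x₁ : ℝ} (hx : 0 < x₁) (hf : ∀ k : ℕ, fM ρ β h k ≤ C * (k : ℝ) ^ x₁)
    {T : ℕ} (hT : 1 ≤ T) : Ps ρ β h T ≤ (1 + 2 * |C|) * (T : ℝ) ^ x₁ := by
  have hT1 : (1 : ℝ) ≤ T := by exact_mod_cast hT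
  have h1 : Ps ρ β h T ≤ 1 + 2 * (|C| * (T : ℝ) ^ x₁) := by
    refine ps fun k hk => (hf k).trans ?_
    have hk' : (k : ℝ) ≤ T := by exact_mod_cast hk
    have h2 : (k : ℝ) ^ x₁ ≤ (T : ℝ) ^ x₁ := Real.rpow_le_rpow (Nat.cast_nonneg k) hk' hx.le
    calc C * (k : ℝ) ^ x₁ ≤ |C| * (k : ℝ) ^ x₁ :=
          mul_le_mul_of_nonneg_right (le_abs_self C) (Real.rpow_nonneg (Nat.cast_nonneg k) _)
      _ ≤ _ := mul_le_mul_of_nonneg_left h2 (abs_nonneg C)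
  have h3 : (1 : ℝ) ≤ (T : ℝ) ^ x₁ := Real.one_le_rpow hT1 hx.le
  nlinarith [abs_nonneg C]

lemma va0 [IsProbabilityMeasure ρ] (h : Vec d) : Va ρ β h 0 = 0 := by
  unfold Va
  have h2 : ∀ η : Env d, X β h η 0 = 0 := by
    intro η
    unfold X
    rw [Z_zero, Real.log_one]
  simp [h2, A_zero15]

end L95

open L95

variable {d : ℕ} {ρ : Measure ℝ} {β : ℝ}

/-- **VAU.** -/
theorem vauN95 [IsProbabilityMeasure ρ] (hV : VarF d ρ β) : VauN d ρ β := by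
  intro h c₀ C x₁ hc hL hx hx2 hf
  obtain ⟨C₂, hC₂, hvar⟩ := hV c₀ x₁ hc hx hx2
  refine ⟨C₂ * (1 + 2 * |C|) ^ 2, fun n => ?_⟩
  rcases Nat.eq_zero_or_pos n with h0 | hn
  · subst h0
    rw [va0, Nat.cast_zero, Real.zero_rpow (show (2 : ℝ) * x₁ ≠ 0 by positivity), mul_zero]
  have hn1 : (1 : ℝ) ≤ n := by exact_mod_cast hn
  have hn0 : (0 : ℝ) < n := by linarith
  have hK : (1 : ℝ) ≤ 1 + 2 * |C| := by linarith [abs_nonneg C]
  have hnx : (1 : ℝ) ≤ (n : ℝ) ^ x₁ := Real.one_le_rpow hn1 hx.le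
  have h1 := hvar h hL n ((1 + 2 * |C|) * (n : ℝ) ^ x₁) hn (by nlinarith) (fun T hT => by
    have h2 := psT hx hf (show 1 ≤ T by omega)
    refine h2.trans (le_of_eq ?_)
    have hT0 : (0 : ℝ) < T := by exact_mod_cast (show 0 < T by omega)
    rw [Real.div_rpow hT0.le hn0.le]
    field_simp) n le_rfl
  refine h1.trans (le_of_eq ?_)
  rw [mul_pow, ← Real.rpow_natCast ((n : ℝ) ^ x₁) 2, ← Real.rpow_mul hn0.le]
  push_cast
  rw [mul_comm x₁ 2]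
  ring

/-- **LOW.** -/
theorem lowN95 [IsProbabilityMeasure ρ] (hV : VarF d ρ β) : LowN d ρ β := by
  intro h c₀ C x₁ y hc hL hx hx2 hf hy hlow
  obtain ⟨a, ha⟩ : ∃ a, a = (x₁ + 1 / 2) / 2 := ⟨_, rfl⟩
  have ha1 : x₁ < a := by rw [ha]; linarith
  have ha2 : a < 1 / 2 := by rw [ha]; linarith
  have ha0 : 0 < a := by linarith
  obtain ⟨θ, hθ⟩ : ∃ θ, θ = (a - x₁) / (2 * a) := ⟨_, rfl⟩
  have hθ0 : 0 < θ := by rw [hθ]; exact div_pos (by linarith) (by linarith)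
  have hθ1 : θ ≤ 1 := by rw [hθ, div_le_one (by linarith)]; linarith
  have hθa : θ * a = (a - x₁) / 2 := by rw [hθ]; field_simp
  obtain ⟨c, hcd⟩ : ∃ c, c = θ * y / 4 := ⟨_, rfl⟩
  have hc0 : 0 < c := by rw [hcd]; positivity
  obtain ⟨C₂, hC₂, hvar⟩ := hV c₀ a hc ha0 ha2
  refine ⟨c, hc0, ?_⟩
  have t1 : Tendsto (fun k : ℕ => (k : ℝ) ^ θ) atTop atTop :=
    (tendsto_rpow_atTop hθ0).comp tendsto_natCast_atTop_atTop
  have t2 : Tendsto (fun k : ℕ => ⌊(k : ℝ) ^ θ⌋₊) atTop atTop :=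
    tendsto_nat_floor_atTop.comp t1
  have t3 : Tendsto (fun k : ℕ => (k : ℝ) ^ ((a - x₁) / 2)) atTop atTop :=
    (tendsto_rpow_atTop (by linarith)).comp tendsto_natCast_atTop_atTop
  have t4 : Tendsto (fun k : ℕ => (k : ℝ) ^ (2 * c)) atTop atTop :=
    (tendsto_rpow_atTop (by linarith)).comp tendsto_natCast_atTop_atTop
  filter_upwards [t1.eventually_ge_atTop 2, t2.eventually hlow, t3.eventually_ge_atTop (1 + 2 * |C|),
    t4.eventually_gt_atTop (9 * C₂ * 2 ^ y), eventually_ge_atTop 1] with k hk1 hk2 hk3 hk4 hk5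
  by_contra hcon
  push Not at hcon
  have hk0 : (1 : ℝ) ≤ k := by exact_mod_cast hk5
  have hkp : (0 : ℝ) < k := by linarith
  obtain ⟨n, hn⟩ : ∃ n : ℕ, n = ⌊(k : ℝ) ^ θ⌋₊ := ⟨_, rfl⟩
  rw [← hn] at hk2
  have hn1 : (n : ℝ) ≤ (k : ℝ) ^ θ := by rw [hn]; exact Nat.floor_le (by linarith)
  have hn2 : (k : ℝ) ^ θ < n + 1 := by rw [hn]; exact Nat.lt_floor_add_one _
  have hn3 : (k : ℝ) ^ θ / 2 ≤ n := by linarith
  have hn4 : (1 : ℝ) ≤ n := by linarith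
  have hn5 : 1 ≤ n := by exact_mod_cast hn4
  have hnp : (0 : ℝ) < n := by linarith
  have hkθ : (k : ℝ) ^ θ ≤ k := by
    calc (k : ℝ) ^ θ ≤ (k : ℝ) ^ (1 : ℝ) := Real.rpow_le_rpow_of_exponent_le hk0 hθ1
      _ = k := Real.rpow_one _
  have hnk : n ≤ k := by
    have : (n : ℝ) ≤ k := hn1.trans hkθ
    exact_mod_cast this
  have hkc : (1 : ℝ) ≤ (k : ℝ) ^ c := Real.one_le_rpow hk0 hc0.le
  have h1 := hvar h hL n (1 + 2 * (k : ℝ) ^ c) hn5 (by linarith) (fun T hT => by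
    have hT1 : 1 ≤ T := by omega
    have hT0 : (0 : ℝ) < T := by exact_mod_cast (show 0 < T by omega)
    have hTn : (n : ℝ) ≤ T := by exact_mod_cast hT
    have h2 : (1 : ℝ) ≤ ((T : ℝ) / n) ^ a :=
      Real.one_le_rpow ((one_le_div hnp).2 hTn) ha0.le
    rcases le_or_gt T k with hTk | hTk
    · have h3 : Ps ρ β h T ≤ 1 + 2 * (k : ℝ) ^ c := ps fun j hj => (hcon j (by omega)).le
      nlinarith
    · refine (psT hx hf hT1).trans ?_
      have hkT : (k : ℝ) ≤ T := by exact_mod_cast hTk.le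
      -- `(T / n) ^ a ≥ T ^ x₁ * k ^ ((a - x₁) / 2)`
      have h3 : (T : ℝ) ^ x₁ * (k : ℝ) ^ ((a - x₁) / 2) ≤ ((T : ℝ) / n) ^ a := by
        have h4 : ((T : ℝ) / (k : ℝ) ^ θ) ^ a ≤ ((T : ℝ) / n) ^ a :=
          Real.rpow_le_rpow (by positivity) (div_le_div_of_nonneg_left hT0.le hnp hn1) ha0.le
        refine le_trans ?_ h4
        rw [Real.div_rpow hT0.le (by positivity), ← Real.rpow_mul hkp.le, hθa,
          le_div_iff₀ (Real.rpow_pos_of_pos hkp _)]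
        have h5 : (k : ℝ) ^ ((a - x₁) / 2) * (k : ℝ) ^ ((a - x₁) / 2) = (k : ℝ) ^ (a - x₁) := by
          rw [← Real.rpow_add hkp]
          congr 1
          ring
        have h6 : (k : ℝ) ^ (a - x₁) ≤ (T : ℝ) ^ (a - x₁) :=
          Real.rpow_le_rpow hkp.le hkT (by linarith)
        have h7 : (T : ℝ) ^ x₁ * (T : ℝ) ^ (a - x₁) = (T : ℝ) ^ a := by
          rw [← Real.rpow_add hT0]
          congr 1
          ring
        calc (T : ℝ) ^ x₁ * (k : ℝ) ^ ((a - x₁) / 2) * (k : ℝ) ^ ((a - x₁) / 2) =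
              (T : ℝ) ^ x₁ * (k : ℝ) ^ (a - x₁) := by rw [mul_assoc, h5]
          _ ≤ (T : ℝ) ^ x₁ * (T : ℝ) ^ (a - x₁) :=
              mul_le_mul_of_nonneg_left h6 (Real.rpow_nonneg hT0.le _)
          _ = _ := h7
      have h8 : (1 + 2 * |C|) * (T : ℝ) ^ x₁ ≤ ((T : ℝ) / n) ^ a := by
        refine le_trans ?_ h3
        rw [mul_comm]
        exact mul_le_mul_of_nonneg_left hk3 (Real.rpow_nonneg hT0.le _)
      nlinarith) n le_rfl
  have h2 : (1 + 2 * (k : ℝ) ^ c) ^ 2 ≤ 9 * (k : ℝ) ^ (2 * c) := by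
    have h3 : (k : ℝ) ^ (2 * c) = ((k : ℝ) ^ c) ^ 2 := by
      rw [← Real.rpow_natCast ((k : ℝ) ^ c) 2, ← Real.rpow_mul hkp.le]
      congr 1
      push_cast
      ring
    rw [h3]
    nlinarith
  have h3 : (k : ℝ) ^ (θ * y) ≤ 2 ^ y * (n : ℝ) ^ y := by
    rw [← Real.mul_rpow (by norm_num) hnp.le, Real.rpow_mul hkp.le]
    exact Real.rpow_le_rpow (by positivity) (by linarith) hy.le
  have h4 : (k : ℝ) ^ (θ * y) = (k : ℝ) ^ (2 * c) * (k : ℝ) ^ (2 * c) := by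
    rw [← Real.rpow_add hkp, hcd]
    congr 1
    ring
  have h5 : (0 : ℝ) < (k : ℝ) ^ (2 * c) := Real.rpow_pos_of_pos hkp _
  have h6 : (0 : ℝ) < 2 ^ y := Real.rpow_pos_of_pos (by norm_num) _
  have h7 : (n : ℝ) ^ y ≤ C₂ * (9 * (k : ℝ) ^ (2 * c)) :=
    hk2.trans (h1.trans (mul_le_mul_of_nonneg_left h2 (by linarith)))
  have h8 : (k : ℝ) ^ (2 * c) * (k : ℝ) ^ (2 * c) ≤ 9 * C₂ * 2 ^ y * (k : ℝ) ^ (2 * c) := by
    rw [← h4]
    refine h3.trans ?_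
    calc 2 ^ y * (n : ℝ) ^ y ≤ 2 ^ y * (C₂ * (9 * (k : ℝ) ^ (2 * c))) :=
          mul_le_mul_of_nonneg_left h7 h6.le
      _ = _ := by ring
  have h9 := le_of_mul_le_mul_right h8 h5
  linarith

end Pool.Agent.W_7d29a1_SNP
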