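import Pool.Agent.W_7d29a1_SNP.DefsN28
import Pool.Agent.W_7d29a1_PL.Jen62
import Pool.Agent.W_7d29a1_Q29.Brid72
import Pool.Agent.W_7d29a1_Q29.Qf39
import Pool.Agent.W_7d29a1_R34.Piece13
import Pool.Agent.W_7d29a1_SP.Bas15

/-!
The Newman-Piza inequality is strict: the theorem from the core and the budget (helper19).
-/

namespace Pool.Agent.W_7d29a1_SNP

open MeasureTheory ProbabilityTheory Filter Topology Pool.Agent.W_MP_7d29a1_pr
  Pool.Agent.W_7d29a1_h46 Pool.Agent.W_7d29a1_h46u Pool.Agent.W_7d29a1_D2.B35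
  Pool.Agent.W_7d29a1_Q29 Pool.Agent.W_7d29a1_R34 Pool.Agent.W_7d29a1_SP
  Pool.Agent.W_7d29a1_PL Pool.Agent.W_7d29a1_SD Pool.Agent.W_7d29a1_KZ

namespace M19

variable {d : ℕ} {ρ : Measure ℝ} {β : ℝ}

open Classical in
/-- The sites `y` at the time `t` with `‖y - t v‖ ≤ w`. -/
noncomputable def bl (v : Vec d) (t : ℕ) (w : ℝ) : Finset (Site d) :=
  (boxF d t).filter fun y => ‖emb y - (t : ℝ) • v‖ ≤ w

lemma card_bl (v : Vec d) (t : ℕ) {w : ℝ} (hw : 1 ≤ w) :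
    ((bl v t w).card : ℝ) ≤ 3 ^ d * w ^ d := by
  classical
  have h1 : bl v t w ⊆ ballW ((t : ℝ) • v) w := by
    intro y hy
    exact mem_ballW (Finset.mem_filter.1 hy).2
  have h2 : ((bl v t w).card : ℝ) ≤ ((ballW ((t : ℝ) • v) w).card : ℝ) := by
    exact_mod_cast Finset.card_le_card h1
  have h3 := card_ballW (d := d) ((t : ℝ) • v) (w := w) (by linarith)
  have h4 : (2 * w + 1) ^ d ≤ (3 * w) ^ d := pow_le_pow_left₀ (by positivity) (by linarith) d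
  have h5 : (3 * w) ^ d = 3 ^ d * w ^ d := mul_pow _ _ _
  linarith

lemma bl_sub (v : Vec d) (t : ℕ) (w : ℝ) : bl v t w ⊆ boxF d t := Finset.filter_subset _ _

/-- From the tube to the ball at one time. -/
lemma bl_tube {n t : ℕ} (ht : t ≤ n) (β : ℝ) (h v : Vec d) (w : ℝ) (η : Env d) :
    1 - ∑ y ∈ bl v t w, Qt β h n t y η ≤ 1 - PolT β h η (tube d n v w) := by
  rw [sum_Qt ht]
  have h1 := PolT_mono β h η (show tube d n v w ⊆ {s : Fin n → Step d | pos s t ∈ bl v t w} from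
    fun s hs => by
      show pos s t ∈ bl v t w
      unfold bl
      rw [Finset.mem_filter]
      exact ⟨pos_mem_boxF39 s le_rfl, hs t ht⟩)
  linarith

variable [IsProbabilityMeasure ρ]

lemma int_bl {n t : ℕ} (ht : t ≤ n) (h v : Vec d) (w : ℝ) :
    Integrable (fun η : Env d => 1 - ∑ y ∈ bl v t w, Qt β h n t y η) (law d ρ) := by
  have h5 : (fun η : Env d => 1 - ∑ y ∈ bl v t w, Qt β h n t y η) =
      fun η => 1 - PolT β h η {s : Fin n → Step d | pos s t ∈ bl v t w} := by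
    funext η
    rw [sum_Qt ht]
  rw [h5]
  exact (integrable_const 1).sub (integrable_PolT72 β h _)

lemma loc_bl {n t : ℕ} (ht : t ≤ n) (h v : Vec d) (w : ℝ) :
    ∫ η, (1 - ∑ y ∈ bl v t w, Qt β h n t y η) ∂(law d ρ) ≤
      ∫ η, (1 - PolT β h η (tube d n v w)) ∂(law d ρ) :=
  integral_mono (int_bl ht h v w) ((integrable_const 1).sub (integrable_PolT72 β h _))
    fun η => bl_tube ht β h v w η

/-- The Newman-Piza bound with a tube of radius `w ≥ 1`. -/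
lemma np19 (hd : 0 < d) {C₀ : ℝ} {h v : Vec d} {n : ℕ} {w : ℝ} (hw : 1 ≤ w)
    (hNP : ∑ t ∈ Finset.Icc 1 n, St ρ β h n t ≤ C₀ * Va ρ β h n)
    (hT : ∫ η, (1 - PolT β h η (tube d n v w)) ∂(law d ρ) ≤ 1 / 2) :
    (n : ℝ) / 4 ≤ 3 ^ d * w ^ d * (C₀ * Va ρ β h n) := by
  have h1 : ∀ t ∈ Finset.Icc 1 n, 1 / 4 ≤ 3 ^ d * w ^ d * St ρ β h n t := by
    intro t ht
    have htn : t ≤ n := (Finset.mem_Icc.1 ht).2
    have h2 := jenP62 (ρ := ρ) hd β h n t (bl v t w) (fun _ => 1) htn (bl_sub v t w)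
      measurable_const (fun _ _ _ => rfl) (fun _ => zero_le_one) (by simp)
    have h3 := (loc_bl (ρ := ρ) (β := β) htn h v w).trans hT
    have h4 : ∫ η, (1 - ∑ y ∈ bl v t w, Qt β h n t y η) ∂(law d ρ) =
        1 - ∫ η, ∑ y ∈ bl v t w, Qt β h n t y η ∂(law d ρ) := by
      have h6 : Integrable (fun η : Env d => ∑ y ∈ bl v t w, Qt β h n t y η) (law d ρ) := by
        have h7 := (integrable_const (1 : ℝ)).sub (int_bl (ρ := ρ) (β := β) htn h v w)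
        refine h7.congr (Eventually.of_forall fun η => ?_)
        show 1 - (1 - ∑ y ∈ bl v t w, Qt β h n t y η) = _
        ring
      rw [integral_sub (integrable_const 1) h6]
      simp
    have h5 : 1 / 2 ≤ ∫ η, ∑ y ∈ bl v t w, Qt β h n t y η * (1 : ℝ) ∂(law d ρ) := by
      simp only [mul_one]
      linarith
    have h6 : (1 / 2 : ℝ) ≤ Real.sqrt ((bl v t w).card * St ρ β h n t) := by
      refine h5.trans (h2.trans (le_of_eq ?_))
      simp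
    have hS := St_nonneg13 ρ β h n t
    have h7 : (1 / 2 : ℝ) ^ 2 ≤ (bl v t w).card * St ρ β h n t := by
      rw [← Real.sq_sqrt (mul_nonneg (Nat.cast_nonneg _) hS)]
      exact pow_le_pow_left₀ (by norm_num) h6 2
    have h8 := mul_le_mul_of_nonneg_right (card_bl v t hw) hS
    norm_num at h7 ⊢
    linarith
  have h2 := Finset.sum_le_sum h1
  rw [← Finset.mul_sum, Finset.sum_const, Nat.card_Icc, nsmul_eq_mul] at h2
  have h3 : 0 ≤ 3 ^ d * w ^ d := by positivity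
  have h4 := mul_le_mul_of_nonneg_left hNP h3
  have h5 : ((n + 1 - 1 : ℕ) : ℝ) = n := by simp
  rw [h5] at h2
  linarith

/-- A smaller radius is a stronger hypothesis. -/
lemma half_mono {h v : Vec d} {δ δ' : ℝ} (hδ : δ ≤ δ') (H : HalfD ρ β h v δ) :
    HalfD ρ β h v δ' := by
  intro ε hε
  filter_upwards [H ε hε, eventually_ge_atTop 1] with n hn hn1
  have hn1' : (1 : ℝ) ≤ n := by exact_mod_cast hn1
  refine le_trans ?_ hn
  unfold Tb
  refine integral_mono ((integrable_const 1).sub (integrable_PolT72 β h _))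
    ((integrable_const 1).sub (integrable_PolT72 β h _)) fun η => ?_
  exact sub_le_sub_left (PolT_mono _ _ _ (tube_mono v (mul_le_mul_of_nonneg_right
    (Real.rpow_le_rpow_of_exponent_le hn1' hδ) (Real.sqrt_nonneg _)))) _

/-- The tube in the form of a power. -/
lemma half_pow {h v : Vec d} {δ : ℝ} (H : HalfD ρ β h v δ) {ε : ℝ} (hε : 0 < ε) :
    ∀ᶠ n : ℕ in atTop, ∫ η, (1 - PolT β h η (tube d n v ((n : ℝ) ^ (1 / 2 + δ)))) ∂(law d ρ) ≤
      ε := by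
  filter_upwards [H ε hε, eventually_ge_atTop 1] with n hn hn1
  have hn0 : (0 : ℝ) < n := by exact_mod_cast hn1
  have e : (n : ℝ) ^ δ * Real.sqrt n = (n : ℝ) ^ (1 / 2 + δ) := by
    rw [Real.sqrt_eq_rpow, ← Real.rpow_add hn0]
    congr 1
    ring
  unfold Tb at hn
  rw [e] at hn
  exact hn

end M19

open M19

/-- **The theorem from the core and the budget.** -/
theorem mainN19 {d : ℕ} {ρ : Measure ℝ} [IsProbabilityMeasure ρ] (hd : 0 < d) {β : ℝ}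
    (hNP : NPB d ρ β) (hL : ∀ h : Vec d, VSD ρ β h → ∃ c₀ : ℝ, 0 < c₀ ∧ Loc1 ρ β h c₀)
    (hPri : PriK d ρ β) (hVau : VauN d ρ β) (hLow : LowN d ρ β) (hCor : CorN d ρ β)
    (hBuf : BufN d ρ β) : MainN d ρ β := by
  intro h v hV δ₀ hδ₀ hdδ hH
  obtain ⟨C₀, hC₀, hNP⟩ := hNP
  have hd1 : (1 : ℝ) ≤ d := by exact_mod_cast hd
  have ha0 : 0 < 1 / 2 + δ₀ := by linarith
  have ha1 : 1 / 2 + δ₀ < 1 := by
    have h1 : 1 * (1 / 2 + δ₀) ≤ d * (1 / 2 + δ₀) := mul_le_mul_of_nonneg_right hd1 ha0.le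
    linarith
  obtain ⟨δ₁, hδ₁⟩ : ∃ δ₁ : ℝ, δ₁ = max δ₀ 0 := ⟨_, rfl⟩
  have hδ₁0 : 0 ≤ δ₁ := by
    rw [hδ₁]
    exact le_max_right _ _
  have hδ₁1 : δ₁ < 1 / 2 := by
    rw [hδ₁]
    exact max_lt (by linarith) (by norm_num)
  have hH₁ : HalfD ρ β h v δ₁ := half_mono (by rw [hδ₁]; exact le_max_left _ _) hH
  obtain ⟨x₁, hx1, hx2⟩ := exists_between (show (1 / 2 + δ₁) / 2 < 1 / 2 by linarith)
  have hx0 : 0 < x₁ := by linarith
  obtain ⟨C, hC0, hC⟩ := hPri h v δ₁ x₁ hδ₁0 hδ₁1 hH₁ hx1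
  have hfM : ∀ k : ℕ, fM ρ β h k ≤ C * (k : ℝ) ^ x₁ := fun k => max_le (hC k).1 (hC k).2
  obtain ⟨c₀, hc₀, hLoc⟩ := hL h hV
  obtain ⟨C', hC'⟩ := hVau h c₀ C x₁ hc₀ hLoc hx0 hx2 hfM
  have h3d : (0 : ℝ) < 3 ^ d := by positivity
  -- the lower bound of the variance
  obtain ⟨y, hy⟩ : ∃ y : ℝ, y = (1 - d * (1 / 2 + δ₀)) / 2 := ⟨_, rfl⟩
  have hy0 : 0 < y := by
    rw [hy]
    linarith
  have hVlow : ∀ᶠ n : ℕ in atTop, (n : ℝ) ^ y ≤ Va ρ β h n := by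
    have t1 : Tendsto (fun n : ℕ => (n : ℝ) ^ y) atTop atTop :=
      (tendsto_rpow_atTop hy0).comp tendsto_natCast_atTop_atTop
    filter_upwards [half_pow hH (show (0 : ℝ) < 1 / 2 by norm_num),
      t1.eventually_ge_atTop (4 * 3 ^ d * (C₀ + 1)), eventually_ge_atTop 1] with n hn hn2 hn1
    have hn1' : (1 : ℝ) ≤ n := by exact_mod_cast hn1
    have hn0 : (0 : ℝ) < n := by linarith
    have hw1 : 1 ≤ (n : ℝ) ^ (1 / 2 + δ₀) := Real.one_le_rpow hn1' ha0.le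
    have h1 := np19 (ρ := ρ) hd hw1 (hNP h n) hn
    have hVa : 0 ≤ Va ρ β h n := integral_nonneg fun η => sq_nonneg _
    have e1 : ((n : ℝ) ^ (1 / 2 + δ₀)) ^ d = (n : ℝ) ^ (d * (1 / 2 + δ₀)) := by
      rw [← Real.rpow_natCast, ← Real.rpow_mul hn0.le]
      congr 1
      ring
    rw [e1] at h1
    have e2 : (n : ℝ) = (n : ℝ) ^ (d * (1 / 2 + δ₀)) * ((n : ℝ) ^ y * (n : ℝ) ^ y) := by
      rw [← Real.rpow_add hn0, ← Real.rpow_add hn0]
      conv_lhs => rw [← Real.rpow_one (n : ℝ)]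
      congr 1
      rw [hy]
      ring
    have hp : 0 < (n : ℝ) ^ (d * (1 / 2 + δ₀)) := Real.rpow_pos_of_pos hn0 _
    have hq : 0 < (n : ℝ) ^ y := Real.rpow_pos_of_pos hn0 _
    have h2 : (n : ℝ) ^ (d * (1 / 2 + δ₀)) * ((n : ℝ) ^ y * (n : ℝ) ^ y) / 4 ≤
        3 ^ d * (n : ℝ) ^ (d * (1 / 2 + δ₀)) * (C₀ * Va ρ β h n) := by
      rw [← e2]
      exact h1
    have h3 : (n : ℝ) ^ (d * (1 / 2 + δ₀)) * ((n : ℝ) ^ y * (n : ℝ) ^ y) ≤
        (n : ℝ) ^ (d * (1 / 2 + δ₀)) * (4 * 3 ^ d * (C₀ * Va ρ β h n)) := by linarith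
    have h4 := le_of_mul_le_mul_left h3 hp
    have h5 : 4 * 3 ^ d * (C₀ * Va ρ β h n) ≤ (n : ℝ) ^ y * Va ρ β h n := by
      have h6 : 4 * 3 ^ d * (C₀ * Va ρ β h n) ≤ 4 * 3 ^ d * (C₀ + 1) * Va ρ β h n := by
        have : 0 ≤ 4 * 3 ^ d * Va ρ β h n := by positivity
        nlinarith
      exact h6.trans (mul_le_mul_of_nonneg_right hn2 hVa)
    exact le_of_mul_le_mul_left (h4.trans h5) hq
  obtain ⟨c', hc', hfl⟩ := hLow h c₀ C x₁ y hc₀ hLoc hx0 hx2 hfM hy0 hVlow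
  obtain ⟨c, κ, hc, hκ, hcor⟩ := hCor c₀ x₁ hc₀ hx0 hx2
  have hcor := hcor h (max C C') c' hLoc hc' (fun k => by
    have hk : 0 ≤ (k : ℝ) ^ x₁ := Real.rpow_nonneg (Nat.cast_nonneg k) _
    have hk2 : 0 ≤ (k : ℝ) ^ (2 * x₁) := Real.rpow_nonneg (Nat.cast_nonneg k) _
    exact ⟨(hfM k).trans (mul_le_mul_of_nonneg_right (le_max_left _ _) hk),
      (hC' k).trans (mul_le_mul_of_nonneg_right (le_max_right _ _) hk2)⟩) hfl
  obtain ⟨Cb, hCb, hbuf⟩ := hBuf κ hκ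
  have hCb0 : 0 < Cb := by linarith
  -- the inequality at a tube of radius at least one
  have key : ∀ δ : ℝ, 0 ≤ 1 / 2 + δ → HalfD ρ β h v δ → ∀ᶠ n : ℕ in atTop,
      (n : ℝ) ^ (1 + c / 2) ≤ (n : ℝ) ^ (d * (1 / 2 + δ)) * Va ρ β h n := by
    intro δ hδ hHδ
    have t1 : Tendsto (fun n : ℕ => (n : ℝ) ^ (c / 2)) atTop atTop :=
      (tendsto_rpow_atTop (by linarith)).comp tendsto_natCast_atTop_atTop
    filter_upwards [hcor, half_pow hHδ (show 0 < 1 / Cb by positivity),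
      t1.eventually_ge_atTop (2 * Cb * (1 + 3 ^ d)), eventually_ge_atTop 1] with n h1 h2 h3 hn1
    have hn1' : (1 : ℝ) ≤ n := by exact_mod_cast hn1
    have hn0 : (0 : ℝ) < n := by linarith
    have hVa : 0 ≤ Va ρ β h n := integral_nonneg fun η => sq_nonneg _
    obtain ⟨w, hw⟩ : ∃ w : ℝ, w = (n : ℝ) ^ (1 / 2 + δ) := ⟨_, rfl⟩
    have hw1 : 1 ≤ w := by
      rw [hw]
      exact Real.one_le_rpow hn1' hδ
    have hwd : w ^ d = (n : ℝ) ^ (d * (1 / 2 + δ)) := by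
      rw [hw, ← Real.rpow_natCast, ← Real.rpow_mul hn0.le]
      congr 1
      ring
    rw [← hw] at h2
    have h4 := hbuf h n (3 ^ d * w ^ d) (fun t => bl v t w) hn1 (by positivity) fun t ht =>
      ⟨bl_sub v t w, card_bl v t hw1, (loc_bl ht.le h v w).trans h2⟩
    have h5 := h1 _ h4
    obtain ⟨u, hu⟩ : ∃ u : ℝ, u = 3 ^ d * w ^ d * Va ρ β h n / n := ⟨_, rfl⟩
    rw [← hu] at h5
    have hu0 : 0 ≤ u := by
      rw [hu]
      positivity
    have h6 : (n : ℝ) ^ c ≤ Cb * (1 + u) := by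
      have h7 := Real.exp_le_exp.2 h5
      rw [Real.exp_log (by positivity), mul_comm c, ← Real.rpow_def_of_pos hn0] at h7
      exact h7
    have h7 : (n : ℝ) ^ c = (n : ℝ) ^ (c / 2) * (n : ℝ) ^ (c / 2) := by
      rw [← Real.rpow_add hn0]
      congr 1
      ring
    obtain ⟨z, hz⟩ : ∃ z : ℝ, z = (n : ℝ) ^ (c / 2) := ⟨_, rfl⟩
    rw [← hz] at h3 h7
    rw [h7] at h6
    have h31 : (1 : ℝ) ≤ 3 ^ d := one_le_pow₀ (by norm_num)
    have hz1 : 2 * Cb * 3 ^ d ≤ z := by nlinarith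
    have hz2 : 2 * Cb ≤ z := by nlinarith
    have hz3 : 1 ≤ z := by linarith
    have hz0 : 0 < z := by linarith
    -- `z ^ 2 ≤ 2 Cb u`
    have h8 : z * z ≤ 2 * Cb * u := by nlinarith
    have h9 : z * n ≤ w ^ d * Va ρ β h n := by
      have h10 : 2 * Cb * u = 2 * Cb * 3 ^ d * (w ^ d * Va ρ β h n) / n := by
        rw [hu]
        ring
      rw [h10, le_div_iff₀ hn0] at h8
      have h11 : 2 * Cb * 3 ^ d * (w ^ d * Va ρ β h n) ≤ z * (w ^ d * Va ρ β h n) :=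
        mul_le_mul_of_nonneg_right hz1 (by positivity)
      have h12 : z * (z * n) ≤ z * (w ^ d * Va ρ β h n) := by linarith
      exact le_of_mul_le_mul_left h12 hz0
    rw [← hwd]
    refine le_trans (le_of_eq ?_) h9
    rw [hz, Real.rpow_add hn0, Real.rpow_one]
    ring
  refine ⟨c / 2, by linarith, fun δ hδ => ?_⟩
  rcases le_or_gt 0 (1 / 2 + δ) with h1 | h1
  · exact key δ h1 hδ
  · have h2 : HalfD ρ β h v (-(1 / 2)) := half_mono (by linarith) hδ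
    have h3 := key (-(1 / 2)) (by norm_num) h2
    have t1 : Tendsto (fun n : ℕ => (n : ℝ) ^ (1 - 2 * x₁)) atTop atTop :=
      (tendsto_rpow_atTop (by linarith)).comp tendsto_natCast_atTop_atTop
    filter_upwards [h3, t1.eventually_gt_atTop C', eventually_ge_atTop 1] with n h4 h5 hn1
    exfalso
    have hn1' : (1 : ℝ) ≤ n := by exact_mod_cast hn1
    have hn0 : (0 : ℝ) < n := by linarith
    rw [show (d : ℝ) * (1 / 2 + -(1 / 2)) = 0 by ring, Real.rpow_zero, one_mul] at h4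
    have h6 := h4.trans (hC' n)
    have h7 : (n : ℝ) ^ (2 * x₁) * (n : ℝ) ^ (1 - 2 * x₁) ≤ (n : ℝ) ^ (1 + c / 2) := by
      rw [← Real.rpow_add hn0]
      exact Real.rpow_le_rpow_of_exponent_le hn1' (by linarith)
    have hp : 0 < (n : ℝ) ^ (2 * x₁) := Real.rpow_pos_of_pos hn0 _
    have h8 : (n : ℝ) ^ (2 * x₁) * C' < (n : ℝ) ^ (2 * x₁) * (n : ℝ) ^ (1 - 2 * x₁) :=
      mul_lt_mul_of_pos_left h5 hp
    linarith

end Pool.Agent.W_7d29a1_SNP
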