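import Pool.Agent.W_7d29a1_SNP.CorL24
import Pool.Agent.W_7d29a1_SNP.DefsT92
import Pool.Agent.W_7d29a1_SNP.Sel66
import Pool.Agent.W_7d29a1_SNP.AddN90
import Pool.Agent.W_7d29a1_SNP.CostN90
import Pool.Agent.W_7d29a1_SNP.FsN94
import Pool.Agent.W_7d29a1_SNP.Var35
import Pool.Agent.W_7d29a1_SNP.ExcN7
import Pool.Agent.W_7d29a1_SNP.PlugU63
import Pool.Agent.W_7d29a1_SNP.Adt34
import Pool.Agent.W_7d29a1_SNP.GplN78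
import Pool.Agent.W_7d29a1_SNP.ExmN76
import Pool.Agent.W_7d29a1_SNP.BufN25
import Pool.Agent.W_7d29a1_SNP.LowVau95
import Pool.Agent.W_7d29a1_PL.FinX73
import Pool.Agent.W_7d29a1_PL.CatP47
import Pool.Agent.W_7d29a1_PL.Use10

/-!
The Newman-Piza inequality is strict: the green leaves, every law (helper81).
-/

namespace Pool.Agent.W_7d29a1_SNP

open MeasureTheory ProbabilityTheory Filter Topology Pool.Agent.W_MP_7d29a1_pr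
  Pool.Agent.W_7d29a1_h46 Pool.Agent.W_7d29a1_h46u Pool.Agent.W_7d29a1_D2.B35
  Pool.Agent.W_7d29a1_Q29 Pool.Agent.W_7d29a1_R34 Pool.Agent.W_7d29a1_SP
  Pool.Agent.W_7d29a1_PL Pool.Agent.W_7d29a1_SD Pool.Agent.W_7d29a1_KZ

variable {d : ℕ} {ρ : Measure ℝ} [IsProbabilityMeasure ρ]

theorem growN81 (hd : 0 < d) (hρ : EM ρ) (hnc : ∀ c : ℝ, ρ {c} ≠ 1) {β : ℝ} (hβ : 0 < β) :
    GrowN d ρ β := growN73 hd hρ hnc hβ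

theorem varN81 (hd : 0 < d) (hρ : EM ρ) (hnc : ∀ c : ℝ, ρ {c} ≠ 1) {β : ℝ} (hβ : 0 < β) :
    VarN d ρ β := varNAll35 hd hρ hnc hβ (cnt79 hd hρ β)

/-- The long levels, every law. -/
theorem corT1_81 (hd : 0 < d) (hρ : EM ρ) (hnc : ∀ c : ℝ, ρ {c} ≠ 1) {β : ℝ} (hβ : 0 < β) :
    CorT1 d ρ β :=
  corT1_24 hd (useP10 hd hρ β)
    (addN90 hd hρ (catP47 hd hρ β) (costN90 hd hρ (growN81 hd hρ hnc hβ)))
    (fsN94 hd hρ (growN81 hd hρ hnc hβ) (varN81 hd hρ hnc hβ))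

theorem excN81 (hd : 0 < d) (hρ : EM ρ) (hnc : ∀ c : ℝ, ρ {c} ≠ 1) {β : ℝ} (hβ : 0 < β) :
    ExcN d ρ β := excN7 hd hρ (varN81 hd hρ hnc hβ)

theorem adtN81 (hd : 0 < d) (hρ : EM ρ) (β : ℝ) : AdtN d ρ β :=
  adtN34 hd (catP47 hd hρ β) (gplN78 hd hρ β)

theorem exmN81 (hd : 0 < d) (hρ : EM ρ) (hnc : ∀ c : ℝ, ρ {c} ≠ 1) {β : ℝ} (hβ : 0 < β) :
    ExmN d ρ β := EX76.exmN76 hd hρ (varN81 hd hρ hnc hβ)

theorem bufN81 (hd : 0 < d) (hρ : EM ρ) (hnc : ∀ c : ℝ, ρ {c} ≠ 1) {β : ℝ} (hβ : 0 < β) :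
    BufN d ρ β := bufN25 hd (npb98 hd hρ hnc hβ)

theorem vauN81 (hd : 0 < d) (hρ : EM ρ) (hnc : ∀ c : ℝ, ρ {c} ≠ 1) {β : ℝ} (hβ : 0 < β) :
    VauN d ρ β := vauN95 (varFN41 hd hρ hnc hβ (cnt79 hd hρ β))

theorem lowN81 (hd : 0 < d) (hρ : EM ρ) (hnc : ∀ c : ℝ, ρ {c} ≠ 1) {β : ℝ} (hβ : 0 < β) :
    LowN d ρ β := lowN95 (varFN41 hd hρ hnc hβ (cnt79 hd hρ β))

end Pool.Agent.W_7d29a1_SNP
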