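import Pool.Agent.W_7d29a1_SNP.DefsN28

/-!
Leaf RSN: the rising sun lemma behind UST (second text).
-/

set_option autoImplicit false

namespace Pool.Agent.W_7d29a1_SNP

open MeasureTheory ProbabilityTheory Filter Topology

/-- The run of `G` which ends before `k`: its start. -/
lemma run26 (G : Finset ℕ) (k : ℕ) : ∃ i ≤ k, (∀ j, i ≤ j → j < k → j ∈ G) ∧
    (0 < i → i - 1 ∉ G) := by
  induction k with
  | zero => exact ⟨0, le_rfl, fun j _ hj => absurd hj (Nat.not_lt_zero _), fun h => absurd h (lt_irrefl _)⟩
  | succ k ih =>
    by_cases hk : k ∈ G
    · obtain ⟨i, hi, h1, h2⟩ := ih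
      refine ⟨i, by omega, fun j hj hjk => ?_, h2⟩
      rcases Nat.lt_succ_iff_lt_or_eq.1 hjk with h | h
      · exact h1 j hj h
      · rw [h]; exact hk
    · exact ⟨k + 1, le_rfl, fun j hj hjk => absurd hjk (by omega), fun _ => by simpa using hk⟩

/-- **RSN.** -/
theorem rsn26 : RsnP := by
  intro N f φ a b e G ha hb hφ hG hD he
  have key : ∀ k, k ≤ N → ∑ i ∈ Finset.range k, f i ≤ ∑ i ∈ Finset.range k, φ i +
      2 * (a + b) * ((G ∩ Finset.range k).card : ℝ) + e := by
    intro k
    induction k using Nat.strong_induction_on with
    | _ k ih =>
      intro hk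
      obtain ⟨i, hik, hi1, hi2⟩ := run26 G k
      rcases Nat.eq_zero_or_pos i with hi0 | hi0
      · -- the whole of `[0, k)` is in `G`
        subst hi0
        have hc : ((G ∩ Finset.range k).card : ℝ) = k := by
          have : G ∩ Finset.range k = Finset.range k := by
            ext j
            simp only [Finset.mem_inter, Finset.mem_range]
            exact ⟨fun h => h.2, fun h => ⟨hi1 j (Nat.zero_le _) h, h⟩⟩
          rw [this, Finset.card_range]
        have h1 := hD k hk
        rw [Finset.sum_sub_distrib, Finset.sum_const, Finset.card_range, nsmul_eq_mul] at h1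
        have h2 : -((k : ℝ) * b) ≤ ∑ i ∈ Finset.range k, φ i := by
          have : ∑ i ∈ Finset.range k, (-b) ≤ ∑ i ∈ Finset.range k, φ i :=
            Finset.sum_le_sum fun j hj => hφ j (lt_of_lt_of_le (Finset.mem_range.1 hj) hk)
          rw [Finset.sum_const, Finset.card_range, nsmul_eq_mul] at this
          linarith
        rw [hc]
        have h3 : 0 ≤ (k : ℝ) * a := by positivity
        have h4 : 0 ≤ (k : ℝ) * b := by positivity
        nlinarith
      · -- the predecessor `i - 1` is not in `G`
        have hp := hi2 hi0
        obtain ⟨q, rfl⟩ : ∃ q, i = q + 1 := ⟨i - 1, by omega⟩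
        simp only [Nat.add_sub_cancel] at hp
        obtain ⟨r, rfl⟩ : ∃ r, k = q + 1 + r := ⟨k - (q + 1), by omega⟩
        have hq := ih q (by omega) (by omega)
        have hcard : ((G ∩ Finset.range (q + 1 + r)).card : ℝ) =
            (G ∩ Finset.range q).card + r := by
          have e1 : G ∩ Finset.range (q + 1 + r) = (G ∩ Finset.range q) ∪
              Finset.Ico (q + 1) (q + 1 + r) := by
            ext j
            simp only [Finset.mem_inter, Finset.mem_range, Finset.mem_union, Finset.mem_Ico]
            constructor
            · rintro ⟨h1, h2⟩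
              by_cases hj : j < q
              · exact Or.inl ⟨h1, hj⟩
              · right
                have : j ≠ q := fun h => hp (h ▸ h1)
                omega
            · rintro (⟨h1, h2⟩ | ⟨h1, h2⟩)
              · exact ⟨h1, by omega⟩
              · exact ⟨hi1 j h1 h2, h2⟩
          rw [e1, Finset.card_union_of_disjoint, Nat.card_Ico]
          · push_cast
            congr 1
            have : q + 1 + r - (q + 1) = r := by omega
            rw [this]
          · rw [Finset.disjoint_left]
            intro j hj hj'
            simp only [Finset.mem_inter, Finset.mem_range, Finset.mem_Ico] at hj hj'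
            omega
        have hsplit : ∀ g : ℕ → ℝ, ∑ i ∈ Finset.range (q + 1 + r), g i =
            ∑ i ∈ Finset.range q, g i + ∑ i ∈ Finset.range (r + 1), g (q + i) := by
          intro g
          rw [show q + 1 + r = q + (r + 1) by ring, Finset.sum_range_add]
        rcases Nat.eq_zero_or_pos r with hr0 | hr0
        · subst hr0
          have h1 := (hG q (by omega) hp).1
          rw [hcard, hsplit f, hsplit φ]
          simp only [Nat.zero_add, Finset.sum_range_one, Nat.add_zero]
          push_cast
          linarith
        · have h1 := (hG q (by omega) hp).2 (r + 1) (by omega) (by omega)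
          have h2 : -(((r : ℝ) + 1) * b) ≤ ∑ i ∈ Finset.range (r + 1), φ (q + i) := by
            have : ∑ i ∈ Finset.range (r + 1), (-b) ≤ ∑ i ∈ Finset.range (r + 1), φ (q + i) :=
              Finset.sum_le_sum fun j hj => hφ _ (by
                have := Finset.mem_range.1 hj; omega)
            rw [Finset.sum_const, Finset.card_range, nsmul_eq_mul] at this
            push_cast at this
            linarith
          have hr1 : (1 : ℝ) ≤ r := by exact_mod_cast hr0
          rw [hcard, hsplit f, hsplit φ]
          push_cast at h1
          have h3 : ((r : ℝ) + 1) * a + ((r : ℝ) + 1) * b ≤ 2 * (a + b) * r := by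
            nlinarith [mul_nonneg ha (by linarith : (0 : ℝ) ≤ r - 1),
              mul_nonneg hb (by linarith : (0 : ℝ) ≤ r - 1)]
          nlinarith
  exact key N le_rfl

end Pool.Agent.W_7d29a1_SNP
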