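import Pool.Agent.W_7d29a1_SNP.Lev63
import Pool.Agent.W_7d29a1_SNP.CorL24
import Pool.Agent.W_7d29a1_SNP.DefsT92

/-!
The split of the core: long levels and many levels (helper63).
-/

set_option autoImplicit false

namespace Pool.Agent.W_7d29a1_SNP

open MeasureTheory ProbabilityTheory Filter Topology Pool.Agent.W_MP_7d29a1_pr
  Pool.Agent.W_7d29a1_h46 Pool.Agent.W_7d29a1_h46u Pool.Agent.W_7d29a1_D2.B35
  Pool.Agent.W_7d29a1_Q29 Pool.Agent.W_7d29a1_R34 Pool.Agent.W_7d29a1_SP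
  Pool.Agent.W_7d29a1_PL Pool.Agent.W_7d29a1_SD Pool.Agent.W_7d29a1_KZ

variable {d : ℕ} {ρ : Measure ℝ} {β : ℝ}

/-- **CORN**, from the two halves. -/
theorem corN63 (hS : SelN) (h1 : CorT1 d ρ β) (h2 : CorT2 d ρ β) : CorN d ρ β := by
  classical
  intro c₀ x₁ hc₀ hx hx2
  obtain ⟨Λ, hΛ, hxΛ⟩ := lam63 hx hx2
  obtain ⟨D₀, c₁, C₁, hD₀, hc₁, hC₁, hT1⟩ := h1 c₀ Λ x₁ hc₀ hΛ hx hx2
  obtain ⟨b, c₂, κ₂, C₂, hb1, hc₂, hκ₂, hC₂, hT2⟩ := h2 c₀ Λ hc₀ hΛ
  set g : ℝ := (1 / 2 - x₁) / 4 with hg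
  have hg0 : 0 < g := by rw [hg]; linarith
  have hb0 : (0 : ℝ) < b := by exact_mod_cast hb1
  set C' : ℝ := max C₁ C₂ with hC'
  have hC'0 : 0 ≤ C' := le_trans (by linarith) (le_max_left C₁ C₂)
  obtain ⟨cS, gS, hcS, hgS, hSel⟩ := hS Λ x₁ g (by linarith) hx hxΛ hg0
  refine ⟨min (c₁ * cS / 2) (c₂ * cS / (2 * b * D₀)), min (1 / 100) κ₂,
    lt_min (by positivity) (by positivity), lt_min (by norm_num) hκ₂,
    fun h C y hLoc hy hup hlow => ?_⟩
  obtain ⟨m, hlo, hhi, hmono, hm1, B, hB, hlog⟩ := lev63 (f := fM ρ β h)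
    (fM_zero63 β h).le hy hlow
  have hLv : Lv ρ β h m := ⟨hlo, hhi⟩
  obtain ⟨l₁, hl₁⟩ := logc63 (m := m) (A := Real.log 2 / y) (B := B)
    (by have := Real.log_nonneg (show (1 : ℝ) ≤ 2 by norm_num); positivity) hlog C' hC'0
  obtain ⟨lT1, hT1⟩ := hT1 h C hLoc hup m hLv
  have hT2 := hT2 h C x₁ g hLoc hx hg0 (by rw [hg]; linarith) hup m hLv
  -- a level whose time is at least two
  obtain ⟨lT2, hlT2⟩ : ∃ l : ℕ, ∀ p : ℕ, l ≤ p → 2 ≤ m p := by
    obtain ⟨l, hl, -⟩ := last63 hx hm1 (fun l => (hhi l).trans (hup (m l)).1) (Real.log 2)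
    refine ⟨l, fun p hp => ?_⟩
    have h3 : (2 : ℝ) ≤ m l := by
      have hm0 : (0 : ℝ) < m l := by exact_mod_cast hm1 l
      exact (Real.log_le_log_iff (by norm_num) hm0).1 hl
    have h4 : 2 ≤ m l := by exact_mod_cast h3
    exact h4.trans (hmono hp)
  set l₀ : ℕ := max l₁ (max lT1 (lT2 + b)) with hl₀
  have hmC : ∀ l : ℕ, (2 : ℝ) ^ l ≤ C * (m l : ℝ) ^ x₁ := fun l => (hhi l).trans (hup (m l)).1
  obtain ⟨W₀, hW₀⟩ := hSel C
  have hlogn : Tendsto (fun n : ℕ => Real.log (n : ℝ)) atTop atTop :=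
    Real.tendsto_log_atTop.comp tendsto_natCast_atTop_atTop
  filter_upwards [hT1, hT2, hlogn.eventually_ge_atTop W₀,
    hlogn.eventually_ge_atTop (Real.log (m l₀) / gS),
    eventually_ge_atTop 1] with n hn1 hn2 hW1 hW2 hn
  intro V hV
  have hn0 : (0 : ℝ) < n := by exact_mod_cast hn
  have hn1' : (1 : ℝ) ≤ n := by exact_mod_cast hn
  obtain ⟨lE, hlE, hlE2⟩ := last63 hx hm1 hmC (g * Real.log n)
  obtain ⟨I, hI, hsum⟩ := hW₀ m (Real.log n) l₀ lE hW1 hmono (hm1 l₀) hmC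
    (by
      rw [div_le_iff₀ hgS] at hW2
      linarith) hlE hlE2
  -- the conditions
  have hl1 : ∀ p ∈ I, l₁ ≤ p := fun p hp => (le_max_left _ _).trans (hI p hp).2.1
  have hlT1' : ∀ p ∈ I, lT1 ≤ p := fun p hp =>
    ((le_max_left _ _).trans (le_max_right _ _)).trans (hI p hp).2.1
  have hlT2' : ∀ p ∈ I, lT2 + b ≤ p := fun p hp =>
    ((le_max_right _ _).trans (le_max_right _ _)).trans (hI p hp).2.1
  have hL : ∀ l : ℕ, 0 ≤ 1 + Real.log (m l) := fun l => by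
    have := Real.log_nonneg (show (1 : ℝ) ≤ m l by exact_mod_cast hm1 l)
    linarith
  have htop : ∀ p ∈ I, (m p : ℝ) ≤ (n : ℝ) ^ g := fun p hp => by
    have h3 := hlE2 p (hI p hp).2.2
    have hm0 : (0 : ℝ) < m p := by exact_mod_cast hm1 p
    rw [Real.rpow_def_of_pos hn0, ← Real.exp_log hm0]
    refine Real.exp_le_exp.2 ?_
    linarith
  set Il := I.filter fun p => D₀ ≤ Dq m p with hIl
  set Is := I.filter fun p => ¬ D₀ ≤ Dq m p with hIs
  have hsplit : ∑ p ∈ Il, Dq m p + ∑ p ∈ Is, Dq m p = ∑ p ∈ I, Dq m p :=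
    Finset.sum_filter_add_sum_filter_not _ _ _
  rcases le_total (cS * Real.log n / 2) (∑ p ∈ Il, Dq m p) with h3 | h3
  · -- long levels
    have h4 := hn1 Il (fun p hp => by
      have hp' := (Finset.mem_filter.1 hp).1
      exact ⟨hlT1' p hp', (hI p hp').1, (Finset.mem_filter.1 hp).2, htop p hp', fun i =>
        (mul_le_mul_of_nonneg_right (le_max_left _ _) (hL _)).trans ((hl₁ p (hl1 p hp')).2 i)⟩)
      V (bdF_mono63 (min_le_left _ _) hV)
    have h5 : c₁ * (cS * Real.log n / 2) ≤ c₁ * ∑ p ∈ Il, Dq m p :=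
      mul_le_mul_of_nonneg_left h3 hc₁.le
    have h9 : min (c₁ * cS / 2) (c₂ * cS / (2 * b * D₀)) * Real.log n ≤
        c₁ * cS / 2 * Real.log n :=
      mul_le_mul_of_nonneg_right (min_le_left _ _) (Real.log_nonneg hn1')
    linarith
  · -- many levels
    have h3' : cS * Real.log n / 2 ≤ ∑ p ∈ Is, Dq m p := by linarith
    have h4 : ∑ p ∈ Is, Dq m p ≤ D₀ * (Is.card : ℝ) := by
      calc ∑ p ∈ Is, Dq m p ≤ ∑ p ∈ Is, D₀ := Finset.sum_le_sum fun p hp =>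
            (not_le.1 (Finset.mem_filter.1 hp).2).le
        _ = D₀ * (Is.card : ℝ) := by rw [Finset.sum_const, nsmul_eq_mul, mul_comm]
    obtain ⟨J, hJ, hsp, hJs⟩ := res63 Is (fun _ => (1 : ℝ)) hb1
    rw [Finset.sum_const, Finset.sum_const, nsmul_eq_mul, nsmul_eq_mul, mul_one, mul_one] at hJs
    have hJI : J ⊆ I := hJ.trans (Finset.filter_subset _ _)
    have h5 := hn2 J V (fun p hp => by
      have hp' := hJI hp
      have h6 := hlT2' p hp'
      exact ⟨by omega, hlT2 _ (by omega), (hI p hp').1,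
        (mul_le_mul_of_nonneg_right (le_max_right _ _) (hL _)).trans (hl₁ p (hl1 p hp')).1,
        htop p hp'⟩) hsp (bdF_mono63 (min_le_right _ _) hV)
    have h6 : cS * Real.log n / (2 * b * D₀) ≤ (J.card : ℝ) := by
      rw [div_le_iff₀ (by positivity)]
      have h7 : D₀ * (Is.card : ℝ) ≤ D₀ * (b * (J.card : ℝ)) :=
        mul_le_mul_of_nonneg_left hJs (by linarith)
      linarith
    have h7 : c₂ * (cS * Real.log n / (2 * b * D₀)) ≤ V :=
      (mul_le_mul_of_nonneg_left h6 hc₂.le).trans h5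
    have h9 : c₂ * (cS * Real.log n / (2 * b * D₀)) =
        c₂ * cS / (2 * b * D₀) * Real.log n := by
      field_simp
    have h10 : min (c₁ * cS / 2) (c₂ * cS / (2 * b * D₀)) * Real.log n ≤
        c₂ * cS / (2 * b * D₀) * Real.log n :=
      mul_le_mul_of_nonneg_right (min_le_right _ _) (Real.log_nonneg hn1')
    linarith

end Pool.Agent.W_7d29a1_SNP
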