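import Pool.Agent.W_7d29a1_SNP.DefsN28
import Pool.Agent.W_7d29a1_SP.Bas15

/-!
The split of CORN: spacing of the levels, the times of the levels, long and short levels.
-/

set_option autoImplicit false

namespace Pool.Agent.W_7d29a1_SNP

open MeasureTheory ProbabilityTheory Filter Topology Pool.Agent.W_MP_7d29a1_pr
  Pool.Agent.W_7d29a1_h46 Pool.Agent.W_7d29a1_h46u Pool.Agent.W_7d29a1_D2.B35
  Pool.Agent.W_7d29a1_Q29 Pool.Agent.W_7d29a1_R34 Pool.Agent.W_7d29a1_SP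
  Pool.Agent.W_7d29a1_PL Pool.Agent.W_7d29a1_SD Pool.Agent.W_7d29a1_KZ

namespace Sp35

/-- A residue class carries its share of the weight. -/
lemma spc (I : Finset ℕ) (w : ℕ → ℝ) {b : ℕ} (hb : 1 ≤ b) : ∃ J : Finset ℕ, J ⊆ I ∧
    (∀ p ∈ J, ∀ q ∈ J, p < q → p + b ≤ q) ∧ ∑ p ∈ I, w p ≤ b * ∑ p ∈ J, w p := by
  classical
  have hb0 : (0 : ℝ) < b := by exact_mod_cast hb
  have h1 : ∑ r ∈ Finset.range b, ∑ p ∈ I.filter (fun p => p % b = r), w p = ∑ p ∈ I, w p :=
    Finset.sum_fiberwise_of_maps_to (fun p _ => Finset.mem_range.2 (Nat.mod_lt p (by omega))) w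
  obtain ⟨r, hr, hmax⟩ := Finset.exists_max_image (Finset.range b)
    (fun r => ∑ p ∈ I.filter (fun p => p % b = r), w p) ⟨0, Finset.mem_range.2 (by omega)⟩
  refine ⟨I.filter fun p => p % b = r, Finset.filter_subset _ _, ?_, ?_⟩
  · intro p hp q hq hpq
    have hp1 := (Finset.mem_filter.1 hp).2
    have hq1 := (Finset.mem_filter.1 hq).2
    have h2 : b ∣ q - p := (Nat.modEq_iff_dvd' hpq.le).1 (hp1.trans hq1.symm)
    have h3 := Nat.le_of_dvd (by omega) h2
    omega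
  · rw [← h1]
    have h2 := Finset.sum_le_card_nsmul (Finset.range b)
      (fun r => ∑ p ∈ I.filter (fun p => p % b = r), w p) _ hmax
    rw [Finset.card_range, nsmul_eq_mul] at h2
    exact h2

/-- The part of the sum over the long levels or the number of the short levels is large. -/
lemma long_short (I : Finset ℕ) (w : ℕ → ℝ) {D W : ℝ} (hD : 0 < D)
    (hW : W ≤ ∑ p ∈ I, w p) :
    W / 2 ≤ ∑ p ∈ I.filter (fun p => D ≤ w p), w p ∨
      W / (2 * D) ≤ ((I.filter fun p => ¬ D ≤ w p).card : ℝ) := by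
  classical
  have h1 := Finset.sum_filter_add_sum_filter_not I (fun p => D ≤ w p) w
  rcases le_or_gt (W / 2) (∑ p ∈ I.filter (fun p => D ≤ w p), w p) with h2 | h2
  · exact Or.inl h2
  · right
    have h3 : ∑ p ∈ I.filter (fun p => ¬ D ≤ w p), w p ≤
        ((I.filter fun p => ¬ D ≤ w p).card : ℝ) * D := by
      rw [← nsmul_eq_mul]
      exact Finset.sum_le_card_nsmul _ _ _ fun p hp => (not_le.1 (Finset.mem_filter.1 hp).2).le
    rw [div_le_iff₀ (by positivity)]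
    linarith

/-- The times of the levels of an unbounded function. -/
lemma levels {f : ℕ → ℝ} (hf : ∀ b : ℝ, ∃ k : ℕ, b ≤ f k) : ∃ m : ℕ → ℕ,
    (∀ l k : ℕ, k < m l → f k < 2 ^ l) ∧ (∀ l : ℕ, (2 : ℝ) ^ l ≤ f (m l)) ∧ Monotone m := by
  classical
  have h1 : ∀ l : ℕ, ∃ k : ℕ, (2 : ℝ) ^ l ≤ f k := fun l => hf _
  refine ⟨fun l => Nat.find (h1 l), fun l k hk => ?_, fun l => Nat.find_spec (h1 l), ?_⟩
  · exact not_le.1 (Nat.find_min (h1 l) hk)
  · intro l l' hl
    refine Nat.find_min' (h1 l) ?_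
    exact (pow_le_pow_right₀ (by norm_num) hl).trans (Nat.find_spec (h1 l'))

end Sp35

end Pool.Agent.W_7d29a1_SNP
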