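import Pool.Agent.W_7d29a1_PL.Use63

/-!
Leaf UST: USE with a truncated function of the future (helper63).
-/

set_option autoImplicit false

namespace Pool.Agent.W_7d29a1_PL

open MeasureTheory ProbabilityTheory Filter Topology Pool.Agent.W_MP_7d29a1_pr
  Pool.Agent.W_7d29a1_h46 Pool.Agent.W_7d29a1_h46u Pool.Agent.W_7d29a1_D2.B35
  Pool.Agent.W_7d29a1_Q29 Pool.Agent.W_7d29a1_S90 Pool.Agent.W_7d29a1_NV Pool.Agent.W_7d29a1_SP

/-- The largest window sum from the left end. -/
noncomputable def RR63 (G : ℝ) : ℕ → (ℕ → ℝ) → ℝ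
  | 0, _ => 0
  | N + 1, f => max 0 (f 0 - G + RR63 G N fun i => f (i + 1))

lemma RR_nn63 (G : ℝ) (N : ℕ) (f : ℕ → ℝ) : 0 ≤ RR63 G N f := by
  cases N with
  | zero => exact le_rfl
  | succ N => exact le_max_left _ _

lemma RR_win63 (G : ℝ) : ∀ (N : ℕ) (f : ℕ → ℝ), RR63 G N f = 0 ∨
    ∃ m : ℕ, 1 ≤ m ∧ m ≤ N ∧ RR63 G N f = ∑ i ∈ Finset.range m, (f i - G) := by
  intro N
  induction N with
  | zero => exact fun f => Or.inl rfl
  | succ N ih =>
    intro f
    rcases le_total (f 0 - G + RR63 G N fun i => f (i + 1)) 0 with h1 | h1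
    · exact Or.inl (max_eq_left h1)
    · right
      have h2 : RR63 G (N + 1) f = f 0 - G + RR63 G N fun i => f (i + 1) := max_eq_right h1
      rcases ih fun i => f (i + 1) with h3 | ⟨m, hm1, hm2, h3⟩
      · refine ⟨1, le_rfl, by omega, ?_⟩
        rw [h2, h3]
        simp
      · refine ⟨m + 1, by omega, by omega, ?_⟩
        rw [h2, h3, Finset.sum_range_succ', add_comm]

open Classical in
/-- The rising sun lemma with a free upper bound. -/
lemma sunC63 {G D : ℝ} (hGD : 0 ≤ G + D) : ∀ (N : ℕ) (f c : ℕ → ℝ) (S : ℕ → Prop),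
    (∀ k, k < N → ¬ S k → f k ≤ c k) → (∀ k, k < N → -D ≤ c k) →
    (∀ k, k < N → ¬ S k → ∀ m : ℕ, k + m ≤ N → ∑ i ∈ Finset.range m, f (k + i) ≤ G * m) →
    ∑ k ∈ Finset.range N, (f k - c k) ≤ RR63 G N f +
      2 * (G + D) * (∑ k ∈ Finset.range N, if S k then (1 : ℝ) else 0) -
      (if 0 < RR63 G N f then G + D else 0) := by
  intro N
  induction N with
  | zero =>
    intro f c S _ _ _
    simp [RR63]
  | succ N ih =>
    intro f c S h1 h2 h3
    have hih := ih (fun i => f (i + 1)) (fun i => c (i + 1)) (fun i => S (i + 1))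
      (fun k hk hS => h1 (k + 1) (by omega) hS) (fun k hk => h2 (k + 1) (by omega))
      (fun k hk hS m hm => by
        have := h3 (k + 1) (by omega) hS m (by omega)
        refine le_trans (le_of_eq (Finset.sum_congr rfl fun i _ => ?_)) this
        show f (k + i + 1) = f (k + 1 + i)
        congr 1
        omega)
    rw [Finset.sum_range_succ', Finset.sum_range_succ' (fun k => if S k then (1 : ℝ) else 0)]
    set R' := RR63 G N fun i => f (i + 1) with hR'
    have hR0 : 0 ≤ R' := RR_nn63 _ _ _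
    have hRR : RR63 G (N + 1) f = max 0 (f 0 - G + R') := rfl
    have hc0 := h2 0 (by omega)
    have hSpos : 0 < RR63 G (N + 1) f → S 0 := by
      intro h4
      by_contra h5
      rcases RR_win63 G (N + 1) f with h6 | ⟨m, hm1, hm2, h6⟩
      · rw [h6] at h4
        exact lt_irrefl _ h4
      · have h7 := h3 0 (by omega) h5 m (by omega)
        simp only [zero_add] at h7
        rw [h6, Finset.sum_sub_distrib, Finset.sum_const, Finset.card_range, nsmul_eq_mul] at h4
        linarith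
    set s' := ∑ k ∈ Finset.range N, (if S (k + 1) then (1 : ℝ) else 0) with hs'
    by_cases hp : 0 < RR63 G (N + 1) f
    · have hS0 := hSpos hp
      have hval : RR63 G (N + 1) f = f 0 - G + R' := by
        rw [hRR] at hp ⊢
        refine max_eq_right ?_
        by_contra h8
        push Not at h8
        rw [max_eq_left h8.le] at hp
        exact lt_irrefl _ hp
      rw [if_pos hp, if_pos hS0, hval]
      split_ifs at hih with h9 <;> nlinarith
    · have hz : RR63 G (N + 1) f = 0 := le_antisymm (not_lt.1 hp) (RR_nn63 _ _ _)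
      have hle : f 0 - G + R' ≤ 0 := by
        rw [hRR] at hz
        exact (le_max_right _ _).trans hz.le
      rw [if_neg hp, hz]
      by_cases hS0 : S 0
      · rw [if_pos hS0]
        split_ifs at hih with h9 <;> nlinarith
      · rw [if_neg hS0]
        have hf0 := h1 0 (by omega) hS0
        split_ifs at hih with h9
        · linarith
        · have : R' = 0 := le_antisymm (not_lt.1 h9) hR0
          linarith

variable {d : ℕ}

open Classical in
/-- One environment, one offset. -/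
theorem ustq63 (hd : 0 < d) (β lm : ℝ) (h : Vec d) (η : Env d) (o b N : ℕ) {n : ℕ}
    (hn : o + N * b ≤ n) {M G D : ℝ} (hG : 0 ≤ G) (hGD : 0 ≤ G + D) (ψ : Env d → ℝ) (B : Set (Env d))
    (h1 : ∀ η' : Env d, η' ∉ B → X β h η' b - lm * b ≤ ψ η') (h2 : ∀ η' : Env d, -D ≤ ψ η')
    (h3 : ∀ η' : Env d, η' ∉ B → ∀ m : ℕ, m * b ≤ n →
      X β h η' (m * b) ≤ lm * (m * b : ℕ) + G * m)
    (hM : ∀ m : ℕ, m ≤ n → X β h η m ≤ lm * m + M) :
    0 ≤ (∑ k ∈ Finset.range N, pe β h η (fun w : Fin n → Step d =>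
        ψ (sh (o + k * b) (pos w (o + k * b)) η))) +
      2 * (G + D) * (∑ k ∈ Finset.range N, pe β h η (fun w : Fin n → Step d =>
        if sh (o + k * b) (pos w (o + k * b)) η ∈ B then (1 : ℝ) else 0)) +
      M + lm * (o + N * b : ℕ) - X β h η n +
        (Real.log (boxF d o).card + N * Real.log (boxF d b).card) +
        Real.log (∑ y ∈ boxF d n, Z β h (sh (o + N * b) y η) (n - (o + N * b))) := by
  have hZ := Z_pos hd β h η n
  -- one walk
  have hwalk : ∀ w : Fin n → Step d,
      Real.log (∑ w' : Fin n → Step d, if (fun i : Fin (N + 1) => pos w' (o + (i : ℕ) * b)) =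
          (fun i : Fin (N + 1) => pos w (o + (i : ℕ) * b)) then wgt β h η w' / Z β h η n else 0) ≤
        M + lm * (o + N * b : ℕ) - X β h η n +
        Real.log (∑ y ∈ boxF d n, Z β h (sh (o + N * b) y η) (n - (o + N * b))) +
        ((∑ k ∈ Finset.range N, ψ (sh (o + k * b) (pos w (o + k * b)) η)) +
        2 * (G + D) * ∑ k ∈ Finset.range N,
          (if sh (o + k * b) (pos w (o + k * b)) η ∈ B then (1 : ℝ) else 0)) := by
    intro w
    have hwh := whole63 β h η o b N hn w
    set L := Z β h (sh (o + N * b) (pos w (o + N * b)) η) (n - (o + N * b)) with hL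
    set P0 := PP β h η o (pos w o) with hP0
    have hWpos : 0 < ZT β h η {w' : Fin n → Step d | ∀ i : Fin (N + 1),
        pos w' (o + (i : ℕ) * b) = pos w (o + (i : ℕ) * b)} :=
      ZT_pos β h η ⟨w, fun _ => rfl⟩
    have hsumW : (∑ w' : Fin n → Step d, if (fun i : Fin (N + 1) => pos w' (o + (i : ℕ) * b)) =
          (fun i : Fin (N + 1) => pos w (o + (i : ℕ) * b)) then wgt β h η w' / Z β h η n else 0) =
        ZT β h η {w' : Fin n → Step d | ∀ i : Fin (N + 1),
          pos w' (o + (i : ℕ) * b) = pos w (o + (i : ℕ) * b)} / Z β h η n := by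
      unfold ZT
      rw [Finset.sum_div]
      refine Finset.sum_congr rfl fun w' _ => ?_
      by_cases h2 : (fun i : Fin (N + 1) => pos w' (o + (i : ℕ) * b)) =
          (fun i : Fin (N + 1) => pos w (o + (i : ℕ) * b))
      · rw [if_pos h2, if_pos (show w' ∈ {w' : Fin n → Step d | ∀ i : Fin (N + 1),
          pos w' (o + (i : ℕ) * b) = pos w (o + (i : ℕ) * b)} from fun i => congrFun h2 i)]
      · rw [if_neg h2, if_neg (fun h3 : w' ∈ {w' : Fin n → Step d | ∀ i : Fin (N + 1),
          pos w' (o + (i : ℕ) * b) = pos w (o + (i : ℕ) * b)} => h2 (funext h3)), zero_div]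
    rw [hsumW, Real.log_div hWpos.ne' hZ.ne', ← hwh]
    have hLpos : 0 < L := Z_pos hd _ _ _ _
    have hpos : 0 < P0 * ∏ i ∈ Finset.range N, SG β h η o b w i := by
      rw [← hwh] at hWpos
      exact (pos_iff_pos_of_mul_pos hWpos).2 hLpos
    have hP0nn : 0 ≤ P0 := PP_nonneg _ _ _ _ _
    have hPr : 0 ≤ ∏ i ∈ Finset.range N, SG β h η o b w i :=
      Finset.prod_nonneg fun i _ => SG_nonneg63 _ _ _ _ _ _ _
    have hP0pos : 0 < P0 := by
      rcases hP0nn.eq_or_lt with h2 | h2
      · rw [← h2, zero_mul] at hpos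
        exact absurd hpos (lt_irrefl _)
      · exact h2
    have hprpos : 0 < ∏ i ∈ Finset.range N, SG β h η o b w i := by
      rcases hPr.eq_or_lt with h2 | h2
      · rw [← h2, mul_zero] at hpos
        exact absurd hpos (lt_irrefl _)
      · exact h2
    have hSG : ∀ i < N, 0 < SG β h η o b w i := by
      intro i hi
      rcases (SG_nonneg63 β h η o b w i).eq_or_lt with h2 | h2
      · exact absurd (Finset.prod_eq_zero (Finset.mem_range.2 hi) h2.symm) hprpos.ne'
      · exact h2
    rw [Real.log_mul hpos.ne' hLpos.ne', Real.log_mul hP0pos.ne' hprpos.ne',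
      Real.log_prod fun i hi => (hSG i (Finset.mem_range.1 hi)).ne']
    -- the last piece
    have hlast : Real.log L ≤
        Real.log (∑ y ∈ boxF d n, Z β h (sh (o + N * b) y η) (n - (o + N * b))) := by
      refine Real.log_le_log hLpos ?_
      exact Finset.single_le_sum (f := fun y => Z β h (sh (o + N * b) y η) (n - (o + N * b)))
        (fun y _ => (Z_pos hd _ _ _ _).le) (pos_mem_boxF39 w hn)
    -- the rising sun
    set f : ℕ → ℝ := fun k => Real.log (SG β h η o b w k) - lm * b with hf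
    set dd : ℕ → ℝ := fun k => ψ (sh (o + k * b) (pos w (o + k * b)) η) with hdd
    have hsumf : ∀ k H : ℕ, k + H ≤ N → ∑ i ∈ Finset.range H, f (k + i) =
        Real.log (∏ i ∈ Finset.range H, SG β h η o b w (k + i)) - lm * (H * b : ℕ) := by
      intro k H hkH
      rw [Real.log_prod fun i hi => (hSG (k + i) (by
        have := Finset.mem_range.1 hi
        omega)).ne']
      simp only [hf]
      rw [Finset.sum_sub_distrib, Finset.sum_const, Finset.card_range, nsmul_eq_mul]
      push_cast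
      ring
    have hprk : ∀ k H : ℕ, k + H ≤ N → Real.log (∏ i ∈ Finset.range H, SG β h η o b w (k + i)) ≤
        X β h (sh (o + k * b) (pos w (o + k * b)) η) (H * b) := by
      intro k H hkH
      refine Real.log_le_log (Finset.prod_pos fun i hi => hSG (k + i) (by
        have := Finset.mem_range.1 hi
        omega)) (prod_SG63 β h η o b w H k)
    have hsun := sunC63 hGD N f dd
      (fun k => sh (o + k * b) (pos w (o + k * b)) η ∈ B)
      (fun k hk hkB => by
        have h4 : SG β h η o b w k ≤ Z β h (sh (o + k * b) (pos w (o + k * b)) η) b :=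
          PP_le_Z _ _ _ _ _
        have h5 := Real.log_le_log (hSG k hk) h4
        have h6 := h1 _ hkB
        unfold X at h6
        simp only [hf, hdd]
        linarith)
      (fun k hk => h2 _)
      (fun k hk hkB H hkH => by
        rw [hsumf k H hkH]
        have h5 := hprk k H hkH
        have h7 : H * b ≤ n := by
          have h8 : H * b ≤ N * b := Nat.mul_le_mul_right _ (by omega)
          omega
        have h6 := h3 _ hkB H h7
        linarith)
    have hR : RR63 G N f ≤ M - (Real.log P0 - lm * o) := by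
      have hall : ∀ H : ℕ, H ≤ N → ∑ i ∈ Finset.range H, f i ≤ M - (Real.log P0 - lm * o) := by
        intro H hH
        have h9 := hsumf 0 H (by omega)
        simp only [zero_add] at h9
        have hprH : 0 < ∏ i ∈ Finset.range H, SG β h η o b w i :=
          Finset.prod_pos fun i hi => hSG i (by
            have := Finset.mem_range.1 hi
            omega)
        have h10 := Real.log_le_log (mul_pos hP0pos hprH) (prod0_SG63 β h η o b w H)
        rw [Real.log_mul hP0pos.ne' hprH.ne'] at h10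
        have h11 : o + H * b ≤ n := by
          have : H * b ≤ N * b := Nat.mul_le_mul_right _ hH
          omega
        have h12 := hM (o + H * b) h11
        unfold X at h12
        rw [h9]
        push_cast at h12 ⊢
        linarith
      rcases RR_win63 G N f with h13 | ⟨m, hm1, hm2, h13⟩
      · rw [h13]
        have := hall 0 (Nat.zero_le _)
        simpa using this
      · rw [h13, Finset.sum_sub_distrib, Finset.sum_const, Finset.card_range, nsmul_eq_mul]
        have h14 := hall m hm2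
        have h15 : 0 ≤ (m : ℝ) * G := mul_nonneg (Nat.cast_nonneg _) hG
        linarith
    have hsumall : ∑ k ∈ Finset.range N, f k =
        (∑ i ∈ Finset.range N, Real.log (SG β h η o b w i)) - lm * (N * b : ℕ) := by
      simp only [hf]
      rw [Finset.sum_sub_distrib, Finset.sum_const, Finset.card_range, nsmul_eq_mul]
      push_cast
      ring
    rw [Finset.sum_sub_distrib, hsumall] at hsun
    have hif : (0 : ℝ) ≤ if 0 < RR63 G N f then G + D else 0 := by
      split_ifs
      · exact hGD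
      · exact le_rfl
    have hXn : X β h η n = Real.log (Z β h η n) := rfl
    rw [hXn]
    push_cast at hsun ⊢
    simp only [hdd] at hsun
    linarith
  -- the mean
  set q : (Fin n → Step d) → ℝ := fun w => wgt β h η w / Z β h η n with hq
  have hq0 : ∀ w, 0 < q w := fun w => div_pos (wgt_pos _ _ _ _) hZ
  have hq1 : ∑ w, q w = 1 := by
    simp only [hq]
    rw [← Finset.sum_div, ← Z_eq, div_self hZ.ne']
  have hne : ∀ r : ℕ, 0 < ((boxF d r).card : ℝ) := fun r => by
    exact_mod_cast Finset.card_pos.2 ⟨0, zero_mem_boxF r⟩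
  have hg := gibbs63 q hq0 (fun w => fun i : Fin (N + 1) => pos w (o + (i : ℕ) * b)) _
    (fun w => Finset.mem_image_of_mem _ (Finset.mem_univ w))
    (mul_pos (hne o) (pow_pos (hne b) N)) (cardT63 o b N hn) hq1
  rw [Real.log_mul (hne o).ne' (pow_pos (hne b) N).ne', Real.log_pow] at hg
  have hm := Finset.sum_le_sum fun w (_ : w ∈ Finset.univ) =>
    mul_le_mul_of_nonneg_left (hwalk w) (hq0 w).le
  have hpe : ∀ F : ℕ → (Fin n → Step d) → ℝ, ∑ k ∈ Finset.range N, pe β h η (F k) =
      ∑ w, q w * ∑ k ∈ Finset.range N, F k w := by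
    intro F
    unfold pe
    rw [← Finset.sum_div, Finset.sum_comm]
    simp only [hq]
    rw [Finset.sum_div]
    refine Finset.sum_congr rfl fun w _ => ?_
    rw [← Finset.mul_sum]
    ring
  rw [hpe, hpe (fun k w => if sh (o + k * b) (pos w (o + k * b)) η ∈ B then (1 : ℝ) else 0)]
  have hsp : ∀ (c a : ℝ) (F F' : (Fin n → Step d) → ℝ),
      ∑ w, q w * (c + (F w + a * F' w)) = c + (∑ w, q w * F w + a * ∑ w, q w * F' w) := by
    intro c a F F'
    simp only [mul_add]
    rw [Finset.sum_add_distrib, Finset.sum_add_distrib, ← Finset.sum_mul, hq1, one_mul,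
      Finset.mul_sum]
    congr 2
    exact Finset.sum_congr rfl fun w _ => by ring
  rw [hsp] at hm
  linarith

variable {ρ : Measure ℝ} [IsProbabilityMeasure ρ]

/-- The quenched mean of a function of the future at the time `t`. -/
noncomputable def uf63 (β : ℝ) (h : Vec d) (n t : ℕ) (ψ : Env d → ℝ) (η : Env d) : ℝ :=
  ∑ y ∈ boxF d t, Qt β h n t y η * ψ (sh t y η)

lemma uf_meas63 (β : ℝ) (h : Vec d) (n t : ℕ) {ψ : Env d → ℝ} (hψ : Measurable ψ) :
    Measurable (uf63 β h n t ψ) := by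
  unfold uf63
  exact Finset.measurable_sum _ fun y _ => (measurable_Qt39 β h n t y).mul
    (hψ.comp (measurable_sh t y))

lemma uf_le63 (hd : 0 < d) (β : ℝ) (h : Vec d) {n t : ℕ} (ht : t ≤ n) {ψ : Env d → ℝ} {P : ℝ}
    (hP : ∀ η, ψ η ≤ P) (η : Env d) : uf63 β h n t ψ η ≤ P := by
  unfold uf63
  calc ∑ y ∈ boxF d t, Qt β h n t y η * ψ (sh t y η)
      ≤ ∑ y ∈ boxF d t, Qt β h n t y η * P := Finset.sum_le_sum fun y _ =>
        mul_le_mul_of_nonneg_left (hP _) (Qt_nonneg39 _ _ _ _ _ _)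
    _ = P := by rw [← Finset.sum_mul, Qt_sum_box39 hd β h ht le_rfl η, one_mul]

lemma le_uf63 (hd : 0 < d) (β : ℝ) (h : Vec d) {n t : ℕ} (ht : t ≤ n) {ψ : Env d → ℝ} {P : ℝ}
    (hP : ∀ η, P ≤ ψ η) (η : Env d) : P ≤ uf63 β h n t ψ η := by
  unfold uf63
  calc P = ∑ y ∈ boxF d t, Qt β h n t y η * P := by
        rw [← Finset.sum_mul, Qt_sum_box39 hd β h ht le_rfl η, one_mul]
    _ ≤ ∑ y ∈ boxF d t, Qt β h n t y η * ψ (sh t y η) := Finset.sum_le_sum fun y _ =>
        mul_le_mul_of_nonneg_left (hP _) (Qt_nonneg39 _ _ _ _ _ _)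

lemma uf_int63 (hd : 0 < d) (β : ℝ) (h : Vec d) {n t : ℕ} (ht : t ≤ n) {ψ : Env d → ℝ}
    (hψ : Measurable ψ) {P : ℝ} (hP : ∀ η, |ψ η| ≤ P) :
    Integrable (uf63 β h n t ψ) (law d ρ) := by
  refine (integrable_const P).mono' (uf_meas63 β h n t hψ).aestronglyMeasurable
    (Eventually.of_forall fun η => ?_)
  rw [Real.norm_eq_abs, abs_le]
  exact ⟨le_uf63 hd β h ht (fun η => (abs_le.1 (hP η)).1) η,
    uf_le63 hd β h ht (fun η => (abs_le.1 (hP η)).2) η⟩

open Classical in
/-- The function at the site visited at the time `t`. -/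
lemma pe_fun63 (β : ℝ) (h : Vec d) (η : Env d) {n t : ℕ} (ht : t ≤ n) (ψ : Env d → ℝ) :
    pe β h η (fun w : Fin n → Step d => ψ (sh t (pos w t) η)) = uf63 β h n t ψ η := by
  unfold uf63
  have h1 : ∀ y ∈ boxF d t, Qt β h n t y η * ψ (sh t y η) =
      (∑ s : Fin n → Step d, (if pos s t = y then wgt β h η s *
        ψ (sh t (pos s t) η) else 0)) / Z β h η n := by
    intro y _
    rw [Qt_eq39 β h ht, div_mul_eq_mul_div, Finset.sum_mul]
    congr 1
    refine Finset.sum_congr rfl fun s _ => ?_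
    by_cases h2 : pos s t = y
    · rw [if_pos h2, if_pos h2, h2]
    · rw [if_neg h2, if_neg h2, zero_mul]
  rw [Finset.sum_congr rfl h1, ← Finset.sum_div, Finset.sum_comm]
  unfold pe
  congr 1
  refine Finset.sum_congr rfl fun s _ => ?_
  rw [Finset.sum_ite_eq, if_pos (pos_mem_boxF39 s le_rfl)]

open Classical in
/-- One offset, in the mean. -/
lemma ustOne63 (hd : 0 < d) (hρ : EM ρ) (β : ℝ) (h : Vec d) {n H o : ℕ} {K G D P : ℝ}
    (hH : 1 ≤ H) (hHn : H ≤ n) (ho : o < H) (hG : 0 ≤ G) (hGD : 0 ≤ G + D)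
    {ψ : Env d → ℝ} {B : Set (Env d)} (hψ : Measurable ψ) (hP : ∀ η, |ψ η| ≤ P)
    (hB : MeasurableSet B)
    (h1 : ∀ η' : Env d, η' ∉ B → X β h η' H - lam ρ β h * H ≤ ψ η')
    (h2 : ∀ η' : Env d, -D ≤ ψ η')
    (h3 : ∀ η' : Env d, η' ∉ B → ∀ m : ℕ, m * H ≤ n →
      X β h η' (m * H) ≤ lam ρ β h * (m * H : ℕ) + G * m)
    (hK : ∀ k : ℕ, k ≤ n → Va ρ β h k ≤ K) :
    -(∑ k ∈ Finset.range ((n - o) / H), ∫ η, uf63 β h n (o + k * H) ψ η ∂(law d ρ)) ≤
      2 * (G + D) * (∑ k ∈ Finset.range ((n - o) / H), us ρ β h n (o + k * H) B) +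
        Real.sqrt ((n + 1) * K) + W_7d29a1_SP.En ρ β h n +
        |lam ρ β h| * H + d * Real.log (2 * H + 1) +
        ((n - o) / H : ℕ) * (d * Real.log (2 * H + 1)) + d * Real.log (2 * n + 1) +
        H * |Real.log (Phi h * ∫ s, Real.exp (β * s) ∂ρ)| := by
  set N : ℕ := (n - o) / H with hN
  have hNH : N * H ≤ n - o := Nat.div_mul_le_self _ _
  have hon : o + N * H ≤ n := by omega
  have hrest : n - (o + N * H) < H := by
    have h1 := Nat.mod_add_div (n - o) H
    have h2 := Nat.mod_lt (n - o) (show H > 0 by omega)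
    rw [← hN, mul_comm] at h1
    omega
  set Mx : Env d → ℝ := fun η => Real.sqrt (∑ m ∈ Finset.range (n + 1),
    (X β h η m - A ρ β h m) ^ 2) with hMx
  obtain ⟨hMi, hMint⟩ := exc63 (ρ := ρ) hd hρ β h n hK
  have hM : ∀ η : Env d, ∀ m : ℕ, m ≤ n → X β h η m ≤ lam ρ β h * m + Mx η := by
    intro η m hm
    have h1 : |X β h η m - A ρ β h m| ≤ Mx η := by
      refine Real.abs_le_sqrt ?_
      exact Finset.single_le_sum (f := fun m => (X β h η m - A ρ β h m) ^ 2)
        (fun _ _ => sq_nonneg _) (Finset.mem_range.2 (by omega))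
    have h2 := A_le_lam (ρ := ρ) hd hρ β h m
    have h3 := le_abs_self (X β h η m - A ρ β h m)
    linarith
  obtain ⟨hLi, hLint⟩ := last63 (ρ := ρ) hd hρ β h n (o + N * H) (n - (o + N * H))
  have hkn : ∀ k ∈ Finset.range N, o + k * H ≤ n := fun k hk => by
    have hk' := Finset.mem_range.1 hk
    have : k * H ≤ N * H := Nat.mul_le_mul_right _ hk'.le
    omega
  -- pointwise
  have hpt : ∀ η : Env d, (∑ k ∈ Finset.range N, -(uf63 β h n (o + k * H) ψ η +
      2 * (G + D) * uq63 ρ β h n (o + k * H) B η)) ≤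
      (lam ρ β h * (o + N * H : ℕ) +
        (Real.log (boxF d o).card + N * Real.log (boxF d H).card)) + Mx η - X β h η n +
        Real.log (∑ y ∈ boxF d n, Z β h (sh (o + N * H) y η) (n - (o + N * H))) := by
    intro η
    have h4 := ustq63 hd β (lam ρ β h) h η o H N hon hG hGD ψ B h1 h2 h3 (hM η)
    have h5 : ∑ k ∈ Finset.range N, pe β h η (fun w : Fin n → Step d =>
        ψ (sh (o + k * H) (pos w (o + k * H)) η)) =
        ∑ k ∈ Finset.range N, uf63 β h n (o + k * H) ψ η :=
      Finset.sum_congr rfl fun k hk => pe_fun63 β h η (hkn k hk) ψ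
    have h6 : ∑ k ∈ Finset.range N, pe β h η (fun w : Fin n → Step d =>
        if sh (o + k * H) (pos w (o + k * H)) η ∈ B then (1 : ℝ) else 0) =
        ∑ k ∈ Finset.range N, uq63 ρ β h n (o + k * H) B η := by
      refine Finset.sum_congr rfl fun k hk => ?_
      rw [pe_site63 β h η (hkn k hk) (fun η' => η' ∈ B)]
      unfold uq63
      refine Finset.sum_congr rfl fun y _ => ?_
      rw [Set.indicator_apply]
    rw [h5, h6] at h4
    rw [Finset.sum_neg_distrib, Finset.sum_add_distrib, ← Finset.mul_sum]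
    linarith
  -- the mean
  have hki : ∀ k ∈ Finset.range N, Integrable (fun η : Env d =>
      -(uf63 β h n (o + k * H) ψ η + 2 * (G + D) * uq63 ρ β h n (o + k * H) B η))
      (law d ρ) := fun k hk =>
    ((uf_int63 hd β h (hkn k hk) hψ hP).add
      ((uq_int63 hd β h (hkn k hk) hB).const_mul _)).neg
  have hXi : Integrable (fun η : Env d => X β h η n) (law d ρ) := (concU hd hρ β h n).1
  obtain ⟨hri, hrint⟩ := int4_63 (lam ρ β h * (o + N * H : ℕ) +
    (Real.log (boxF d o).card + N * Real.log (boxF d H).card)) hMi hXi hLi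
  have hint := integral_mono (integrable_finset_sum _ hki) hri hpt
  rw [integral_finset_sum _ hki] at hint
  have h6 : ∑ k ∈ Finset.range N, ∫ η, -(uf63 β h n (o + k * H) ψ η +
      2 * (G + D) * uq63 ρ β h n (o + k * H) B η) ∂(law d ρ) =
      -(∑ k ∈ Finset.range N, ∫ η, uf63 β h n (o + k * H) ψ η ∂(law d ρ)) -
        2 * (G + D) * ∑ k ∈ Finset.range N, us ρ β h n (o + k * H) B := by
    rw [Finset.mul_sum, ← Finset.sum_neg_distrib, ← Finset.sum_sub_distrib]
    refine Finset.sum_congr rfl fun k hk => ?_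
    rw [integral_neg, integral_add (uf_int63 hd β h (hkn k hk) hψ hP)
      ((uq_int63 hd β h (hkn k hk) hB).const_mul _), integral_const_mul, us_eq63]
    ring
  rw [h6] at hint
  have hint2 := hint.trans (le_of_eq hrint)
  have hA : ∫ η, X β h η n ∂(law d ρ) = A ρ β h n := rfl
  rw [hA] at hint2
  rw [cardbox63, cardbox63] at hint2
  rw [cardbox63] at hLint
  have h8 : (o : ℝ) ≤ H := by exact_mod_cast ho.le
  have h9 : Real.log (2 * o + 1) ≤ Real.log (2 * H + 1) :=
    Real.log_le_log (by positivity) (by linarith)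
  have h10 : (d : ℝ) * Real.log (2 * o + 1) ≤ d * Real.log (2 * H + 1) :=
    mul_le_mul_of_nonneg_left h9 (Nat.cast_nonneg _)
  have h11 : ((n - (o + N * H) : ℕ) : ℝ) ≤ H := by exact_mod_cast hrest.le
  have h12 : ((n - (o + N * H) : ℕ) : ℝ) * |Real.log (Phi h * ∫ s, Real.exp (β * s) ∂ρ)| ≤
      H * |Real.log (Phi h * ∫ s, Real.exp (β * s) ∂ρ)| :=
    mul_le_mul_of_nonneg_right h11 (abs_nonneg _)
  have h13 : lam ρ β h * (o + N * H : ℕ) - A ρ β h n ≤
      W_7d29a1_SP.En ρ β h n + |lam ρ β h| * H := by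
    unfold W_7d29a1_SP.En
    have h14 : ((n - (o + N * H) : ℕ) : ℝ) = n - (o + N * H : ℕ) := Nat.cast_sub hon
    have h15 : -(lam ρ β h * ((n - (o + N * H) : ℕ) : ℝ)) ≤
        |lam ρ β h| * ((n - (o + N * H) : ℕ) : ℝ) := by
      rw [← neg_mul]
      exact mul_le_mul_of_nonneg_right (neg_le_abs _) (Nat.cast_nonneg _)
    have h16 := mul_le_mul_of_nonneg_left h11 (abs_nonneg (lam ρ β h))
    rw [h14] at h15 h16
    nlinarith
  linarith

/-- UST, abstract form: a bounded function `ψ` of the future which dominates the free energy of a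
block off the set `B`. -/
theorem ustA63 (hd : 0 < d) (hρ : EM ρ) (β : ℝ) (h : Vec d) : ∃ C : ℝ, 1 ≤ C ∧
    ∀ (n H : ℕ) (K G D P : ℝ) (ψ : Env d → ℝ) (B : Set (Env d)), 1 ≤ H → H ≤ n → 0 ≤ G →
      0 ≤ G + D → Measurable ψ → (∀ η, |ψ η| ≤ P) → MeasurableSet B →
      (∀ η : Env d, η ∉ B → X β h η H - lam ρ β h * H ≤ ψ η) → (∀ η : Env d, -D ≤ ψ η) →
      (∀ η : Env d, η ∉ B → ∀ m : ℕ, m * H ≤ n →
        X β h η (m * H) ≤ lam ρ β h * (m * H : ℕ) + G * m) →
      (∀ k : ℕ, k ≤ n → Va ρ β h k ≤ K) →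
      0 ≤ (∑ t ∈ Finset.range (n + 1 - H), ∫ η, uf63 β h n t ψ η ∂(law d ρ)) +
        2 * (G + D) * (∑ t ∈ Finset.range (n + 1 - H), us ρ β h n t B) +
        H * (W_7d29a1_SP.En ρ β h n + C * (H + 1) + C * Real.sqrt ((n + 1) * K)) +
        3 * d * n * Real.log (2 * H + 1) := by
  refine ⟨|lam ρ β h| + |Real.log (Phi h * ∫ s, Real.exp (β * s) ∂ρ)| + 1,
    by have := abs_nonneg (lam ρ β h); have := abs_nonneg (Real.log (Phi h *
      ∫ s, Real.exp (β * s) ∂ρ)); linarith, ?_⟩
  intro n H K G D P ψ B hH hHn hG hGD hψ hP hB hb1 hb2 hb3 hK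
  set la : ℝ := |lam ρ β h| with hla
  set lb : ℝ := |Real.log (Phi h * ∫ s, Real.exp (β * s) ∂ρ)| with hlb
  have hla0 : 0 ≤ la := abs_nonneg _
  have hlb0 : 0 ≤ lb := abs_nonneg _
  have h1 := Finset.sum_le_sum fun o (ho : o ∈ Finset.range H) =>
    ustOne63 (ρ := ρ) hd hρ β h hH hHn (Finset.mem_range.1 ho) hG hGD hψ hP hB hb1 hb2 hb3 hK
  rw [Finset.sum_neg_distrib, off63 hH hHn (fun t => ∫ η, uf63 β h n t ψ η ∂(law d ρ))] at h1
  have h2 : ∑ o ∈ Finset.range H, (((n - o) / H : ℕ) : ℝ) = n + 1 - H := by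
    have h3 := off63 hH hHn (fun _ => (1 : ℝ))
    simp only [Finset.sum_const, Finset.card_range, nsmul_eq_mul, mul_one] at h3
    rw [h3, Nat.cast_sub (by omega)]
    push_cast
    ring
  have h4 : ∑ o ∈ Finset.range H, (2 * (G + D) * (∑ k ∈ Finset.range ((n - o) / H),
        us ρ β h n (o + k * H) B) +
        Real.sqrt ((n + 1) * K) + W_7d29a1_SP.En ρ β h n +
        la * H + d * Real.log (2 * H + 1) +
        ((n - o) / H : ℕ) * (d * Real.log (2 * H + 1)) + d * Real.log (2 * n + 1) +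
        H * lb) = 2 * (G + D) * (∑ t ∈ Finset.range (n + 1 - H), us ρ β h n t B) +
        H * (Real.sqrt ((n + 1) * K) + W_7d29a1_SP.En ρ β h n +
        la * H + d * Real.log (2 * H + 1) + d * Real.log (2 * n + 1) + H * lb) +
        (n + 1 - H) * (d * Real.log (2 * H + 1)) := by
    rw [← h2, ← off63 hH hHn (fun t => us ρ β h n t B)]
    simp only [Finset.sum_add_distrib, Finset.sum_const, Finset.card_range, nsmul_eq_mul,
      ← Finset.mul_sum, ← Finset.sum_mul]
    ring
  rw [h4] at h1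
  have h8 := mul_le_mul_of_nonneg_left (hlog63 hH hHn) (Nat.cast_nonneg d : (0 : ℝ) ≤ d)
  have hn1 : (1 : ℝ) ≤ n := by exact_mod_cast hH.trans hHn
  have hlog0 : 0 ≤ Real.log (2 * (H : ℝ) + 1) := Real.log_nonneg (by
    have : (0 : ℝ) ≤ H := Nat.cast_nonneg _
    linarith)
  have hd0 : (0 : ℝ) ≤ d := Nat.cast_nonneg _
  have h9 : (1 : ℝ) * (d * Real.log (2 * H + 1)) ≤ n * (d * Real.log (2 * H + 1)) :=
    mul_le_mul_of_nonneg_right hn1 (mul_nonneg hd0 hlog0)
  have hH1 : (1 : ℝ) ≤ H := by exact_mod_cast hH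
  have hsq0 := Real.sqrt_nonneg ((n + 1) * K)
  have h10 : (H : ℝ) * Real.sqrt ((n + 1) * K) ≤
      H * ((la + lb + 1) * Real.sqrt ((n + 1) * K)) := by
    refine mul_le_mul_of_nonneg_left ?_ (by linarith)
    nlinarith
  have h11 : (H : ℝ) * (la * H + H * lb) ≤ H * ((la + lb + 1) * (H + 1)) := by
    refine mul_le_mul_of_nonneg_left ?_ (by linarith)
    nlinarith
  have e1 : (H : ℝ) * (Real.sqrt ((n + 1) * K) + W_7d29a1_SP.En ρ β h n + la * H +
      d * Real.log (2 * H + 1) + d * Real.log (2 * n + 1) + H * lb) =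
      H * Real.sqrt ((n + 1) * K) + H * W_7d29a1_SP.En ρ β h n + H * (la * H + H * lb) +
      H * (d * Real.log (2 * H + 1)) + d * (H * Real.log (2 * n + 1)) := by ring
  have e2 : (n + 1 - (H : ℝ)) * (d * Real.log (2 * H + 1)) =
      n * (d * Real.log (2 * H + 1)) + 1 * (d * Real.log (2 * H + 1)) -
      H * (d * Real.log (2 * H + 1)) := by ring
  have e3 : (d : ℝ) * (n * Real.log (2 * H + 1)) = n * (d * Real.log (2 * H + 1)) := by ring
  have e4 : (H : ℝ) * (W_7d29a1_SP.En ρ β h n + (la + lb + 1) * (H + 1) +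
      (la + lb + 1) * Real.sqrt ((n + 1) * K)) = H * W_7d29a1_SP.En ρ β h n +
      H * ((la + lb + 1) * (H + 1)) + H * ((la + lb + 1) * Real.sqrt ((n + 1) * K)) := by ring
  have e5 : (3 * (d : ℝ)) * n * Real.log (2 * H + 1) =
      3 * (n * (d * Real.log (2 * H + 1))) := by ring
  rw [e1, e2] at h1
  rw [e3] at h8
  rw [e4, e5]
  linarith

end Pool.Agent.W_7d29a1_PL
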