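import Pool.Agent.W_7d29a1_KZ.VarF62
import Pool.Agent.W_7d29a1_SNP.DefsN28

/-!
Leaf VAR of Theorem SNP: the variance and the upper tail at a level which is not cheap.
-/

set_option autoImplicit false

namespace Pool.Agent.W_7d29a1_SNP

open MeasureTheory ProbabilityTheory Filter Topology Pool.Agent.W_MP_7d29a1_pr
  Pool.Agent.W_7d29a1_h46 Pool.Agent.W_7d29a1_h46u Pool.Agent.W_7d29a1_D2.B35
  Pool.Agent.W_7d29a1_Q29 Pool.Agent.W_7d29a1_R34 Pool.Agent.W_7d29a1_SP Pool.Agent.W_7d29a1_SD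
  Pool.Agent.W_7d29a1_SQ Pool.Agent.W_7d29a1_PL Pool.Agent.W_7d29a1_KZ

variable {d : ℕ} {ρ : Measure ℝ} {β : ℝ}

/-- A level which is not cheap: growth with the exponent `log 2 / log Λ` after its time (pure). -/
theorem regf69 {f : ℕ → ℝ} {m : ℕ → ℕ} {p : ℕ} {Λ : ℝ} (hΛ : 1 < Λ)
    (hlo : ∀ l k : ℕ, k < m l → f k < 2 ^ l) (hm : 1 ≤ m p)
    (hnc : ∀ j : ℕ, Λ ^ (j + 1) * (m p : ℝ) < m (p + j + 1)) :
    ∀ T : ℕ, m p ≤ T → f T ≤ 2 * 2 ^ p * ((T : ℝ) / m p) ^ (Real.log 2 / Real.log Λ) := by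
  intro T hT
  have hm0 : (0 : ℝ) < m p := by exact_mod_cast hm
  have hT' : (m p : ℝ) ≤ T := by exact_mod_cast hT
  have hr : 1 ≤ (T : ℝ) / m p := by rwa [le_div_iff₀ hm0, one_mul]
  obtain ⟨j, hj1, hj2⟩ := exists_nat_pow_near hr hΛ
  have h1 : T < m (p + j + 1) := by
    have h2 : (T : ℝ) < m (p + j + 1) := by
      rw [div_lt_iff₀ hm0] at hj2
      exact hj2.trans (hnc j)
    exact_mod_cast h2
  have h3 := (hlo (p + j + 1) T h1).le
  have hlΛ : 0 < Real.log Λ := Real.log_pos hΛ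
  have h4 : (2 : ℝ) ^ j ≤ ((T : ℝ) / m p) ^ (Real.log 2 / Real.log Λ) := by
    have h5 : (2 : ℝ) ^ j = (Λ ^ j) ^ (Real.log 2 / Real.log Λ) := by
      rw [← Real.rpow_natCast Λ j, ← Real.rpow_mul (by linarith), mul_comm, Real.rpow_mul
        (by linarith), Real.rpow_natCast]
      congr 1
      rw [Real.rpow_def_of_pos (by linarith), mul_div_cancel₀ _ hlΛ.ne',
        Real.exp_log (by norm_num)]
    rw [h5]
    exact Real.rpow_le_rpow (by positivity) hj1 (by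
      have := Real.log_pos (show (1 : ℝ) < 2 by norm_num)
      positivity)
  calc f T ≤ 2 ^ (p + j + 1) := h3
    _ = 2 * 2 ^ p * 2 ^ j := by ring
    _ ≤ _ := mul_le_mul_of_nonneg_left h4 (by positivity)

/-- The running maxima at a level which is not cheap. -/
theorem regP69 [IsProbabilityMeasure ρ] {h : Vec d} {m : ℕ → ℕ} {p : ℕ} {Λ : ℝ} (hΛ : 1 < Λ)
    (hlo : ∀ l k : ℕ, k < m l → fM ρ β h k < 2 ^ l) (hm : 1 ≤ m p)
    (hnc : ∀ j : ℕ, Λ ^ (j + 1) * (m p : ℝ) < m (p + j + 1)) {B : ℕ} (hB : 1 ≤ B) :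
    ∀ T : ℕ, B * m p ≤ T → Ps ρ β h T ≤
      5 * (B : ℝ) ^ (Real.log 2 / Real.log Λ) * 2 ^ p *
        ((T : ℝ) / (B * m p : ℕ)) ^ (Real.log 2 / Real.log Λ) := by
  intro T hT
  set a : ℝ := Real.log 2 / Real.log Λ with ha
  have hlΛ : 0 < Real.log Λ := Real.log_pos hΛ
  have ha0 : 0 < a := by
    have := Real.log_pos (show (1 : ℝ) < 2 by norm_num)
    positivity
  have hm0 : (0 : ℝ) < m p := by exact_mod_cast hm
  have hB0 : (0 : ℝ) < B := by exact_mod_cast hB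
  have hmT : m p ≤ T := (Nat.le_mul_of_pos_left _ hB).trans hT
  have hmT' : (m p : ℝ) ≤ T := by exact_mod_cast hmT
  have hr : 1 ≤ (T : ℝ) / m p := by rwa [le_div_iff₀ hm0, one_mul]
  have hra : 1 ≤ ((T : ℝ) / m p) ^ a := Real.one_le_rpow hr ha0.le
  have h2p : (1 : ℝ) ≤ 2 ^ p := one_le_pow₀ (by norm_num)
  have key : ∀ k ≤ T, fM ρ β h k ≤ 2 * 2 ^ p * ((T : ℝ) / m p) ^ a := by
    intro k hk
    rcases Nat.lt_or_ge k (m p) with hk1 | hk1
    · have h1 := (hlo p k hk1).le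
      nlinarith
    · refine (regf69 hΛ hlo hm hnc k hk1).trans (mul_le_mul_of_nonneg_left ?_ (by positivity))
      refine Real.rpow_le_rpow (by positivity) ?_ ha0.le
      have hk2 : (k : ℝ) ≤ T := by exact_mod_cast hk
      gcongr
  have hE : (Finset.range (T + 1)).sup' ⟨0, by simp⟩ (En ρ β h) ≤
      2 * 2 ^ p * ((T : ℝ) / m p) ^ a := by
    refine Finset.sup'_le _ _ fun k hk => (le_max_left _ _).trans (key k ?_)
    simp only [Finset.mem_range] at hk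
    omega
  have hF : (Finset.range (T + 1)).sup' ⟨0, by simp⟩ (Fn ρ β h) ≤
      2 * 2 ^ p * ((T : ℝ) / m p) ^ a := by
    refine Finset.sup'_le _ _ fun k hk => (le_max_right _ _).trans (key k ?_)
    simp only [Finset.mem_range] at hk
    omega
  have h3 : Ps ρ β h T ≤ 5 * 2 ^ p * ((T : ℝ) / m p) ^ a := by
    unfold Ps
    have h4 : 1 ≤ 2 ^ p * ((T : ℝ) / m p) ^ a := one_le_mul_of_one_le_of_one_le h2p hra
    nlinarith
  refine h3.trans (le_of_eq ?_)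
  have h5 : (T : ℝ) / m p = B * ((T : ℝ) / (B * m p : ℕ)) := by
    push_cast
    field_simp
  rw [h5, Real.mul_rpow hB0.le (by positivity)]
  ring

/-- **VAR (tail)**: the upper tail at the lengths `≤ B m p`. -/
theorem tail69 [IsProbabilityMeasure ρ] (hC : CntP d ρ β) (c₀ Λ : ℝ) (hc₀ : 0 < c₀)
    (hΛ : 2 ≤ Λ) : ∃ C : ℝ, 1 ≤ C ∧ ∀ h : Vec d, Loc1 ρ β h c₀ → ∀ (m : ℕ → ℕ) (p B : ℕ),
      (∀ l k : ℕ, k < m l → fM ρ β h k < 2 ^ l) → 1 ≤ m p → 1 ≤ B →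
      (∀ j : ℕ, Λ ^ (j + 1) * (m p : ℝ) < m (p + j + 1)) →
      ∀ k : ℕ, 1 ≤ k → k ≤ B * m p → ∀ x : ℝ, 0 < x →
        (law d ρ).real {η | A ρ β h k + x ≤ X β h η k} ≤
          (C * 2 ^ p / x) ^ (Real.log Λ / Real.log 2) * B := by
  have hlΛ : 0 < Real.log Λ := Real.log_pos (by linarith)
  have hl2 : 0 < Real.log 2 := Real.log_pos (by norm_num)
  have ha0 : 0 < Real.log 2 / Real.log Λ := by positivity
  have ha1 : Real.log 2 / Real.log Λ ≤ 1 := by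
    rw [div_le_one hlΛ]
    exact Real.log_le_log (by norm_num) hΛ
  obtain ⟨C, hC1, hC2⟩ := tailF62 (d := d) (ρ := ρ) (β := β) hC c₀ _ hc₀ ha0 ha1
  refine ⟨5 * C, by linarith, fun h hloc m p B hlo hm hB hnc k hk hkB x hx => ?_⟩
  have hB0 : (0 : ℝ) < B := by exact_mod_cast hB
  have hB1 : (1 : ℝ) ≤ B := by exact_mod_cast hB
  have h2p : (1 : ℝ) ≤ 2 ^ p := one_le_pow₀ (by norm_num)
  have hBa : 1 ≤ (B : ℝ) ^ (Real.log 2 / Real.log Λ) := Real.one_le_rpow hB1 ha0.le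
  have h1 := hC2 h hloc (B * m p) (5 * (B : ℝ) ^ (Real.log 2 / Real.log Λ) * 2 ^ p)
    (Nat.mul_pos hB hm) (by nlinarith) (regP69 (by linarith) hlo hm hnc hB) k hk hkB x hx
  refine h1.trans (le_of_eq ?_)
  have h2 : C * (5 * (B : ℝ) ^ (Real.log 2 / Real.log Λ) * 2 ^ p) / x =
      (5 * C * 2 ^ p / x) * (B : ℝ) ^ (Real.log 2 / Real.log Λ) := by ring
  have h3 : (1 : ℝ) / (Real.log 2 / Real.log Λ) = Real.log Λ / Real.log 2 := by
    rw [one_div_div]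
  rw [h2, h3, Real.mul_rpow (by positivity) (by positivity), ← Real.rpow_mul hB0.le]
  congr 1
  rw [div_mul_div_comm, mul_comm (Real.log 2), div_self (by positivity), Real.rpow_one]

/-- **VAR**: the variance at the lengths `≤ B m p`. -/
theorem var69 [IsProbabilityMeasure ρ] (hV : VarF d ρ β) (c₀ Λ : ℝ) (hc₀ : 0 < c₀)
    (hΛ : 4 < Λ) : ∃ C : ℝ, 1 ≤ C ∧ ∀ h : Vec d, Loc1 ρ β h c₀ → ∀ (m : ℕ → ℕ) (p B : ℕ),
      (∀ l k : ℕ, k < m l → fM ρ β h k < 2 ^ l) → 1 ≤ m p → 1 ≤ B →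
      (∀ j : ℕ, Λ ^ (j + 1) * (m p : ℝ) < m (p + j + 1)) →
      ∀ k : ℕ, k ≤ B * m p → Va ρ β h k ≤ C * B * 4 ^ p := by
  have hlΛ : 0 < Real.log Λ := Real.log_pos (by linarith)
  have hl2 : 0 < Real.log 2 := Real.log_pos (by norm_num)
  have ha0 : 0 < Real.log 2 / Real.log Λ := by positivity
  have ha2 : Real.log 2 / Real.log Λ < 1 / 2 := by
    rw [div_lt_iff₀ hlΛ]
    have h1 : Real.log 4 < Real.log Λ := Real.log_lt_log (by norm_num) hΛ
    have h2 : Real.log 4 = 2 * Real.log 2 := by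
      rw [show (4 : ℝ) = 2 ^ 2 by norm_num, Real.log_pow]
      norm_num
    linarith
  obtain ⟨C, hC1, hC2⟩ := hV c₀ _ hc₀ ha0 ha2
  refine ⟨25 * C, by linarith, fun h hloc m p B hlo hm hB hnc k hkB => ?_⟩
  have hB0 : (0 : ℝ) < B := by exact_mod_cast hB
  have hB1 : (1 : ℝ) ≤ B := by exact_mod_cast hB
  have h2p : (1 : ℝ) ≤ 2 ^ p := one_le_pow₀ (by norm_num)
  have hBa : 1 ≤ (B : ℝ) ^ (Real.log 2 / Real.log Λ) := Real.one_le_rpow hB1 ha0.le
  have h1 := hC2 h hloc (B * m p) (5 * (B : ℝ) ^ (Real.log 2 / Real.log Λ) * 2 ^ p)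
    (Nat.mul_pos hB hm) (by nlinarith) (regP69 (by linarith) hlo hm hnc hB) k hkB
  refine h1.trans ?_
  have h3 : ((B : ℝ) ^ (Real.log 2 / Real.log Λ)) ^ 2 ≤ B := by
    rw [← Real.rpow_natCast, ← Real.rpow_mul hB0.le]
    conv_rhs => rw [← Real.rpow_one (B : ℝ)]
    refine Real.rpow_le_rpow_of_exponent_le hB1 ?_
    push_cast
    linarith
  have h4 : ((2 : ℝ) ^ p) ^ 2 = 4 ^ p := by
    rw [← pow_mul, mul_comm, pow_mul]
    norm_num
  calc C * (5 * (B : ℝ) ^ (Real.log 2 / Real.log Λ) * 2 ^ p) ^ 2 =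
      25 * C * (((B : ℝ) ^ (Real.log 2 / Real.log Λ)) ^ 2 * ((2 : ℝ) ^ p) ^ 2) := by ring
    _ ≤ 25 * C * (B * ((2 : ℝ) ^ p) ^ 2) := by
        have : 0 ≤ ((2 : ℝ) ^ p) ^ 2 := by positivity
        have hC0 : 0 ≤ 25 * C := by linarith
        exact mul_le_mul_of_nonneg_left (mul_le_mul_of_nonneg_right h3 this) hC0
    _ = _ := by rw [h4]; ring

/-- **Leaf VarN** (frozen literal of `DefsN28`). -/
theorem varN69 [IsProbabilityMeasure ρ] (hV : VarF d ρ β) : VarN d ρ β := by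
  intro c₀ Λ B hc₀ hΛ
  obtain ⟨C, hC1, hC2⟩ := var69 hV c₀ Λ hc₀ hΛ
  have hB1 : (1 : ℝ) ≤ (B + 1 : ℕ) := by exact_mod_cast Nat.succ_le_succ (Nat.zero_le B)
  have hlΛ : 0 < Real.log Λ := Real.log_pos (by linarith)
  have hl2 : 0 < Real.log 2 := Real.log_pos (by norm_num)
  have ha0 : 0 < Real.log 2 / Real.log Λ := by positivity
  have hBa : 1 ≤ ((B + 1 : ℕ) : ℝ) ^ (Real.log 2 / Real.log Λ) := Real.one_le_rpow hB1 ha0.le
  refine ⟨C * (B + 1 : ℕ) + 5 * ((B + 1 : ℕ) : ℝ) ^ (Real.log 2 / Real.log Λ), by nlinarith,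
    fun h hloc m p hm hnc hmp hCp k hk => ?_⟩
  have hk2 : k ≤ (B + 1) * m p := hk.trans (Nat.mul_le_mul_right _ (Nat.le_succ B))
  have h4p : (1 : ℝ) ≤ 4 ^ p := one_le_pow₀ (by norm_num)
  have h2p : (1 : ℝ) ≤ 2 ^ p := one_le_pow₀ (by norm_num)
  constructor
  · refine (hC2 h hloc m p (B + 1) hm.lo hmp (by omega) hnc k hk2).trans ?_
    nlinarith
  · have h1 := regP69 (by linarith) hm.lo hmp hnc (B := B + 1) (by omega) ((B + 1) * m p) le_rfl
    have h2 : (((B + 1) * m p : ℕ) : ℝ) / (((B + 1 : ℕ) * m p : ℕ) : ℝ) = 1 := by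
      refine div_self ?_
      have : 0 < (B + 1) * m p := Nat.mul_pos (by omega) hmp
      exact_mod_cast this.ne'
    rw [h2, Real.one_rpow, mul_one] at h1
    have h3 : fM ρ β h k ≤ Ps ρ β h ((B + 1) * m p) := by
      refine max_le ?_ ?_
      · exact (En_le_Ps32 h hk2).trans (by linarith)
      · exact (Fn_le_Ps32 h hk2).trans (by linarith)
    have h5 : 0 ≤ C * ((B + 1 : ℕ) : ℝ) * 2 ^ p := by positivity
    have h6 : (C * ((B + 1 : ℕ) : ℝ) + 5 * ((B + 1 : ℕ) : ℝ) ^ (Real.log 2 / Real.log Λ)) * 2 ^ p =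
        C * ((B + 1 : ℕ) : ℝ) * 2 ^ p +
          5 * ((B + 1 : ℕ) : ℝ) ^ (Real.log 2 / Real.log Λ) * 2 ^ p := by ring
    linarith

/-- Leaf VauN (second text). -/
theorem vauN69 [IsProbabilityMeasure ρ] (hV : VarF d ρ β) : VauN d ρ β := by
  intro h c₀ C x₁ hc₀ hloc hx hx2 hf
  obtain ⟨CV, hCV1, hCV⟩ := hV c₀ x₁ hc₀ hx hx2
  have hC0 : 0 ≤ |C| := abs_nonneg C
  refine ⟨CV * (1 + 2 * |C|) ^ 2, fun n => ?_⟩
  rcases Nat.eq_zero_or_pos n with h0 | hn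
  · subst h0
    have h1 : Va ρ β h 0 = 0 := by
      unfold Va
      have h2 : ∀ η : Env d, X β h η 0 = 0 := by
        intro η
        unfold X
        rw [Z_zero, Real.log_one]
      simp [h2, A_zero15]
    rw [h1]
    positivity
  have hn1 : (1 : ℝ) ≤ n := by exact_mod_cast hn
  have hn0 : (0 : ℝ) < n := by linarith
  have hnx : 1 ≤ (n : ℝ) ^ x₁ := Real.one_le_rpow hn1 hx.le
  have h1 := hCV h hloc n ((1 + 2 * |C|) * (n : ℝ) ^ x₁) hn (by nlinarith) (by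
    intro T hT
    have hT' : (n : ℝ) ≤ T := by exact_mod_cast hT
    have hT0 : (0 : ℝ) < T := by linarith
    have hTx : 1 ≤ (T : ℝ) ^ x₁ := Real.one_le_rpow (by linarith) hx.le
    have key : ∀ k ≤ T, fM ρ β h k ≤ |C| * (T : ℝ) ^ x₁ := by
      intro k hk
      refine (hf k).trans ?_
      have hk' : (k : ℝ) ≤ T := by exact_mod_cast hk
      have h3 : (k : ℝ) ^ x₁ ≤ (T : ℝ) ^ x₁ := Real.rpow_le_rpow (by positivity) hk' hx.le
      have h4 : 0 ≤ (k : ℝ) ^ x₁ := by positivity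
      calc C * (k : ℝ) ^ x₁ ≤ |C| * (k : ℝ) ^ x₁ :=
            mul_le_mul_of_nonneg_right (le_abs_self C) h4
        _ ≤ _ := mul_le_mul_of_nonneg_left h3 hC0
    have hE : (Finset.range (T + 1)).sup' ⟨0, by simp⟩ (En ρ β h) ≤ |C| * (T : ℝ) ^ x₁ := by
      refine Finset.sup'_le _ _ fun k hk => (le_max_left _ _).trans (key k ?_)
      simp only [Finset.mem_range] at hk
      omega
    have hF : (Finset.range (T + 1)).sup' ⟨0, by simp⟩ (Fn ρ β h) ≤ |C| * (T : ℝ) ^ x₁ := by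
      refine Finset.sup'_le _ _ fun k hk => (le_max_right _ _).trans (key k ?_)
      simp only [Finset.mem_range] at hk
      omega
    have h5 : (T : ℝ) ^ x₁ = (n : ℝ) ^ x₁ * ((T : ℝ) / n) ^ x₁ := by
      rw [← Real.mul_rpow (by positivity) (by positivity)]
      congr 1
      field_simp
    rw [mul_assoc, ← h5]
    unfold Ps
    nlinarith) n le_rfl
  refine h1.trans (le_of_eq ?_)
  have h6 : (n : ℝ) ^ (2 * x₁) = ((n : ℝ) ^ x₁) ^ 2 := by
    rw [← Real.rpow_natCast, ← Real.rpow_mul hn0.le]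
    congr 1
    push_cast
    ring
  rw [h6]
  ring

end Pool.Agent.W_7d29a1_SNP
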